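import Pool.Agent.Run7.h266.BddAct

/-!
# Finitely presented groups in full groups of bounded actions
-/

set_option autoImplicit false

namespace Run7.h266

open scoped Pointwise Topology

open Pool.Agent

universe w

section

variable {A : Type} {Γ : Type w} [Group Γ] [MulAction Γ (ℕ → A)]

/-- bounded actions are one-dimensional -/
theorem ba_oneD [Fintype A] (h : BA Γ A) : OneD Γ (ℕ → A) := by
  classical
  intro E hE
  have hE' : (E ∪ E⁻¹).Finite := hE.union hE.inv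
  obtain ⟨k, hk⟩ := ba_sep h hE'
  have hΔ : ∀ x : ℕ → A, (NB (fun x y : ℕ → A => ∃ γ ∈ E ∪ E⁻¹, y = γ • x) {x}).encard ≤
      ((E ∪ E⁻¹).ncard : ℕ) := by
    intro x
    have h1 : NB (fun x y : ℕ → A => ∃ γ ∈ E ∪ E⁻¹, y = γ • x) {x} ⊆
        (fun γ : Γ => γ • x) '' (E ∪ E⁻¹) := by
      rintro y ⟨r, rfl, γ, hγ, rfl⟩
      exact ⟨γ, hγ, rfl⟩
    refine (Set.encard_le_encard h1).trans ((Set.encard_image_le _ _).trans ?_)
    rw [hE'.cast_ncard_eq]
  have hsym : ∀ x y : ℕ → A, (∃ γ ∈ E ∪ E⁻¹, y = γ • x) → ∃ γ ∈ E ∪ E⁻¹, x = γ • y := by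
    rintro x _ ⟨γ, hγ, rfl⟩
    refine ⟨γ⁻¹, ?_, by rw [inv_smul_smul]⟩
    rcases hγ with hγ | hγ
    · exact Or.inr (by simpa using hγ)
    · exact Or.inl hγ
  obtain ⟨W, hW⟩ := sep_col hΔ hsym hk
  refine ⟨_, W, fun x => le_trans (Set.encard_le_encard ?_) (hW x)⟩
  intro y hy
  refine Relation.ReflTransGen.mono ?_ x y hy
  rintro a b ⟨hab, γ, hγ, rfl⟩
  exact ⟨hab, γ, Or.inl hγ, rfl⟩

/-- tail equivalence -/
def TE (x y : ℕ → A) : Prop := ∃ n, tl n x = tl n y

theorem tl_mono {x y : ℕ → A} {m n : ℕ} (h : m ≤ n) (hxy : tl m x = tl m y) : tl n x = tl n y := by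
  funext i
  have := congrFun hxy (n - m + i)
  unfold tl at this ⊢
  rwa [show m + (n - m + i) = n + i by omega] at this

theorem TE.symm {x y : ℕ → A} (h : TE x y) : TE y x := by
  obtain ⟨n, hn⟩ := h
  exact ⟨n, hn.symm⟩

theorem TE.trans {x y z : ℕ → A} (h : TE x y) (h' : TE y z) : TE x z := by
  obtain ⟨n, hn⟩ := h
  obtain ⟨m, hm⟩ := h'
  exact ⟨max n m, (tl_mono (le_max_left _ _) hn).trans (tl_mono (le_max_right _ _) hm)⟩

theorem tile_finite [Fintype A] (n : ℕ) (z : ℕ → A) : {y | tl n y = tl n z}.Finite := by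
  classical
  refine Set.Finite.of_finite_image (f := pre n) (Set.toFinite _) ?_
  rintro x hx y hy hxy
  exact pre_tl_inj hxy (hx.trans hy.symm)

/-- the bridges between tail classes are few -/
theorem bridges (E : Set Γ) {β : ℕ}
    (hβ : ∀ (m : ℕ) (P : Set (ℕ → A)), Set.InjOn (pre m) P →
      {y | y ∈ P ∧ ∃ γ ∈ E, y ∈ ex γ m}.encard ≤ β) :
    {x : ℕ → A | ∃ γ ∈ E, ¬ TE x (γ • x)}.encard ≤ β := by
  by_contra hcon
  rw [not_le] at hcon
  have h1 : ((β + 1 : ℕ) : ℕ∞) ≤ {x : ℕ → A | ∃ γ ∈ E, ¬ TE x (γ • x)}.encard := by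
    push_cast
    exact Order.add_one_le_of_lt hcon
  obtain ⟨F, hF, hFc⟩ := Set.exists_subset_encard_eq h1
  obtain ⟨n, hn⟩ := exists_pre_inj (Set.finite_of_encard_eq_coe hFc)
  have h2 : F ⊆ {y | y ∈ F ∧ ∃ γ ∈ E, y ∈ ex γ n} := by
    intro y hy
    obtain ⟨γ, hγ, hte⟩ := hF hy
    refine ⟨hy, γ, hγ, ?_⟩
    by_contra hex
    exact hte ⟨n, (tl_of_not_ex hex).symm⟩
  have h3 := (Set.encard_le_encard h2).trans (hβ n F hn)
  rw [hFc] at h3
  have h4 : β + 1 ≤ β := by exact_mod_cast h3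
  omega

/-- finitely presented groups in full groups of bounded actions -/
theorem ba_bound [Fintype A] {G : Type} [Group G] [Group.IsFinitelyPresented G] {L : Subgroup G}
    (hL : L.FG) (hU : Unseen L) (h : BA Γ A) (f : G →* Equiv.Perm (ℕ → A))
    (hf : ∀ g, PW Γ (f g)) : ∃ N : ℕ, ∀ x, {y | ∃ g ∈ L, y = f g x}.encard ≤ N := by
  classical
  obtain ⟨S0, hS0f, hS0⟩ := N6.W.exists_gen G
  obtain ⟨D, hD⟩ := twocol_isop hS0 hS0f hL hU
  obtain ⟨t, ht⟩ := twocol_full hS0f f hf (ba_oneD h) D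
  obtain ⟨C, hC⟩ := hD t
  obtain ⟨E, hE, hE2⟩ := pw_ball hS0f f hf
  obtain ⟨β, hβ⟩ := exits_le h hE
  let _ : MulAction G (ℕ → A) := MulAction.compHom (ℕ → A) f
  have hI := hC (ℕ → A) ht
  set Big : Set (ℕ → A) := {x | (C : ℕ∞) < (MulAction.orbit L x).encard} with hBig
  have hstep : ∀ g ∈ (S0 ∪ S0⁻¹ ∪ {1} : Set G), ∀ x : ℕ → A, ∃ γ ∈ E, g • x = γ • x := by
    intro g hg x
    obtain ⟨γ, hγ, e⟩ := hE2 1 g (by rwa [pow_one]) x
    rw [pow_one] at hγ
    exact ⟨γ, hγ, e⟩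
  -- few big points in each tile
  have htile : ∀ (n : ℕ) (z : ℕ → A), {y | y ∈ {y | tl n y = tl n z} ∧ y ∈ Big}.ncard ≤ C * β := by
    intro n z
    refine (hI _ (tile_finite n z)).trans (Nat.mul_le_mul_left _ ?_)
    have h1 : inb S0 {y | tl n y = tl n z} ⊆
        {y | y ∈ {y | tl n y = tl n z} ∧ ∃ γ ∈ E, y ∈ ex γ n} := by
      rintro y ⟨hy, s, hs, hsy⟩
      refine ⟨hy, ?_⟩
      have key : ∀ g ∈ (S0 ∪ S0⁻¹ ∪ {1} : Set G), g • y ∉ {y | tl n y = tl n z} →
          ∃ γ ∈ E, y ∈ ex γ n := by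
        intro g hg hgy
        obtain ⟨γ, hγ, e⟩ := hstep g hg y
        refine ⟨γ, hγ, ?_⟩
        by_contra hex
        apply hgy
        rw [e]
        exact (tl_of_not_ex hex).trans hy
      rcases hsy with hsy | hsy
      · exact key s (Or.inl (Or.inl hs)) hsy
      · exact key s⁻¹ (Or.inl (Or.inr (by simpa using hs))) hsy
    have h2 : Set.InjOn (pre n) {y | tl n y = tl n z} := fun x hx y hy hxy =>
      pre_tl_inj hxy (Eq.trans hx (Eq.symm hy))
    have h3 := hβ n _ h2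
    have h4 : {y | y ∈ {y | tl n y = tl n z} ∧ ∃ γ ∈ E, y ∈ ex γ n}.Finite :=
      (tile_finite n z).subset fun y hy => hy.1
    rw [← h4.cast_ncard_eq] at h3
    have h5 : {y | y ∈ {y | tl n y = tl n z} ∧ ∃ γ ∈ E, y ∈ ex γ n}.ncard ≤ β := by
      exact_mod_cast h3
    exact (Set.ncard_le_ncard h1 h4).trans h5
  -- few big points in each tail class
  have hclass : ∀ z : ℕ → A, {y | TE y z ∧ y ∈ Big}.encard ≤ (C * β : ℕ) := by
    intro z
    by_contra hcon
    rw [not_le] at hcon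
    have h1 : ((C * β + 1 : ℕ) : ℕ∞) ≤ {y | TE y z ∧ y ∈ Big}.encard := by
      push_cast
      push_cast at hcon
      exact Order.add_one_le_of_lt hcon
    obtain ⟨F, hF, hFc⟩ := Set.exists_subset_encard_eq h1
    have hFf := Set.finite_of_encard_eq_coe hFc
    have h2 : ∀ y ∈ F, ∃ n, tl n y = tl n z := fun y hy => (hF hy).1
    choose! n hn using h2
    obtain ⟨M, hM⟩ := (hFf.image n).bddAbove
    have h3 : F ⊆ {y | y ∈ {y | tl M y = tl M z} ∧ y ∈ Big} := fun y hy =>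
      ⟨tl_mono (hM ⟨y, hy, rfl⟩) (hn y hy), (hF hy).2⟩
    have h4 := Set.ncard_le_ncard h3 ((tile_finite M z).subset fun y hy => hy.1)
    have h5 : F.ncard = C * β + 1 := by
      rw [Set.ncard_def, hFc]
      rfl
    have h6 := htile M z
    omega
  -- few tail classes in each orbit
  have hbr := bridges E hβ
  set Br : Set (ℕ → A) := {x : ℕ → A | ∃ γ ∈ E, ¬ TE x (γ • x)} with hBr
  have hBrf : Br.Finite := Set.finite_of_encard_le_coe hbr
  have horb : ∀ x : ℕ → A, ∀ g : G, ∃ z ∈ insert x Br, TE (g • x) z := by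
    intro x g
    obtain ⟨n, hn⟩ := mem_gens_pow hS0 g
    induction n generalizing g with
    | zero =>
      rw [pow_zero] at hn
      rw [Set.mem_one.1 hn, one_smul]
      exact ⟨x, Or.inl rfl, 0, rfl⟩
    | succ n ih =>
      rw [pow_succ'] at hn
      obtain ⟨s, hs, g', hg', rfl⟩ := Set.mem_mul.1 hn
      obtain ⟨z, hz, hte⟩ := ih g' hg'
      rw [mul_smul]
      by_cases h1 : TE (s • g' • x) (g' • x)
      · exact ⟨z, hz, h1.trans hte⟩
      · refine ⟨s • g' • x, Or.inr ?_, 0, rfl⟩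
        have hs' : s⁻¹ ∈ (S0 ∪ S0⁻¹ ∪ {1} : Set G) := by
          rcases hs with (hs | hs) | hs
          · exact Or.inl (Or.inr (by simpa using hs))
          · exact Or.inl (Or.inl hs)
          · rw [Set.mem_singleton_iff.1 hs, inv_one]
            exact Or.inr rfl
        obtain ⟨γ, hγ, e⟩ := hstep s⁻¹ hs' (s • g' • x)
        refine ⟨γ, hγ, ?_⟩
        rw [← e, inv_smul_smul]
        exact h1
  refine ⟨C + (β + 1) * (C * β), fun x => ?_⟩
  rw [← orbit_comp f L x]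
  by_cases hx : (MulAction.orbit L x).encard ≤ C
  · refine hx.trans ?_
    exact_mod_cast Nat.le_add_right _ _
  rw [not_le] at hx
  have h1 : MulAction.orbit L x ⊆ ⋃ z ∈ (hBrf.insert x).toFinset, {y | TE y z ∧ y ∈ Big} := by
    rintro _ ⟨⟨g, hg⟩, rfl⟩
    obtain ⟨z, hz, hte⟩ := horb x g
    refine Set.mem_iUnion₂.2 ⟨z, by simpa using hz, hte, ?_⟩
    show (C : ℕ∞) < (MulAction.orbit L ((⟨g, hg⟩ : L) • x)).encard
    rw [MulAction.orbit_smul]
    exact hx
  have h2 : (hBrf.insert x).toFinset.card ≤ β + 1 := by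
    rw [← Set.ncard_eq_toFinset_card _ (hBrf.insert x)]
    have h3 := Set.ncard_insert_le x Br
    have h4 : Br.ncard ≤ β := by
      rw [← hBrf.cast_ncard_eq] at hbr
      exact_mod_cast hbr
    omega
  have hsum : ∀ s : Finset (ℕ → A), (⋃ z ∈ s, {y | TE y z ∧ y ∈ Big}).encard ≤
      ((s.card * (C * β) : ℕ) : ℕ∞) := by
    intro s
    induction s using Finset.induction_on with
    | empty => simp
    | insert a s ha ih =>
      rw [Finset.set_biUnion_insert, Finset.card_insert_of_notMem ha]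
      refine (Set.encard_union_le _ _).trans ((add_le_add (hclass a) ih).trans (le_of_eq ?_))
      rw [← Nat.cast_add]
      congr 1
      ring
  calc (MulAction.orbit L x).encard ≤ _ := Set.encard_le_encard h1
    _ ≤ (((hBrf.insert x).toFinset.card * (C * β) : ℕ) : ℕ∞) := hsum _
    _ ≤ ((C + (β + 1) * (C * β) : ℕ) : ℕ∞) := by
        have := Nat.mul_le_mul_right (C * β) h2
        exact_mod_cast this.trans (Nat.le_add_left _ _)

theorem ba_finite [Fintype A] {G : Type} [Group G] [Group.IsFinitelyPresented G] {L : Subgroup G}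
    (hL : L.FG) (hU : Unseen L) (h : BA Γ A) (f : G →* Equiv.Perm (ℕ → A))
    (hf : ∀ g, PW Γ (f g)) : (f '' (L : Set G)).Finite := by
  obtain ⟨N, hN⟩ := ba_bound hL hU h f hf
  exact image_finite f hL N hN

end

end Run7.h266
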