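import Pool.Agent.Run7.h266.OneDimB
import Pool.Agent.N6.W.Betti
import Pool.Agent.N6.W.Types
import Pool.Agent.R673.MG.Types

/-!
# One-dimensional actions: full groups, topological full groups, intermediate growth
-/

set_option autoImplicit false

namespace Run7.h266

open scoped Pointwise Topology commutatorElement

open Pool.Agent

universe w

section Full

variable {G : Type} [Group G] {Γ : Type w} [Group Γ] {X : Type} [MulAction Γ X]

/-- growth of the action of `Γ` -/
def SubExpA (Γ : Type w) [Group Γ] (X : Type) [MulAction Γ X] : Prop :=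
  ∀ E : Set Γ, E.Finite → ∀ (x : X) (c : ℝ), 0 < c → ∀ n₀ : ℕ, ∃ n : ℕ, n₀ ≤ n ∧
    (({y | ∃ γ ∈ E ^ n, y = γ • x} : Set X).ncard : ℝ) ≤ Real.exp (c * n)

theorem orbit_comp (f : G →* Equiv.Perm X) (L : Subgroup G) (x : X) :
    let _ : MulAction G X := MulAction.compHom X f
    MulAction.orbit L x = {y | ∃ g ∈ L, y = f g x} := by
  intro _
  ext y
  constructor
  · rintro ⟨⟨g, hg⟩, rfl⟩
    exact ⟨g, hg, rfl⟩
  · rintro ⟨g, hg, rfl⟩
    exact ⟨⟨g, hg⟩, rfl⟩

/-- the image in a one-dimensional full group -/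
theorem full_finite [Group.IsFinitelyPresented G] {L : Subgroup G} (hL : L.FG)
    (hU : Unseen L) (hN : (Subgroup.normalizer (L : Set G)).FiniteIndex)
    (f : G →* Equiv.Perm X) (hf : ∀ g, PW Γ (f g)) (hX : OneD Γ X)
    (hsm : SubExpA Γ X ∨ ∃ μ : Set G → ℝ, Mean G μ) :
    (f '' (L : Set G)).Finite := by
  classical
  obtain ⟨S0, hS0f, hS0⟩ := N6.W.exists_gen G
  obtain ⟨D, hD⟩ := twocol_vn hS0 hS0f hL hU hN
  obtain ⟨t, ht⟩ := twocol_full hS0f f hf hX D
  obtain ⟨C, c, hc, hC⟩ := hD t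
  refine image_finite f hL C fun x => ?_
  rw [← orbit_comp f L x]
  let _ : MulAction G X := MulAction.compHom X f
  rcases (hC X ht).2 x with h | h
  · exact h
  · exfalso
    refine bounded_of hc (x := x) ?_ h
    rcases hsm with hs | hs
    · left
      obtain ⟨E, hE, hE2⟩ := pw_ball hS0f f hf
      intro y c' hc' n₀
      obtain ⟨n, hn, h1⟩ := hs E hE y c' hc' n₀
      refine ⟨n, hn, le_trans ?_ h1⟩
      have h2 : ({y' | ∃ γ ∈ E ^ n, y' = γ • y} : Set X).Finite := by
        refine ((pow_finite' hE n).image fun γ => γ • y).subset ?_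
        rintro _ ⟨γ, hγ, rfl⟩
        exact ⟨γ, hγ, rfl⟩
      refine Nat.cast_le.2 (Set.ncard_le_ncard ?_ h2)
      rintro _ ⟨g, hg, rfl⟩
      obtain ⟨γ, hγ, e⟩ := hE2 n g hg y
      exact ⟨γ, hγ, e⟩
    · exact Or.inr hs

/-- the points with big orbits form a null set -/
theorem full_null [Group.IsFinitelyPresented G] {L : Subgroup G} (hL : L.FG)
    (hU : Unseen L) (f : G →* Equiv.Perm X) (hf : ∀ g, PW Γ (f g)) (hX : OneD Γ X) :
    ∃ C : ℕ, ∀ m : Set X → ℝ, m Set.univ = 1 → (∀ A, 0 ≤ m A) →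
      (∀ A B : Set X, Disjoint A B → m (A ∪ B) = m A + m B) →
      (∀ (γ : Γ) (A : Set X), m ((fun x => γ • x) ⁻¹' A) = m A) →
      m {x | (C : ℕ∞) < {y | ∃ g ∈ L, y = f g x}.encard} = 0 := by
  classical
  obtain ⟨S0, hS0f, hS0⟩ := N6.W.exists_gen G
  obtain ⟨D, hD⟩ := twocol_isop hS0 hS0f hL hU
  obtain ⟨t, ht⟩ := twocol_full hS0f f hf hX D
  obtain ⟨C, hC⟩ := hD t
  refine ⟨C, fun m h0 h1 h2 h3 => ?_⟩
  let _ : MulAction G X := MulAction.compHom X f
  have hm : Mean G m := ⟨h0, h1, h2, fun g A => mean_full h2 h3 (hf g) A⟩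
  have h4 := mean_big hS0f (hC X ht) hm
  have h5 : {x | (C : ℕ∞) < {y | ∃ g ∈ L, y = f g x}.encard} =
      {x : X | (C : ℕ∞) < (MulAction.orbit L x).encard} := by
    ext x
    rw [Set.mem_ofPred_eq, Set.mem_ofPred_eq, ← orbit_comp f L x]
  rw [h5]
  exact h4

/-- big orbits form an open set -/
theorem big_open [TopologicalSpace X] [T2Space X] (f : G →* (X ≃ₜ X)) (L : Subgroup G) (C : ℕ) :
    IsOpen {x | (C : ℕ∞) < {y | ∃ g ∈ L, y = f g x}.encard} := by
  classical
  rw [isOpen_iff_mem_nhds]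
  intro x hx
  have h1 : ((C + 1 : ℕ) : ℕ∞) ≤ {y | ∃ g ∈ L, y = f g x}.encard := by
    push_cast
    exact Order.add_one_le_of_lt hx
  obtain ⟨t, ht, htc⟩ := Set.exists_subset_encard_eq h1
  have htf : t.Finite := Set.finite_of_encard_eq_coe htc
  choose g hg hgx using fun y : t => ht y.2
  have : Finite t := htf.to_subtype
  obtain ⟨U, hU, hUd⟩ := t.toFinite.t2_separation
  -- near `x` the translates stay in the disjoint neighbourhoods
  have h2 : ∀ᶠ z in 𝓝 x, ∀ y : t, f (g y) z ∈ U y := by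
    rw [Filter.eventually_all]
    intro y
    have h3 : Filter.Tendsto (fun z => f (g y) z) (𝓝 x) (𝓝 (f (g y) x)) :=
      (f (g y)).continuous.tendsto x
    have h4 : f (g y) x = (y : X) := (hgx y).symm
    rw [h4] at h3
    exact h3.eventually ((hU y).2.mem_nhds (hU y).1)
  filter_upwards [h2] with z hz
  have hinj : Function.Injective fun y : t => f (g y) z := by
    intro y y' hyy
    by_contra hne
    have h3 := hUd y.2 y'.2 (fun e => hne (Subtype.ext e))
    refine Set.disjoint_left.1 h3 (hz y) ?_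
    have : f (g y) z = f (g y') z := hyy
    rw [this]
    exact hz y'
  show (C : ℕ∞) < _
  have h3 : (Set.range fun y : t => f (g y) z) ⊆ {y | ∃ g ∈ L, y = f g z} := by
    rintro _ ⟨y, rfl⟩
    exact ⟨g y, hg y, rfl⟩
  have h4 : (Set.range fun y : t => f (g y) z).encard = ((C + 1 : ℕ) : ℕ∞) := by
    rw [← Set.image_univ, hinj.encard_image, Set.encard_univ, ENat.card_coe_set_eq, htc]
  refine lt_of_lt_of_le ?_ (Set.encard_le_encard h3)
  rw [h4]
  exact_mod_cast Nat.lt_succ_self C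

/-- minimal actions with an invariant mean -/
theorem top_finite [Group.IsFinitelyPresented G] {L : Subgroup G} (hL : L.FG)
    (hU : Unseen L) [TopologicalSpace X] [CompactSpace X] [T2Space X] [ContinuousConstSMul Γ X]
    (hX : OneD Γ X) (hmin : ∀ U : Set X, IsOpen U → U.Nonempty → ∀ x, ∃ γ : Γ, γ • x ∈ U)
    {m : Set X → ℝ} (h0 : m Set.univ = 1) (h1 : ∀ A, 0 ≤ m A)
    (h2 : ∀ A B : Set X, Disjoint A B → m (A ∪ B) = m A + m B)
    (h3 : ∀ (γ : Γ) (A : Set X), m ((fun x => γ • x) ⁻¹' A) = m A)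
    (f : G →* (X ≃ₜ X)) (hf : ∀ g x, ∃ γ : Γ, ∀ᶠ y in 𝓝 x, f g y = γ • y) :
    (f '' (L : Set G)).Finite := by
  classical
  let ι : (X ≃ₜ X) →* Equiv.Perm X :=
    { toFun := Homeomorph.toEquiv
      map_one' := rfl
      map_mul' := fun _ _ => rfl }
  have hι : Function.Injective ι := Homeomorph.toEquiv_injective
  have hf' : ∀ g, PW Γ ((ι.comp f) g) := by
    intro g
    choose γ hγ using hf g
    obtain ⟨t, ht⟩ := CompactSpace.elim_nhds_subcover (fun x => {y | f g y = γ x • y}) hγ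
    refine ⟨γ '' (t : Set X), t.finite_toSet.image _, fun x => ?_⟩
    have hx : x ∈ (⋃ z ∈ t, {y | f g y = γ z • y}) := by rw [ht]; trivial
    obtain ⟨z, hz, hxz⟩ := Set.mem_iUnion₂.1 hx
    exact ⟨γ z, ⟨z, hz, rfl⟩, hxz⟩
  obtain ⟨C, hC⟩ := full_null hL hU (ι.comp f) hf' hX
  have hnull := hC m h0 h1 h2 h3
  have hopen := big_open f L C
  have hempty : {x | (C : ℕ∞) < {y | ∃ g ∈ L, y = f g x}.encard} = ∅ := by
    by_contra hne
    rw [← Ne, ← Set.nonempty_iff_ne_empty] at hne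
    set U := {x | (C : ℕ∞) < {y | ∃ g ∈ L, y = f g x}.encard} with hUdef
    choose γ hγ using hmin U hopen hne
    have hcont : ∀ g : Γ, Continuous fun x : X => g • x := fun g => continuous_const_smul g
    obtain ⟨t, ht⟩ := CompactSpace.elim_nhds_subcover (fun x => (fun y => γ x • y) ⁻¹' U)
      (fun x => (hopen.preimage (hcont (γ x))).mem_nhds (hγ x))
    have hempty : m ∅ = 0 := by
      have := h2 ∅ ∅ (by simp)
      simp at this
      linarith
    have hle : ∀ s : Finset X, m (⋃ x ∈ s, (fun y => γ x • y) ⁻¹' U) ≤ 0 := by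
      intro s
      induction s using Finset.induction_on with
      | empty => simp [hempty]
      | insert a s _ ih =>
        rw [Finset.set_biUnion_insert]
        have e1 := h2 ((fun y => γ a • y) ⁻¹' U)
          ((⋃ x ∈ s, (fun y => γ x • y) ⁻¹' U) \ ((fun y => γ a • y) ⁻¹' U))
          Set.disjoint_sdiff_right
        rw [Set.union_sdiff_self] at e1
        have e2 := h2 ((⋃ x ∈ s, (fun y => γ x • y) ⁻¹' U) \ ((fun y => γ a • y) ⁻¹' U))
          ((⋃ x ∈ s, (fun y => γ x • y) ⁻¹' U) ∩ ((fun y => γ a • y) ⁻¹' U))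
          (Set.disjoint_left.2 fun z hz hz' => hz.2 hz'.2)
        rw [Set.sdiff_union_inter] at e2
        have e3 := h1 ((⋃ x ∈ s, (fun y => γ x • y) ⁻¹' U) ∩ ((fun y => γ a • y) ⁻¹' U))
        have e4 := h3 (γ a) U
        have e5 : m U = 0 := hnull
        rw [e1]
        linarith
    have h6 := hle t
    have h7 : (⋃ x ∈ t, (fun y : X => γ x • y) ⁻¹' U) = Set.univ := ht
    rw [h7, h0] at h6
    linarith
  have hfin : ((ι.comp f) '' (L : Set G)).Finite := by
    refine image_finite (ι.comp f) hL C fun x => ?_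
    by_contra hx
    rw [not_le] at hx
    have : x ∈ {x | (C : ℕ∞) < {y | ∃ g ∈ L, y = f g x}.encard} := hx
    rw [hempty] at this
    exact this
  have h2' : (ι.comp f) '' (L : Set G) = ι '' (f '' (L : Set G)) := by
    rw [Set.image_image]; rfl
  rw [h2'] at hfin
  exact hfin.of_finite_image hι.injOn

end Full

/-- commutator subgroups are normalized -/
theorem le_normalizer_comm {G : Type} [Group G] (K : Subgroup G) :
    K ≤ Subgroup.normalizer ((⁅K, K⁆ : Subgroup G) : Set G) := by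
  have hle : (⁅K, K⁆ : Subgroup G) ≤ K := Subgroup.commutator_le_self K
  have key : ∀ k ∈ K, ∀ x ∈ (⁅K, K⁆ : Subgroup G), k * x * k⁻¹ ∈ (⁅K, K⁆ : Subgroup G) := by
    intro k hk x hx
    have h1 : k * x * k⁻¹ = ⁅k, x⁆ * x := by
      rw [commutatorElement_def]
      group
    rw [h1]
    exact Subgroup.mul_mem _ (Subgroup.commutator_mem_commutator hk (hle hx)) hx
  intro k hk
  rw [Subgroup.mem_normalizer_iff]
  intro x
  constructor
  · exact key k hk x
  · intro hx
    have := key k⁻¹ (K.inv_mem hk) _ hx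
    rwa [inv_inv, show k⁻¹ * (k * x * k⁻¹) * k = x by group] at this

/-- bounded Betti numbers -/
theorem betti_one {G : Type} [Group G] [Group.IsFinitelyPresented G] {P : Type*} [Group P]
    (f : G →* P)
    (hf : ∀ C : Subgroup G, C.FG → Unseen C →
      (Subgroup.normalizer (C : Set G)).FiniteIndex → (f '' (C : Set G)).Finite) (b : ℕ)
    (hb : ∀ K : Subgroup G, K.FiniteIndex → N6.W.bet K ≤ b)
    (hc : ∀ K : Subgroup G, K.FiniteIndex → (⁅K, K⁆ : Subgroup G).FG) :
    ∃ A : Subgroup G, A.FiniteIndex ∧ ∀ a ∈ A, ∀ a' ∈ A, f a * f a' = f a' * f a := by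
  have hG : Group.FG G := by
    obtain ⟨S, hSf, hS⟩ := N6.W.exists_gen G
    exact ⟨⟨hSf.toFinset, by rw [hSf.coe_toFinset]; exact hS⟩⟩
  obtain ⟨K, hK, hmax⟩ := N6.W.exists_max b hb
  have h1 := N6.W.unseen_comm hG K hK hmax
  have h2 : Unseen (⁅K, K⁆ : Subgroup G) := by
    intro K' hK' ψ k hk
    by_contra hne
    exact h1 ⟨K', hK', ψ, k, hk, hne⟩
  have h3 : (Subgroup.normalizer ((⁅K, K⁆ : Subgroup G) : Set G)).FiniteIndex :=
    Subgroup.finiteIndex_of_le (le_normalizer_comm K)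
  exact N6.W.exists_abelian hG f K hK (hf _ (hc K hK) h2 h3)

end Run7.h266
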