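import Pool.Agent.Run7.h266.OneDimC

/-!
# One-dimensional actions: the final forms
-/

set_option autoImplicit false

namespace Run7.h266

open scoped Pointwise Topology

open Pool.Agent

universe w

/-- the alternative from the inequality -/
theorem vn_of_isop {G : Type} [Group G] {S0 : Set G}
    (hS : Subgroup.closure S0 = ⊤) (hfin : S0.Finite) {H : Subgroup G}
    (hN : (Subgroup.normalizer (H : Set G)).FiniteIndex) (C : ℕ) :
    ∃ c : ℝ, 0 < c ∧ ∀ (Ω : Type) [MulAction G Ω],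
      Isop S0 C {x : Ω | (C : ℕ∞) < (MulAction.orbit H x).encard} →
        ∀ x : Ω, (MulAction.orbit H x).encard ≤ C ∨
          ((∀ n : ℕ, Real.exp (c * n) ≤ 2 * (Bl S0 n x).ncard) ∧
            ∀ m : Set Ω → ℝ, Mean G m → m (MulAction.orbit G x) = 0) := by
  obtain ⟨d, hd, hcos⟩ := short_cosets hS (Subgroup.normalizer (H : Set G)) hN
  set C2 : ℕ := C * ((S0 ∪ S0⁻¹ ∪ {1}) ^ d : Set G).ncard with hC2
  refine ⟨Real.log (1 + 1 / ((C2 + 1 : ℕ) : ℝ)) / d, ?_, fun Ω _ hI x => ?_⟩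
  · have h1 : 0 < Real.log (1 + 1 / ((C2 + 1 : ℕ) : ℝ)) := by
      apply Real.log_pos
      have : 0 < 1 / ((C2 + 1 : ℕ) : ℝ) := by positivity
      linarith
    have h2 : (0 : ℝ) < d := by exact_mod_cast hd
    positivity
  have hB : ∀ k ∈ Subgroup.normalizer (H : Set G),
      ∀ y ∈ {x : Ω | (C : ℕ∞) < (MulAction.orbit H x).encard},
      k • y ∈ {x : Ω | (C : ℕ∞) < (MulAction.orbit H x).encard} := by
    intro k hk y hy
    have h1 := orbit_smul_le (Ω := Ω) (Subgroup.inv_mem _ hk) (k • y)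
    rw [inv_smul_smul] at h1
    exact lt_of_lt_of_le hy h1
  by_cases hx : (MulAction.orbit H x).encard ≤ C
  · exact Or.inl hx
  right
  rw [not_le] at hx
  constructor
  · have h1 := vn_growth hfin hd hcos hI hB (x := x) hx
    refine exp_of_pow hd (by omega) (b := fun n => (Bl S0 n x).ncard) ?_ ?_
    · intro a b hab
      exact Set.ncard_le_ncard (bl_mono hab) (bl_finite hfin _ _)
    · intro j
      have h2 := h1 j
      rw [← hC2] at h2
      rcases Nat.eq_zero_or_pos C2 with h3 | h3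
      · rcases Nat.eq_zero_or_pos j with h4 | h4
        · subst h4
          simpa using h2
        · rw [h3, zero_pow (by omega), Nat.zero_mul] at h2
          simp at h2
      · have h4 : C2 ^ j * (C2 + 1 + 1) ^ j ≤ C2 ^ j * ((C2 + 1) ^ j * (Bl S0 (d * j) x).ncard) := by
          calc C2 ^ j * (C2 + 1 + 1) ^ j = (C2 * (C2 + 1 + 1)) ^ j := (mul_pow _ _ _).symm
            _ ≤ ((C2 + 1) * (C2 + 1)) ^ j := Nat.pow_le_pow_left (by nlinarith) j
            _ = (C2 + 1) ^ j * (C2 + 1) ^ j := mul_pow _ _ _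
            _ ≤ (C2 + 1) ^ j * (C2 ^ j * (Bl S0 (d * j) x).ncard) := Nat.mul_le_mul_left _ h2
            _ = C2 ^ j * ((C2 + 1) ^ j * (Bl S0 (d * j) x).ncard) := by ring
        exact Nat.le_of_mul_le_mul_left h4 (pow_pos h3 j)
  · intro m hm
    have h1 := vn_mean hfin hcos hI hB hm
    refine le_antisymm ?_ (hm.nonneg _)
    rw [← h1]
    refine hm.mono ?_
    rintro _ ⟨g, rfl⟩
    exact ⟨g⁻¹, by
      show (C : ℕ∞) < (MulAction.orbit H (g⁻¹ • g • x)).encard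
      rw [inv_smul_smul]
      exact hx⟩

/-- the main alternative with all the conclusions -/
theorem twocol_all {G : Type} [Group G] [Group.IsFinitelyPresented G] {S0 : Set G}
    (hS : Subgroup.closure S0 = ⊤) (hfin : S0.Finite) {H : Subgroup G} (hH : H.FG)
    (hU : Unseen H) :
    ∃ D : ℕ, ∀ t : ℕ, ∃ C : ℕ, ∃ c : ℝ, 0 < c ∧ ∀ (Ω : Type) [MulAction G Ω],
      TwoCol Ω ((S0 ∪ S0⁻¹ ∪ {1}) ^ D) t →
        Isop S0 C {x : Ω | (C : ℕ∞) < (MulAction.orbit H x).encard} ∧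
        (∀ m : Set Ω → ℝ, Mean G m → m {x : Ω | (C : ℕ∞) < (MulAction.orbit H x).encard} = 0) ∧
        ((Subgroup.normalizer (H : Set G)).FiniteIndex →
          ∀ x : Ω, (MulAction.orbit H x).encard ≤ C ∨
            ((∀ n : ℕ, Real.exp (c * n) ≤ 2 * (Bl S0 n x).ncard) ∧
              ∀ m : Set Ω → ℝ, Mean G m → m (MulAction.orbit G x) = 0)) := by
  obtain ⟨D, hD⟩ := twocol_isop hS hfin hH hU
  refine ⟨D, fun t => ?_⟩
  obtain ⟨C, hC⟩ := hD t
  by_cases hN : (Subgroup.normalizer (H : Set G)).FiniteIndex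
  · obtain ⟨c, hc, h⟩ := vn_of_isop hS hfin hN C
    exact ⟨C, c, hc, fun Ω _ hA => ⟨hC Ω hA, fun m hm => mean_big hfin (hC Ω hA) hm,
      fun _ => h Ω (hC Ω hA)⟩⟩
  · exact ⟨C, 1, one_pos, fun Ω _ hA => ⟨hC Ω hA, fun m hm => mean_big hfin (hC Ω hA) hm,
      fun h => absurd h hN⟩⟩

section Full

variable {G : Type} [Group G] {Γ : Type w} [Group Γ] {X : Type} [MulAction Γ X]

theorem ncard_pow_le {S : Set G} (hS : S.Finite) (n : ℕ) : (S ^ n).ncard ≤ S.ncard ^ n := by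
  classical
  have h : ((hS.toFinset ^ n : Finset G) : Set G) = S ^ n := by
    rw [Finset.coe_pow, hS.coe_toFinset]
  rw [← h, Set.ncard_coe_finset, Set.ncard_eq_toFinset_card S hS]
  exact Finset.card_pow_le

/-- growth of the group and growth of its orbits -/
theorem subexp_of_growth (S : Finset G) (hS : Subgroup.closure (S : Set G) = ⊤)
    (h : ∀ c : ℝ, 0 < c → ∃ r : ℕ,
      ((((S : Set G) ∪ (S : Set G)⁻¹ ∪ {1}) ^ r).ncard : ℝ) < Real.exp (c * r))
    {S0 : Set G} (hfin : S0.Finite) (Ω : Type) [MulAction G Ω] : SubExp S0 Ω := by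
  classical
  intro x c' hc' n₀
  have h1 : (1 : G) ∈ (S : Set G) ∪ (S : Set G)⁻¹ ∪ {1} := Or.inr rfl
  set B : Set G := (S : Set G) ∪ (S : Set G)⁻¹ ∪ {1} with hB
  have hBfin : B.Finite := (S.finite_toSet.union S.finite_toSet.inv).union (Set.finite_singleton 1)
  choose κ hκ using fun g : G => mem_gens_pow hS g
  have hS0' : (S0 ∪ S0⁻¹ ∪ {1}).Finite := (hfin.union hfin.inv).union (Set.finite_singleton 1)
  obtain ⟨k, hk1, hk⟩ : ∃ k : ℕ, 1 ≤ k ∧ S0 ∪ S0⁻¹ ∪ {1} ⊆ B ^ k := by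
    refine ⟨hS0'.toFinset.sup κ + 1, by omega, fun g hg => ?_⟩
    exact Set.pow_subset_pow_right h1 ((Finset.le_sup (f := κ) (by simpa using hg)).trans
      (Nat.le_succ _)) (hκ g)
  have hkR : (1 : ℝ) ≤ k := by exact_mod_cast hk1
  obtain ⟨r, hr⟩ := h (c' / k) (by positivity)
  have hr1 : 1 ≤ r := by
    by_contra hr0
    have hr0' : r = 0 := by omega
    subst hr0'
    have h2 : (B ^ 0 : Set G).ncard = 1 := by rw [pow_zero]; exact Set.ncard_singleton 1
    rw [h2] at hr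
    norm_num at hr
  refine ⟨(n₀ + 1) * r, by nlinarith, ?_⟩
  have h2 : Bl S0 ((n₀ + 1) * r) x ⊆ (fun g : G => g • x) '' (B ^ (k * ((n₀ + 1) * r))) := by
    rintro _ ⟨g, hg, rfl⟩
    refine ⟨g, ?_, rfl⟩
    rw [pow_mul]
    exact Set.pow_subset_pow_left hk hg
  have hpf : (B ^ (k * ((n₀ + 1) * r))).Finite := pow_finite' hBfin _
  have h3 : (Bl S0 ((n₀ + 1) * r) x).ncard ≤ (B ^ r).ncard ^ (k * (n₀ + 1)) := by
    calc (Bl S0 ((n₀ + 1) * r) x).ncard
        ≤ ((fun g : G => g • x) '' (B ^ (k * ((n₀ + 1) * r)))).ncard :=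
          Set.ncard_le_ncard h2 (hpf.image _)
      _ ≤ (B ^ (k * ((n₀ + 1) * r))).ncard := Set.ncard_image_le hpf
      _ = ((B ^ r) ^ (k * (n₀ + 1))).ncard := by rw [← pow_mul]; congr 2; ring
      _ ≤ _ := ncard_pow_le (pow_finite' hBfin r) _
  calc ((Bl S0 ((n₀ + 1) * r) x).ncard : ℝ) ≤ ((B ^ r).ncard : ℝ) ^ (k * (n₀ + 1)) := by
        exact_mod_cast h3
    _ ≤ Real.exp (c' / k * r) ^ (k * (n₀ + 1)) := pow_le_pow_left₀ (Nat.cast_nonneg _) hr.le _
    _ = Real.exp (c' * ((n₀ + 1) * r : ℕ)) := by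
        rw [← Real.exp_nat_mul]
        congr 1
        push_cast
        field_simp

/-- the image in a one-dimensional full group -/
theorem full_finite' [Group.IsFinitelyPresented G] {L : Subgroup G} (hL : L.FG)
    (hU : Unseen L) (hN : (Subgroup.normalizer (L : Set G)).FiniteIndex)
    (f : G →* Equiv.Perm X) (hf : ∀ g, PW Γ (f g)) (hX : OneD Γ X)
    (hsm : (let _ : MulAction G X := MulAction.compHom X f
      ∀ S0 : Set G, S0.Finite → SubExp S0 X) ∨ ∃ μ : Set G → ℝ, Mean G μ) :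
    (f '' (L : Set G)).Finite := by
  classical
  obtain ⟨S0, hS0f, hS0⟩ := N6.W.exists_gen G
  obtain ⟨D, hD⟩ := twocol_vn hS0 hS0f hL hU hN
  obtain ⟨t, ht⟩ := twocol_full hS0f f hf hX D
  obtain ⟨C, c, hc, hC⟩ := hD t
  refine image_finite f hL C fun x => ?_
  rw [← orbit_comp f L x]
  let _ : MulAction G X := MulAction.compHom X f
  rcases (hC X ht).2 x with h | h
  · exact h
  · exfalso
    exact bounded_of hc (x := x) (hsm.imp (fun hs => hs S0 hS0f) id) h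

theorem subexp_full (f : G →* Equiv.Perm X) (hf : ∀ g, PW Γ (f g)) (hs : SubExpA Γ X) :
    let _ : MulAction G X := MulAction.compHom X f
    ∀ S0 : Set G, S0.Finite → SubExp S0 X := by
  intro _ S0 hS0f
  obtain ⟨E, hE, hE2⟩ := pw_ball hS0f f hf
  intro y c' hc' n₀
  obtain ⟨n, hn, h1⟩ := hs E hE y c' hc' n₀
  refine ⟨n, hn, le_trans ?_ h1⟩
  have h2 : ({y' | ∃ γ ∈ E ^ n, y' = γ • y} : Set X).Finite := by
    refine ((pow_finite' hE n).image fun γ => γ • y).subset ?_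
    rintro _ ⟨γ, hγ, rfl⟩
    exact ⟨γ, hγ, rfl⟩
  refine Nat.cast_le.2 (Set.ncard_le_ncard ?_ h2)
  rintro _ ⟨g, hg, rfl⟩
  obtain ⟨γ, hγ, e⟩ := hE2 n g hg y
  exact ⟨γ, hγ, e⟩

/-- bounded Betti numbers and subexponential growth -/
theorem type7_one [Group.IsFinitelyPresented G] (S : Finset G)
    (hS : Subgroup.closure (S : Set G) = ⊤)
    (h : ∀ c : ℝ, 0 < c → ∃ r : ℕ,
      ((((S : Set G) ∪ (S : Set G)⁻¹ ∪ {1}) ^ r).ncard : ℝ) < Real.exp (c * r)) (b : ℕ)
    (hb : ∀ K : Subgroup G, K.FiniteIndex → N6.W.bet K ≤ b)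
    (f : G →* Equiv.Perm X) (hf : ∀ g, PW Γ (f g)) (hX : OneD Γ X) :
    ∃ A : Subgroup G, A.FiniteIndex ∧ ∀ a ∈ A, ∀ a' ∈ A, f a * f a' = f a' * f a := by
  have hG : Group.FG G := ⟨⟨S, hS⟩⟩
  have hNF := N6.W.no_freePair S hS h
  refine betti_one f (fun C hC hCU hCN => full_finite' hC hCU hCN f hf hX ?_) b hb
    fun K hK => N6.W.commutator_sub_fg hG hNF K hK
  left
  intro _ S0 hS0
  exact subexp_of_growth S hS h hS0 X

end Full

end Run7.h266
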