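import Pool.Agent.Run7.h266.OneDimC

/-!
# Actions of less than quadratic growth
-/

set_option autoImplicit false

namespace Run7.h266

open scoped Pointwise Topology

open Pool.Agent

universe w

/-- small balls at one scale -/
theorem quad_isop {G : Type} [Group G] [Group.IsFinitelyPresented G] {S0 : Set G}
    (hS : Subgroup.closure S0 = ⊤) (hfin : S0.Finite) {H : Subgroup G} (hH : H.FG)
    (hU : Unseen H) :
    ∃ D : ℕ, 0 < D ∧ ∀ r0 : ℕ, ∃ C : ℕ, ∀ (Ω : Type) [MulAction G Ω],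
      (∀ ω : Ω, ∃ r ≤ r0, D * (Bl S0 r ω).ncard ≤ r ^ 2) →
        Isop S0 C {x : Ω | (C : ℕ∞) < (MulAction.orbit H x).encard} := by
  obtain ⟨D, hD, h⟩ := isop_growth hS hfin hH hU
  refine ⟨D, hD, fun r0 => ?_⟩
  obtain ⟨C, hC⟩ := h r0
  refine ⟨C, fun Ω _ hΩ Y hY => hC Ω (fun ω => ?_) Y hY⟩
  obtain ⟨r, hr, h1⟩ := hΩ ω
  refine ⟨r, hr, ?_⟩
  rw [← (bl_finite hfin r ω).cast_ncard_eq]
  exact_mod_cast h1

theorem cube_lt {c : ℝ} (hc : 0 < c) : ∃ r1 : ℕ, 1 ≤ r1 ∧ ∀ r : ℕ, r1 ≤ r → ∀ b : ℝ, b ≤ (r : ℝ) ^ 2 →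
    Real.exp (c * r) ≤ 2 * b → False := by
  obtain ⟨n, hn⟩ := exists_nat_gt (54 / c ^ 3)
  refine ⟨n + 1, by omega, fun r hr b hb hexp => ?_⟩
  have hr' : (n : ℝ) + 1 ≤ r := by exact_mod_cast hr
  have hn0 : (0 : ℝ) ≤ n := Nat.cast_nonneg n
  have hrpos : (0 : ℝ) < r := by linarith
  have h1 : 54 / c ^ 3 < r := by linarith
  have hc3 : 0 < c ^ 3 := by positivity
  rw [div_lt_iff₀ hc3] at h1
  have h2 : c * r / 3 + 1 ≤ Real.exp (c * r / 3) := Real.add_one_le_exp _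
  have h3 : 0 < c * r / 3 := by positivity
  have h4 : (c * r / 3) ^ 3 < Real.exp (c * r) := by
    have h5 : Real.exp (c * r) = Real.exp (c * r / 3) ^ 3 := by
      rw [← Real.exp_nat_mul]
      congr 1
      push_cast
      ring
    rw [h5]
    exact pow_lt_pow_left₀ (by linarith) h3.le (by norm_num)
  have h6 : (c * r / 3) ^ 3 = (r * c ^ 3) * (r : ℝ) ^ 2 / 27 := by ring
  rw [h6] at h4
  have h7 : 54 * (r : ℝ) ^ 2 < (r * c ^ 3) * (r : ℝ) ^ 2 :=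
    mul_lt_mul_of_pos_right h1 (by positivity)
  linarith

/-- The alternative for groups which are not virtually indicable. -/
theorem quad_top {G : Type} [Group G] [Group.IsFinitelyPresented G] {S0 : Set G}
    (hS : Subgroup.closure S0 = ⊤) (hfin : S0.Finite) (hU : Unseen (⊤ : Subgroup G)) :
    ∃ D : ℕ, 0 < D ∧ ∀ (Ω : Type) [MulAction G Ω],
      (∃ N : ℕ, ∀ x : Ω, (MulAction.orbit G x).encard ≤ N) ∨
        ∃ r1 : ℕ, ∀ r, r1 ≤ r → ∃ ω : Ω, r ^ 2 < D * (Bl S0 r ω).ncard := by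
  have hfg : (⊤ : Subgroup G).FG := ⟨hfin.toFinset, by rw [hfin.coe_toFinset]; exact hS⟩
  obtain ⟨D, hD, h⟩ := quad_isop hS hfin hfg hU
  refine ⟨D, hD, fun Ω _ => ?_⟩
  by_contra hcon
  push Not at hcon
  obtain ⟨h1, h2⟩ := hcon
  have htop : ∀ x : Ω, MulAction.orbit (⊤ : Subgroup G) x = MulAction.orbit G x := by
    intro x
    ext y
    constructor
    · rintro ⟨⟨g, -⟩, rfl⟩
      exact ⟨g, rfl⟩
    · rintro ⟨g, rfl⟩
      exact ⟨⟨g, trivial⟩, rfl⟩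
  obtain ⟨r0, -, hr0⟩ := h2 1
  obtain ⟨C, hC⟩ := h r0
  have hI := hC Ω (fun ω => ⟨r0, le_rfl, hr0 ω⟩)
  obtain ⟨x, hx⟩ := h1 C
  have hg := grow_exp hfin hI (x := x) (fun y hy => by
    show (C : ℕ∞) < (MulAction.orbit (⊤ : Subgroup G) y).encard
    rw [htop, MulAction.orbit_eq_iff.2 hy]
    exact hx)
  have hg' : ∀ j, (C + 1 + 1) ^ j ≤ (C + 1) ^ j * (Bl S0 (1 * j) x).ncard := by
    intro j
    rw [one_mul]
    have h3 := hg j
    rcases Nat.eq_zero_or_pos C with h4 | h4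
    · rcases Nat.eq_zero_or_pos j with h5 | h5
      · subst h5
        simpa using h3
      · rw [h4, zero_pow (by omega), Nat.zero_mul] at h3
        simp at h3
    · have h5 : C ^ j * (C + 1 + 1) ^ j ≤ C ^ j * ((C + 1) ^ j * (Bl S0 j x).ncard) := by
        calc C ^ j * (C + 1 + 1) ^ j = (C * (C + 1 + 1)) ^ j := (mul_pow _ _ _).symm
          _ ≤ ((C + 1) * (C + 1)) ^ j := Nat.pow_le_pow_left (by nlinarith) j
          _ = (C + 1) ^ j * (C + 1) ^ j := mul_pow _ _ _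
          _ ≤ (C + 1) ^ j * (C ^ j * (Bl S0 j x).ncard) := Nat.mul_le_mul_left _ h3
          _ = C ^ j * ((C + 1) ^ j * (Bl S0 j x).ncard) := by ring
      exact Nat.le_of_mul_le_mul_left h5 (pow_pos h4 j)
  have hexp := exp_of_pow (C := C + 1) (d := 1) le_rfl (by omega)
    (b := fun n => (Bl S0 n x).ncard)
    (fun a b hab => Set.ncard_le_ncard (bl_mono hab) (bl_finite hfin _ _)) hg'
  have hcpos : 0 < Real.log (1 + 1 / ((C + 1 : ℕ) : ℝ)) / (1 : ℕ) := by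
    rw [Nat.cast_one, div_one]
    apply Real.log_pos
    have : 0 < 1 / ((C + 1 : ℕ) : ℝ) := by positivity
    linarith
  obtain ⟨r1, hr1, hcube⟩ := cube_lt hcpos
  obtain ⟨r, hr, hr'⟩ := h2 r1
  refine hcube r hr ((Bl S0 r x).ncard : ℝ) ?_ (hexp r)
  have h3 := hr' x
  have h4 : (Bl S0 r x).ncard ≤ D * (Bl S0 r x).ncard := Nat.le_mul_of_pos_left _ hD
  exact_mod_cast h4.trans h3

/-- growth less than quadratic, for an action of any group -/
def SubQ (Γ : Type w) [Group Γ] (X : Type) [MulAction Γ X] : Prop :=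
  ∀ E : Set Γ, E.Finite → ∀ δ : ℝ, 0 < δ → ∀ n₀ : ℕ, ∃ n : ℕ, n₀ ≤ n ∧ ∀ x : X,
    (({y | ∃ γ ∈ E ^ n, y = γ • x} : Set X).ncard : ℝ) ≤ δ * (n : ℝ) ^ 2

section Full

variable {G : Type} [Group G] {Γ : Type w} [Group Γ] {X : Type} [MulAction Γ X]

/-- bounded orbits in full groups of actions of growth less than quadratic -/
theorem quad_bound [Group.IsFinitelyPresented G] {L : Subgroup G} (hL : L.FG)
    (hU : Unseen L) (hX : SubQ Γ X) (f : G →* Equiv.Perm X) (hf : ∀ g, PW Γ (f g)) :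
    ∃ N : ℕ, ∀ x, {y | ∃ g ∈ L, y = f g x}.encard ≤ N := by
  classical
  obtain ⟨S0, hS0f, hS0⟩ := N6.W.exists_gen G
  obtain ⟨D, hD, hD2⟩ := quad_isop hS0 hS0f hL hU
  obtain ⟨lam, hlam⟩ := grow_quad hS0 hS0f hL
  obtain ⟨E, hE, hE2⟩ := pw_ball hS0f f hf
  have hDR : (0 : ℝ) < D := by exact_mod_cast hD
  obtain ⟨r0, hr0, hr0'⟩ := hX E hE (1 / D) (by positivity) 1
  obtain ⟨C, hC⟩ := hD2 r0
  obtain ⟨n, hn, hn'⟩ := hX E hE (1 / (4 * (C : ℝ) * lam + 1)) (by positivity) 1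
  let _ : MulAction G X := MulAction.compHom X f
  have hball : ∀ (m : ℕ) (x : X), (Bl S0 m x).ncard ≤
      ({y | ∃ γ ∈ E ^ m, y = γ • x} : Set X).ncard := by
    intro m x
    have h2 : ({y' | ∃ γ ∈ E ^ m, y' = γ • x} : Set X).Finite := by
      refine ((pow_finite' hE m).image fun γ => γ • x).subset ?_
      rintro _ ⟨γ, hγ, rfl⟩
      exact ⟨γ, hγ, rfl⟩
    refine Set.ncard_le_ncard ?_ h2
    rintro _ ⟨g, hg, rfl⟩
    obtain ⟨γ, hγ, e⟩ := hE2 m g hg x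
    exact ⟨γ, hγ, e⟩
  have hI := hC X (fun ω => ⟨r0, le_rfl, by
    have h1 : ((Bl S0 r0 ω).ncard : ℝ) ≤ 1 / D * (r0 : ℝ) ^ 2 :=
      (Nat.cast_le.2 (hball r0 ω)).trans (hr0' ω)
    have h2 : (D : ℝ) * (Bl S0 r0 ω).ncard ≤ (r0 : ℝ) ^ 2 := by
      calc (D : ℝ) * (Bl S0 r0 ω).ncard ≤ D * (1 / D * (r0 : ℝ) ^ 2) :=
            mul_le_mul_of_nonneg_left h1 hDR.le
        _ = (r0 : ℝ) ^ 2 := by field_simp
    exact_mod_cast h2⟩)
  refine ⟨C + ((S0 ∪ S0⁻¹ ∪ {1}) ^ n : Set G).ncard, fun x => ?_⟩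
  rw [← orbit_comp f L x]
  by_cases hx : (MulAction.orbit L x).encard ≤ C
  · refine hx.trans ?_
    exact_mod_cast Nat.le_add_right _ _
  rw [not_le] at hx
  rcases hlam X C C hI x hx n with h | h
  · have h3 := bl_finite hS0f n x
    calc (MulAction.orbit L x).encard ≤ (Bl S0 n x).encard := Set.encard_le_encard h
      _ = ((Bl S0 n x).ncard : ℕ∞) := by rw [h3.cast_ncard_eq]
      _ ≤ ((C + ((S0 ∪ S0⁻¹ ∪ {1}) ^ n : Set G).ncard : ℕ) : ℕ∞) := by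
          have := bl_ncard_le hS0f n x
          exact_mod_cast this.trans (Nat.le_add_left _ _)
  · exfalso
    have h1 : ((Bl S0 n x).ncard : ℝ) ≤ 1 / (4 * (C : ℝ) * lam + 1) * (n : ℝ) ^ 2 :=
      (Nat.cast_le.2 (hball n x)).trans (hn' x)
    have h2 : (n : ℝ) ^ 2 ≤ 2 * C * lam * (Bl S0 n x).ncard := by exact_mod_cast h
    have hnR : (1 : ℝ) ≤ n := by exact_mod_cast hn
    have hn2 : (0 : ℝ) < (n : ℝ) ^ 2 := by positivity
    have h3 : (4 * (C : ℝ) * lam + 1) * (Bl S0 n x).ncard ≤ (n : ℝ) ^ 2 := by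
      have hpos : (0 : ℝ) < 4 * (C : ℝ) * lam + 1 := by positivity
      calc (4 * (C : ℝ) * lam + 1) * (Bl S0 n x).ncard
          ≤ (4 * (C : ℝ) * lam + 1) * (1 / (4 * (C : ℝ) * lam + 1) * (n : ℝ) ^ 2) :=
            mul_le_mul_of_nonneg_left h1 hpos.le
        _ = (n : ℝ) ^ 2 := by field_simp
    have h4 : (0 : ℝ) ≤ (Bl S0 n x).ncard := Nat.cast_nonneg _
    nlinarith

theorem quad_finite [Group.IsFinitelyPresented G] {L : Subgroup G} (hL : L.FG)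
    (hU : Unseen L) (hX : SubQ Γ X) (f : G →* Equiv.Perm X) (hf : ∀ g, PW Γ (f g)) :
    (f '' (L : Set G)).Finite := by
  obtain ⟨N, hN⟩ := quad_bound hL hU hX f hf
  exact image_finite f hL N hN

theorem quad_finite_top [Group.IsFinitelyPresented G] {L : Subgroup G} (hL : L.FG)
    (hU : Unseen L) (hX : SubQ Γ X) [TopologicalSpace X] [CompactSpace X] (f : G →* (X ≃ₜ X))
    (h : ∀ g x, ∃ γ : Γ, ∀ᶠ y in 𝓝 x, f g y = γ • y) :
    (f '' (L : Set G)).Finite := by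
  classical
  let ι : (X ≃ₜ X) →* Equiv.Perm X :=
    { toFun := Homeomorph.toEquiv
      map_one' := rfl
      map_mul' := fun _ _ => rfl }
  have hι : Function.Injective ι := Homeomorph.toEquiv_injective
  have h1 : ((ι.comp f) '' (L : Set G)).Finite := by
    refine quad_finite hL hU hX (ι.comp f) fun g => ?_
    choose γ hγ using h g
    obtain ⟨t, ht⟩ := CompactSpace.elim_nhds_subcover (fun x => {y | f g y = γ x • y}) hγ
    refine ⟨γ '' (t : Set X), t.finite_toSet.image _, fun x => ?_⟩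
    have hx : x ∈ (⋃ z ∈ t, {y | f g y = γ z • y}) := by rw [ht]; trivial
    obtain ⟨z, hz, hxz⟩ := Set.mem_iUnion₂.1 hx
    exact ⟨γ z, ⟨z, hz, rfl⟩, hxz⟩
  have h2 : (ι.comp f) '' (L : Set G) = ι '' (f '' (L : Set G)) := by
    rw [Set.image_image]; rfl
  rw [h2] at h1
  exact h1.of_finite_image hι.injOn

end Full

end Run7.h266
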