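import Mathlib

/-!
# Words acting on sets, collars, paths

`S : Sys L` is an alphabet with an involution and a set of relators of length at most `S.ℓ`. A map
`A : L → X → X` in which all relators act trivially (`IsAct`) is an action of the presented group.
The collar `N S A U` of a set `U` consists of the points from which the boundary of `U` can be crossed
by a path of length at most `S.ℓ`.
-/

set_option autoImplicit false

namespace Run7.h266

universe u v

/-- an alphabet with inverses, relators and a bound for their lengths -/
structure Sys (L : Type) where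
  inv : L → L
  R : Set (List L)
  ℓ : ℕ
  inv_inv : ∀ a, inv (inv a) = a
  invR : ∀ a, [inv a, a] ∈ R
  len : ∀ w ∈ R, w.length ≤ ℓ
  two : 2 ≤ ℓ

variable {L : Type} {X : Type u}

/-- the word `w` applied to `p`; the last letter acts first -/
def run (A : L → X → X) : List L → X → X
  | [], p => p
  | a :: w, p => A a (run A w p)

@[simp] theorem run_nil (A : L → X → X) (p : X) : run A [] p = p := rfl

@[simp] theorem run_cons (A : L → X → X) (a : L) (w : List L) (p : X) :
    run A (a :: w) p = A a (run A w p) := rfl

theorem run_append (A : L → X → X) (u v : List L) (p : X) :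
    run A (u ++ v) p = run A u (run A v p) := by
  induction u with
  | nil => rfl
  | cons a u ih => simp [ih]

/-- all relators act trivially -/
def IsAct (S : Sys L) (A : L → X → X) : Prop := ∀ w ∈ S.R, ∀ p, run A w p = p

/-- the inverse word -/
def Sys.winv (S : Sys L) (w : List L) : List L := (w.map S.inv).reverse

section

variable {S : Sys L} {A : L → X → X}

theorem Sys.winv_length (S : Sys L) (w : List L) : (S.winv w).length = w.length := by
  simp [Sys.winv]

theorem Sys.winv_cons (S : Sys L) (a : L) (w : List L) :
    S.winv (a :: w) = S.winv w ++ [S.inv a] := by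
  simp [Sys.winv]

theorem IsAct.inv_left (h : IsAct S A) (a : L) (p : X) : A (S.inv a) (A a p) = p :=
  h _ (S.invR a) p

theorem IsAct.inv_right (h : IsAct S A) (a : L) (p : X) : A a (A (S.inv a) p) = p := by
  have := h.inv_left (S.inv a) p
  rwa [S.inv_inv] at this

theorem IsAct.winv_run (h : IsAct S A) (w : List L) (p : X) : run A (S.winv w) (run A w p) = p := by
  induction w generalizing p with
  | nil => rfl
  | cons a w ih =>
    rw [S.winv_cons, run_append]
    simp only [run_cons, run_nil]
    rw [h.inv_left, ih]

theorem IsAct.run_winv (h : IsAct S A) (w : List L) (p : X) : run A w (run A (S.winv w) p) = p := by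
  induction w generalizing p with
  | nil => rfl
  | cons a w ih =>
    rw [S.winv_cons, run_append]
    simp only [run_cons, run_nil]
    rw [ih, h.inv_right]

theorem IsAct.inj (h : IsAct S A) (a : L) : Function.Injective (A a) := fun p q hpq => by
  rw [← h.inv_left a p, hpq, h.inv_left]

theorem IsAct.run_inj (h : IsAct S A) (w : List L) : Function.Injective (run A w) := fun p q hpq => by
  rw [← h.winv_run w p, hpq, h.winv_run]

/-- the collar of `U` -/
def N (S : Sys L) (A : L → X → X) (U : Set X) : Set X :=
  {z | ∃ w : List L, w.length ≤ S.ℓ ∧ ¬ (run A w z ∈ U ↔ z ∈ U)}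

theorem N_compl (S : Sys L) (A : L → X → X) (U : Set X) : N S A Uᶜ = N S A U := by
  ext z
  simp only [N, Set.mem_ofPred_eq, Set.mem_compl_iff, not_iff_not]

theorem N_empty (S : Sys L) (A : L → X → X) : N S A (∅ : Set X) = ∅ := by
  ext z
  simp [N]

theorem mem_N_of_step {U : Set X} (h : IsAct S A) {z : X} {a : L} (hz : ¬ (A a z ∈ U ↔ z ∈ U)) :
    z ∈ N S A U ∧ A a z ∈ N S A U := by
  refine ⟨⟨[a], ?_, hz⟩, ⟨[S.inv a], ?_, ?_⟩⟩
  · have := S.two
    simp only [List.length_cons, List.length_nil]
    omega
  · have := S.two
    simp only [List.length_cons, List.length_nil]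
    omega
  · simp only [run_cons, run_nil, h.inv_left]
    tauto

/-- all the points of a path of length at most `ℓ` meeting `U` and its complement are in the
collar -/
theorem suffix_mem_N {U : Set X} (h : IsAct S A) {w : List L} (hw : w.length ≤ S.ℓ) {z : X}
    {w0 : List L} (h0 : w0 <:+ w) (hz : ¬ (run A w0 z ∈ U ↔ z ∈ U)) {w1 : List L} (h1 : w1 <:+ w) :
    run A w1 z ∈ N S A U := by
  have hl1 := h1.length_le
  have hl0 := h0.length_le
  by_cases hd : (run A w1 z ∈ U ↔ z ∈ U)
  · -- differs from `run w0 z`
    rcases List.suffix_or_suffix_of_suffix h0 h1 with h2 | h2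
    · obtain ⟨t, rfl⟩ := h2
      refine ⟨S.winv t, ?_, ?_⟩
      · rw [S.winv_length]
        simp only [List.length_append] at hl1
        omega
      · rw [run_append, h.winv_run, ← run_append]
        tauto
    · obtain ⟨t, rfl⟩ := h2
      refine ⟨t, ?_, ?_⟩
      · simp only [List.length_append] at hl0
        omega
      · rw [← run_append]
        tauto
  · refine ⟨S.winv w1, ?_, ?_⟩
    · rw [S.winv_length]
      omega
    · rw [h.winv_run]
      tauto

/-- paths inside `M` -/
inductive Path (A : L → X → X) (M : Set X) (z : X) : List L → Prop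
  | nil : z ∈ M → Path A M z []
  | cons {w : List L} (a : L) : Path A M z w → A a (run A w z) ∈ M → Path A M z (a :: w)

theorem Path.last {M : Set X} {z : X} {w : List L} (h : Path A M z w) : run A w z ∈ M := by
  cases h with
  | nil h => exact h
  | cons a _ h => exact h

theorem Path.start {M : Set X} {z : X} {w : List L} (h : Path A M z w) : z ∈ M := by
  induction h with
  | nil h => exact h
  | cons a _ _ ih => exact ih

theorem Path.mono {M M' : Set X} {z : X} {w : List L} (h : Path A M z w) (hM : M ⊆ M') :
    Path A M' z w := by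
  induction h with
  | nil h => exact Path.nil (hM h)
  | cons a _ h2 ih => exact Path.cons a ih (hM h2)

theorem Path.app {M : Set X} {z : X} {w w' : List L} (h : Path A M z w)
    (h' : Path A M (run A w z) w') : Path A M z (w' ++ w) := by
  induction h' with
  | nil _ => exact h
  | @cons v a _ h2 ih =>
    refine Path.cons (w := v ++ w) a ih ?_
    rw [run_append]
    exact h2

theorem Path.of_suffix {M : Set X} {z : X} {w : List L}
    (h : ∀ w' : List L, w' <:+ w → run A w' z ∈ M) : Path A M z w := by
  induction w with
  | nil => exact Path.nil (h [] List.nil_suffix)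
  | cons a w ih =>
    refine Path.cons a (ih fun w' hw' => h w' (hw'.trans (List.suffix_cons a w))) ?_
    exact h (a :: w) (List.suffix_refl _)

theorem Path.suffix {M : Set X} {z : X} {w : List L} (h : Path A M z w) {w' : List L}
    (hw' : w' <:+ w) : run A w' z ∈ M := by
  induction h with
  | nil h =>
    rw [List.suffix_nil.1 hw']
    exact h
  | @cons w a h1 h2 ih =>
    rcases List.suffix_cons_iff.1 hw' with rfl | h3
    · exact h2
    · exact ih h3

theorem Path.rev {M : Set X} {z : X} {w : List L} (hA : IsAct S A) (h : Path A M z w) :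
    Path A M (run A w z) (S.winv w) := by
  induction h with
  | nil h => exact Path.nil h
  | @cons w a h1 h2 ih =>
    rw [S.winv_cons]
    refine Path.app (w := [S.inv a]) (Path.cons _ (Path.nil h2) ?_) ?_
    · simp only [run_cons, run_nil, hA.inv_left]
      exact h1.last
    · simp only [run_cons, run_nil, hA.inv_left]
      exact ih

/-- connected inside `M` -/
def Conn (A : L → X → X) (M : Set X) (z z' : X) : Prop := ∃ w, Path A M z w ∧ run A w z = z'

theorem Conn.refl {M : Set X} {z : X} (h : z ∈ M) : Conn A M z z := ⟨[], Path.nil h, rfl⟩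

theorem Conn.mem_left {M : Set X} {z z' : X} (h : Conn A M z z') : z ∈ M := by
  obtain ⟨w, h, -⟩ := h
  exact h.start

theorem Conn.mem_right {M : Set X} {z z' : X} (h : Conn A M z z') : z' ∈ M := by
  obtain ⟨w, h, rfl⟩ := h
  exact h.last

theorem Conn.step {M : Set X} {z z' : X} (h : Conn A M z z') (a : L) (ha : A a z' ∈ M) :
    Conn A M z (A a z') := by
  obtain ⟨w, h, rfl⟩ := h
  exact ⟨a :: w, Path.cons a h ha, rfl⟩

theorem Conn.trans {M : Set X} {z z' z'' : X} (h : Conn A M z z') (h' : Conn A M z' z'') :
    Conn A M z z'' := by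
  obtain ⟨w, h, rfl⟩ := h
  obtain ⟨w', h', rfl⟩ := h'
  exact ⟨w' ++ w, h.app h', run_append _ _ _ _⟩

theorem Conn.symm {M : Set X} {z z' : X} (hA : IsAct S A) (h : Conn A M z z') : Conn A M z' z := by
  obtain ⟨w, h, rfl⟩ := h
  exact ⟨S.winv w, h.rev hA, hA.winv_run w z⟩

theorem Conn.mono {M M' : Set X} {z z' : X} (h : Conn A M z z') (hM : M ⊆ M') : Conn A M' z z' := by
  obtain ⟨w, h, rfl⟩ := h
  exact ⟨w, h.mono hM, rfl⟩

/-- induction along connections -/
theorem Conn.rec' {M : Set X} {z : X} {P : X → Prop} (h0 : z ∈ M → P z)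
    (hs : ∀ z' a, Conn A M z z' → A a z' ∈ M → P z' → P (A a z')) {z' : X} (h : Conn A M z z') :
    P z' := by
  obtain ⟨w, h, rfl⟩ := h
  induction h with
  | nil h => exact h0 h
  | @cons w a h1 h2 ih => exact hs _ a ⟨w, h1, rfl⟩ h2 ih

end

end Run7.h266
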