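import Pool.Agent.Run7.h266.SepCol
import Pool.Agent.Run7.h266.OneDimD

/-!
# Bounded actions on the boundary of a tree are one-dimensional
-/

set_option autoImplicit false

namespace Run7.h266

open scoped Pointwise Topology

open Pool.Agent

universe w

/-- a subfamily of middle size -/
theorem greedy {C : Type} [DecidableEq C] (J0 : Finset C) (f : C → ℕ) (M : ℕ)
    (h1 : ∀ c ∈ J0, 3 * f c ≤ M) (h2 : M < 3 * ∑ c ∈ J0, f c) :
    ∃ J ⊆ J0, M < 3 * ∑ c ∈ J, f c ∧ 3 * ∑ c ∈ J, f c ≤ 2 * M := by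
  induction J0 using Finset.induction_on with
  | empty => simp at h2
  | insert a s ha ih =>
    by_cases h : M < 3 * ∑ c ∈ s, f c
    · obtain ⟨J, hJ, h3, h4⟩ := ih (fun c hc => h1 c (Finset.mem_insert_of_mem hc)) h
      exact ⟨J, hJ.trans (Finset.subset_insert _ _), h3, h4⟩
    · refine ⟨insert a s, subset_rfl, h2, ?_⟩
      rw [Finset.sum_insert ha]
      have := h1 a (Finset.mem_insert_self _ _)
      omega

/-- separators from classes -/
theorem bal_of_class {X : Type} {adj : X → X → Prop} {C : Type} (cl : X → C) {U S : Set X}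
    (hU : U.Finite) (hS : S ⊆ U) (J0 : Finset C)
    (h1 : ∀ c ∈ J0, 3 * {y | y ∈ S ∧ cl y = c}.ncard ≤ S.ncard)
    (h2 : S.ncard < 3 * {y | y ∈ S ∧ cl y ∈ J0}.ncard) (Z0 : Set X)
    (hZ : ∀ y ∈ U, cl y ∈ J0 → y ∉ Z0 → ∀ z, adj y z → cl z = cl y) {k : ℕ}
    (hk : {y | y ∈ U ∧ cl y ∈ J0 ∧ y ∈ Z0}.ncard ≤ k) :
    ∃ Z A B : Set X, Z ⊆ U ∧ A ⊆ U ∧ B ⊆ U ∧ U ⊆ Z ∪ A ∪ B ∧
      Disjoint Z A ∧ Disjoint Z B ∧ Disjoint A B ∧ Z.ncard ≤ k ∧
      3 * (S ∩ A).ncard ≤ 2 * S.ncard ∧ 3 * (S ∩ B).ncard ≤ 2 * S.ncard ∧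
      ∀ a ∈ A, ∀ b ∈ B, ¬ adj a b := by
  classical
  have hSf := hU.subset hS
  set T := hSf.toFinset with hT
  have hf : ∀ J : Finset C, {y | y ∈ S ∧ cl y ∈ J}.ncard =
      ∑ c ∈ J, {y | y ∈ S ∧ cl y = c}.ncard := by
    intro J
    have e1 : {y | y ∈ S ∧ cl y ∈ J} = ((T.filter fun y => cl y ∈ J : Finset X) : Set X) := by
      ext y; simp [hT]
    have e2 : ∀ c, {y | y ∈ S ∧ cl y = c} = ((T.filter fun y => cl y = c : Finset X) : Set X) := by
      intro c; ext y; simp [hT]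
    rw [e1, Set.ncard_coe_finset]
    rw [Finset.card_eq_sum_card_fiberwise (f := cl) (t := J) (fun y hy => by
      simpa using (Finset.mem_filter.1 hy).2)]
    refine Finset.sum_congr rfl fun c hc => ?_
    rw [e2, Set.ncard_coe_finset]
    congr 1
    ext y
    simp only [Finset.mem_filter]
    constructor
    · rintro ⟨⟨h, -⟩, h'⟩; exact ⟨h, h'⟩
    · rintro ⟨h, h'⟩; exact ⟨⟨h, by rw [h']; exact hc⟩, h'⟩
  rw [hf] at h2
  obtain ⟨J, hJ, h3, h4⟩ := greedy J0 (fun c => {y | y ∈ S ∧ cl y = c}.ncard) S.ncard h1 h2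
  rw [← hf] at h3 h4
  set P : Set X := {y | cl y ∈ J} with hP
  refine ⟨{y | y ∈ U ∧ cl y ∈ J ∧ y ∈ Z0}, {y | y ∈ U ∧ cl y ∈ J ∧ y ∉ Z0},
    {y | y ∈ U ∧ cl y ∉ J}, fun y hy => hy.1, fun y hy => hy.1, fun y hy => hy.1, ?_, ?_, ?_, ?_,
    ?_, ?_, ?_, ?_⟩
  · intro y hy
    by_cases h5 : cl y ∈ J
    · by_cases h6 : y ∈ Z0
      · exact Or.inl (Or.inl ⟨hy, h5, h6⟩)
      · exact Or.inl (Or.inr ⟨hy, h5, h6⟩)
    · exact Or.inr ⟨hy, h5⟩
  · rw [Set.disjoint_left]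
    exact fun y hy hy' => hy'.2.2 hy.2.2
  · rw [Set.disjoint_left]
    exact fun y hy hy' => hy'.2 hy.2.1
  · rw [Set.disjoint_left]
    exact fun y hy hy' => hy'.2 hy.2.1
  · refine (Set.ncard_le_ncard ?_ (hU.subset fun y hy => hy.1)).trans hk
    exact fun y hy => ⟨hy.1, hJ hy.2.1, hy.2.2⟩
  · refine le_trans (Nat.mul_le_mul_left 3 (Set.ncard_le_ncard ?_ (hSf.subset fun y hy => hy.1))) h4
    exact fun y hy => ⟨hy.1, hy.2.2.1⟩
  · have e1 : (S ∩ {y | y ∈ U ∧ cl y ∉ J}) = S \ {y | y ∈ S ∧ cl y ∈ J} := by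
      ext y
      constructor
      · rintro ⟨h5, -, h6⟩
        exact ⟨h5, fun h7 => h6 h7.2⟩
      · rintro ⟨h5, h6⟩
        exact ⟨h5, hS h5, fun h7 => h6 ⟨h5, h7⟩⟩
    have e2 : (S \ {y | y ∈ S ∧ cl y ∈ J}).ncard + {y | y ∈ S ∧ cl y ∈ J}.ncard = S.ncard :=
      Set.ncard_sdiff_add_ncard_of_subset (fun y hy => hy.1) hSf
    rw [e1]
    omega
  · rintro a ⟨haU, haJ, haZ⟩ b ⟨-, hb⟩ hab
    apply hb
    rw [hZ a haU (hJ haJ) haZ b hab]
    exact haJ

section

variable {A : Type}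

/-- the first letters -/
def pre (n : ℕ) (x : ℕ → A) : Fin n → A := fun i => x i

/-- the other letters -/
def tl (n : ℕ) (x : ℕ → A) : ℕ → A := fun i => x (n + i)

theorem pre_tl_inj {n : ℕ} {x y : ℕ → A} (h1 : pre n x = pre n y) (h2 : tl n x = tl n y) :
    x = y := by
  funext i
  by_cases hi : i < n
  · exact congrFun h1 ⟨i, hi⟩
  · have := congrFun h2 (i - n)
    unfold tl at this
    rwa [Nat.add_sub_cancel' (not_lt.1 hi)] at this

variable {Γ : Type w} [Group Γ] [MulAction Γ (ℕ → A)]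

/-- the points where letters after the first `n` are changed -/
def ex (γ : Γ) (n : ℕ) : Set (ℕ → A) := {x | ∃ i, n ≤ i ∧ (γ • x) i ≠ x i}

theorem tl_of_not_ex {γ : Γ} {n : ℕ} {x : ℕ → A} (h : x ∉ ex γ n) : tl n (γ • x) = tl n x := by
  funext i
  by_contra hi
  exact h ⟨n + i, Nat.le_add_right _ _, hi⟩

/-- bounded actions: few cones where the later letters are changed -/
def BA (Γ : Type w) [Group Γ] (A : Type) [MulAction Γ (ℕ → A)] : Prop :=
  ∀ γ : Γ, ∃ b : ℕ, ∀ n, (pre n '' (ex γ n : Set (ℕ → A))).encard ≤ b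

theorem exits_le (h : BA Γ A) {E : Set Γ} (hE : E.Finite) :
    ∃ β : ℕ, ∀ (m : ℕ) (P : Set (ℕ → A)), Set.InjOn (pre m) P →
      {y | y ∈ P ∧ ∃ γ ∈ E, y ∈ ex γ m}.encard ≤ β := by
  classical
  induction E, hE using Set.Finite.induction_on with
  | empty => exact ⟨0, fun m P _ => by simp⟩
  | @insert a s ha hs ih =>
    obtain ⟨β, hβ⟩ := ih
    obtain ⟨b, hb⟩ := h a
    refine ⟨b + β, fun m P hP => ?_⟩
    have h1 : {y | y ∈ P ∧ ∃ γ ∈ insert a s, y ∈ ex γ m} ⊆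
        {y | y ∈ P ∧ y ∈ ex a m} ∪ {y | y ∈ P ∧ ∃ γ ∈ s, y ∈ ex γ m} := by
      rintro y ⟨hy, γ, hγ | hγ, hex⟩
      · rw [hγ] at hex
        exact Or.inl ⟨hy, hex⟩
      · exact Or.inr ⟨hy, γ, hγ, hex⟩
    have h2 : {y | y ∈ P ∧ y ∈ ex a m}.encard ≤ b := by
      have h3 : Set.InjOn (pre m) {y | y ∈ P ∧ y ∈ ex a m} := hP.mono fun y hy => hy.1
      rw [← h3.encard_image]
      refine le_trans (Set.encard_le_encard (Set.image_mono ?_)) (hb m)
      exact fun y hy => hy.2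
    calc {y | y ∈ P ∧ ∃ γ ∈ insert a s, y ∈ ex γ m}.encard
        ≤ ({y | y ∈ P ∧ y ∈ ex a m} ∪ {y | y ∈ P ∧ ∃ γ ∈ s, y ∈ ex γ m}).encard :=
          Set.encard_le_encard h1
      _ ≤ {y | y ∈ P ∧ y ∈ ex a m}.encard + {y | y ∈ P ∧ ∃ γ ∈ s, y ∈ ex γ m}.encard :=
          Set.encard_union_le _ _
      _ ≤ (b : ℕ∞) + β := add_le_add h2 (hβ m P hP)
      _ = ((b + β : ℕ) : ℕ∞) := by push_cast; rfl

/-- the prefixes of length `N` separate the points of a finite set -/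
theorem exists_pre_inj {U : Set (ℕ → A)} (hU : U.Finite) : ∃ N, Set.InjOn (pre N) U := by
  classical
  induction U, hU using Set.Finite.induction_on with
  | empty => exact ⟨0, Set.injOn_empty _⟩
  | @insert a s ha hs ih =>
    obtain ⟨N, hN⟩ := ih
    -- a level which separates `a` from the others
    have h1 : ∀ y ∈ s, ∃ i, a i ≠ y i := by
      intro y hy
      by_contra hcon
      push Not at hcon
      exact ha (by rw [show a = y from funext hcon]; exact hy)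
    choose! i hi using h1
    obtain ⟨M, hM⟩ : ∃ M, ∀ y ∈ s, i y < M := by
      obtain ⟨M, hM⟩ := (hs.image i).bddAbove
      exact ⟨M + 1, fun y hy => Nat.lt_succ_of_le (hM ⟨y, hy, rfl⟩)⟩
    have hmono : ∀ {x y : ℕ → A} {m n : ℕ}, m ≤ n → pre n x = pre n y → pre m x = pre m y := by
      intro x y m n hmn h
      funext j
      exact congrFun h ⟨j, lt_of_lt_of_le j.2 hmn⟩
    refine ⟨max N M, ?_⟩
    rintro x (rfl | hx) y (rfl | hy) hxy
    · rfl
    · exact absurd (congrFun hxy ⟨i y, lt_of_lt_of_le (hM y hy) (le_max_right _ _)⟩) (hi y hy)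
    · exact absurd (congrFun hxy ⟨i x, lt_of_lt_of_le (hM x hx) (le_max_right _ _)⟩).symm (hi x hx)
    · exact hN hx hy (hmono (le_max_left _ _) hxy)

variable [Fintype A]

/-- balanced separators -/
theorem ba_sep (h : BA Γ A) {E : Set Γ} (hE : E.Finite) :
    ∃ k : ℕ, BalSep (fun x y : ℕ → A => ∃ γ ∈ E, y = γ • x) k := by
  classical
  obtain ⟨β, hβ⟩ := exits_le h hE
  refine ⟨Fintype.card A * β + β + 3, fun U hU S hS => ?_⟩
  have hSf := hU.subset hS
  by_cases hsmall : S.ncard ≤ 3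
  · refine ⟨S, ∅, U \ S, hS, Set.empty_subset _, Set.sdiff_subset, ?_, ?_, ?_, ?_, ?_, ?_, ?_, ?_⟩
    · intro y hy
      by_cases h1 : y ∈ S
      · exact Or.inl (Or.inl h1)
      · exact Or.inr ⟨hy, h1⟩
    · exact Set.disjoint_empty _
    · exact Set.disjoint_sdiff_right
    · exact Set.empty_disjoint _
    · omega
    · simp
    · rw [Set.inter_sdiff_self]; simp
    · intro a ha; exact absurd ha (Set.notMem_empty a)
  obtain ⟨N, hN⟩ := exists_pre_inj hU
  by_cases hex : ∃ m ≤ N, ∃ τ : ℕ → A, S.ncard < 3 * {y | y ∈ S ∧ tl m y = τ}.ncard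
  · -- the smallest level with a big tile
    have hex' : ∃ m, m ≤ N ∧ ∃ τ : ℕ → A, S.ncard < 3 * {y | y ∈ S ∧ tl m y = τ}.ncard := hex
    obtain ⟨hmN, τ, hτ⟩ := Nat.find_spec hex'
    have hmin : ∀ m < Nat.find hex', ¬ (m ≤ N ∧ ∃ τ : ℕ → A,
      S.ncard < 3 * {y | y ∈ S ∧ tl m y = τ}.ncard) := fun m hm => Nat.find_min hex' hm
    generalize Nat.find hex' = m at hmN hτ hmin
    rcases m with _ | m
    · exfalso
      have h1 : {y | y ∈ S ∧ tl 0 y = τ}.ncard ≤ 1 := by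
        rw [Set.ncard_le_one (hSf.subset fun y hy => hy.1)]
        rintro y ⟨-, hy⟩ z ⟨-, hz⟩
        exact pre_tl_inj (n := 0) (funext fun i => i.elim0) (hy.trans hz.symm)
      omega
    have hm : ∀ σ : ℕ → A, 3 * {y | y ∈ S ∧ tl m y = σ}.ncard ≤ S.ncard := by
      intro σ
      have := hmin m (Nat.lt_succ_self m)
      push Not at this
      exact this (by omega) σ
    let cl : (ℕ → A) → Option A := fun y => if tl (m + 1) y = τ then some (y m) else none
    have hcl : ∀ y a, cl y = some a ↔ tl (m + 1) y = τ ∧ y m = a := by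
      intro y a
      by_cases h1 : tl (m + 1) y = τ
      · simp [cl, h1]
      · simp [cl, h1]
    -- the tails of the parts
    let cons : A → ℕ → A := fun a i => Nat.casesOn i a τ
    have hcons : ∀ y a, cl y = some a → tl m y = cons a := by
      intro y a h1
      obtain ⟨h2, h3⟩ := (hcl y a).1 h1
      funext i
      rcases i with _ | i
      · exact h3
      · have h4 := congrFun h2 i
        show y (m + (i + 1)) = τ i
        rw [← h4]
        show y (m + (i + 1)) = y (m + 1 + i)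
        congr 1
        omega
    refine bal_of_class (adj := fun x y : ℕ → A => ∃ γ ∈ E, y = γ • x) cl hU hS
      (Finset.univ.image some) ?_ ?_ {y | ∃ γ ∈ E, y ∈ ex γ m} ?_ ?_
    · intro c hc
      obtain ⟨a, -, rfl⟩ := Finset.mem_image.1 hc
      refine le_trans (Nat.mul_le_mul_left 3 (Set.ncard_le_ncard ?_
        (hSf.subset fun y hy => hy.1))) (hm (cons a))
      exact fun y hy => ⟨hy.1, hcons y a hy.2⟩
    · have e1 : {y | y ∈ S ∧ cl y ∈ Finset.univ.image (some : A → Option A)} =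
          {y | y ∈ S ∧ tl (m + 1) y = τ} := by
        ext y
        constructor
        · rintro ⟨hy, hc⟩
          obtain ⟨a, -, ha⟩ := Finset.mem_image.1 hc
          exact ⟨hy, ((hcl y a).1 ha.symm).1⟩
        · rintro ⟨hy, hc⟩
          exact ⟨hy, Finset.mem_image.2 ⟨y m, Finset.mem_univ _, ((hcl y _).2 ⟨hc, rfl⟩).symm⟩⟩
      rw [e1]
      exact hτ
    · rintro y - hy hyZ z ⟨γ, hγ, rfl⟩
      obtain ⟨a, -, ha⟩ := Finset.mem_image.1 hy
      have h1 : y ∉ ex γ m := fun h => hyZ ⟨γ, hγ, h⟩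
      have h2 := tl_of_not_ex h1
      obtain ⟨h3, h4⟩ := (hcl y a).1 ha.symm
      rw [← ha, hcl]
      constructor
      · rw [← h3]
        funext i
        have := congrFun h2 (1 + i)
        unfold tl at this ⊢
        rw [show m + 1 + i = m + (1 + i) by ring]
        exact this
      · have := congrFun h2 0
        unfold tl at this
        rw [Nat.add_zero] at this
        rw [this]
        exact h4
    · have hfin : ∀ a : A, {y | y ∈ U ∧ cl y = some a ∧ ∃ γ ∈ E, y ∈ ex γ m}.Finite := fun a =>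
        hU.subset fun y hy => hy.1
      have e1 : {y | y ∈ U ∧ cl y ∈ Finset.univ.image (some : A → Option A) ∧
          y ∈ {y | ∃ γ ∈ E, y ∈ ex γ m}} =
          ⋃ a ∈ (Finset.univ : Finset A), {y | y ∈ U ∧ cl y = some a ∧ ∃ γ ∈ E, y ∈ ex γ m} := by
        ext y
        constructor
        · rintro ⟨hy, hc, hz⟩
          obtain ⟨a, -, ha⟩ := Finset.mem_image.1 hc
          exact Set.mem_iUnion₂.2 ⟨a, Finset.mem_univ _, hy, ha.symm, hz⟩
        · intro hy
          obtain ⟨a, -, hy, ha, hz⟩ := Set.mem_iUnion₂.1 hy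
          exact ⟨hy, Finset.mem_image.2 ⟨a, Finset.mem_univ _, ha.symm⟩, hz⟩
      rw [e1]
      refine (Finset.set_ncard_biUnion_le _ _).trans ?_
      refine (Finset.sum_le_card_nsmul _ _ β fun a _ => ?_).trans (by
        rw [Finset.card_univ, smul_eq_mul]; omega)
      have h3 : Set.InjOn (pre m) {y | y ∈ U ∧ cl y = some a} := by
        rintro y ⟨-, hy⟩ z ⟨-, hz⟩ hyz
        exact pre_tl_inj hyz ((hcons y a hy).trans (hcons z a hz).symm)
      have h4 := hβ m _ h3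
      have h5 : {y | y ∈ U ∧ cl y = some a ∧ ∃ γ ∈ E, y ∈ ex γ m} =
          {y | y ∈ {y | y ∈ U ∧ cl y = some a} ∧ ∃ γ ∈ E, y ∈ ex γ m} := by
        ext y
        constructor
        · rintro ⟨p, q, r⟩; exact ⟨⟨p, q⟩, r⟩
        · rintro ⟨⟨p, q⟩, r⟩; exact ⟨p, q, r⟩
      have h6 : ({y | y ∈ U ∧ cl y = some a ∧ ∃ γ ∈ E, y ∈ ex γ m}.ncard : ℕ∞) ≤ β := by
        rw [(hfin a).cast_ncard_eq, h5]
        exact hβ m _ h3
      exact_mod_cast h6
  · push Not at hex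
    have hm := hex N le_rfl
    refine bal_of_class (adj := fun x y : ℕ → A => ∃ γ ∈ E, y = γ • x) (tl N) hU hS
      (hSf.toFinset.image (tl N)) ?_ ?_ {y | ∃ γ ∈ E, y ∈ ex γ N} ?_ ?_
    · intro c _
      exact hm c
    · have e1 : {y | y ∈ S ∧ tl N y ∈ hSf.toFinset.image (tl N)} = S := by
        ext y
        constructor
        · exact fun hy => hy.1
        · exact fun hy => ⟨hy, Finset.mem_image.2 ⟨y, by simpa using hy, rfl⟩⟩
      rw [e1]
      omega
    · rintro y - - hyZ z ⟨γ, hγ, rfl⟩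
      exact tl_of_not_ex fun h => hyZ ⟨γ, hγ, h⟩
    · have h4 := hβ N U hN
      have hf : {y | y ∈ U ∧ ∃ γ ∈ E, y ∈ ex γ N}.Finite := hU.subset fun y hy => hy.1
      rw [← hf.cast_ncard_eq] at h4
      have h5 : {y | y ∈ U ∧ ∃ γ ∈ E, y ∈ ex γ N}.ncard ≤ β := by exact_mod_cast h4
      have h6 : {y | y ∈ U ∧ tl N y ∈ hSf.toFinset.image (tl N) ∧
          y ∈ {y | ∃ γ ∈ E, y ∈ ex γ N}}.ncard ≤ {y | y ∈ U ∧ ∃ γ ∈ E, y ∈ ex γ N}.ncard :=
        Set.ncard_le_ncard (fun y hy => ⟨hy.1, hy.2.2⟩) hf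
      omega

end

end Run7.h266
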