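import Pool.Agent.Run7.h266.LocalGrowth

/-!
# Slow growth: all orbits, and one ball
-/

set_option autoImplicit false

namespace Run7.h266

open Pool.Agent.H785R3.GrowthA
open scoped Pointwise commutatorElement

variable {G : Type} [Group G]

theorem growth_both {n : ℕ} (φ : FreeGroup (Fin n) →* G)
    (hφ : Function.Surjective φ) (R : Finset (FreeGroup (Fin n)))
    (hR : Subgroup.normalClosure (R : Set (FreeGroup (Fin n))) = φ.ker)
    (hNF : ∀ a b : G, ¬ FreePair a b) {S0 : Set G} (hS : Subgroup.closure S0 = ⊤)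
    (hfin : S0.Finite) :
    ∃ D : ℕ, 0 < D ∧
      (∀ r0 : ℕ, ∃ (K : Subgroup G) (R0 : ℕ), K.FiniteIndex ∧ K.Normal ∧
        ∀ (Ω : Type) [MulAction G Ω], (∀ x y : Ω, ∃ g : G, g • x = y) → ∀ ω : Ω,
        Bl S0 R0 ω ≠ Set.univ →
        (∀ x ∈ Bl S0 R0 ω, ∃ r ≤ r0, (D : ℕ∞) * (Bl S0 r x).encard ≤ (r ^ 2 : ℕ)) →
        ∀ g ∈ (⁅K, K⁆ : Subgroup G), ∀ x : Ω, g • x = x) ∧
      (∀ r0 : ℕ, ∃ H : Subgroup G, H.FiniteIndex ∧ ∀ (Ω : Type) [MulAction G Ω],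
        (∀ ω : Ω, ∃ r ≤ r0, (D : ℕ∞) * (Bl S0 r ω).encard ≤ (r ^ 2 : ℕ)) →
        ∀ a ∈ H, ∀ b ∈ H, ∀ ω : Ω, ⁅a, b⁆ • ω = ω) := by
  classical
  obtain ⟨lam, hlam, hlam'⟩ := exists_lam φ hS
  have hℓ : 1 ≤ (sysOf R).ℓ := le_trans (by norm_num) (sysOf R).two
  refine ⟨64 * (sysOf R).ℓ ^ 2 * lam ^ 2, by positivity, fun r0 => ?_, fun r0 => ?_⟩
  · obtain ⟨K, h1, h2, h3, h4⟩ := inf_scheme (presOf φ hφ R hR) (Group.fg_of_surjective hφ) hNF
      (3 * r0) (r0 ^ 2 + r0)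
    obtain ⟨R0, h5⟩ := local_growth_of hS hfin ⁅K, K⁆ inferInstance h3
      (64 * (sysOf R).ℓ ^ 2 * lam ^ 2) r0 (by
        intro Ω _ htr hinf hΩ g hg ω
        have hA := actOf_isAct φ R hR Ω
        obtain ⟨T⟩ := discs_of_growth φ R hR hlam hlam' hΩ
        obtain ⟨w, rfl⟩ := (presOf φ hφ R hR).surj g
        have h5 : comp (actOf φ Ω) Set.univ ω = Set.univ := by
          rw [Set.eq_univ_iff_forall]
          intro z
          obtain ⟨g, rfl⟩ := htr ω z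
          exact conn_of_orbit φ hφ g
        have := h4 Ω (actOf φ Ω) hA (fun y => ⟨T.scheme (presOf φ hφ R hR) hNF hA y⟩) w hg ω
          (by rw [h5]; exact Set.encard_eq_top_iff.2 (Set.infinite_univ_iff.2 hinf))
        rw [run_actOf] at this
        exact this)
    exact ⟨K, R0, h1, h2, h5⟩
  · obtain ⟨N0, -, ⟨H, hH, hH'⟩, h3⟩ := core_scheme (presOf φ hφ R hR)
      (Group.fg_of_surjective hφ) hNF (3 * r0) (r0 ^ 2 + r0)
    refine ⟨H, hH, fun Ω _ hΩ a ha b hb ω => ?_⟩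
    have hA := actOf_isAct φ R hR Ω
    obtain ⟨T⟩ := discs_of_growth φ R hR hlam hlam' hΩ
    obtain ⟨w, hw⟩ := (presOf φ hφ R hR).surj ⁅a, b⁆
    have := h3 Ω (actOf φ Ω) hA (fun y => ⟨T.scheme (presOf φ hφ R hR) hNF hA y⟩) w
      (hw ▸ hH' a ha b hb) ω
    rw [run_actOf] at this
    rw [← hw]
    exact this

end Run7.h266
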