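import Pool.Agent.Run7.h266.LocalColor

/-!
# Two-colourings: all orbits, and one ball
-/

set_option autoImplicit false

namespace Run7.h266

open Pool.Agent.H785R3.GrowthA
open scoped Pointwise commutatorElement

variable {G : Type} [Group G]

theorem color_both {n : ℕ} (φ : FreeGroup (Fin n) →* G)
    (hφ : Function.Surjective φ) (R : Finset (FreeGroup (Fin n)))
    (hR : Subgroup.normalClosure (R : Set (FreeGroup (Fin n))) = φ.ker)
    (hNF : ∀ a b : G, ¬ FreePair a b) {S0 : Set G} (hS : Subgroup.closure S0 = ⊤)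
    (hfin : S0.Finite) :
    ∃ D : ℕ,
      (∀ t : ℕ, ∃ (K : Subgroup G) (R0 : ℕ), K.FiniteIndex ∧ K.Normal ∧
        ∀ (Ω : Type) [MulAction G Ω], (∀ x y : Ω, ∃ g : G, g • x = y) → ∀ ω : Ω,
        Bl S0 R0 ω ≠ Set.univ →
        (∃ Ac : Set Ω, ∀ x ∈ Bl S0 R0 ω, (Cl S0 D (Bl S0 R0 ω) Ac x).encard ≤ t) →
        ∀ g ∈ (⁅K, K⁆ : Subgroup G), ∀ x : Ω, g • x = x) ∧
      (∀ t : ℕ, ∃ H : Subgroup G, H.FiniteIndex ∧ ∀ (Ω : Type) [MulAction G Ω],
        (∃ Ac : Set Ω, ∀ ω : Ω, (Cl S0 D Set.univ Ac ω).encard ≤ t) →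
        ∀ a ∈ H, ∀ b ∈ H, ∀ ω : Ω, ⁅a, b⁆ • ω = ω) := by
  classical
  obtain ⟨lam, hlam, hlam'⟩ := exists_lam φ hS
  have hMC : ∀ (t : ℕ) (Ω : Type) [MulAction G Ω] (Ac : Set Ω),
      (∀ ω : Ω, (Cl S0 (lam * (2 * (sysOf R).ℓ)) Set.univ Ac ω).encard ≤ t) →
      ∀ x, (MC (actOf φ Ω) (2 * (sysOf R).ℓ) Ac x).encard ≤ t := by
    intro t Ω _ Ac hAc x
    refine (Set.encard_le_encard ?_).trans (hAc x)
    intro y hy
    have h7 : ∀ {a b : Ω}, Relation.ReflTransGen (MStep (actOf φ Ω) (2 * (sysOf R).ℓ) Ac) a b →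
        Relation.ReflTransGen (CStep S0 (lam * (2 * (sysOf R).ℓ)) Set.univ Ac) a b := by
      intro a b hab
      induction hab with
      | refl => exact Relation.ReflTransGen.refl
      | tail _ h ih =>
        exact Relation.ReflTransGen.tail ih ⟨trivial, trivial, h.1, LB_Bl φ hlam' _ _ h.2⟩
    exact h7 hy
  refine ⟨lam * (2 * (sysOf R).ℓ), fun t => ?_, fun t => ?_⟩
  · obtain ⟨K, h1, h2, h3, h4⟩ := inf_scheme (presOf φ hφ R hR) (Group.fg_of_surjective hφ) hNF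
      (2 * t) ((sysOf R).bsz * ((sysOf R).bsz +
        (sysOf R).bsz * (t * ((sysOf R).bsz * (sysOf R).bsz)))
        + ((sysOf R).bsz + (sysOf R).bsz * (t * ((sysOf R).bsz * (sysOf R).bsz))))
    obtain ⟨R0, h5⟩ := local_color_of hS hfin ⁅K, K⁆ inferInstance h3
      (lam * (2 * (sysOf R).ℓ)) t (by
        rintro Ω _ htr hinf ⟨Ac, hAc⟩ g hg ω
        have hA := actOf_isAct φ R hR Ω
        obtain ⟨w, rfl⟩ := (presOf φ hφ R hR).surj g
        have h5 : comp (actOf φ Ω) Set.univ ω = Set.univ := by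
          rw [Set.eq_univ_iff_forall]
          intro z
          obtain ⟨g, rfl⟩ := htr ω z
          exact conn_of_orbit φ hφ g
        have := h4 Ω (actOf φ Ω) hA
          (fun y => ⟨colorScheme (presOf φ hφ R hR) hNF hA (hMC t Ω Ac hAc) rfl y⟩) w hg ω
          (by rw [h5]; exact Set.encard_eq_top_iff.2 (Set.infinite_univ_iff.2 hinf))
        rw [run_actOf] at this
        exact this)
    exact ⟨K, R0, h1, h2, h5⟩
  · obtain ⟨N0, -, ⟨H, hH, hH'⟩, h3⟩ := core_scheme (presOf φ hφ R hR)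
      (Group.fg_of_surjective hφ) hNF (2 * t) ((sysOf R).bsz * ((sysOf R).bsz +
        (sysOf R).bsz * (t * ((sysOf R).bsz * (sysOf R).bsz)))
        + ((sysOf R).bsz + (sysOf R).bsz * (t * ((sysOf R).bsz * (sysOf R).bsz))))
    refine ⟨H, hH, fun Ω _ hΩ a ha b hb ω => ?_⟩
    obtain ⟨Ac, hAc⟩ := hΩ
    have hA := actOf_isAct φ R hR Ω
    obtain ⟨w, hw⟩ := (presOf φ hφ R hR).surj ⁅a, b⁆
    have := h3 Ω (actOf φ Ω) hA
      (fun y => ⟨colorScheme (presOf φ hφ R hR) hNF hA (hMC t Ω Ac hAc) rfl y⟩) w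
      (hw ▸ hH' a ha b hb) ω
    rw [run_actOf] at this
    rw [← hw]
    exact this

end Run7.h266
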