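import Pool.Agent.Run7.h266.Free
import Pool.Agent.N6.W.Milnor

/-!
# Linearly unfolded sites
-/

set_option autoImplicit false

namespace Run7.h266

open Pool.Agent.H785R3.GrowthA
open scoped commutatorElement

variable {L : Type} {S : Sys L}

namespace UD

theorem mem_M_of_Q (D : UD S) {j : D.J} {z : D.X} (h : (Sum.inr (j, z) : D.Z) ∈ D.glue.Q) :
    z ∈ D.M := by
  constructor
  · by_contra h1
    exact h j false ⟨z, h1, rfl⟩
  · intro i h1
    refine h (D.κ i j) true ?_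
    show _ ∈ blkT D.Ut D.U (D.par (D.κ i j))
    rw [D.parκ]
    exact ⟨_, h1, rfl⟩

theorem unf_mem_Q (D : UD S) {a : L} {p : D.Z} (h : p ∈ D.glue.Q) : D.unf a p ∈ D.glue.Q :=
  D.glue.act'_mem_Q a h

end UD

/-- a nested pair of isomorphic sites -/
structure LD (S : Sys L) where
  X : Type
  A : L → X → X
  act : IsAct S A
  U0 : Set X
  U1 : Set X
  b0 : X
  b1 : X
  e : Iso S A U0 A U1
  eb : e.g b1 = b0
  sub : U1 ⊆ U0
  disj0 : ∀ z ∈ N S A U1, z ∉ N S A U0
  w1 : List L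
  c1 : L
  path : Path A (U0 \ U1) b0 w1
  enter : A c1 (run A w1 b0) = b1
  mem : b1 ∈ U1

namespace LD

variable (E : LD S)

/-- a half-infinite chain attached to the complement of `Ut` -/
abbrev chain {Xt : Type} {At : L → Xt → Xt} (hAt : IsAct S At) {Ut : Set Xt}
    (e0 : Iso S E.A E.U0 At Ut) : UD S where
  Xt := Xt
  X := E.X
  ι := Unit
  J := ℕ
  nt := ⟨e0.f E.b0⟩
  nx := ⟨E.b0⟩
  At := At
  A := E.A
  actT := hAt
  act := E.act
  Ut := Ut
  U0 := E.U0
  U := fun _ => E.U1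
  par := fun k => match k with
    | 0 => none
    | k + 1 => some ((), k)
  κ := fun _ k => k + 1
  parinj := by
    intro l l' h
    rcases l with _ | l <;> rcases l' with _ | l'
    · rfl
    · simp at h
    · simp at h
    · simp only [Option.some.injEq, Prod.mk.injEq, true_and] at h
      rw [h]
  parκ := fun _ _ => rfl
  e0 := e0
  e := fun _ => E.e
  sub := fun _ => E.sub
  disj0 := fun _ => E.disj0
  disj := fun _ _ h => absurd rfl h
  disjN := fun _ _ h => absurd rfl h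

/-- the closed-up piece -/
abbrev loop : UD S where
  Xt := E.X
  X := E.X
  ι := Unit
  J := Unit
  nt := ⟨E.b0⟩
  nx := ⟨E.b0⟩
  At := E.A
  A := E.A
  actT := E.act
  act := E.act
  Ut := E.U0
  U0 := E.U0
  U := fun _ => E.U1
  par := fun _ => some ((), ())
  κ := fun _ _ => ()
  parinj := fun _ _ _ => rfl
  parκ := fun _ _ => rfl
  e0 := Iso.refl S E.A E.U0
  e := fun _ => E.e
  sub := fun _ => E.sub
  disj0 := fun _ => E.disj0
  disj := fun _ _ h => absurd rfl h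
  disjN := fun _ _ h => absurd rfl h

theorem mem_loop_M {z : E.X} : z ∈ E.loop.M ↔ z ∈ E.U0 \ E.U1 :=
  ⟨fun h => ⟨h.1, h.2 ()⟩, fun h => ⟨h.1, fun _ => h.2⟩⟩

theorem mem_chain_M {Xt : Type} {At : L → Xt → Xt} (hAt : IsAct S At) {Ut : Set Xt}
    (e0 : Iso S E.A E.U0 At Ut) {z : E.X} : z ∈ (E.chain hAt e0).M ↔ z ∈ E.U0 \ E.U1 :=
  ⟨fun h => ⟨h.1, h.2 ()⟩, fun h => ⟨h.1, fun _ => h.2⟩⟩

section

variable {Xt : Type} {At : L → Xt → Xt} (hAt : IsAct S At) {Ut : Set Xt}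
    (e0 : Iso S E.A E.U0 At Ut)

/-- far from the top the chain follows the closed-up piece -/
theorem compare (w : List L) {z : E.X} (hz : z ∈ E.U0 \ E.U1) : ∃ z' ∈ E.U0 \ E.U1, ∃ c : ℤ,
    |c| ≤ w.length ∧ run E.loop.unf w (Sum.inr ((), z)) = Sum.inr ((), z') ∧
    ∀ k : ℕ, w.length ≤ k → ∃ k' : ℕ, (k' : ℤ) = k + c ∧
      run (E.chain hAt e0).unf w (Sum.inr (k, z)) = Sum.inr (k', z') := by
  induction w with
  | nil => exact ⟨z, hz, 0, by simp, rfl, fun k _ => ⟨k, by simp, rfl⟩⟩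
  | cons a w ih =>
    obtain ⟨z', hz', c, hc, hl, hk⟩ := ih
    have hc' := abs_le.1 hc
    by_cases h0 : E.A a z' ∈ E.U0
    · by_cases h1 : E.A a z' ∈ E.U1
      · -- down
        have hdl := E.loop.unf_down (a := a) (i := ()) (j := ()) (z := z') (E.mem_loop_M.2 hz') h1
        refine ⟨E.e.g (E.A a z'), ?_, c + 1, ?_, ?_, ?_⟩
        · rw [← E.mem_loop_M]
          refine E.loop.mem_M_of_Q (j := ()) ?_
          have := E.loop.unf_mem_Q (a := a) (E.loop.mem_Q_inr (j := ()) (E.mem_loop_M.2 hz'))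
          rw [hdl] at this
          exact this
        · rw [List.length_cons, abs_le]
          push_cast
          omega
        · rw [run_cons, hl]
          exact hdl
        · intro k hk1
          rw [List.length_cons] at hk1
          obtain ⟨k', hk', hr⟩ := hk k (by omega)
          refine ⟨k' + 1, by push_cast; omega, ?_⟩
          rw [run_cons, hr]
          exact (E.chain hAt e0).unf_down (a := a) (i := ()) (j := k') (z := z')
            ((E.mem_chain_M hAt e0).2 hz') h1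
      · -- stay
        have hm : E.A a z' ∈ E.U0 \ E.U1 := ⟨h0, h1⟩
        refine ⟨E.A a z', hm, c, ?_, ?_, ?_⟩
        · rw [List.length_cons, abs_le]
          push_cast
          omega
        · rw [run_cons, hl]
          exact E.loop.unf_inr (E.mem_loop_M.2 hz') (E.mem_loop_M.2 hm)
        · intro k hk1
          rw [List.length_cons] at hk1
          obtain ⟨k', hk', hr⟩ := hk k (by omega)
          refine ⟨k', hk', ?_⟩
          rw [run_cons, hr]
          exact (E.chain hAt e0).unf_inr ((E.mem_chain_M hAt e0).2 hz')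
            ((E.mem_chain_M hAt e0).2 hm)
    · -- up
      have hul := E.loop.unf_up (a := a) (i := ()) (j := ()) (j' := ()) (z := z')
        (E.mem_loop_M.2 hz') h0 rfl
      refine ⟨E.e.f (E.A a z'), ?_, c - 1, ?_, ?_, ?_⟩
      · rw [← E.mem_loop_M]
        refine E.loop.mem_M_of_Q (j := ()) ?_
        have := E.loop.unf_mem_Q (a := a) (E.loop.mem_Q_inr (j := ()) (E.mem_loop_M.2 hz'))
        rw [hul] at this
        exact this
      · rw [List.length_cons, abs_le]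
        push_cast
        omega
      · rw [run_cons, hl]
        exact hul
      · intro k hk1
        rw [List.length_cons] at hk1
        obtain ⟨k', hk', hr⟩ := hk k (by omega)
        obtain ⟨k'', rfl⟩ : ∃ k'', k' = k'' + 1 := ⟨k' - 1, by omega⟩
        refine ⟨k'', by push_cast at hk'; omega, ?_⟩
        rw [run_cons, hr]
        exact (E.chain hAt e0).unf_up (a := a) (i := ()) (j := k'' + 1) (j' := k'') (z := z')
          ((E.mem_chain_M hAt e0).2 hz') h0 rfl

end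

/-- elements of `⁅K, K⁆` fix the deep points of the chain -/
theorem deep {G : Type} [Group G] (P : Pres S G) {Xt : Type} {At : L → Xt → Xt}
    (hAt : IsAct S At) {Ut : Set Xt} (e0 : Iso S E.A E.U0 At Ut) (K : Subgroup G)
    (hK : ∀ w, P.val w ∈ K → ∀ z ∈ E.U0 \ E.U1,
      run E.loop.unf w (Sum.inr ((), z)) = Sum.inr ((), z))
    (ρ : G →* Equiv.Perm (E.chain hAt e0).Z)
    (hρ : ∀ w z, ρ (P.val w) z = run (E.chain hAt e0).unf w z) (g : G)
    (hg : g ∈ (⁅K, K⁆ : Subgroup G)) :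
    ∃ k0 : ℕ, ∀ k : ℕ, k0 ≤ k → ∀ z ∈ E.U0 \ E.U1, ρ g (Sum.inr (k, z)) = Sum.inr (k, z) := by
  have hsh : ∀ g ∈ K, ∃ (k0 : ℕ) (c : E.X → ℤ), (∀ z ∈ E.U0 \ E.U1, |c z| ≤ k0) ∧
      ∀ k : ℕ, k0 ≤ k → ∀ z ∈ E.U0 \ E.U1, ∃ k' : ℕ, (k' : ℤ) = k + c z ∧
        ρ g (Sum.inr (k, z)) = Sum.inr (k', z) := by
    intro g hg
    obtain ⟨w, rfl⟩ := P.surj g
    have h1 : ∀ z, ∃ c : ℤ, z ∈ E.U0 \ E.U1 → |c| ≤ w.length ∧
        ∀ k : ℕ, w.length ≤ k → ∃ k' : ℕ, (k' : ℤ) = k + c ∧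
          run (E.chain hAt e0).unf w (Sum.inr (k, z)) = Sum.inr (k', z) := by
      intro z
      by_cases hz : z ∈ E.U0 \ E.U1
      · obtain ⟨z', hz', c, hc, hl, hk⟩ := E.compare hAt e0 w hz
        have h2 := hK w hg z hz
        rw [h2] at hl
        have h3 : z = z' := congrArg Prod.snd (Sum.inr_injective hl)
        subst h3
        exact ⟨c, fun _ => ⟨hc, hk⟩⟩
      · exact ⟨0, fun h => absurd h hz⟩
    choose c hc using h1
    refine ⟨w.length, c, fun z hz => (hc z hz).1, fun k hk z hz => ?_⟩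
    obtain ⟨k', hk', hr⟩ := (hc z hz).2 k hk
    exact ⟨k', hk', by rw [hρ, hr]⟩
  let T : Subgroup G :=
    { carrier := {g | ∃ k0 : ℕ, ∀ k : ℕ, k0 ≤ k → ∀ z ∈ E.U0 \ E.U1,
        ρ g (Sum.inr (k, z)) = Sum.inr (k, z)}
      mul_mem' := by
        rintro a b ⟨ka, ha⟩ ⟨kb, hb⟩
        refine ⟨max ka kb, fun k hk z hz => ?_⟩
        rw [map_mul, Equiv.Perm.mul_apply, hb k (le_trans (le_max_right _ _) hk) z hz,
          ha k (le_trans (le_max_left _ _) hk) z hz]
      one_mem' := ⟨0, fun k _ z _ => by simp⟩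
      inv_mem' := by
        rintro a ⟨ka, ha⟩
        refine ⟨ka, fun k hk z hz => ?_⟩
        rw [map_inv, Equiv.Perm.inv_eq_iff_eq, ha k hk z hz] }
  have hT : (⁅K, K⁆ : Subgroup G) ≤ T := by
    rw [Subgroup.commutator_le]
    intro g hg h hh
    obtain ⟨kg, cg, bg, hg⟩ := hsh g hg
    obtain ⟨kh, ch, bh, hh⟩ := hsh h hh
    refine ⟨3 * kg + 3 * kh, fun k hk z hz => ?_⟩
    have b1 := abs_le.1 (bg z hz)
    have b2 := abs_le.1 (bh z hz)
    -- the point `q` with `h g q = p`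
    obtain ⟨q, hq⟩ : ∃ q : ℕ, (q : ℤ) = k - cg z - ch z :=
      ⟨(k - cg z - ch z).toNat, by omega⟩
    obtain ⟨k1, hk1, e1⟩ := hg q (by omega) z hz
    obtain ⟨k2, hk2, e2⟩ := hh k1 (by omega) z hz
    obtain ⟨k3, hk3, e3⟩ := hh q (by omega) z hz
    obtain ⟨k4, hk4, e4⟩ := hg k3 (by omega) z hz
    have h2 : k2 = k := by omega
    have h4 : k4 = k := by omega
    have f1 : ρ (h * g) (Sum.inr (q, z)) = Sum.inr (k, z) := by
      rw [map_mul, Equiv.Perm.mul_apply, e1, e2, h2]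
    have f2 : ρ (g * h) (Sum.inr (q, z)) = Sum.inr (k, z) := by
      rw [map_mul, Equiv.Perm.mul_apply, e3, e4, h4]
    have f3 : ρ (h * g)⁻¹ (Sum.inr (k, z)) = Sum.inr (q, z) := by
      rw [map_inv, Equiv.Perm.inv_eq_iff_eq, f1]
    have f4 : ⁅g, h⁆ = (g * h) * (h * g)⁻¹ := by
      rw [commutatorElement_def]
      group
    rw [f4, map_mul, Equiv.Perm.mul_apply, f3, f2]
  exact hT hg

/-- the chain lemma -/
theorem fix {G : Type} [Group G] (P : Pres S G) (K : Subgroup G) (hKn : K.Normal)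
    (hK : ∀ w, P.val w ∈ K → ∀ z ∈ E.U0 \ E.U1,
      run E.loop.unf w (Sum.inr ((), z)) = Sum.inr ((), z))
    (hfg : (⁅K, K⁆ : Subgroup G).FG)
    {Xt : Type} {At : L → Xt → Xt} (hAt : IsAct S At) {Ut : Set Xt} {bt : Xt}
    (e0 : Iso S E.A E.U0 At Ut) (h0 : e0.g bt = E.b0) {y : Xt} {u : List L} {c : L}
    (pu : Path At (Ut)ᶜ y u) (hu : At c (run At u y) = bt) (hbt : bt ∈ Ut) {w : List L}
    (hw : P.val w ∈ (⁅K, K⁆ : Subgroup G)) (pw : Path At (Ut)ᶜ y w) : run At w y = y := by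
  obtain ⟨ρ, hρ⟩ := P.lift _ _ (E.chain hAt e0).unf_act
  -- all the generators of `⁅K, K⁆` fix a deep point
  obtain ⟨k1, hk1⟩ : ∃ k1 : ℕ, ∀ d ∈ (⁅K, K⁆ : Subgroup G),
      ρ d (Sum.inr (k1, E.b0)) = Sum.inr (k1, E.b0) := by
    obtain ⟨T, hT⟩ := hfg
    have h1 : ∃ k1 : ℕ, ∀ t ∈ T, ρ t (Sum.inr (k1, E.b0)) = Sum.inr (k1, E.b0) := by
      have h2 : ∀ t ∈ T, ∃ k0 : ℕ, ∀ k : ℕ, k0 ≤ k →
          ρ t (Sum.inr (k, E.b0)) = Sum.inr (k, E.b0) := by
        intro t ht
        obtain ⟨k0, h3⟩ := E.deep P hAt e0 K hK ρ hρ t (hT ▸ Subgroup.subset_closure ht)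
        exact ⟨k0, fun k hk => h3 k hk _ E.path.start⟩
      choose! k0 hk0 using h2
      exact ⟨T.sup k0, fun t ht => hk0 t ht _ (Finset.le_sup ht)⟩
    obtain ⟨k1, h1⟩ := h1
    refine ⟨k1, fun d hd => ?_⟩
    have h2 : (⁅K, K⁆ : Subgroup G) ≤
        (MulAction.stabilizer (Equiv.Perm (E.chain hAt e0).Z)
          (Sum.inr (k1, E.b0) : (E.chain hAt e0).Z)).comap ρ := by
      rw [← hT, Subgroup.closure_le]
      intro t ht
      exact h1 t ht
    exact h2 hd
  -- the orbit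
  have ht : ∀ k : ℕ, ρ (P.val (E.c1 :: E.w1)) (Sum.inr (k, E.b0)) = Sum.inr (k + 1, E.b0) := by
    intro k
    have hp : Path (E.chain hAt e0).A (E.chain hAt e0).M E.b0 E.w1 :=
      E.path.mono fun z hz => (E.mem_chain_M hAt e0).2 hz
    rw [hρ, run_cons, (E.chain hAt e0).run_inr hp]
    have := (E.chain hAt e0).unf_down (a := E.c1) (i := ()) (j := k) (z := run E.A E.w1 E.b0)
      hp.last (by
        show E.A E.c1 (run E.A E.w1 E.b0) ∈ E.U1
        rw [E.enter]
        exact E.mem)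
    refine this.trans ?_
    show Sum.inr (k + 1, E.e.g (E.A E.c1 (run E.A E.w1 E.b0))) = _
    rw [E.enter, E.eb]
  have horb : ∀ k : ℕ, ∃ h : G, ρ h (Sum.inl y) = Sum.inr (k, E.b0) := by
    intro k
    induction k with
    | zero =>
      refine ⟨P.val (c :: u), ?_⟩
      rw [hρ, run_cons, (E.chain hAt e0).run_inl pu]
      have := (E.chain hAt e0).unf_in (a := c) (z := run At u y) pu.last (by
        show At c (run At u y) ∈ Ut
        rw [hu]
        exact hbt) (j := 0) rfl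
      refine this.trans ?_
      show Sum.inr (0, e0.g (At c (run At u y))) = _
      rw [hu, h0]
    | succ k ih =>
      obtain ⟨h, hh⟩ := ih
      exact ⟨P.val (E.c1 :: E.w1) * h, by rw [map_mul, Equiv.Perm.mul_apply, hh, ht]⟩
  obtain ⟨h, hh⟩ := horb k1
  have hfix : ρ (P.val w) (Sum.inl y) = Sum.inl y := by
    have h1 : h * P.val w * h⁻¹ ∈ (⁅K, K⁆ : Subgroup G) := by
      have : (⁅K, K⁆ : Subgroup G).Normal := inferInstance
      exact this.conj_mem _ hw _
    have h2 := hk1 _ h1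
    rw [← hh, ← Equiv.Perm.mul_apply, ← map_mul, inv_mul_cancel_right, map_mul,
      Equiv.Perm.mul_apply] at h2
    exact (ρ h).injective h2
  rw [hρ, (E.chain hAt e0).run_inl pw] at hfix
  exact Sum.inl_injective hfix

end LD

end Run7.h266
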