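import Pool.Agent.Run7.h266.Iso

/-!
# Codes of collars
-/

set_option autoImplicit false

namespace Run7.h266

variable {L : Type} {S : Sys L}

/-- codes of collars with at most `m` points -/
def Code (L : Type) (m : ℕ) : Type :=
  Set (Fin m) × Set (Fin m) × (L → Fin m → Fin m → Prop) × Fin m

instance {L : Type} [Finite L] {m : ℕ} : Finite (Code L m) := by
  unfold Code
  infer_instance

/-- the collar of `U` with the base point `b` has the code `c` -/
def HasCode (S : Sys L) {m : ℕ} (c : Code L m) {X : Type} (A : L → X → X) (U : Set X) (b : X) :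
    Prop :=
  ∃ i : X → Fin m, Set.InjOn i (N S A U) ∧ c.1 = i '' N S A U ∧ c.2.1 = i '' (N S A U ∩ U) ∧
    c.2.2.1 = (fun a x y => ∃ z, z ∈ N S A U ∧ A a z ∈ N S A U ∧ i z = x ∧ i (A a z) = y) ∧
    c.2.2.2 = i b

theorem exists_code {m : ℕ} {X : Type} (A : L → X → X) (U : Set X) (b : X) (hm : 0 < m)
    (h : (N S A U).encard ≤ m) : ∃ c : Code L m, HasCode S c A U b := by
  have hfin : (N S A U).Finite := Set.finite_of_encard_le_coe h
  have h1 : ∃ i : X → Fin m, Set.InjOn i (N S A U) := by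
    have h2 : Nat.card (N S A U) ≤ m := by
      have : (N S A U).ncard ≤ m := by
        rw [← hfin.cast_ncard_eq] at h
        exact_mod_cast h
      exact this
    have : Finite (N S A U) := hfin
    obtain ⟨n, ⟨e⟩⟩ := Finite.exists_equiv_fin (N S A U)
    have hn : Nat.card (N S A U) = n := by
      rw [Nat.card_congr e, Nat.card_fin]
    classical
    refine ⟨fun z => if hz : z ∈ N S A U then Fin.castLE (by omega) (e ⟨z, hz⟩) else ⟨0, hm⟩, ?_⟩
    intro z hz z' hz' hzz
    simp only [dif_pos hz, dif_pos hz'] at hzz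
    have := e.injective (Fin.castLE_injective _ hzz)
    exact congrArg Subtype.val this
  obtain ⟨i, hi⟩ := h1
  exact ⟨⟨_, _, _, _⟩, i, hi, rfl, rfl, rfl, rfl⟩

/-- two sites with the same code have isomorphic collars -/
theorem HasCode.iso {m : ℕ} {c : Code L m} {X : Type} {A : L → X → X} {U : Set X} {b : X}
    {X' : Type} {A' : L → X' → X'} {U' : Set X'} {b' : X'} (h : HasCode S c A U b)
    (h' : HasCode S c A' U' b') (hb : b ∈ N S A U) (hb' : b' ∈ N S A' U') :
    ∃ e : Iso S A U A' U', e.f b = b' ∧ e.g b' = b := by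
  obtain ⟨i, hi, h1, h2, h3, h4⟩ := h
  obtain ⟨i', hi', h1', h2', h3', h4'⟩ := h'
  rw [h1] at h1'
  rw [h2] at h2'
  rw [h3] at h3'
  rw [h4] at h4'
  clear h1 h2 h3 h4
  have : Nonempty X := ⟨b⟩
  have : Nonempty X' := ⟨b'⟩
  -- the two maps
  have key : ∀ z ∈ N S A U, ∃ z' ∈ N S A' U', i' z' = i z := by
    intro z hz
    have : i z ∈ i '' N S A U := ⟨z, hz, rfl⟩
    rw [h1'] at this
    exact this
  have key' : ∀ z' ∈ N S A' U', ∃ z ∈ N S A U, i z = i' z' := by
    intro z hz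
    have : i' z ∈ i' '' N S A' U' := ⟨z, hz, rfl⟩
    rw [← h1'] at this
    exact this
  have hf : ∀ z ∈ N S A U, Function.invFunOn i' (N S A' U') (i z) ∈ N S A' U' ∧
      i' (Function.invFunOn i' (N S A' U') (i z)) = i z := by
    intro z hz
    have := key z hz
    exact ⟨Function.invFunOn_mem this, Function.invFunOn_eq this⟩
  have hg : ∀ z ∈ N S A' U', Function.invFunOn i (N S A U) (i' z) ∈ N S A U ∧
      i (Function.invFunOn i (N S A U) (i' z)) = i' z := by
    intro z hz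
    have := key' z hz
    exact ⟨Function.invFunOn_mem this, Function.invFunOn_eq this⟩
  have hmem : ∀ z ∈ N S A U, ∀ z' ∈ N S A' U', i z = i' z' → (z' ∈ U' ↔ z ∈ U) := by
    intro z hz z' hz' hzz
    constructor
    · intro h
      have h5 : i' z' ∈ i' '' (N S A' U' ∩ U') := ⟨z', ⟨hz', h⟩, rfl⟩
      rw [← h2'] at h5
      obtain ⟨y, ⟨hy, hyU⟩, hyz⟩ := h5
      rw [← hzz] at hyz
      rwa [← hi hy hz hyz]
    · intro h
      have h5 : i z ∈ i '' (N S A U ∩ U) := ⟨z, ⟨hz, h⟩, rfl⟩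
      rw [h2'] at h5
      obtain ⟨y, ⟨hy, hyU⟩, hyz⟩ := h5
      rw [hzz] at hyz
      rwa [← hi' hy hz' hyz]
  have hrel : ∀ a x y, (∃ z, z ∈ N S A U ∧ A a z ∈ N S A U ∧ i z = x ∧ i (A a z) = y) ↔
      (∃ z, z ∈ N S A' U' ∧ A' a z ∈ N S A' U' ∧ i' z = x ∧ i' (A' a z) = y) := by
    intro a x y
    exact iff_of_eq (congrFun (congrFun (congrFun h3' a) x) y)
  refine ⟨⟨fun z => Function.invFunOn i' (N S A' U') (i z),
    fun z => Function.invFunOn i (N S A U) (i' z), fun z hz => (hf z hz).1,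
    fun z hz => (hg z hz).1, ?_, ?_, ?_, ?_, ?_, ?_⟩, ?_, ?_⟩
  · intro z hz
    have h5 := hf z hz
    have h6 := hg _ h5.1
    exact hi h6.1 hz (h6.2.trans h5.2)
  · intro z hz
    have h5 := hg z hz
    have h6 := hf _ h5.1
    exact hi' h6.1 hz (h6.2.trans h5.2)
  · intro z hz
    exact hmem z hz _ (hf z hz).1 (hf z hz).2.symm
  · intro z hz
    exact (hmem _ (hg z hz).1 z hz (hg z hz).2).symm
  · intro a z hz haz
    obtain ⟨y, hy, hay, hy1, hy2⟩ := (hrel a (i z) (i (A a z))).1 ⟨z, hz, haz, rfl, rfl⟩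
    have h5 : y = Function.invFunOn i' (N S A' U') (i z) :=
      hi' hy (hf z hz).1 (hy1.trans (hf z hz).2.symm)
    have h6 : A' a y = Function.invFunOn i' (N S A' U') (i (A a z)) :=
      hi' hay (hf _ haz).1 (hy2.trans (hf _ haz).2.symm)
    show Function.invFunOn i' (N S A' U') (i (A a z)) = A' a (Function.invFunOn i' (N S A' U') (i z))
    rw [← h5, h6]
  · intro a z hz haz
    obtain ⟨y, hy, hay, hy1, hy2⟩ := (hrel a (i' z) (i' (A' a z))).2 ⟨z, hz, haz, rfl, rfl⟩
    have h5 : y = Function.invFunOn i (N S A U) (i' z) :=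
      hi hy (hg z hz).1 (hy1.trans (hg z hz).2.symm)
    have h6 : A a y = Function.invFunOn i (N S A U) (i' (A' a z)) :=
      hi hay (hg _ haz).1 (hy2.trans (hg _ haz).2.symm)
    show Function.invFunOn i (N S A U) (i' (A' a z)) = A a (Function.invFunOn i (N S A U) (i' z))
    rw [← h5, h6]
  · have h5 := hf b hb
    exact hi' h5.1 hb' (h5.2.trans h4')
  · have h5 := hg b' hb'
    exact hi h5.1 hb (h5.2.trans h4'.symm)

end Run7.h266
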