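import Pool.Agent.Run7.h266.Growth

/-!
# Schemes from two-colourings
-/

set_option autoImplicit false

namespace Run7.h266

open Pool.Agent.H785R3.GrowthA

variable {L : Type} {S : Sys L} {X : Type} {A : L → X → X}

/-- close points of the same colour -/
def MStep (A : L → X → X) (s : ℕ) (Ac : Set X) (x y : X) : Prop :=
  (x ∈ Ac ↔ y ∈ Ac) ∧ y ∈ LB A s x

/-- monochromatic clusters -/
def MC (A : L → X → X) (s : ℕ) (Ac : Set X) (x : X) : Set X :=
  {y | Relation.ReflTransGen (MStep A s Ac) x y}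

theorem MC_symm (hA : IsAct S A) {s : ℕ} {Ac : Set X} {x y : X} (h : y ∈ MC A s Ac x) :
    x ∈ MC A s Ac y := by
  have h1 : ∀ {x y : X}, Relation.ReflTransGen (MStep A s Ac) x y →
      Relation.ReflTransGen (MStep A s Ac) y x := by
    intro x y h
    induction h with
    | refl => exact Relation.ReflTransGen.refl
    | tail _ h ih => exact Relation.ReflTransGen.head ⟨h.1.symm, LB_symm hA h.2⟩ ih
  exact h1 h

theorem MC_color {s : ℕ} {Ac : Set X} {x y : X} (h : y ∈ MC A s Ac x) :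
    x ∈ Ac ↔ y ∈ Ac := by
  have h1 : ∀ {x y : X}, Relation.ReflTransGen (MStep A s Ac) x y → (x ∈ Ac ↔ y ∈ Ac) := by
    intro x y h
    induction h with
    | refl => exact Iff.rfl
    | tail _ h ih => exact ih.trans h.1
  exact h1 h

/-- the points close to `V` -/
theorem ball_trans {V : Set X} {z : X} {w : List L} (hw : w.length ≤ S.ℓ) (hA : IsAct S A)
    (h : run A w z ∈ V) : z ∈ ball S A V := by
  have h1 := mem_ball (S := S) (A := A) h (w := S.winv w) (by rwa [S.winv_length])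
  rwa [hA.winv_run] at h1

/-- the clusters near `V` which are not in `Ac` -/
def nearC (S : Sys L) (A : L → X → X) (Ac V : Set X) : Set X :=
  {z | z ∉ Ac ∧ ∃ x ∈ ball S A V, z ∈ MC A (2 * S.ℓ) Ac x}

/-- the hull of `V` -/
def hull (S : Sys L) (A : L → X → X) (Ac V : Set X) : Set X :=
  V ∪ ball S A (nearC S A Ac V)

theorem N_hull (hA : IsAct S A) (Ac V : Set X) : N S A (hull S A Ac V) ⊆ Ac := by
  rintro z ⟨w, hw, h⟩
  by_contra hz
  -- close points of the other colour
  have hnear : ∀ z' ∈ nearC S A Ac V, z ∈ LB A (2 * S.ℓ) z' → z ∈ nearC S A Ac V := by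
    rintro z' ⟨h1, x, hx, h2⟩ h3
    refine ⟨hz, x, hx, ?_⟩
    exact Relation.ReflTransGen.tail h2 ⟨⟨fun h => absurd h h1, fun h => absurd h hz⟩, h3⟩
  by_cases hzn : z ∈ nearC S A Ac V
  · exact h ⟨fun _ => Or.inr (sub_ball hzn), fun _ => Or.inr (mem_ball hzn hw)⟩
  · have hself : z ∈ ball S A V → z ∈ nearC S A Ac V := fun h =>
      ⟨hz, z, h, Relation.ReflTransGen.refl⟩
    have h1 : z ∉ hull S A Ac V := by
      rintro (h1 | h1)
      · exact hzn (hself (sub_ball h1))
      · obtain ⟨p, ⟨hv, hp⟩, hpz⟩ := h1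
        exact hzn (hnear p.2 hp (LB_mono (by omega) ⟨p.1, hv, hpz⟩))
    have h2 : run A w z ∈ hull S A Ac V := by
      by_contra h2
      exact h ⟨fun h3 => absurd h3 h2, fun h3 => absurd h3 h1⟩
    rcases h2 with h2 | h2
    · exact hzn (hself (ball_trans hw hA h2))
    · obtain ⟨p, ⟨hv, hp⟩, hpz⟩ := h2
      refine hzn (hnear p.2 hp ?_)
      have h3 : run A w z ∈ LB A S.ℓ p.2 := ⟨p.1, hv, hpz⟩
      have h4 : z ∈ LB A S.ℓ (run A w z) := LB_symm hA ⟨w, hw, rfl⟩
      have h5 := LB_trans h3 h4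
      rwa [← two_mul] at h5

theorem hull_encard [Finite L] {Ac V : Set X} {v t : ℕ} (hV : V.encard ≤ v)
    (ht : ∀ x, (MC A (2 * S.ℓ) Ac x).encard ≤ t) :
    (hull S A Ac V).encard ≤ (v + S.bsz * (t * (S.bsz * v)) : ℕ) := by
  classical
  have h1 := ball_encard (S := S) (A := A) hV
  have hfin : (ball S A V).Finite := Set.finite_of_encard_le_coe h1
  have h2 : (nearC S A Ac V).encard ≤ (t * (S.bsz * v) : ℕ) := by
    have h3 : nearC S A Ac V ⊆ ⋃ x ∈ hfin.toFinset, MC A (2 * S.ℓ) Ac x := by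
      rintro z ⟨-, x, hx, hz⟩
      simp only [Set.mem_iUnion]
      exact ⟨x, hfin.mem_toFinset.2 hx, hz⟩
    have h4 : ∀ F : Finset X, (⋃ x ∈ F, MC A (2 * S.ℓ) Ac x).encard ≤ (t * F.card : ℕ) := by
      intro F
      induction F using Finset.induction_on with
      | empty => simp
      | insert a F ha ih =>
        have h5 : (⋃ x ∈ insert a F, MC A (2 * S.ℓ) Ac x) =
            MC A (2 * S.ℓ) Ac a ∪ ⋃ x ∈ F, MC A (2 * S.ℓ) Ac x := by simp
        rw [h5, Finset.card_insert_of_notMem ha]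
        refine (Set.encard_union_le _ _).trans ((add_le_add (ht a) ih).trans ?_)
        exact_mod_cast (by rw [Nat.mul_succ]; omega)
    refine (Set.encard_le_encard h3).trans ((h4 _).trans ?_)
    have h5 : hfin.toFinset.card ≤ S.bsz * v := by
      rw [← hfin.cast_ncard_eq, Set.ncard_eq_toFinset_card _ hfin] at h1
      exact_mod_cast h1
    exact_mod_cast Nat.mul_le_mul_left t h5
  refine (Set.encard_union_le _ _).trans ((add_le_add hV (ball_encard h2)).trans ?_)
  push_cast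
  exact le_rfl

/-- the collar of a set is close to it -/
theorem N_sub_ball (hA : IsAct S A) (D : Set X) : N S A D ⊆ ball S A D := by
  rintro z ⟨w, hw, h⟩
  by_cases h1 : z ∈ D
  · exact sub_ball h1
  · exact ball_trans hw hA (by tauto)

/-- the sets used for cutting -/
theorem cut_set [Finite L] (hA : IsAct S A) {Ac : Set X} {t : ℕ}
    (ht : ∀ x, (MC A (2 * S.ℓ) Ac x).encard ≤ t) {e : ℕ}
    (he : e = S.bsz * (S.bsz + S.bsz * (t * (S.bsz * S.bsz))) +
      (S.bsz + S.bsz * (t * (S.bsz * S.bsz)))) (q : X) :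
    ∃ D : Set X, LB A S.ℓ q ⊆ D ∧ (∀ z ∈ D, ∀ z' ∈ D, Conn A D z z') ∧ N S A D ⊆ Ac ∧
      D.encard ≤ e ∧ (N S A D).encard ≤ e ∧ D ⊆ comp A Set.univ q := by
  set V : Set X := LB A S.ℓ q with hV
  have hqV : q ∈ V := LB_self
  have hVe : V.encard ≤ S.bsz := by
    have h1 : V ⊆ ball S A {q} := by
      rintro _ ⟨w, hw, rfl⟩
      exact mem_ball (Set.mem_singleton q) hw
    have h2 := ball_encard (S := S) (A := A) (F := {q}) (m := 1) (by simp)
    rw [mul_one] at h2
    exact (Set.encard_le_encard h1).trans h2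
  have hH := hull_encard (S := S) (Ac := Ac) hVe ht
  have hqH : q ∈ hull S A Ac V := Or.inl hqV
  refine ⟨comp A (hull S A Ac V) q, ?_, fun z hz z' hz' => comp_conn hA hz hz',
    (N_comp hA _ _).trans (N_hull hA Ac V), ?_, ?_, ?_⟩
  · intro z hz
    exact (LB_conn hA hqV hz).mono fun x hx => Or.inl hx
  · refine (Set.encard_le_encard comp_sub).trans (hH.trans ?_)
    rw [he]
    exact_mod_cast Nat.le_add_left _ _
  · have h1 := ball_encard (S := S) (A := A) (F := comp A (hull S A Ac V) q)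
      ((Set.encard_le_encard comp_sub).trans hH)
    refine (Set.encard_le_encard (N_sub_ball hA _)).trans (h1.trans ?_)
    rw [he]
    exact_mod_cast Nat.le_add_right _ _
  · intro z hz
    exact Conn.mono hz fun _ _ => trivial

/-- the scheme of a two-colouring with small clusters -/
noncomputable def colorScheme [Finite L] {G : Type} [Group G] (P : Pres S G)
    (hNF : ∀ a b : G, ¬ FreePair a b) (hA : IsAct S A) {Ac : Set X} {t : ℕ}
    (ht : ∀ x, (MC A (2 * S.ℓ) Ac x).encard ≤ t) {e : ℕ}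
    (he : e = S.bsz * (S.bsz + S.bsz * (t * (S.bsz * S.bsz))) +
      (S.bsz + S.bsz * (t * (S.bsz * S.bsz)))) (y0 : X) :
    Scheme S A (2 * t) e (comp A Set.univ y0) where
  Reg := fun C => Pc A (comp A Set.univ y0) C ∧ N S A C ⊆ Ac
  μ := fun _ => 0
  sub := fun C h => h.1.sub
  ne := fun C h => h.1.ne
  coll := by
    rintro C ⟨hC, hN⟩
    by_contra hbig
    rw [not_le] at hbig
    obtain ⟨y, hy, hbig'⟩ := big_cluster P hNF hA (orb_of hA y0) hC hbig
    have h1 : comp A (N S A C) y ⊆ MC A (2 * S.ℓ) Ac y := by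
      intro z hz
      refine Conn.rec' (A := A) (M := N S A C) (z := y)
        (P := fun z => z ∈ MC A (2 * S.ℓ) Ac y) (fun _ => Relation.ReflTransGen.refl) ?_ hz
      intro z' a h1 h2 h3
      refine Relation.ReflTransGen.tail h3 ⟨?_, ⟨[a], ?_, rfl⟩⟩
      · exact ⟨fun _ => hN h2, fun _ => hN h1.mem_right⟩
      · have := S.two
        simp only [List.length_cons, List.length_nil]
        omega
    exact absurd ((Set.encard_le_encard h1).trans (ht y)) (not_le.2 hbig')
  step := by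
    rintro C ⟨hC, hN⟩ q hq hqN
    have hO : Orb A (comp A Set.univ y0) := orb_of hA y0
    have hqO : q ∈ comp A Set.univ y0 := hC.sub hq
    obtain ⟨D, h1, h2, h3, h4, h5, h6⟩ := cut_set hA ht he q
    have hDO : D ⊆ comp A Set.univ y0 := fun z hz => Conn.trans hqO (h6 hz)
    obtain ⟨⟨x1, hx1⟩, ⟨x2, hx2⟩⟩ := disc_meets hO hqO hqN (le_refl S.ℓ)
    refine ⟨D, N S A D, h4, h5, fun p hp => ?_⟩
    obtain ⟨h7, h8, h9⟩ := hC.child hA h2 hDO ⟨x1, h1 hx1.1, hx1.2⟩ ⟨x2, h1 hx2.1, hx2.2⟩ hp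
    refine ⟨⟨h7, fun z hz => ?_⟩, h8, Or.inl (h1 LB_self)⟩
    rcases h9 hz with h10 | h10
    · exact hN h10.1
    · exact h3 h10
  root := by
    have hO : Orb A (comp A Set.univ y0) := orb_of hA y0
    obtain ⟨D, h1, h2, h3, h4, h5, h6⟩ := cut_set hA ht he y0
    refine ⟨D, N S A D, h4, h5, fun p hp => ?_⟩
    obtain ⟨h7, h8, h9⟩ := hO.child hA h2 h6 ⟨y0, h1 LB_self⟩ hp
    exact ⟨⟨h7, h9.trans h3⟩, h8⟩

end Run7.h266
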