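import Pool.Agent.Run7.h266.PresE
import Pool.Agent.Run7.h266.Color

/-!
# Fibred actions from two-colourings
-/

set_option autoImplicit false

namespace Run7.h266

/-- the points reached by at most `k` steps -/
def steps {X : Type} (R : X → X → Prop) (x : X) : ℕ → Set X
  | 0 => {x}
  | k + 1 => steps R x k ∪ {z | ∃ y ∈ steps R x k, R y z}

theorem steps_sub {X : Type} {R : X → X → Prop} {x : X} (k : ℕ) :
    steps R x k ⊆ {y | Relation.ReflTransGen R x y} := by
  induction k with
  | zero =>
    rintro y rfl
    exact Relation.ReflTransGen.refl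
  | succ k ih =>
    rintro y (hy | ⟨z, hz, hR⟩)
    · exact ih hy
    · exact Relation.ReflTransGen.tail (ih hz) hR

/-- if few points can be reached, then they can be reached by few steps -/
theorem reach_steps {X : Type} {R : X → X → Prop} {x : X} {t : ℕ}
    (h : {y | Relation.ReflTransGen R x y}.encard ≤ t) {y : X} (hy : Relation.ReflTransGen R x y) :
    y ∈ steps R x t := by
  have key : ∀ k, (∀ y, Relation.ReflTransGen R x y → y ∈ steps R x k) ∨
      ((k + 1 : ℕ) : ℕ∞) ≤ (steps R x k).encard := by
    intro k
    induction k with
    | zero =>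
      right
      simp [steps]
    | succ k ih =>
      rcases ih with ih | ih
      · left
        intro y hy
        exact Or.inl (ih y hy)
      · by_cases hc : ∀ z, (∃ y ∈ steps R x k, R y z) → z ∈ steps R x k
        · left
          intro y hy
          left
          induction hy with
          | refl =>
            have h0 : ∀ k, x ∈ steps R x k := by
              intro k
              induction k with
              | zero => exact rfl
              | succ k ih => exact Or.inl ih
            exact h0 k
          | tail _ h1 ih1 => exact hc _ ⟨_, ih1, h1⟩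
        · right
          push Not at hc
          obtain ⟨z, ⟨y, hy1, hy2⟩, hz⟩ := hc
          have h1 : insert z (steps R x k) ⊆ steps R x (k + 1) := by
            rintro u (rfl | hu)
            · exact Or.inr ⟨y, hy1, hy2⟩
            · exact Or.inl hu
          refine le_trans ?_ (Set.encard_le_encard h1)
          rw [Set.encard_insert_of_notMem hz]
          push_cast
          push_cast at ih
          exact add_le_add_left ih 1
  rcases key t with h1 | h1
  · exact h1 y hy
  · exfalso
    have h2 := (h1.trans (Set.encard_le_encard (steps_sub t))).trans h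
    have h3 : t + 1 ≤ t := by exact_mod_cast h2
    omega

variable {L : Type} {S : Sys L} {X : Type} {A : L → X → X}

theorem MC_self {s : ℕ} {Ac : Set X} {x : X} : x ∈ MC A s Ac x := Relation.ReflTransGen.refl

theorem MC_eq (hA : IsAct S A) {s : ℕ} {Ac : Set X} {x y : X} (h : y ∈ MC A s Ac x) :
    MC A s Ac y = MC A s Ac x := by
  ext z
  constructor
  · exact fun hz => Relation.ReflTransGen.trans h hz
  · exact fun hz => Relation.ReflTransGen.trans (MC_symm hA h) hz

theorem MC_diam {s t : ℕ} {Ac : Set X} {x : X} (ht : (MC A s Ac x).encard ≤ t) {y : X}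
    (hy : y ∈ MC A s Ac x) : y ∈ LB A (t * s) x := by
  have h1 := reach_steps ht hy
  have key : ∀ k, steps (MStep A s Ac) x k ⊆ LB A (k * s) x := by
    intro k
    induction k with
    | zero =>
      rintro z rfl
      exact LB_self
    | succ k ih =>
      rintro z (hz | ⟨u, hu, hR⟩)
      · refine LB_mono ?_ (ih hz)
        exact Nat.mul_le_mul_right _ (Nat.le_succ k)
      · have := LB_trans (ih hu) hR.2
        rwa [← Nat.succ_mul] at this
  exact key t h1

open Classical in
/-- the fibred action of a two-colouring with bounded clusters -/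
noncomputable def fibC (hA : IsAct S A) (Ac : Set X) (t : ℕ)
    (ht : ∀ x, (MC A S.ℓ Ac x).encard ≤ t) : Fib S X (Set X) where
  A := A
  act := hA
  π := MC A S.ℓ Ac
  col v := decide (∃ x ∈ v, x ∈ Ac)
  t := t
  fib v := by
    by_cases h : ∃ x, MC A S.ℓ Ac x = v
    · obtain ⟨x, rfl⟩ := h
      refine (Set.encard_le_encard ?_).trans (ht x)
      intro y hy
      rw [← show MC A S.ℓ Ac y = MC A S.ℓ Ac x from hy]
      exact MC_self
    · have h1 : {x | MC A S.ℓ Ac x = v} = ∅ := by
        rw [Set.eq_empty_iff_forall_notMem]
        exact fun x hx => h ⟨x, hx⟩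
      rw [h1, Set.encard_empty]
      exact zero_le
  bip a x hne hcol := by
    apply hne
    apply MC_eq hA
    have h1 : ∀ x, (∃ y ∈ MC A S.ℓ Ac x, y ∈ Ac) ↔ x ∈ Ac := by
      intro x
      constructor
      · rintro ⟨y, hy, hyA⟩
        exact (MC_color hy).2 hyA
      · exact fun hx => ⟨x, MC_self, hx⟩
    refine Relation.ReflTransGen.single ⟨?_, [a], ?_, rfl⟩
    · rw [decide_eq_decide, h1, h1] at hcol
      exact hcol.symm
    · have := S.two
      simp only [List.length_cons, List.length_nil]
      omega
  loc w hw x := by
    have hlen := S.len w hw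
    -- points of the path of the same colour are in the same cluster
    have h1 : ∀ u v : List L, u <:+ w → v <:+ w → (run A u x ∈ Ac ↔ run A v x ∈ Ac) →
        MC A S.ℓ Ac (run A u x) = MC A S.ℓ Ac (run A v x) := by
      have h2 : ∀ u v : List L, u <:+ v → v <:+ w → (run A u x ∈ Ac ↔ run A v x ∈ Ac) →
          MC A S.ℓ Ac (run A u x) = MC A S.ℓ Ac (run A v x) := by
        rintro u v ⟨r, rfl⟩ hv hc
        refine (MC_eq hA ?_).symm
        refine Relation.ReflTransGen.single ⟨hc, r, ?_, (run_append A r u x).symm⟩
        have := hv.length_le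
        rw [List.length_append] at this
        omega
      intro u v hu hv hc
      rcases List.suffix_or_suffix_of_suffix hu hv with h3 | h3
      · exact h2 u v h3 hv hc
      · exact (h2 v u h3 hu hc.symm).symm
    by_cases h : ∃ u, u <:+ w ∧ ¬ (run A u x ∈ Ac ↔ x ∈ Ac)
    · obtain ⟨u, hu, hu2⟩ := h
      refine ⟨MC A S.ℓ Ac (run A u x), fun v hv => ?_⟩
      by_cases h3 : (run A v x ∈ Ac ↔ x ∈ Ac)
      · left
        exact h1 v [] hv (List.nil_suffix) h3
      · right
        exact h1 v u hv hu (by tauto)
    · push Not at h
      refine ⟨MC A S.ℓ Ac x, fun v hv => Or.inl ?_⟩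
      refine h1 v [] hv List.nil_suffix ?_
      have := h v hv
      rw [run_nil]
      tauto

end Run7.h266
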