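import Pool.Agent.Run7.h266.Fib

/-!
# Completion of finite partial gluings whose vertices are supported
-/

set_option autoImplicit false

namespace Run7.h266

/-- extension of a partial involution reversing types -/
theorem exists_involution {H E : Type} [Finite H] (T : H → E) (bar : E → E)
    (hb : ∀ e, bar (bar e) = e) (c : E → Bool) (hc : ∀ e, c (bar e) = !c e)
    (hbal : ∀ e, {h | T h = e}.ncard = {h | T h = bar e}.ncard) (D : Set H) (ψ0 : H → H)
    (h0 : ∀ h ∈ D, ψ0 h ∈ D ∧ ψ0 (ψ0 h) = h ∧ T (ψ0 h) = bar (T h)) :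
    ∃ ψ : H → H, (∀ h, ψ (ψ h) = h) ∧ (∀ h, T (ψ h) = bar (T h)) ∧ ∀ h ∈ D, ψ h = ψ0 h := by
  classical
  have hD : ∀ e, ({h | T h = e} ∩ D).ncard = ({h | T h = bar e} ∩ D).ncard := by
    have h1 : ∀ e, ({h | T h = e} ∩ D).ncard ≤ ({h | T h = bar e} ∩ D).ncard := by
      intro e
      refine Set.ncard_le_ncard_of_injOn ψ0 ?_ ?_ (Set.toFinite _)
      · rintro h ⟨h2, h3⟩
        obtain ⟨h4, -, h5⟩ := h0 h h3
        refine ⟨?_, h4⟩
        simp only [Set.mem_ofPred_eq] at h2 ⊢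
        rw [h5, h2]
      · rintro h ⟨-, h3⟩ h' ⟨-, h3'⟩ hh
        rw [← (h0 h h3).2.1, hh, (h0 h' h3').2.1]
    intro e
    refine le_antisymm (h1 e) ?_
    have h2 := h1 (bar e)
    rwa [hb] at h2
  have hC : ∀ e, ({h | T h = e} \ D).ncard = ({h | T h = bar e} \ D).ncard := by
    intro e
    have h1 := Set.ncard_inter_add_ncard_sdiff_eq_ncard {h | T h = e} D (Set.toFinite _)
    have h2 := Set.ncard_inter_add_ncard_sdiff_eq_ncard {h | T h = bar e} D (Set.toFinite _)
    have h3 := hbal e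
    have h4 := hD e
    omega
  have hθ : ∀ e, ∃ θ θ' : H → H, (∀ h, T h = e → h ∉ D → T (θ h) = bar e ∧ θ h ∉ D ∧
      θ' (θ h) = h) ∧ (∀ h, T h = bar e → h ∉ D → T (θ' h) = e ∧ θ' h ∉ D ∧ θ (θ' h) = h) := by
    intro e
    have h1 : Nat.card ↥({h | T h = e} \ D) = Nat.card ↥({h | T h = bar e} \ D) := hC e
    obtain ⟨f⟩ := Finite.card_eq.1 h1
    refine ⟨fun h => if hh : h ∈ ({h | T h = e} \ D) then (f ⟨h, hh⟩).1 else h,
      fun h => if hh : h ∈ ({h | T h = bar e} \ D) then (f.symm ⟨h, hh⟩).1 else h, ?_, ?_⟩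
    · intro h h2 h3
      have hh : h ∈ ({h | T h = e} \ D) := ⟨h2, h3⟩
      have hf := (f ⟨h, hh⟩).2
      simp only [dif_pos hh]
      refine ⟨hf.1, hf.2, ?_⟩
      rw [dif_pos hf]
      have : (⟨(f ⟨h, hh⟩).1, hf⟩ : ↥({h | T h = bar e} \ D)) = f ⟨h, hh⟩ := rfl
      rw [this, Equiv.symm_apply_apply]
    · intro h h2 h3
      have hh : h ∈ ({h | T h = bar e} \ D) := ⟨h2, h3⟩
      have hf := (f.symm ⟨h, hh⟩).2
      simp only [dif_pos hh]
      refine ⟨hf.1, hf.2, ?_⟩
      rw [dif_pos hf]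
      have : (⟨(f.symm ⟨h, hh⟩).1, hf⟩ : ↥({h | T h = e} \ D)) = f.symm ⟨h, hh⟩ := rfl
      rw [this, Equiv.apply_symm_apply]
  choose θ θ' hθ1 hθ2 using hθ
  let ψ : H → H := fun h => if h ∈ D then ψ0 h else if c (T h) = true then θ (T h) h
    else θ' (bar (T h)) h
  have hψD : ∀ h ∈ D, ψ h = ψ0 h := fun h hh => if_pos hh
  have hψ1 : ∀ h, h ∉ D → c (T h) = true → ψ h = θ (T h) h := fun h h1 h2 => by
    simp only [ψ]
    rw [if_neg h1, if_pos h2]
  have hψ2 : ∀ h, h ∉ D → c (T h) = false → ψ h = θ' (bar (T h)) h := fun h h1 h2 => by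
    simp only [ψ]
    rw [if_neg h1, if_neg (by rw [h2]; simp)]
  refine ⟨ψ, ?_, ?_, hψD⟩
  · intro h
    by_cases h1 : h ∈ D
    · rw [hψD h h1, hψD _ (h0 h h1).1, (h0 h h1).2.1]
    · cases h2 : c (T h)
      · rw [hψ2 h h1 h2]
        obtain ⟨k1, k2, k3⟩ := hθ2 (bar (T h)) h (by rw [hb]) h1
        rw [hψ1 _ k2 (by rw [k1, hc, h2]; rfl), k1, k3]
      · rw [hψ1 h h1 h2]
        obtain ⟨k1, k2, k3⟩ := hθ1 (T h) h rfl h1
        rw [hψ2 _ k2 (by rw [k1, hc, h2]; rfl), k1, hb, k3]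
  · intro h
    by_cases h1 : h ∈ D
    · rw [hψD h h1, (h0 h h1).2.2]
    · cases h2 : c (T h)
      · rw [hψ2 h h1 h2]
        exact (hθ2 (bar (T h)) h (by rw [hb]) h1).1
      · rw [hψ1 h h1 h2]
        exact (hθ1 (T h) h rfl h1).1

namespace Fib

variable {L : Type} {S : Sys L} {X V : Type} (F : Fib S X V)

theorem nbs_finite [Finite L] (v : V) : {w | F.Adj v w}.Finite := by
  have h1 : {x | F.π x = v}.Finite := Set.finite_of_encard_le_coe (F.fib v)
  refine ((h1.prod (Set.toFinite (Set.univ : Set L))).image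
    (fun p => F.π (F.A p.2 p.1))).subset ?_
  rintro w ⟨-, x, a, h2, h3⟩
  exact ⟨(x, a), ⟨h2, Set.mem_univ _⟩, h3⟩

/-- number of edges of a given type at a vertex -/
noncomputable def cnt (v : V) (e : ET L (F.n + 1)) : ℕ := {w | F.Adj v w ∧ F.ty v w = e}.ncard

/-- balanced multiplicities -/
def Bal (z : V →₀ ℕ) : Prop :=
  ∀ e, z.sum (fun v k => k * F.cnt v e) = z.sum (fun v k => k * F.cnt v (ebar e))

/-- vertices which occur in balanced multiplicities -/
def Supp (v : V) : Prop := ∃ z : V →₀ ℕ, 0 < z v ∧ F.Bal z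

theorem Bal.sum {W : Type} (s : Finset W) (z : W → V →₀ ℕ) (h : ∀ j ∈ s, F.Bal (z j)) :
    F.Bal (∑ j ∈ s, z j) := by
  intro e
  have h1 : ∀ e, (∑ j ∈ s, z j).sum (fun v k => k * F.cnt v e) =
      ∑ j ∈ s, (z j).sum (fun v k => k * F.cnt v e) := by
    intro e
    rw [← Finsupp.sum_finsetSum_index]
    · intro v
      simp
    · intro v k l
      ring
  rw [h1, h1]
  exact Finset.sum_congr rfl fun j hj => h j hj e

/-- Completion of finite partial gluings with supported vertices. -/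
theorem exists_completion [Finite L] {W : Type} [Finite W] (loc : W → V)
    (ν : W → V → Option (W × V))
    (hν : ∀ j w j' w', ν j w = some (j', w') → F.Adj (loc j) w ∧ F.Adj (loc j') w' ∧
      F.ty (loc j) w = F.ty w' (loc j') ∧ ν j' w' = some (j, w))
    (hs : ∀ j, F.Supp (loc j)) :
    ∃ (J : Type) (_ : Finite J) (g : GS F J) (ι : W → J), Function.Injective ι ∧
      (∀ j, g.loc (ι j) = loc j) ∧
      ∀ j w j' w', ν j w = some (j', w') → g.μ (ι j) w = (ι j', w') := by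
  classical
  have : Fintype W := Fintype.ofFinite W
  choose zz hzz1 hzz2 using hs
  set z : V →₀ ℕ := ∑ j, zz j with hz
  have hzB : F.Bal z := Bal.sum F Finset.univ zz fun j _ => hzz2 j
  have hzle : ∀ v, {j | loc j = v}.ncard ≤ z v := by
    intro v
    rw [Set.ncard_eq_toFinset_card', hz, Finsupp.finsetSum_apply]
    have h1 : ({j | loc j = v} : Set W).toFinset = Finset.univ.filter (fun j => loc j = v) := by
      ext j
      simp
    rw [h1, Finset.card_filter]
    refine Finset.sum_le_sum fun j _ => ?_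
    split_ifs with h
    · rw [← h]
      exact hzz1 j
    · exact Nat.zero_le _
  let J : Type := Σ v : {v // v ∈ z.support}, Fin (z v.1)
  let lo : J → V := fun j => j.1.1
  -- the embedding
  have hemb : ∀ v, ∃ f : W → ℕ, (∀ j, loc j = v → f j < z v) ∧
      ∀ j j', loc j = v → loc j' = v → f j = f j' → j = j' := by
    intro v
    have h1 := hzle v
    have h2 : Fintype.card {j // loc j = v} ≤ Fintype.card (Fin (z v)) := by
      rw [Fintype.card_fin]
      have h3 : Fintype.card {j // loc j = v} = {j | loc j = v}.ncard := by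
        rw [← Nat.card_eq_fintype_card]
        rfl
      rw [h3]
      exact h1
    obtain ⟨e⟩ := Function.Embedding.nonempty_of_card_le h2
    refine ⟨fun j => if h : loc j = v then (e ⟨j, h⟩).1 else 0, fun j hj => ?_,
      fun j j' hj hj' hjj => ?_⟩
    · dsimp only
      rw [dif_pos hj]
      exact (e ⟨j, hj⟩).2
    · dsimp only at hjj
      rw [dif_pos hj, dif_pos hj'] at hjj
      exact congrArg Subtype.val (e.injective (Fin.ext hjj))
  choose f hf1 hf2 using hemb
  have hzpos : ∀ j, loc j ∈ z.support := by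
    intro j
    rw [Finsupp.mem_support_iff]
    have := hf1 (loc j) j rfl
    omega
  let ι : W → J := fun j => ⟨⟨loc j, hzpos j⟩, ⟨f (loc j) j, hf1 (loc j) j rfl⟩⟩
  have hιloc : ∀ j, lo (ι j) = loc j := fun j => rfl
  have hιinj : Function.Injective ι := by
    intro j j' hjj
    have h1 : loc j = loc j' := congrArg lo hjj
    have h2 : f (loc j) j = f (loc j') j' := congrArg (fun x : J => x.2.1) hjj
    rw [← h1] at h2
    exact hf2 (loc j) j j' rfl h1.symm h2
  -- half edges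
  let HE : Type := {h : J × V // F.Adj (lo h.1) h.2}
  have hfinN : ∀ v, Finite {w // F.Adj v w} := fun v => (F.nbs_finite v).to_subtype
  have hHE : Finite HE := by
    have h1 : Finite (Σ j : J, {w // F.Adj (lo j) w}) := inferInstance
    refine Finite.of_injective (β := Σ j : J, {w // F.Adj (lo j) w})
      (fun h => ⟨h.1.1, ⟨h.1.2, h.2⟩⟩) ?_
    rintro ⟨⟨j, w⟩, h⟩ ⟨⟨j', w'⟩, h'⟩ hh
    simp only [Sigma.mk.injEq] at hh
    obtain ⟨rfl, h2⟩ := hh
    simp only [heq_eq_eq, Subtype.mk.injEq] at h2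
    subst h2
    rfl
  let T : HE → ET L (F.n + 1) := fun h => F.ty (lo h.1.1) h.1.2
  have hcount : ∀ e, {h | T h = e}.ncard = z.sum (fun v k => k * F.cnt v e) := by
    intro e
    have h1 : {h | T h = e}.ncard =
        Nat.card (Σ j : J, {w // F.Adj (lo j) w ∧ F.ty (lo j) w = e}) := by
      refine Nat.card_congr
        { toFun := fun h => ⟨h.1.1.1, ⟨h.1.1.2, h.1.2, h.2⟩⟩
          invFun := fun p => ⟨⟨(p.1, p.2.1), p.2.2.1⟩, p.2.2.2⟩
          left_inv := fun h => rfl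
          right_inv := fun p => rfl }
    have hfin2 : ∀ j : J, Finite {w // F.Adj (lo j) w ∧ F.ty (lo j) w = e} := fun j =>
      ((F.nbs_finite (lo j)).subset fun w hw => hw.1).to_subtype
    rw [h1, Nat.card_sigma]
    have h2 : ∀ j : J, Nat.card {w // F.Adj (lo j) w ∧ F.ty (lo j) w = e} = F.cnt (lo j) e :=
      fun j => rfl
    simp_rw [h2]
    rw [Fintype.sum_sigma]
    have h3 : ∀ v : {v // v ∈ z.support}, ∑ k : Fin (z v.1), F.cnt (lo ⟨v, k⟩) e =
        z v.1 * F.cnt v.1 e := by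
      intro v
      simp [lo]
    simp_rw [h3]
    rw [Finsupp.sum]
    exact Finset.sum_coe_sort z.support (fun v => z v * F.cnt v e)
  -- the partial involution
  let D : Set HE := {h | ∃ j w j' w', ν j w = some (j', w') ∧ h.1 = (ι j, w)}
  have hex : ∀ h : HE, ∃ h' : HE, ∀ j w j' w', ν j w = some (j', w') → h.1 = (ι j, w) →
      h'.1 = (ι j', w') := by
    intro h
    by_cases hh : h ∈ D
    · obtain ⟨j, w, j', w', h1, h2⟩ := hh
      refine ⟨⟨(ι j', w'), (hν j w j' w' h1).2.1⟩, ?_⟩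
      intro j1 w1 j1' w1' h3 h4
      rw [h2] at h4
      have h5 : j = j1 := hιinj (congrArg Prod.fst h4)
      have h6 : w = w1 := congrArg Prod.snd h4
      subst h5 h6
      rw [h1, Option.some.injEq, Prod.mk.injEq] at h3
      obtain ⟨rfl, rfl⟩ := h3
      rfl
    · exact ⟨h, fun j w j' w' h1 h2 => absurd ⟨j, w, j', w', h1, h2⟩ hh⟩
  choose ψ0 hψ0 using hex
  obtain ⟨ψ, k1, k2, k3⟩ := exists_involution T ebar (fun e => ebar_ebar e) (fun e => e.2.2.1)
    (fun e => rfl) (fun e => by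
      rw [hcount, hcount]
      exact hzB e) D ψ0 (by
    rintro h ⟨j, w, j', w', h1, h2⟩
    obtain ⟨a1, a2, a3, a4⟩ := hν j w j' w' h1
    have h3 := hψ0 h j w j' w' h1 h2
    have h4 := hψ0 (ψ0 h) j' w' j w a4 h3
    refine ⟨⟨j', w', j, w, a4, h3⟩, Subtype.ext (h4.trans h2.symm), ?_⟩
    show F.ty (lo (ψ0 h).1.1) (ψ0 h).1.2 = ebar (F.ty (lo h.1.1) h.1.2)
    rw [h2, h3]
    show F.ty (loc j') w' = ebar (F.ty (loc j) w)
    rw [a3, a2.ty, ebar_ebar])
  refine ⟨J, inferInstance,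
    { loc := lo
      μ := fun j w => if h : F.Adj (lo j) w then (ψ ⟨(j, w), h⟩).1 else (j, w)
      adj := ?_
      inv := ?_
      tyq := ?_ }, ι, hιinj, hιloc, ?_⟩
  · intro j w h
    simp only [dif_pos h]
    exact (ψ ⟨(j, w), h⟩).2
  · intro j w h
    simp only [dif_pos h]
    rw [dif_pos (ψ ⟨(j, w), h⟩).2]
    have h1 : (⟨((ψ ⟨(j, w), h⟩).1.1, (ψ ⟨(j, w), h⟩).1.2), (ψ ⟨(j, w), h⟩).2⟩ : HE) =
        ψ ⟨(j, w), h⟩ := rfl
    rw [h1, k1]
  · intro j w h
    simp only [dif_pos h]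
    have h1 := k2 ⟨(j, w), h⟩
    have h2 : F.ty (lo (ψ ⟨(j, w), h⟩).1.1) (ψ ⟨(j, w), h⟩).1.2 = ebar (F.ty (lo j) w) := h1
    have h3 := (ψ ⟨(j, w), h⟩).2
    rw [h3.ty, h2, ebar_ebar]
  · intro j w j' w' h
    have hadj := (hν j w j' w' h).1
    have hadj' : F.Adj (lo (ι j)) w := hadj
    simp only [dif_pos hadj']
    have hD : (⟨(ι j, w), hadj'⟩ : HE) ∈ D := ⟨j, w, j', w', h, rfl⟩
    rw [k3 _ hD]
    exact hψ0 _ j w j' w' h rfl

open Classical in
/-- the same with a relation -/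
theorem exists_completion' [Finite L] {W : Type} [Finite W] (loc : W → V)
    (R : W → V → W → V → Prop)
    (hf : ∀ j w j' w' j'' w'', R j w j' w' → R j w j'' w'' → j' = j'' ∧ w' = w'')
    (hsym : ∀ j w j' w', R j w j' w' → R j' w' j w)
    (hR : ∀ j w j' w', R j w j' w' → F.Adj (loc j) w ∧ F.ty (loc j) w = F.ty w' (loc j'))
    (hs : ∀ j, F.Supp (loc j)) :
    ∃ (J : Type) (_ : Finite J) (g : GS F J) (ι : W → J), Function.Injective ι ∧
      (∀ j, g.loc (ι j) = loc j) ∧ ∀ j w j' w', R j w j' w' → g.μ (ι j) w = (ι j', w') := by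
  let ν : W → V → Option (W × V) := fun j w =>
    if h : ∃ q : W × V, R j w q.1 q.2 then some h.choose else none
  have hν : ∀ j w j' w', ν j w = some (j', w') ↔ R j w j' w' := by
    intro j w j' w'
    simp only [ν]
    split_ifs with h
    · constructor
      · intro h1
        rw [Option.some.injEq] at h1
        have h2 := h.choose_spec
        rw [h1] at h2
        exact h2
      · intro h1
        rw [Option.some.injEq]
        have h2 := hf _ _ _ _ _ _ h.choose_spec h1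
        exact Prod.ext h2.1 h2.2
    · simp only [false_iff]
      exact fun h1 => h ⟨(j', w'), h1⟩
  obtain ⟨J, hJ, g, ι, h1, h2, h3⟩ := F.exists_completion loc ν (fun j w j' w' h => by
    rw [hν] at h
    have h' := hsym _ _ _ _ h
    exact ⟨(hR _ _ _ _ h).1, (hR _ _ _ _ h').1, (hR _ _ _ _ h).2, (hν _ _ _ _).2 h'⟩) hs
  exact ⟨J, hJ, g, ι, h1, h2, fun j w j' w' h => h3 j w j' w' ((hν _ _ _ _).2 h)⟩

end Fib

end Run7.h266
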