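import Pool.Agent.Run7.h266.Inf
import Pool.Agent.N6.W.VAb

/-!
# The core theorem
-/

set_option autoImplicit false

namespace Run7.h266

open Pool.Agent.H785R3.GrowthA
open scoped commutatorElement

/-- the intersection of the kernels of the homomorphisms from a subgroup to the symmetric group of
degree `C` -/
def kerC {G : Type} [Group G] (D : Subgroup G) (C : ℕ) : Subgroup G where
  carrier := {x | ∃ h : x ∈ D, ∀ ψ : D →* Equiv.Perm (Fin C), ψ ⟨x, h⟩ = 1}
  mul_mem' := by
    rintro a b ⟨ha, ha'⟩ ⟨hb, hb'⟩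
    refine ⟨D.mul_mem ha hb, fun ψ => ?_⟩
    have : (⟨a * b, D.mul_mem ha hb⟩ : D) = ⟨a, ha⟩ * ⟨b, hb⟩ := rfl
    rw [this, map_mul, ha', hb', mul_one]
  one_mem' := ⟨D.one_mem, fun ψ => map_one ψ⟩
  inv_mem' := by
    rintro a ⟨ha, ha'⟩
    refine ⟨D.inv_mem ha, fun ψ => ?_⟩
    have : (⟨a⁻¹, D.inv_mem ha⟩ : D) = ⟨a, ha⟩⁻¹ := rfl
    rw [this, map_inv, ha', inv_one]

theorem kerC_normal {G : Type} [Group G] (D : Subgroup G) [hD : D.Normal] (C : ℕ) :
    (kerC D C).Normal := by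
  constructor
  rintro x ⟨hx, hx'⟩ g
  refine ⟨hD.conj_mem x hx g, fun ψ => ?_⟩
  let α : D →* D :=
    { toFun := fun d => ⟨g * d * g⁻¹, hD.conj_mem d d.2 g⟩
      map_one' := by
        apply Subtype.ext
        show g * (1 : D) * g⁻¹ = 1
        simp
      map_mul' := by
        intro a b
        apply Subtype.ext
        show g * ((a * b : D) : G) * g⁻¹ = (g * a * g⁻¹) * (g * b * g⁻¹)
        rw [Subgroup.coe_mul]
        group }
  exact hx' (ψ.comp α)

theorem finite_hom {D : Type} [Group D] (hD : Group.FG D) (C : ℕ) :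
    Finite (D →* Equiv.Perm (Fin C)) := by
  obtain ⟨T, hT⟩ := hD.out
  let F : (D →* Equiv.Perm (Fin C)) → (T → Equiv.Perm (Fin C)) := fun ψ t => ψ t
  refine Finite.of_injective F ?_
  intro ψ ψ' hψ
  refine MonoidHom.eq_of_eqOn_dense hT ?_
  intro t ht
  exact congrFun hψ ⟨t, ht⟩

theorem kerC_image {G : Type} [Group G] (D : Subgroup G) (hD : D.FG) (C : ℕ)
    (hN : (kerC D C).Normal) :
    (QuotientGroup.mk' (kerC D C) '' (D : Set G)).Finite := by
  classical
  have hFG : Group.FG D := (Group.fg_iff_subgroup_fg _).2 hD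
  have hfinhom := finite_hom hFG C
  let K : Subgroup D := ⨅ ψ : D →* Equiv.Perm (Fin C), ψ.ker
  have hKfi : K.FiniteIndex := Subgroup.finiteIndex_iInf fun ψ => inferInstance
  have hK : ∀ k ∈ K, (k : G) ∈ kerC D C := by
    intro k hk
    refine ⟨k.2, fun ψ => ?_⟩
    exact (iInf_le (fun ψ : D →* Equiv.Perm (Fin C) => ψ.ker) ψ hk : k ∈ ψ.ker)
  have hq : Finite (D ⧸ K) := Subgroup.finite_quotient_of_finiteIndex
  refine (Set.finite_range (fun q : D ⧸ K => QuotientGroup.mk' (kerC D C) (q.out : G))).subset ?_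
  rintro _ ⟨g, hg, rfl⟩
  refine ⟨((⟨g, hg⟩ : D) : D ⧸ K), ?_⟩
  obtain ⟨k, hk⟩ := QuotientGroup.mk_out_eq_mul K (⟨g, hg⟩ : D)
  simp only
  rw [hk]
  show QuotientGroup.mk' (kerC D C) (g * ((k : D) : G)) = _
  rw [map_mul]
  have h1 : QuotientGroup.mk' (kerC D C) ((k : D) : G) = 1 :=
    (QuotientGroup.eq_one_iff _).2 (hK k k.2)
  rw [h1, mul_one]

/-- a subgroup acting with orbits of bounded size -/
theorem kerC_fix {G : Type} [Group G] (D : Subgroup G) {X : Type} (ρ : D →* Equiv.Perm X)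
    (C : ℕ) (y : X) (F : Set X) (hF : F.encard ≤ C) (hFy : ∀ g, ρ g y ∈ F) {x : G} (hx : x ∈ D)
    (hx' : x ∈ kerC D C) : ρ ⟨x, hx⟩ y = y := by
  classical
  let _ : MulAction D X := MulAction.compHom X ρ
  have horb : MulAction.orbit D y ⊆ F := by
    rintro _ ⟨g, rfl⟩
    exact hFy g
  have hOe : (MulAction.orbit D y).encard ≤ C := (Set.encard_le_encard horb).trans hF
  have hOf : (MulAction.orbit D y).Finite := Set.finite_of_encard_le_coe hOe
  have : Finite (MulAction.orbit D y) := hOf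
  obtain ⟨n, ⟨e⟩⟩ := Finite.exists_equiv_fin (MulAction.orbit D y)
  have hn : n ≤ C := by
    have h1 : Nat.card (MulAction.orbit D y) = n := by rw [Nat.card_congr e, Nat.card_fin]
    have h2 : (MulAction.orbit D y).ncard ≤ C := by
      rw [← hOf.cast_ncard_eq] at hOe
      exact_mod_cast hOe
    have h3 : (MulAction.orbit D y).ncard = Nat.card (MulAction.orbit D y) := rfl
    omega
  let ι : MulAction.orbit D y ↪ Fin C := e.toEmbedding.trans (Fin.castLEEmb hn)
  let ψ : D →* Equiv.Perm (Fin C) :=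
    (Equiv.Perm.viaEmbeddingHom ι).comp (MulAction.toPermHom D (MulAction.orbit D y))
  obtain ⟨_, hx2⟩ := hx'
  have h1 : ψ ⟨x, hx⟩ = 1 := hx2 ψ
  have h2 : MulAction.toPermHom D (MulAction.orbit D y) ⟨x, hx⟩ = 1 := by
    apply Equiv.Perm.viaEmbeddingHom_injective ι
    rw [map_one]
    exact h1
  have h3 := congrArg (fun σ : Equiv.Perm (MulAction.orbit D y) =>
    ((σ ⟨y, MulAction.mem_orbit_self y⟩ : MulAction.orbit D y) : X)) h2
  exact h3

variable {L : Type} {S : Sys L}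

theorem core [Finite L] {G : Type} [Group G] (P : Pres S G) (hG : Group.FG G)
    (hNF : ∀ a b : G, ¬ FreePair a b) {m : ℕ} (hm : 0 < m) (Nf : ℕ → ℕ → ℕ) :
    ∃ N0 : Subgroup G, N0.Normal ∧
      (∃ H : Subgroup G, H.FiniteIndex ∧ ∀ a ∈ H, ∀ b ∈ H, ⁅a, b⁆ ∈ N0) ∧
      ∀ (X : Type) (A : L → X → X), IsAct S A → (∀ q : ℕ, Sep S A m q ⊤ ⊤) →
        (∀ q n : ℕ, Sep S A m q n (Nf q n)) → ∀ w, P.val w ∈ N0 → ∀ y, run A w y = y := by
  classical
  obtain ⟨K, hKfi, hKn, hKfg, hK⟩ := star P hG hNF m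
  set D : Subgroup G := ⁅K, K⁆ with hDdef
  have hKfg0 := hKfg
  obtain ⟨T, hT⟩ := hKfg
  have h1 : ∀ t ∈ T, ∃ C : ℕ, ∀ (X : Type) (A : L → X → X), IsAct S A →
      (∀ q : ℕ, Sep S A m q ⊤ ⊤) → (∀ q n : ℕ, Sep S A m q n (Nf q n)) →
      ∀ (w : List L), P.val w = t → ∀ y, (C ≤ (comp A Set.univ y).encard) → run A w y = y := by
    intro t ht
    obtain ⟨w, rfl⟩ := P.surj t
    have hw : P.val w ∈ D := hT ▸ Subgroup.subset_closure ht
    obtain ⟨C, hC⟩ := finite_case P hm hK Nf w hw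
    refine ⟨C, fun X A hA hs hs' w' hw' y hy => ?_⟩
    have h2 : run A w' y = run A w y := by
      obtain ⟨ρ, hρ⟩ := P.lift X A hA
      rw [← hρ, ← hρ, hw']
    rw [h2]
    by_cases hfin : (comp A Set.univ y).Finite
    · exact hC X A hA hs' y hfin hy
    · exact infinite_case P hNF hm hK hA hs w hw y (Set.encard_eq_top_iff.2 hfin)
  choose! C hC using h1
  have hDn : D.Normal := by
    rw [hDdef]
    infer_instance
  have hN0 := kerC_normal D (T.sup C + 1)
  refine ⟨kerC D (T.sup C + 1), hN0, ?_, ?_⟩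
  · obtain ⟨H, hH, hab⟩ := Pool.Agent.N6.W.exists_abelian hG
      (QuotientGroup.mk' (kerC D (T.sup C + 1))) K hKfi
      (kerC_image D hKfg0 (T.sup C + 1) hN0)
    refine ⟨H, hH, fun a ha b hb => ?_⟩
    have h2 := hab a ha b hb
    rw [← QuotientGroup.eq_one_iff]
    have h3 : ((⁅a, b⁆ : G) : G ⧸ kerC D (T.sup C + 1)) =
        QuotientGroup.mk' (kerC D (T.sup C + 1)) ⁅a, b⁆ := rfl
    rw [h3, map_commutatorElement, commutatorElement_eq_one_iff_mul_comm]
    exact h2
  · intro X A hA hs hs' w hw y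
    obtain ⟨ρ, hρ⟩ := P.lift X A hA
    have hwD : P.val w ∈ D := hw.1
    have hgoal : ρ (P.val w) y = y := by
      refine kerC_fix D (ρ.comp D.subtype) (T.sup C + 1) y
        (if ((T.sup C : ℕ) : ℕ∞) ≤ (comp A Set.univ y).encard then {y} else comp A Set.univ y)
        ?_ ?_ hwD hw
      · split_ifs with hy
        · rw [Set.encard_singleton]
          exact_mod_cast Nat.le_add_left _ _
        · exact (not_le.1 hy).le.trans (by exact_mod_cast Nat.le_add_right _ _)
      · intro g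
        split_ifs with hy
        · have h3 : D ≤ (MulAction.stabilizer (Equiv.Perm X) y).comap ρ := by
            rw [← hT, Subgroup.closure_le]
            intro t ht
            obtain ⟨v, hv⟩ := P.surj t
            show ρ t y = y
            rw [← hv, hρ]
            exact hC t ht X A hA hs hs' v hv y
              (le_trans (by exact_mod_cast Finset.le_sup ht) hy)
          exact h3 g.2
        · obtain ⟨v, hv⟩ := P.surj (g : G)
          show ρ (g : G) y ∈ _
          rw [← hv, hρ]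
          exact ⟨v, Path.of_suffix fun _ _ => trivial, rfl⟩
    rw [← hρ]
    exact hgoal

end Run7.h266
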