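import Pool.Agent.Run7.h266.Growth
import Pool.Agent.Run7.h266.Core

/-!
# Actions with uniform schemes
-/

set_option autoImplicit false

namespace Run7.h266

open Pool.Agent.H785R3.GrowthA
open scoped commutatorElement

variable {L : Type} {S : Sys L}

theorem core_scheme [Finite L] {G : Type} [Group G] (P : Pres S G) (hG : Group.FG G)
    (hNF : ∀ a b : G, ¬ FreePair a b) (m e : ℕ) :
    ∃ N0 : Subgroup G, N0.Normal ∧
      (∃ H : Subgroup G, H.FiniteIndex ∧ ∀ a ∈ H, ∀ b ∈ H, ⁅a, b⁆ ∈ N0) ∧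
      ∀ (X : Type) (A : L → X → X), IsAct S A →
        (∀ y, Nonempty (Scheme S A m e (comp A Set.univ y))) →
        ∀ w, P.val w ∈ N0 → ∀ y, run A w y = y := by
  have hth : ∀ q n : ℕ, ∃ N' : ℕ, 1 + ((e : ℕ∞) + e * ThrD e n q) = N' := by
    intro q n
    obtain ⟨M, hM⟩ := ThrD_nat e n q
    refine ⟨1 + (e + e * M), ?_⟩
    rw [hM]
    push_cast
    rfl
  choose Nf hNf using hth
  obtain ⟨N0, h1, h2, h3⟩ := core P hG hNF (m := 2 * m + 1) (Nat.succ_pos _) Nf
  refine ⟨N0, h1, h2, fun X A hA hT w hw y => ?_⟩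
  refine h3 X A hA (fun q K E hK hE hone => ?_) (fun q n K E hK hE hone => ?_) w hw y
  · exact sep_of_scheme hA (fun y => (hT y).some) q (n := ⊤) K E hK (le_trans le_top hE) hone
  · exact sep_of_scheme hA (fun y => (hT y).some) q (n := n) K E hK (by rw [hNf]; exact hE) hone

end Run7.h266
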