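import Pool.Agent.Run7.h266.Fib

/-!
# Unfolding: stacks of vertices
-/

set_option autoImplicit false

namespace Run7.h266

variable {L : Type}

/-- connected inside `M` by letters in `T` -/
inductive TC {Y : Type} (st : L → Y → Y) (T : Set L) (M : Set Y) (p : Y) : Y → Prop
  | refl : p ∈ M → TC st T M p p
  | step {q : Y} (a : L) : TC st T M p q → a ∈ T → st a q ∈ M → TC st T M p (st a q)

namespace TC

variable {Y : Type} {st : L → Y → Y} {T : Set L} {M A B T' : Set Y} {p q : Y}

theorem right (h : TC st T M p q) : q ∈ M := by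
  cases h with
  | refl h => exact h
  | step a _ _ h => exact h

theorem left (h : TC st T M p q) : p ∈ M := by
  induction h with
  | refl h => exact h
  | step a _ _ _ ih => exact ih

/-- connections in a union, in terms of the connections in the parts -/
theorem glue {Z : Type} (f : Y → Z)
    (hAB : ∀ q a, q ∈ A ∪ B → st a q ∈ A ∪ B → (q ∈ A ∧ st a q ∈ A) ∨ (q ∈ B ∧ st a q ∈ B))
    (hT : ∀ q, q ∈ A → q ∈ B → q ∈ T')
    (hA : ∀ p q, p ∈ T' → q ∈ T' → TC st T A p q → f p = f q)
    (hB : ∀ p q, p ∈ T' → q ∈ T' → TC st T B p q → f p = f q)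
    (h : TC st T (A ∪ B) p q) (hp : p ∈ T') (hq : q ∈ T') : f p = f q := by
  have key : ∃ p' ∈ T', f p' = f p ∧ (TC st T A p' q ∨ TC st T B p' q) := by
    clear hq
    induction h with
    | refl h =>
      rcases h with h | h
      · exact ⟨p, hp, rfl, Or.inl (TC.refl h)⟩
      · exact ⟨p, hp, rfl, Or.inr (TC.refl h)⟩
    | @step q a h1 ha h2 ih =>
      obtain ⟨p', hp', h3, h4⟩ := ih
      rcases hAB q a h1.right h2 with ⟨h5, h6⟩ | ⟨h5, h6⟩
      · rcases h4 with h4 | h4
        · exact ⟨p', hp', h3, Or.inl (TC.step a h4 ha h6)⟩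
        · have h7 := hT q h5 h4.right
          exact ⟨q, h7, (hB p' q hp' h7 h4).symm.trans h3, Or.inl (TC.step a (TC.refl h5) ha h6)⟩
      · rcases h4 with h4 | h4
        · have h7 := hT q h4.right h5
          exact ⟨q, h7, (hA p' q hp' h7 h4).symm.trans h3, Or.inr (TC.step a (TC.refl h5) ha h6)⟩
        · exact ⟨p', hp', h3, Or.inr (TC.step a h4 ha h6)⟩
  obtain ⟨p', hp', h3, h4 | h4⟩ := key
  · exact h3.symm.trans (hA p' q hp' hq h4)
  · exact h3.symm.trans (hB p' q hp' hq h4)

end TC

open Classical in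
/-- the move of a stack towards `w` -/
noncomputable def mv {V : Type} (w : V) (l : List V) : List V :=
  if l.head? = some w then l else if l.tail.head? = some w then l.tail else w :: l

namespace Fib

variable {S : Sys L} {X V : Type} (F : Fib S X V)

/-- reduced stacks -/
inductive Red : List V → Prop
  | one (v : V) : Red [v]
  | cons {v u : V} {r : List V} : F.Adj u v → r.head? ≠ some v → Red (u :: r) →
      Red (v :: u :: r)

variable {F} in
theorem Red.ne_nil {l : List V} (h : F.Red l) : l ≠ [] := by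
  cases h <;> simp

variable {F} in
theorem Red.adj {v u : V} {r : List V} (h : F.Red (v :: u :: r)) : F.Adj u v := by
  cases h with
  | cons h1 _ _ => exact h1

variable {F} in
theorem Red.nb {v u : V} {r : List V} (h : F.Red (v :: u :: r)) : r.head? ≠ some v := by
  cases h with
  | cons _ h1 _ => exact h1

variable {F} in
theorem Red.tail {v u : V} {r : List V} (h : F.Red (v :: u :: r)) : F.Red (u :: r) := by
  cases h with
  | cons _ _ h1 => exact h1

variable {F} in
theorem Red.suffix {s l : List V} (h : F.Red l) (hs : s <:+ l) (hne : s ≠ []) : F.Red s := by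
  induction h with
  | one v =>
    rcases List.suffix_cons_iff.1 hs with rfl | h1
    · exact Red.one v
    · exact absurd (List.suffix_nil.1 h1) hne
  | @cons v u r h1 h2 h3 ih =>
    rcases List.suffix_cons_iff.1 hs with rfl | h4
    · exact Red.cons h1 h2 h3
    · exact ih h4

/-- valid points of the unfolding -/
def Vd : Set (X × List V) := {p | p.2.head? = some (F.π p.1) ∧ F.Red p.2}

/-- letters acting on the unfolding -/
noncomputable def us (a : L) (p : X × List V) : X × List V :=
  (F.A a p.1, mv (F.π (F.A a p.1)) p.2)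

theorem us_cases {p : X × List V} (hp : p ∈ F.Vd) (a : L) :
    (F.π (F.A a p.1) = F.π p.1 ∧ F.us a p = (F.A a p.1, p.2)) ∨
    (∃ v l, p.2 = v :: l ∧ l.head? = some (F.π (F.A a p.1)) ∧ F.π (F.A a p.1) ≠ F.π p.1 ∧
      F.us a p = (F.A a p.1, l)) ∨
    (F.π (F.A a p.1) ≠ F.π p.1 ∧ F.us a p = (F.A a p.1, F.π (F.A a p.1) :: p.2) ∧
      F.Red (F.π (F.A a p.1) :: p.2)) := by
  obtain ⟨x, l⟩ := p
  obtain ⟨h1, h2⟩ := hp
  dsimp only at h1 h2 ⊢
  by_cases hx : F.π (F.A a x) = F.π x
  · left
    refine ⟨hx, ?_⟩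
    unfold us mv
    dsimp only
    rw [if_pos (by rw [h1, hx])]
  · right
    have h3 : l.head? ≠ some (F.π (F.A a x)) := by
      rw [h1]
      intro h4
      exact hx (Option.some.inj h4).symm
    by_cases h4 : l.tail.head? = some (F.π (F.A a x))
    · left
      cases l with
      | nil => exact absurd rfl h2.ne_nil
      | cons v l =>
        refine ⟨v, l, rfl, h4, hx, ?_⟩
        unfold us mv
        dsimp only
        rw [if_neg h3, if_pos h4]
        rfl
    · right
      refine ⟨hx, ?_, ?_⟩
      · unfold us mv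
        dsimp only
        rw [if_neg h3, if_neg h4]
      · cases l with
        | nil => exact absurd rfl h2.ne_nil
        | cons v l =>
          simp only [List.head?_cons, Option.some.injEq] at h1
          refine Red.cons ⟨?_, x, a, h1.symm, rfl⟩ h4 h2
          rw [h1]
          exact fun h5 => hx h5.symm

theorem us_mem {p : X × List V} (hp : p ∈ F.Vd) (a : L) : F.us a p ∈ F.Vd := by
  rcases F.us_cases hp a with ⟨h1, h2⟩ | ⟨v, l, h1, h2, h3, h4⟩ | ⟨h1, h2, h3⟩
  · rw [h2]
    exact ⟨by rw [h1]; exact hp.1, hp.2⟩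
  · rw [h4]
    refine ⟨h2, ?_⟩
    have h5 := hp.2
    rw [h1] at h5
    cases l with
    | nil => simp at h2
    | cons u r => exact h5.tail
  · rw [h2]
    exact ⟨rfl, h3⟩

/-- entering a region of stacks -/
theorem us_enter {p : X × List V} (hp : p ∈ F.Vd) (a : L) {s : List V} (h1 : ¬ s <:+ p.2)
    (h2 : s <:+ (F.us a p).2) : (F.us a p).2 = s := by
  rcases F.us_cases hp a with ⟨h3, h4⟩ | ⟨v, l, h3, h4, h5, h6⟩ | ⟨h3, h4, h5⟩
  · rw [h4] at h2
    exact absurd h2 h1
  · rw [h6] at h2
    rw [h3] at h1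
    exact absurd (h2.trans (List.suffix_cons v l)) h1
  · rw [h4] at h2 ⊢
    rcases List.suffix_cons_iff.1 h2 with h6 | h6
    · exact h6.symm
    · exact absurd h6 h1

/-- leaving a region of stacks -/
theorem us_leave {p : X × List V} (hp : p ∈ F.Vd) (a : L) {s : List V} (h1 : s <:+ p.2)
    (h2 : ¬ s <:+ (F.us a p).2) : p.2 = s := by
  rcases F.us_cases hp a with ⟨h3, h4⟩ | ⟨v, l, h3, h4, h5, h6⟩ | ⟨h3, h4, h5⟩
  · rw [h4] at h2
    exact absurd h1 h2
  · rw [h6] at h2
    rw [h3] at h1 ⊢
    rcases List.suffix_cons_iff.1 h1 with h7 | h7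
    · exact h7.symm
    · exact absurd h7 h2
  · rw [h4] at h2
    exact absurd (h1.trans (List.suffix_cons _ _)) h2

/-- the part of the unfolding between two stacks -/
def Reg (N : ℕ) (s s' : List V) : Set (X × List V) :=
  {p | p ∈ F.Vd ∧ s <:+ p.2 ∧ (¬ s' <:+ p.2 ∨ p.2 = s') ∧ p.2.length ≤ N}

/-- the part of the unfolding of bounded depth -/
def Bd (N : ℕ) : Set (X × List V) := {p | p ∈ F.Vd ∧ p.2.length ≤ N}

theorem len_lt {s s' : List V} (h : s <:+ s') (hne : s ≠ s') : s.length < s'.length := by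
  have h1 := h.length_le
  rcases lt_or_eq_of_le h1 with h2 | h2
  · exact h2
  · exact absurd (h.eq_of_length h2) hne

theorem not_suffix_of_ne {s s' : List V} (h : s <:+ s') (hne : s ≠ s') : ¬ s' <:+ s := by
  intro h1
  have h2 := len_lt h hne
  have h3 := h1.length_le
  omega

/-- a path which crosses a region -/
theorem through {T : Set L} {N : ℕ} {s s' : List V} (hs : s <:+ s') (hne : s ≠ s')
    {p0 q : X × List V} (h : TC F.us T (F.Bd N) p0 q) (h0 : ¬ s <:+ p0.2) (hq : s' <:+ q.2) :
    ∃ p q', p.2 = s ∧ q'.2 = s' ∧ TC F.us T (F.Reg N s s') p q' := by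
  have key : (∃ p q', p.2 = s ∧ q'.2 = s' ∧ TC F.us T (F.Reg N s s') p q') ∨ ¬ s <:+ q.2 ∨
      ∃ p, p.2 = s ∧ TC F.us T (F.Reg N s s') p q ∧ ¬ s' <:+ q.2 := by
    clear hq
    induction h with
    | refl _ => exact Or.inr (Or.inl h0)
    | @step q a h1 ha h2 ih =>
      rcases ih with h3 | h3 | ⟨p, h3, h4, h5⟩
      · exact Or.inl h3
      · by_cases h4 : s <:+ (F.us a q).2
        · have h5 := F.us_enter h1.right.1 a h3 h4
          right; right
          have h6 : ¬ s' <:+ (F.us a q).2 := by
            rw [h5]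
            exact not_suffix_of_ne hs hne
          exact ⟨F.us a q, h5, TC.refl ⟨h2.1, h4, Or.inl h6, h2.2⟩, h6⟩
        · exact Or.inr (Or.inl h4)
      · by_cases h6 : s' <:+ (F.us a q).2
        · have h7 := F.us_enter h1.right.1 a h5 h6
          left
          exact ⟨p, F.us a q, h3, h7, TC.step a h4 ha ⟨h2.1, hs.trans h6, Or.inr h7, h2.2⟩⟩
        · by_cases h7 : s <:+ (F.us a q).2
          · right; right
            exact ⟨p, h3, TC.step a h4 ha ⟨h2.1, h7, Or.inl h6, h2.2⟩, h6⟩
          · exact Or.inr (Or.inl h7)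
  rcases key with h1 | h1 | ⟨p, h1, h2, h3⟩
  · exact h1
  · exact absurd (hs.trans hq) h1
  · exact absurd hq h3

/-- regions compose -/
theorem Reg_union {N : ℕ} {s s' s'' : List V} (h1 : s <:+ s') (h2 : s' <:+ s'')
    (hne2 : s' ≠ s'') : F.Reg N s s'' = F.Reg N s s' ∪ F.Reg N s' s'' := by
  ext p
  simp only [Reg, Set.mem_ofPred_eq, Set.mem_union]
  constructor
  · rintro ⟨a1, a2, a3, a4⟩
    by_cases h : s' <:+ p.2
    · exact Or.inr ⟨a1, h, a3, a4⟩
    · exact Or.inl ⟨a1, a2, Or.inl h, a4⟩
  · rintro (⟨a1, a2, a3, a4⟩ | ⟨a1, a2, a3, a4⟩)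
    · refine ⟨a1, a2, Or.inl ?_, a4⟩
      rcases a3 with a3 | a3
      · exact fun h => a3 (h2.trans h)
      · rw [a3]
        exact not_suffix_of_ne h2 hne2
    · exact ⟨a1, h1.trans a2, a3, a4⟩

theorem Reg_edge {N : ℕ} {s s' s'' : List V} (h1 : s <:+ s') (q : X × List V) (a : L)
    (hq : q ∈ F.Reg N s s' ∪ F.Reg N s' s'') (hq' : F.us a q ∈ F.Reg N s s' ∪ F.Reg N s' s'') :
    (q ∈ F.Reg N s s' ∧ F.us a q ∈ F.Reg N s s') ∨
      (q ∈ F.Reg N s' s'' ∧ F.us a q ∈ F.Reg N s' s'') := by
  rcases hq with hq | hq <;> rcases hq' with hq' | hq'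
  · exact Or.inl ⟨hq, hq'⟩
  · by_cases h : s' <:+ q.2
    · right
      refine ⟨⟨hq.1, h, ?_, hq.2.2.2⟩, hq'⟩
      rcases hq.2.2.1 with h3 | h3
      · exact absurd h h3
      · rw [h3]
        by_cases h4 : s'' <:+ s'
        · rcases hq'.2.2.1 with h5 | h5
          · exact absurd (h4.trans hq'.2.1) h5
          · right
            have h6 := hq'.2.1
            rw [h5] at h6
            exact h6.eq_of_length (le_antisymm h6.length_le h4.length_le)
        · exact Or.inl h4
    · left
      have h3 := F.us_enter hq.1 a h hq'.2.1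
      refine ⟨hq, hq'.1, ?_, Or.inr h3, hq'.2.2.2⟩
      rw [h3]
      exact h1
  · by_cases h : s' <:+ (F.us a q).2
    · right
      have h3 : (F.us a q).2 = s' := by
        rcases hq'.2.2.1 with h3 | h3
        · exact absurd h h3
        · exact h3
      refine ⟨hq, hq'.1, h, ?_, hq'.2.2.2⟩
      rw [h3]
      by_cases h4 : s'' <:+ s'
      · rcases hq.2.2.1 with h5 | h5
        · exact absurd (h4.trans hq.2.1) h5
        · right
          have h6 := hq.2.1
          rw [h5] at h6
          exact h6.eq_of_length (le_antisymm h6.length_le h4.length_le)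
      · exact Or.inl h4
    · left
      have h3 := F.us_leave hq.1 a hq.2.1 h
      refine ⟨⟨hq.1, ?_, Or.inr h3, hq.2.2.2⟩, hq'⟩
      rw [h3]
      exact h1
  · exact Or.inr ⟨hq, hq'⟩

/-- stacks of bounded depth above a given stack form a finite set -/
theorem stacks_finite (hN : ∀ v, {w | F.Adj v w}.Finite) {s : List V} (hs : s ≠ []) (N : ℕ) :
    {l | F.Red l ∧ s <:+ l ∧ l.length ≤ N}.Finite := by
  have key : ∀ k, {l | F.Red l ∧ s <:+ l ∧ l.length = s.length + k}.Finite := by
    intro k
    induction k with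
    | zero =>
      refine (Set.finite_singleton s).subset ?_
      rintro l ⟨-, h1, h2⟩
      exact (h1.eq_of_length h2.symm).symm
    | succ k ih =>
      have h1 : {l | F.Red l ∧ s <:+ l ∧ l.length = s.length + (k + 1)} ⊆
          ⋃ l ∈ {l | F.Red l ∧ s <:+ l ∧ l.length = s.length + k},
            (fun w => w :: l) '' {w | ∃ u, l.head? = some u ∧ F.Adj u w} := by
        rintro l ⟨h1, h2, h3⟩
        cases h1 with
        | one v =>
          simp only [List.length_cons, List.length_nil] at h3
          have := List.length_pos_iff.2 hs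
          omega
        | @cons v u r h4 h5 h6 =>
          have h7 : s <:+ u :: r := by
            rcases List.suffix_cons_iff.1 h2 with h7 | h7
            · rw [h7] at h3
              omega
            · exact h7
          refine Set.mem_biUnion (x := u :: r) ⟨h6, h7, ?_⟩ ?_
          · simp only [List.length_cons] at h3 ⊢
            omega
          · exact ⟨v, ⟨u, rfl, h4⟩, rfl⟩
      refine (ih.biUnion fun l _ => Set.Finite.image _ ?_).subset h1
      cases hl : l.head? with
      | none =>
        refine Set.finite_empty.subset ?_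
        rintro w ⟨u, h2, -⟩
        exact absurd h2 (by simp)
      | some u =>
        refine (hN u).subset ?_
        rintro w ⟨u', h2, h3⟩
        rw [Option.some.injEq] at h2
        rw [h2]
        exact h3
  refine (Set.Finite.biUnion (Set.finite_Iic N) fun k _ => key k).subset ?_
  rintro l ⟨h1, h2, h3⟩
  refine Set.mem_biUnion (x := l.length - s.length) ?_ ⟨h1, h2, ?_⟩
  · simp only [Set.mem_Iic]
    omega
  · have := h2.length_le
    omega

end Fib

end Run7.h266
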