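import Pool.Agent.Run7.h266.Wind
import Pool.Agent.Run7.h266.Stack

/-!
# The cyclic closure of a part of the unfolding between two stacks of the same type
-/

set_option autoImplicit false

namespace Run7.h266

variable {L : Type} {S : Sys L} {X V : Type} (F : Fib S X V)

open Classical in
/-- The part of the unfolding between two stacks of the same type occurs around a cycle of a finite
glued action, if its vertices are supported. -/
theorem Fib.cyclic [Finite L] {N : ℕ} {s s' : List V} {v1 u1 v2 u2 : V} {r1 r2 : List V}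
    (hs : s = v1 :: u1 :: r1) (hs' : s' = v2 :: u2 :: r2) (hred : F.Red s') (hsuf : s <:+ s')
    (hne : s ≠ s') (hlen : s'.length ≤ N) (hty : F.ty u2 v2 = F.ty u1 v1)
    (hsupp : ∀ l v, F.Red l → l.head? = some v → s <:+ l → l.length ≤ N → F.Supp v) :
    ∃ (J : Type) (_ : Finite J) (g : GS F J) (j0 : J) (w0 : V) (h0 : F.Adj (g.loc j0) w0)
      (js : J), g.loc js = v1 ∧ ∀ m : ℤ, ∃ f : X × List V → (J × ℤ) × X,
        (∀ p, p.2 = s → f p = ((js, m), p.1)) ∧
        (∀ p, p.2 = s' → f p = ((js, m + 1), F.tr u2 v2 u1 v1 p.1)) ∧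
        ∀ q a, q ∈ F.Reg N s s' → F.us a q ∈ F.Reg N s s' →
          (g.cov j0 w0 h0).stp a (f q) = f (F.us a q) := by
  have hsne : s ≠ [] := by rw [hs]; simp
  let W : Type := {l : List V // F.Red l ∧ s <:+ l ∧ ¬ s' <:+ l ∧ l.length ≤ N}
  have hW : Finite W :=
    ((F.stacks_finite F.nbs_finite hsne N).subset fun l hl => ⟨hl.1, hl.2.1, hl.2.2.2⟩).to_subtype
  let loc : W → V := fun j => j.1.head j.2.1.ne_nil
  have hloc : ∀ (j : W) v, j.1.head? = some v ↔ loc j = v := by
    intro j v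
    rw [List.head?_eq_some_head j.2.1.ne_nil, Option.some.injEq]
  have hsred : F.Red s := hred.suffix hsuf hsne
  have hadj1 : F.Adj u1 v1 := by rw [hs] at hsred; exact hsred.adj
  have hadj2 : F.Adj u2 v2 := by rw [hs'] at hred; exact hred.adj
  have hnb2 : r2.head? ≠ some v2 := by rw [hs'] at hred; exact hred.nb
  have hlt := Fib.len_lt hsuf hne
  have hnsuf : ¬ s' <:+ s := Fib.not_suffix_of_ne hsuf hne
  have hsW : F.Red s ∧ s <:+ s ∧ ¬ s' <:+ s ∧ s.length ≤ N :=
    ⟨hsred, List.suffix_refl s, hnsuf, by omega⟩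
  have htl : s <:+ u2 :: r2 := by
    rw [hs'] at hsuf
    rcases List.suffix_cons_iff.1 hsuf with h | h
    · exact absurd (h.trans hs'.symm) hne
    · exact h
  have hl' : (u2 :: r2).length + 1 = s'.length := by rw [hs']; rfl
  have htW : F.Red (u2 :: r2) ∧ s <:+ u2 :: r2 ∧ ¬ s' <:+ u2 :: r2 ∧ (u2 :: r2).length ≤ N := by
    refine ⟨by rw [hs'] at hred; exact hred.tail, htl, fun h => ?_, by omega⟩
    have := h.length_le
    omega
  -- the relation
  let R : W → V → W → V → Prop := fun j w j' w' =>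
    (j'.1 = w :: j.1 ∧ w' = loc j) ∨ (j.1 = w' :: j'.1 ∧ w = loc j') ∨
      (s' = w :: j.1 ∧ j'.1 = s ∧ w' = u1) ∨ (s' = w' :: j'.1 ∧ j.1 = s ∧ w = u1)
  -- no backtracking
  have hnbk : ∀ (w : V) (j : List V) (u : V), F.Red (w :: j) → ∀ r, j = u :: r →
      r.head? ≠ some w := by
    rintro w j u h r rfl
    exact h.nb
  have hsym : ∀ j w j' w', R j w j' w' → R j' w' j w := by
    intro j w j' w' h
    rcases h with ⟨h1, h2⟩ | ⟨h1, h2⟩ | ⟨h1, h2, h3⟩ | ⟨h1, h2, h3⟩
    · exact Or.inr (Or.inl ⟨h1, h2⟩)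
    · exact Or.inl ⟨h1, h2⟩
    · exact Or.inr (Or.inr (Or.inr ⟨h1, h2, h3⟩))
    · exact Or.inr (Or.inr (Or.inl ⟨h1, h2, h3⟩))
  -- pairs of kinds
  have hA : ∀ (j : W) (w : V) (l : List V) (j' : W) (w' : V), F.Red l → l = w :: j.1 →
      j.1 = w' :: j'.1 → w = loc j' → False := by
    intro j w l j' w' hl h1 h2 h3
    subst h1
    refine hnbk w j.1 w' hl j'.1 h2 ?_
    rw [hloc]
    exact h3.symm
  have hB : ∀ (j : W) (w : V) (l : List V), F.Red l → l = w :: j.1 → j.1 = s → w = u1 →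
      False := by
    intro j w l hl h1 h2 h3
    subst h1
    refine hnbk w j.1 v1 hl (u1 :: r1) (h2.trans hs) ?_
    rw [h3]
    rfl
  have hC : ∀ (j j' : W) (w' : V), j.1 = w' :: j'.1 → j.1 = s → False := by
    intro j j' w' h1 h2
    have h3 := j'.2.2.1.length_le
    rw [h2] at h1
    have h4 := congrArg List.length h1
    simp only [List.length_cons] at h4
    omega
  have hf : ∀ j w j' w' j'' w'', R j w j' w' → R j w j'' w'' → j' = j'' ∧ w' = w'' := by
    intro j w j' w' j'' w'' h h'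
    rcases h with ⟨h1, h2⟩ | ⟨h1, h2⟩ | ⟨h1, h2, h3⟩ | ⟨h1, h2, h3⟩ <;>
    rcases h' with ⟨k1, k2⟩ | ⟨k1, k2⟩ | ⟨k1, k2, k3⟩ | ⟨k1, k2, k3⟩
    · exact ⟨Subtype.ext (h1.trans k1.symm), h2.trans k2.symm⟩
    · exact (hA j w j'.1 j'' w'' j'.2.1 h1 k1 k2).elim
    · exact (j'.2.2.2.1 ⟨[], k1.trans h1.symm⟩).elim
    · exact (hB j w j'.1 j'.2.1 h1 k2 k3).elim
    · exact (hA j w j''.1 j' w' j''.2.1 k1 h1 h2).elim
    · have := h1.symm.trans k1
      rw [List.cons.injEq] at this
      exact ⟨Subtype.ext this.2, this.1⟩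
    · exact (hA j w s' j' w' hred k1 h1 h2).elim
    · exact (hC j j' w' h1 k2).elim
    · exact (j''.2.2.2.1 ⟨[], h1.trans k1.symm⟩).elim
    · exact (hA j w s' j'' w'' hred h1 k1 k2).elim
    · exact ⟨Subtype.ext (h2.trans k2.symm), h3.trans k3.symm⟩
    · exact (hB j w s' hred h1 k2 k3).elim
    · exact (hB j w j''.1 j''.2.1 k1 h2 h3).elim
    · exact (hC j j'' w'' k1 h2).elim
    · exact (hB j w s' hred k1 h2 h3).elim
    · have := h1.symm.trans k1
      rw [List.cons.injEq] at this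
      exact ⟨Subtype.ext this.2, this.1⟩
  have hadjcons : ∀ (w : V) (j : W), F.Red (w :: j.1) → F.Adj (loc j) w := by
    intro w j h
    have h1 := List.cons_head_tail j.2.1.ne_nil
    rw [← h1] at h
    exact h.adj
  have hlocs : ∀ j : W, j.1 = s → loc j = v1 := by
    intro j hj
    rw [← hloc, hj, hs]
    rfl
  have hloct : ∀ (j : W) (w : V), s' = w :: j.1 → loc j = u2 ∧ w = v2 := by
    intro j w hj
    have hj' := hs'.symm.trans hj
    rw [List.cons.injEq] at hj'
    refine ⟨?_, hj'.1.symm⟩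
    rw [← hloc, ← hj'.2]
    rfl
  have hR : ∀ j w j' w', R j w j' w' → F.Adj (loc j) w ∧ F.ty (loc j) w = F.ty w' (loc j') := by
    intro j w j' w' h
    rcases h with ⟨h1, h2⟩ | ⟨h1, h2⟩ | ⟨h1, h2, h3⟩ | ⟨h1, h2, h3⟩
    · have h3 : loc j' = w := by rw [← hloc, h1]; rfl
      rw [h3, h2]
      refine ⟨hadjcons w j ?_, rfl⟩
      rw [← h1]
      exact j'.2.1
    · have h3 : loc j = w' := by rw [← hloc, h1]; rfl
      rw [h3, h2]
      refine ⟨(hadjcons w' j' ?_).symm, rfl⟩
      rw [← h1]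
      exact j.2.1
    · obtain ⟨h4, h5⟩ := hloct j w h1
      rw [h4, h5, h3, hlocs j' h2]
      exact ⟨hadj2, hty⟩
    · obtain ⟨h4, h5⟩ := hloct j' w' h1
      rw [h4, h5, h3, hlocs j h2]
      exact ⟨hadj1.symm, by rw [hadj1.ty, hadj2.ty, hty]⟩
  have hS : ∀ j, F.Supp (loc j) := fun j =>
    hsupp j.1 (loc j) j.2.1 ((hloc j _).2 rfl) j.2.2.1 j.2.2.2.2
  obtain ⟨J, hJ, g, ι, hι, hgl, hgμ⟩ := F.exists_completion' loc R hf hsym hR hS
  set js : J := ι ⟨s, hsW⟩ with hjs
  set j0 : J := ι ⟨u2 :: r2, htW⟩ with hj0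
  have hgj0 : g.loc j0 = u2 := by
    rw [hj0, hgl]
    exact (hloct ⟨u2 :: r2, htW⟩ v2 hs').1
  have hgjs : g.loc js = v1 := by
    rw [hjs, hgl]
    exact hlocs ⟨s, hsW⟩ rfl
  have h0 : F.Adj (g.loc j0) v2 := by
    rw [hgj0]
    exact hadj2
  have hμ0 : g.μ j0 v2 = (js, u1) :=
    hgμ ⟨u2 :: r2, htW⟩ v2 ⟨s, hsW⟩ u1 (Or.inr (Or.inr (Or.inl ⟨hs', rfl, rfl⟩)))
  have hμ1 : g.μ js u1 = (j0, v2) :=
    hgμ ⟨s, hsW⟩ u1 ⟨u2 :: r2, htW⟩ v2 (Or.inr (Or.inr (Or.inr ⟨hs', rfl, rfl⟩)))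
  have hdl0 : g.dl j0 v2 j0 v2 = 1 := g.dl_self
  have hdl1 : g.dl j0 v2 js u1 = -1 := by
    have h1 := g.dl_μ h0 h0
    rw [hμ0] at h1
    rw [h1, hdl0]
  refine ⟨J, hJ, g, j0, v2, h0, js, hgjs, fun m => ?_⟩
  let f : X × List V → (J × ℤ) × X := fun p =>
    if h : F.Red p.2 ∧ s <:+ p.2 ∧ ¬ s' <:+ p.2 ∧ p.2.length ≤ N then ((ι ⟨p.2, h⟩, m), p.1)
    else ((js, m + 1), F.tr u2 v2 u1 v1 p.1)
  have hfW : ∀ (x : X) (l : List V) (h : F.Red l ∧ s <:+ l ∧ ¬ s' <:+ l ∧ l.length ≤ N),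
      f (x, l) = ((ι ⟨l, h⟩, m), x) := fun x l h => dif_pos h
  have hfs' : ∀ x : X, f (x, s') = ((js, m + 1), F.tr u2 v2 u1 v1 x) := fun x =>
    dif_neg (fun h => h.2.2.1 (List.suffix_refl s'))
  refine ⟨f, ?_, ?_, ?_⟩
  · rintro ⟨x, l⟩ h
    have h' : l = s := h
    rw [h']
    exact hfW x s hsW
  · rintro ⟨x, l⟩ h
    have h' : l = s' := h
    rw [h']
    exact hfs' x
  · rintro ⟨x, l⟩ a hq hq'
    -- membership
    have hregW : ∀ p ∈ F.Reg N s s', (F.Red p.2 ∧ s <:+ p.2 ∧ ¬ s' <:+ p.2 ∧ p.2.length ≤ N) ∨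
        p.2 = s' := by
      intro p hp
      rcases hp.2.2.1 with h | h
      · exact Or.inl ⟨hp.1.2, hp.2.1, h, hp.2.2.2⟩
      · exact Or.inr h
    have hπ : l.head? = some (F.π x) := hq.1.1
    rcases F.us_cases hq.1 a with ⟨h1, h2⟩ | ⟨v, l', h1, h2, h3, h4⟩ | ⟨h1, h2, h3⟩
    · -- inside a fibre
      dsimp only at h1 h2
      rw [h2]
      rcases hregW _ hq with hl | hl
      · dsimp only at hl
        rw [hfW x l hl, hfW _ l hl]
        have h5 : g.loc (ι ⟨l, hl⟩) = F.π x := by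
          rw [hgl, ← hloc]
          exact hπ
        rw [GS.stp_of _ (show F.π x = (g.cov j0 v2 h0).loc (ι ⟨l, hl⟩, m) from h5.symm)]
        exact GS.emb_left _ _ (show F.π (F.A a x) = g.loc (ι ⟨l, hl⟩) from h1.trans h5.symm)
      · dsimp only at hl
        subst hl
        rw [hfs', hfs']
        have h5 : F.π x = v2 := by
          rw [hs'] at hπ
          exact (Option.some.inj hπ).symm
        have h6 : F.π (F.A a x) = v2 := h1.trans h5
        have h7 := (F.tr_right hty h5).1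
        have h8 := (F.tr_right hty h6).1
        rw [GS.stp_of _ (show F.π (F.tr u2 v2 u1 v1 x) = (g.cov j0 v2 h0).loc (js, m + 1) from
          h7.trans hgjs.symm)]
        rw [F.tr_act hty (F.mem_U_right h5) a (F.mem_U_right h6)]
        exact GS.emb_left _ _ (show F.π (F.tr u2 v2 u1 v1 (F.A a x)) = g.loc js from
          h8.trans hgjs.symm)
    · -- pop
      dsimp only at h1 h2 h3 h4
      rw [h4] at hq' ⊢
      subst h1
      have hsl' : s <:+ l' := hq'.2.1
      have hv : F.π x = v := (Option.some.inj hπ).symm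
      rcases hregW _ hq with hl | hl
      · dsimp only at hl
        have hl' : F.Red l' ∧ s <:+ l' ∧ ¬ s' <:+ l' ∧ l'.length ≤ N :=
          ⟨hq'.1.2, hsl', fun h => hl.2.2.1 (h.trans (List.suffix_cons _ _)), hq'.2.2.2⟩
        rw [hfW x _ hl, hfW _ l' hl']
        have h5 : g.loc (ι ⟨v :: l', hl⟩) = v := by
          rw [hgl, ← hloc]
          rfl
        have h6 : g.loc (ι ⟨l', hl'⟩) = F.π (F.A a x) := by
          rw [hgl, ← hloc]
          exact h2
        have h7 : g.μ (ι ⟨v :: l', hl⟩) (F.π (F.A a x)) = (ι ⟨l', hl'⟩, v) := by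
          refine hgμ _ _ _ _ (Or.inr (Or.inl ⟨rfl, ?_⟩))
          rw [← hgl]
          exact h6.symm
        have h8 : g.dl j0 v2 (ι ⟨v :: l', hl⟩) (F.π (F.A a x)) = 0 := by
          refine g.dl_of_ne ?_ ?_
          · intro h9
            rw [Prod.mk.injEq, hj0] at h9
            have h10 := congrArg Subtype.val (hι h9.1)
            rw [List.cons.injEq] at h10
            apply hnb2
            rw [← h10.2, h2, h9.2]
          · rw [hμ0]
            intro h9
            rw [Prod.mk.injEq, hjs] at h9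
            have h10 := congrArg Subtype.val (hι h9.1)
            have h11 := congrArg List.length h10
            have h12 := hsl'.length_le
            simp only [List.length_cons] at h11
            omega
        have h9 : F.Adj v (F.π (F.A a x)) := ⟨fun h => h3 (by rw [← h, hv]), x, a, hv, rfl⟩
        have h10 : (g.cov j0 v2 h0).μ (ι ⟨v :: l', hl⟩, m) (F.π (F.A a x)) =
            ((ι ⟨l', hl'⟩, m), v) := by
          show (((g.μ (ι ⟨v :: l', hl⟩) (F.π (F.A a x))).1, m + g.dl j0 v2 (ι ⟨v :: l', hl⟩)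
            (F.π (F.A a x))), (g.μ (ι ⟨v :: l', hl⟩) (F.π (F.A a x))).2) = _
          rw [h7, h8, add_zero]
        rw [GS.stp_of _ (show F.π x = (g.cov j0 v2 h0).loc (ι ⟨v :: l', hl⟩, m) from
          hv.trans h5.symm)]
        rw [GS.emb_right _ (show F.Adj ((g.cov j0 v2 h0).loc (ι ⟨v :: l', hl⟩, m))
          (F.π (F.A a x)) by
            show F.Adj (g.loc (ι ⟨v :: l', hl⟩)) (F.π (F.A a x))
            rw [h5]; exact h9) rfl]
        rw [h10]
        have h11 : (g.cov j0 v2 h0).loc (ι ⟨v :: l', hl⟩, m) = v := h5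
        have h12 : (g.cov j0 v2 h0).loc (ι ⟨l', hl'⟩, m) = F.π (F.A a x) := h6
        dsimp only
        rw [h11, h12, F.tr_self (F.mem_U_right rfl)]
      · dsimp only at hl
        have h5 : v = v2 ∧ l' = u2 :: r2 := by
          rw [hs', List.cons.injEq] at hl
          exact hl
        obtain ⟨rfl, rfl⟩ := h5
        rw [← hs', hfs', hfW _ _ htW]
        have h6 : F.π (F.A a x) = u2 := (Option.some.inj h2).symm
        have h7 := (F.tr_right hty hv).1
        have h8 := (F.tr_left hty h6).1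
        rw [GS.stp_of _ (show F.π (F.tr u2 v u1 v1 x) = (g.cov j0 v h0).loc (js, m + 1) from
          h7.trans hgjs.symm)]
        rw [F.tr_act hty (F.mem_U_right hv) a (F.mem_U_left h6), h8]
        rw [GS.emb_right _ (show F.Adj ((g.cov j0 v h0).loc (js, m + 1)) u1 by
          show F.Adj (g.loc js) u1
          rw [hgjs]; exact hadj1.symm) h8]
        have h10 : (g.cov j0 v h0).μ (js, m + 1) u1 = ((j0, m), v) := by
          show (((g.μ js u1).1, m + 1 + g.dl j0 v js u1), (g.μ js u1).2) = _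
          rw [hμ1, hdl1]
          simp
        rw [h10]
        have h11 : (g.cov j0 v h0).loc (js, m + 1) = v1 := hgjs
        have h12 : (g.cov j0 v h0).loc (j0, m) = u2 := hgj0
        dsimp only
        rw [h11, h12, F.tr_comm v1 u1 v u2, F.tr_tr hty (F.mem_U_left h6)]
    · -- push
      dsimp only at h1 h2 h3
      rw [h2] at hq' ⊢
      have hl : F.Red l ∧ s <:+ l ∧ ¬ s' <:+ l ∧ l.length ≤ N := by
        rcases hregW _ hq with hl | hl
        · exact hl
        · exfalso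
          dsimp only at hl
          rcases hq'.2.2.1 with h4 | h4
          · apply h4
            rw [hl]
            exact List.suffix_cons _ _
          · rw [hl] at h4
            have h5 := congrArg List.length h4
            simp at h5
      have h5 : g.loc (ι ⟨l, hl⟩) = F.π x := by
        rw [hgl, ← hloc]
        exact hπ
      have hadj : F.Adj (F.π x) (F.π (F.A a x)) := ⟨fun h => h1 h.symm, x, a, rfl, rfl⟩
      rw [hfW x l hl]
      rw [GS.stp_of _ (show F.π x = (g.cov j0 v2 h0).loc (ι ⟨l, hl⟩, m) from h5.symm)]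
      rw [GS.emb_right _ (show F.Adj ((g.cov j0 v2 h0).loc (ι ⟨l, hl⟩, m)) (F.π (F.A a x)) by
          show F.Adj (g.loc (ι ⟨l, hl⟩)) (F.π (F.A a x))
          rw [h5]; exact hadj) rfl]
      have h11 : (g.cov j0 v2 h0).loc (ι ⟨l, hl⟩, m) = F.π x := h5
      rcases hregW _ hq' with hl' | hl'
      · dsimp only at hl'
        rw [hfW _ _ hl']
        have h6 : g.loc (ι ⟨F.π (F.A a x) :: l, hl'⟩) = F.π (F.A a x) := by
          rw [hgl, ← hloc]
          rfl
        have h7 : g.μ (ι ⟨l, hl⟩) (F.π (F.A a x)) = (ι ⟨F.π (F.A a x) :: l, hl'⟩, F.π x) := by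
          refine hgμ _ _ _ _ (Or.inl ⟨rfl, ?_⟩)
          rw [← hgl, h5]
        have h8 : g.dl j0 v2 (ι ⟨l, hl⟩) (F.π (F.A a x)) = 0 := by
          refine g.dl_of_ne ?_ ?_
          · intro h9
            rw [Prod.mk.injEq, hj0] at h9
            have h10 := congrArg Subtype.val (hι h9.1)
            apply hl'.2.2.1
            dsimp only at h10
            rw [h10, h9.2, ← hs']
          · rw [hμ0]
            intro h9
            rw [Prod.mk.injEq, hjs] at h9
            have h10 := congrArg Subtype.val (hι h9.1)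
            dsimp only at h10
            exact hB ⟨l, hl⟩ (F.π (F.A a x)) _ hl'.1 rfl h10 h9.2
        have h10 : (g.cov j0 v2 h0).μ (ι ⟨l, hl⟩, m) (F.π (F.A a x)) =
            ((ι ⟨F.π (F.A a x) :: l, hl'⟩, m), F.π x) := by
          show (((g.μ (ι ⟨l, hl⟩) (F.π (F.A a x))).1, m + g.dl j0 v2 (ι ⟨l, hl⟩)
            (F.π (F.A a x))), (g.μ (ι ⟨l, hl⟩) (F.π (F.A a x))).2) = _
          rw [h7, h8, add_zero]
        rw [h10]
        have h12 : (g.cov j0 v2 h0).loc (ι ⟨F.π (F.A a x) :: l, hl'⟩, m) = F.π (F.A a x) := h6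
        dsimp only
        rw [h11, h12, F.tr_self (F.mem_U_right rfl)]
      · dsimp only at hl'
        rw [hl', hfs']
        have h6 : F.π (F.A a x) = v2 ∧ l = u2 :: r2 := by
          rw [hs', List.cons.injEq] at hl'
          exact hl'
        obtain ⟨h6, rfl⟩ := h6
        have h7 : F.π x = u2 := h5.symm.trans hgj0
        have h10 : (g.cov j0 v2 h0).μ (ι ⟨u2 :: r2, hl⟩, m) (F.π (F.A a x)) =
            ((js, m + 1), u1) := by
          rw [h6]
          show (((g.μ j0 v2).1, m + g.dl j0 v2 j0 v2), (g.μ j0 v2).2) = _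
          rw [hμ0, hdl0]
        rw [h10]
        have h12 : (g.cov j0 v2 h0).loc (js, m + 1) = v1 := hgjs
        dsimp only
        rw [h11, h12, h6, h7]

end Run7.h266
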