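import Pool.Agent.Run7.h266.LocalG

/-!
# All ends thin
-/

set_option autoImplicit false

namespace Run7.h266

variable {G : Type} [Group G] {Ω : Type} [MulAction G Ω]

/-- adjacent points of `V` -/
def Stp (S0 : Set G) (V : Set Ω) (x y : Ω) : Prop :=
  x ∈ V ∧ y ∈ V ∧ ∃ s ∈ S0, y = s • x ∨ y = s⁻¹ • x

theorem Stp.symm {S0 : Set G} {V : Set Ω} {x y : Ω} (h : Stp S0 V x y) : Stp S0 V y x := by
  obtain ⟨h1, h2, s, hs, h3 | h3⟩ := h
  · exact ⟨h2, h1, s, hs, Or.inr (by rw [h3, inv_smul_smul])⟩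
  · exact ⟨h2, h1, s, hs, Or.inl (by rw [h3, smul_inv_smul])⟩

/-- the component of `x` in `V` -/
def cmp (S0 : Set G) (V : Set Ω) (x : Ω) : Set Ω := {y | Relation.ReflTransGen (Stp S0 V) x y}

/-- connected sets -/
def SConn (S0 : Set G) (V : Set Ω) : Prop :=
  ∀ U ⊆ V, U.Nonempty → (∀ x ∈ U, ∀ s ∈ S0, (s • x ∈ V → s • x ∈ U) ∧
    (s⁻¹ • x ∈ V → s⁻¹ • x ∈ U)) → U = V

theorem cmp_sub {S0 : Set G} {V : Set Ω} {x : Ω} (hx : x ∈ V) : cmp S0 V x ⊆ V := by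
  intro y hy
  induction hy with
  | refl => exact hx
  | tail _ h _ => exact h.2.1

theorem rtg_symm {S0 : Set G} {V : Set Ω} {x y : Ω} (h : Relation.ReflTransGen (Stp S0 V) x y) :
    Relation.ReflTransGen (Stp S0 V) y x := by
  induction h with
  | refl => exact Relation.ReflTransGen.refl
  | tail _ h ih => exact Relation.ReflTransGen.head h.symm ih

theorem cmp_conn {S0 : Set G} {V : Set Ω} {x : Ω} : SConn S0 (cmp S0 V x) := by
  rintro U hU ⟨y0, hy0⟩ hcl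
  refine Set.Subset.antisymm hU fun y hy => ?_
  have h1 : Relation.ReflTransGen (Stp S0 V) y0 y := (rtg_symm (hU hy0)).trans hy
  clear hy
  induction h1 with
  | refl => exact hy0
  | tail _ h ih =>
    obtain ⟨h2, h3, s, hs, h4 | h4⟩ := h
    · have h5 := (hcl _ ih s hs).1
      rw [← h4] at h5
      exact h5 (Relation.ReflTransGen.tail (hU ih) ⟨h2, h3, s, hs, Or.inl h4⟩)
    · have h5 := (hcl _ ih s hs).2
      rw [← h4] at h5
      exact h5 (Relation.ReflTransGen.tail (hU ih) ⟨h2, h3, s, hs, Or.inr h4⟩)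

theorem cmp_mem_iff {S0 : Set G} {V : Set Ω} {x y z : Ω} (h : Stp S0 V y z) :
    y ∈ cmp S0 V x ↔ z ∈ cmp S0 V x :=
  ⟨fun h1 => Relation.ReflTransGen.tail h1 h, fun h1 => Relation.ReflTransGen.tail h1 h.symm⟩

theorem bd_cmp {S0 : Set G} {V : Set Ω} {x : Ω} (hx : x ∈ V) : bd S0 (cmp S0 V x) ⊆ bd S0 V := by
  rintro z ⟨s, hs, hz⟩
  refine ⟨s, hs, ?_⟩
  rcases hz with hz | hz
  · left
    intro h1
    by_cases h2 : z ∈ V
    · exact hz (cmp_mem_iff ⟨h2, h1.2 h2, s, hs, Or.inl rfl⟩).symm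
    · have h3 : s • z ∉ V := fun h => h2 (h1.1 h)
      have h4 : z ∉ cmp S0 V x := fun h => h2 (cmp_sub hx h)
      have h5 : s • z ∉ cmp S0 V x := fun h => h3 (cmp_sub hx h)
      tauto
  · right
    intro h1
    by_cases h2 : z ∈ V
    · exact hz (cmp_mem_iff ⟨h2, h1.2 h2, s, hs, Or.inr rfl⟩).symm
    · have h3 : s⁻¹ • z ∉ V := fun h => h2 (h1.1 h)
      have h4 : z ∉ cmp S0 V x := fun h => h2 (cmp_sub hx h)
      have h5 : s⁻¹ • z ∉ cmp S0 V x := fun h => h3 (cmp_sub hx h)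
      tauto

theorem exists_infinite_cmp {S0 : Set G} (hS : Subgroup.closure S0 = ⊤)
    (htr : ∀ x y : Ω, ∃ g : G, g • x = y) {V : Set Ω} (hV : V.Infinite)
    (hbd : (bd S0 V).Finite) {z0 : Ω} (hz0 : z0 ∉ V) : ∃ x ∈ V, (cmp S0 V x).Infinite := by
  by_contra hcon
  push Not at hcon
  apply hV
  have h1 : V ⊆ ⋃ p ∈ bd S0 V ∩ V, cmp S0 V p := by
    intro z hz
    have hzc : z ∈ cmp S0 V z := Relation.ReflTransGen.refl
    obtain ⟨s, hs, x, -, hx, hsx, hs'⟩ := exit_orbit hS (U := cmp S0 V z)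
      (MulAction.mem_orbit_self z) hzc (z := z0) (htr z z0) (fun h => hz0 (cmp_sub hz h))
    have hsV : s • x ∈ V := cmp_sub hz hsx
    have hxV : x ∉ V := by
      intro hxV
      apply hx
      refine (cmp_mem_iff ?_).2 hsx
      rcases hs' with h | h
      · exact ⟨hxV, hsV, s, h, Or.inl rfl⟩
      · exact ⟨hxV, hsV, s⁻¹, h, Or.inr (by rw [inv_inv])⟩
    simp only [Set.mem_iUnion]
    refine ⟨s • x, ⟨?_, hsV⟩, rtg_symm hsx⟩
    rcases hs' with h | h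
    · exact ⟨s, h, Or.inr (by rw [inv_smul_smul]; tauto)⟩
    · exact ⟨s⁻¹, h, Or.inl (by rw [inv_smul_smul]; tauto)⟩
  refine Set.Finite.subset ?_ h1
  exact (hbd.inter_of_left V).biUnion fun p hp => hcon p hp.2

theorem bd_diff_finite {S0 : Set G} (hfin : S0.Finite) {V P : Set Ω} (hV : (bd S0 V).Finite)
    (hP : P.Finite) : (bd S0 (V \ P)).Finite := by
  have h1 : (⋃ s ∈ S0, (P ∪ (s⁻¹ • ·) '' P ∪ (s • ·) '' P)).Finite :=
    hfin.biUnion fun s _ => (hP.union (hP.image _)).union (hP.image _)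
  refine (hV.union h1).subset ?_
  rintro x ⟨s, hs, hx⟩
  by_cases hx0 : x ∈ bd S0 V
  · exact Or.inl hx0
  right
  simp only [Set.mem_iUnion]
  refine ⟨s, hs, ?_⟩
  have h2 : (s • x ∈ V ↔ x ∈ V) ∧ (s⁻¹ • x ∈ V ↔ x ∈ V) := by
    by_contra h
    exact hx0 ⟨s, hs, by tauto⟩
  simp only [Set.mem_sdiff] at hx
  by_cases h3 : x ∈ P
  · exact Or.inl (Or.inl h3)
  · rcases hx with hx | hx
    · have h4 : s • x ∈ P := by tauto
      exact Or.inl (Or.inr ⟨s • x, h4, inv_smul_smul _ _⟩)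
    · have h4 : s⁻¹ • x ∈ P := by tauto
      exact Or.inr ⟨s⁻¹ • x, h4, smul_inv_smul _ _⟩

/-- sequences defining an end -/
def EndSeq (S0 : Set G) (V : ℕ → Set Ω) : Prop :=
  (∀ i, (V i).Infinite ∧ (bd S0 (V i)).Finite ∧ SConn S0 (V i) ∧ V (i + 1) ⊆ V i) ∧
    ∀ P : Set Ω, P.Finite → ∃ i, Disjoint (V i) P

/-- the end is thin -/
def ThinSeq (S0 : Set G) (V : ℕ → Set Ω) : Prop :=
  ∃ m : ℕ, ∀ i, ∃ (j : ℕ) (W : Set Ω), V j ⊆ W ∧ W ⊆ V i ∧ (bd S0 W).encard ≤ m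

theorem lthin_of_ends {S0 : Set G} (hS : Subgroup.closure S0 = ⊤) (hfin : S0.Finite)
    [Countable G] (htr : ∀ x y : Ω, ∃ g : G, g • x = y) [Infinite Ω]
    (h : ∀ V : ℕ → Set Ω, EndSeq S0 V → ThinSeq S0 V) :
    ∃ (m : ℕ) (V0 : Set Ω), LThin S0 m V0 := by
  classical
  by_contra hcon
  push Not at hcon
  have z0 : Ω := Classical.arbitrary Ω
  have hcount : Countable Ω := by
    have h1 : Function.Surjective (fun g : G => g • z0) := fun y => htr z0 y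
    exact h1.countable
  obtain ⟨f, hf⟩ := exists_surjective_nat Ω
  let Q : ℕ → Set Ω := fun i => f '' {j | j ≤ i}
  have hQ : ∀ i, (Q i).Finite := fun i => (Set.finite_le_nat i).image f
  -- the next set
  have hnext : ∀ (m : ℕ) (V0 : Set Ω), V0.Infinite → (bd S0 V0).Finite → ∃ V' ⊆ V0,
      V'.Infinite ∧ (bd S0 V').Finite ∧ SConn S0 V' ∧ Disjoint V' (Q m) ∧
      ∀ V ⊆ V', V.Infinite → ¬ (bd S0 V).encard ≤ m := by
    intro m V0 hV0 hbd0
    have h1 : ∃ W ⊆ V0, W.Infinite ∧ (bd S0 W).Finite ∧ ∃ P : Set Ω, P.Finite ∧ ∀ V ⊆ W,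
        V.Infinite → Disjoint V P → ¬ (bd S0 V).encard ≤ m := by
      by_contra hno
      push Not at hno
      exact hcon m V0 ⟨hV0, hbd0, fun W hW hWi hWb P hP => by
        obtain ⟨V, k1, k2, k3, k4⟩ := hno W hW hWi hWb P hP
        exact ⟨V, k1, k2, k3, k4⟩⟩
    obtain ⟨W, hW, hWi, hWb, P, hP, hPV⟩ := h1
    have h2 : (W \ (P ∪ Q m)).Infinite := hWi.sdiff (hP.union (hQ m))
    have h3 : (bd S0 (W \ (P ∪ Q m))).Finite := bd_diff_finite hfin hWb (hP.union (hQ m))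
    have h4 : f 0 ∉ W \ (P ∪ Q m) := fun h => h.2 (Or.inr ⟨0, Nat.zero_le _, rfl⟩)
    obtain ⟨x, hx, hxi⟩ := exists_infinite_cmp hS htr h2 h3 h4
    have h5 := cmp_sub (S0 := S0) hx
    refine ⟨cmp S0 (W \ (P ∪ Q m)) x, fun y hy => hW (h5 hy).1, hxi,
      h3.subset (bd_cmp hx), cmp_conn, ?_, ?_⟩
    · rw [Set.disjoint_left]
      exact fun y hy hy' => (h5 hy).2 (Or.inr hy')
    · intro V hV hVi
      refine hPV V (fun y hy => (h5 (hV hy)).1) hVi ?_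
      rw [Set.disjoint_left]
      exact fun y hy hy' => (h5 (hV hy)).2 (Or.inl hy')
  choose! nx k1 k2 k3 k4 k5 k6 using hnext
  let V : ℕ → Set Ω := fun i => Nat.rec (nx 0 Set.univ) (fun i V => nx (i + 1) V) i
  have hbu : (bd S0 (Set.univ : Set Ω)).Finite := by
    have : bd S0 (Set.univ : Set Ω) = ∅ := by
      ext x
      simp [bd]
    rw [this]
    exact Set.finite_empty
  have hV : ∀ i, (V i).Infinite ∧ (bd S0 (V i)).Finite := by
    intro i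
    induction i with
    | zero => exact ⟨k2 0 _ Set.infinite_univ hbu, k3 0 _ Set.infinite_univ hbu⟩
    | succ i ih => exact ⟨k2 (i + 1) _ ih.1 ih.2, k3 (i + 1) _ ih.1 ih.2⟩
  have hVc : ∀ i, SConn S0 (V i) ∧ Disjoint (V i) (Q i) ∧
      ∀ W ⊆ V i, W.Infinite → ¬ (bd S0 W).encard ≤ i := by
    intro i
    cases i with
    | zero => exact ⟨k4 0 _ Set.infinite_univ hbu, k5 0 _ Set.infinite_univ hbu,
        k6 0 _ Set.infinite_univ hbu⟩
    | succ i => exact ⟨k4 (i + 1) _ (hV i).1 (hV i).2, k5 (i + 1) _ (hV i).1 (hV i).2,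
        k6 (i + 1) _ (hV i).1 (hV i).2⟩
  have hVs : ∀ i, V (i + 1) ⊆ V i := fun i => k1 (i + 1) _ (hV i).1 (hV i).2
  obtain ⟨m, hm⟩ := h V ⟨fun i => ⟨(hV i).1, (hV i).2, (hVc i).1, hVs i⟩, by
    intro P hP
    choose idx hidx using hf
    obtain ⟨b, hb⟩ := (hP.image idx).bddAbove
    refine ⟨b, ?_⟩
    refine (hVc b).2.1.mono_right ?_
    intro p hp
    exact ⟨idx p, hb ⟨p, hp, rfl⟩, hidx p⟩⟩
  obtain ⟨j, W, h1, h2, h3⟩ := hm m
  exact (hVc m).2.2 W h2 ((hV j).1.mono h1) h3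

end Run7.h266
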