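import Pool.Agent.Run7.h266.Pump

/-!
# Few unsupported vertices; a linear isoperimetric inequality
-/

set_option autoImplicit false

namespace Run7.h266

variable {L : Type} {S : Sys L} {X V : Type}

namespace Fib

variable (F : Fib S X V)

theorem cnt_le [Finite L] (v : V) (e : ET L (F.n + 1)) : F.cnt v e ≤ F.t * Nat.card L := by
  have h1 : {x | F.π x = v}.Finite := Set.finite_of_encard_le_coe (F.fib v)
  have h2 : {x | F.π x = v}.ncard ≤ F.t := by
    have := F.fib v
    rw [← h1.cast_ncard_eq] at this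
    exact_mod_cast this
  have h3 : {w | F.Adj v w ∧ F.ty v w = e} ⊆
      (fun p : X × L => F.π (F.A p.2 p.1)) '' ({x | F.π x = v} ×ˢ Set.univ) := by
    rintro w ⟨⟨-, x, a, h4, h5⟩, -⟩
    exact ⟨(x, a), ⟨h4, Set.mem_univ _⟩, h5⟩
  have h4 : ({x | F.π x = v} ×ˢ (Set.univ : Set L)).Finite := h1.prod (Set.toFinite _)
  refine (Set.ncard_le_ncard h3 (h4.image _)).trans ((Set.ncard_image_le h4).trans ?_)
  rw [Set.ncard_prod, Set.ncard_univ]
  exact Nat.mul_le_mul_right _ h2

/-- the half edges at a finite set of vertices -/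
def He (Vf : Set V) : Set (V × V) := {h | h.1 ∈ Vf ∧ F.Adj h.1 h.2}

/-- the half edges which leave a set of vertices -/
def Out (Vf : Set V) : Set (V × V) := {h | h.1 ∈ Vf ∧ F.Adj h.1 h.2 ∧ h.2 ∉ Vf}

theorem He_finite [Finite L] {Vf : Set V} (hf : Vf.Finite) : (F.He Vf).Finite := by
  have h1 : F.He Vf ⊆ ⋃ v ∈ Vf, (fun w => (v, w)) '' {w | F.Adj v w} := by
    rintro ⟨v, w⟩ ⟨h1, h2⟩
    exact Set.mem_biUnion h1 ⟨w, h2, rfl⟩
  exact (hf.biUnion fun v _ => (F.nbs_finite v).image _).subset h1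

theorem Out_sub (Vf : Set V) : F.Out Vf ⊆ F.He Vf := fun _ h => ⟨h.1, h.2.1⟩

theorem He_card [Finite L] (Vf : Finset V) (e : ET L (F.n + 1)) :
    {h | h ∈ F.He Vf ∧ F.ty h.1 h.2 = e}.ncard = ∑ v ∈ Vf, F.cnt v e := by
  classical
  have hfin2 : ∀ v : V, {w | F.Adj v w ∧ F.ty v w = e}.Finite := fun v =>
    (F.nbs_finite v).subset fun w hw => hw.1
  have h1 : {h | h ∈ F.He Vf ∧ F.ty h.1 h.2 = e} =
      ↑(Vf.biUnion fun v => (hfin2 v).toFinset.image fun w => (v, w)) := by
    ext ⟨v, w⟩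
    simp only [He, Set.mem_ofPred_eq, Finset.mem_coe, Finset.mem_biUnion, Finset.mem_image,
      Set.Finite.mem_toFinset, Prod.mk.injEq]
    constructor
    · rintro ⟨⟨h1, h2⟩, h3⟩
      exact ⟨v, h1, w, ⟨h2, h3⟩, rfl, rfl⟩
    · rintro ⟨v', h1, w', ⟨h2, h3⟩, rfl, rfl⟩
      exact ⟨⟨h1, h2⟩, h3⟩
  rw [h1, Set.ncard_coe_finset, Finset.card_biUnion]
  · refine Finset.sum_congr rfl fun v _ => ?_
    rw [Finset.card_image_of_injective _ (fun w w' h => (Prod.mk.injEq _ _ _ _ ▸ h).2)]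
    unfold cnt
    rw [Set.ncard_eq_toFinset_card _ (hfin2 v)]
  · intro v _ v' _ hne
    show Disjoint _ _
    rw [Finset.disjoint_left]
    rintro ⟨x, y⟩ h2 h3
    simp only [Finset.mem_image, Prod.mk.injEq] at h2 h3
    obtain ⟨_, _, rfl, _⟩ := h2
    obtain ⟨_, _, h4, _⟩ := h3
    exact hne h4.symm

theorem He_split [Finite L] {Vf : Finset V} (e : ET L (F.n + 1)) :
    {h | h ∈ F.He Vf ∧ F.ty h.1 h.2 = e}.ncard =
      {h : V × V | h.1 ∈ Vf ∧ h.2 ∈ Vf ∧ F.Adj h.1 h.2 ∧ F.ty h.1 h.2 = e}.ncard +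
      {h | h ∈ F.Out Vf ∧ F.ty h.1 h.2 = e}.ncard := by
  have hfin := F.He_finite Vf.finite_toSet
  rw [← Set.ncard_union_eq ?_ (hfin.subset fun h hh => ⟨hh.1, hh.2.2.1⟩)
    (hfin.subset fun h hh => ⟨hh.1.1, hh.1.2.1⟩)]
  · congr 1
    ext h
    simp only [He, Out, Set.mem_ofPred_eq, Set.mem_union, Finset.mem_coe]
    tauto
  · rw [Set.disjoint_left]
    rintro h h1 h2
    exact h2.1.2.2 h1.2.1

theorem In_bar [Finite L] {Vf : Finset V} (e : ET L (F.n + 1)) :
    {h : V × V | h.1 ∈ Vf ∧ h.2 ∈ Vf ∧ F.Adj h.1 h.2 ∧ F.ty h.1 h.2 = e}.ncard =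
      {h : V × V | h.1 ∈ Vf ∧ h.2 ∈ Vf ∧ F.Adj h.1 h.2 ∧ F.ty h.1 h.2 = ebar e}.ncard := by
  have hfin := F.He_finite Vf.finite_toSet
  have key : ∀ e, {h : V × V | h.1 ∈ Vf ∧ h.2 ∈ Vf ∧ F.Adj h.1 h.2 ∧ F.ty h.1 h.2 = e}.ncard ≤
      {h : V × V | h.1 ∈ Vf ∧ h.2 ∈ Vf ∧ F.Adj h.1 h.2 ∧ F.ty h.1 h.2 = ebar e}.ncard := by
    intro e
    refine Set.ncard_le_ncard_of_injOn Prod.swap ?_ (Prod.swap_injective.injOn)
      (hfin.subset fun h hh => ⟨hh.1, hh.2.2.1⟩)
    rintro ⟨v, w⟩ ⟨h1, h2, h3, h4⟩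
    exact ⟨h2, h1, h3.symm, by
      show F.ty w v = ebar e
      rw [h3.ty]
      show ebar (F.ty v w) = _
      rw [show F.ty v w = e from h4]⟩
  refine le_antisymm (key e) ?_
  have := key (ebar e)
  rwa [ebar_ebar] at this

end Fib

open Classical in
/-- few unsupported vertices -/
theorem few_unsupported [Finite L] (t : ℕ) : ∃ C : ℕ, ∀ {S : Sys L} {X V : Type} (F : Fib S X V),
    F.t = t → ∀ Vf : Finset V, {v | v ∈ Vf ∧ ¬ F.Supp v}.ncard ≤ C * (F.Out Vf).ncard := by
  have hE : Fintype (ET L (2 * t + 1)) := Fintype.ofFinite _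
  let Q : Type := ET L (2 * t + 1) → Fin (t * Nat.card L + 1)
  have hQ : Fintype Q := Fintype.ofFinite _
  obtain ⟨C, hC⟩ := balanced_of_large (Q := Q) (E := ET L (2 * t + 1)) (fun c e => (c e : ℕ))
    (fun c e => (c (ebar e) : ℕ))
  refine ⟨Fintype.card Q * (C * 2), ?_⟩
  intro S X V F ht Vf
  subst ht
  have hfin := F.He_finite Vf.finite_toSet
  have hofin : (F.Out Vf).Finite := hfin.subset (F.Out_sub _)
  let star : V → Q := fun v e => ⟨F.cnt v e, Nat.lt_succ_of_le (F.cnt_le v e)⟩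
  let nn : Q → ℕ := fun c => (Vf.filter fun v => star v = c).card
  let bd : ET L (F.n + 1) → ℕ := fun e => {h | h ∈ F.Out Vf ∧ F.ty h.1 h.2 = e}.ncard
  have hsum : ∀ e : ET L (F.n + 1), ∑ c, nn c * (c e : ℕ) = ∑ v ∈ Vf, F.cnt v e := by
    intro e
    rw [← Finset.sum_fiberwise_of_maps_to (g := star) (t := Finset.univ)
      (fun _ _ => Finset.mem_univ _)]
    refine Finset.sum_congr rfl fun c _ => ?_
    have h1 : ∀ v ∈ Vf.filter (fun v => star v = c), F.cnt v e = (c e : ℕ) := by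
      intro v hv
      rw [← (Finset.mem_filter.1 hv).2]
    rw [Finset.sum_congr rfl h1, Finset.sum_const, smul_eq_mul]
  have hbal : ∀ e : ET L (F.n + 1), ∑ c, nn c * (c e : ℕ) + bd (ebar e) =
      ∑ c, nn c * (c (ebar e) : ℕ) + bd e := by
    intro e
    rw [hsum, hsum, ← F.He_card, ← F.He_card, F.He_split, F.He_split, F.In_bar e]
    ring
  -- the total boundary
  have htot : ∑ e : ET L (F.n + 1), bd e = (F.Out Vf).ncard := by
    rw [Set.ncard_eq_toFinset_card _ hofin]
    rw [Finset.card_eq_sum_card_fiberwise (f := fun h : V × V => F.ty h.1 h.2)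
      (t := Finset.univ) (fun _ _ => Finset.mem_coe.2 (Finset.mem_univ _))]
    refine Finset.sum_congr rfl fun e _ => ?_
    simp only [bd]
    rw [← Set.ncard_coe_finset]
    congr 1
    ext h
    simp
  have htot2 : ∑ e : ET L (F.n + 1), (bd (ebar e) + bd e) = 2 * (F.Out Vf).ncard := by
    rw [Finset.sum_add_distrib, htot]
    have h1 : ∑ e : ET L (F.n + 1), bd (ebar e) = ∑ e : ET L (F.n + 1), bd e := by
      refine Fintype.sum_equiv ⟨ebar, ebar, ebar_ebar, ebar_ebar⟩ _ _ fun e => rfl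
    rw [h1, htot]
    ring
  have hcase : ∀ c : Q, (Vf.filter fun v => star v = c ∧ ¬ F.Supp v).card ≤
      C * (2 * (F.Out Vf).ncard) := by
    intro c
    by_cases hc : C * (2 * (F.Out Vf).ncard) < nn c
    · have h1 := hC nn (fun e => bd (ebar e)) bd hbal c (by rw [htot2]; exact hc)
      obtain ⟨z, hz1, hz2, hz3⟩ := h1
      have h2 : (Vf.filter fun v => star v = c ∧ ¬ F.Supp v) = ∅ := by
        rw [Finset.filter_eq_empty_iff]
        rintro v hv ⟨hvc, hns⟩
        apply hns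
        -- representatives
        have hrep : ∀ c' : Q, ∃ v' : V, (0 < z c' → star v' = c') ∧ (c' = c → v' = v) := by
          intro c'
          by_cases h3 : c' = c
          · exact ⟨v, fun _ => hvc.trans h3.symm, fun _ => rfl⟩
          · by_cases h4 : 0 < z c'
            · have h5 : 0 < nn c' := lt_of_lt_of_le h4 (hz1 c')
              obtain ⟨v', hv'⟩ := Finset.card_pos.1 h5
              exact ⟨v', fun _ => (Finset.mem_filter.1 hv').2, fun h => absurd h h3⟩
            · exact ⟨v, fun h => absurd h h4, fun _ => rfl⟩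
        choose rep hrep1 hrep2 using hrep
        refine ⟨∑ c', Finsupp.single (rep c') (z c'), ?_, ?_⟩
        · rw [Finsupp.finsetSum_apply]
          refine lt_of_lt_of_le hz2 ?_
          have h3 : z c = (Finsupp.single (rep c) (z c)) v := by
            rw [hrep2 c rfl, Finsupp.single_eq_same]
          rw [h3]
          exact Finset.single_le_sum (f := fun c' => (Finsupp.single (rep c') (z c')) v)
            (fun _ _ => Nat.zero_le _) (Finset.mem_univ c)
        · have h3 : ∀ e : ET L (F.n + 1), (∑ c', Finsupp.single (rep c') (z c')).sum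
              (fun v k => k * F.cnt v e) = ∑ c', z c' * (c' e : ℕ) := by
            intro e
            rw [← Finsupp.sum_finsetSum_index (fun v => by simp) (fun v k l => by ring)]
            refine Finset.sum_congr rfl fun c' _ => ?_
            rw [Finsupp.sum_single_index (by simp)]
            rcases Nat.eq_zero_or_pos (z c') with h4 | h4
            · rw [h4, zero_mul, zero_mul]
            · congr 1
              exact congrArg (fun c : Q => (c e : ℕ)) (hrep1 c' h4)
          intro e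
          rw [h3, h3]
          exact hz3 e
      rw [h2]
      simp
    · push Not at hc
      refine le_trans (Finset.card_le_card ?_) hc
      intro v hv
      rw [Finset.mem_filter] at hv ⊢
      exact ⟨hv.1, hv.2.1⟩
  have h5 : {v | v ∈ Vf ∧ ¬ F.Supp v} = ↑(Vf.filter fun v => ¬ F.Supp v) := by
    ext v
    simp
  rw [h5, Set.ncard_coe_finset]
  rw [Finset.card_eq_sum_card_fiberwise (f := star) (t := Finset.univ)
    (fun _ _ => Finset.mem_coe.2 (Finset.mem_univ _))]
  calc ∑ c, ((Vf.filter fun v => ¬ F.Supp v).filter fun v => star v = c).card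
      ≤ ∑ _c : Q, C * (2 * (F.Out Vf).ncard) := by
        refine Finset.sum_le_sum fun c _ => le_trans (Finset.card_le_card ?_) (hcase c)
        intro v hv
        simp only [Finset.mem_filter] at hv ⊢
        exact ⟨hv.1.1, hv.2, hv.1.2⟩
    _ = _ := by
        rw [Finset.sum_const, Finset.card_univ, smul_eq_mul]
        ring

end Run7.h266
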