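import Pool.Agent.Run7.h266.Act

/-!
# Actions over vertices, types of edges, glued actions
-/

set_option autoImplicit false

namespace Run7.h266

variable {L : Type}

/-- An action, a map to a set of coloured vertices with small fibres; the letters move points inside
fibres or to fibres of the other colour, and the paths of relators meet at most two fibres. -/
structure Fib (S : Sys L) (X V : Type) where
  A : L → X → X
  act : IsAct S A
  π : X → V
  col : V → Bool
  t : ℕ
  fib : ∀ v, {x | π x = v}.encard ≤ t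
  bip : ∀ a x, π (A a x) ≠ π x → col (π (A a x)) ≠ col (π x)
  loc : ∀ w ∈ S.R, ∀ x, ∃ v, ∀ w', w' <:+ w → π (run A w' x) = π x ∨ π (run A w' x) = v

open Classical in
/-- labels of the points of a set -/
noncomputable def labS {X : Type} (n : ℕ) (U : Set X) : X → Fin (n + 1) :=
  if h : ∃ f : X → Fin (n + 1), Set.InjOn f U then h.choose else fun _ => 0

theorem labS_inj {X : Type} {n : ℕ} {U : Set X} (h : U.encard ≤ n) : Set.InjOn (labS n U) U := by
  have h1 : ∃ f : X → Fin (n + 1), Set.InjOn f U := by
    have hf : U.Finite := Set.finite_of_encard_le_coe h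
    have hc : U.ncard ≤ n := by
      rw [← hf.cast_ncard_eq] at h
      exact_mod_cast h
    classical
    have : Fintype U := hf.fintype
    have h2 : Fintype.card U ≤ Fintype.card (Fin (n + 1)) := by
      rw [Fintype.card_fin, ← Nat.card_eq_fintype_card]
      exact hc.trans (Nat.le_succ n)
    obtain ⟨e⟩ := Function.Embedding.nonempty_of_card_le h2
    refine ⟨fun x => if hx : x ∈ U then e ⟨x, hx⟩ else 0, fun x hx y hy hxy => ?_⟩
    dsimp only at hxy
    rw [dif_pos hx, dif_pos hy] at hxy
    exact congrArg Subtype.val (e.injective hxy)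
  unfold labS
  rw [dif_pos h1]
  exact h1.choose_spec

/-- types of edges -/
abbrev ET (L : Type) (n : ℕ) : Type :=
  Set (Fin n) × Set (Fin n) × Bool × (L → Fin n → Fin n → Prop)

/-- the reversed type -/
def ebar {n : ℕ} (e : ET L n) : ET L n := (e.2.1, e.1, !e.2.2.1, e.2.2.2)

theorem ebar_ebar {n : ℕ} (e : ET L n) : ebar (ebar e) = e := by
  obtain ⟨a, b, c, d⟩ := e
  simp [ebar]

instance [Finite L] (n : ℕ) : Finite (ET L n) := by
  unfold ET
  infer_instance

namespace Fib

variable {S : Sys L} {X V : Type} (F : Fib S X V)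

/-- the points over two vertices -/
def U (v w : V) : Set X := {x | F.π x = v ∨ F.π x = w}

theorem U_comm (v w : V) : F.U v w = F.U w v := by
  ext x
  simp only [U, Set.mem_ofPred_eq]
  exact or_comm

theorem U_card (v w : V) : (F.U v w).encard ≤ (2 * F.t : ℕ) := by
  have h1 : F.U v w = {x | F.π x = v} ∪ {x | F.π x = w} := rfl
  rw [h1]
  refine (Set.encard_union_le _ _).trans ?_
  refine (add_le_add (F.fib v) (F.fib w)).trans ?_
  rw [← two_mul]
  push_cast
  exact le_rfl

/-- number of labels minus one -/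
abbrev n : ℕ := 2 * F.t

/-- the labels of the points over two vertices -/
noncomputable def lab (v w : V) : X → Fin (F.n + 1) := labS F.n (F.U v w)

theorem lab_comm (v w : V) : F.lab v w = F.lab w v := by
  unfold lab
  rw [U_comm]

theorem lab_inj (v w : V) : Set.InjOn (F.lab v w) (F.U v w) := labS_inj (F.U_card v w)

/-- the type of an edge -/
noncomputable def ty (v w : V) : ET L (F.n + 1) :=
  (F.lab v w '' {x | F.π x = v}, F.lab v w '' {x | F.π x = w}, F.col v,
    fun a l l' => ∃ x, x ∈ F.U v w ∧ F.A a x ∈ F.U v w ∧ F.lab v w x = l ∧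
      F.lab v w (F.A a x) = l')

theorem ty_symm {v w : V} (h : F.col w ≠ F.col v) : F.ty w v = ebar (F.ty v w) := by
  unfold ty ebar
  rw [F.lab_comm w v, F.U_comm w v]
  dsimp only
  have : F.col w = !F.col v := by
    revert h
    cases F.col w <;> cases F.col v <;> simp
  rw [this]

open Classical in
/-- the transfer of points along an equality of types -/
noncomputable def tr (v w v' w' : V) (x : X) : X :=
  if h : ∃ x', x' ∈ F.U v' w' ∧ F.lab v' w' x' = F.lab v w x then h.choose else x

theorem tr_comm (v w v' w' : V) (x : X) : F.tr v w v' w' x = F.tr w v w' v' x := by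
  unfold tr
  rw [F.lab_comm v w, F.lab_comm v' w', F.U_comm v' w']

theorem mem_U_left {v w : V} {x : X} (h : F.π x = v) : x ∈ F.U v w := Or.inl h

theorem mem_U_right {v w : V} {x : X} (h : F.π x = w) : x ∈ F.U v w := Or.inr h

theorem tr_unique {v w v' w' : V} {x x' : X} (hx' : x' ∈ F.U v' w')
    (hl : F.lab v' w' x' = F.lab v w x) : F.tr v w v' w' x = x' := by
  have h : ∃ x', x' ∈ F.U v' w' ∧ F.lab v' w' x' = F.lab v w x := ⟨x', hx', hl⟩
  have h1 : F.tr v w v' w' x = h.choose := by
    unfold tr
    rw [dif_pos h]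
  rw [h1]
  have h2 := h.choose_spec
  exact F.lab_inj v' w' h2.1 hx' (h2.2.trans hl.symm)

theorem tr_left {v w v' w' : V} (ht : F.ty v w = F.ty v' w') {x : X} (hx : F.π x = v) :
    F.π (F.tr v w v' w' x) = v' ∧ F.lab v' w' (F.tr v w v' w' x) = F.lab v w x := by
  have h1 : F.lab v w x ∈ F.lab v w '' {x | F.π x = v} := ⟨x, hx, rfl⟩
  have h2 : F.lab v w '' {x | F.π x = v} = F.lab v' w' '' {x | F.π x = v'} :=
    congrArg Prod.fst ht
  rw [h2] at h1
  obtain ⟨x', hx', hl⟩ := h1
  rw [F.tr_unique (F.mem_U_left hx') hl]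
  exact ⟨hx', hl⟩

theorem tr_right {v w v' w' : V} (ht : F.ty v w = F.ty v' w') {x : X} (hx : F.π x = w) :
    F.π (F.tr v w v' w' x) = w' ∧ F.lab v' w' (F.tr v w v' w' x) = F.lab v w x := by
  have h1 : F.lab v w x ∈ F.lab v w '' {x | F.π x = w} := ⟨x, hx, rfl⟩
  have h2 : F.lab v w '' {x | F.π x = w} = F.lab v' w' '' {x | F.π x = w'} :=
    congrArg (fun z => z.2.1) ht
  rw [h2] at h1
  obtain ⟨x', hx', hl⟩ := h1
  rw [F.tr_unique (F.mem_U_right hx') hl]
  exact ⟨hx', hl⟩

theorem tr_mem {v w v' w' : V} (ht : F.ty v w = F.ty v' w') {x : X} (hx : x ∈ F.U v w) :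
    F.tr v w v' w' x ∈ F.U v' w' ∧ F.lab v' w' (F.tr v w v' w' x) = F.lab v w x := by
  rcases hx with h | h
  · have := F.tr_left ht h
    exact ⟨F.mem_U_left this.1, this.2⟩
  · have := F.tr_right ht h
    exact ⟨F.mem_U_right this.1, this.2⟩

theorem tr_act {v w v' w' : V} (ht : F.ty v w = F.ty v' w') {x : X} (hx : x ∈ F.U v w) (a : L)
    (hax : F.A a x ∈ F.U v w) : F.A a (F.tr v w v' w' x) = F.tr v w v' w' (F.A a x) := by
  have h1 : (F.ty v w).2.2.2 a (F.lab v w x) (F.lab v w (F.A a x)) := ⟨x, hx, hax, rfl, rfl⟩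
  rw [ht] at h1
  obtain ⟨x', hx', hax', h2, h3⟩ := h1
  rw [F.tr_unique hx' h2, F.tr_unique hax' h3]

theorem tr_tr {v w v' w' : V} (ht : F.ty v w = F.ty v' w') {x : X} (hx : x ∈ F.U v w) :
    F.tr v' w' v w (F.tr v w v' w' x) = x :=
  F.tr_unique hx (F.tr_mem ht hx).2.symm

theorem tr_self {v w : V} {x : X} (hx : x ∈ F.U v w) : F.tr v w v w x = x :=
  F.tr_unique hx rfl

/-- adjacent vertices -/
def Adj (v w : V) : Prop := v ≠ w ∧ ∃ x a, F.π x = v ∧ F.π (F.A a x) = w

variable {F} in
theorem Adj.symm {v w : V} (h : F.Adj v w) : F.Adj w v := by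
  obtain ⟨h1, x, a, h2, h3⟩ := h
  exact ⟨h1.symm, F.A a x, S.inv a, h3, by rw [F.act.inv_left]; exact h2⟩

variable {F} in
theorem Adj.col {v w : V} (h : F.Adj v w) : F.col w ≠ F.col v := by
  obtain ⟨h1, x, a, h2, h3⟩ := h
  have := F.bip a x
  rw [h2, h3] at this
  exact this h1.symm

variable {F} in
theorem Adj.ty {v w : V} (h : F.Adj v w) : F.ty w v = ebar (F.ty v w) := F.ty_symm h.col

end Fib

/-- Gluing data: copies of fibres and a matching of their edges. -/
structure GS {S : Sys L} {X V : Type} (F : Fib S X V) (J : Type) where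
  loc : J → V
  μ : J → V → J × V
  adj : ∀ j w, F.Adj (loc j) w → F.Adj (loc (μ j w).1) (μ j w).2
  inv : ∀ j w, F.Adj (loc j) w → μ (μ j w).1 (μ j w).2 = (j, w)
  tyq : ∀ j w, F.Adj (loc j) w → F.ty (loc j) w = F.ty (μ j w).2 (loc (μ j w).1)

namespace GS

variable {S : Sys L} {X V : Type} {F : Fib S X V} {J : Type} (g : GS F J)

open Classical in
/-- the point of the glued set on the other side -/
noncomputable def emb (j : J) (w : V) (y : X) : J × X :=
  if F.π y = g.loc j then (j, y)
  else ((g.μ j w).1, F.tr (g.loc j) w (g.μ j w).2 (g.loc (g.μ j w).1) y)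

open Classical in
/-- the glued action -/
noncomputable def stp (a : L) (p : J × X) : J × X :=
  if F.π p.2 = g.loc p.1 then g.emb p.1 (F.π (F.A a p.2)) (F.A a p.2) else p

theorem emb_left {j : J} (w : V) {y : X} (h : F.π y = g.loc j) : g.emb j w y = (j, y) := by
  unfold emb
  rw [if_pos h]

theorem emb_right {j : J} {w : V} (hw : F.Adj (g.loc j) w) {y : X} (h : F.π y = w) :
    g.emb j w y = ((g.μ j w).1, F.tr (g.loc j) w (g.μ j w).2 (g.loc (g.μ j w).1) y) := by
  unfold emb
  rw [if_neg]
  rw [h]
  exact hw.1.symm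

theorem stp_of {a : L} {j : J} {y : X} (h : F.π y = g.loc j) :
    g.stp a (j, y) = g.emb j (F.π (F.A a y)) (F.A a y) := by
  unfold stp
  rw [if_pos h]

theorem emb_mem {j : J} {w : V} (hw : F.Adj (g.loc j) w) {y : X} (hy : y ∈ F.U (g.loc j) w) :
    F.π (g.emb j w y).2 = g.loc (g.emb j w y).1 := by
  rcases hy with h | h
  · rw [g.emb_left w h]
    exact h
  · rw [g.emb_right hw h]
    exact (F.tr_right (g.tyq j w hw) h).1

theorem stp_emb {j : J} {w : V} (hw : F.Adj (g.loc j) w) {y : X} (hy : y ∈ F.U (g.loc j) w) (a : L)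
    (hay : F.A a y ∈ F.U (g.loc j) w) : g.stp a (g.emb j w y) = g.emb j w (F.A a y) := by
  have ht := g.tyq j w hw
  rcases hy with h | h
  · rw [g.emb_left w h, g.stp_of h]
    rcases hay with h' | h'
    · rw [g.emb_left _ h', g.emb_left _ h']
    · rw [h']
  · have hyU : y ∈ F.U (g.loc j) w := F.mem_U_right h
    rw [g.emb_right hw h, g.stp_of (F.tr_right ht h).1, F.tr_act ht hyU a hay]
    rcases hay with h' | h'
    · have h1 := (F.tr_left ht h').1
      rw [h1, g.emb_left _ h']
      rw [g.emb_right (g.adj j w hw) h1]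
      rw [g.inv j w hw]
      rw [F.tr_comm]
      congr 1
      exact F.tr_tr ht (F.mem_U_left h')
    · have h1 := (F.tr_right ht h').1
      rw [g.emb_left _ h1, g.emb_right hw h']

/-- the glued action is an action -/
theorem isAct : IsAct S g.stp := by
  rintro w hw ⟨j, x⟩
  by_cases hx : F.π x = g.loc j
  · obtain ⟨v, hv⟩ := F.loc w hw x
    rw [hx] at hv
    by_cases hadj : F.Adj (g.loc j) v
    · have key : ∀ w', w' <:+ w → run g.stp w' (j, x) = g.emb j v (run F.A w' x) := by
        intro w'
        induction w' with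
        | nil =>
          intro _
          rw [run_nil, run_nil, g.emb_left v hx]
        | cons a w' ih =>
          intro h
          have h1 := ih ((List.suffix_cons a w').trans h)
          rw [run_cons, h1, run_cons]
          exact g.stp_emb hadj (hv w' ((List.suffix_cons a w').trans h)) a (hv (a :: w') h)
      rw [key w (List.suffix_refl w), F.act w hw x, g.emb_left v hx]
    · have key : ∀ w', w' <:+ w → run g.stp w' (j, x) = (j, run F.A w' x) ∧
          F.π (run F.A w' x) = g.loc j := by
        intro w'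
        induction w' with
        | nil =>
          intro _
          exact ⟨rfl, hx⟩
        | cons a w' ih =>
          intro h
          obtain ⟨h1, h2⟩ := ih ((List.suffix_cons a w').trans h)
          have h3 : F.π (run F.A (a :: w') x) = g.loc j := by
            rcases hv (a :: w') h with h3 | h3
            · exact h3
            · by_contra hne
              apply hadj
              rw [h3] at hne
              exact ⟨fun h => hne h.symm, run F.A w' x, a, h2, h3⟩
          refine ⟨?_, h3⟩
          rw [run_cons, h1, g.stp_of h2]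
          rw [run_cons] at h3
          rw [g.emb_left _ h3]
          rfl
      rw [(key w (List.suffix_refl w)).1, F.act w hw x]
  · have key : ∀ w' : List L, run g.stp w' (j, x) = (j, x) := by
      intro w'
      induction w' with
      | nil => rfl
      | cons a w' ih =>
        rw [run_cons, ih]
        unfold stp
        rw [if_neg hx]
    exact key w

/-- the points which lie over the vertex of their copy are preserved -/
theorem stp_mem {p : J × X} (hp : F.π p.2 = g.loc p.1) (a : L) :
    F.π (g.stp a p).2 = g.loc (g.stp a p).1 := by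
  obtain ⟨j, x⟩ := p
  dsimp only at hp
  rw [g.stp_of hp]
  by_cases h : F.π (F.A a x) = g.loc j
  · rw [g.emb_left _ h]
    exact h
  · exact g.emb_mem ⟨fun h' => h h'.symm, x, a, hp, rfl⟩ (F.mem_U_right rfl)

/-- morphisms of gluing data -/
theorem stp_map {J' : Type} (g' : GS F J') (f : J → J') (hl : ∀ j, g'.loc (f j) = g.loc j)
    (hm : ∀ j w, F.Adj (g.loc j) w → g'.μ (f j) w = (f (g.μ j w).1, (g.μ j w).2)) (a : L)
    (p : J × X) : g'.stp a (f p.1, p.2) = (f (g.stp a p).1, (g.stp a p).2) := by
  obtain ⟨j, x⟩ := p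
  dsimp only
  by_cases hx : F.π x = g.loc j
  · rw [g.stp_of hx, g'.stp_of (by rw [hl]; exact hx)]
    by_cases h : F.π (F.A a x) = g.loc j
    · rw [g.emb_left _ h, g'.emb_left _ (by rw [hl]; exact h)]
    · have hadj : F.Adj (g.loc j) (F.π (F.A a x)) := ⟨fun h' => h h'.symm, x, a, hx, rfl⟩
      have h1 := hm j _ hadj
      rw [g.emb_right hadj rfl, g'.emb_right (by rw [hl]; exact hadj) rfl, h1]
      simp only [hl]
  · unfold stp
    rw [if_neg (by dsimp only; rw [hl]; exact hx), if_neg hx]

theorem run_map {J' : Type} (g' : GS F J') (f : J → J') (hl : ∀ j, g'.loc (f j) = g.loc j)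
    (hm : ∀ j w, F.Adj (g.loc j) w → g'.μ (f j) w = (f (g.μ j w).1, (g.μ j w).2)) (w : List L)
    (p : J × X) : run g'.stp w (f p.1, p.2) = (f (run g.stp w p).1, (run g.stp w p).2) := by
  induction w with
  | nil => rfl
  | cons a w ih =>
    rw [run_cons, ih, run_cons]
    exact g.stp_map g' f hl hm a (run g.stp w p)

end GS

end Run7.h266
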