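import Pool.Agent.Run7.h266.Site

/-!
# Large finite orbits
-/

set_option autoImplicit false

namespace Run7.h266

open Pool.Agent.H785R3.GrowthA
open scoped commutatorElement

variable {L : Type} {S : Sys L} {X : Type} {A : L → X → X}

theorem more [Finite L] (hA : IsAct S A) {m q : ℕ} {n N' : ℕ∞} (hm : 0 < m) (hn : n ≠ 0)
    (hsep : Sep S A m (q + 1 + S.bsz * m) (m * n) N') {F W : Set X} {e : X}
    (hW : ∀ z ∈ W, ∀ z' ∈ W, Conn A W z z') (hNW : (N S A W).encard ≤ m)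
    (hbig : N' ≤ W.encard) (hF : F.encard ≤ q) (he : e ∈ W) :
    ∃ V c, Site S A m n F V ∧ SubS S A W e V c := by
  obtain ⟨V, h1, h2, h3, h4, h5, h6, -, u, a, h7, h8⟩ :=
    exists_sub hA hm hn hsep le_rfl hW hNW hbig hF he
  exact ⟨V, _, ⟨h3, h4, h5, h2⟩, ⟨h1, h6, h8, u, a, h7, rfl⟩⟩

/-- chains of nested sites -/
def Ch (S : Sys L) (A : L → X → X) (m : ℕ) (n : ℕ∞) (F : Set X) : ℕ → Set X → X → Prop
  | 0, _, _ => True
  | i + 1, W, e => ∃ V c, Site S A m n F V ∧ SubS S A W e V c ∧ Ch S A m n F i V c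

/-- two nested sites of the same code -/
def Rep (S : Sys L) (A : L → X → X) (m : ℕ) (n : ℕ∞) (F : Set X) (W : Set X) (e : X) : Prop :=
  ∃ (V : Set X) (c : X) (V' : Set X) (c' : X) (τ : Code L m), Site S A m n F V ∧
    SubS S A W e V c ∧ SubS S A V c V' c' ∧ HasCode S τ A V c ∧ HasCode S τ A V' c'

theorem Ch_le [Finite L] {m : ℕ} (hm : 0 < m) {n : ℕ∞} {F : Set X} (i : ℕ) :
    ∀ (W : Set X) (e : X), Ch S A m n F i W e → ¬ Rep S A m n F W e →
      i ≤ (Types S A m n F W e).ncard := by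
  induction i with
  | zero => exact fun _ _ _ _ => Nat.zero_le _
  | succ i ih =>
    rintro W e ⟨V, c, hV, hVc, hch⟩ hrep
    have h1 : ¬ Rep S A m n F V c := by
      rintro ⟨V1, c1, V2, c2, τ, h1, h2, h3, h4, h5⟩
      exact hrep ⟨V1, c1, V2, c2, τ, h1, hVc.trans h2, h3, h4, h5⟩
    have h2 := ih V c hch h1
    obtain ⟨τ, hτ⟩ := exists_code (S := S) A V c hm hV.coll
    have h3 : τ ∈ Types S A m n F W e := ⟨V, c, hV, hVc, hτ⟩
    have h4 : τ ∉ Types S A m n F V c := by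
      rintro ⟨V', c', hV', hVc', hτ'⟩
      exact hrep ⟨V, c, V', c', τ, hV, hVc, hVc', hτ, hτ'⟩
    have h5 : Types S A m n F V c ⊂ Types S A m n F W e :=
      ⟨Types_sub hVc, fun h => h4 (h h3)⟩
    have h6 := Set.ncard_lt_ncard h5 (Set.toFinite _)
    omega

theorem exists_chain [Finite L] {m : ℕ} (hm : 0 < m) (Nf : ℕ → ℕ → ℕ) (q : ℕ) (i : ℕ) :
    ∃ T : ℕ, ∀ (X : Type) (A : L → X → X), IsAct S A → (∀ q n : ℕ, Sep S A m q n (Nf q n)) →
      ∀ F : Set X, F.encard ≤ q → ∀ (W : Set X) (e : X),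
      (∀ z ∈ W, ∀ z' ∈ W, Conn A W z z') → (N S A W).encard ≤ m → T ≤ W.encard → e ∈ W →
      Ch S A m 1 F i W e := by
  induction i with
  | zero => exact ⟨0, fun _ _ _ _ _ _ _ _ _ _ _ _ => trivial⟩
  | succ i ih =>
    obtain ⟨T, hT⟩ := ih
    refine ⟨Nf (q + 1 + S.bsz * m) (m * (T + 1)), fun X A hA hsep F hF W e hW hNW hbig he => ?_⟩
    have hN' := hsep (q + 1 + S.bsz * m) (m * (T + 1))
    obtain ⟨V, c, hV, hVc⟩ := more hA hm (n := ((T + 1 : ℕ) : ℕ∞)) (by simp)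
      (by push_cast at hN' ⊢; exact hN') hW hNW hbig hF he
    refine ⟨V, c, ⟨hV.conn, ?_, hV.coll, hV.avoid⟩, hVc,
      hT X A hA hsep F hF V c hV.conn hV.coll ?_ hVc.mem⟩
    · refine le_trans ?_ hV.big
      push_cast
      exact le_add_self
    · refine le_trans ?_ hV.big
      push_cast
      exact le_self_add

theorem finite_case [Finite L] {G : Type} [Group G] (P : Pres S G) {m : ℕ} (hm : 0 < m)
    {K : Subgroup G}
    (hK : ∀ (X : Type) (A : L → X → X), IsAct S A → ∀ (U : Set X) (b y : X) (c : Code L m),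
        HasCode S c A U b → LR S c → b ∈ U → ∀ (u : List L) (a : L), Path A Uᶜ y u →
        A a (run A u y) = b → ∀ w, P.val w ∈ (⁅K, K⁆ : Subgroup G) → Path A Uᶜ y w →
        run A w y = y)
    (Nf : ℕ → ℕ → ℕ) (w : List L) (hw : P.val w ∈ (⁅K, K⁆ : Subgroup G)) :
    ∃ T : ℕ, ∀ (X : Type) (A : L → X → X), IsAct S A → (∀ q n : ℕ, Sep S A m q n (Nf q n)) →
      ∀ y, (comp A Set.univ y).Finite → T ≤ (comp A Set.univ y).encard →
      run A w y = y := by
  obtain ⟨T, hT⟩ := exists_chain (S := S) hm Nf (w.length + 1) (Nat.card (Code L m) + 1)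
  refine ⟨T, fun X A hA hsep y hfin hbig => ?_⟩
  have hch := hT X A hA hsep (pts A w y) (pts_encard w y) (comp A Set.univ y) y
    (fun z hz z' hz' => comp_conn hA hz hz') (by rw [N_univ_orbit hA]; simp) hbig
    (Conn.refl trivial)
  by_cases hrep : Rep S A m 1 (pts A w y) (comp A Set.univ y) y
  · obtain ⟨V, c, V', c', τ, h1, h2, h3, h4, h5⟩ := hrep
    exact fix_of P hK hA h2 h3 h4 h5 (hfin.subset fun z hz => h2.sub hz.1) hw h1.avoid
  · exfalso
    have h1 := Ch_le hm _ _ _ hch hrep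
    have h2 : (Types S A m 1 (pts A w y) (comp A Set.univ y) y).ncard ≤ Nat.card (Code L m) :=
      Set.ncard_le_card _
    omega

end Run7.h266
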