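import Pool.Agent.Run7.h266.Unfold
import Pool.Agent.N6.W.Semi

/-!
# Presentations, and two copies of a site inside itself
-/

set_option autoImplicit false

namespace Run7.h266

open Pool.Agent.H785R3.GrowthA

variable {L : Type} {S : Sys L}

/-- `G` is the group presented by `S` -/
structure Pres (S : Sys L) (G : Type) [Group G] where
  val : List L → G
  val_append : ∀ u v, val (u ++ v) = val u * val v
  surj : Function.Surjective val
  lift : ∀ (X : Type) (A : L → X → X), IsAct S A →
    ∃ ρ : G →* Equiv.Perm X, ∀ w z, ρ (val w) z = run A w z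

/-- a pair of disjoint copies of a site inside itself gives a free semigroup -/
theorem not_two {G : Type} [Group G] (P : Pres S G) (hNF : ∀ a b : G, ¬ FreePair a b)
    {X : Type} {A : L → X → X} (hA : IsAct S A) {U0 U1 U2 : Set X} {b0 b1 b2 : X}
    (e1 : Iso S A U0 A U1) (e2 : Iso S A U0 A U2) (h1 : e1.g b1 = b0) (h2 : e2.g b2 = b0)
    (s1 : U1 ⊆ U0) (s2 : U2 ⊆ U0) (d01 : ∀ z ∈ N S A U1, z ∉ N S A U0)
    (d02 : ∀ z ∈ N S A U2, z ∉ N S A U0) (d12 : ∀ z ∈ U1, z ∉ U2)
    (dN12 : ∀ z ∈ N S A U1, z ∉ N S A U2)
    {w1 w2 : List L} {c1 c2 : L}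
    (p1 : Path A {z | z ∈ U0 ∧ z ∉ U1 ∧ z ∉ U2} b0 w1) (q1 : A c1 (run A w1 b0) = b1)
    (r1 : b1 ∈ U1)
    (p2 : Path A {z | z ∈ U0 ∧ z ∉ U1 ∧ z ∉ U2} b0 w2) (q2 : A c2 (run A w2 b0) = b2)
    (r2 : b2 ∈ U2) : False := by
  let D : UD S :=
    { Xt := X
      X := X
      ι := Bool
      J := List Bool
      nt := ⟨b0⟩
      nx := ⟨b0⟩
      At := A
      A := A
      actT := hA
      act := hA
      Ut := U0
      U0 := U0
      U := fun i => if i then U1 else U2
      par := fun l => match l with
        | [] => none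
        | i :: l => some (i, l)
      κ := fun i l => i :: l
      parinj := by
        intro l l' h
        rcases l with _ | ⟨i, l⟩ <;> rcases l' with _ | ⟨i', l'⟩
        · rfl
        · simp at h
        · simp at h
        · simp only [Option.some.injEq, Prod.mk.injEq] at h
          rw [h.1, h.2]
      parκ := fun i l => rfl
      e0 := Iso.refl S A U0
      e := fun i => match i with
        | true => e1
        | false => e2
      sub := by
        rintro (_ | _)
        · exact s2
        · exact s1
      disj0 := by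
        rintro (_ | _)
        · exact d02
        · exact d01
      disj := by
        rintro (_ | _) (_ | _) hne
        · exact absurd rfl hne
        · exact fun z hz hz' => d12 z hz' hz
        · exact d12
        · exact absurd rfl hne
      disjN := by
        rintro (_ | _) (_ | _) hne
        · exact absurd rfl hne
        · exact fun z hz hz' => dN12 z hz' hz
        · exact dN12
        · exact absurd rfl hne }
  obtain ⟨ρ, hρ⟩ := P.lift D.Z D.unf D.unf_act
  have hM : D.M = {z | z ∈ U0 ∧ z ∉ U1 ∧ z ∉ U2} := by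
    ext z
    constructor
    · rintro ⟨h, h'⟩
      exact ⟨h, h' true, h' false⟩
    · rintro ⟨h, h', h''⟩
      refine ⟨h, ?_⟩
      rintro (_ | _)
      · exact h''
      · exact h'
  have k1 : ∀ l : List Bool, ρ (P.val (c1 :: w1)) (Sum.inr (l, b0)) = Sum.inr (true :: l, b0) := by
    intro l
    rw [hρ, run_cons, D.run_inr (hM ▸ p1)]
    have := D.unf_down (a := c1) (i := true) (j := l) (z := run A w1 b0)
      (by rw [hM]; exact p1.last) (by show A c1 (run A w1 b0) ∈ U1; rw [q1]; exact r1)
    refine this.trans ?_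
    show Sum.inr (true :: l, e1.g (A c1 (run A w1 b0))) = _
    rw [q1, h1]
  have k2 : ∀ l : List Bool, ρ (P.val (c2 :: w2)) (Sum.inr (l, b0)) = Sum.inr (false :: l, b0) := by
    intro l
    rw [hρ, run_cons, D.run_inr (hM ▸ p2)]
    have := D.unf_down (a := c2) (i := false) (j := l) (z := run A w2 b0)
      (by rw [hM]; exact p2.last) (by show A c2 (run A w2 b0) ∈ U2; rw [q2]; exact r2)
    refine this.trans ?_
    show Sum.inr (false :: l, e2.g (A c2 (run A w2 b0))) = _
    rw [q2, h2]
  refine hNF (P.val (c2 :: w2)) (P.val (c1 :: w1)) ?_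
  intro l l' _ hll
  have key : ∀ l : List Bool, ρ (ev (P.val (c2 :: w2)) (P.val (c1 :: w1)) l) (Sum.inr ([], b0)) =
      Sum.inr (l, b0) := by
    intro l
    induction l with
    | nil => simp [ev]
    | cons i l ih =>
      have h5 : ev (P.val (c2 :: w2)) (P.val (c1 :: w1)) (i :: l) =
          (if i then P.val (c1 :: w1) else P.val (c2 :: w2)) *
            ev (P.val (c2 :: w2)) (P.val (c1 :: w1)) l := by
        simp [ev]
      rw [h5, map_mul, Equiv.Perm.mul_apply, ih]
      cases i
      · exact k2 l
      · exact k1 l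
  have h6 := key l
  rw [hll, key l'] at h6
  simp only [Sum.inr.injEq, Prod.mk.injEq] at h6
  exact h6.1.symm

end Run7.h266
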