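import Mathlib

/-!
# Branches of trees and tree decompositions
-/

set_option autoImplicit false

namespace Run7.h266.TW

variable {I : Type} {T : SimpleGraph I}

/-- the nodes which can be reached from `c` avoiding `p` -/
def Br (T : SimpleGraph I) (p : Option I) (c : I) : Set I :=
  {v | ∃ w : T.Walk c v, ∀ t ∈ p, t ∉ w.support}

/-- `p` is a neighbour of `c`, if there is any -/
def Val (T : SimpleGraph I) (p : Option I) (c : I) : Prop := ∀ t ∈ p, T.Adj t c

theorem br_path {p : Option I} {c v : I} (h : v ∈ Br T p c) :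
    ∃ w : T.Walk c v, w.IsPath ∧ ∀ t ∈ p, t ∉ w.support := by
  classical
  obtain ⟨w, hw⟩ := h
  exact ⟨w.toPath, w.toPath.2, fun t ht h => hw t ht (w.support_toPath_subset_support h)⟩

theorem br_step (hT : T.IsAcyclic) {p : Option I} {c : I} (hv : Val T p c) {v v' : I}
    (h : v ∈ Br T p c) (hadj : T.Adj v v') (h' : v' ∉ Br T p c) : v = c ∧ v' ∈ p := by
  obtain ⟨w, hw, hav⟩ := br_path h
  have h1 : v' ∈ p := by
    by_contra hne
    refine h' ⟨w.concat hadj, fun t ht h2 => ?_⟩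
    rw [SimpleGraph.Walk.support_concat, List.mem_append, List.mem_singleton] at h2
    rcases h2 with h2 | h2
    · exact hav t ht h2
    · rw [← h2] at hne
      exact hne ht
  refine ⟨?_, h1⟩
  have h2 : (w.concat hadj).IsPath := hw.concat (hav v' h1) hadj
  have h3 : T.Adj c v' := (hv v' h1).symm
  have h4 : (SimpleGraph.Walk.cons h3 SimpleGraph.Walk.nil).IsPath := by
    rw [SimpleGraph.Walk.cons_isPath_iff]
    refine ⟨SimpleGraph.Walk.IsPath.nil, ?_⟩
    rw [SimpleGraph.Walk.support_nil, List.mem_singleton]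
    exact h3.ne
  have h5 := @Subsingleton.elim _ (hT.subsingleton_path c v') ⟨_, h2⟩ ⟨_, h4⟩
  have h6 := congrArg (fun q : T.Path c v' => q.1.length) h5
  simp only [SimpleGraph.Walk.length_concat, SimpleGraph.Walk.length_cons,
    SimpleGraph.Walk.length_nil] at h6
  exact (SimpleGraph.Walk.eq_of_length_eq_zero (by omega : w.length = 0)).symm

theorem not_mem_br {c c' : I} : c ∉ Br T (some c) c' := by
  rintro ⟨w, hw⟩
  exact hw c rfl w.end_mem_support

theorem mem_br_self {p : Option I} {c : I} (hv : Val T p c) : c ∈ Br T p c := by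
  refine ⟨SimpleGraph.Walk.nil, fun t ht h => ?_⟩
  rw [SimpleGraph.Walk.support_nil, List.mem_singleton] at h
  exact (hv t ht).ne h

theorem val_child {c c' : I} (h : T.Adj c c') : Val T (some c) c' := by
  intro t ht
  rw [Option.mem_some_iff] at ht
  rwa [← ht]

/-- the first step of a path -/
theorem path_child {p : Option I} {c v : I} {l : ℕ}
    (h : ∃ w : T.Walk c v, w.IsPath ∧ (∀ t ∈ p, t ∉ w.support) ∧ w.length ≤ l) (hne : v ≠ c) :
    ∃ c' l', T.Adj c c' ∧ c' ∉ p ∧ l = l' + 1 ∧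
      ∃ w : T.Walk c' v, w.IsPath ∧ (∀ t ∈ some c, t ∉ w.support) ∧ w.length ≤ l' := by
  obtain ⟨w, hw, hav, hl⟩ := h
  cases w with
  | nil => exact absurd rfl hne
  | @cons _ c' _ hadj w' =>
    rw [SimpleGraph.Walk.cons_isPath_iff] at hw
    rw [SimpleGraph.Walk.length_cons] at hl
    refine ⟨c', l - 1, hadj, ?_, by omega, w', hw.1, ?_, by omega⟩
    · intro h
      refine hav c' h ?_
      rw [SimpleGraph.Walk.support_cons]
      exact List.mem_cons_of_mem _ w'.start_mem_support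
    · intro t ht
      rw [Option.mem_some_iff] at ht
      rw [← ht]
      exact hw.2

theorem br_child {p : Option I} {c v : I} (h : v ∈ Br T p c) (hne : v ≠ c) :
    ∃ c', T.Adj c c' ∧ c' ∉ p ∧ v ∈ Br T (some c) c' := by
  obtain ⟨w, hw, hav⟩ := br_path h
  obtain ⟨c', l', h1, h2, -, w', -, h3, -⟩ := path_child ⟨w, hw, hav, le_rfl⟩ hne
  exact ⟨c', h1, h2, w', h3⟩

theorem br_unique (hT : T.IsAcyclic) {c c' c'' v : I} (h' : T.Adj c c') (h'' : T.Adj c c'')
    (hv' : v ∈ Br T (some c) c') (hv'' : v ∈ Br T (some c) c'') : c' = c'' := by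
  obtain ⟨w', hw'⟩ := hv'
  obtain ⟨w'', hw''⟩ := hv''
  have h1 : c'' ∈ Br T (some c) c' := by
    refine ⟨w'.append w''.reverse, fun t ht h => ?_⟩
    rw [SimpleGraph.Walk.mem_support_append_iff, SimpleGraph.Walk.support_reverse,
      List.mem_reverse] at h
    rcases h with h | h
    · exact hw' t ht h
    · exact hw'' t ht h
  exact ((br_step hT (val_child h') h1 h''.symm not_mem_br).1).symm

theorem br_mono (hT : T.IsAcyclic) {p : Option I} {c c' : I} (hv : Val T p c) (h : T.Adj c c')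
    (hp : c' ∉ p) : Br T (some c) c' ⊆ Br T p c := by
  classical
  rintro v ⟨w, hw⟩
  refine ⟨SimpleGraph.Walk.cons h w, fun t ht hts => ?_⟩
  rw [SimpleGraph.Walk.support_cons, List.mem_cons] at hts
  rcases hts with rfl | hts
  · exact (hv t ht).ne rfl
  · have h1 : t ∈ Br T (some c) c' :=
      ⟨w.takeUntil t hts, fun s hs h2 => hw s hs (w.support_takeUntil_subset_support hts h2)⟩
    have h2 := (br_step hT (val_child h) h1 (hv t ht) not_mem_br).1
    rw [h2] at ht
    exact hp ht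

/-- a preconnected set of nodes with points inside and outside has an edge leaving -/
theorem exit_of_preconnected {B R : Set I} (hB : (T.induce B).Preconnected) {i j : I}
    (hi : i ∈ B) (hj : j ∈ B) (hiR : i ∈ R) (hjR : j ∉ R) :
    ∃ v v', v ∈ B ∧ v' ∈ B ∧ v ∈ R ∧ v' ∉ R ∧ T.Adj v v' := by
  by_contra hcon
  push Not at hcon
  obtain ⟨w⟩ := hB ⟨i, hi⟩ ⟨j, hj⟩
  have key : ∀ (x y : B) (w : (T.induce B).Walk x y), (x : I) ∈ R → (y : I) ∈ R := by
    intro x y w
    induction w with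
    | nil => exact id
    | @cons x z y hadj w ih =>
      intro hx
      refine ih ?_
      by_contra hz
      exact hcon x z x.2 z.2 hx hz hadj
  exact hjR (key _ _ w hiR)

/-- a tree decomposition of a relation `E` on `Ω` -/
structure TD (T : SimpleGraph I) {Ω : Type} (β : I → Set Ω) : Prop where
  acyc : T.IsAcyclic
  cover : ∀ x, ∃ i, x ∈ β i
  conn : ∀ x, (T.induce {i | x ∈ β i}).Preconnected

variable {Ω : Type} {β : I → Set Ω}

/-- the points all of whose bags are in the branch -/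
def V (T : SimpleGraph I) (β : I → Set Ω) (O : Set Ω) (p : Option I) (c : I) : Set Ω :=
  {x | x ∈ O ∧ ∀ i, x ∈ β i → i ∈ Br T p c}

theorem V_cross (D : TD T β) {O : Set Ω} {p : Option I} {c : I} (hv : Val T p c) {x x' : Ω}
    (hx : x ∈ V T β O p c) (hx' : x' ∈ O) (hx'V : x' ∉ V T β O p c) {i : I} (hi : x ∈ β i)
    (hi' : x' ∈ β i) : x' ∈ β c ∧ ∃ t ∈ p, x' ∈ β t := by
  have h1 : ∃ j, x' ∈ β j ∧ j ∉ Br T p c := by
    by_contra hcon
    push Not at hcon
    exact hx'V ⟨hx', hcon⟩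
  obtain ⟨j, hj, hjB⟩ := h1
  obtain ⟨v, v', hvB, hvB', hvR, hvR', hadj⟩ := exit_of_preconnected (D.conn x')
    (R := Br T p c) hi' hj (hx.2 i hi) hjB
  obtain ⟨rfl, h2⟩ := br_step D.acyc hv hvR hadj hvR'
  exact ⟨hvB, v', h2, hvB'⟩

theorem V_child (D : TD T β) {O : Set Ω} {p : Option I} {c : I} {x : Ω}
    (hx : x ∈ V T β O p c) (hxc : x ∉ β c) :
    ∃ c', T.Adj c c' ∧ c' ∉ p ∧ x ∈ V T β O (some c) c' := by
  obtain ⟨i, hi⟩ := D.cover x
  have hic : i ≠ c := by
    rintro rfl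
    exact hxc hi
  obtain ⟨c', h1, h2, h3⟩ := br_child (hx.2 i hi) hic
  refine ⟨c', h1, h2, hx.1, fun j hj => ?_⟩
  by_contra hj'
  obtain ⟨v, v', hvB, hvB', hvR, hvR', hadj⟩ := exit_of_preconnected (D.conn x)
    (R := Br T (some c) c') hi hj h3 hj'
  obtain ⟨-, h4⟩ := br_step D.acyc (val_child h1) hvR hadj hvR'
  rw [Option.mem_some_iff] at h4
  rw [← h4] at hvB'
  exact hxc hvB'

theorem V_mono (D : TD T β) {O : Set Ω} {p : Option I} {c c' : I} (hv : Val T p c)
    (h : T.Adj c c') (hp : c' ∉ p) : V T β O (some c) c' ⊆ V T β O p c :=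
  fun _ hx => ⟨hx.1, fun i hi => br_mono D.acyc hv h hp (hx.2 i hi)⟩

theorem V_unique (D : TD T β) {O : Set Ω} {c c' c'' : I} (h' : T.Adj c c') (h'' : T.Adj c c'')
    {x : Ω} (hx' : x ∈ V T β O (some c) c') (hx'' : x ∈ V T β O (some c) c'') : c' = c'' := by
  obtain ⟨i, hi⟩ := D.cover x
  exact br_unique D.acyc h' h'' (hx'.2 i hi) (hx''.2 i hi)

end Run7.h266.TW
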