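import Pool.Agent.Run7.h266.Core
import Pool.Agent.Run7.h266.Tree

/-!
# Schreier graphs of bounded tree-width are separated by small collars
-/

set_option autoImplicit false

namespace Run7.h266

open scoped Pointwise

section act

variable {G : Type} [Group G] {Ω : Type} [MulAction G Ω]

/-- a set of points which is crossed by a set of generators only near `D` is crossed by any element
only near `D` -/
theorem cross_elt {G : Type} [Group G] {S0 : Set G} (hS : Subgroup.closure S0 = ⊤) (g : G) :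
    ∃ B : Finset G, ∀ (Ω : Type) [MulAction G Ω] (V D : Set Ω),
      (∀ s ∈ S0, ∀ x, ¬ (s • x ∈ V ↔ x ∈ V) → x ∈ D ∨ s • x ∈ D) →
      ∀ z, ¬ (g • z ∈ V ↔ z ∈ V) → ∃ h ∈ B, h • z ∈ D := by
  classical
  have hg : g ∈ Subgroup.closure S0 := by rw [hS]; trivial
  induction hg using Subgroup.closure_induction with
  | mem s hs =>
    refine ⟨{1, s}, fun Ω _ V D h z hz => ?_⟩
    rcases h s hs z hz with h1 | h1
    · exact ⟨1, by simp, by rwa [one_smul]⟩
    · exact ⟨s, by simp, h1⟩
  | one =>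
    refine ⟨∅, fun Ω _ V D h z hz => ?_⟩
    exfalso
    apply hz
    rw [one_smul]
  | mul a b _ _ ha hb =>
    obtain ⟨Ba, ha⟩ := ha
    obtain ⟨Bb, hb⟩ := hb
    refine ⟨Bb ∪ Ba.image (· * b), fun Ω _ V D h z hz => ?_⟩
    by_cases h1 : (b • z ∈ V ↔ z ∈ V)
    · have h2 : ¬ (a • (b • z) ∈ V ↔ b • z ∈ V) := by
        rw [smul_smul]
        tauto
      obtain ⟨g, hg, hgz⟩ := ha Ω V D h (b • z) h2
      refine ⟨g * b, ?_, by rwa [mul_smul]⟩
      exact Finset.mem_union_right _ (Finset.mem_image_of_mem _ hg)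
    · obtain ⟨g, hg, hgz⟩ := hb Ω V D h z h1
      exact ⟨g, Finset.mem_union_left _ hg, hgz⟩
  | inv a _ ha =>
    obtain ⟨Ba, ha⟩ := ha
    refine ⟨Ba.image (· * a⁻¹), fun Ω _ V D h z hz => ?_⟩
    have h2 : ¬ (a • (a⁻¹ • z) ∈ V ↔ a⁻¹ • z ∈ V) := by
      rw [smul_inv_smul]
      tauto
    obtain ⟨g, hg, hgz⟩ := ha Ω V D h (a⁻¹ • z) h2
    exact ⟨g * a⁻¹, Finset.mem_image_of_mem _ hg, by rwa [mul_smul]⟩

/-- a proper nonempty subset of an orbit is entered by some generator -/
theorem exit_orbit {S0 : Set G} (hS : Subgroup.closure S0 = ⊤) {x0 : Ω} {U : Set Ω}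
    {y z : Ω} (hy : y ∈ MulAction.orbit G x0) (hyU : y ∈ U) (hz : z ∈ MulAction.orbit G x0)
    (hzU : z ∉ U) : ∃ s ∈ S0 ∪ S0⁻¹, ∃ x ∈ MulAction.orbit G x0, x ∉ U ∧ s • x ∈ U ∧
      ((s ∈ S0) ∨ (s⁻¹ ∈ S0)) := by
  by_contra hcon
  push Not at hcon
  have key : ∀ g ∈ Subgroup.closure S0, ∀ x ∈ MulAction.orbit G x0, (g • x ∈ U ↔ x ∈ U) := by
    intro g hg
    induction hg using Subgroup.closure_induction with
    | mem s hs =>
      intro x hx
      constructor
      · intro h
        by_contra h1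
        exact (hcon s (Or.inl hs) x hx h1 h).1 hs
      · intro h
        by_contra h1
        have h2 : s • x ∈ MulAction.orbit G x0 := by
          obtain ⟨g, rfl⟩ := hx
          exact ⟨s * g, mul_smul _ _ _⟩
        refine (hcon s⁻¹ (Or.inr (by rwa [Set.mem_inv, inv_inv])) (s • x) h2 h1 ?_).2 ?_
        · rwa [inv_smul_smul]
        · rwa [inv_inv]
    | one =>
      intro x _
      rw [one_smul]
    | mul a b _ _ ha hb =>
      intro x hx
      have h2 : b • x ∈ MulAction.orbit G x0 := by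
        obtain ⟨g, rfl⟩ := hx
        exact ⟨b * g, mul_smul _ _ _⟩
      rw [mul_smul, ha _ h2, hb _ hx]
    | inv a _ ha =>
      intro x hx
      have h2 : a⁻¹ • x ∈ MulAction.orbit G x0 := by
        obtain ⟨g, rfl⟩ := hx
        exact ⟨a⁻¹ * g, mul_smul _ _ _⟩
      have h3 := ha _ h2
      rw [smul_inv_smul] at h3
      exact h3.symm
  obtain ⟨g, rfl⟩ := hy
  obtain ⟨h, rfl⟩ := hz
  have h1 := key (g * h⁻¹) (by rw [hS]; trivial) (h • x0) ⟨h, rfl⟩
  rw [mul_smul, inv_smul_smul] at h1
  exact hzU (h1.1 hyU)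

end act

theorem pigeon' {Y X : Type} {n : ℕ∞} {C : Y → Set X} (F : Finset Y) (hF : F.Nonempty)
    (h : ∀ p ∈ F, (C p).encard < n) : (⋃ p ∈ F, C p).encard < F.card * n := by
  classical
  induction hF using Finset.Nonempty.cons_induction with
  | singleton a =>
    simp only [Finset.mem_singleton, Set.iUnion_iUnion_eq_left, Finset.card_singleton, Nat.cast_one,
      one_mul]
    exact h a (Finset.mem_singleton_self a)
  | cons a s has hs ih =>
    have h1 := ih fun p hp => h p (Finset.mem_cons_of_mem hp)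
    have h2 := h a (Finset.mem_cons_self a s)
    rw [Finset.card_cons]
    have h3 : (⋃ p ∈ Finset.cons a s has, C p) = C a ∪ ⋃ p ∈ s, C p := by
      ext x
      simp
    rw [h3]
    refine (Set.encard_union_le _ _).trans_lt ?_
    push_cast
    rw [add_mul, one_mul, add_comm]
    exact ENat.add_lt_add h1 h2

section tw

open TW

variable {I : Type} {T : SimpleGraph I} {G : Type} [Group G] {Ω : Type} [MulAction G Ω]
  {β : I → Set Ω}

/-- adjacent points share a bag -/
theorem V_cross' (D : TD T β) {S0 : Set G}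
    (hE : ∀ s ∈ S0, ∀ x, ∃ i, x ∈ β i ∧ s • x ∈ β i) {x0 : Ω}
    {p : Option I} {c : I} (hv : Val T p c) :
    ∀ s ∈ S0, ∀ x, ¬ (s • x ∈ V T β (MulAction.orbit G x0) p c ↔
      x ∈ V T β (MulAction.orbit G x0) p c) → x ∈ β c ∨ s • x ∈ β c := by
  intro s hs x hx
  obtain ⟨i, hi, hi'⟩ := hE s hs x
  by_cases h1 : x ∈ V T β (MulAction.orbit G x0) p c
  · have h2 : s • x ∉ V T β (MulAction.orbit G x0) p c := by tauto
    have h3 : s • x ∈ MulAction.orbit G x0 := by
      obtain ⟨g, hg⟩ := h1.1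
      exact ⟨s * g, by rw [← hg]; exact mul_smul _ _ _⟩
    exact Or.inr (V_cross D hv h1 h3 h2 hi hi').1
  · have h2 : s • x ∈ V T β (MulAction.orbit G x0) p c := by tauto
    have h3 : x ∈ MulAction.orbit G x0 := by
      obtain ⟨g, hg⟩ := h2.1
      exact ⟨s⁻¹ * g, by
        change g • x0 = s • x at hg
        show (s⁻¹ * g) • x0 = x
        rw [mul_smul, hg, inv_smul_smul]⟩
    exact Or.inl (V_cross D hv h2 h3 h1 hi' hi).1

/-- the point outside a branch from which it is entered is in the bag at the node above it -/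
theorem enter_branch (D : TD T β) {S0 : Set G} (hS : Subgroup.closure S0 = ⊤)
    (hE : ∀ s ∈ S0, ∀ x, ∃ i, x ∈ β i ∧ s • x ∈ β i) {x0 : Ω}
    {c c' : I} (hc : T.Adj c c') {x z : Ω} (hx : x ∈ V T β (MulAction.orbit G x0) (some c) c')
    (hz : z ∈ MulAction.orbit G x0) (hzV : z ∉ V T β (MulAction.orbit G x0) (some c) c') :
    ∃ s ∈ S0 ∪ S0⁻¹, ∃ y ∈ β c, s • y ∈ V T β (MulAction.orbit G x0) (some c) c' := by
  obtain ⟨s, hs, y, hy, hyV, hsy, hs'⟩ := exit_orbit hS hx.1 hx hz hzV
  obtain ⟨i, hi, hi'⟩ : ∃ i, y ∈ β i ∧ s • y ∈ β i := by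
    rcases hs' with h | h
    · exact hE s h y
    · obtain ⟨i, hi, hi'⟩ := hE _ h (s • y)
      rw [inv_smul_smul] at hi'
      exact ⟨i, hi', hi⟩
  obtain ⟨-, t, ht, hyt⟩ := V_cross D (val_child hc) hsy hy hyV hi' hi
  rw [Option.mem_some_iff] at ht
  rw [← ht] at hyt
  exact ⟨s, hs, y, hyt, hsy⟩

theorem root (D : TD T β) {S0 : Set G} (hS : Subgroup.closure S0 = ⊤)
    (hE : ∀ s ∈ S0, ∀ x, ∃ i, x ∈ β i ∧ s • x ∈ β i) (x0 : Ω) :
    ∃ o, MulAction.orbit G x0 ⊆ V T β (MulAction.orbit G x0) none o := by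
  obtain ⟨o, ho⟩ := D.cover x0
  have hval : Val T none o := fun t ht => absurd ht (by simp)
  have h0 : x0 ∈ V T β (MulAction.orbit G x0) none o := by
    refine ⟨MulAction.mem_orbit_self x0, fun i hi => ?_⟩
    by_contra hno
    obtain ⟨v, v', -, -, hvR, hvR', hadj⟩ := exit_of_preconnected (D.conn x0)
      (R := Br T none o) ho hi (mem_br_self hval) hno
    obtain ⟨-, h⟩ := br_step D.acyc hval hvR hadj hvR'
    simp at h
  refine ⟨o, fun z hz => ?_⟩
  by_contra hzV
  obtain ⟨s, hs, y, hy, hyV, hsy, hs'⟩ := exit_orbit hS (MulAction.mem_orbit_self x0) h0 hz hzV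
  obtain ⟨i, hi, hi'⟩ : ∃ i, y ∈ β i ∧ s • y ∈ β i := by
    rcases hs' with h | h
    · exact hE s h y
    · obtain ⟨i, hi, hi'⟩ := hE _ h (s • y)
      rw [inv_smul_smul] at hi'
      exact ⟨i, hi', hi⟩
  obtain ⟨-, t, ht, -⟩ := V_cross D hval hsy hy hyV hi' hi
  simp at ht

/-- the thresholds -/
def Thr (k σ : ℕ) (n : ℕ∞) : ℕ → ℕ∞
  | 0 => n
  | q + 1 => n + (k + 1 + (k * σ : ℕ) * Thr k σ n q)

theorem le_Thr (k σ : ℕ) (n : ℕ∞) (q : ℕ) : n ≤ Thr k σ n q := by
  cases q with
  | zero => exact le_rfl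
  | succ q => exact le_self_add

theorem Thr_top (k σ : ℕ) (q : ℕ) : Thr k σ ⊤ q = ⊤ := by
  cases q with
  | zero => rfl
  | succ q => simp [Thr]

theorem Thr_nat (k σ : ℕ) (n : ℕ) (q : ℕ) : ∃ N : ℕ, Thr k σ n q = N := by
  induction q with
  | zero => exact ⟨n, rfl⟩
  | succ q ih =>
    obtain ⟨N, hN⟩ := ih
    refine ⟨n + (k + 1 + (k * σ) * N), ?_⟩
    rw [Thr, hN]
    push_cast
    rfl

/-- the separation lemma -/
theorem sepT (D : TD T β) {S0 : Set G} (hS : Subgroup.closure S0 = ⊤) (hfin : S0.Finite)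
    (hE : ∀ s ∈ S0, ∀ x, ∃ i, x ∈ β i ∧ s • x ∈ β i) {k : ℕ} (hk : ∀ i, (β i).encard ≤ k)
    (x0 : Ω) (Nb : Set Ω → Set Ω) (hNd : ∀ U V, Nb (U \ V) ⊆ Nb U ∪ Nb V) {cN : ℕ}
    (hN : ∀ p c, Val T p c → (Nb (V T β (MulAction.orbit G x0) p c)).encard ≤ cN)
    {n : ℕ∞} (hn : n ≠ 0) (P E : Set Ω) (q : ℕ) :
    ∀ p c, Val T p c → (P ∩ V T β (MulAction.orbit G x0) p c).encard ≤ q →
      Thr k (S0 ∪ S0⁻¹).ncard n q ≤ (V T β (MulAction.orbit G x0) p c ∩ E).encard →
      ∃ W : Set Ω, (∀ z ∈ W, z ∉ P) ∧ (Nb W).encard ≤ (2 * cN : ℕ) ∧ n ≤ (W ∩ E).encard := by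
  classical
  set O := MulAction.orbit G x0 with hO
  induction q with
  | zero =>
    intro p c hv hP hE'
    refine ⟨V T β O p c, fun z hz hzP => ?_, ?_, hE'⟩
    · have h1 : (P ∩ V T β O p c) = ∅ := by
        rw [← Set.encard_eq_zero]
        exact nonpos_iff_eq_zero.1 (by simpa using hP)
      have h2 : z ∈ P ∩ V T β O p c := ⟨hzP, hz⟩
      rw [h1] at h2
      exact h2
    · refine (hN p c hv).trans ?_
      exact_mod_cast (by omega : cN ≤ 2 * cN)
  | succ q ih =>
    intro p c hv hP hE'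
    by_cases hempty : P ∩ V T β O p c = ∅
    · refine ⟨V T β O p c, fun z hz hzP => ?_, ?_, (le_Thr _ _ _ _).trans hE'⟩
      · have h2 : z ∈ P ∩ V T β O p c := ⟨hzP, hz⟩
        rw [hempty] at h2
        exact h2
      · refine (hN p c hv).trans ?_
        exact_mod_cast (by omega : cN ≤ 2 * cN)
    · obtain ⟨x, hxP, hxV⟩ := Set.nonempty_iff_ne_empty.2 hempty
      obtain ⟨i, hi⟩ := D.cover x
      -- no child contains all the points of `P`
      have last : ∀ (p' : Option I) (c' : I), Val T p' c' →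
          V T β O p' c' ⊆ V T β O p c → P ∩ V T β O p c ⊆ V T β O p' c' →
          (¬ ∃ c'', T.Adj c' c'' ∧ c'' ∉ p' ∧ P ∩ V T β O p c ⊆ V T β O (some c') c'') →
          ∃ W : Set Ω, (∀ z ∈ W, z ∉ P) ∧ (Nb W).encard ≤ (2 * cN : ℕ) ∧
            n ≤ (W ∩ E).encard := by
        intro p' c' hv' hsub hcont hno
        by_cases hMid : n ≤ ((V T β O p c \ V T β O p' c') ∩ E).encard
        · refine ⟨V T β O p c \ V T β O p' c', fun z hz hzP => hz.2 (hcont ⟨hzP, hz.1⟩), ?_, hMid⟩
          refine (Set.encard_le_encard (hNd _ _)).trans ((Set.encard_union_le _ _).trans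
            ((add_le_add (hN p c hv) (hN p' c' hv')).trans ?_))
          push_cast
          rw [two_mul]
        · push Not at hMid
          -- the pieces
          let C : Ω × G → Set Ω := fun r => {z | z ∈ E ∧ ∃ c'', T.Adj c' c'' ∧ c'' ∉ p' ∧
            r.2 • r.1 ∈ V T β O (some c') c'' ∧ z ∈ V T β O (some c') c''}
          have hSfin : (S0 ∪ S0⁻¹).Finite := hfin.union hfin.inv
          have hβfin : (β c').Finite := Set.finite_of_encard_le_coe (hk c')
          have hFfin : (β c' ×ˢ (S0 ∪ S0⁻¹)).Finite := hβfin.prod hSfin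
          have hFcard : (hFfin.toFinset.card : ℕ∞) ≤ (k * (S0 ∪ S0⁻¹).ncard : ℕ) := by
            rw [← Set.encard_coe_eq_coe_finsetCard, hFfin.coe_toFinset, Set.encard_prod]
            push_cast
            refine mul_le_mul' (hk c') ?_
            rw [hSfin.cast_ncard_eq]
          have hcov : V T β O p c ∩ E ⊆ ((V T β O p c \ V T β O p' c') ∩ E) ∪
              (β c' ∪ ⋃ r ∈ hFfin.toFinset, C r) := by
            rintro z ⟨hz, hzE⟩
            by_cases h1 : z ∈ V T β O p' c'
            · right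
              by_cases h2 : z ∈ β c'
              · exact Or.inl h2
              · right
                obtain ⟨c'', h3, h4, h5⟩ := V_child D h1 h2
                have h6 : ∃ y ∈ P ∩ V T β O p c, y ∉ V T β O (some c') c'' := by
                  by_contra hcon
                  push Not at hcon
                  exact hno ⟨c'', h3, h4, hcon⟩
                obtain ⟨y, hy, hyV⟩ := h6
                obtain ⟨s, hs, y', hy', hsy⟩ := enter_branch D hS hE h3 h5 hy.2.1 hyV
                simp only [Set.mem_iUnion]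
                exact ⟨(y', s), hFfin.mem_toFinset.2 ⟨hy', hs⟩, hzE, c'', h3, h4, hsy, h5⟩
            · exact Or.inl ⟨⟨hz, h1⟩, hzE⟩
          obtain ⟨r, hr, hrC⟩ : ∃ r ∈ hFfin.toFinset,
              Thr k (S0 ∪ S0⁻¹).ncard n q ≤ (C r).encard := by
            by_contra hcon
            push Not at hcon
            have h1 : (⋃ r ∈ hFfin.toFinset, C r).encard ≤
                (k * (S0 ∪ S0⁻¹).ncard : ℕ) * Thr k (S0 ∪ S0⁻¹).ncard n q := by
              rcases hFfin.toFinset.eq_empty_or_nonempty with h0 | h0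
              · rw [h0]
                simp
              · exact (pigeon' hFfin.toFinset h0 hcon).le.trans (mul_le_mul_left hFcard _)
            have h2 : (⋃ r ∈ hFfin.toFinset, C r).encard ≠ ⊤ := by
              rw [Set.encard_ne_top_iff]
              refine Set.Finite.biUnion hFfin.toFinset.finite_toSet fun r hr => ?_
              rw [← Set.encard_ne_top_iff]
              exact (lt_of_lt_of_le (hcon r hr) le_top).ne
            have h3 : (β c' ∪ ⋃ r ∈ hFfin.toFinset, C r).encard < k + 1 +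
                (k * (S0 ∪ S0⁻¹).ncard : ℕ) * Thr k (S0 ∪ S0⁻¹).ncard n q := by
              refine (Set.encard_union_le _ _).trans_lt ?_
              refine ENat.add_lt_add_of_lt_of_le h2 ?_ h1
              exact (hk c').trans_lt (by exact_mod_cast Nat.lt_succ_self k)
            have h4 := (Set.encard_le_encard hcov).trans (Set.encard_union_le _ _)
            have h5 := h4.trans_lt (ENat.add_lt_add hMid h3)
            exact absurd hE' (not_le.2 h5)
          have hne : (C r).Nonempty := by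
            rw [← Set.encard_pos]
            exact lt_of_lt_of_le (pos_iff_ne_zero.2 hn) ((le_Thr _ _ _ _).trans hrC)
          obtain ⟨z0, hz0E, c'', h1, h2, h3, h4⟩ := hne
          have hCsub : C r ⊆ V T β O (some c') c'' ∩ E := by
            rintro z ⟨hzE, d, k1, k2, k3, k4⟩
            have : c'' = d := V_unique D h1 k1 h3 k3
            rw [← this] at k4
            exact ⟨k4, hzE⟩
          have hsub' : V T β O (some c') c'' ⊆ V T β O p c := (V_mono D hv' h1 h2).trans hsub
          refine ih (some c') c'' (val_child h1) ?_ (hrC.trans (Set.encard_le_encard hCsub))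
          have h5 : ∃ y ∈ P ∩ V T β O p c, y ∉ V T β O (some c') c'' := by
            by_contra hcon
            push Not at hcon
            exact hno ⟨c'', h1, h2, hcon⟩
          obtain ⟨y, hy, hyV⟩ := h5
          have h6 : P ∩ V T β O (some c') c'' ⊆ (P ∩ V T β O p c) \ {y} := by
            rintro z ⟨hzP, hzV⟩
            refine ⟨⟨hzP, hsub' hzV⟩, ?_⟩
            rintro rfl
            exact hyV hzV
          have h7 := Set.encard_sdiff_singleton_add_one hy
          have h8 := Set.encard_le_encard h6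
          have h9 : ((P ∩ V T β O p c) \ {y}).encard + 1 ≤ (q : ℕ∞) + 1 := by
            rw [h7]
            exact_mod_cast hP
          exact h8.trans ((ENat.add_le_add_iff_right (by simp)).1 h9)
      -- the descent
      have key : ∀ (l : ℕ) (p' : Option I) (c' : I), Val T p' c' →
          V T β O p' c' ⊆ V T β O p c → P ∩ V T β O p c ⊆ V T β O p' c' →
          (∃ w : T.Walk c' i, w.IsPath ∧ (∀ t ∈ p', t ∉ w.support) ∧ w.length ≤ l) →
          ∃ W : Set Ω, (∀ z ∈ W, z ∉ P) ∧ (Nb W).encard ≤ (2 * cN : ℕ) ∧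
            n ≤ (W ∩ E).encard := by
        intro l
        induction l with
        | zero =>
          intro p' c' hv' hsub hcont hpath
          by_cases hchild : ∃ c'', T.Adj c' c'' ∧ c'' ∉ p' ∧
              P ∩ V T β O p c ⊆ V T β O (some c') c''
          · exfalso
            obtain ⟨c'', h1, h2, h3⟩ := hchild
            have h4 : i ∈ Br T (some c') c'' := (h3 ⟨hxP, hxV⟩).2 i hi
            have hne : i ≠ c' := by
              rintro rfl
              exact not_mem_br h4
            obtain ⟨_, l', _, _, h5, -⟩ := path_child hpath hne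
            omega
          · exact last p' c' hv' hsub hcont hchild
        | succ l ihl =>
          intro p' c' hv' hsub hcont hpath
          by_cases hchild : ∃ c'', T.Adj c' c'' ∧ c'' ∉ p' ∧
              P ∩ V T β O p c ⊆ V T β O (some c') c''
          · obtain ⟨c'', h1, h2, h3⟩ := hchild
            have h4 : i ∈ Br T (some c') c'' := (h3 ⟨hxP, hxV⟩).2 i hi
            have hne : i ≠ c' := by
              rintro rfl
              exact not_mem_br h4
            obtain ⟨c1, l', k1, k2, h5, w, hw, hav, hwl⟩ := path_child hpath hne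
            have hc1 : c1 = c'' := br_unique D.acyc k1 h1 ⟨w, hav⟩ h4
            subst hc1
            refine ihl (some c') c1 (val_child h1) ((V_mono D hv' h1 h2).trans hsub) h3
              ⟨w, hw, hav, by omega⟩
          · exact last p' c' hv' hsub hcont hchild
      obtain ⟨w, hw, hav⟩ := br_path (hxV.2 i hi)
      exact key w.length p c hv subset_rfl Set.inter_subset_right ⟨w, hw, hav, le_rfl⟩

end tw

end Run7.h266
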