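import Mathlib

/-!
# Balanced multiplicities, and triangles of one colour
-/

set_option autoImplicit false

namespace Run7.h266

/-- If the multiplicities `n` are almost balanced, then all large multiplicities are seen by balanced
multiplicities below `n` (Gordan's lemma). -/
theorem balanced_of_large {Q E : Type} [Fintype Q] [Fintype E] (m m' : Q → E → ℕ) :
    ∃ C : ℕ, ∀ (n : Q → ℕ) (p p' : E → ℕ),
      (∀ e, ∑ c, n c * m c e + p e = ∑ c, n c * m' c e + p' e) →
      ∀ c0, C * ∑ e, (p e + p' e) < n c0 →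
        ∃ z : Q → ℕ, (∀ c, z c ≤ n c) ∧ 0 < z c0 ∧ ∀ e, ∑ c, z c * m c e = ∑ c, z c * m' c e := by
  classical
  let I : Type := Q ⊕ (E ⊕ E)
  let f : (I → ℕ) →+ (E → ℕ) :=
    { toFun := fun x e => ∑ c, x (Sum.inl c) * m c e + x (Sum.inr (Sum.inl e))
      map_zero' := by ext e; simp
      map_add' := fun x y => by
        ext e
        simp only [Pi.add_apply, add_mul, Finset.sum_add_distrib]
        ring }
  let g : (I → ℕ) →+ (E → ℕ) :=
    { toFun := fun x e => ∑ c, x (Sum.inl c) * m' c e + x (Sum.inr (Sum.inr e))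
      map_zero' := by ext e; simp
      map_add' := fun x y => by
        ext e
        simp only [Pi.add_apply, add_mul, Finset.sum_add_distrib]
        ring }
  have hf : ∀ x e, f x e = ∑ c, x (Sum.inl c) * m c e + x (Sum.inr (Sum.inl e)) := fun _ _ => rfl
  have hg : ∀ x e, g x e = ∑ c, x (Sum.inl c) * m' c e + x (Sum.inr (Sum.inr e)) := fun _ _ => rfl
  obtain ⟨G0, hG0⟩ := AddSubmonoid.fg_eqLocusM f g
  let C : ℕ := ∑ y ∈ G0, ∑ c, y (Sum.inl c)
  have hC : ∀ y ∈ G0, ∀ c, y (Sum.inl c) ≤ C := by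
    intro y hy c
    refine (Finset.single_le_sum (f := fun c => y (Sum.inl c)) (fun _ _ => Nat.zero_le _)
      (Finset.mem_univ c)).trans ?_
    exact Finset.single_le_sum (f := fun y : I → ℕ => ∑ c, y (Sum.inl c))
      (fun _ _ => Nat.zero_le _) hy
  refine ⟨C, fun n p p' hbal c0 hc0 => ?_⟩
  by_contra hno
  let x : I → ℕ := Sum.elim n (Sum.elim p p')
  have hx : x ∈ f.eqLocusM g := by
    show f x = g x
    ext e
    rw [hf, hg]
    exact hbal e
  rw [← hG0] at hx
  obtain ⟨l, hl, hsum⟩ := AddSubmonoid.exists_multiset_of_mem_closure hx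
  have hle : ∀ y ∈ l, ∀ i, y i ≤ x i := by
    intro y hy i
    rw [← hsum]
    obtain ⟨l', rfl⟩ := Multiset.exists_cons_of_mem hy
    rw [Multiset.sum_cons]
    exact Nat.le_add_right _ _
  have key : ∀ y ∈ l, y (Sum.inl c0) ≤ C * ∑ e, (y (Sum.inr (Sum.inl e)) +
      y (Sum.inr (Sum.inr e))) := by
    intro y hy
    by_cases h0 : ∑ e, (y (Sum.inr (Sum.inl e)) + y (Sum.inr (Sum.inr e))) = 0
    · rw [h0, mul_zero, Nat.le_zero]
      by_contra hne
      apply hno
      rw [Finset.sum_eq_zero_iff] at h0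
      refine ⟨fun c => y (Sum.inl c), fun c => hle y hy (Sum.inl c), Nat.pos_of_ne_zero hne,
        fun e => ?_⟩
      have h1 : y ∈ f.eqLocusM g := by
        rw [← hG0]
        exact AddSubmonoid.subset_closure (hl y hy)
      have h2 : f y = g y := h1
      have h3 := congrFun h2 e
      rw [hf, hg] at h3
      have h4 := h0 e (Finset.mem_univ e)
      show ∑ c, y (Sum.inl c) * m c e = ∑ c, y (Sum.inl c) * m' c e
      omega
    · calc y (Sum.inl c0) ≤ C * 1 := by rw [mul_one]; exact hC y (hl y hy) c0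
        _ ≤ _ := Nat.mul_le_mul_left _ (Nat.pos_of_ne_zero h0)
  have hsum2 : ∀ l : Multiset (I → ℕ), (∀ y ∈ l, y (Sum.inl c0) ≤ C * ∑ e,
      (y (Sum.inr (Sum.inl e)) + y (Sum.inr (Sum.inr e)))) →
      l.sum (Sum.inl c0) ≤ C * ∑ e, (l.sum (Sum.inr (Sum.inl e)) +
        l.sum (Sum.inr (Sum.inr e))) := by
    intro l
    induction l using Multiset.induction with
    | empty => intro _; simp
    | cons y l ih =>
      intro h
      have h1 := h y (Multiset.mem_cons_self y l)
      have h2 := ih (fun z hz => h z (Multiset.mem_cons_of_mem hz))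
      rw [Multiset.sum_cons]
      have h3 : ∑ e, ((y + l.sum) (Sum.inr (Sum.inl e)) + (y + l.sum) (Sum.inr (Sum.inr e))) =
          ∑ e, (y (Sum.inr (Sum.inl e)) + y (Sum.inr (Sum.inr e))) +
          ∑ e, (l.sum (Sum.inr (Sum.inl e)) + l.sum (Sum.inr (Sum.inr e))) := by
        rw [← Finset.sum_add_distrib]
        refine Finset.sum_congr rfl fun e _ => ?_
        simp only [Pi.add_apply]
        ring
      rw [h3, mul_add]
      exact Nat.add_le_add h1 h2
  have h5 := hsum2 l key
  rw [hsum] at h5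
  have h6 : x (Sum.inl c0) = n c0 := rfl
  rw [h6] at h5
  have h7 : ∑ e, (x (Sum.inr (Sum.inl e)) + x (Sum.inr (Sum.inr e))) = ∑ e, (p e + p' e) := rfl
  rw [h7] at h5
  omega

/-- Ramsey's theorem for triangles. -/
theorem triangle (K : Type) [Finite K] : ∃ m : ℕ, ∀ χ : ℕ → ℕ → K,
    ∃ i j k, i < j ∧ j < k ∧ k < m ∧ χ i j = χ i k ∧ χ j k = χ i k := by
  classical
  -- for each finset of allowed colours
  have key : ∀ A : Finset K, ∃ m : ℕ, ∀ (T : Finset ℕ), m ≤ T.card → ∀ χ : ℕ → ℕ → K,
      (∀ i ∈ T, ∀ j ∈ T, i < j → χ i j ∈ A) →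
      ∃ i ∈ T, ∃ j ∈ T, ∃ k ∈ T, i < j ∧ j < k ∧ χ i j = χ i k ∧ χ j k = χ i k := by
    intro A
    induction A using Finset.strongInduction with
    | H A ih =>
      by_cases hA : A = ∅
      · subst hA
        refine ⟨2, fun T hT χ h => ?_⟩
        obtain ⟨a, ha, b, hb, hab⟩ := Finset.one_lt_card.1 (by omega : 1 < T.card)
        rcases lt_or_gt_of_ne hab with h1 | h1
        · exact absurd (h a ha b hb h1) (Finset.notMem_empty _)
        · exact absurd (h b hb a ha h1) (Finset.notMem_empty _)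
      · -- a bound for all proper subsets
        have h1 : ∃ M : ℕ, ∀ a ∈ A, ∀ (T : Finset ℕ), M ≤ T.card → ∀ χ : ℕ → ℕ → K,
            (∀ i ∈ T, ∀ j ∈ T, i < j → χ i j ∈ A.erase a) →
            ∃ i ∈ T, ∃ j ∈ T, ∃ k ∈ T, i < j ∧ j < k ∧ χ i j = χ i k ∧ χ j k = χ i k := by
          choose! f hf using fun a (ha : a ∈ A) => ih (A.erase a) (Finset.erase_ssubset ha)
          refine ⟨A.sup f, fun a ha T hT => hf a ha T (le_trans (Finset.le_sup ha) hT)⟩
        obtain ⟨M, hM⟩ := h1
        refine ⟨A.card * M + 2, fun T hT χ h => ?_⟩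
        have hne : T.Nonempty := Finset.card_pos.1 (by omega)
        set i0 := T.min' hne with hi0
        have hi0T : i0 ∈ T := Finset.min'_mem T hne
        set T' := T.erase i0 with hT'
        have hT'c : A.card * M < T'.card := by
          rw [hT', Finset.card_erase_of_mem hi0T]
          omega
        have hlt : ∀ j ∈ T', i0 < j := by
          intro j hj
          have h2 := Finset.min'_le T j (Finset.mem_of_mem_erase hj)
          exact lt_of_le_of_ne h2 (Finset.ne_of_mem_erase hj).symm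
        have hmap : ∀ j ∈ T', χ i0 j ∈ A := fun j hj =>
          h i0 hi0T j (Finset.mem_of_mem_erase hj) (hlt j hj)
        obtain ⟨a, ha, hac⟩ := Finset.exists_lt_card_fiber_of_mul_lt_card_of_maps_to hmap hT'c
        set T'' := T'.filter (fun j => χ i0 j = a) with hT''
        by_cases hh : ∃ j ∈ T'', ∃ k ∈ T'', j < k ∧ χ j k = a
        · obtain ⟨j, hj, k, hk, hjk, hc⟩ := hh
          have hj' := Finset.mem_filter.1 hj
          have hk' := Finset.mem_filter.1 hk
          exact ⟨i0, hi0T, j, Finset.mem_of_mem_erase hj'.1, k, Finset.mem_of_mem_erase hk'.1,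
            hlt j hj'.1, hjk, hj'.2.trans hk'.2.symm, hc.trans hk'.2.symm⟩
        · push Not at hh
          obtain ⟨i, hi, j, hj, k, hk, h3⟩ := hM a ha T'' hac.le χ (by
            intro i hi j hj hij
            refine Finset.mem_erase.2 ⟨hh i hi j hj hij, ?_⟩
            exact h i (Finset.mem_of_mem_erase (Finset.mem_filter.1 hi).1) j
              (Finset.mem_of_mem_erase (Finset.mem_filter.1 hj).1) hij)
          exact ⟨i, Finset.mem_of_mem_erase (Finset.mem_filter.1 hi).1, j,
            Finset.mem_of_mem_erase (Finset.mem_filter.1 hj).1, k,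
            Finset.mem_of_mem_erase (Finset.mem_filter.1 hk).1, h3⟩
  have : Fintype K := Fintype.ofFinite K
  obtain ⟨m, hm⟩ := key Finset.univ
  refine ⟨m, fun χ => ?_⟩
  obtain ⟨i, hi, j, hj, k, hk, h1, h2, h3, h4⟩ := hm (Finset.range m) (by simp) χ
    (fun _ _ _ _ _ => Finset.mem_univ _)
  exact ⟨i, j, k, h1, h2, Finset.mem_range.1 hk, h3, h4⟩

end Run7.h266
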