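import Pool.Agent.Run7.h266.Scheme

/-!
# Schemes from thin discs
-/

set_option autoImplicit false

namespace Run7.h266

open Pool.Agent.H785R3.GrowthA

variable {L : Type} {S : Sys L} {X : Type} {A : L → X → X}

/-- thin discs around all points -/
structure Discs (S : Sys L) (A : L → X → X) (t b : ℕ) where
  rad : X → ℕ
  big : ∀ y, S.ℓ ≤ rad y
  thin : ∀ y, (N S A (LB A (rad y) y)).encard ≤ rad y
  le : ∀ y, (N S A (LB A (rad y) y)).encard ≤ t
  card : ∀ y, (LB A (rad y) y).encard ≤ b

/-- a connected set with many points contains many points near each of its points -/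
theorem conn_growth {M : Set X} {y : X} (hM : ∀ z ∈ M, Conn A M y z) {s : ℕ}
    (hs : ((s + 1 : ℕ) : ℕ∞) ≤ M.encard) : ((s + 1 : ℕ) : ℕ∞) ≤ (M ∩ LB A s y).encard := by
  induction s with
  | zero =>
    have hne : M.Nonempty := by
      rw [← Set.encard_pos]
      exact lt_of_lt_of_le (by simp) hs
    obtain ⟨z, hz⟩ := hne
    have hy : y ∈ M := (hM z hz).mem_left
    have h1 : (M ∩ LB A 0 y).Nonempty := ⟨y, hy, LB_self⟩
    have h2 := Set.one_le_encard_iff_nonempty.2 h1
    simpa using h2
  | succ s ih =>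
    have h1 := ih (le_trans (by exact_mod_cast (by omega : s + 1 ≤ s + 1 + 1)) hs)
    by_cases hall : M ⊆ LB A s y
    · have h2 : M ∩ LB A (s + 1) y = M :=
        Set.inter_eq_left.2 (hall.trans (LB_mono (Nat.le_succ s)))
      rw [h2]
      exact hs
    · obtain ⟨z, hz, hz'⟩ := Set.not_subset.1 hall
      obtain ⟨u, a, h2, h3, h4⟩ := (hM z hz).entry (C := (LB A s y)ᶜ)
        (fun h => h LB_self) hz'
      have h5 : run A u y ∈ LB A s y := by
        by_contra h
        exact h2.last.2 h
      have h6 : A a (run A u y) ∈ LB A (s + 1) y := by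
        obtain ⟨w, hw, hw'⟩ := h5
        refine ⟨a :: w, by simpa using hw, ?_⟩
        rw [run_cons, hw']
      have h7 : insert (A a (run A u y)) (M ∩ LB A s y) ⊆ M ∩ LB A (s + 1) y := by
        rintro x (rfl | hx)
        · exact ⟨h4, h6⟩
        · exact ⟨hx.1, LB_mono (Nat.le_succ s) hx.2⟩
      have h8 : A a (run A u y) ∉ M ∩ LB A s y := fun h => h3 h.2
      refine le_trans ?_ (Set.encard_le_encard h7)
      rw [Set.encard_insert_of_notMem h8]
      push_cast at h1 ⊢
      gcongr

/-- a large collar has a large component -/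
theorem big_cluster {G : Type} [Group G] (P : Pres S G) (hNF : ∀ a b : G, ¬ FreePair a b)
    (hA : IsAct S A) {O C : Set X} (hO : Orb A O) (hC : Pc A O C) {t : ℕ}
    (hbig : ((2 * t : ℕ) : ℕ∞) < (N S A C).encard) :
    ∃ y ∈ N S A C, (t : ℕ∞) < (comp A (N S A C) y).encard := by
  by_contra hcon
  push Not at hcon
  have hne : (N S A C).Nonempty := by
    rw [← Set.encard_pos]
    exact lt_of_le_of_lt (by simp) hbig
  obtain ⟨y1, hy1⟩ := hne
  have hcov : ∀ z ∈ N S A C, z ∈ C ∨ z ∈ O \ C := by
    intro z hz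
    have := Orb.N_sub hA hO hC.sub hz
    by_cases h : z ∈ C
    · exact Or.inl h
    · exact Or.inr ⟨this, h⟩
  by_cases hall : ∀ z ∈ N S A C, Conn A (N S A C) y1 z
  · have h1 : N S A C ⊆ comp A (N S A C) y1 := hall
    have h2 := (Set.encard_le_encard h1).trans (hcon y1 hy1)
    have h3 := lt_of_lt_of_le hbig h2
    have h4 : 2 * t < t := by exact_mod_cast h3
    omega
  · push Not at hall
    obtain ⟨y2, hy2, hn⟩ := hall
    have h1 : N S A C ⊆ comp A (N S A C) y1 ∪ comp A (N S A C) y2 := by
      intro z hz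
      rcases two_comps P hNF hA hC.conn hC.coconn (fun z hz => hz.2) hcov hy1 hy2 hz with
        h | h | h
      · exact absurd h hn
      · exact Or.inl h
      · exact Or.inr h
    have h2 := ((Set.encard_le_encard h1).trans (Set.encard_union_le _ _)).trans
      (add_le_add (hcon y1 hy1) (hcon y2 hy2))
    have h3 := lt_of_lt_of_le hbig h2
    have h4 : 2 * t < t + t := by exact_mod_cast h3
    omega

/-- a disc around a point of the collar meets both sides -/
theorem disc_meets {O C : Set X} (hO : Orb A O) {y : X} (hyO : y ∈ O) (hy : y ∈ N S A C) {s : ℕ}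
    (hs : S.ℓ ≤ s) : (LB A s y ∩ C).Nonempty ∧ (LB A s y ∩ (O \ C)).Nonempty := by
  obtain ⟨w, hw, h⟩ := hy
  have h1 : run A w y ∈ LB A s y := ⟨w, hw.trans hs, rfl⟩
  have h2 := hO.mrun hyO w
  by_cases h3 : y ∈ C
  · exact ⟨⟨y, LB_self, h3⟩, ⟨run A w y, h1, h2, by tauto⟩⟩
  · exact ⟨⟨run A w y, h1, by tauto⟩, ⟨y, LB_self, hyO, h3⟩⟩

/-- the scheme of thin discs -/
noncomputable def Discs.scheme {G : Type} [Group G] (P : Pres S G)
    (hNF : ∀ a b : G, ¬ FreePair a b) (hA : IsAct S A) {t b : ℕ} (T : Discs S A t b) (y0 : X) :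
    Scheme S A (3 * t) (b + t) (comp A Set.univ y0) where
  Reg := fun C => Pc A (comp A Set.univ y0) C ∧ (N S A C).encard ≤ (3 * t : ℕ)
  μ := fun C => (N S A C).ncard
  sub := fun C h => h.1.sub
  ne := fun C h => h.1.ne
  coll := fun C h => h.2
  step := by
    rintro C ⟨hC, hN⟩ q hq hqN
    have hO : Orb A (comp A Set.univ y0) := orb_of hA y0
    have hcard : ∀ y, (LB A (T.rad y) y).encard ≤ (b + t : ℕ) := fun y =>
      (T.card y).trans (by exact_mod_cast Nat.le_add_right b t)
    have hcard' : ∀ y, (N S A (LB A (T.rad y) y)).encard ≤ (b + t : ℕ) := fun y =>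
      (T.le y).trans (by exact_mod_cast Nat.le_add_left t b)
    by_cases hsmall : (N S A C).encard ≤ (2 * t : ℕ)
    · have hqO : q ∈ comp A Set.univ y0 := hC.sub hq
      obtain ⟨h1, h2⟩ := disc_meets hO hqO hqN (T.big q)
      refine ⟨LB A (T.rad q) q, N S A (LB A (T.rad q) q), hcard q, hcard' q, fun p hp => ?_⟩
      obtain ⟨h3, h4, h5⟩ := hC.child hA (fun z hz z' hz' => LB_conn hA hz hz')
        (hO.mLB hqO _) h1 h2 hp
      refine ⟨⟨h3, ?_⟩, h4, Or.inl LB_self⟩
      refine (Set.encard_le_encard h5).trans ((Set.encard_union_le _ _).trans ?_)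
      refine (add_le_add ((Set.encard_le_encard Set.sdiff_subset).trans hsmall) (T.le q)).trans ?_
      exact_mod_cast (by omega : 2 * t + t ≤ 3 * t)
    · rw [not_le] at hsmall
      obtain ⟨y, hy, hbig⟩ := big_cluster P hNF hA hO hC hsmall
      have hyO : y ∈ comp A Set.univ y0 := Orb.N_sub hA hO hC.sub hy
      obtain ⟨h1, h2⟩ := disc_meets hO hyO hy (T.big y)
      have hNfin : (N S A C).Finite := Set.finite_of_encard_le_coe hN
      have hDfin : (N S A (LB A (T.rad y) y)).Finite := Set.finite_of_encard_le_coe (T.le y)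
      -- the disc covers more points of the collar than it has collar points
      have hth : ((N S A (LB A (T.rad y) y)).ncard + 1 : ℕ) ≤
          (N S A C ∩ LB A (T.rad y) y).ncard := by
        have h6 : (N S A (LB A (T.rad y) y)).ncard ≤ t := by
          have := T.le y
          rw [← hDfin.cast_ncard_eq] at this
          exact_mod_cast this
        have h7 : (N S A (LB A (T.rad y) y)).ncard ≤ T.rad y := by
          have := T.thin y
          rw [← hDfin.cast_ncard_eq] at this
          exact_mod_cast this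
        have h8 := conn_growth (A := A) (M := comp A (N S A C) y) (y := y)
          (fun z hz => comp_conn_left hz) (s := (N S A (LB A (T.rad y) y)).ncard) (by
            refine le_trans ?_ (Order.add_one_le_of_lt hbig)
            exact_mod_cast (by omega))
        have h9 : comp A (N S A C) y ∩ LB A (N S A (LB A (T.rad y) y)).ncard y ⊆
            N S A C ∩ LB A (T.rad y) y := fun x hx => ⟨comp_sub hx.1, LB_mono h7 hx.2⟩
        have h10 := h8.trans (Set.encard_le_encard h9)
        rw [← (hNfin.subset Set.inter_subset_left).cast_ncard_eq] at h10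
        exact_mod_cast h10
      have hsplit : (N S A C).ncard = (N S A C ∩ LB A (T.rad y) y).ncard +
          (N S A C \ LB A (T.rad y) y).ncard :=
        (Set.ncard_inter_add_ncard_sdiff_eq_ncard _ _ hNfin).symm
      refine ⟨LB A (T.rad y) y, N S A (LB A (T.rad y) y), hcard y, hcard' y, fun p hp => ?_⟩
      obtain ⟨h3, h4, h5⟩ := hC.child hA (fun z hz z' hz' => LB_conn hA hz hz')
        (hO.mLB hyO _) h1 h2 hp
      have hfin2 : ((N S A C \ LB A (T.rad y) y) ∪ N S A (LB A (T.rad y) y)).Finite :=
        (hNfin.subset Set.sdiff_subset).union hDfin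
      have h6 : (N S A (comp A (C \ LB A (T.rad y) y) p)).ncard < (N S A C).ncard := by
        have h7 := Set.ncard_le_ncard h5 hfin2
        have h8 := Set.ncard_union_le (N S A C \ LB A (T.rad y) y) (N S A (LB A (T.rad y) y))
        omega
      refine ⟨⟨h3, ?_⟩, h4, Or.inr h6⟩
      rw [← (hfin2.subset h5).cast_ncard_eq]
      rw [← hNfin.cast_ncard_eq] at hN
      have h9 : (N S A C).ncard ≤ 3 * t := by exact_mod_cast hN
      exact_mod_cast (by omega)
  root := by
    have hO : Orb A (comp A Set.univ y0) := orb_of hA y0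
    have hyO : y0 ∈ comp A Set.univ y0 := Conn.refl trivial
    refine ⟨LB A (T.rad y0) y0, N S A (LB A (T.rad y0) y0),
      (T.card y0).trans (by exact_mod_cast Nat.le_add_right b t),
      (T.le y0).trans (by exact_mod_cast Nat.le_add_left t b), fun p hp => ?_⟩
    obtain ⟨h3, h4, h5⟩ := hO.child hA (fun z hz z' hz' => LB_conn hA hz hz')
        (hO.mLB hyO _) ⟨y0, LB_self⟩ hp
    refine ⟨⟨h3, (Set.encard_le_encard h5).trans ((T.le y0).trans ?_)⟩, h4⟩
    exact_mod_cast (by omega : t ≤ 3 * t)

end Run7.h266
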