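import Pool.Agent.Run7.h266.TubeG

/-!
# Balls of linear size
-/

set_option autoImplicit false

namespace Run7.h266

open scoped Pointwise

variable {G : Type} [Group G] {Ω : Type} [MulAction G Ω]

/-- the ball of radius `r` -/
def Bl (S0 : Set G) (r : ℕ) (ω : Ω) : Set Ω := {x | ∃ g ∈ (S0 ∪ S0⁻¹ ∪ {1}) ^ r, g • ω = x}

theorem bl_step {S0 : Set G} {r : ℕ} {ω x : Ω} (hx : x ∈ Bl S0 r ω) {s : G}
    (hs : s ∈ S0 ∪ S0⁻¹ ∪ {1}) : s • x ∈ Bl S0 (r + 1) ω := by
  obtain ⟨g, hg, rfl⟩ := hx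
  refine ⟨s * g, ?_, mul_smul _ _ _⟩
  rw [pow_succ']
  exact Set.mul_mem_mul hs hg

theorem bl_mono_succ {S0 : Set G} {r : ℕ} {ω : Ω} : Bl S0 r ω ⊆ Bl S0 (r + 1) ω := by
  intro x hx
  have := bl_step hx (s := 1) (Or.inr rfl)
  rwa [one_smul] at this

theorem bl_mono {S0 : Set G} {r r' : ℕ} (h : r ≤ r') {ω : Ω} : Bl S0 r ω ⊆ Bl S0 r' ω := by
  induction r', h using Nat.le_induction with
  | base => exact subset_rfl
  | succ r' _ ih => exact ih.trans bl_mono_succ

theorem bl_self {S0 : Set G} {r : ℕ} {ω : Ω} : ω ∈ Bl S0 r ω :=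
  bl_mono (Nat.zero_le r) ⟨1, by simp, one_smul _ _⟩

theorem bd_compl {S0 : Set G} (U : Set Ω) : bd S0 Uᶜ = bd S0 U := by
  ext x
  simp only [bd, Set.mem_compl_iff, Set.mem_ofPred_eq, not_iff_not]

theorem bd_ball {S0 : Set G} {j : ℕ} {ω : Ω} :
    bd S0 (Bl S0 (j + 1) ω)ᶜ ⊆ Bl S0 (j + 2) ω \ Bl S0 j ω := by
  rw [bd_compl]
  rintro x ⟨s, hs, hx⟩
  have key : ∀ t ∈ S0 ∪ S0⁻¹ ∪ {1}, t⁻¹ ∈ S0 ∪ S0⁻¹ ∪ {1} →
      ¬ (t • x ∈ Bl S0 (j + 1) ω ↔ x ∈ Bl S0 (j + 1) ω) → x ∈ Bl S0 (j + 2) ω \ Bl S0 j ω := by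
    intro t ht ht' h
    by_cases h1 : x ∈ Bl S0 (j + 1) ω
    · refine ⟨bl_mono_succ h1, fun h2 => ?_⟩
      have := bl_step h2 ht
      tauto
    · refine ⟨?_, fun h2 => h1 (bl_mono_succ h2)⟩
      have h2 : t • x ∈ Bl S0 (j + 1) ω := by tauto
      have h3 := bl_step h2 ht'
      rwa [inv_smul_smul] at h3
  rcases hx with hx | hx
  · exact key s (Or.inl (Or.inl hs)) (Or.inl (Or.inr (by simpa using hs))) hx
  · exact key s⁻¹ (Or.inl (Or.inr (by simpa using hs)))
      (by rw [inv_inv]; exact Or.inl (Or.inl hs)) hx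

/-- a ball of linear size contains many thin spheres -/
theorem tube_of_ball {S0 : Set G} {C LL r : ℕ} (hr : 4 * LL + 8 ≤ r) {ω : Ω}
    (hB : (Bl S0 r ω).encard ≤ (C * r : ℕ)) (hne : Bl S0 r ω ≠ Set.univ) :
    TubeS S0 (4 * C) LL Ω := by
  classical
  have hfin : (Bl S0 r ω).Finite := Set.finite_of_encard_le_coe hB
  have hcard : (Bl S0 r ω).ncard ≤ C * r := by
    rw [← hfin.cast_ncard_eq] at hB
    exact_mod_cast hB
  have hC : 0 < C := by
    rcases Nat.eq_zero_or_pos C with h | h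
    · exfalso
      rw [h, Nat.zero_mul] at hcard
      have h1 : (Bl S0 r ω).ncard = 0 := by omega
      rw [Set.ncard_eq_zero hfin] at h1
      have h2 : ω ∈ Bl S0 r ω := bl_self
      rw [h1] at h2
      exact h2
    · exact h
  -- the annuli
  let An : ℕ → Set Ω := fun i => Bl S0 (2 * i + 2) ω \ Bl S0 (2 * i) ω
  have hAfin : ∀ i < r / 2, (An i).Finite := fun i hi =>
    hfin.subset (Set.sdiff_subset.trans (bl_mono (by omega)))
  have hAdisj : ∀ i j, i < j → Disjoint (An i) (An j) := by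
    intro i j hij
    rw [Set.disjoint_left]
    rintro x ⟨hx, -⟩ ⟨-, hx'⟩
    exact hx' (bl_mono (by omega) hx)
  let bad : Finset ℕ := (Finset.range (r / 2)).filter fun i => 4 * C < (An i).ncard
  have hbad : 4 * bad.card ≤ r := by
    have h1 : ∀ F : Finset ℕ, F ⊆ bad → F.card * (4 * C) ≤ (⋃ i ∈ F, An i).ncard := by
      intro F
      induction F using Finset.induction_on with
      | empty => intro _; simp
      | insert a F ha ih =>
        intro hF
        have h2 := ih ((Finset.subset_insert a F).trans hF)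
        have h3 : (⋃ i ∈ insert a F, An i) = An a ∪ ⋃ i ∈ F, An i := by
          ext x
          simp
        have hab : a ∈ bad := hF (Finset.mem_insert_self a F)
        rw [Finset.mem_filter, Finset.mem_range] at hab
        have h4 : Disjoint (An a) (⋃ i ∈ F, An i) := by
          rw [Set.disjoint_iUnion₂_right]
          intro i hi
          have hne' : a ≠ i := fun h => ha (h ▸ hi)
          rcases lt_or_gt_of_ne hne' with h | h
          · exact hAdisj _ _ h
          · exact (hAdisj _ _ h).symm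
        have h5 : (⋃ i ∈ F, An i).Finite := by
          refine Set.Finite.biUnion F.finite_toSet fun i hi => hAfin i ?_
          have h6 : i ∈ bad := hF (Finset.mem_insert_of_mem hi)
          rw [Finset.mem_filter, Finset.mem_range] at h6
          exact h6.1
        rw [h3, Set.ncard_union_eq h4 (hAfin a hab.1) h5, Finset.card_insert_of_notMem ha,
          Nat.add_mul, one_mul]
        omega
    have h2 := h1 bad subset_rfl
    have h3 : (⋃ i ∈ bad, An i) ⊆ Bl S0 r ω := by
      refine Set.iUnion₂_subset fun i hi => ?_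
      rw [Finset.mem_filter, Finset.mem_range] at hi
      exact Set.sdiff_subset.trans (bl_mono (by omega))
    have h4 := (h2.trans (Set.ncard_le_ncard h3 hfin)).trans hcard
    have h5 : 4 * bad.card * C ≤ r * C := by
      calc 4 * bad.card * C = bad.card * (4 * C) := by ring
        _ ≤ C * r := h4
        _ = r * C := by ring
    exact Nat.le_of_mul_le_mul_right h5 hC
  let good : Finset ℕ := (Finset.range (r / 2)).filter fun i => ¬ 4 * C < (An i).ncard
  have hgood : LL + 1 ≤ good.card := by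
    have h1 : bad.card + good.card = r / 2 := by
      have := Finset.card_filter_add_card_filter_not (s := Finset.range (r / 2))
        (fun i => 4 * C < (An i).ncard)
      rwa [Finset.card_range] at this
    omega
  obtain ⟨t, htg, htc⟩ := Finset.exists_subset_card_eq hgood
  let e := t.orderEmbOfFin htc
  have het : ∀ k, e k ∈ good := fun k => htg (t.orderEmbOfFin_mem htc k)
  let idx : ℕ → ℕ := fun k => if h : k < LL + 1 then e ⟨k, h⟩ else 0
  have hidx : ∀ k (h : k < LL + 1), idx k = e ⟨k, h⟩ := fun k h => dif_pos h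
  have hlt : ∀ k < LL, idx k < idx (k + 1) := by
    intro k hk
    rw [hidx k (by omega), hidx (k + 1) (by omega)]
    exact e.strictMono (by
      rw [Fin.lt_def]
      exact Nat.lt_succ_self k)
  have hr2 : ∀ k ≤ LL, idx k < r / 2 ∧ (An (idx k)).ncard ≤ 4 * C := by
    intro k hk
    rw [hidx k (by omega)]
    have := het ⟨k, by omega⟩
    rw [Finset.mem_filter, Finset.mem_range] at this
    exact ⟨this.1, not_lt.1 this.2⟩
  have hbd : ∀ k, bd S0 (Bl S0 (2 * idx k + 1) ω)ᶜ ⊆ An (idx k) := fun k => bd_ball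
  refine ⟨fun k => (Bl S0 (2 * idx k + 1) ω)ᶜ, ?_, ?_, ?_, ?_, ?_, ?_⟩
  · intro k hk
    exact Set.compl_subset_compl.2 (bl_mono (by have := hlt k hk; omega))
  · intro k hk
    refine (Set.encard_le_encard (hbd k)).trans ?_
    obtain ⟨h1, h2⟩ := hr2 k hk
    rw [← (hAfin _ h1).cast_ncard_eq]
    exact_mod_cast h2
  · intro k hk
    exact (hAdisj _ _ (hlt k hk)).mono (hbd k) (hbd (k + 1))
  · intro k hk
    obtain ⟨h1, -⟩ := hr2 (k + 1) (by omega)
    refine hfin.subset ?_
    rintro x ⟨-, hx⟩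
    rw [Set.mem_compl_iff, not_not] at hx
    exact bl_mono (by omega) hx
  · obtain ⟨h1, -⟩ := hr2 LL le_rfl
    rw [Set.nonempty_compl]
    intro h
    apply hne
    rw [Set.eq_univ_iff_forall] at h ⊢
    exact fun x => bl_mono (by omega) (h x)
  · intro h
    change (Bl S0 (2 * idx 0 + 1) ω)ᶜ = Set.univ at h
    have h1 : ω ∈ (Bl S0 (2 * idx 0 + 1) ω)ᶜ := by
      rw [h]
      trivial
    exact h1 bl_self

end Run7.h266
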