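import Pool.Agent.Run7.h266.CoreS
import Pool.Agent.Run7.h266.TubeB

/-!
# Thin discs in balls of small size
-/

set_option autoImplicit false

namespace Run7.h266

open Pool.Agent.H785R3.GrowthA
open scoped Pointwise commutatorElement

section

variable {L : Type} {S : Sys L} {X : Type} {A : L → X → X}

/-- the collar of a ball lies in a shell -/
theorem N_LB (hA : IsAct S A) {s : ℕ} {y : X} :
    N S A (LB A (s + S.ℓ) y) ⊆ LB A (s + 2 * S.ℓ) y \ LB A s y := by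
  rintro z ⟨w, hw, h⟩
  have h1 : ∀ x s', x ∈ LB A s' y → ∀ v : List L, v.length ≤ S.ℓ →
      run A v x ∈ LB A (s' + S.ℓ) y := by
    intro x s' hx v hv
    exact LB_trans hx ⟨v, hv, rfl⟩
  constructor
  · by_cases h2 : z ∈ LB A (s + S.ℓ) y
    · exact LB_mono (by omega) h2
    · have h3 : run A w z ∈ LB A (s + S.ℓ) y := by tauto
      have h4 := h1 _ _ h3 (S.winv w) (by rwa [S.winv_length])
      rw [hA.winv_run] at h4
      exact LB_mono (by omega) h4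
  · intro h2
    exact h ⟨fun _ => LB_mono (by omega) h2, fun _ => h1 z s h2 w hw⟩

/-- one of the shells is small -/
theorem small_shell (hA : IsAct S A) {y : X} {ρ k : ℕ} (hk : 2 * S.ℓ * k ≤ ρ)
    (hB : (LB A (2 * ρ) y).encard < (k * (ρ + 1) : ℕ)) :
    ∃ s, ρ + S.ℓ ≤ s ∧ s ≤ 2 * ρ ∧ (N S A (LB A s y)).encard ≤ ρ := by
  by_contra hcon
  push Not at hcon
  have key : ∀ j ≤ k, ((j * (ρ + 1) : ℕ) : ℕ∞) ≤ (LB A (ρ + 2 * S.ℓ * j) y).encard := by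
    intro j
    induction j with
    | zero => intro _; simp
    | succ j ih =>
      intro hj
      have h1 := ih (by omega)
      have h0 : 2 * S.ℓ * (j + 1) ≤ 2 * S.ℓ * k := Nat.mul_le_mul_left _ hj
      have h0' : 2 * S.ℓ * (j + 1) = 2 * S.ℓ * j + 2 * S.ℓ := by ring
      have h2 := hcon (ρ + 2 * S.ℓ * j + S.ℓ) (by omega) (by omega)
      have h3 := Order.add_one_le_of_lt h2
      have h4 := N_LB (S := S) hA (s := ρ + 2 * S.ℓ * j) (y := y)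
      have h5 : LB A (ρ + 2 * S.ℓ * j) y ⊆ LB A (ρ + 2 * S.ℓ * j + 2 * S.ℓ) y :=
        LB_mono (by omega)
      have h6 := Set.encard_sdiff_add_encard_of_subset h5
      have h7 : ρ + 2 * S.ℓ * (j + 1) = ρ + 2 * S.ℓ * j + 2 * S.ℓ := by ring
      rw [h7, ← h6]
      have h8 : (((j + 1) * (ρ + 1) : ℕ) : ℕ∞) = ((ρ : ℕ∞) + 1) + ((j * (ρ + 1) : ℕ) : ℕ∞) := by
        push_cast
        ring
      rw [h8]
      exact add_le_add (h3.trans (Set.encard_le_encard h4)) h1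
  have h1 := key k le_rfl
  have h2 : LB A (ρ + 2 * S.ℓ * k) y ⊆ LB A (2 * ρ) y := LB_mono (by omega)
  exact absurd (lt_of_le_of_lt (h1.trans (Set.encard_le_encard h2)) hB) (lt_irrefl _)

/-- the numbers -/
theorem numbers {ℓ lam r β : ℕ} (hℓ : 1 ≤ ℓ) (hlam : 1 ≤ lam) (hβ : 1 ≤ β)
    (h : 64 * ℓ ^ 2 * lam ^ 2 * β ≤ r ^ 2) :
    β < r / (2 * lam) / (2 * ℓ) * (r / (2 * lam) + 1) := by
  by_contra hcon
  rw [not_lt] at hcon
  set ρ := r / (2 * lam) with hρ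
  set k := ρ / (2 * ℓ) with hk
  have h1 : r < 2 * lam * (ρ + 1) := by
    rw [hρ]
    exact Nat.lt_mul_div_succ r (by omega)
  have h2 : ρ < 2 * ℓ * (k + 1) := by
    rw [hk]
    exact Nat.lt_mul_div_succ ρ (by omega)
  have h3 : (8 * ℓ * lam) ^ 2 ≤ r ^ 2 := by
    calc (8 * ℓ * lam) ^ 2 = 64 * ℓ ^ 2 * lam ^ 2 * 1 := by ring
      _ ≤ 64 * ℓ ^ 2 * lam ^ 2 * β := Nat.mul_le_mul_left _ hβ
      _ ≤ r ^ 2 := h
  have h4 : 8 * ℓ * lam ≤ r := (Nat.pow_le_pow_iff_left (by norm_num)).1 h3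
  have h5 : 4 * ℓ ≤ ρ := by
    rw [hρ, Nat.le_div_iff_mul_le (by omega)]
    calc 4 * ℓ * (2 * lam) = 8 * ℓ * lam := by ring
      _ ≤ r := h4
  have h6 : 2 ≤ k := by
    rw [hk, Nat.le_div_iff_mul_le (by omega)]
    calc 2 * (2 * ℓ) = 4 * ℓ := by ring
      _ ≤ ρ := h5
  -- the contradiction
  have h7 : r ^ 2 < (2 * lam * (ρ + 1)) ^ 2 := Nat.pow_lt_pow_left h1 (by norm_num)
  have h8 : 64 * ℓ ^ 2 * lam ^ 2 * (k * (ρ + 1)) < (2 * lam * (ρ + 1)) ^ 2 :=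
    lt_of_le_of_lt ((Nat.mul_le_mul_left _ hcon).trans h) h7
  have h9 : 4 * lam ^ 2 * (ρ + 1) * (16 * ℓ ^ 2 * k) < 4 * lam ^ 2 * (ρ + 1) * (ρ + 1) := by
    calc 4 * lam ^ 2 * (ρ + 1) * (16 * ℓ ^ 2 * k) = 64 * ℓ ^ 2 * lam ^ 2 * (k * (ρ + 1)) := by ring
      _ < (2 * lam * (ρ + 1)) ^ 2 := h8
      _ = 4 * lam ^ 2 * (ρ + 1) * (ρ + 1) := by ring
  have h10 : 16 * ℓ ^ 2 * k < ρ + 1 := lt_of_mul_lt_mul_left h9 (Nat.zero_le _)
  have h11 : 16 * ℓ * k ≤ 16 * ℓ ^ 2 * k := by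
    apply Nat.mul_le_mul_right
    rw [pow_two]
    nlinarith
  have h12 : 16 * ℓ * k ≤ 2 * ℓ * (k + 1) := by omega
  have h13 : 2 * ℓ * (8 * k) ≤ 2 * ℓ * (k + 1) := by
    calc 2 * ℓ * (8 * k) = 16 * ℓ * k := by ring
      _ ≤ _ := h12
  have h14 : 8 * k ≤ k + 1 := Nat.le_of_mul_le_mul_left h13 (by omega)
  omega

end

variable {G : Type} [Group G]

theorem exists_lam {n : ℕ} (φ : FreeGroup (Fin n) →* G) {S0 : Set G}
    (hS : Subgroup.closure S0 = ⊤) : ∃ lam : ℕ, 1 ≤ lam ∧ ∀ a : Fin n × Bool,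
      φ (FreeGroup.mk [a]) ∈ (S0 ∪ S0⁻¹ ∪ {1}) ^ lam := by
  classical
  have h1 : (1 : G) ∈ S0 ∪ S0⁻¹ ∪ {1} := Or.inr rfl
  have hg : ∀ g : G, ∃ k : ℕ, g ∈ (S0 ∪ S0⁻¹ ∪ {1}) ^ k := by
    intro g
    have hg : g ∈ Subgroup.closure S0 := by rw [hS]; trivial
    induction hg using Subgroup.closure_induction with
    | mem s hs => exact ⟨1, by rw [pow_one]; exact Or.inl (Or.inl hs)⟩
    | one => exact ⟨0, by simp⟩
    | mul a b _ _ ha hb =>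
      obtain ⟨ka, ha⟩ := ha
      obtain ⟨kb, hb⟩ := hb
      refine ⟨ka + kb, ?_⟩
      rw [pow_add]
      exact Set.mul_mem_mul ha hb
    | inv a _ ha =>
      obtain ⟨ka, ha⟩ := ha
      refine ⟨ka, ?_⟩
      have h2 : (S0 ∪ S0⁻¹ ∪ {1} : Set G)⁻¹ = S0 ∪ S0⁻¹ ∪ {1} := by
        rw [Set.union_inv, Set.union_inv, inv_inv, Set.inv_singleton, inv_one,
          Set.union_comm S0⁻¹ S0]
      rw [← h2, inv_pow]
      simpa using ha
  choose k hk using hg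
  refine ⟨(Finset.univ.sup fun a : Fin n × Bool => k (φ (FreeGroup.mk [a]))) + 1,
    Nat.le_add_left _ _, fun a => ?_⟩
  refine Set.pow_subset_pow_right h1 ?_ (hk _)
  exact (Finset.le_sup (f := fun a : Fin n × Bool => k (φ (FreeGroup.mk [a])))
    (Finset.mem_univ a)).trans (Nat.le_add_right _ _)

theorem LB_Bl {n : ℕ} (φ : FreeGroup (Fin n) →* G) {S0 : Set G} {lam : ℕ}
    (hlam : ∀ a : Fin n × Bool, φ (FreeGroup.mk [a]) ∈ (S0 ∪ S0⁻¹ ∪ {1}) ^ lam) {Ω : Type}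
    [MulAction G Ω] (s : ℕ) (y : Ω) : LB (actOf φ Ω) s y ⊆ Bl S0 (lam * s) y := by
  rintro z ⟨w, hw, rfl⟩
  have h1 : (1 : G) ∈ S0 ∪ S0⁻¹ ∪ {1} := Or.inr rfl
  have h2 : ∀ w : List (Fin n × Bool), φ (FreeGroup.mk w) ∈ (S0 ∪ S0⁻¹ ∪ {1}) ^ (lam * w.length) := by
    intro w
    induction w with
    | nil =>
      have : φ (FreeGroup.mk []) = 1 := map_one φ
      rw [this]
      simp
    | cons a w ih =>
      have h3 : φ (FreeGroup.mk (a :: w)) = φ (FreeGroup.mk [a]) * φ (FreeGroup.mk w) := by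
        rw [← map_mul, FreeGroup.mul_mk]
        rfl
      rw [h3, List.length_cons, Nat.mul_succ, Nat.add_comm, pow_add]
      exact Set.mul_mem_mul (hlam a) ih
  refine ⟨φ (FreeGroup.mk w), ?_, (run_actOf φ w y).symm⟩
  exact Set.pow_subset_pow_right h1 (Nat.mul_le_mul_left _ hw) (h2 w)

theorem growth_main {n : ℕ} (φ : FreeGroup (Fin n) →* G)
    (hφ : Function.Surjective φ) (R : Finset (FreeGroup (Fin n)))
    (hR : Subgroup.normalClosure (R : Set (FreeGroup (Fin n))) = φ.ker)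
    (hNF : ∀ a b : G, ¬ FreePair a b) {S0 : Set G} (hS : Subgroup.closure S0 = ⊤) :
    ∃ D : ℕ, 0 < D ∧ ∀ r0 : ℕ, ∃ N0 : Subgroup G, N0.Normal ∧
      (∃ H : Subgroup G, H.FiniteIndex ∧ ∀ a ∈ H, ∀ b ∈ H, ⁅a, b⁆ ∈ N0) ∧
      ∀ (Ω : Type) [MulAction G Ω],
        (∀ ω : Ω, ∃ r ≤ r0, (D : ℕ∞) * (Bl S0 r ω).encard ≤ (r ^ 2 : ℕ)) →
        ∀ g ∈ N0, ∀ ω : Ω, g • ω = ω := by
  classical
  obtain ⟨lam, hlam, hlam'⟩ := exists_lam φ hS
  have hℓ : 1 ≤ (sysOf R).ℓ := le_trans (by norm_num) (sysOf R).two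
  refine ⟨64 * (sysOf R).ℓ ^ 2 * lam ^ 2, by positivity, fun r0 => ?_⟩
  obtain ⟨N0, h1, h2, h3⟩ := core_scheme (presOf φ hφ R hR) (Group.fg_of_surjective hφ) hNF
    (3 * r0) (r0 ^ 2 + r0)
  refine ⟨N0, h1, h2, fun Ω _ hΩ g hg ω => ?_⟩
  have hA := actOf_isAct φ R hR Ω
  have hdisc : ∀ y : Ω, ∃ s : ℕ, (sysOf R).ℓ ≤ s ∧
      (N (sysOf R) (actOf φ Ω) (LB (actOf φ Ω) s y)).encard ≤ s ∧
      (N (sysOf R) (actOf φ Ω) (LB (actOf φ Ω) s y)).encard ≤ r0 ∧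
      (LB (actOf φ Ω) s y).encard ≤ (r0 ^ 2 : ℕ) := by
    intro y
    obtain ⟨r, hr, hB⟩ := hΩ y
    have hDpos : 0 < 64 * (sysOf R).ℓ ^ 2 * lam ^ 2 := by positivity
    have hBr : (Bl S0 r y).encard ≤ (r ^ 2 : ℕ) := by
      refine le_trans ?_ hB
      have : (1 : ℕ∞) ≤ ((64 * (sysOf R).ℓ ^ 2 * lam ^ 2 : ℕ) : ℕ∞) := by exact_mod_cast hDpos
      calc (Bl S0 r y).encard = 1 * (Bl S0 r y).encard := (one_mul _).symm
        _ ≤ _ := by gcongr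
    have hfinB : (Bl S0 r y).Finite := Set.finite_of_encard_le_coe hBr
    have hsub : ∀ s, lam * s ≤ r → LB (actOf φ Ω) s y ⊆ Bl S0 r y := fun s hs =>
      (LB_Bl φ hlam' s y).trans (bl_mono hs)
    set ρ := r / (2 * lam) with hρ
    have hρr : 2 * lam * ρ ≤ r := Nat.mul_div_le r (2 * lam)
    have hsub2 : LB (actOf φ Ω) (2 * ρ) y ⊆ Bl S0 r y := hsub _ (by
      calc lam * (2 * ρ) = 2 * lam * ρ := by ring
        _ ≤ r := hρr)
    have hfin2 := hfinB.subset hsub2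
    have hnum := numbers (ℓ := (sysOf R).ℓ) (lam := lam) (r := r)
      (β := (LB (actOf φ Ω) (2 * ρ) y).ncard) hℓ hlam
      ((Set.ncard_pos hfin2).2 ⟨y, LB_self⟩) (by
        have h4 : (LB (actOf φ Ω) (2 * ρ) y).ncard ≤ (Bl S0 r y).ncard :=
          Set.ncard_le_ncard hsub2 hfinB
        rw [← hfinB.cast_ncard_eq] at hB
        have h5 : 64 * (sysOf R).ℓ ^ 2 * lam ^ 2 * (Bl S0 r y).ncard ≤ r ^ 2 := by
          exact_mod_cast hB
        exact (Nat.mul_le_mul_left _ h4).trans h5)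
    obtain ⟨s, h4, h5, h6⟩ := small_shell (S := sysOf R) hA (y := y) (ρ := ρ)
      (k := ρ / (2 * (sysOf R).ℓ)) (Nat.mul_div_le _ _) (by
        rw [← hfin2.cast_ncard_eq]
        exact_mod_cast hnum)
    have hρs : ρ ≤ s := by omega
    have hρr0 : ρ ≤ r0 := (Nat.div_le_self _ _).trans hr
    refine ⟨s, by omega, h6.trans (by exact_mod_cast hρs), h6.trans (by exact_mod_cast hρr0), ?_⟩
    refine (Set.encard_le_encard ((LB_mono h5).trans hsub2)).trans (hBr.trans ?_)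
    exact_mod_cast Nat.pow_le_pow_left hr 2
  choose s hs1 hs2 hs3 hs4 using hdisc
  let T : Discs (sysOf R) (actOf φ Ω) r0 (r0 ^ 2) := ⟨s, hs1, hs2, hs3, hs4⟩
  obtain ⟨w, rfl⟩ := (presOf φ hφ R hR).surj g
  have := h3 Ω (actOf φ Ω) hA (fun y => ⟨T.scheme (presOf φ hφ R hR) hNF hA y⟩) w hg ω
  rw [run_actOf] at this
  exact this

end Run7.h266
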