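import Pool.Agent.Run7.h266.ColorFib

/-!
# Two-colourings from thin discs
-/

set_option autoImplicit false

namespace Run7.h266

open Filter

variable {L : Type} {S : Sys L} {X : Type} {A : L → X → X}

/-- steps inside a set -/
def QS (A : L → X → X) (s : ℕ) (M : Set X) (x z : X) : Prop := x ∈ M ∧ z ∈ M ∧ z ∈ LB A s x

/-- clusters of a set -/
def QC (A : L → X → X) (s : ℕ) (M : Set X) (x : X) : Set X :=
  {z | Relation.ReflTransGen (QS A s M) x z}

theorem QC_sub {s : ℕ} {M : Set X} {x : X} : QC A s M x ⊆ insert x M := by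
  intro z hz
  induction hz with
  | refl => exact Or.inl rfl
  | tail _ h _ => exact Or.inr h.2.1

theorem QC_not_mem {s : ℕ} {M : Set X} {x : X} (hx : x ∉ M) : QC A s M x = {x} := by
  ext z
  constructor
  · intro hz
    have hz' : Relation.ReflTransGen (QS A s M) x z := hz
    rcases hz'.cases_head with h | ⟨y, h, -⟩
    · exact h.symm
    · exact absurd h.1 hx
  · rintro rfl
    exact Relation.ReflTransGen.refl

theorem steps_LB {s : ℕ} {R : X → X → Prop} (hR : ∀ x z, R x z → z ∈ LB A s x) (x : X) (k : ℕ) :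
    steps R x k ⊆ LB A (k * s) x := by
  induction k with
  | zero =>
    rintro z rfl
    exact LB_self
  | succ k ih =>
    rintro z (hz | ⟨u, hu, hRz⟩)
    · refine LB_mono ?_ (ih hz)
      exact Nat.mul_le_mul_right _ (Nat.le_succ k)
    · have := LB_trans (ih hu) (hR _ _ hRz)
      rwa [← Nat.succ_mul] at this

/-- all points are reached by `k` steps, or many points are -/
theorem reach_or {R : X → X → Prop} {x : X} (k : ℕ) :
    (∀ y, Relation.ReflTransGen R x y → y ∈ steps R x k) ∨
      ((k + 1 : ℕ) : ℕ∞) ≤ (steps R x k).encard := by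
  by_cases h : {y | Relation.ReflTransGen R x y}.encard ≤ k
  · exact Or.inl fun y hy => reach_steps h hy
  · by_cases h1 : ∀ y, Relation.ReflTransGen R x y → y ∈ steps R x k
    · exact Or.inl h1
    · right
      induction k with
      | zero => simp [steps]
      | succ k ih =>
        have h2 : ¬ {y | Relation.ReflTransGen R x y}.encard ≤ (k : ℕ∞) := by
          intro h3
          apply h
          refine h3.trans ?_
          exact_mod_cast Nat.le_succ k
        have h3 : ¬ ∀ y, Relation.ReflTransGen R x y → y ∈ steps R x k :=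
          fun h4 => h1 fun y hy => Or.inl (h4 y hy)
        have h4 := ih h2 h3
        -- some step leaves
        have h5 : ¬ ∀ z, (∃ y ∈ steps R x k, R y z) → z ∈ steps R x k := by
          intro hc
          apply h3
          intro y hy
          induction hy with
          | refl =>
            have h0 : ∀ k, x ∈ steps R x k := by
              intro k
              induction k with
              | zero => exact rfl
              | succ k ih => exact Or.inl ih
            exact h0 k
          | tail _ h1 ih1 => exact hc _ ⟨_, ih1, h1⟩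
        push Not at h5
        obtain ⟨z, ⟨y, hy1, hy2⟩, hz⟩ := h5
        have h6 : insert z (steps R x k) ⊆ steps R x (k + 1) := by
          rintro u (rfl | hu)
          · exact Or.inr ⟨y, hy1, hy2⟩
          · exact Or.inl hu
        refine le_trans ?_ (Set.encard_le_encard h6)
        rw [Set.encard_insert_of_notMem hz]
        push_cast
        push_cast at h4
        exact add_le_add_left h4 1

theorem LB_finite' [Finite L] (s : ℕ) (x : X) : (LB A s x).Finite := LB_fin A s x

/-- the finite case: a wall of minimal size has small clusters -/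
theorem papa_fin {T : ℕ} (hT : 1 ≤ T) (sy : X → ℕ)
    (h1 : ∀ y, (S.ℓ : ℕ∞) * (N S A (LB A (sy y) y)).encard ≤ sy y)
    (h2 : ∀ y, (N S A (LB A (sy y) y)).encard ≤ T) (h3 : ∀ y, (LB A (sy y) y).encard ≤ T)
    {Y : Set X} (hY : Y.Finite) : ∃ W ⊆ Y, (∀ x, (QC A S.ℓ W x).encard ≤ T) ∧
      ∀ x, (QC A S.ℓ (Y \ W) x).encard ≤ T := by
  classical
  have h1T : (1 : ℕ∞) ≤ T := by exact_mod_cast hT
  have hsing : ∀ x : X, ({x} : Set X).encard ≤ T := fun x => by rw [Set.encard_singleton]; exact h1T
  -- an admissible wall of minimal size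
  have hex : ∃ n, ∃ W ⊆ Y, (∀ x, (QC A S.ℓ (Y \ W) x).encard ≤ T) ∧ W.ncard = n := by
    refine ⟨Y.ncard, Y, subset_rfl, fun x => ?_, rfl⟩
    rw [QC_not_mem (by simp)]
    exact hsing x
  obtain ⟨W, hWY, hW1, hW2⟩ := Nat.find_spec hex
  have hmin : ∀ W' ⊆ Y, (∀ x, (QC A S.ℓ (Y \ W') x).encard ≤ T) → W.ncard ≤ W'.ncard := by
    intro W' h4 h5
    rw [hW2]
    exact Nat.find_min' hex ⟨W', h4, h5, rfl⟩
  have hWfin : W.Finite := hY.subset hWY
  refine ⟨W, hWY, ?_, hW1⟩
  intro x
  by_cases hxW : x ∉ W
  · rw [QC_not_mem hxW]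
    exact hsing x
  rw [not_not] at hxW
  set D := LB A (sy x) x with hD
  have hNfin : (N S A D).Finite := Set.finite_of_encard_le_coe (h2 x)
  -- the new wall
  have hkey : (W ∩ D).ncard ≤ (N S A D).ncard := by
    set W' := (W \ D) ∪ (N S A D ∩ Y) with hW'
    have h4 : W' ⊆ Y := by
      rintro z (hz | hz)
      · exact hWY hz.1
      · exact hz.2
    have hcol : ∀ y z, z ∈ LB A S.ℓ y → y ∉ N S A D → (z ∈ D ↔ y ∈ D) := by
      rintro y z ⟨w, hw, rfl⟩ hy
      by_contra hne
      exact hy ⟨w, hw, hne⟩
    have h5 := hmin W' h4 (by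
      intro y
      by_cases hy : y ∈ Y \ W'
      · by_cases hyD : y ∈ D
        · -- the cluster stays in the disc
          refine le_trans (Set.encard_le_encard ?_) (h3 x)
          intro z hz
          induction hz with
          | refl => exact hyD
          | @tail a b _ hab ih =>
            refine (hcol a b hab.2.2 ?_).2 ih
            intro haN
            exact hab.1.2 (Or.inr ⟨haN, hab.1.1⟩)
        · -- the cluster stays outside the disc
          refine le_trans (Set.encard_le_encard ?_) (hW1 y)
          have h6 : ∀ z, Relation.ReflTransGen (QS A S.ℓ (Y \ W')) y z →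
              z ∉ D ∧ Relation.ReflTransGen (QS A S.ℓ (Y \ W)) y z := by
            intro z hz
            induction hz with
            | refl => exact ⟨hyD, Relation.ReflTransGen.refl⟩
            | @tail a b _ hab ih =>
              have h7 : b ∉ D := by
                intro hb
                apply ih.1
                refine (hcol a b hab.2.2 ?_).1 hb
                intro haN
                exact hab.1.2 (Or.inr ⟨haN, hab.1.1⟩)
              refine ⟨h7, Relation.ReflTransGen.tail ih.2 ⟨⟨hab.1.1, fun h => ?_⟩,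
                ⟨hab.2.1.1, fun h => ?_⟩, hab.2.2⟩⟩
              · exact hab.1.2 (Or.inl ⟨h, ih.1⟩)
              · exact hab.2.1.2 (Or.inl ⟨h, h7⟩)
          exact fun z hz => (h6 z hz).2
      · rw [QC_not_mem hy]
        exact hsing y)
    have h6 : W'.ncard ≤ (W \ D).ncard + (N S A D).ncard := by
      refine (Set.ncard_union_le _ _).trans (Nat.add_le_add_left ?_ _)
      exact Set.ncard_le_ncard Set.inter_subset_left hNfin
    have h7 := Set.ncard_inter_add_ncard_sdiff_eq_ncard W D hWfin
    omega
  set th := (N S A D).ncard with hth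
  have hthle : S.ℓ * th ≤ sy x := by
    have h4 := h1 x
    rw [← hNfin.cast_ncard_eq] at h4
    exact_mod_cast h4
  -- few points of the wall in the disc, hence a small cluster
  have hsub : steps (QS A S.ℓ W) x th ⊆ W ∩ D := by
    intro z hz
    constructor
    · have h4 : z ∈ QC A S.ℓ W x := steps_sub th hz
      rcases QC_sub h4 with h5 | h5
      · rw [h5]
        exact hxW
      · exact h5
    · have h4 := steps_LB (A := A) (s := S.ℓ) (fun a b hab => hab.2.2) x th hz
      exact LB_mono (by rw [mul_comm]; exact hthle) h4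
  have hcard : (steps (QS A S.ℓ W) x th).encard ≤ th := by
    refine (Set.encard_le_encard hsub).trans ?_
    rw [← (hWfin.subset Set.inter_subset_left).cast_ncard_eq]
    exact_mod_cast hkey
  have hthT : (th : ℕ∞) ≤ T := by
    have h4 := h2 x
    rwa [← hNfin.cast_ncard_eq] at h4
  rcases reach_or (R := QS A S.ℓ W) (x := x) th with h4 | h4
  · exact (Set.encard_le_encard h4).trans (hcard.trans hthT)
  · exfalso
    have h5 := h4.trans hcard
    have h6 : th + 1 ≤ th := by exact_mod_cast h5
    omega

/-- Thin discs give a two-colouring with small clusters. -/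
theorem papa [Finite L] {T : ℕ} (hT : 1 ≤ T) (sy : X → ℕ)
    (h1 : ∀ y, (S.ℓ : ℕ∞) * (N S A (LB A (sy y) y)).encard ≤ sy y)
    (h2 : ∀ y, (N S A (LB A (sy y) y)).encard ≤ T) (h3 : ∀ y, (LB A (sy y) y).encard ≤ T) :
    ∃ W : Set X, ∀ x, (MC A S.ℓ W x).encard ≤ T := by
  classical
  choose WY hW1 hW2 hW3 using fun Y : Finset X =>
    papa_fin hT sy h1 h2 h3 Y.finite_toSet
  have hne : (atTop : Filter (Finset X)).NeBot := inferInstance
  let 𝒰 : Ultrafilter (Finset X) := Ultrafilter.of atTop
  have h𝒰 : (𝒰 : Filter (Finset X)) ≤ atTop := Ultrafilter.of_le atTop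
  let W : Set X := {x | ∀ᶠ Y in (𝒰 : Filter (Finset X)), x ∈ WY Y}
  refine ⟨W, fun x => ?_⟩
  by_contra hbig
  rw [not_le] at hbig
  -- many points are reached by few steps
  have hbig2 : ((T + 1 : ℕ) : ℕ∞) ≤ (steps (MStep A S.ℓ W) x T).encard := by
    rcases reach_or (R := MStep A S.ℓ W) (x := x) T with h4 | h4
    · have h5 : MC A S.ℓ W x ⊆ steps (MStep A S.ℓ W) x T := h4
      push_cast
      exact Order.add_one_le_of_lt (lt_of_lt_of_le hbig (Set.encard_le_encard h5))
    · exact h4
  have hQfin : (LB A (T * S.ℓ) x).Finite := LB_fin A _ x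
  have e1 : ∀ᶠ Y in (𝒰 : Filter (Finset X)), ∀ z ∈ LB A (T * S.ℓ) x, (z ∈ W ↔ z ∈ WY Y) := by
    refine (eventually_all_finite hQfin).2 fun z _ => ?_
    by_cases hz : z ∈ W
    · filter_upwards [show ∀ᶠ Y in (𝒰 : Filter (Finset X)), z ∈ WY Y from hz] with Y hY
      exact ⟨fun _ => hY, fun _ => hz⟩
    · have h4 : ¬ ∀ᶠ Y in (𝒰 : Filter (Finset X)), z ∈ WY Y := hz
      filter_upwards [Ultrafilter.eventually_not.2 h4] with Y hY
      exact ⟨fun h => absurd h hz, fun h => absurd h hY⟩
  have e2 : ∀ᶠ Y in (𝒰 : Filter (Finset X)), hQfin.toFinset ⊆ Y :=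
    h𝒰 (eventually_ge_atTop hQfin.toFinset)
  obtain ⟨Y, hY1, hY2⟩ := (e1.and e2).exists
  have hYmem : ∀ z ∈ LB A (T * S.ℓ) x, z ∈ Y := fun z hz => hY2 (by simpa using hz)
  -- the steps stay in one of the two sets
  have hcolor : ∀ M : Set X, (∀ z ∈ LB A (T * S.ℓ) x, (z ∈ W ↔ x ∈ W) → z ∈ M) →
      (QC A S.ℓ M x).encard ≤ T → False := by
    intro M hM hMc
    have h4 : ∀ k ≤ T, steps (MStep A S.ℓ W) x k ⊆ QC A S.ℓ M x := by
      intro k
      induction k with
      | zero =>
        rintro - z rfl
        exact Relation.ReflTransGen.refl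
      | succ k ih =>
        intro hk z hz
        rcases hz with hz | ⟨u, hu, hR⟩
        · exact ih (by omega) hz
        · have h5 := ih (by omega) hu
          have h6 : ∀ {j : ℕ} {v : X}, j ≤ T → v ∈ steps (MStep A S.ℓ W) x j → v ∈ M := by
            intro j v hj hv
            have h7 := steps_LB (A := A) (s := S.ℓ) (fun a b hab => hab.2) x j hv
            refine hM v (LB_mono (Nat.mul_le_mul_right _ hj) h7) ?_
            have h8 : v ∈ MC A S.ℓ W x := steps_sub j hv
            exact (MC_color h8).symm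
          refine Relation.ReflTransGen.tail h5 ⟨h6 (by omega) hu, h6 hk (Or.inr ⟨u, hu, hR⟩), hR.2⟩
    have h5 := (hbig2.trans (Set.encard_le_encard (h4 T le_rfl))).trans hMc
    have h6 : T + 1 ≤ T := by exact_mod_cast h5
    omega
  by_cases hx : x ∈ W
  · refine hcolor (WY Y) (fun z hz h => ?_) (hW2 Y x)
    exact (hY1 z hz).1 (h.2 hx)
  · refine hcolor (↑Y \ WY Y) (fun z hz h => ⟨hYmem z hz, fun h' => ?_⟩) (hW3 Y x)
    exact hx (h.1 ((hY1 z hz).2 h'))

end Run7.h266
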