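import Pool.Agent.Run7.h266.IsopG
import Pool.Agent.Run7.h266.Papa
import Pool.Agent.Run7.h266.GrowthB

/-!
# Less than quadratic growth gives two-colourings
-/

set_option autoImplicit false

namespace Run7.h266

open scoped Pointwise

section

variable {L : Type} {S : Sys L} {X : Type} {A : L → X → X}

/-- one of the shells is small -/
theorem small_shell' (hA : IsAct S A) {y : X} {ρ k th : ℕ} (hk : 2 * S.ℓ * k ≤ ρ)
    (hB : (LB A (2 * ρ) y).encard < (k * (th + 1) : ℕ)) :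
    ∃ s, ρ + S.ℓ ≤ s ∧ s ≤ 2 * ρ ∧ (N S A (LB A s y)).encard ≤ th := by
  by_contra hcon
  push Not at hcon
  have key : ∀ j ≤ k, ((j * (th + 1) : ℕ) : ℕ∞) ≤ (LB A (ρ + 2 * S.ℓ * j) y).encard := by
    intro j
    induction j with
    | zero => intro _; simp
    | succ j ih =>
      intro hj
      have h1 := ih (by omega)
      have h0 : 2 * S.ℓ * (j + 1) ≤ 2 * S.ℓ * k := Nat.mul_le_mul_left _ hj
      have h0' : 2 * S.ℓ * (j + 1) = 2 * S.ℓ * j + 2 * S.ℓ := by ring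
      have h2 := hcon (ρ + 2 * S.ℓ * j + S.ℓ) (by omega) (by omega)
      have h3 := Order.add_one_le_of_lt h2
      have h4 := N_LB (S := S) hA (s := ρ + 2 * S.ℓ * j) (y := y)
      have h5 : LB A (ρ + 2 * S.ℓ * j) y ⊆ LB A (ρ + 2 * S.ℓ * j + 2 * S.ℓ) y :=
        LB_mono (by omega)
      have h6 := Set.encard_sdiff_add_encard_of_subset h5
      have h7 : ρ + 2 * S.ℓ * (j + 1) = ρ + 2 * S.ℓ * j + 2 * S.ℓ := by ring
      rw [h7, ← h6]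
      have h8 : (((j + 1) * (th + 1) : ℕ) : ℕ∞) = ((th : ℕ∞) + 1) + ((j * (th + 1) : ℕ) : ℕ∞) := by
        push_cast
        ring
      rw [h8]
      exact add_le_add (h3.trans (Set.encard_le_encard h4)) h1
  have h1 := key k le_rfl
  have h2 : LB A (ρ + 2 * S.ℓ * k) y ⊆ LB A (2 * ρ) y := LB_mono (by omega)
  exact absurd (lt_of_le_of_lt (h1.trans (Set.encard_le_encard h2)) hB) (lt_irrefl _)

/-- the numbers -/
theorem numbers' {ℓ lam r β : ℕ} (hℓ : 1 ≤ ℓ) (hlam : 1 ≤ lam) (hβ : 1 ≤ β)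
    (h : 64 * ℓ ^ 3 * lam ^ 2 * β ≤ r ^ 2) :
    β < r / (2 * lam) / (2 * ℓ) * (r / (2 * lam) / ℓ + 1) := by
  have h1 := numbers (ℓ := ℓ) (lam := lam) (r := r) (β := ℓ * β) hℓ hlam
    (Nat.mul_pos hℓ hβ) (by
      calc 64 * ℓ ^ 2 * lam ^ 2 * (ℓ * β) = 64 * ℓ ^ 3 * lam ^ 2 * β := by ring
        _ ≤ r ^ 2 := h)
  set ρ := r / (2 * lam)
  have h2 : ρ + 1 ≤ ℓ * (ρ / ℓ + 1) := Nat.lt_mul_div_succ ρ (by omega)
  have h3 : ℓ * β < ℓ * (ρ / (2 * ℓ) * (ρ / ℓ + 1)) := by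
    calc ℓ * β < ρ / (2 * ℓ) * (ρ + 1) := h1
      _ ≤ ρ / (2 * ℓ) * (ℓ * (ρ / ℓ + 1)) := Nat.mul_le_mul_left _ h2
      _ = ℓ * (ρ / (2 * ℓ) * (ρ / ℓ + 1)) := by ring
  exact Nat.lt_of_mul_lt_mul_left h3

end

variable {G : Type} [Group G]

/-- The linear isoperimetric inequality for actions of less than quadratic growth. -/
theorem isop_growth [Group.IsFinitelyPresented G] {S0 : Set G} (hS : Subgroup.closure S0 = ⊤)
    (hfin : S0.Finite) {H : Subgroup G} (hH : H.FG) (hU : Unseen H) :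
    ∃ D : ℕ, 0 < D ∧ ∀ r0 : ℕ, ∃ C : ℕ, ∀ (Ω : Type) [MulAction G Ω],
      (∀ ω : Ω, ∃ r ≤ r0, (D : ℕ∞) * (Bl S0 r ω).encard ≤ (r ^ 2 : ℕ)) →
      ∀ Y : Set Ω, Y.Finite →
        {x | x ∈ Y ∧ (C : ℕ∞) < (MulAction.orbit H x).encard}.ncard ≤
          C * {x | x ∈ Y ∧ ∃ s ∈ S0, s • x ∉ Y ∨ s⁻¹ • x ∉ Y}.ncard := by
  classical
  obtain ⟨E, S, lam, hE, hlam, hact, hLB, hmain⟩ := isop_setup hS hfin hH hU
  have hEf : Finite E := hE.to_subtype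
  have hℓ : 1 ≤ S.ℓ := le_trans (by norm_num) S.two
  refine ⟨64 * S.ℓ ^ 3 * lam ^ 2, by positivity, fun r0 => ?_⟩
  obtain ⟨C, hC⟩ := hmain (r0 ^ 2 + r0 + 1)
  refine ⟨C, fun Ω _ hΩ Y hY => ?_⟩
  have hA := hact Ω
  have hdisc : ∀ y : Ω, ∃ s : ℕ,
      (S.ℓ : ℕ∞) * (N S (actE E Ω) (LB (actE E Ω) s y)).encard ≤ s ∧
      (N S (actE E Ω) (LB (actE E Ω) s y)).encard ≤ (r0 ^ 2 + r0 + 1 : ℕ) ∧
      (LB (actE E Ω) s y).encard ≤ (r0 ^ 2 + r0 + 1 : ℕ) := by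
    intro y
    obtain ⟨r, hr, hB⟩ := hΩ y
    have hDpos : 0 < 64 * S.ℓ ^ 3 * lam ^ 2 := by positivity
    have hBr : (Bl S0 r y).encard ≤ (r ^ 2 : ℕ) := by
      refine le_trans ?_ hB
      have : (1 : ℕ∞) ≤ ((64 * S.ℓ ^ 3 * lam ^ 2 : ℕ) : ℕ∞) := by exact_mod_cast hDpos
      calc (Bl S0 r y).encard = 1 * (Bl S0 r y).encard := (one_mul _).symm
        _ ≤ _ := by gcongr
    have hfinB : (Bl S0 r y).Finite := Set.finite_of_encard_le_coe hBr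
    have hsub : ∀ s, lam * s ≤ r → LB (actE E Ω) s y ⊆ Bl S0 r y := fun s hs =>
      (hLB Ω s y).trans (bl_mono hs)
    set ρ := r / (2 * lam) with hρ
    have hρr : 2 * lam * ρ ≤ r := Nat.mul_div_le r (2 * lam)
    have hsub2 : LB (actE E Ω) (2 * ρ) y ⊆ Bl S0 r y := hsub _ (by
      calc lam * (2 * ρ) = 2 * lam * ρ := by ring
        _ ≤ r := hρr)
    have hfin2 := hfinB.subset hsub2
    have hnum := numbers' (ℓ := S.ℓ) (lam := lam) (r := r)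
      (β := (LB (actE E Ω) (2 * ρ) y).ncard) hℓ hlam
      ((Set.ncard_pos hfin2).2 ⟨y, LB_self⟩) (by
        have h4 : (LB (actE E Ω) (2 * ρ) y).ncard ≤ (Bl S0 r y).ncard :=
          Set.ncard_le_ncard hsub2 hfinB
        rw [← hfinB.cast_ncard_eq] at hB
        have h5 : 64 * S.ℓ ^ 3 * lam ^ 2 * (Bl S0 r y).ncard ≤ r ^ 2 := by
          exact_mod_cast hB
        exact (Nat.mul_le_mul_left _ h4).trans h5)
    obtain ⟨s, h4, h5, h6⟩ := small_shell' (S := S) hA (y := y) (ρ := ρ)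
      (k := ρ / (2 * S.ℓ)) (th := ρ / S.ℓ) (Nat.mul_div_le _ _) (by
        rw [← hfin2.cast_ncard_eq]
        exact_mod_cast hnum)
    have hρs : ρ ≤ s := by omega
    have hρr0 : ρ ≤ r0 := (Nat.div_le_self _ _).trans hr
    have hthρ : ρ / S.ℓ ≤ ρ := Nat.div_le_self _ _
    refine ⟨s, ?_, ?_, ?_⟩
    · have h7 : S.ℓ * (ρ / S.ℓ) ≤ s := (Nat.mul_div_le _ _).trans hρs
      calc (S.ℓ : ℕ∞) * (N S (actE E Ω) (LB (actE E Ω) s y)).encard
          ≤ (S.ℓ : ℕ∞) * ((ρ / S.ℓ : ℕ) : ℕ∞) := by gcongr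
        _ = ((S.ℓ * (ρ / S.ℓ) : ℕ) : ℕ∞) := by push_cast; rfl
        _ ≤ s := by exact_mod_cast h7
    · refine h6.trans ?_
      have h7 : ρ / S.ℓ ≤ r0 ^ 2 + r0 + 1 := by omega
      exact_mod_cast h7
    · refine (Set.encard_le_encard ((LB_mono h5).trans hsub2)).trans (hBr.trans ?_)
      have h7 : r ^ 2 ≤ r0 ^ 2 + r0 + 1 := by
        have := Nat.pow_le_pow_left hr 2
        omega
      exact_mod_cast h7
  choose s hs1 hs2 hs3 using hdisc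
  obtain ⟨W, hW⟩ := papa (S := S) (A := actE E Ω) (T := r0 ^ 2 + r0 + 1) (by omega) s hs1 hs2 hs3
  exact hC Ω W hW Y hY

end Run7.h266
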