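import Pool.Agent.Run7.h266.Front

/-!
# From finite presentations to systems of words
-/

set_option autoImplicit false

namespace Run7.h266

open Pool.Agent.H785R3.GrowthA
open scoped Pointwise

/-- the system of a finite presentation -/
noncomputable def sysOf {n : ℕ} (R : Finset (FreeGroup (Fin n))) : Sys (Fin n × Bool) where
  inv := fun a => (a.1, !a.2)
  R := {w | ∃ r ∈ R, w = r.toWord} ∪ {w | ∃ a : Fin n × Bool, w = [(a.1, !a.2), a]}
  ℓ := R.sup (fun r => r.toWord.length) + 2
  inv_inv := fun a => by simp
  invR := fun a => Or.inr ⟨a, rfl⟩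
  len := by
    rintro w (⟨r, hr, rfl⟩ | ⟨a, rfl⟩)
    · exact (Finset.le_sup (f := fun r : FreeGroup (Fin n) => r.toWord.length) hr).trans
        (Nat.le_add_right _ _)
    · simp
  two := Nat.le_add_left _ _

variable {G : Type} [Group G]

/-- the presentation of `G` in terms of words -/
noncomputable def presOf {n : ℕ} (φ : FreeGroup (Fin n) →* G) (hφ : Function.Surjective φ)
    (R : Finset (FreeGroup (Fin n))) (hR : Subgroup.normalClosure (R : Set (FreeGroup (Fin n))) =
      φ.ker) : Pres (sysOf R) G where
  val := fun w => φ (FreeGroup.mk w)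
  val_append := fun u v => by rw [← FreeGroup.mul_mk, map_mul]
  surj := fun g => by
    obtain ⟨x, rfl⟩ := hφ g
    exact ⟨x.toWord, by
      show φ (FreeGroup.mk x.toWord) = φ x
      rw [FreeGroup.mk_toWord]⟩
  lift := by
    intro X A hA
    let e : Fin n → Equiv.Perm X := fun i =>
      { toFun := A (i, true)
        invFun := A (i, false)
        left_inv := fun z => hA.inv_left (i, true) z
        right_inv := fun z => hA.inv_left (i, false) z }
    let Ψ : FreeGroup (Fin n) →* Equiv.Perm X := FreeGroup.lift e
    have hΨ : ∀ (w : List (Fin n × Bool)) (z : X), Ψ (FreeGroup.mk w) z = run A w z := by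
      intro w
      induction w with
      | nil =>
        intro z
        show FreeGroup.lift e (FreeGroup.mk []) z = z
        rw [FreeGroup.lift_mk]
        simp
      | cons a w ih =>
        intro z
        rw [run_cons, ← ih z]
        show FreeGroup.lift e (FreeGroup.mk (a :: w)) z = A a (FreeGroup.lift e (FreeGroup.mk w) z)
        rw [FreeGroup.lift_mk, FreeGroup.lift_mk, List.map_cons, List.prod_cons,
          Equiv.Perm.mul_apply]
        rcases a with ⟨i, _ | _⟩
        · rfl
        · rfl
    have hker : φ.ker ≤ Ψ.ker := by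
      rw [← hR]
      refine Subgroup.normalClosure_le_normal ?_
      intro r hr
      rw [SetLike.mem_coe, MonoidHom.mem_ker]
      ext z
      have h1 := hA r.toWord (Or.inl ⟨r, hr, rfl⟩) z
      rw [← hΨ, FreeGroup.mk_toWord] at h1
      exact h1
    refine ⟨φ.liftOfSurjective hφ ⟨Ψ, hker⟩, fun w z => ?_⟩
    have h1 := MonoidHom.liftOfRightInverse_comp_apply φ (Function.surjInv hφ)
      (Function.rightInverse_surjInv hφ) ⟨Ψ, hker⟩ (FreeGroup.mk w)
    rw [← hΨ]
    exact congrArg (fun σ : Equiv.Perm X => σ z) h1

/-- the action of the letters -/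
noncomputable def actOf {n : ℕ} (φ : FreeGroup (Fin n) →* G) (Ω : Type) [MulAction G Ω]
    (a : Fin n × Bool) (z : Ω) : Ω := φ (FreeGroup.mk [a]) • z

theorem run_actOf {n : ℕ} (φ : FreeGroup (Fin n) →* G) {Ω : Type} [MulAction G Ω]
    (w : List (Fin n × Bool)) (z : Ω) : run (actOf φ Ω) w z = φ (FreeGroup.mk w) • z := by
  induction w with
  | nil =>
    have : φ (FreeGroup.mk []) = 1 := map_one φ
    rw [this, one_smul]
    rfl
  | cons a w ih =>
    rw [run_cons, ih, actOf, smul_smul, ← map_mul, FreeGroup.mul_mk]
    rfl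

theorem actOf_isAct {n : ℕ} (φ : FreeGroup (Fin n) →* G)
    (R : Finset (FreeGroup (Fin n))) (hR : Subgroup.normalClosure (R : Set (FreeGroup (Fin n))) =
      φ.ker) (Ω : Type) [MulAction G Ω] : IsAct (sysOf R) (actOf φ Ω) := by
  rintro w (⟨r, hr, rfl⟩ | ⟨a, rfl⟩) z
  · rw [run_actOf, FreeGroup.mk_toWord]
    have h1 : r ∈ φ.ker := by
      rw [← hR]
      exact Subgroup.subset_normalClosure hr
    rw [MonoidHom.mem_ker] at h1
    rw [h1, one_smul]
  · rw [run_actOf]
    have h1 : (FreeGroup.mk [(a.1, !a.2), a] : FreeGroup (Fin n)) = 1 := by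
      have h2 : (FreeGroup.mk [(a.1, !a.2), a] : FreeGroup (Fin n)) =
          (FreeGroup.mk [a])⁻¹ * FreeGroup.mk [a] := by
        rw [FreeGroup.inv_mk, FreeGroup.mul_mk]
        rfl
      rw [h2, inv_mul_cancel]
    rw [h1, map_one, one_smul]

/-- if no pair of elements generates a free semigroup of rank two -/
theorem not_freePair (h : ¬ ∃ a b : G, Function.Injective (FreeSemigroup.lift (![a, b] : Fin 2 → G)))
    (a b : G) : ¬ FreePair a b := by
  intro hab
  apply h
  refine ⟨a, b, ?_⟩
  -- the word of an element of the free semigroup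
  let wd : FreeSemigroup (Fin 2) → List Bool := fun x => (x.head :: x.tail).map (fun i => i == 1)
  have hwd : Function.Injective wd := by
    intro x y hxy
    have hinj : Function.Injective (fun i : Fin 2 => i == 1) := by
      intro i j hij
      fin_cases i <;> fin_cases j <;> simp_all
    have h1 := (List.map_injective_iff.2 hinj) hxy
    rw [List.cons.injEq] at h1
    exact FreeSemigroup.ext h1.1 h1.2
  have hev : ∀ x : FreeSemigroup (Fin 2), FreeSemigroup.lift (![a, b] : Fin 2 → G) x = ev a b (wd x) := by
    intro x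
    induction x using FreeSemigroup.recOnMul with
    | ih1 i =>
      rw [FreeSemigroup.lift_of]
      fin_cases i <;> simp [wd, ev, FreeSemigroup.of]
    | ih2 i y h1 h2 =>
      rw [map_mul, h1, h2]
      simp [wd, ev, FreeSemigroup.head_mul, FreeSemigroup.tail_mul]
  intro x y hxy
  rw [hev, hev] at hxy
  by_contra hne
  have hne' : wd x ≠ wd y := fun h => hne (hwd h)
  exact Pool.Agent.N6.W.homog a b (wd x) (wd y) hne' hxy hab

end Run7.h266
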