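import Pool.Agent.Run7.h266.Act

/-!
# Finding connected subsets with small collars
-/

set_option autoImplicit false

namespace Run7.h266

variable {L : Type} {S : Sys L} {X : Type} {A : L → X → X}

/-- first entry into `C` -/
theorem first_entry {M C : Set X} {z : X} {w : List L} (h : Path A M z w) (hz : z ∉ C) :
    Path A (M \ C) z w ∨ ∃ (u : List L) (a : L), Path A (M \ C) z u ∧ A a (run A u z) ∈ C ∧
      A a (run A u z) ∈ M ∧ (a :: u) <:+ w := by
  induction h with
  | nil h => exact Or.inl (Path.nil ⟨h, hz⟩)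
  | @cons w a h1 h2 ih =>
    rcases ih with ih | ⟨u, b, h3, h4, h5, h6⟩
    · by_cases h3 : A a (run A w z) ∈ C
      · exact Or.inr ⟨w, a, ih, h3, h2, List.suffix_refl _⟩
      · exact Or.inl (Path.cons a ih ⟨h2, h3⟩)
    · exact Or.inr ⟨u, b, h3, h4, h5, h6.trans (List.suffix_cons _ _)⟩

theorem Conn.entry {M C : Set X} {z z' : X} (h : Conn A M z z') (hz : z ∉ C) (hz' : z' ∈ C) :
    ∃ (u : List L) (a : L), Path A (M \ C) z u ∧ A a (run A u z) ∈ C ∧ A a (run A u z) ∈ M := by
  obtain ⟨w, h, rfl⟩ := h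
  rcases first_entry h hz with h1 | ⟨u, a, h1, h2, h3, -⟩
  · exact absurd hz' h1.last.2
  · exact ⟨u, a, h1, h2, h3⟩

/-- the component of `z` in `M` -/
def comp (A : L → X → X) (M : Set X) (z : X) : Set X := {z' | Conn A M z z'}

theorem comp_sub {M : Set X} {z : X} : comp A M z ⊆ M := fun _ h => h.mem_right

theorem comp_conn_left {M : Set X} {z z' : X} (h : z' ∈ comp A M z) :
    Conn A (comp A M z) z z' := by
  obtain ⟨w, h, rfl⟩ := h
  refine ⟨w, Path.of_suffix fun w' hw' => ?_, rfl⟩
  obtain ⟨t, rfl⟩ := hw'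
  have : ∀ t, Path A M z (t ++ w') → Path A M z w' := by
    intro t
    induction t with
    | nil => exact fun h => h
    | cons a t ih =>
      intro h
      rw [List.cons_append] at h
      cases h with
      | cons _ h _ => exact ih h
  exact ⟨w', this t h, rfl⟩

theorem comp_conn (hA : IsAct S A) {M : Set X} {z z' z'' : X} (h : z' ∈ comp A M z)
    (h' : z'' ∈ comp A M z) : Conn A (comp A M z) z' z'' :=
  ((comp_conn_left h).symm hA).trans (comp_conn_left h')

theorem comp_step (hA : IsAct S A) {M : Set X} {z x : X} {a : L} (hx : x ∈ M) (hx' : A a x ∈ M) :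
    x ∈ comp A M z ↔ A a x ∈ comp A M z := by
  constructor
  · intro h
    exact Conn.step h a hx'
  · intro h
    have h2 : Conn A M (A a x) x := by
      refine ⟨[S.inv a], Path.cons _ (Path.nil hx') ?_, ?_⟩
      · simp only [run_nil, hA.inv_left]
        exact hx
      · simp only [run_cons, run_nil, hA.inv_left]
    exact Conn.trans h h2

/-- the set of the points within distance `ℓ` -/
def ball (S : Sys L) (A : L → X → X) (F : Set X) : Set X :=
  (fun p : List L × X => run A p.1 p.2) '' ({w : List L | w.length ≤ S.ℓ} ×ˢ F)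

theorem mem_ball {F : Set X} {z : X} (hz : z ∈ F) {w : List L} (hw : w.length ≤ S.ℓ) :
    run A w z ∈ ball S A F := ⟨(w, z), ⟨hw, hz⟩, rfl⟩

theorem sub_ball {F : Set X} {z : X} (hz : z ∈ F) : z ∈ ball S A F :=
  mem_ball (w := []) hz (Nat.zero_le _)

/-- the number of short words -/
noncomputable def Sys.bsz (S : Sys L) : ℕ := Set.ncard {w : List L | w.length ≤ S.ℓ}

theorem ball_encard [Finite L] {F : Set X} {m : ℕ} (h : F.encard ≤ m) :
    (ball S A F).encard ≤ (S.bsz * m : ℕ) := by
  refine (Set.encard_image_le _ _).trans ?_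
  rw [Set.encard_prod]
  have h1 : ({w : List L | w.length ≤ S.ℓ}).Finite := List.finite_length_le L S.ℓ
  rw [← h1.cast_ncard_eq]
  push_cast
  exact mul_le_mul_right h _

/-- the separation property -/
def Sep (S : Sys L) (A : L → X → X) (m q : ℕ) (n N' : ℕ∞) : Prop :=
  ∀ K E : Set X, K.encard ≤ q → N' ≤ E.encard → (∀ z ∈ E, ∀ z' ∈ E, Conn A Set.univ z z') →
    ∃ V : Set X, (∀ z ∈ V, z ∉ K) ∧ (N S A V).encard ≤ m ∧ n ≤ (V ∩ E).encard

theorem pigeon {n : ℕ∞} {C : X → Set X} (F : Finset X) (hF : F.Nonempty)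
    (h : ∀ p ∈ F, (C p).encard < n) : (⋃ p ∈ F, C p).encard < F.card * n := by
  classical
  induction hF using Finset.Nonempty.cons_induction with
  | singleton a =>
    simp only [Finset.mem_singleton, Set.iUnion_iUnion_eq_left, Finset.card_singleton, Nat.cast_one,
      one_mul]
    exact h a (Finset.mem_singleton_self a)
  | cons a s has hs ih =>
    have h1 := ih fun p hp => h p (Finset.mem_cons_of_mem hp)
    have h2 := h a (Finset.mem_cons_self a s)
    rw [Finset.card_cons]
    have h3 : (⋃ p ∈ Finset.cons a s has, C p) = C a ∪ ⋃ p ∈ s, C p := by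
      ext x
      simp
    rw [h3]
    refine (Set.encard_union_le _ _).trans_lt ?_
    push_cast
    rw [add_mul, one_mul, add_comm]
    exact ENat.add_lt_add h1 h2

/-- the sub-site lemma -/
theorem exists_sub [Finite L] (hA : IsAct S A) {m m' q q' : ℕ} {n N' : ℕ∞} (hm : 0 < m)
    (hn : n ≠ 0) (hsep : Sep S A m q' (m * n) N') (hq : q + 1 + S.bsz * m' ≤ q') {W K : Set X}
    {e : X} (hW : ∀ z ∈ W, ∀ z' ∈ W, Conn A W z z') (hNW : (N S A W).encard ≤ m')
    (hWn : N' ≤ W.encard) (hK : K.encard ≤ q) (he : e ∈ W) :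
    ∃ V : Set X, V ⊆ W ∧ (∀ z ∈ V, z ∉ K) ∧ (∀ z ∈ V, ∀ z' ∈ V, Conn A V z z') ∧
      n ≤ V.encard ∧ (N S A V).encard ≤ m ∧ (∀ z ∈ N S A V, z ∉ N S A W) ∧ e ∉ V ∧
      ∃ (u : List L) (a : L), Path A (W \ V) e u ∧ A a (run A u e) ∈ V := by
  classical
  obtain ⟨V', hV'K, hV'N, hV'n⟩ := hsep (K ∪ {e} ∪ ball S A (N S A W)) W (by
    refine (Set.encard_union_le _ _).trans ?_
    refine (add_le_add ((Set.encard_union_le _ _).trans (add_le_add hK le_rfl))
      (ball_encard hNW)).trans ?_
    rw [Set.encard_singleton]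
    exact_mod_cast hq) hWn (fun z hz z' hz' => (hW z hz z' hz').mono (Set.subset_univ _))
  have hb : ∀ z ∈ V', z ∉ ball S A (N S A W) := fun z hz h => hV'K z hz (Or.inr h)
  have heV : e ∉ V' := fun h => hV'K e h (Or.inl (Or.inr rfl))
  have hKV : ∀ z ∈ V', z ∉ K := fun z hz h => hV'K z hz (Or.inl (Or.inl h))
  -- every component meets the collar of `V'`
  have hmeet : ∀ z ∈ V' ∩ W, ∃ p ∈ N S A V', z ∈ comp A (V' ∩ W) p := by
    intro z hz
    have hzc : z ∈ comp A (V' ∩ W) z := Conn.refl hz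
    obtain ⟨u, a, h1, h2, h3⟩ := (hW e he z hz.2).entry
      (C := comp A (V' ∩ W) z) (fun h => heV (comp_sub h).1) hzc
    have h4 : run A u e ∉ V' := by
      intro h4
      exact h1.last.2 ((comp_step (M := V' ∩ W) hA ⟨h4, h1.last.1⟩ (comp_sub h2)).2 h2)
    refine ⟨A a (run A u e), (mem_N_of_step hA (U := V') (z := run A u e) ?_).2, ?_⟩
    · have := (comp_sub h2).1
      tauto
    · exact Conn.symm hA h2
  have hfinN : (N S A V').Finite := Set.finite_of_encard_le_coe hV'N
  obtain ⟨p, hp, hpn⟩ : ∃ p ∈ N S A V', n ≤ (comp A (V' ∩ W) p).encard := by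
    by_contra hcon
    push Not at hcon
    have h1 : V' ∩ W ⊆ ⋃ p ∈ hfinN.toFinset, comp A (V' ∩ W) p := by
      intro z hz
      obtain ⟨p, hp, hzp⟩ := hmeet z hz
      simp only [Set.mem_iUnion]
      exact ⟨p, hfinN.mem_toFinset.2 hp, hzp⟩
    have hmn : (0 : ℕ∞) < m * n := by
      rw [pos_iff_ne_zero]
      simp only [ne_eq, mul_eq_zero, Nat.cast_eq_zero, hn, or_false]
      omega
    have hne : hfinN.toFinset.Nonempty := by
      rw [Finset.nonempty_iff_ne_empty]
      intro h0
      rw [h0] at h1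
      simp only [Finset.notMem_empty, Set.iUnion_of_empty, Set.iUnion_empty] at h1
      have h2 : V' ∩ W = ∅ := Set.subset_empty_iff.1 h1
      rw [h2, Set.encard_empty] at hV'n
      exact absurd hV'n (not_le.2 hmn)
    have h2 := pigeon hfinN.toFinset hne (n := n) (C := comp A (V' ∩ W))
      (fun p hp => hcon p (hfinN.mem_toFinset.1 hp))
    have h3 := hV'n.trans (Set.encard_le_encard h1)
    have h4 : (hfinN.toFinset.card : ℕ∞) ≤ m := by
      rw [← Set.encard_coe_eq_coe_finsetCard, hfinN.coe_toFinset]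
      exact hV'N
    exact absurd (h3.trans_lt h2) (not_lt.2 (mul_le_mul_left h4 n))
  set C := comp A (V' ∩ W) p with hC
  have hCV : C ⊆ V' := fun z hz => (comp_sub hz).1
  have hCW : C ⊆ W := fun z hz => (comp_sub hz).2
  have hCne : C.Nonempty := by
    rw [← Set.encard_pos]
    exact lt_of_lt_of_le (pos_iff_ne_zero.2 hn) hpn
  -- steps inside `V'`
  have hstep : ∀ (a : L) (z : X), z ∈ V' → A a z ∈ V' → (z ∈ C ↔ A a z ∈ C) := by
    intro a z hz haz
    have h1 : z ∈ W ↔ A a z ∈ W := by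
      by_contra h2
      have h3 : ¬ (A a z ∈ W ↔ z ∈ W) := fun h => h2 h.symm
      exact hb z hz (sub_ball (mem_N_of_step hA h3).1)
    by_cases h2 : z ∈ W
    · exact comp_step hA ⟨hz, h2⟩ ⟨haz, h1.1 h2⟩
    · constructor
      · intro h
        exact absurd (hCW h) h2
      · intro h
        exact absurd (h1.2 (hCW h)) h2
  have hNC : N S A C ⊆ N S A V' := by
    rintro z ⟨w, hw, hz⟩
    by_cases hzV : z ∈ V'
    · by_contra hno
      have hall : ∀ w', w' <:+ w → run A w' z ∈ V' := by
        intro w' hw'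
        by_contra h
        exact hno ⟨w', hw'.length_le.trans hw, by tauto⟩
      have : ∀ w', w' <:+ w → (run A w' z ∈ C ↔ z ∈ C) := by
        intro w'
        induction w' with
        | nil => exact fun _ => Iff.rfl
        | cons a w' ih =>
          intro h
          have h1 : w' <:+ w := (List.suffix_cons a w').trans h
          rw [← ih h1, run_cons]
          exact (hstep a _ (hall w' h1) (hall _ h)).symm
      exact hz (this w (List.suffix_refl w))
    · have h1 : z ∉ C := fun h => hzV (hCV h)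
      have h2 : run A w z ∈ C := by tauto
      exact ⟨w, hw, by have := hCV h2; tauto⟩
  refine ⟨C, hCW, fun z hz => hKV z (hCV hz), fun z hz z' hz' => comp_conn hA hz hz', hpn,
    (Set.encard_le_encard hNC).trans hV'N, ?_, fun h => heV (hCV h), ?_⟩
  · rintro z ⟨w, hw, hz⟩ hzW
    by_cases hzC : z ∈ C
    · exact hb z (hCV hzC) (sub_ball hzW)
    · have h2 : run A w z ∈ C := by tauto
      exact hb _ (hCV h2) (mem_ball hzW hw)
  · obtain ⟨z, hz⟩ := hCne
    obtain ⟨u, a, h1, h2, -⟩ := (hW e he z (hCW hz)).entry (fun h => heV (hCV h)) hz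
    exact ⟨u, a, h1, h2⟩

end Run7.h266
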