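import Pool.Agent.Run7.h266.Free
import Pool.Agent.Run7.h266.Sub

/-!
# Cut holonomy

A subset `C` of a `G`-set gives a cocycle with values in the free group on the components of its
collar. If `C` and its complement are connected and the collar has three components, then there is a
free subsemigroup.
-/

set_option autoImplicit false

namespace Run7.h266

open Pool.Agent.H785R3.GrowthA

variable {L : Type} {S : Sys L} {X : Type} {A : L → X → X}

theorem comp_eq (hA : IsAct S A) {M : Set X} {z z' : X} (h : Conn A M z z') :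
    comp A M z' = comp A M z := by
  ext x
  exact ⟨fun h' => h.trans h', fun h' => (h.symm hA).trans h'⟩

open Classical in
/-- the letter of a step across the boundary of `C` -/
noncomputable def hs (S : Sys L) (A : L → X → X) (C : Set X) (a : L) (y : X) :
    FreeGroup (Set X) :=
  if y ∈ C then (if A a y ∈ C then 1 else FreeGroup.of (comp A (N S A C) y))
  else (if A a y ∈ C then (FreeGroup.of (comp A (N S A C) y))⁻¹ else 1)

/-- the holonomy along a path -/
noncomputable def hol (S : Sys L) (A : L → X → X) (C : Set X) : List L → X → FreeGroup (Set X)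
  | [], _ => 1
  | a :: w, y => hs S A C a (run A w y) * hol S A C w y

theorem hol_append (C : Set X) (u v : List L) (y : X) :
    hol S A C (u ++ v) y = hol S A C u (run A v y) * hol S A C v y := by
  induction u with
  | nil => simp [hol]
  | cons a u ih =>
    rw [List.cons_append, hol, hol, ih, run_append, mul_assoc]

/-- the action on the covering -/
noncomputable def hact (S : Sys L) (A : L → X → X) (C : Set X) (a : L)
    (p : X × FreeGroup (Set X)) : X × FreeGroup (Set X) :=
  (A a p.1, hs S A C a p.1 * p.2)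

theorem run_hact (C : Set X) (w : List L) (y : X) (γ : FreeGroup (Set X)) :
    run (hact S A C) w (y, γ) = (run A w y, hol S A C w y * γ) := by
  induction w with
  | nil => simp [hol]
  | cons a w ih => rw [run_cons, ih, hact, run_cons, hol, mul_assoc]

theorem hol_in {C : Set X} {w : List L} {y : X} (h : Path A C y w) : hol S A C w y = 1 := by
  induction h with
  | nil _ => rfl
  | cons a h1 h2 ih => rw [hol, ih, mul_one, hs, if_pos h1.last, if_pos h2]

theorem hol_out {C : Set X} {w : List L} {y : X} (h : Path A Cᶜ y w) : hol S A C w y = 1 := by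
  induction h with
  | nil _ => rfl
  | cons a h1 h2 ih => rw [hol, ih, mul_one, hs, if_neg h1.last, if_neg h2]

open Classical in
/-- the potential in a component of the collar -/
noncomputable def pot (C : Set X) (κ : Set X) (z : X) : FreeGroup (Set X) :=
  if z ∈ C then 1 else FreeGroup.of κ

theorem hol_collar (hA : IsAct S A) {C : Set X} {w : List L} {y : X}
    (h : Path A (N S A C) y w) : hol S A C w y =
      pot C (comp A (N S A C) y) (run A w y) * (pot C (comp A (N S A C) y) y)⁻¹ := by
  induction h with
  | nil _ => simp [hol]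
  | @cons w a h1 h2 ih =>
    rw [hol, ih, run_cons]
    have hc : comp A (N S A C) (run A w y) = comp A (N S A C) y := comp_eq hA ⟨w, h1, rfl⟩
    have : hs S A C a (run A w y) = pot C (comp A (N S A C) y) (A a (run A w y)) *
        (pot C (comp A (N S A C) y) (run A w y))⁻¹ := by
      rw [hs, hc, pot, pot]
      by_cases h3 : run A w y ∈ C <;> by_cases h4 : A a (run A w y) ∈ C <;> simp [h3, h4]
    rw [this]
    group

theorem hact_act (hA : IsAct S A) (C : Set X) : IsAct S (hact S A C) := by
  rintro w hw ⟨y, γ⟩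
  rw [run_hact, hA w hw]
  suffices h : hol S A C w y = 1 by rw [h, one_mul]
  by_cases hall : ∀ w', w' <:+ w → (run A w' y ∈ C ↔ y ∈ C)
  · by_cases hy : y ∈ C
    · exact hol_in (Path.of_suffix fun w' hw' => (hall w' hw').2 hy)
    · exact hol_out (Path.of_suffix fun w' hw' h => hy ((hall w' hw').1 h))
  · push Not at hall
    obtain ⟨w0, hw0, h0⟩ := hall
    have h0' : ¬ (run A w0 y ∈ C ↔ y ∈ C) := by tauto
    have hp : Path A (N S A C) y w :=
      Path.of_suffix fun w' hw' => suffix_mem_N hA (S.len w hw) hw0 h0' hw'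
    rw [hol_collar hA hp, hA w hw, mul_inv_cancel]

/-- both sides are met by each component of the collar -/
theorem collar_sides (hA : IsAct S A) {C : Set X} {p : X} (hp : p ∈ N S A C) :
    ∃ u v, u ∈ C ∧ v ∉ C ∧ Conn A (N S A C) p u ∧ Conn A (N S A C) p v := by
  obtain ⟨w, hw, h⟩ := hp
  have hpath : Path A (N S A C) p w :=
    Path.of_suffix fun w' hw' => suffix_mem_N hA hw (List.suffix_refl w) h hw'
  have h1 : Conn A (N S A C) p (run A w p) := ⟨w, hpath, rfl⟩
  have h2 : Conn A (N S A C) p p := Conn.refl hpath.start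
  by_cases h3 : p ∈ C
  · exact ⟨p, run A w p, h3, by tauto, h2, h1⟩
  · exact ⟨run A w p, p, by tauto, h3, h1, h2⟩

/-- the list of letters of a word in two elements -/
def blocks {E : Type} (k k0 k1 : E) : List Bool → List (E × Bool)
  | [] => []
  | i :: l => (k, true) :: (if i then k1 else k0, false) :: blocks k k0 k1 l

theorem blocks_reduced {E : Type} {k k0 k1 : E} (h0 : k ≠ k0) (h1 : k ≠ k1) (l : List Bool) :
    FreeGroup.IsReduced (blocks k k0 k1 l) := by
  induction l with
  | nil => exact FreeGroup.IsReduced.nil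
  | cons i l ih =>
    have h2 : k ≠ (if i then k1 else k0) := by cases i <;> simp [h0, h1]
    rw [blocks, FreeGroup.isReduced_cons_cons]
    refine ⟨fun h => absurd h h2, ?_⟩
    rcases l with _ | ⟨j, l⟩
    · exact FreeGroup.IsReduced.singleton
    · rw [blocks, FreeGroup.isReduced_cons_cons]
      exact ⟨fun h => absurd h.symm h2, by rwa [blocks] at ih⟩

theorem blocks_inj {E : Type} {k k0 k1 : E} (h01 : k0 ≠ k1) :
    Function.Injective (blocks k k0 k1) := by
  intro l
  induction l with
  | nil =>
    intro l' h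
    rcases l' with _ | ⟨i, l'⟩
    · rfl
    · simp [blocks] at h
  | cons i l ih =>
    intro l' h
    rcases l' with _ | ⟨j, l'⟩
    · simp [blocks] at h
    · simp only [blocks, List.cons.injEq, Prod.mk.injEq, and_true, true_and] at h
      have h2 := ih h.2
      have h3 : i = j := by
        have h4 := h.1
        cases i <;> cases j
        · rfl
        · exact absurd h4 (by simpa using h01)
        · exact absurd h4.symm (by simpa using h01)
        · rfl
      rw [h2, h3]

/-- two loops with holonomies `k k0⁻¹` and `k k1⁻¹` -/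
theorem free_of_hol {G : Type} [Group G] (P : Pres S G) (hA : IsAct S A) {C : Set X} {v : X}
    {k k0 k1 : Set X} (h0 : k ≠ k0) (h1 : k ≠ k1) (h01 : k0 ≠ k1) {w0 w1 : List L}
    (r0 : run A w0 v = v) (r1 : run A w1 v = v)
    (e0 : hol S A C w0 v = FreeGroup.of k * (FreeGroup.of k0)⁻¹)
    (e1 : hol S A C w1 v = FreeGroup.of k * (FreeGroup.of k1)⁻¹) :
    FreePair (P.val w0) (P.val w1) := by
  obtain ⟨ρ, hρ⟩ := P.lift _ _ (hact_act (S := S) hA C)
  intro l l' _ hll
  have key : ∀ l : List Bool, ρ (ev (P.val w0) (P.val w1) l) (v, 1) =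
      (v, FreeGroup.mk (blocks k k0 k1 l)) := by
    intro l
    induction l with
    | nil => simp [ev, blocks]; rfl
    | cons i l ih =>
      have h5 : ev (P.val w0) (P.val w1) (i :: l) =
          (if i then P.val w1 else P.val w0) * ev (P.val w0) (P.val w1) l := by
        simp [ev]
      rw [h5, map_mul, Equiv.Perm.mul_apply, ih]
      have h6 : FreeGroup.mk (blocks k k0 k1 (i :: l)) =
          FreeGroup.of k * (FreeGroup.of (if i then k1 else k0))⁻¹ *
            FreeGroup.mk (blocks k k0 k1 l) := by
        rw [blocks, FreeGroup.of, FreeGroup.of, FreeGroup.inv_mk, FreeGroup.mul_mk,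
          FreeGroup.mul_mk]
        rfl
      rw [h6]
      cases i
      · simp only [Bool.false_eq_true, if_false]
        rw [hρ, run_hact, r0, e0]
      · simp only [if_true]
        rw [hρ, run_hact, r1, e1]
  have h7 := key l
  rw [hll, key l'] at h7
  have h8 := (Prod.mk.injEq _ _ _ _).mp h7
  have h9 := FreeGroup.reduce.sound h8.2
  rw [(blocks_reduced h0 h1 l).reduce_eq, (blocks_reduced h0 h1 l').reduce_eq] at h9
  exact (blocks_inj h01 h9).symm

/-- the collar of a connected set with connected complement has at most two components -/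
theorem two_comps {G : Type} [Group G] (P : Pres S G) (hNF : ∀ a b : G, ¬ FreePair a b)
    (hA : IsAct S A) {C V : Set X} (hC : ∀ z ∈ C, ∀ z' ∈ C, Conn A C z z')
    (hV : ∀ z ∈ V, ∀ z' ∈ V, Conn A V z z') (hCV : ∀ z ∈ V, z ∉ C)
    (hcov : ∀ z ∈ N S A C, z ∈ C ∨ z ∈ V) {p p0 p1 : X} (hp : p ∈ N S A C)
    (hp0 : p0 ∈ N S A C) (hp1 : p1 ∈ N S A C) :
    Conn A (N S A C) p p0 ∨ Conn A (N S A C) p p1 ∨ Conn A (N S A C) p0 p1 := by
  by_contra hcon
  push Not at hcon
  obtain ⟨n0, n1, n01⟩ := hcon
  obtain ⟨u, v, hu, hv, cu, cv⟩ := collar_sides hA hp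
  have hvV : v ∈ V := (hcov v cv.mem_right).resolve_left hv
  set k := comp A (N S A C) p with hk
  -- the loops
  have loop : ∀ q, q ∈ N S A C → ∃ w : List L, run A w v = v ∧
      hol S A C w v = FreeGroup.of k * (FreeGroup.of (comp A (N S A C) q))⁻¹ := by
    intro q hq
    obtain ⟨u', v', hu', hv', cu', cv'⟩ := collar_sides hA hq
    have hvV' : v' ∈ V := (hcov v' cv'.mem_right).resolve_left hv'
    obtain ⟨x1, px1, rx1⟩ := hV v hvV v' hvV'
    obtain ⟨x2, px2, rx2⟩ := (cv'.symm hA).trans cu'
    obtain ⟨x3, px3, rx3⟩ := hC u' hu' u hu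
    obtain ⟨x4, px4, rx4⟩ := (cu.symm hA).trans cv
    refine ⟨x4 ++ (x3 ++ (x2 ++ x1)), ?_, ?_⟩
    · rw [run_append, run_append, run_append, rx1, rx2, rx3, rx4]
    · rw [hol_append, run_append, run_append, rx1, rx2, rx3, hol_append, run_append, rx1, rx2,
        hol_append, rx1]
      rw [hol_out (px1.mono fun z hz => hCV z hz), hol_in px3, hol_collar hA px2,
        hol_collar hA px4, rx2, rx4]
      have e1 : comp A (N S A C) v' = comp A (N S A C) q := comp_eq hA cv'
      have e2 : comp A (N S A C) u = k := comp_eq hA cu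
      rw [e1, e2]
      simp [pot, hu, hv, hu', hv']
  obtain ⟨w0, r0, e0⟩ := loop p0 hp0
  obtain ⟨w1, r1, e1⟩ := loop p1 hp1
  have ne : ∀ q q', q' ∈ N S A C → ¬ Conn A (N S A C) q q' →
      comp A (N S A C) q ≠ comp A (N S A C) q' := by
    intro q q' hq' hn h
    have h1 : q' ∈ comp A (N S A C) q' := Conn.refl hq'
    rw [← h] at h1
    exact hn h1
  exact hNF _ _ (free_of_hol P hA (ne p p0 hp0 n0) (ne p p1 hp1 n1) (ne p0 p1 hp1 n01)
    r0 r1 e0 e1)

end Run7.h266
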