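import Pool.Agent.Run7.h266.Fin

/-!
# Infinite orbits
-/

set_option autoImplicit false

namespace Run7.h266

open Pool.Agent.H785R3.GrowthA
open scoped commutatorElement

variable {L : Type} {S : Sys L} {X : Type} {A : L → X → X}

theorem N_comp (hA : IsAct S A) (M : Set X) (p : X) : N S A (comp A M p) ⊆ N S A M := by
  rintro z ⟨w, hw, hz⟩
  by_cases hzM : z ∈ M
  · by_contra hno
    have hall : ∀ w', w' <:+ w → run A w' z ∈ M := by
      intro w' hw'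
      by_contra h
      exact hno ⟨w', hw'.length_le.trans hw, by tauto⟩
    have : ∀ w', w' <:+ w → (run A w' z ∈ comp A M p ↔ z ∈ comp A M p) := by
      intro w'
      induction w' with
      | nil => exact fun _ => Iff.rfl
      | cons a w' ih =>
        intro h
        have h1 : w' <:+ w := (List.suffix_cons a w').trans h
        rw [← ih h1, run_cons]
        exact (comp_step hA (hall w' h1) (hall _ h)).symm
    exact hz (this w (List.suffix_refl w))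
  · have h1 : z ∉ comp A M p := fun h => hzM (comp_sub h)
    have h2 : run A w z ∈ comp A M p := by tauto
    exact ⟨w, hw, by have := comp_sub h2; tauto⟩

theorem N_diff (U V : Set X) : N S A (U \ V) ⊆ N S A U ∪ N S A V := by
  rintro z ⟨w, hw, hz⟩
  by_cases h1 : (run A w z ∈ U ↔ z ∈ U)
  · refine Or.inr ⟨w, hw, fun h2 => hz ?_⟩
    rw [Set.mem_sdiff, Set.mem_sdiff, h1, h2]
  · exact Or.inl ⟨w, hw, h1⟩

/-- the contradiction with the absence of free semigroups -/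
theorem no_infinite [Finite L] {G : Type} [Group G] (P : Pres S G)
    (hNF : ∀ a b : G, ¬ FreePair a b) {m : ℕ} (hm : 0 < m) (hA : IsAct S A)
    (hsep : ∀ q : ℕ, Sep S A m q ⊤ ⊤) {F : Set X} (hF : F.Finite) {τ : Code L m}
    {U0 U1 : Set X} {b0 b1 : X} (h0 : HasCode S τ A U0 b0) (hb0 : b0 ∈ N S A U0)
    (s0 : Site S A m ⊤ F U0) (s1 : Site S A m ⊤ F U1) (h : SubS S A U0 b0 U1 b1)
    (hτ : ∀ V c, Site S A m ⊤ F V → SubS S A U0 b0 V c → τ ∈ Types S A m ⊤ F V c)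
    (hinf : (U0 \ U1).encard = ⊤) : False := by
  classical
  -- an infinite component `W` of the difference
  obtain ⟨p, hp⟩ : ∃ p, (comp A (U0 \ U1) p).encard = ⊤ := by
    by_contra hcon
    push Not at hcon
    have hfinN : (N S A U1).Finite := Set.finite_of_encard_le_coe s1.coll
    have h1 : U0 \ U1 ⊆ ⋃ p ∈ hfinN.toFinset, comp A (U0 \ U1) p := by
      intro z hz
      obtain ⟨u, a, h1, h2, -⟩ := (s0.conn z hz.1 b1 (h.sub h.mem)).entry hz.2 h.mem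
      simp only [Set.mem_iUnion]
      refine ⟨run A u z, ?_, ?_⟩
      · rw [hfinN.mem_toFinset]
        have := h1.last.2
        exact (mem_N_of_step hA (a := a) (by tauto)).1
      · exact Conn.symm hA ⟨u, h1, rfl⟩
    have h2 : (⋃ p ∈ hfinN.toFinset, comp A (U0 \ U1) p).Finite := by
      refine Set.Finite.biUnion hfinN.toFinset.finite_toSet fun p _ => ?_
      exact Set.encard_ne_top_iff.1 (hcon p)
    exact Set.encard_ne_top_iff.2 (h2.subset h1) hinf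
  set W := comp A (U0 \ U1) p with hWdef
  have hWM : W ⊆ U0 \ U1 := comp_sub
  have hNW : (N S A W).encard ≤ (2 * m : ℕ) := by
    refine (Set.encard_le_encard ((N_comp hA _ _).trans (N_diff _ _))).trans ?_
    refine (Set.encard_union_le _ _).trans ((add_le_add s0.coll s1.coll).trans ?_)
    push_cast
    rw [two_mul]
  have hWc : ∀ z ∈ W, ∀ z' ∈ W, Conn A W z z' := fun z hz z' hz' => comp_conn hA hz hz'
  obtain ⟨e, he⟩ : W.Nonempty := by
    rw [← Set.encard_pos, hp]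
    exact ENat.top_pos
  -- the two paths
  obtain ⟨v, hv, hve⟩ := s0.conn b0 h.reach.start.1 e (hWM he).1
  obtain ⟨u1, a1, hu1, hua1⟩ := h.reach
  have hfinv : (pts A v b0 ∪ F).Finite :=
    (Set.finite_of_encard_le_coe (pts_encard v b0)).union hF
  have hfin2 : (pts A v b0 ∪ pts A u1 b0 ∪ F).Finite :=
    ((Set.finite_of_encard_le_coe (pts_encard v b0)).union
      (Set.finite_of_encard_le_coe (pts_encard u1 b0))).union hF
  have htop : ((m : ℕ∞) * ⊤) = ⊤ := ENat.mul_top (by exact_mod_cast hm.ne')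
  -- `V1` inside `U1`
  obtain ⟨V1, c1, hV1, hVc1⟩ := more hA hm (n := ⊤) (by simp) (by rw [htop]; exact hsep _) s1.conn s1.coll
    (top_le_iff.2 (top_le_iff.1 s1.big)) (le_of_eq hfinv.cast_ncard_eq.symm) h.mem
  -- `V2` inside `W`
  obtain ⟨V2, g1, g2, g3, g4, g5, g6, -, u2, a2, g7, g8⟩ := exists_sub hA hm (n := ⊤) (N' := ⊤)
    (by simp) (by rw [htop]; exact hsep _) le_rfl hWc hNW (by rw [hp]) (le_of_eq hfin2.cast_ncard_eq.symm) he
  set c2 := A a2 (run A u2 e) with hc2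
  have hV2s : Site S A m ⊤ F V2 := ⟨g3, g4, g5, fun z hz hzF => g2 z hz (Or.inr hzF)⟩
  have hV1s : Site S A m ⊤ F V1 :=
    ⟨hV1.conn, hV1.big, hV1.coll, fun z hz hzF => hV1.avoid z hz (Or.inr hzF)⟩
  have hV1v : ∀ z ∈ V1, z ∉ pts A v b0 := fun z hz hzF => hV1.avoid z hz (Or.inl hzF)
  have hV2v : ∀ z ∈ V2, z ∉ pts A v b0 := fun z hz hzF => g2 z hz (Or.inl (Or.inl hzF))
  have hV2u : ∀ z ∈ V2, z ∉ pts A u1 b0 := fun z hz hzF => g2 z hz (Or.inl (Or.inr hzF))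
  have hV2U0 : V2 ⊆ U0 := fun z hz => (hWM (g1 hz)).1
  have hV2U1 : ∀ z ∈ V2, z ∉ U1 := fun z hz => (hWM (g1 hz)).2
  have hrW : Reach A (W \ V2) e c2 := ⟨u2, a2, g7, rfl⟩
  have hVc2 : SubS S A U0 b0 V2 c2 := by
    refine ⟨hV2U0, nest_disj g6 g1 (fun z hz => (hWM hz).1), g8, ?_⟩
    refine Reach.of_path (hv.avoid hV2v) ?_
    rw [hve]
    exact hrW.mono fun z hz => ⟨(hWM hz.1).1, hz.2⟩
  have hVc1' := h.trans hVc1
  obtain ⟨V1', c1', hs1, hss1, hcode1⟩ := hτ V1 c1 hV1s hVc1'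
  obtain ⟨V2', c2', hs2, hss2, hcode2⟩ := hτ V2 c2 hV2s hVc2
  have hS1 := hVc1'.trans hss1
  have hS2 := hVc2.trans hss2
  obtain ⟨e1, -, he1⟩ := h0.iso hcode1 hb0 (hS1.mem_N hA)
  obtain ⟨e2, -, he2⟩ := h0.iso hcode2 hb0 (hS2.mem_N hA)
  have d12 : ∀ z ∈ V1', z ∉ V2' := fun z hz hz' =>
    hV2U1 z (hss2.sub hz') (hVc1.sub (hss1.sub hz))
  have hV1V2 : ∀ z ∈ V2', z ∉ V1 := fun z hz hz' => hV2U1 z (hss2.sub hz) (hVc1.sub hz')
  have dN12 : ∀ z ∈ N S A V1', z ∉ N S A V2' := by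
    intro z hz hz'
    have hz0 := hz
    obtain ⟨w, hw, hwz⟩ := hz
    obtain ⟨w', hw', hwz'⟩ := hz'
    by_cases hzV : z ∈ V1
    · refine hss1.disj z hz0 ⟨w', hw', ?_⟩
      have h3 : z ∉ V2' := fun h => hV1V2 z h hzV
      have h4 : run A w' z ∈ V2' := by tauto
      have := hV1V2 _ h4
      tauto
    · refine hss1.disj z hz0 ⟨w, hw, ?_⟩
      have h3 : z ∉ V1' := fun h => hzV (hss1.sub h)
      have h4 : run A w z ∈ V1' := by tauto
      have := hss1.sub h4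
      tauto
  -- the paths of the configuration
  have r1 : Reach A {z | z ∈ U0 ∧ z ∉ V1' ∧ z ∉ V2'} b0 c1' := by
    have k1 : Reach A {z | z ∈ U0 ∧ z ∉ V1' ∧ z ∉ V2'} b0 b1 := by
      refine ⟨u1, a1, (hu1.avoid hV2u).mono ?_, hua1⟩
      rintro z ⟨⟨hz, hz1⟩, hz2⟩
      exact ⟨hz, fun h => hz1 (hVc1.sub (hss1.sub h)), fun h => hz2 (hss2.sub h)⟩
    have k2 : Reach A {z | z ∈ U0 ∧ z ∉ V1' ∧ z ∉ V2'} b1 c1 := by
      refine hVc1.reach.mono ?_
      rintro z ⟨hz, hz1⟩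
      exact ⟨h.sub hz, fun h => hz1 (hss1.sub h), fun h => hV2U1 z (hss2.sub h) hz⟩
    have k3 : Reach A {z | z ∈ U0 ∧ z ∉ V1' ∧ z ∉ V2'} c1 c1' := by
      refine hss1.reach.mono ?_
      rintro z ⟨hz, hz1⟩
      exact ⟨h.sub (hVc1.sub hz), hz1, fun h => hV1V2 z h hz⟩
    exact (k1.trans k2).trans k3
  have r2 : Reach A {z | z ∈ U0 ∧ z ∉ V1' ∧ z ∉ V2'} b0 c2' := by
    have k1 : Path A {z | z ∈ U0 ∧ z ∉ V1' ∧ z ∉ V2'} b0 v := by
      refine ((hv.avoid hV2v).avoid hV1v).mono ?_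
      rintro z ⟨⟨hz, hz2⟩, hz1⟩
      exact ⟨hz, fun h => hz1 (hss1.sub h), fun h => hz2 (hss2.sub h)⟩
    have k2 : Reach A {z | z ∈ U0 ∧ z ∉ V1' ∧ z ∉ V2'} e c2 := by
      refine hrW.mono ?_
      rintro z ⟨hz, hz2⟩
      exact ⟨(hWM hz).1, fun h => (hWM hz).2 (hVc1.sub (hss1.sub h)), fun h => hz2 (hss2.sub h)⟩
    have k3 : Reach A {z | z ∈ U0 ∧ z ∉ V1' ∧ z ∉ V2'} c2 c2' := by
      refine hss2.reach.mono ?_
      rintro z ⟨hz, hz2⟩
      exact ⟨hV2U0 hz, fun h => hV2U1 z hz (hVc1.sub (hss1.sub h)), hz2⟩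
    refine Reach.of_path k1 ?_
    rw [hve]
    exact k2.trans k3
  obtain ⟨w1, d1, p1, q1⟩ := r1
  obtain ⟨w2, d2, p2, q2⟩ := r2
  exact not_two P hNF hA e1 e2 he1 he2 hS1.sub hS2.sub hS1.disj hS2.disj d12 dN12 p1 q1
    hss1.mem p2 q2 hss2.mem

theorem infinite_case [Finite L] {G : Type} [Group G] (P : Pres S G)
    (hNF : ∀ a b : G, ¬ FreePair a b) {m : ℕ} (hm : 0 < m) {K : Subgroup G}
    (hK : ∀ (X : Type) (A : L → X → X), IsAct S A → ∀ (U : Set X) (b y : X) (c : Code L m),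
        HasCode S c A U b → LR S c → b ∈ U → ∀ (u : List L) (a : L), Path A Uᶜ y u →
        A a (run A u y) = b → ∀ w, P.val w ∈ (⁅K, K⁆ : Subgroup G) → Path A Uᶜ y w →
        run A w y = y)
    (hA : IsAct S A) (hsep : ∀ q : ℕ, Sep S A m q ⊤ ⊤) (w : List L)
    (hw : P.val w ∈ (⁅K, K⁆ : Subgroup G)) (y : X) (hinf : (comp A Set.univ y).encard = ⊤) :
    run A w y = y := by
  classical
  set F := pts A w y with hFdef
  have hF : F.Finite := Set.finite_of_encard_le_coe (pts_encard w y)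
  have htop : ((m : ℕ∞) * ⊤) = ⊤ := ENat.mul_top (by exact_mod_cast hm.ne')
  set O := comp A Set.univ y with hO
  have step : ∀ (W : Set X) (e : X), (∀ z ∈ W, ∀ z' ∈ W, Conn A W z z') →
      (N S A W).encard ≤ m → ⊤ ≤ W.encard → e ∈ W →
      ∃ V c, Site S A m ⊤ F V ∧ SubS S A W e V c := fun W e h1 h2 h3 h4 =>
    more hA hm (n := ⊤) (by simp) (by rw [htop]; exact hsep _) h1 h2 h3 (le_of_eq hF.cast_ncard_eq.symm) h4
  obtain ⟨V0, c0, hV0, hVc0⟩ := step O y (fun z hz z' hz' => comp_conn hA hz hz')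
    (by rw [N_univ_orbit hA]; simp) (by rw [hinf]) (Conn.refl trivial)
  -- a site with a minimal set of codes of sub-sites
  let good : ℕ → Prop := fun k => ∃ V c, Site S A m ⊤ F V ∧ SubS S A O y V c ∧
    (Types S A m ⊤ F V c).ncard = k
  have hex : ∃ k, good k := ⟨_, V0, c0, hV0, hVc0, rfl⟩
  obtain ⟨U, b, hU, hUb, hUn⟩ := Nat.find_spec hex
  have hmin : ∀ V c, Site S A m ⊤ F V → SubS S A O y V c →
      (Types S A m ⊤ F U b).ncard ≤ (Types S A m ⊤ F V c).ncard := by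
    intro V c h1 h2
    rw [hUn]
    exact Nat.find_min' hex ⟨V, c, h1, h2, rfl⟩
  have heq : ∀ V c, Site S A m ⊤ F V → SubS S A U b V c →
      Types S A m ⊤ F V c = Types S A m ⊤ F U b := by
    intro V c h1 h2
    exact Set.eq_of_subset_of_ncard_le (Types_sub h2) (hmin V c h1 (hUb.trans h2))
      (Set.toFinite _)
  obtain ⟨U0, b0, hU0, hUb0⟩ := step U b hU.conn hU.coll hU.big hUb.mem
  obtain ⟨τ, hτ⟩ := exists_code (S := S) A U0 b0 hm hU0.coll
  have hτU : τ ∈ Types S A m ⊤ F U b := ⟨U0, b0, hU0, hUb0, hτ⟩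
  have hτU0 : τ ∈ Types S A m ⊤ F U0 b0 := by rwa [heq U0 b0 hU0 hUb0]
  obtain ⟨U1, b1, hU1, hUb1, hτ1⟩ := hτU0
  by_cases hfin : (U0 \ U1).Finite
  · exact fix_of P hK hA (hUb.trans hUb0) hUb1 hτ hτ1 hfin hw hU0.avoid
  · exfalso
    refine no_infinite P hNF hm hA hsep hF hτ (hUb0.mem_N hA) hU0 hU1 hUb1 ?_
      (Set.encard_eq_top_iff.2 hfin)
    intro V c h1 h2
    rw [heq V c h1 (hUb0.trans h2)]
    exact hτU

end Run7.h266
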