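import Pool.Agent.Run7.h266.Act

/-!
# Isomorphisms of collars, and the gluing lemma
-/

set_option autoImplicit false

namespace Run7.h266

universe u v w

variable {L : Type} {S : Sys L}

/-- an isomorphism between the collars of `U` and `U'` -/
structure Iso (S : Sys L) {X : Type u} (A : L → X → X) (U : Set X) {X' : Type v}
    (A' : L → X' → X') (U' : Set X') where
  f : X → X'
  g : X' → X
  map : ∀ z ∈ N S A U, f z ∈ N S A' U'
  map' : ∀ z ∈ N S A' U', g z ∈ N S A U
  left : ∀ z ∈ N S A U, g (f z) = z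
  right : ∀ z ∈ N S A' U', f (g z) = z
  mem : ∀ z ∈ N S A U, (f z ∈ U' ↔ z ∈ U)
  mem' : ∀ z ∈ N S A' U', (g z ∈ U ↔ z ∈ U')
  stp : ∀ a, ∀ z ∈ N S A U, A a z ∈ N S A U → f (A a z) = A' a (f z)
  stp' : ∀ a, ∀ z ∈ N S A' U', A' a z ∈ N S A' U' → g (A' a z) = A a (g z)

variable {X : Type u} {A : L → X → X} {U : Set X} {X' : Type v} {A' : L → X' → X'} {U' : Set X'}
  {X'' : Type w} {A'' : L → X'' → X''} {U'' : Set X''}

def Iso.refl (S : Sys L) (A : L → X → X) (U : Set X) : Iso S A U A U where
  f := id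
  g := id
  map := fun _ h => h
  map' := fun _ h => h
  left := fun _ _ => rfl
  right := fun _ _ => rfl
  mem := fun _ _ => Iff.rfl
  mem' := fun _ _ => Iff.rfl
  stp := fun _ _ _ _ => rfl
  stp' := fun _ _ _ _ => rfl

def Iso.symm (e : Iso S A U A' U') : Iso S A' U' A U where
  f := e.g
  g := e.f
  map := e.map'
  map' := e.map
  left := e.right
  right := e.left
  mem := e.mem'
  mem' := e.mem
  stp := e.stp'
  stp' := e.stp

def Iso.trans (e : Iso S A U A' U') (e' : Iso S A' U' A'' U'') : Iso S A U A'' U'' where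
  f := fun z => e'.f (e.f z)
  g := fun z => e.g (e'.g z)
  map := fun z h => e'.map _ (e.map z h)
  map' := fun z h => e.map' _ (e'.map' z h)
  left := fun z h => by rw [e'.left _ (e.map z h), e.left z h]
  right := fun z h => by rw [e.right _ (e'.map' z h), e'.right z h]
  mem := fun z h => by rw [e'.mem _ (e.map z h), e.mem z h]
  mem' := fun z h => by rw [e.mem' _ (e'.map' z h), e'.mem' z h]
  stp := fun a z h h' => by
    rw [e.stp a z h h', e'.stp a _ (e.map z h)]
    rw [← e.stp a z h h']
    exact e.map _ h'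
  stp' := fun a z h h' => by
    rw [e'.stp' a z h h', e.stp' a _ (e'.map' z h)]
    rw [← e'.stp' a z h h']
    exact e'.map' _ h'

section embed

variable {Z : Type v} {B : L → Z → Z}

theorem run_embed {h : X → Z} (he : ∀ a z, B a (h z) = h (A a z)) (w : List L) (z : X) :
    run B w (h z) = h (run A w z) := by
  induction w with
  | nil => rfl
  | cons a w ih => simp [ih, he]

/-- collars of images under the inclusion of an invariant part -/
theorem N_embed {h : X → Z} (hB : IsAct S B) (hi : Function.Injective h)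
    (he : ∀ a z, B a (h z) = h (A a z)) (V : Set X) :
    N S B (h '' V) = h '' (N S A V) := by
  ext z
  constructor
  · rintro ⟨w, hw, hz⟩
    have hr : ∃ x, z = h x := by
      by_cases h1 : z ∈ h '' V
      · obtain ⟨x, -, rfl⟩ := h1
        exact ⟨x, rfl⟩
      · have h2 : run B w z ∈ h '' V := by tauto
        obtain ⟨x, -, hx⟩ := h2
        refine ⟨run A (S.winv w) x, ?_⟩
        rw [← run_embed he, hx, hB.winv_run]
    obtain ⟨x, rfl⟩ := hr
    refine ⟨x, ⟨w, hw, ?_⟩, rfl⟩
    rw [run_embed he, hi.mem_set_image, hi.mem_set_image] at hz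
    exact hz
  · rintro ⟨x, ⟨w, hw, hz⟩, rfl⟩
    refine ⟨w, hw, ?_⟩
    rw [run_embed he, hi.mem_set_image, hi.mem_set_image]
    exact hz

theorem N_embed' {h : X → Z} (hB : IsAct S B) (hi : Function.Injective h)
    (he : ∀ a z, B a (h z) = h (A a z)) (V : Set X) :
    N S B ((h '' Vᶜ)ᶜ) = h '' (N S A V) := by
  rw [N_compl, N_embed hB hi he, N_compl]

/-- the collar of `V` and of its image under the inclusion of an invariant part -/
noncomputable def Iso.embed [Nonempty X] (h : X → Z) (hi : Function.Injective h)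
    (he : ∀ a z, B a (h z) = h (A a z)) (V : Set X) (W : Set Z)
    (hN : N S B W = h '' (N S A V)) (hW : ∀ x, h x ∈ W ↔ x ∈ V) : Iso S A V B W where
  f := h
  g := Function.invFun h
  map := fun z hz => by
    rw [hN]
    exact ⟨z, hz, rfl⟩
  map' := fun z hz => by
    rw [hN] at hz
    obtain ⟨x, hx, rfl⟩ := hz
    rw [Function.leftInverse_invFun hi x]
    exact hx
  left := fun z _ => Function.leftInverse_invFun hi z
  right := fun z hz => by
    rw [hN] at hz
    obtain ⟨x, hx, rfl⟩ := hz
    rw [Function.leftInverse_invFun hi x]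
  mem := fun z _ => hW z
  mem' := fun z hz => by
    rw [hN] at hz
    obtain ⟨x, hx, rfl⟩ := hz
    rw [Function.leftInverse_invFun hi x, hW]
  stp := fun a z _ _ => (he a z).symm
  stp' := fun a z hz _ => by
    rw [hN] at hz
    obtain ⟨x, hx, rfl⟩ := hz
    rw [he, Function.leftInverse_invFun hi x, Function.leftInverse_invFun hi]

end embed

section glue

variable {Z : Type u} {J : Type v}

/-- the data of the gluing: `B0 j` is replaced by what lies beyond `B1 j` and conversely -/
structure Glue (S : Sys L) (A : L → Z → Z) (J : Type v) where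
  act : IsAct S A
  B : J → Bool → Set Z
  e : ∀ j, Iso S A ((B j false)ᶜ) A (B j true)
  disj : ∀ j b j' b', (j, b) ≠ (j', b') → ∀ z, z ∈ B j b → z ∉ B j' b'
  disjN : ∀ j b j' b', (j, b) ≠ (j', b') → ∀ z, z ∈ N S A (B j b) → z ∉ N S A (B j' b')

variable {A : L → Z → Z}

namespace Glue

variable (D : Glue S A J)

/-- the part of the space that is kept -/
def Q : Set Z := {z | ∀ j b, z ∉ D.B j b}

/-- the crossing map -/
def fl (j : J) : Bool → Z → Z
  | false => (D.e j).f
  | true => (D.e j).g

theorem fl_map (j : J) (b : Bool) {z : Z} (hz : z ∈ N S A (D.B j b)) :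
    D.fl j b z ∈ N S A (D.B j (!b)) := by
  cases b
  · exact (D.e j).map z (by rwa [N_compl])
  · have := (D.e j).map' z hz
    rwa [N_compl] at this

theorem fl_fl (j : J) (b : Bool) {z : Z} (hz : z ∈ N S A (D.B j b)) :
    D.fl j (!b) (D.fl j b z) = z := by
  cases b
  · exact (D.e j).left z (by rwa [N_compl])
  · exact (D.e j).right z hz

theorem fl_mem (j : J) (b : Bool) {z : Z} (hz : z ∈ N S A (D.B j b)) :
    D.fl j b z ∈ D.B j (!b) ↔ z ∉ D.B j b := by
  cases b
  · exact (D.e j).mem z (by rwa [N_compl])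
  · have := (D.e j).mem' z hz
    rw [Set.mem_compl_iff] at this
    show (D.e j).g z ∈ D.B j false ↔ z ∉ D.B j true
    tauto

theorem fl_stp (j : J) (b : Bool) (a : L) {z : Z} (hz : z ∈ N S A (D.B j b))
    (hz' : A a z ∈ N S A (D.B j b)) : D.fl j b (A a z) = A a (D.fl j b z) := by
  cases b
  · exact (D.e j).stp a z (by rwa [N_compl]) (by rwa [N_compl])
  · exact (D.e j).stp' a z hz hz'

open Classical in
/-- crossing -/
noncomputable def phi (z : Z) : Z :=
  if h : ∃ p : J × Bool, z ∈ D.B p.1 p.2 then D.fl h.choose.1 h.choose.2 z else z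

theorem phi_of_mem {j : J} {b : Bool} {z : Z} (hz : z ∈ D.B j b) : D.phi z = D.fl j b z := by
  have h : ∃ p : J × Bool, z ∈ D.B p.1 p.2 := ⟨(j, b), hz⟩
  have h1 : (h.choose.1, h.choose.2) = (j, b) := by
    by_contra hne
    exact D.disj _ _ _ _ hne z h.choose_spec hz
  rw [phi, dif_pos h]
  rw [Prod.mk.injEq] at h1
  rw [h1.1, h1.2]

theorem phi_of_Q {z : Z} (hz : z ∈ D.Q) : D.phi z = z := by
  have h : ¬ ∃ p : J × Bool, z ∈ D.B p.1 p.2 := fun ⟨p, hp⟩ => hz _ _ hp
  rw [phi, dif_neg h]

open Classical in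
/-- the glued action -/
noncomputable def act' (a : L) (z : Z) : Z := if z ∈ D.Q then D.phi (A a z) else z

theorem mem_Q_of_N {j : J} {b : Bool} {z : Z} (hz : z ∈ N S A (D.B j b)) (hz' : z ∉ D.B j b) :
    z ∈ D.Q := by
  intro j' b' h
  by_cases hne : (j', b') = (j, b)
  · rw [Prod.mk.injEq] at hne
    rw [hne.1, hne.2] at h
    exact hz' h
  · obtain ⟨w, hw, hw'⟩ := hz
    refine D.disjN j' b' j b hne z ⟨w, hw, ?_⟩ ⟨w, hw, hw'⟩
    have h1 : run A w z ∈ D.B j b := by tauto
    have h2 : run A w z ∉ D.B j' b' := fun h3 => D.disj _ _ _ _ hne _ h3 h1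
    tauto

theorem phi_mem_Q {z : Z} (a : L) (hz : z ∈ D.Q) : D.phi (A a z) ∈ D.Q := by
  by_cases h : A a z ∈ D.Q
  · rwa [D.phi_of_Q h]
  · simp only [Q, Set.mem_ofPred_eq, not_forall, not_not] at h
    obtain ⟨j, b, h⟩ := h
    rw [D.phi_of_mem h]
    have h1 : A a z ∈ N S A (D.B j b) := by
      have h2 : ¬ (A a z ∈ D.B j b ↔ z ∈ D.B j b) := by
        have := hz j b
        tauto
      exact (mem_N_of_step D.act h2).2
    refine D.mem_Q_of_N (D.fl_map j b h1) ?_
    rw [D.fl_mem j b h1]
    tauto

theorem act'_mem_Q {z : Z} (a : L) (hz : z ∈ D.Q) : D.act' a z ∈ D.Q := by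
  rw [act', if_pos hz]
  exact D.phi_mem_Q a hz

theorem act'_of_Q {z : Z} (a : L) (hz : z ∈ D.Q) (hz' : A a z ∈ D.Q) : D.act' a z = A a z := by
  rw [act', if_pos hz, D.phi_of_Q hz']

theorem act'_of_mem {z : Z} (a : L) (hz : z ∈ D.Q) {j : J} {b : Bool} (hz' : A a z ∈ D.B j b) :
    D.act' a z = D.fl j b (A a z) := by
  rw [act', if_pos hz, D.phi_of_mem hz']

theorem run_act'_of_not_mem {z : Z} (hz : z ∉ D.Q) (w : List L) : run D.act' w z = z := by
  induction w with
  | nil => rfl
  | cons a w ih => rw [run_cons, ih, act', if_neg hz]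

/-- along a path inside the kept part nothing changes -/
theorem run_act'_of_path {z : Z} {w : List L} (h : Path A D.Q z w) :
    run D.act' w z = run A w z := by
  induction h with
  | nil h => rfl
  | cons a h1 h2 ih => rw [run_cons, run_cons, ih, D.act'_of_Q a h1.last h2]

/-- a short path of the ambient action starting in the kept part -/
theorem run_phi {z : Z} (hz : z ∈ D.Q) {w : List L} (hw : w.length ≤ S.ℓ) :
    run D.act' w z = D.phi (run A w z) := by
  by_cases hall : ∀ w', w' <:+ w → run A w' z ∈ D.Q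
  · have h1 : Path A D.Q z w := Path.of_suffix hall
    rw [D.run_act'_of_path h1, D.phi_of_Q h1.last]
  · simp only [not_forall] at hall
    obtain ⟨w0, hw0, h0⟩ := hall
    simp only [Q, Set.mem_ofPred_eq, not_forall, not_not] at h0
    obtain ⟨j, b, h0⟩ := h0
    have hN : ∀ w', w' <:+ w → run A w' z ∈ N S A (D.B j b) := by
      intro w' hw'
      refine suffix_mem_N D.act hw hw0 ?_ hw'
      have := hz j b
      tauto
    have key : ∀ w', w' <:+ w → run D.act' w' z = D.phi (run A w' z) := by
      intro w'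
      induction w' with
      | nil =>
        intro _
        rw [run_nil, run_nil, D.phi_of_Q hz]
      | cons a w' ih =>
        intro hw'
        have hw'' : w' <:+ w := (List.suffix_cons a w').trans hw'
        have h1 := hN _ hw''
        have h2 := hN _ hw'
        rw [run_cons] at h2
        rw [run_cons, run_cons, ih hw'']
        by_cases hp : run A w' z ∈ D.B j b
        · rw [D.phi_of_mem hp]
          have h3 : D.fl j b (run A w' z) ∈ D.Q := by
            refine D.mem_Q_of_N (D.fl_map j b h1) ?_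
            rw [D.fl_mem j b h1]
            tauto
          have h4 := D.fl_stp j b a h1 h2
          rw [act', if_pos h3, ← h4]
          by_cases hp' : A a (run A w' z) ∈ D.B j b
          · rw [D.phi_of_mem hp', D.phi_of_Q]
            refine D.mem_Q_of_N (D.fl_map j b h2) ?_
            rw [D.fl_mem j b h2]
            tauto
          · rw [D.phi_of_Q (D.mem_Q_of_N h2 hp')]
            have h5 : D.fl j b (A a (run A w' z)) ∈ D.B j (!b) := by
              rwa [D.fl_mem j b h2]
            rw [D.phi_of_mem h5, D.fl_fl j b h2]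
        · have h3 : run A w' z ∈ D.Q := D.mem_Q_of_N h1 hp
          rw [D.phi_of_Q h3, act', if_pos h3]
    exact key w (List.suffix_refl w)

theorem isAct' : IsAct S D.act' := by
  intro w hw z
  by_cases hz : z ∈ D.Q
  · rw [D.run_phi hz (S.len w hw), D.act w hw z, D.phi_of_Q hz]
  · exact D.run_act'_of_not_mem hz w

end Glue

end glue

end Run7.h266
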