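import Pool.Agent.Run7.h266.Hol
import Pool.Agent.Run7.h266.Inf

/-!
# Separating sets from a system of regions
-/

set_option autoImplicit false

namespace Run7.h266

open Pool.Agent.H785R3.GrowthA

variable {L : Type} {S : Sys L} {X : Type} {A : L → X → X}

/-- the points reached by words of length at most `s` -/
def LB (A : L → X → X) (s : ℕ) (y : X) : Set X := {z | ∃ w : List L, w.length ≤ s ∧ run A w y = z}

theorem LB_self {s : ℕ} {y : X} : y ∈ LB A s y := ⟨[], Nat.zero_le _, rfl⟩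

theorem LB_mono {s s' : ℕ} (h : s ≤ s') {y : X} : LB A s y ⊆ LB A s' y := by
  rintro z ⟨w, hw, rfl⟩
  exact ⟨w, hw.trans h, rfl⟩

theorem LB_path {s : ℕ} {y : X} {w : List L} (hw : w.length ≤ s) : Path A (LB A s y) y w :=
  Path.of_suffix fun _ hw' => ⟨_, hw'.length_le.trans hw, rfl⟩

theorem LB_conn (hA : IsAct S A) {s : ℕ} {y z z' : X} (hz : z ∈ LB A s y) (hz' : z' ∈ LB A s y) :
    Conn A (LB A s y) z z' := by
  obtain ⟨w, hw, rfl⟩ := hz
  obtain ⟨w', hw', rfl⟩ := hz'
  exact (Conn.symm hA ⟨w, LB_path hw, rfl⟩).trans ⟨w', LB_path hw', rfl⟩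

theorem LB_trans {s s' : ℕ} {x y z : X} (h : y ∈ LB A s x) (h' : z ∈ LB A s' y) :
    z ∈ LB A (s + s') x := by
  obtain ⟨w, hw, rfl⟩ := h
  obtain ⟨w', hw', rfl⟩ := h'
  refine ⟨w' ++ w, ?_, run_append _ _ _ _⟩
  rw [List.length_append]
  omega

theorem LB_symm (hA : IsAct S A) {s : ℕ} {x y : X} (h : y ∈ LB A s x) : x ∈ LB A s y := by
  obtain ⟨w, hw, rfl⟩ := h
  exact ⟨S.winv w, by rwa [S.winv_length], hA.winv_run w x⟩

/-- an orbit -/
structure Orb (A : L → X → X) (O : Set X) : Prop where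
  inv : ∀ z ∈ O, ∀ a, A a z ∈ O
  conn : ∀ z ∈ O, ∀ z' ∈ O, Conn A Set.univ z z'

theorem Orb.mrun {O : Set X} (hO : Orb A O) {z : X} (hz : z ∈ O) (w : List L) :
    run A w z ∈ O := by
  induction w with
  | nil => exact hz
  | cons a w ih => exact hO.inv _ ih a

theorem Orb.mLB {O : Set X} (hO : Orb A O) {z : X} (hz : z ∈ O) (s : ℕ) : LB A s z ⊆ O := by
  rintro _ ⟨w, -, rfl⟩
  exact hO.mrun hz w

theorem Orb.N_sub (hA : IsAct S A) {O C : Set X} (hO : Orb A O) (hC : C ⊆ O) : N S A C ⊆ O := by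
  rintro z ⟨w, -, h⟩
  by_cases hz : z ∈ C
  · exact hC hz
  · have h1 : run A w z ∈ O := hC (by tauto)
    have h2 := hO.mrun h1 (S.winv w)
    rwa [hA.winv_run] at h2

theorem orb_of (hA : IsAct S A) (y : X) : Orb A (comp A Set.univ y) where
  inv := fun _ hz a => Conn.step hz a trivial
  conn := fun _ hz _ hz' => (Conn.symm hA hz).trans hz'

theorem Orb.N_self (hA : IsAct S A) {O : Set X} (hO : Orb A O) : N S A O = ∅ := by
  rw [Set.eq_empty_iff_forall_notMem]
  rintro z ⟨w, -, h⟩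
  refine h ⟨fun h1 => ?_, fun h1 => hO.mrun h1 w⟩
  have := hO.mrun h1 (S.winv w)
  rwa [hA.winv_run] at this

/-- a change along a path occurs at a step -/
theorem exists_change {M : Set X} {z : X} {w : List L} (h : ¬ (run A w z ∈ M ↔ z ∈ M)) :
    ∃ (a : L) (w' : List L), (a :: w') <:+ w ∧ ¬ (A a (run A w' z) ∈ M ↔ run A w' z ∈ M) := by
  induction w with
  | nil => exact absurd Iff.rfl h
  | cons a w ih =>
    by_cases h1 : run A w z ∈ M ↔ z ∈ M
    · refine ⟨a, w, List.suffix_refl _, ?_⟩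
      rw [run_cons] at h
      tauto
    · obtain ⟨a', w', h2, h3⟩ := ih h1
      exact ⟨a', w', h2.trans (List.suffix_cons a w), h3⟩

/-- the first exit of a path -/
theorem exists_exit {M : Set X} {z : X} {w : List L} (hz : z ∈ M) (h : run A w z ∉ M) :
    ∃ (a : L) (w' : List L), (a :: w') <:+ w ∧ run A w' z ∈ M ∧ A a (run A w' z) ∉ M := by
  induction w with
  | nil => exact absurd hz h
  | cons a w ih =>
    by_cases h1 : run A w z ∈ M
    · exact ⟨a, w, List.suffix_refl _, h1, h⟩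
    · obtain ⟨a', w', h2, h3⟩ := ih h1
      exact ⟨a', w', h2.trans (List.suffix_cons a w), h3⟩

/-- a connected piece of an orbit with connected complement -/
structure Pc (A : L → X → X) (O C : Set X) : Prop where
  sub : C ⊆ O
  conn : ∀ z ∈ C, ∀ z' ∈ C, Conn A C z z'
  coconn : ∀ z ∈ O \ C, ∀ z' ∈ O \ C, Conn A (O \ C) z z'
  ne : (O \ C).Nonempty

/-- children of a piece -/
theorem Pc.child (hA : IsAct S A) {O C D : Set X} (hC : Pc A O C)
    (hD : ∀ z ∈ D, ∀ z' ∈ D, Conn A D z z') (hDO : D ⊆ O) (hDC : (D ∩ C).Nonempty)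
    (hDV : (D ∩ (O \ C)).Nonempty) {p : X} (hp : p ∈ C \ D) :
    Pc A O (comp A (C \ D) p) ∧ (∃ q ∈ N S A D, q ∈ comp A (C \ D) p) ∧
      N S A (comp A (C \ D) p) ⊆ (N S A C \ D) ∪ N S A D := by
  set C' := comp A (C \ D) p with hC'
  have hsub : C' ⊆ C \ D := comp_sub
  have hpC' : p ∈ C' := Conn.refl hp
  obtain ⟨d, hd, hdC⟩ := hDC
  obtain ⟨v, hvD, hv⟩ := hDV
  -- each child is adjacent to `D`
  have htoD : ∀ x ∈ C \ D, ∃ q a, q ∈ comp A (C \ D) x ∧ A a q ∈ D := by
    intro x hx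
    obtain ⟨u, a, h1, h2, h3⟩ := (hC.conn x hx.1 d hdC).entry
      (C := (comp A (C \ D) x)ᶜ) (fun h => h (Conn.refl hx)) (fun h => (comp_sub h).2 hd)
    have h4 : run A u x ∈ comp A (C \ D) x := by
      by_contra h
      exact h1.last.2 h
    refine ⟨_, a, h4, ?_⟩
    by_contra h5
    exact h2 ((comp_step hA (comp_sub h4) ⟨h3, h5⟩).1 h4)
  have hout : ∀ z ∈ D ∪ (O \ C), z ∈ O \ C' := by
    rintro z (h | h)
    · exact ⟨hDO h, fun h' => (hsub h').2 h⟩
    · exact ⟨h.1, fun h' => h.2 (hsub h').1⟩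
  have hto : ∀ z ∈ O \ C', Conn A (O \ C') z v := by
    intro z hz
    by_cases h1 : z ∈ D
    · exact (hD z h1 v hvD).mono fun x hx => hout x (Or.inl hx)
    · by_cases h2 : z ∈ C
      · obtain ⟨q, a, h3, h4⟩ := htoD z ⟨h2, h1⟩
        have hsub' : comp A (C \ D) z ⊆ O \ C' := by
          intro x hx
          refine ⟨hC.sub (comp_sub hx).1, fun h => hz.2 ?_⟩
          have e1 : comp A (C \ D) x = comp A (C \ D) z := comp_eq hA hx
          have e2 : comp A (C \ D) x = comp A (C \ D) p := comp_eq hA h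
          rw [hC', ← e2, e1]
          exact Conn.refl ⟨h2, h1⟩
        exact (((comp_conn_left h3).mono hsub').step a (hout _ (Or.inl h4))).trans
          ((hD _ h4 v hvD).mono fun x hx => hout x (Or.inl hx))
      · exact (hC.coconn z ⟨hz.1, h2⟩ v hv).mono fun x hx => hout x (Or.inr hx)
  refine ⟨⟨fun z hz => hC.sub (hsub hz).1, fun z hz z' hz' => comp_conn hA hz hz',
    fun z hz z' hz' => (hto z hz).trans ((hto z' hz').symm hA),
    ⟨v, hout v (Or.inr hv)⟩⟩, ?_, ?_⟩
  · obtain ⟨q, a, h1, h2⟩ := htoD p hp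
    refine ⟨q, (mem_N_of_step hA (a := a) ?_).1, h1⟩
    have := (comp_sub h1).2
    tauto
  · intro z hz
    by_cases h1 : z ∈ D
    · right
      obtain ⟨w, hw, h⟩ := hz
      refine ⟨w, hw, ?_⟩
      have h2 : z ∉ C' := fun h' => (hsub h').2 h1
      have h3 : run A w z ∈ C' := by tauto
      have h4 := (hsub h3).2
      tauto
    · rcases N_diff C D (N_comp hA _ p hz) with h2 | h2
      · exact Or.inl ⟨h2, h1⟩
      · exact Or.inr h2

/-- children of an orbit -/
theorem Orb.child (hA : IsAct S A) {O D : Set X} (hO : Orb A O)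
    (hD : ∀ z ∈ D, ∀ z' ∈ D, Conn A D z z') (hDO : D ⊆ O) (hne : D.Nonempty) {p : X}
    (hp : p ∈ O \ D) :
    Pc A O (comp A (O \ D) p) ∧ (∃ q ∈ N S A D, q ∈ comp A (O \ D) p) ∧
      N S A (comp A (O \ D) p) ⊆ N S A D := by
  set C' := comp A (O \ D) p with hC'
  have hsub : C' ⊆ O \ D := comp_sub
  obtain ⟨v, hv⟩ := hne
  have htoD : ∀ x ∈ O \ D, ∃ q a, q ∈ comp A (O \ D) x ∧ A a q ∈ D := by
    intro x hx
    obtain ⟨u, a, h1, h2, h3⟩ := (hO.conn x hx.1 v (hDO hv)).entry
      (C := (comp A (O \ D) x)ᶜ) (fun h => h (Conn.refl hx)) (fun h => (comp_sub h).2 hv)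
    have h4 : run A u x ∈ comp A (O \ D) x := by
      by_contra h
      exact h1.last.2 h
    refine ⟨_, a, h4, ?_⟩
    by_contra h5
    exact h2 ((comp_step hA (comp_sub h4) ⟨hO.inv _ (comp_sub h4).1 a, h5⟩).1 h4)
  have hto : ∀ z ∈ O \ C', Conn A (O \ C') z v := by
    intro z hz
    have hDout : D ⊆ O \ C' := fun x hx => ⟨hDO hx, fun h => (hsub h).2 hx⟩
    by_cases h1 : z ∈ D
    · exact (hD z h1 v hv).mono hDout
    · obtain ⟨q, a, h3, h4⟩ := htoD z ⟨hz.1, h1⟩
      have hsub' : comp A (O \ D) z ⊆ O \ C' := by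
        intro x hx
        refine ⟨(comp_sub hx).1, fun h => hz.2 ?_⟩
        have e1 : comp A (O \ D) x = comp A (O \ D) z := comp_eq hA hx
        have e2 : comp A (O \ D) x = comp A (O \ D) p := comp_eq hA h
        rw [hC', ← e2, e1]
        exact Conn.refl ⟨hz.1, h1⟩
      exact (((comp_conn_left h3).mono hsub').step a (hDout h4)).trans
        ((hD _ h4 v hv).mono hDout)
  refine ⟨⟨fun z hz => (hsub hz).1, fun z hz z' hz' => comp_conn hA hz hz',
    fun z hz z' hz' => (hto z hz).trans ((hto z' hz').symm hA),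
    ⟨v, hDO hv, fun h => (hsub h).2 hv⟩⟩, ?_, ?_⟩
  · obtain ⟨q, a, h1, h2⟩ := htoD p hp
    refine ⟨q, (mem_N_of_step hA (a := a) ?_).1, h1⟩
    have := (comp_sub h1).2
    tauto
  · intro z hz
    rcases N_diff O D (N_comp hA _ p hz) with h2 | h2
    · rw [hO.N_self hA] at h2
      exact absurd h2 (Set.notMem_empty z)
    · exact h2

/-- thresholds -/
noncomputable def ThrD (e : ℕ) (n : ℕ∞) : ℕ → ℕ∞
  | 0 => n
  | q + 1 => n + ((e : ℕ) + (e : ℕ) * ThrD e n q)

theorem ThrD_nat (e n : ℕ) (q : ℕ) : ∃ m : ℕ, ThrD e n q = m := by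
  induction q with
  | zero => exact ⟨n, rfl⟩
  | succ q ih =>
    obtain ⟨m, hm⟩ := ih
    refine ⟨n + (e + e * m), ?_⟩
    rw [ThrD, hm]
    push_cast
    rfl

/-- finite unions -/
theorem union_bound {n : ℕ∞} {C : X → Set X} (F : Finset X)
    (h : ∀ p ∈ F, (C p).encard < n) :
    (⋃ p ∈ F, C p).encard ≠ ⊤ ∧ (⋃ p ∈ F, C p).encard ≤ F.card * n := by
  classical
  induction F using Finset.induction_on with
  | empty => simp
  | insert a F ha ih =>
    obtain ⟨h1, h2⟩ := ih fun p hp => h p (Finset.mem_insert_of_mem hp)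
    have h3 := h a (Finset.mem_insert_self _ _)
    have h4 : (⋃ p ∈ insert a F, C p) = C a ∪ ⋃ p ∈ F, C p := by simp
    rw [h4]
    have h5 := Set.encard_union_le (C a) (⋃ p ∈ F, C p)
    constructor
    · intro h6
      rw [h6, top_le_iff, ENat.add_eq_top] at h5
      rcases h5 with h5 | h5
      · exact absurd h5 (ne_top_of_lt h3)
      · exact h1 h5
    · rw [Finset.card_insert_of_notMem ha]
      refine h5.trans ((add_le_add h3.le h2).trans ?_)
      push_cast
      rw [add_mul, one_mul, add_comm]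

/-- one of the children contains many points -/
theorem big_comp (hA : IsAct S A) {C D F : Set X} {e : ℕ} (hD : D.encard ≤ e)
    (hF : F.encard ≤ e) (hch : ∀ p ∈ C \ D, ∃ q ∈ F, q ∈ comp A (C \ D) p) {E : Set X} {m : ℕ∞}
    {n : ℕ∞} {E0 : Set X} (han : E0.encard < n)
    (hE : E ⊆ E0 ∪ C) (hbig : n + (e + e * m) ≤ E.encard) :
    ∃ p ∈ C \ D, m ≤ (comp A (C \ D) p ∩ E).encard := by
  classical
  by_contra hcon
  push Not at hcon
  have hFe : (F ∩ (C \ D)).encard ≤ e := (Set.encard_le_encard Set.inter_subset_left).trans hF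
  have hFf : (F ∩ (C \ D)).Finite := Set.finite_of_encard_le_coe hFe
  have hFc : (hFf.toFinset.card : ℕ∞) ≤ e := by
    rw [← Set.encard_coe_eq_coe_finsetCard, hFf.coe_toFinset]
    exact hFe
  obtain ⟨h1, h2⟩ := union_bound (C := fun p => comp A (C \ D) p ∩ E) (n := m) hFf.toFinset
    (fun p hp => hcon p ((hFf.mem_toFinset.1 hp).2))
  set U := ⋃ p ∈ hFf.toFinset, comp A (C \ D) p ∩ E with hU
  have hcov : E ⊆ E0 ∪ (D ∪ U) := by
    intro x hx
    rcases hE hx with h | h
    · exact Or.inl h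
    · by_cases hxB : x ∈ D
      · exact Or.inr (Or.inl hxB)
      · refine Or.inr (Or.inr ?_)
        obtain ⟨q, hq, hq'⟩ := hch x ⟨h, hxB⟩
        have hqF : q ∈ F ∩ (C \ D) := ⟨hq, comp_sub hq'⟩
        rw [hU, Set.mem_iUnion₂]
        refine ⟨q, hFf.mem_toFinset.2 hqF, ?_, hx⟩
        rw [comp_eq hA hq']
        exact Conn.refl ⟨h, hxB⟩
  have h3 : E.encard ≤ E0.encard + (e + U.encard) :=
    (Set.encard_le_encard hcov).trans ((Set.encard_union_le _ _).trans
      (add_le_add le_rfl ((Set.encard_union_le _ _).trans (add_le_add hD le_rfl))))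
  have h4 : (e : ℕ∞) + U.encard ≠ ⊤ := by
    intro h
    rcases ENat.add_eq_top.1 h with h | h
    · exact absurd h (ENat.natCast_ne_top e)
    · exact h1 h
  have h5 : E0.encard + (e + U.encard) < n + (e + U.encard) :=
    (ENat.add_lt_add_iff_right h4).2 han
  have h6 : n + (e + U.encard) ≤ n + (e + e * m) := by
    gcongr
    exact h2.trans (by gcongr)
  exact absurd (lt_of_le_of_lt h3 (lt_of_lt_of_le h5 h6)) (not_lt.2 hbig)

/-- a system of regions of an orbit -/
structure Scheme (S : Sys L) (A : L → X → X) (m e : ℕ) (O : Set X) where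
  Reg : Set X → Prop
  μ : Set X → ℕ
  sub : ∀ C, Reg C → C ⊆ O
  ne : ∀ C, Reg C → (O \ C).Nonempty
  coll : ∀ C, Reg C → (N S A C).encard ≤ m
  step : ∀ C, Reg C → ∀ q ∈ C, q ∈ N S A C → ∃ D F : Set X, D.encard ≤ e ∧ F.encard ≤ e ∧
    ∀ p ∈ C \ D, Reg (comp A (C \ D) p) ∧ (∃ x ∈ F, x ∈ comp A (C \ D) p) ∧
      (q ∈ D ∨ μ (comp A (C \ D) p) < μ C)
  root : ∃ D F : Set X, D.encard ≤ e ∧ F.encard ≤ e ∧
    ∀ p ∈ O \ D, Reg (comp A (O \ D) p) ∧ (∃ x ∈ F, x ∈ comp A (O \ D) p)

/-- the main recursion -/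
theorem Scheme.main (hA : IsAct S A) {m e : ℕ} {O : Set X} (T : Scheme S A m e O)
    (hO : Orb A O) {n : ℕ∞} (K E : Set X) (q : ℕ) : ∀ C : Set X, T.Reg C →
      (K ∩ C).encard ≤ q → ThrD e n q ≤ (E ∩ C).encard →
      ∃ V : Set X, (∀ z ∈ V, z ∉ K) ∧ (N S A V).encard ≤ (2 * m : ℕ) ∧ n ≤ (V ∩ E).encard := by
  have hself : ∀ C : Set X, T.Reg C → K ∩ C = ∅ → n ≤ (E ∩ C).encard →
      ∃ V : Set X, (∀ z ∈ V, z ∉ K) ∧ (N S A V).encard ≤ (2 * m : ℕ) ∧
        n ≤ (V ∩ E).encard := by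
    intro C hC hK hE
    refine ⟨C, fun z hz hzK => ?_, (T.coll C hC).trans ?_, by rwa [Set.inter_comm]⟩
    · have : z ∈ K ∩ C := ⟨hzK, hz⟩
      rw [hK] at this
      exact this
    · exact_mod_cast (by omega : m ≤ 2 * m)
  induction q with
  | zero =>
    intro C hC hK hE
    refine hself C hC ?_ hE
    rw [← Set.encard_eq_zero]
    simpa using hK
  | succ q ih =>
    intro C hC hK hE
    by_cases hKC : K ∩ C = ∅
    · refine hself C hC hKC (le_trans ?_ hE)
      rw [ThrD]
      exact le_self_add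
    · obtain ⟨k, hk⟩ := Set.nonempty_iff_ne_empty.2 hKC
      have key : ∀ (l s : ℕ) (C1 : Set X), T.Reg C1 → C1 ⊆ C → K ∩ C ⊆ C1 →
          (∃ w : List L, w.length ≤ l ∧ run A w k ∉ C1) → T.μ C1 ≤ s →
          ∃ V : Set X, (∀ z ∈ V, z ∉ K) ∧ (N S A V).encard ≤ (2 * m : ℕ) ∧
            n ≤ (V ∩ E).encard := by
        intro l
        induction l with
        | zero =>
          rintro s C1 - - h3 ⟨w, hw, hw'⟩ -
          rw [List.length_eq_zero_iff.1 (Nat.le_zero.1 hw)] at hw'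
          exact absurd (h3 hk) hw'
        | succ l ihl =>
          intro s
          induction s using Nat.strong_induction_on with
          | _ s ihs =>
          rintro C1 hR1 h2 h3 ⟨w, hw, hw'⟩ hs
          by_cases hbig : n ≤ (E ∩ (C \ C1)).encard
          · refine ⟨C \ C1, fun z hz hzK => hz.2 (h3 ⟨hzK, hz.1⟩), ?_,
              by rwa [Set.inter_comm]⟩
            refine (Set.encard_le_encard (N_diff C C1)).trans
              ((Set.encard_union_le _ _).trans ((add_le_add (T.coll C hC)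
                (T.coll C1 hR1)).trans ?_))
            exact_mod_cast (by omega : m + m ≤ 2 * m)
          · rw [not_le] at hbig
            have hk1 : k ∈ C1 := h3 hk
            obtain ⟨a, w', h4, h5, h6⟩ := exists_exit hk1 hw'
            have h7 : run A w' k ∈ N S A C1 := (mem_N_of_step hA (a := a) (by tauto)).1
            have h8 : w'.length < w.length := by
              have := h4.length_le
              simp only [List.length_cons] at this
              omega
            obtain ⟨D, F, hD, hF, hch⟩ := T.step C1 hR1 _ h5 h7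
            by_cases hall : ∃ p ∈ C1 \ D, K ∩ C ⊆ comp A (C1 \ D) p
            · obtain ⟨p, hp, hp'⟩ := hall
              obtain ⟨h9, -, h10 | h10⟩ := hch p hp
              · exact ihl _ _ h9 (fun z hz => h2 (comp_sub hz).1) hp'
                  ⟨w', by omega, fun h => (comp_sub h).2 h10⟩ le_rfl
              · exact ihs _ (lt_of_lt_of_le h10 hs) _ h9 (fun z hz => h2 (comp_sub hz).1) hp'
                  ⟨w, hw, fun h => hw' (comp_sub h).1⟩ le_rfl
            · push Not at hall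
              obtain ⟨p, hp, hp'⟩ := big_comp hA hD hF (fun p hp => (hch p hp).2.1)
                (E := E ∩ C) (m := ThrD e n q) hbig (by
                  intro x hx
                  by_cases h : x ∈ C1
                  · exact Or.inr h
                  · exact Or.inl ⟨hx.1, hx.2, h⟩) hE
              have hsub : comp A (C1 \ D) p ⊆ C := fun z hz => h2 (comp_sub hz).1
              refine ih _ (hch p hp).1 ?_
                (hp'.trans (Set.encard_le_encard fun x hx => ⟨hx.2.1, hx.1⟩))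
              have hss : K ∩ comp A (C1 \ D) p ⊂ K ∩ C := by
                refine ⟨fun x hx => ⟨hx.1, hsub hx.2⟩, fun h => hall p hp fun x hx => (h hx).2⟩
              have hfin : (K ∩ C).Finite := Set.finite_of_encard_le_coe hK
              have h7 := (hfin.subset hss.1).encard_lt_encard hss
              have h8 := lt_of_lt_of_le h7 hK
              push_cast at h8
              exact Order.le_of_lt_add_one h8
      obtain ⟨v, hv⟩ := T.ne C hC
      obtain ⟨w, -, hw⟩ := hO.conn k (T.sub C hC hk.2) v hv.1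
      exact key w.length _ C hC (le_refl _) Set.inter_subset_right
        ⟨w, le_rfl, by rw [hw]; exact hv.2⟩ le_rfl

/-- schemes give separating sets -/
theorem sep_of_scheme (hA : IsAct S A) {m e : ℕ}
    (T : ∀ y : X, Scheme S A m e (comp A Set.univ y)) (q : ℕ) {n : ℕ∞} :
    Sep S A (2 * m + 1) q n (1 + ((e : ℕ∞) + e * ThrD e n q)) := by
  intro K E hK hE hone
  have hne : E.Nonempty := by
    rw [← Set.encard_pos]
    exact lt_of_lt_of_le (lt_of_lt_of_le zero_lt_one le_self_add) hE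
  obtain ⟨y, hy⟩ := hne
  have hO : Orb A (comp A Set.univ y) := orb_of hA y
  obtain ⟨D, F, hD, hF, hch⟩ := (T y).root
  obtain ⟨p, hp, hp'⟩ := big_comp hA hD hF (fun p hp => (hch p hp).2) (E := E)
    (m := ThrD e n q) (n := 1) (E0 := ∅) (by simp) (fun x hx => Or.inr (hone y hy x hx)) hE
  obtain ⟨V, h1, h2, h3⟩ := (T y).main hA hO K E q _ (hch p hp).1
    ((Set.encard_le_encard Set.inter_subset_left).trans hK) (by rwa [Set.inter_comm])
  exact ⟨V, h1, h2.trans (by exact_mod_cast Nat.le_succ _), h3⟩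

end Run7.h266
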