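import Pool.Agent.Run7.h266.Few
import Pool.Agent.Run7.h266.Scheme

/-!
# A linear isoperimetric inequality
-/

set_option autoImplicit false

namespace Run7.h266

variable {L : Type} {S : Sys L} {X V : Type}

/-- number of words of length at most `r` -/
noncomputable def nW (L : Type) (r : ℕ) : ℕ := {w : List L | w.length ≤ r}.ncard

theorem words_finite [Finite L] (r : ℕ) : {w : List L | w.length ≤ r}.Finite :=
  List.finite_length_le L r

theorem LB_image (A : L → X → X) (r : ℕ) (x : X) :
    LB A r x = (fun w => run A w x) '' {w : List L | w.length ≤ r} := by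
  ext y
  constructor
  · rintro ⟨w, hw, rfl⟩
    exact ⟨w, hw, rfl⟩
  · rintro ⟨w, hw, rfl⟩
    exact ⟨w, hw, rfl⟩

theorem LB_fin [Finite L] (A : L → X → X) (r : ℕ) (x : X) : (LB A r x).Finite := by
  rw [LB_image]
  exact (words_finite r).image _

theorem LB_ncard [Finite L] (A : L → X → X) (r : ℕ) (x : X) : (LB A r x).ncard ≤ nW L r := by
  rw [LB_image]
  exact Set.ncard_image_le (words_finite r)

/-- the boundary of a set -/
def bdy (A : L → X → X) (Y : Set X) : Set X := {x | x ∈ Y ∧ ∃ a, A a x ∉ Y}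

theorem exits {A : L → X → X} {Y : Set X} {x : X} (hx : x ∈ Y) {w : List L}
    (hw : run A w x ∉ Y) : ∃ u1 u2 a, w = u2 ++ a :: u1 ∧ run A u1 x ∈ bdy A Y := by
  induction w with
  | nil => exact absurd hx hw
  | cons a w ih =>
    by_cases h : run A w x ∈ Y
    · exact ⟨w, [], a, rfl, h, a, hw⟩
    · obtain ⟨u1, u2, b, h1, h2⟩ := ih h
      exact ⟨u1, a :: u2, b, by rw [h1]; rfl, h2⟩

/-- a set all of whose points are near a small set is small -/
theorem ncard_near [Finite L] {A : L → X → X} (hA : IsAct S A) {Y Z : Set X} (hZ : Z.Finite)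
    {r : ℕ} (h : ∀ x ∈ Y, ∃ w : List L, w.length ≤ r ∧ run A w x ∈ Z) :
    Y.ncard ≤ nW L r * Z.ncard := by
  have h1 : Y ⊆ (fun p : List L × X => run A p.1 p.2) '' ({w : List L | w.length ≤ r} ×ˢ Z) := by
    intro x hx
    obtain ⟨w, hw, hz⟩ := h x hx
    exact ⟨(S.winv w, run A w x), ⟨by
      show (S.winv w).length ≤ r
      rwa [S.winv_length], hz⟩, hA.winv_run w x⟩
  have h2 : ({w : List L | w.length ≤ r} ×ˢ Z).Finite := (words_finite r).prod hZ
  refine (Set.ncard_le_ncard h1 (h2.image _)).trans ((Set.ncard_image_le h2).trans ?_)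
  rw [Set.ncard_prod]
  rfl

namespace Fib

variable (F : Fib S X V)

/-- points over stacks are near the base point -/
theorem near {ρ : ℕ} (hρ : ∀ x y, F.π x = F.π y → y ∈ LB F.A ρ x) {x : X} {l : List V}
    (hl : F.Red l) (hb : [F.π x] <:+ l) {y : X} (hy : l.head? = some (F.π y)) :
    y ∈ LB F.A (l.length * (ρ + 1)) x := by
  induction hl generalizing y with
  | one v =>
    rcases List.suffix_cons_iff.1 hb with h1 | h1
    · rw [List.cons.injEq] at h1
      simp only [List.head?_cons, Option.some.injEq] at hy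
      refine LB_mono ?_ (hρ x y (h1.1.trans hy))
      simp
    · exact absurd (List.suffix_nil.1 h1) (by simp)
  | @cons v u r h1 h2 h3 ih =>
    have h4 : [F.π x] <:+ u :: r := by
      rcases List.suffix_cons_iff.1 hb with h5 | h5
      · simp at h5
      · exact h5
    simp only [List.head?_cons, Option.some.injEq] at hy
    obtain ⟨-, z, a, hz, haz⟩ := h1
    have h5 := ih h4 (y := z) (by rw [hz]; rfl)
    have h6 : F.A a z ∈ LB F.A 1 z := ⟨[a], le_rfl, rfl⟩
    have h7 : y ∈ LB F.A ρ (F.A a z) := hρ _ _ (haz.trans hy)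
    have h8 := LB_trans (LB_trans h5 h6) h7
    refine LB_mono ?_ h8
    simp only [List.length_cons]
    ring_nf
    omega

/-- If all vertices near a point are supported and the orbit of the point with respect to the
letters in `T` is large, then `T` is seen. -/
theorem big_seen [Finite L] {G : Type} [Group G] (P : Pres S G) {T : Set L}
    (hT : ∀ a ∈ T, S.inv a ∈ T) {m : ℕ}
    (hm : ∀ χ : ℕ → ℕ → KK L (F.n + 1),
      ∃ i j k, i < j ∧ j < k ∧ k < m ∧ χ i j = χ i k ∧ χ j k = χ i k)
    {ρ : ℕ} (hρ : ∀ x y, F.π x = F.π y → y ∈ LB F.A ρ x) {x : X}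
    (hbig : ¬ TO F.A T x ⊆ LB F.A ((m + 1) * (ρ + 1)) x)
    (hsupp : ∀ y ∈ LB F.A ((m + 1) * (ρ + 1)) x, F.Supp (F.π y)) : Seen P T := by
  have hx0 : (x, [F.π x]) ∈ F.Bd (m + 1) := ⟨⟨rfl, Red.one _⟩, by simp⟩
  by_cases hreach : ∃ q, TC F.us T (F.Bd (m + 1)) (x, [F.π x]) q ∧ m + 1 ≤ q.2.length
  · obtain ⟨q, hq, hlen⟩ := hreach
    refine F.pump P hT hm hq rfl hlen ?_
    intro l v hl hv hb hlN
    -- a point over the top of the stack
    have hex : ∃ y, F.π y = v := by
      cases hl with
      | one u =>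
        rcases List.suffix_cons_iff.1 hb with h1 | h1
        · rw [List.cons.injEq] at h1
          simp only [List.head?_cons, Option.some.injEq] at hv
          exact ⟨x, h1.1.trans hv⟩
        · exact absurd (List.suffix_nil.1 h1) (by simp)
      | cons h1 _ _ =>
        simp only [List.head?_cons, Option.some.injEq] at hv
        obtain ⟨-, z, a, hz, haz⟩ := h1
        exact ⟨F.A a z, haz.trans hv⟩
    obtain ⟨y, hy⟩ := hex
    rw [← hy]
    refine hsupp y (LB_mono (Nat.mul_le_mul_right _ hlN) (F.near hρ hl hb ?_))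
    rw [hv, hy]
  · exfalso
    push Not at hreach
    apply hbig
    rintro _ ⟨w, hw, rfl⟩
    have key : ∃ q, TC F.us T (F.Bd (m + 1)) (x, [F.π x]) q ∧ q.1 = run F.A w x := by
      induction w with
      | nil => exact ⟨_, TC.refl hx0, rfl⟩
      | cons a w ih =>
        obtain ⟨q, h1, h2⟩ := ih fun b hb => hw b (List.mem_cons_of_mem _ hb)
        have h3 := hreach q h1
        have h4 : F.us a q ∈ F.Bd (m + 1) := by
          refine ⟨F.us_mem h1.right.1 a, ?_⟩
          rcases F.us_cases h1.right.1 a with ⟨h5, h6⟩ | ⟨v, l, h5, h6, h7, h8⟩ | ⟨h5, h6, h7⟩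
          · rw [h6]
            exact h3.le
          · rw [h8]
            rw [h5] at h3
            simp only [List.length_cons] at h3
            dsimp only
            omega
          · rw [h6]
            simp only [List.length_cons]
            omega
        refine ⟨F.us a q, TC.step a h1 (hw a (List.mem_cons_self ..)) h4, ?_⟩
        show F.A a q.1 = F.A a (run F.A w x)
        rw [h2]
    obtain ⟨q, h1, h2⟩ := key
    rw [← h2]
    have h3 := F.base_suffix (fun p hp => hp.1) h1 rfl
    exact LB_mono (Nat.mul_le_mul_right _ h1.right.2) (F.near hρ h1.right.1.2 h3 h1.right.1.1)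

end Fib

open Classical in
/-- The linear isoperimetric inequality for the points with large orbits. -/
theorem isop_fib [Finite L] (t ρ : ℕ) : ∃ C : ℕ, ∀ {S : Sys L} {G : Type} [Group G] (P : Pres S G)
    {T : Set L} (_ : ∀ a ∈ T, S.inv a ∈ T) (_ : ¬ Seen P T) {X V : Type} (F : Fib S X V)
    (_ : F.t = t) (_ : ∀ x y, F.π x = F.π y → y ∈ LB F.A ρ x) (Y : Set X), Y.Finite →
      {x | x ∈ Y ∧ (C : ℕ∞) < (TO F.A T x).encard}.ncard ≤ C * (bdy F.A Y).ncard := by
  obtain ⟨m, hm⟩ := triangle (KK L (2 * t + 1))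
  obtain ⟨C0, hC0⟩ := few_unsupported (L := L) t
  set R := (m + 1) * (ρ + 1) with hR
  refine ⟨nW L R + nW L R * (t * (C0 * (nW L ρ * Nat.card L)) + 1), ?_⟩
  intro S G _ P T hT hns X V F ht hρ Y hY
  subst ht
  have hbfin : (bdy F.A Y).Finite := hY.subset fun x hx => hx.1
  -- the vertices
  let Vf : Finset V := (hY.image F.π).toFinset
  have hVf : ∀ v, v ∈ Vf ↔ ∃ x ∈ Y, F.π x = v := by
    intro v
    simp [Vf]
  have hOutfin : (F.Out (Vf : Set V)).Finite :=
    (F.He_finite Vf.finite_toSet).subset (F.Out_sub _)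
  -- edges which leave
  have hOut : (F.Out (Vf : Set V)).ncard ≤ nW L ρ * Nat.card L * (bdy F.A Y).ncard := by
    have h1 : F.Out (Vf : Set V) ⊆ (fun p : (List L × L) × X =>
        (F.π (run F.A p.1.1 p.2), F.π (F.A p.1.2 (run F.A p.1.1 p.2)))) ''
        (({w : List L | w.length ≤ ρ} ×ˢ Set.univ) ×ˢ bdy F.A Y) := by
      rintro ⟨v, w⟩ ⟨h2, ⟨h3, x, a, h4, h5⟩, h6⟩
      dsimp only at h2 h4 h5 h6
      obtain ⟨x0, hx0, h7⟩ := (hVf v).1 h2
      obtain ⟨u, hu, hux⟩ := hρ x0 x (h7.trans h4.symm)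
      have h8 : run F.A (a :: u) x0 ∉ Y := by
        intro h9
        apply h6
        rw [Finset.mem_coe, hVf]
        refine ⟨_, h9, ?_⟩
        rw [run_cons, hux, h5]
      obtain ⟨u1, u2, b, h9, h10⟩ := exits hx0 h8
      cases u2 with
      | nil =>
        simp only [List.nil_append, List.cons.injEq] at h9
        obtain ⟨rfl, rfl⟩ := h9
        refine ⟨(([], a), run F.A u x0), ⟨⟨by simp, Set.mem_univ _⟩, h10⟩, ?_⟩
        simp only [run_nil]
        rw [hux, h4, h5]
      | cons c u2 =>
        simp only [List.cons_append, List.cons.injEq] at h9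
        obtain ⟨rfl, rfl⟩ := h9
        refine ⟨((u2 ++ [b], a), run F.A u1 x0), ⟨⟨?_, Set.mem_univ _⟩, h10⟩, ?_⟩
        · simp only [Set.mem_ofPred_eq, List.length_append, List.length_cons,
            List.length_nil] at hu ⊢
          omega
        · have h11 : run F.A (u2 ++ [b]) (run F.A u1 x0) = x := by
            rw [← hux, ← run_append]
            simp
          simp only
          rw [h11, h4, h5]
    have h2 : (({w : List L | w.length ≤ ρ} ×ˢ (Set.univ : Set L)) ×ˢ bdy F.A Y).Finite :=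
      ((words_finite ρ).prod (Set.toFinite _)).prod hbfin
    refine (Set.ncard_le_ncard h1 (h2.image _)).trans ((Set.ncard_image_le h2).trans ?_)
    rw [Set.ncard_prod, Set.ncard_prod, Set.ncard_univ]
    rfl
  -- the unsupported points of `Y`
  set Z : Set X := {x | x ∈ Y ∧ ¬ F.Supp (F.π x)} with hZ
  have hZfin : Z.Finite := hY.subset fun x hx => hx.1
  have hZcard : Z.ncard ≤ F.t * (C0 * (nW L ρ * Nat.card L * (bdy F.A Y).ncard)) := by
    have h1 := hC0 F rfl Vf
    have h2 : Z ⊆ ↑((Vf.filter fun v => ¬ F.Supp v).biUnion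
        fun v => (Set.finite_of_encard_le_coe (F.fib v)).toFinset) := by
      rintro x ⟨hx1, hx2⟩
      simp only [Finset.coe_biUnion, Set.mem_iUnion, Finset.mem_coe, Finset.mem_filter,
        Set.Finite.mem_toFinset]
      exact ⟨F.π x, ⟨(hVf _).2 ⟨x, hx1, rfl⟩, hx2⟩, rfl⟩
    refine (Set.ncard_le_ncard h2 (Finset.finite_toSet _)).trans ?_
    rw [Set.ncard_coe_finset]
    refine (Finset.card_biUnion_le_card_mul _ _ F.t fun v _ => ?_).trans ?_
    · have h3 := F.fib v
      have h4 : {x | F.π x = v}.Finite := Set.finite_of_encard_le_coe h3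
      rw [← h4.cast_ncard_eq, Set.ncard_eq_toFinset_card _ h4] at h3
      exact_mod_cast h3
    · rw [mul_comm]
      refine Nat.mul_le_mul_left _ ?_
      have h5 : (↑(Vf.filter fun v => ¬ F.Supp v) : Set V) = {v | v ∈ Vf ∧ ¬ F.Supp v} := by
        ext v
        simp
      rw [← Set.ncard_coe_finset, h5]
      exact h1.trans (Nat.mul_le_mul_left _ hOut)
  -- the points with large orbits are near the boundary or near unsupported points
  have hnear : {x | x ∈ Y ∧ ((nW L R + nW L R * (F.t * (C0 * (nW L ρ * Nat.card L)) + 1) : ℕ) : ℕ∞) <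
      (TO F.A T x).encard}.ncard ≤ nW L R * (Z ∪ bdy F.A Y).ncard := by
    refine ncard_near F.act (hZfin.union hbfin) ?_
    rintro x ⟨hxY, hx⟩
    have hbig : ¬ TO F.A T x ⊆ LB F.A R x := by
      intro h1
      have h2 := Set.encard_le_encard h1
      have h3 := LB_ncard F.A R x
      rw [← (LB_fin F.A R x).cast_ncard_eq] at h2
      have h4 : (TO F.A T x).encard ≤ ((nW L R : ℕ) : ℕ∞) := h2.trans (by exact_mod_cast h3)
      have h5 := lt_of_lt_of_le hx h4
      have h6 : nW L R + nW L R * (F.t * (C0 * (nW L ρ * Nat.card L)) + 1) < nW L R := by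
        exact_mod_cast h5
      omega
    by_contra hcon
    push Not at hcon
    apply hns
    refine F.big_seen P hT hm hρ hbig ?_
    rintro y ⟨w, hw, rfl⟩
    by_contra hs
    by_cases hy : run F.A w x ∈ Y
    · exact hcon w hw (Or.inl ⟨hy, hs⟩)
    · obtain ⟨u1, u2, a, h1, h2⟩ := exits hxY hy
      refine hcon u1 ?_ (Or.inr h2)
      rw [h1] at hw
      simp only [List.length_append, List.length_cons] at hw
      omega
  refine hnear.trans ?_
  have h1 := Set.ncard_union_le Z (bdy F.A Y)
  calc nW L R * (Z ∪ bdy F.A Y).ncard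
      ≤ nW L R * (F.t * (C0 * (nW L ρ * Nat.card L * (bdy F.A Y).ncard)) +
        (bdy F.A Y).ncard) := Nat.mul_le_mul_left _ (h1.trans (Nat.add_le_add_right hZcard _))
    _ = nW L R * (F.t * (C0 * (nW L ρ * Nat.card L)) + 1) * (bdy F.A Y).ncard := by ring
    _ ≤ _ := Nat.mul_le_mul_right _ (Nat.le_add_left _ _)

end Run7.h266
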