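import Mathlib

/-!
# Limits of pointed transitive actions
-/

set_option autoImplicit false

namespace Run7.h266

open Filter

/-- a limit of a sequence of pointed `G`-sets with subsets -/
theorem exists_limit {G : Type} [Group G] (Ω : ℕ → Type)
    [∀ n, MulAction G (Ω n)] (ω : ∀ n, Ω n) (C : ∀ n, Set (Ω n)) :
    ∃ (Λ : Type) (_ : MulAction G Λ) (o : Λ) (C' : Set Λ), (∀ x : Λ, ∃ g : G, g • o = x) ∧
      ∀ F : Set G, F.Finite → ∀ k : ℕ, ∃ n ≥ k,
        (∀ g ∈ F, ∀ h ∈ F, (g • o = h • o ↔ g • ω n = h • ω n)) ∧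
        ∀ g ∈ F, (g • o ∈ C' ↔ g • ω n ∈ C n) := by
  classical
  let 𝒰 : Ultrafilter ℕ := hyperfilter ℕ
  let H : Subgroup G :=
    { carrier := {g | ∀ᶠ n in (𝒰 : Filter ℕ), g • ω n = ω n}
      mul_mem' := by
        intro a b ha hb
        filter_upwards [ha, hb] with n h1 h2
        rw [mul_smul, h2, h1]
      one_mem' := Eventually.of_forall fun n => one_smul _ _
      inv_mem' := by
        intro a ha
        filter_upwards [ha] with n h1
        rw [inv_smul_eq_iff, h1] }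
  have h1 : ∀ g : G, g • ((1 : G) : G ⧸ H) = (g : G ⧸ H) := by
    intro g
    show ((g * 1 : G) : G ⧸ H) = _
    rw [mul_one]
  have hiff : ∀ g h : G, (g • ((1 : G) : G ⧸ H) = h • ((1 : G) : G ⧸ H) ↔
      ∀ᶠ n in (𝒰 : Filter ℕ), g • ω n = h • ω n) := by
    intro g h
    rw [h1, h1, QuotientGroup.eq]
    show (∀ᶠ n in (𝒰 : Filter ℕ), (g⁻¹ * h) • ω n = ω n) ↔ _
    refine eventually_congr (Eventually.of_forall fun n => ?_)
    rw [mul_smul, inv_smul_eq_iff]
    exact eq_comm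
  have hsurj : ∀ x : G ⧸ H, ∃ g : G, g • ((1 : G) : G ⧸ H) = x := by
    intro x
    obtain ⟨g, rfl⟩ := QuotientGroup.mk_surjective x
    exact ⟨g, h1 g⟩
  choose γ hγ using hsurj
  let C' : Set (G ⧸ H) := {x | ∀ᶠ n in (𝒰 : Filter ℕ), γ x • ω n ∈ C n}
  have hC : ∀ g : G, (g • ((1 : G) : G ⧸ H) ∈ C' ↔ ∀ᶠ n in (𝒰 : Filter ℕ), g • ω n ∈ C n) := by
    intro g
    have h2 := (hiff _ _).1 (hγ (g • ((1 : G) : G ⧸ H)))
    show (∀ᶠ n in (𝒰 : Filter ℕ), γ (g • ((1 : G) : G ⧸ H)) • ω n ∈ C n) ↔ _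
    refine eventually_congr ?_
    filter_upwards [h2] with n h3
    rw [h3]
  refine ⟨G ⧸ H, inferInstance, ((1 : G) : G ⧸ H), C', fun x => ⟨γ x, hγ x⟩,
    fun F hF k => ?_⟩
  have e1 : ∀ g ∈ F, ∀ h ∈ F, ∀ᶠ n in (𝒰 : Filter ℕ),
      (g • ((1 : G) : G ⧸ H) = h • ((1 : G) : G ⧸ H) ↔ g • ω n = h • ω n) := by
    intro g _ h _
    by_cases h2 : g • ((1 : G) : G ⧸ H) = h • ((1 : G) : G ⧸ H)
    · filter_upwards [(hiff g h).1 h2] with n h3
      exact ⟨fun _ => h3, fun _ => h2⟩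
    · have h3 : ¬ ∀ᶠ n in (𝒰 : Filter ℕ), g • ω n = h • ω n := fun h' => h2 ((hiff g h).2 h')
      filter_upwards [Ultrafilter.eventually_not.2 h3] with n h4
      exact ⟨fun h' => absurd h' h2, fun h' => absurd h' h4⟩
  have e2 : ∀ g ∈ F, ∀ᶠ n in (𝒰 : Filter ℕ),
      (g • ((1 : G) : G ⧸ H) ∈ C' ↔ g • ω n ∈ C n) := by
    intro g _
    by_cases h2 : g • ((1 : G) : G ⧸ H) ∈ C'
    · filter_upwards [(hC g).1 h2] with n h3
      exact ⟨fun _ => h3, fun _ => h2⟩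
    · have h3 : ¬ ∀ᶠ n in (𝒰 : Filter ℕ), g • ω n ∈ C n := fun h' => h2 ((hC g).2 h')
      filter_upwards [Ultrafilter.eventually_not.2 h3] with n h4
      exact ⟨fun h' => absurd h' h2, fun h' => absurd h' h4⟩
  have e3 : ∀ᶠ n in (𝒰 : Filter ℕ), k ≤ n :=
    Nat.hyperfilter_le_atTop (eventually_ge_atTop k)
  have e4 := (eventually_all_finite hF).2 fun g hg => (eventually_all_finite hF).2 (e1 g hg)
  have e5 := (eventually_all_finite hF).2 e2
  obtain ⟨n, h3, h4, h5⟩ := (e3.and (e4.and e5)).exists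
  exact ⟨n, h3, h4, h5⟩

/-- images with the same pattern have the same number of points -/
theorem encard_pattern {α β γ : Type} {f : α → β} {g : α → γ} {F : Set α}
    (h : ∀ a ∈ F, ∀ b ∈ F, (f a = f b ↔ g a = g b)) : (f '' F).encard = (g '' F).encard := by
  have key : ∀ {β γ : Type} {f : α → β} {g : α → γ},
      (∀ a ∈ F, ∀ b ∈ F, (f a = f b ↔ g a = g b)) → (f '' F).encard ≤ (g '' F).encard := by
    intro β γ f g h
    by_cases hne : F.Nonempty
    · obtain ⟨a0, ha0⟩ := hne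
      classical
      have h1 : ∀ y : γ, ∃ x : β, ∀ a ∈ F, g a = y → f a = x := by
        intro y
        by_cases hy : ∃ a ∈ F, g a = y
        · obtain ⟨a, ha, rfl⟩ := hy
          exact ⟨f a, fun b hb hba => (h b hb a ha).2 hba⟩
        · exact ⟨f a0, fun b hb hba => absurd ⟨b, hb, hba⟩ hy⟩
      choose u hu using h1
      have h2 : f '' F ⊆ u '' (g '' F) := by
        rintro _ ⟨a, ha, rfl⟩
        exact ⟨g a, ⟨a, ha, rfl⟩, (hu _ a ha rfl).symm⟩
      exact (Set.encard_le_encard h2).trans (Set.encard_image_le _ _)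
    · rw [Set.not_nonempty_iff_eq_empty] at hne
      simp [hne]
  exact le_antisymm (key h) (key fun a ha b hb => (h a ha b hb).symm)

end Run7.h266
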