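import Pool.Agent.Run7.h266.GrowthB
import Pool.Agent.Run7.h266.Limit

/-!
# One ball suffices
-/

set_option autoImplicit false

namespace Run7.h266

open Pool.Agent.H785R3.GrowthA
open scoped Pointwise commutatorElement

section

variable {L : Type} {S : Sys L}

/-- infinite orbits with schemes -/
theorem inf_scheme [Finite L] {G : Type} [Group G] (P : Pres S G) (hG : Group.FG G)
    (hNF : ∀ a b : G, ¬ FreePair a b) (m e : ℕ) :
    ∃ K : Subgroup G, K.FiniteIndex ∧ K.Normal ∧ (⁅K, K⁆ : Subgroup G).FG ∧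
      ∀ (X : Type) (A : L → X → X), IsAct S A →
        (∀ y, Nonempty (Scheme S A m e (comp A Set.univ y))) →
        ∀ w, P.val w ∈ (⁅K, K⁆ : Subgroup G) → ∀ y, (comp A Set.univ y).encard = ⊤ →
        run A w y = y := by
  obtain ⟨K, h1, h2, h3, h4⟩ := star P hG hNF (2 * m + 1)
  refine ⟨K, h1, h2, h3, fun X A hA hT w hw y hy => ?_⟩
  refine infinite_case P hNF (Nat.succ_pos _) h4 hA (fun q => ?_) w hw y hy
  intro K' E hK' hE hone
  exact sep_of_scheme hA (fun y => (hT y).some) q (n := ⊤) K' E hK' (le_trans le_top hE) hone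

end

variable {G : Type} [Group G]

/-- small balls contain thin discs -/
theorem discs_of_growth {n : ℕ} (φ : FreeGroup (Fin n) →* G)
    (R : Finset (FreeGroup (Fin n)))
    (hR : Subgroup.normalClosure (R : Set (FreeGroup (Fin n))) = φ.ker) {S0 : Set G}
    {lam : ℕ} (hlam : 1 ≤ lam)
    (hlam' : ∀ a : Fin n × Bool, φ (FreeGroup.mk [a]) ∈ (S0 ∪ S0⁻¹ ∪ {1}) ^ lam) {r0 : ℕ}
    {Ω : Type} [MulAction G Ω]
    (hΩ : ∀ ω : Ω, ∃ r ≤ r0, ((64 * (sysOf R).ℓ ^ 2 * lam ^ 2 : ℕ) : ℕ∞) * (Bl S0 r ω).encard ≤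
      (r ^ 2 : ℕ)) :
    Nonempty (Discs (sysOf R) (actOf φ Ω) r0 (r0 ^ 2)) := by
  classical
  have hℓ : 1 ≤ (sysOf R).ℓ := le_trans (by norm_num) (sysOf R).two
  have hA := actOf_isAct φ R hR Ω
  have hdisc : ∀ y : Ω, ∃ s : ℕ, (sysOf R).ℓ ≤ s ∧
      (N (sysOf R) (actOf φ Ω) (LB (actOf φ Ω) s y)).encard ≤ s ∧
      (N (sysOf R) (actOf φ Ω) (LB (actOf φ Ω) s y)).encard ≤ r0 ∧
      (LB (actOf φ Ω) s y).encard ≤ (r0 ^ 2 : ℕ) := by
    intro y
    obtain ⟨r, hr, hB⟩ := hΩ y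
    have hDpos : 0 < 64 * (sysOf R).ℓ ^ 2 * lam ^ 2 := by positivity
    have hBr : (Bl S0 r y).encard ≤ (r ^ 2 : ℕ) := by
      refine le_trans ?_ hB
      have : (1 : ℕ∞) ≤ ((64 * (sysOf R).ℓ ^ 2 * lam ^ 2 : ℕ) : ℕ∞) := by exact_mod_cast hDpos
      calc (Bl S0 r y).encard = 1 * (Bl S0 r y).encard := (one_mul _).symm
        _ ≤ _ := by gcongr
    have hfinB : (Bl S0 r y).Finite := Set.finite_of_encard_le_coe hBr
    have hsub : ∀ s, lam * s ≤ r → LB (actOf φ Ω) s y ⊆ Bl S0 r y := fun s hs =>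
      (LB_Bl φ hlam' s y).trans (bl_mono hs)
    set ρ := r / (2 * lam) with hρ
    have hρr : 2 * lam * ρ ≤ r := Nat.mul_div_le r (2 * lam)
    have hsub2 : LB (actOf φ Ω) (2 * ρ) y ⊆ Bl S0 r y := hsub _ (by
      calc lam * (2 * ρ) = 2 * lam * ρ := by ring
        _ ≤ r := hρr)
    have hfin2 := hfinB.subset hsub2
    have hnum := numbers (ℓ := (sysOf R).ℓ) (lam := lam) (r := r)
      (β := (LB (actOf φ Ω) (2 * ρ) y).ncard) hℓ hlam
      ((Set.ncard_pos hfin2).2 ⟨y, LB_self⟩) (by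
        have h4 : (LB (actOf φ Ω) (2 * ρ) y).ncard ≤ (Bl S0 r y).ncard :=
          Set.ncard_le_ncard hsub2 hfinB
        rw [← hfinB.cast_ncard_eq] at hB
        have h5 : 64 * (sysOf R).ℓ ^ 2 * lam ^ 2 * (Bl S0 r y).ncard ≤ r ^ 2 := by
          exact_mod_cast hB
        exact (Nat.mul_le_mul_left _ h4).trans h5)
    obtain ⟨s, h4, h5, h6⟩ := small_shell (S := sysOf R) hA (y := y) (ρ := ρ)
      (k := ρ / (2 * (sysOf R).ℓ)) (Nat.mul_div_le _ _) (by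
        rw [← hfin2.cast_ncard_eq]
        exact_mod_cast hnum)
    have hρs : ρ ≤ s := by omega
    have hρr0 : ρ ≤ r0 := (Nat.div_le_self _ _).trans hr
    refine ⟨s, by omega, h6.trans (by exact_mod_cast hρs), h6.trans (by exact_mod_cast hρr0), ?_⟩
    refine (Set.encard_le_encard ((LB_mono h5).trans hsub2)).trans (hBr.trans ?_)
    exact_mod_cast Nat.pow_le_pow_left hr 2
  choose s hs1 hs2 hs3 hs4 using hdisc
  exact ⟨⟨s, hs1, hs2, hs3, hs4⟩⟩

/-- infinite orbits of slow growth -/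
theorem growth_inf {n : ℕ} (φ : FreeGroup (Fin n) →* G)
    (hφ : Function.Surjective φ) (R : Finset (FreeGroup (Fin n)))
    (hR : Subgroup.normalClosure (R : Set (FreeGroup (Fin n))) = φ.ker)
    (hNF : ∀ a b : G, ¬ FreePair a b) {S0 : Set G} (hS : Subgroup.closure S0 = ⊤) :
    ∃ D : ℕ, 0 < D ∧ ∀ r0 : ℕ, ∃ K : Subgroup G, K.FiniteIndex ∧ K.Normal ∧
      (⁅K, K⁆ : Subgroup G).FG ∧
      ∀ (Ω : Type) [MulAction G Ω], (∀ x y : Ω, ∃ g : G, g • x = y) → Infinite Ω →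
        (∀ ω : Ω, ∃ r ≤ r0, (D : ℕ∞) * (Bl S0 r ω).encard ≤ (r ^ 2 : ℕ)) →
        ∀ g ∈ (⁅K, K⁆ : Subgroup G), ∀ ω : Ω, g • ω = ω := by
  classical
  obtain ⟨lam, hlam, hlam'⟩ := exists_lam φ hS
  have hℓ : 1 ≤ (sysOf R).ℓ := le_trans (by norm_num) (sysOf R).two
  refine ⟨64 * (sysOf R).ℓ ^ 2 * lam ^ 2, by positivity, fun r0 => ?_⟩
  obtain ⟨K, h1, h2, h3, h4⟩ := inf_scheme (presOf φ hφ R hR) (Group.fg_of_surjective hφ) hNF
    (3 * r0) (r0 ^ 2 + r0)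
  refine ⟨K, h1, h2, h3, fun Ω _ htr hinf hΩ g hg ω => ?_⟩
  have hA := actOf_isAct φ R hR Ω
  obtain ⟨T⟩ := discs_of_growth φ R hR hlam hlam' hΩ
  obtain ⟨w, rfl⟩ := (presOf φ hφ R hR).surj g
  have h5 : comp (actOf φ Ω) Set.univ ω = Set.univ := by
    rw [Set.eq_univ_iff_forall]
    intro z
    obtain ⟨g, rfl⟩ := htr ω z
    exact conn_of_orbit φ hφ g
  have := h4 Ω (actOf φ Ω) hA (fun y => ⟨T.scheme (presOf φ hφ R hR) hNF hA y⟩) w hg ω
    (by rw [h5]; exact Set.encard_eq_top_iff.2 (Set.infinite_univ_iff.2 hinf))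
  rw [run_actOf] at this
  exact this

/-- a proper ball of radius `n` has more than `j` points of level at most `j` -/
theorem ball_grows {S0 : Set G} (hS : Subgroup.closure S0 = ⊤) {Ω : Type} [MulAction G Ω]
    (htr : ∀ x y : Ω, ∃ g : G, g • x = y) {ω : Ω} {n : ℕ} (hne : Bl S0 n ω ≠ Set.univ) :
    ∀ j ≤ n, ((j + 1 : ℕ) : ℕ∞) ≤ (Bl S0 j ω).encard := by
  intro j
  induction j with
  | zero =>
    intro _
    have : ({ω} : Set Ω) ⊆ Bl S0 0 ω := by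
      rintro _ rfl
      exact bl_self
    have h1 := Set.encard_le_encard this
    rw [Set.encard_singleton] at h1
    simpa using h1
  | succ j ih =>
    intro hj
    have h1 := ih (by omega)
    have h2 : Bl S0 j ω ≠ Bl S0 (j + 1) ω := by
      intro heq
      apply hne
      -- the ball is invariant
      have hinv : ∀ s ∈ S0, ∀ x ∈ Bl S0 j ω, s • x ∈ Bl S0 j ω ∧ s⁻¹ • x ∈ Bl S0 j ω := by
        intro s hs x hx
        rw [heq]
        exact ⟨bl_step hx (Or.inl (Or.inl hs)), bl_step hx (Or.inl (Or.inr (by simpa using hs)))⟩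
      have hall : ∀ g : G, (∀ x ∈ Bl S0 j ω, g • x ∈ Bl S0 j ω ∧ g⁻¹ • x ∈ Bl S0 j ω) := by
        intro g
        have hg : g ∈ Subgroup.closure S0 := by rw [hS]; trivial
        induction hg using Subgroup.closure_induction with
        | mem s hs => exact hinv s hs
        | one => intro x hx; simpa using hx
        | mul a b _ _ ha hb =>
          intro x hx
          rw [mul_smul, mul_inv_rev, mul_smul]
          exact ⟨(ha _ (hb x hx).1).1, (hb _ (ha x hx).2).2⟩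
        | inv a _ ha =>
          intro x hx
          rw [inv_inv]
          exact (ha x hx).symm
      rw [Set.eq_univ_iff_forall]
      intro y
      obtain ⟨g, rfl⟩ := htr ω y
      exact bl_mono (by omega : j ≤ n) (hall g ω bl_self).1
    have h3 : Bl S0 j ω ⊂ Bl S0 (j + 1) ω := bl_mono_succ.ssubset_of_ne h2
    by_cases hfin : (Bl S0 j ω).Finite
    · have h4 := hfin.encard_lt_encard h3
      have h5 := Order.add_one_le_of_lt (lt_of_le_of_lt h1 h4)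
      exact_mod_cast h5
    · have h4 : (Bl S0 (j + 1) ω).Infinite := fun h => hfin (h.subset bl_mono_succ)
      rw [h4.encard_eq]
      exact le_top

theorem mem_gens_pow {S0 : Set G} (hS : Subgroup.closure S0 = ⊤) (g : G) :
    ∃ k : ℕ, g ∈ (S0 ∪ S0⁻¹ ∪ {1}) ^ k := by
  have hg : g ∈ Subgroup.closure S0 := by rw [hS]; trivial
  induction hg using Subgroup.closure_induction with
  | mem s hs => exact ⟨1, by rw [pow_one]; exact Or.inl (Or.inl hs)⟩
  | one => exact ⟨0, by simp⟩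
  | mul a b _ _ ha hb =>
    obtain ⟨ka, ha⟩ := ha
    obtain ⟨kb, hb⟩ := hb
    refine ⟨ka + kb, ?_⟩
    rw [pow_add]
    exact Set.mul_mem_mul ha hb
  | inv a _ ha =>
    obtain ⟨ka, ha⟩ := ha
    refine ⟨ka, ?_⟩
    have h2 : (S0 ∪ S0⁻¹ ∪ {1} : Set G)⁻¹ = S0 ∪ S0⁻¹ ∪ {1} := by
      rw [Set.union_inv, Set.union_inv, inv_inv, Set.inv_singleton, inv_one,
        Set.union_comm S0⁻¹ S0]
    rw [← h2, inv_pow]
    simpa using ha

theorem gens_pow_finite {S0 : Set G} (hfin : S0.Finite) (k : ℕ) :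
    ((S0 ∪ S0⁻¹ ∪ {1}) ^ k : Set G).Finite := by
  have h1 : (S0 ∪ S0⁻¹ ∪ {1} : Set G).Finite :=
    (hfin.union hfin.inv).union (Set.finite_singleton 1)
  induction k with
  | zero =>
    rw [pow_zero]
    exact Set.finite_one
  | succ k ih =>
    rw [pow_succ]
    exact ih.mul h1

/-- balls of radius `r` around points of level at most `k` as images -/
theorem Bl_eq_image {S0 : Set G} {Ω : Type} [MulAction G Ω] (r : ℕ) (g : G) (o : Ω) :
    Bl S0 r (g • o) = (fun h : G => h • o) '' ((fun h => h * g) '' ((S0 ∪ S0⁻¹ ∪ {1}) ^ r)) := by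
  ext x
  simp only [Bl, Set.mem_ofPred_eq, Set.mem_image, exists_exists_and_eq_and, mul_smul]

/-- compactness: a conclusion about infinite transitive actions holds as soon as the hypothesis
holds on a large ball -/
theorem local_growth_of {S0 : Set G} (hS : Subgroup.closure S0 = ⊤) (hfin : S0.Finite)
    (M : Subgroup G) (hMn : M.Normal) (hM : M.FG) (D r0 : ℕ)
    (hinf : ∀ (Ω : Type) [MulAction G Ω], (∀ x y : Ω, ∃ g : G, g • x = y) → Infinite Ω →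
      (∀ ω : Ω, ∃ r ≤ r0, (D : ℕ∞) * (Bl S0 r ω).encard ≤ (r ^ 2 : ℕ)) →
      ∀ g ∈ M, ∀ ω : Ω, g • ω = ω) :
    ∃ R0 : ℕ, ∀ (Ω : Type) [MulAction G Ω], (∀ x y : Ω, ∃ g : G, g • x = y) → ∀ ω : Ω,
      Bl S0 R0 ω ≠ Set.univ →
      (∀ x ∈ Bl S0 R0 ω, ∃ r ≤ r0, (D : ℕ∞) * (Bl S0 r x).encard ≤ (r ^ 2 : ℕ)) →
      ∀ g ∈ M, ∀ x : Ω, g • x = x := by
  classical
  by_contra hcon
  have hcon' : ∀ n : ℕ, ∃ (Ω : Type) (_ : MulAction G Ω) (_ : ∀ x y : Ω, ∃ g : G, g • x = y)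
      (ω : Ω), Bl S0 n ω ≠ Set.univ ∧
      (∀ x ∈ Bl S0 n ω, ∃ r ≤ r0, (D : ℕ∞) * (Bl S0 r x).encard ≤ (r ^ 2 : ℕ)) ∧
      ¬ ∀ g ∈ M, ∀ x : Ω, g • x = x := by
    intro n
    by_contra hn
    apply hcon
    refine ⟨n, fun Ω _ htr ω h1 h2 => ?_⟩
    by_contra h3
    exact hn ⟨Ω, inferInstance, htr, ω, h1, h2, h3⟩
  clear hcon
  choose Ω inst htr ω hne hgr hbad using hcon'
  obtain ⟨Λ, _, o, _C, hΛ, hpat⟩ := exists_limit (G := G) Ω ω (fun _ => ∅)
  have h1mem : ∀ r : ℕ, (1 : G) ∈ (S0 ∪ S0⁻¹ ∪ {1}) ^ r := fun r =>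
    Set.one_mem_pow (Or.inr rfl)
  have hmono : ∀ {r r' : ℕ}, r ≤ r' → ((S0 ∪ S0⁻¹ ∪ {1}) ^ r : Set G) ⊆
      (S0 ∪ S0⁻¹ ∪ {1}) ^ r' := fun h => Set.pow_subset_pow_right (Or.inr rfl) h
  have hΛtr : ∀ x y : Λ, ∃ g : G, g • x = y := by
    intro x y
    obtain ⟨a, rfl⟩ := hΛ x
    obtain ⟨b, rfl⟩ := hΛ y
    exact ⟨b * a⁻¹, by rw [mul_smul, inv_smul_smul]⟩
  -- the limit is infinite
  have hΛinf : Infinite Λ := by
    by_contra hnot
    rw [not_infinite_iff_finite] at hnot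
    obtain ⟨n, hn, h2, -⟩ := hpat _ (gens_pow_finite hfin (Nat.card Λ)) (Nat.card Λ)
    have h3 := ball_grows hS (htr n) (hne n) (Nat.card Λ) hn
    have h4 : (Bl S0 (Nat.card Λ) o).encard = (Bl S0 (Nat.card Λ) (ω n)).encard := encard_pattern h2
    rw [← h4] at h3
    have h5 : (Bl S0 (Nat.card Λ) o).encard ≤ (Nat.card Λ : ℕ) := by
      have h6 : (Bl S0 (Nat.card Λ) o).Finite := Set.toFinite _
      rw [← h6.cast_ncard_eq]
      exact_mod_cast Set.ncard_le_card _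
    have h6 := h3.trans h5
    have h7 : Nat.card Λ + 1 ≤ Nat.card Λ := by exact_mod_cast h6
    omega
  -- its growth
  have hΛgr : ∀ x : Λ, ∃ r ≤ r0, (D : ℕ∞) * (Bl S0 r x).encard ≤ (r ^ 2 : ℕ) := by
    intro x
    obtain ⟨g, rfl⟩ := hΛ x
    obtain ⟨k, hk⟩ := mem_gens_pow hS g
    obtain ⟨n, hn, h2, -⟩ := hpat _ ((gens_pow_finite hfin r0).image fun h => h * g) k
    obtain ⟨r, hr, h3⟩ := hgr n (g • ω n) (bl_mono hn ⟨g, hk, rfl⟩)
    refine ⟨r, hr, ?_⟩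
    have h4 : (Bl S0 r (g • o)).encard = (Bl S0 r (g • ω n)).encard := by
      rw [Bl_eq_image, Bl_eq_image]
      refine encard_pattern fun a ha b hb => h2 a ?_ b ?_
      · exact Set.image_mono (hmono hr) ha
      · exact Set.image_mono (hmono hr) hb
    rw [h4]
    exact h3
  obtain ⟨T, hT⟩ := hM
  obtain ⟨n, -, h2, -⟩ := hpat (insert 1 (T : Set G)) (T.finite_toSet.insert 1) 0
  apply hbad n
  -- the generators fix the base point
  have h3 : ∀ g ∈ M, g • ω n = ω n := by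
    have h4 : M ≤ MulAction.stabilizer G (ω n) := by
      rw [← hT, Subgroup.closure_le]
      intro t ht
      have h5 := (h2 t (Set.mem_insert_of_mem _ ht) 1 (Set.mem_insert _ _)).1 (by
        rw [one_smul]
        exact hinf Λ hΛtr hΛinf hΛgr t (hT ▸ Subgroup.subset_closure ht) o)
      rw [one_smul] at h5
      exact h5
    exact fun g hg => h4 hg
  intro g hg x
  obtain ⟨h, rfl⟩ := htr n (ω n) x
  have h4 := h3 _ (hMn.conj_mem g hg h⁻¹)
  rw [inv_inv, mul_smul, mul_smul, inv_smul_eq_iff] at h4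
  exact h4

theorem local_growth {n : ℕ} (φ : FreeGroup (Fin n) →* G)
    (hφ : Function.Surjective φ) (R : Finset (FreeGroup (Fin n)))
    (hR : Subgroup.normalClosure (R : Set (FreeGroup (Fin n))) = φ.ker)
    (hNF : ∀ a b : G, ¬ FreePair a b) {S0 : Set G} (hS : Subgroup.closure S0 = ⊤)
    (hfin : S0.Finite) :
    ∃ D : ℕ, 0 < D ∧ ∀ r0 : ℕ, ∃ (K : Subgroup G) (R0 : ℕ), K.FiniteIndex ∧ K.Normal ∧
      ∀ (Ω : Type) [MulAction G Ω], (∀ x y : Ω, ∃ g : G, g • x = y) → ∀ ω : Ω,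
      Bl S0 R0 ω ≠ Set.univ →
      (∀ x ∈ Bl S0 R0 ω, ∃ r ≤ r0, (D : ℕ∞) * (Bl S0 r x).encard ≤ (r ^ 2 : ℕ)) →
      ∀ g ∈ (⁅K, K⁆ : Subgroup G), ∀ x : Ω, g • x = x := by
  obtain ⟨D, hD, hmain⟩ := growth_inf φ hφ R hR hNF hS
  refine ⟨D, hD, fun r0 => ?_⟩
  obtain ⟨K, h1, h2, h3, h4⟩ := hmain r0
  obtain ⟨R0, h5⟩ := local_growth_of hS hfin ⁅K, K⁆ inferInstance h3 D r0 h4
  exact ⟨K, R0, h1, h2, h5⟩

end Run7.h266
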