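import Pool.Agent.Run7.h266.Color
import Pool.Agent.Run7.h266.LocalGrowth

/-!
# Two-colourings of one ball
-/

set_option autoImplicit false

namespace Run7.h266

open Pool.Agent.H785R3.GrowthA
open scoped Pointwise commutatorElement

variable {G : Type} [Group G]

/-- steps of length at most `D` between points of `V` of the same colour -/
def CStep (S0 : Set G) (D : ℕ) {Ω : Type} [MulAction G Ω] (V Ac : Set Ω) (x y : Ω) : Prop :=
  x ∈ V ∧ y ∈ V ∧ (x ∈ Ac ↔ y ∈ Ac) ∧ y ∈ Bl S0 D x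

/-- the clusters -/
def Cl (S0 : Set G) (D : ℕ) {Ω : Type} [MulAction G Ω] (V Ac : Set Ω) (x : Ω) : Set Ω :=
  {y | Relation.ReflTransGen (CStep S0 D V Ac) x y}

/-- infinite orbits with two-colourings -/
theorem color_inf {n : ℕ} (φ : FreeGroup (Fin n) →* G)
    (hφ : Function.Surjective φ) (R : Finset (FreeGroup (Fin n)))
    (hR : Subgroup.normalClosure (R : Set (FreeGroup (Fin n))) = φ.ker)
    (hNF : ∀ a b : G, ¬ FreePair a b) {S0 : Set G} (hS : Subgroup.closure S0 = ⊤) :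
    ∃ D : ℕ, ∀ t : ℕ, ∃ K : Subgroup G, K.FiniteIndex ∧ K.Normal ∧
      (⁅K, K⁆ : Subgroup G).FG ∧
      ∀ (Ω : Type) [MulAction G Ω], (∀ x y : Ω, ∃ g : G, g • x = y) → Infinite Ω →
        (∃ Ac : Set Ω, ∀ ω : Ω, (Cl S0 D Set.univ Ac ω).encard ≤ t) →
        ∀ g ∈ (⁅K, K⁆ : Subgroup G), ∀ ω : Ω, g • ω = ω := by
  classical
  obtain ⟨lam, hlam, hlam'⟩ := exists_lam φ hS
  refine ⟨lam * (2 * (sysOf R).ℓ), fun t => ?_⟩
  obtain ⟨K, h1, h2, h3, h4⟩ := inf_scheme (presOf φ hφ R hR) (Group.fg_of_surjective hφ) hNF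
    (2 * t) ((sysOf R).bsz * ((sysOf R).bsz + (sysOf R).bsz * (t * ((sysOf R).bsz * (sysOf R).bsz)))
      + ((sysOf R).bsz + (sysOf R).bsz * (t * ((sysOf R).bsz * (sysOf R).bsz))))
  refine ⟨K, h1, h2, h3, fun Ω _ htr hinf hΩ g hg ω => ?_⟩
  obtain ⟨Ac, hAc⟩ := hΩ
  have hA := actOf_isAct φ R hR Ω
  obtain ⟨w, rfl⟩ := (presOf φ hφ R hR).surj g
  have h5 : comp (actOf φ Ω) Set.univ ω = Set.univ := by
    rw [Set.eq_univ_iff_forall]
    intro z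
    obtain ⟨g, rfl⟩ := htr ω z
    exact conn_of_orbit φ hφ g
  have h6 : ∀ x, (MC (actOf φ Ω) (2 * (sysOf R).ℓ) Ac x).encard ≤ t := by
    intro x
    refine (Set.encard_le_encard ?_).trans (hAc x)
    intro y hy
    have h7 : ∀ {a b : Ω}, Relation.ReflTransGen (MStep (actOf φ Ω) (2 * (sysOf R).ℓ) Ac) a b →
        Relation.ReflTransGen (CStep S0 (lam * (2 * (sysOf R).ℓ)) Set.univ Ac) a b := by
      intro a b hab
      induction hab with
      | refl => exact Relation.ReflTransGen.refl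
      | tail _ h ih =>
        exact Relation.ReflTransGen.tail ih ⟨trivial, trivial, h.1, LB_Bl φ hlam' _ _ h.2⟩
    exact h7 hy
  have := h4 Ω (actOf φ Ω) hA
    (fun y => ⟨colorScheme (presOf φ hφ R hR) hNF hA h6 rfl y⟩) w hg ω
    (by rw [h5]; exact Set.encard_eq_top_iff.2 (Set.infinite_univ_iff.2 hinf))
  rw [run_actOf] at this
  exact this

/-- compactness -/
theorem local_color_of {S0 : Set G} (hS : Subgroup.closure S0 = ⊤) (hfin : S0.Finite)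
    (M : Subgroup G) (hMn : M.Normal) (hM : M.FG) (D t : ℕ)
    (hinf : ∀ (Ω : Type) [MulAction G Ω], (∀ x y : Ω, ∃ g : G, g • x = y) → Infinite Ω →
      (∃ Ac : Set Ω, ∀ ω : Ω, (Cl S0 D Set.univ Ac ω).encard ≤ t) →
      ∀ g ∈ M, ∀ ω : Ω, g • ω = ω) :
    ∃ R0 : ℕ, ∀ (Ω : Type) [MulAction G Ω], (∀ x y : Ω, ∃ g : G, g • x = y) → ∀ ω : Ω,
      Bl S0 R0 ω ≠ Set.univ →
      (∃ Ac : Set Ω, ∀ x ∈ Bl S0 R0 ω, (Cl S0 D (Bl S0 R0 ω) Ac x).encard ≤ t) →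
      ∀ g ∈ M, ∀ x : Ω, g • x = x := by
  classical
  by_contra hcon
  have hcon' : ∀ n : ℕ, ∃ (Ω : Type) (_ : MulAction G Ω) (_ : ∀ x y : Ω, ∃ g : G, g • x = y)
      (ω : Ω) (Ac : Set Ω), Bl S0 n ω ≠ Set.univ ∧
      (∀ x ∈ Bl S0 n ω, (Cl S0 D (Bl S0 n ω) Ac x).encard ≤ t) ∧
      ¬ ∀ g ∈ M, ∀ x : Ω, g • x = x := by
    intro n
    by_contra hn
    apply hcon
    refine ⟨n, fun Ω _ htr ω h1 h2 => ?_⟩
    obtain ⟨Ac, h2⟩ := h2
    by_contra h3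
    exact hn ⟨Ω, inferInstance, htr, ω, Ac, h1, h2, h3⟩
  clear hcon
  choose Ω inst htr ω Ac hne hcl hbad using hcon'
  obtain ⟨Λ, _, o, C', hΛ, hpat⟩ := exists_limit (G := G) Ω ω Ac
  have hmono : ∀ {r r' : ℕ}, r ≤ r' → ((S0 ∪ S0⁻¹ ∪ {1}) ^ r : Set G) ⊆
      (S0 ∪ S0⁻¹ ∪ {1}) ^ r' := fun h => Set.pow_subset_pow_right (Or.inr rfl) h
  have hΛtr : ∀ x y : Λ, ∃ g : G, g • x = y := by
    intro x y
    obtain ⟨a, rfl⟩ := hΛ x
    obtain ⟨b, rfl⟩ := hΛ y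
    exact ⟨b * a⁻¹, by rw [mul_smul, inv_smul_smul]⟩
  -- the limit is infinite
  have hΛinf : Infinite Λ := by
    by_contra hnot
    rw [not_infinite_iff_finite] at hnot
    obtain ⟨n, hn, h2, -⟩ := hpat _ (gens_pow_finite hfin (Nat.card Λ)) (Nat.card Λ)
    have h3 := ball_grows hS (htr n) (hne n) (Nat.card Λ) hn
    have h4 : (Bl S0 (Nat.card Λ) o).encard = (Bl S0 (Nat.card Λ) (ω n)).encard := encard_pattern h2
    rw [← h4] at h3
    have h5 : (Bl S0 (Nat.card Λ) o).encard ≤ (Nat.card Λ : ℕ) := by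
      have h6 : (Bl S0 (Nat.card Λ) o).Finite := Set.toFinite _
      rw [← h6.cast_ncard_eq]
      exact_mod_cast Set.ncard_le_card _
    have h6 := h3.trans h5
    have h7 : Nat.card Λ + 1 ≤ Nat.card Λ := by exact_mod_cast h6
    omega
  -- chains can be followed
  have hchain : ∀ (g : G) (y : Λ), y ∈ Cl S0 D Set.univ C' (g • o) →
      ∃ (k : ℕ) (h : G), h ∈ (S0 ∪ S0⁻¹ ∪ {1}) ^ k ∧ h • o = y ∧ ∀ n ≥ k,
        (∀ a ∈ (S0 ∪ S0⁻¹ ∪ {1}) ^ k, (a • o ∈ C' ↔ a • ω n ∈ Ac n)) →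
        h • ω n ∈ Cl S0 D (Bl S0 n (ω n)) (Ac n) (g • ω n) := by
    intro g y hy
    induction hy with
    | refl =>
      obtain ⟨k, hk⟩ := mem_gens_pow hS g
      exact ⟨k, g, hk, rfl, fun n _ _ => Relation.ReflTransGen.refl⟩
    | @tail y z _ hstep ih =>
      obtain ⟨k, h, h1, rfl, h3⟩ := ih
      obtain ⟨-, -, h4, d, hd, rfl⟩ := hstep
      have h5 : d * h ∈ (S0 ∪ S0⁻¹ ∪ {1}) ^ (D + k) := by
        rw [pow_add]
        exact Set.mul_mem_mul hd h1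
      refine ⟨D + k, d * h, h5, mul_smul _ _ _, fun n hn hp => ?_⟩
      have h6 := h3 n (by omega) fun a ha => hp a (hmono (by omega) ha)
      refine Relation.ReflTransGen.tail h6 ⟨?_, ?_, ?_, ?_⟩
      · exact bl_mono (by omega : k ≤ n) ⟨h, h1, rfl⟩
      · exact bl_mono hn ⟨d * h, h5, rfl⟩
      · rw [← hp h (hmono (by omega) h1), ← hp (d * h) h5, mul_smul]
        exact h4
      · rw [mul_smul]
        exact ⟨d, hd, rfl⟩
  -- the clusters of the limit are small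
  have hΛcl : ∀ x : Λ, (Cl S0 D Set.univ C' x).encard ≤ t := by
    intro x
    obtain ⟨g, rfl⟩ := hΛ x
    by_contra hbig
    rw [not_le] at hbig
    obtain ⟨Q, hQ1, hQ2⟩ := Set.exists_subset_encard_eq (Order.add_one_le_of_lt hbig)
    have hQfin : Q.Finite := by
      refine Set.finite_of_encard_le_coe (k := t + 1) ?_
      rw [hQ2]
      push_cast
      exact le_rfl
    have h1 : ∀ y : Λ, ∃ (k : ℕ) (h : G), y ∈ Q → h ∈ (S0 ∪ S0⁻¹ ∪ {1}) ^ k ∧ h • o = y ∧ ∀ n ≥ k,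
        (∀ a ∈ (S0 ∪ S0⁻¹ ∪ {1}) ^ k, (a • o ∈ C' ↔ a • ω n ∈ Ac n)) →
        h • ω n ∈ Cl S0 D (Bl S0 n (ω n)) (Ac n) (g • ω n) := by
      intro y
      by_cases hy : y ∈ Q
      · obtain ⟨k, h, h1⟩ := hchain g y (hQ1 hy)
        exact ⟨k, h, fun _ => h1⟩
      · exact ⟨0, 1, fun h => absurd h hy⟩
    choose k h h1 using h1
    obtain ⟨kg, hkg⟩ := mem_gens_pow hS g
    set K := hQfin.toFinset.sup k + kg with hK
    have hkK : ∀ y ∈ Q, k y ≤ K := fun y hy =>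
      (Finset.le_sup (f := k) (hQfin.mem_toFinset.2 hy)).trans (Nat.le_add_right _ _)
    obtain ⟨n, hn, h2, h3⟩ := hpat _ (gens_pow_finite hfin K) K
    have h4 := hcl n (g • ω n) (bl_mono (by omega : kg ≤ n) ⟨g, hkg, rfl⟩)
    have h5 : (fun a : G => a • ω n) '' (h '' Q) ⊆ Cl S0 D (Bl S0 n (ω n)) (Ac n) (g • ω n) := by
      rintro _ ⟨_, ⟨y, hy, rfl⟩, rfl⟩
      obtain ⟨-, -, h6⟩ := h1 y hy
      exact h6 n ((hkK y hy).trans hn) fun a ha => h3 a (hmono (hkK y hy) ha)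
    have h6 : ((fun a : G => a • ω n) '' (h '' Q)).encard = ((fun a : G => a • o) '' (h '' Q)).encard := by
      refine (encard_pattern ?_).symm
      rintro _ ⟨y, hy, rfl⟩ _ ⟨z, hz, rfl⟩
      exact h2 _ (hmono (hkK y hy) (h1 y hy).1) _ (hmono (hkK z hz) (h1 z hz).1)
    have h7 : Q ⊆ (fun a : G => a • o) '' (h '' Q) := fun y hy =>
      ⟨h y, ⟨y, hy, rfl⟩, (h1 y hy).2.1⟩
    have h8 := (Set.encard_le_encard h7).trans (h6 ▸ (Set.encard_le_encard h5).trans h4)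
    rw [hQ2] at h8
    have h9 : t + 1 ≤ t := by exact_mod_cast h8
    omega
  obtain ⟨T, hT⟩ := hM
  obtain ⟨n, -, h2, -⟩ := hpat (insert 1 (T : Set G)) (T.finite_toSet.insert 1) 0
  apply hbad n
  -- the generators fix the base point
  have h3 : ∀ g ∈ M, g • ω n = ω n := by
    have h4 : M ≤ MulAction.stabilizer G (ω n) := by
      rw [← hT, Subgroup.closure_le]
      intro t ht
      have h5 := (h2 t (Set.mem_insert_of_mem _ ht) 1 (Set.mem_insert _ _)).1 (by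
        rw [one_smul]
        exact hinf Λ hΛtr hΛinf ⟨C', hΛcl⟩ t (hT ▸ Subgroup.subset_closure ht) o)
      rw [one_smul] at h5
      exact h5
    exact fun g hg => h4 hg
  intro g hg x
  obtain ⟨h, rfl⟩ := htr n (ω n) x
  have h4 := h3 _ (hMn.conj_mem g hg h⁻¹)
  rw [inv_inv, mul_smul, mul_smul, inv_smul_eq_iff] at h4
  exact h4

theorem local_color {n : ℕ} (φ : FreeGroup (Fin n) →* G)
    (hφ : Function.Surjective φ) (R : Finset (FreeGroup (Fin n)))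
    (hR : Subgroup.normalClosure (R : Set (FreeGroup (Fin n))) = φ.ker)
    (hNF : ∀ a b : G, ¬ FreePair a b) {S0 : Set G} (hS : Subgroup.closure S0 = ⊤)
    (hfin : S0.Finite) :
    ∃ D : ℕ, ∀ t : ℕ, ∃ (K : Subgroup G) (R0 : ℕ), K.FiniteIndex ∧ K.Normal ∧
      ∀ (Ω : Type) [MulAction G Ω], (∀ x y : Ω, ∃ g : G, g • x = y) → ∀ ω : Ω,
      Bl S0 R0 ω ≠ Set.univ →
      (∃ Ac : Set Ω, ∀ x ∈ Bl S0 R0 ω, (Cl S0 D (Bl S0 R0 ω) Ac x).encard ≤ t) →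
      ∀ g ∈ (⁅K, K⁆ : Subgroup G), ∀ x : Ω, g • x = x := by
  obtain ⟨D, hmain⟩ := color_inf φ hφ R hR hNF hS
  refine ⟨D, fun t => ?_⟩
  obtain ⟨K, h1, h2, h3, h4⟩ := hmain t
  obtain ⟨R0, h5⟩ := local_color_of hS hfin ⁅K, K⁆ inferInstance h3 D t h4
  exact ⟨K, R0, h1, h2, h5⟩

end Run7.h266
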