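import Pool.Agent.Run7.h266.ColorFib
import Pool.Agent.Run7.h266.LocalColor

/-!
# The isoperimetric inequality in terms of groups
-/

set_option autoImplicit false

namespace Run7.h266

open scoped Pointwise

variable {G : Type} [Group G]

/-- no homomorphism from a subgroup of finite index to the integers sees `H` -/
def Unseen (H : Subgroup G) : Prop :=
  ∀ K : Subgroup G, K.FiniteIndex → ∀ (ψ : K →* Multiplicative ℤ) (k : K), (k : G) ∈ H → ψ k = 1

/-- letters, the length of the letters in terms of `S0`, and the orbits of `H` -/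
theorem exists_setup [Group.IsFinitelyPresented G] {S0 : Set G} (hS : Subgroup.closure S0 = ⊤)
    (hfin : S0.Finite) {H : Subgroup G} (hH : H.FG) :
    ∃ (E : Set G) (_ : E.Finite) (S : Sys E) (P : Pres S G) (T : Set E) (lam : ℕ),
      1 ≤ lam ∧ (∀ a : E, (a : G) ∈ (S0 ∪ S0⁻¹ ∪ {1}) ^ lam) ∧ (∀ s ∈ S0 ∪ S0⁻¹ ∪ {1}, s ∈ E) ∧
      (∀ a ∈ T, S.inv a ∈ T) ∧ (∀ w, P.val w = pr w) ∧
      (∀ (X : Type) [MulAction G X], IsAct S (actE E X)) ∧
      (∀ (X : Type) [MulAction G X] (x : X), TO (actE E X) T x = MulAction.orbit H x) ∧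
      (Seen P T → ¬ Unseen H) := by
  classical
  obtain ⟨T0, hT0⟩ := hH
  set E : Set G := S0 ∪ S0⁻¹ ∪ {1} ∪ ((T0 : Set G) ∪ (T0 : Set G)⁻¹) with hE
  have hEfin : E.Finite := ((hfin.union hfin.inv).union (Set.finite_singleton 1)).union
    (T0.finite_toSet.union T0.finite_toSet.inv)
  have hinv : ∀ x ∈ E, x⁻¹ ∈ E := by
    intro x hx
    rcases hx with ((hx | hx) | hx) | (hx | hx)
    · exact Or.inl (Or.inl (Or.inr (by simpa using hx)))
    · exact Or.inl (Or.inl (Or.inl hx))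
    · rw [Set.mem_singleton_iff.1 hx, inv_one]
      exact Or.inl (Or.inr rfl)
    · exact Or.inr (Or.inr (by simpa using hx))
    · exact Or.inr (Or.inl hx)
  have hgen : Subgroup.closure E = ⊤ := by
    rw [eq_top_iff, ← hS]
    exact Subgroup.closure_mono fun s hs => Or.inl (Or.inl (Or.inl hs))
  obtain ⟨S, P, hval, hSinv, hact⟩ := exists_pres hEfin hinv hgen
  let T : Set E := {a | (a : G) ∈ H}
  have hlam : ∃ lam : ℕ, 1 ≤ lam ∧ ∀ a : E, (a : G) ∈ (S0 ∪ S0⁻¹ ∪ {1}) ^ lam := by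
    have : Finite E := hEfin.to_subtype
    have : Fintype E := Fintype.ofFinite E
    choose f hf using fun a : E => mem_gens_pow hS (a : G)
    refine ⟨Finset.univ.sup f + 1, Nat.le_add_left _ _, fun a => ?_⟩
    have h1 : (1 : G) ∈ S0 ∪ S0⁻¹ ∪ {1} := Or.inr rfl
    exact Set.pow_subset_pow_right h1 ((Finset.le_sup (Finset.mem_univ a)).trans
      (Nat.le_succ _)) (hf a)
  obtain ⟨lam, hlam1, hlam2⟩ := hlam
  -- words for the elements of `H`
  have hwords : ∀ h ∈ H, ∃ w : List E, (∀ a ∈ w, a ∈ T) ∧ pr w = h := by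
    intro h hh
    have hh' : h ∈ Subgroup.closure (T0 : Set G) := by rw [hT0]; exact hh
    clear hh
    induction hh' using Subgroup.closure_induction with
    | mem x hx =>
      refine ⟨[⟨x, Or.inr (Or.inl hx)⟩], ?_, by simp [pr]⟩
      intro a ha
      rw [List.mem_singleton] at ha
      rw [ha]
      show x ∈ H
      rw [← hT0]
      exact Subgroup.subset_closure hx
    | one => exact ⟨[], by simp, by simp [pr]⟩
    | mul x y _ _ hx hy =>
      obtain ⟨u, hu, rfl⟩ := hx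
      obtain ⟨v, hv, rfl⟩ := hy
      refine ⟨u ++ v, ?_, pr_append u v⟩
      intro a ha
      rcases List.mem_append.1 ha with h | h
      · exact hu a h
      · exact hv a h
    | inv x _ hx =>
      obtain ⟨u, hu, rfl⟩ := hx
      refine ⟨S.winv u, ?_, ?_⟩
      · intro a ha
        simp only [Sys.winv, List.mem_reverse, List.mem_map] at ha
        obtain ⟨b, hb, rfl⟩ := ha
        show (S.inv b : G) ∈ H
        rw [hSinv]
        exact H.inv_mem (hu b hb)
      · have h1 := (hact G).winv_run u (1 : G)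
        rw [run_actE, run_actE, smul_smul, smul_eq_mul, mul_one] at h1
        exact eq_inv_of_mul_eq_one_left h1
  have hprH : ∀ w : List E, (∀ a ∈ w, a ∈ T) → pr w ∈ H := by
    intro w
    induction w with
    | nil => intro _; rw [pr_nil]; exact H.one_mem
    | cons a w ih =>
      intro h
      rw [pr_cons]
      exact H.mul_mem (h a (List.mem_cons_self ..)) (ih fun b hb => h b (List.mem_cons_of_mem _ hb))
  refine ⟨E, hEfin, S, P, T, lam, hlam1, hlam2, fun s hs => Or.inl hs, ?_, hval, hact, ?_, ?_⟩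
  · intro a ha
    show (S.inv a : G) ∈ H
    rw [hSinv]
    exact H.inv_mem ha
  · intro X _ x
    ext y
    constructor
    · rintro ⟨w, hw, rfl⟩
      rw [run_actE]
      exact ⟨⟨pr w, hprH w hw⟩, rfl⟩
    · rintro ⟨⟨h, hh⟩, rfl⟩
      obtain ⟨w, hw, rfl⟩ := hwords h hh
      exact ⟨w, hw, run_actE w x⟩
  · rintro ⟨K, hK, ψ, k, hk, hψ⟩ hU
    apply hψ
    refine hU K hK ψ k ?_
    refine (Subgroup.closure_le H).2 ?_ hk
    rintro _ ⟨a, ha, rfl⟩
    rw [hval]
    simp only [pr, List.map_cons, List.map_nil, List.prod_cons, List.prod_nil, mul_one]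
    exact ha

/-- leaving a set along a word -/
theorem leaves {B : Set G} {Ω : Type} [MulAction G Ω] {Y : Set Ω} (k : ℕ) {g : G}
    (hg : g ∈ B ^ k) {x : Ω} (hx : x ∈ Y) (hgx : g • x ∉ Y) :
    ∃ j ≤ k, ∃ h ∈ B ^ j, h • x ∈ Y ∧ ∃ s ∈ B, s • (h • x) ∉ Y := by
  induction k generalizing g with
  | zero =>
    rw [pow_zero, Set.mem_one] at hg
    rw [hg, one_smul] at hgx
    exact absurd hx hgx
  | succ k ih =>
    rw [pow_succ'] at hg
    obtain ⟨s, hs, h, hh, rfl⟩ := Set.mem_mul.1 hg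
    by_cases h1 : h • x ∈ Y
    · exact ⟨k, Nat.le_succ k, h, hh, h1, s, hs, by rwa [smul_smul]⟩
    · obtain ⟨j, hj, h2⟩ := ih hh h1
      exact ⟨j, hj.trans (Nat.le_succ k), h2⟩

/-- Letters for which the linear isoperimetric inequality holds. -/
theorem isop_setup [Group.IsFinitelyPresented G] {S0 : Set G} (hS : Subgroup.closure S0 = ⊤)
    (hfin : S0.Finite) {H : Subgroup G} (hH : H.FG) (hU : Unseen H) :
    ∃ (E : Set G) (S : Sys E) (lam : ℕ), E.Finite ∧ 1 ≤ lam ∧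
      (∀ (X : Type) [MulAction G X], IsAct S (actE E X)) ∧
      (∀ (X : Type) [MulAction G X] (s : ℕ) (x : X), LB (actE E X) s x ⊆ Bl S0 (lam * s) x) ∧
      ∀ t : ℕ, ∃ C : ℕ, ∀ (Ω : Type) [MulAction G Ω] (Ac : Set Ω),
        (∀ x, (MC (actE E Ω) S.ℓ Ac x).encard ≤ t) → ∀ Y : Set Ω, Y.Finite →
        {x | x ∈ Y ∧ (C : ℕ∞) < (MulAction.orbit H x).encard}.ncard ≤
          C * {x | x ∈ Y ∧ ∃ s ∈ S0, s • x ∉ Y ∨ s⁻¹ • x ∉ Y}.ncard := by
  classical
  obtain ⟨E, hE, S, P, T, lam, hlam1, hlam2, hSE, hT, hval, hact, horb, hseen⟩ :=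
    exists_setup hS hfin hH
  have hEf : Finite E := hE.to_subtype
  have hns : ¬ Seen P T := fun h => hseen h hU
  have h1B : (1 : G) ∈ S0 ∪ S0⁻¹ ∪ {1} := Or.inr rfl
  refine ⟨E, S, lam, hE, hlam1, hact, ?_, fun t => ?_⟩
  · rintro Ω _ s x _ ⟨w, hw, rfl⟩
    rw [run_actE]
    refine ⟨pr w, ?_, rfl⟩
    have h2 : ∀ w : List E, pr w ∈ (S0 ∪ S0⁻¹ ∪ {1}) ^ (lam * w.length) := by
      intro w
      induction w with
      | nil => rw [pr_nil]; exact Set.one_mem_pow h1B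
      | cons a w ih =>
        rw [pr_cons, List.length_cons, Nat.mul_succ, add_comm, pow_add]
        exact Set.mul_mem_mul (hlam2 a) ih
    exact Set.pow_subset_pow_right h1B (Nat.mul_le_mul_left _ hw) (h2 w)
  obtain ⟨C, hC⟩ := isop_fib (L := E) t (t * S.ℓ)
  set Bn := ((S0 ∪ S0⁻¹ ∪ {1}) ^ lam : Set G) with hBn
  have hBfin : Bn.Finite := gens_pow_finite hfin lam
  refine ⟨C * Bn.ncard + C, fun Ω _ Ac hMC Y hY => ?_⟩
  have h2 := hC P hT hns (fibC (hact Ω) Ac t hMC) rfl (fun x y hxy => by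
    have h3 : y ∈ MC (actE E Ω) S.ℓ Ac x := by
      have h4 : MC (actE E Ω) S.ℓ Ac x = MC (actE E Ω) S.ℓ Ac y := hxy
      rw [h4]
      exact MC_self
    exact MC_diam (hMC x) h3) Y hY
  have hA : (fibC (hact Ω) Ac t hMC).A = actE E Ω := rfl
  rw [hA] at h2
  -- compare the two boundaries
  set dY := {x | x ∈ Y ∧ ∃ s ∈ S0, s • x ∉ Y ∨ s⁻¹ • x ∉ Y} with hdY
  have hdfin : dY.Finite := hY.subset fun x hx => hx.1
  have h3 : (bdy (actE E Ω) Y).ncard ≤ Bn.ncard * dY.ncard := by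
    have h4 : bdy (actE E Ω) Y ⊆ (fun p : G × Ω => p.1⁻¹ • p.2) '' (Bn ×ˢ dY) := by
      rintro x ⟨hx, a, ha⟩
      obtain ⟨j, hj, h, hh, hhx, s, hs, hsx⟩ := leaves lam (hlam2 a) hx ha
      refine ⟨(h, h • x), ⟨Set.pow_subset_pow_right h1B hj hh, hhx, ?_⟩, inv_smul_smul h x⟩
      rcases hs with (hs | hs) | hs
      · exact ⟨s, hs, Or.inl hsx⟩
      · exact ⟨s⁻¹, hs, Or.inr (by rwa [inv_inv])⟩
      · rw [Set.mem_singleton_iff.1 hs, one_smul] at hsx
        exact absurd hhx hsx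
    refine (Set.ncard_le_ncard h4 ((hBfin.prod hdfin).image _)).trans
      ((Set.ncard_image_le (hBfin.prod hdfin)).trans ?_)
    rw [Set.ncard_prod]
  calc {x | x ∈ Y ∧ ((C * Bn.ncard + C : ℕ) : ℕ∞) < (MulAction.orbit H x).encard}.ncard
      ≤ {x | x ∈ Y ∧ (C : ℕ∞) < (TO (actE E Ω) T x).encard}.ncard := by
        refine Set.ncard_le_ncard ?_ (hY.subset fun x hx => hx.1)
        rintro x ⟨hx1, hx2⟩
        refine ⟨hx1, ?_⟩
        rw [horb]
        refine lt_of_le_of_lt ?_ hx2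
        exact_mod_cast Nat.le_add_left C _
    _ ≤ C * (bdy (actE E Ω) Y).ncard := h2
    _ ≤ C * (Bn.ncard * dY.ncard) := Nat.mul_le_mul_left _ h3
    _ = C * Bn.ncard * dY.ncard := by ring
    _ ≤ (C * Bn.ncard + C) * dY.ncard := Nat.mul_le_mul_right _ (Nat.le_add_right _ _)

/-- The linear isoperimetric inequality for one-dimensional actions. -/
theorem isop_color [Group.IsFinitelyPresented G] {S0 : Set G} (hS : Subgroup.closure S0 = ⊤)
    (hfin : S0.Finite) {H : Subgroup G} (hH : H.FG) (hU : Unseen H) :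
    ∃ D : ℕ, ∀ t : ℕ, ∃ C : ℕ, ∀ (Ω : Type) [MulAction G Ω] (Ac : Set Ω),
      (∀ x, (Cl S0 D Set.univ Ac x).encard ≤ t) → ∀ Y : Set Ω, Y.Finite →
        {x | x ∈ Y ∧ (C : ℕ∞) < (MulAction.orbit H x).encard}.ncard ≤
          C * {x | x ∈ Y ∧ ∃ s ∈ S0, s • x ∉ Y ∨ s⁻¹ • x ∉ Y}.ncard := by
  obtain ⟨E, S, lam, hE, hlam1, hact, hLB, hmain⟩ := isop_setup hS hfin hH hU
  refine ⟨lam * S.ℓ, fun t => ?_⟩
  obtain ⟨C, hC⟩ := hmain t
  refine ⟨C, fun Ω _ Ac hAc Y hY => hC Ω Ac (fun x => ?_) Y hY⟩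
  refine (Set.encard_le_encard ?_).trans (hAc x)
  intro y hy
  have h7 : ∀ {a b : Ω}, Relation.ReflTransGen (MStep (actE E Ω) S.ℓ Ac) a b →
      Relation.ReflTransGen (CStep S0 (lam * S.ℓ) Set.univ Ac) a b := by
    intro a b hab
    induction hab with
    | refl => exact Relation.ReflTransGen.refl
    | tail _ h ih =>
      exact Relation.ReflTransGen.tail ih ⟨trivial, trivial, h.1, hLB Ω _ _ h.2⟩
  exact h7 hy

end Run7.h266
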