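import Pool.Agent.Run7.h266.GrowthW

/-!
# Uses of the isoperimetric inequality: growth and means
-/

set_option autoImplicit false

namespace Run7.h266

open scoped Pointwise

variable {G : Type} [Group G] {Ω : Type} [MulAction G Ω]

/-- the inner boundary -/
def inb (S0 : Set G) (Y : Set Ω) : Set Ω := {x | x ∈ Y ∧ ∃ s ∈ S0, s • x ∉ Y ∨ s⁻¹ • x ∉ Y}

/-- the inequality -/
def Isop (S0 : Set G) (C : ℕ) (Big : Set Ω) : Prop :=
  ∀ Y : Set Ω, Y.Finite → {x | x ∈ Y ∧ x ∈ Big}.ncard ≤ C * (inb S0 Y).ncard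

/-- the neighbourhood -/
def Nbh (S0 : Set G) (n : ℕ) (F : Set Ω) : Set Ω := {y | ∃ x ∈ F, y ∈ Bl S0 n x}

theorem bl_eq_image {S0 : Set G} {n : ℕ} {x : Ω} :
    Bl S0 n x = (fun g : G => g • x) '' ((S0 ∪ S0⁻¹ ∪ {1}) ^ n) := by
  ext y
  simp [Bl]

theorem bl_finite {S0 : Set G} (hfin : S0.Finite) (n : ℕ) (x : Ω) : (Bl S0 n x).Finite := by
  rw [bl_eq_image]
  exact (gens_pow_finite hfin n).image _

theorem bl_ncard_le {S0 : Set G} (hfin : S0.Finite) (n : ℕ) (x : Ω) :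
    (Bl S0 n x).ncard ≤ ((S0 ∪ S0⁻¹ ∪ {1}) ^ n : Set G).ncard := by
  rw [bl_eq_image]
  exact Set.ncard_image_le (gens_pow_finite hfin n)

theorem nbh_finite {S0 : Set G} (hfin : S0.Finite) (n : ℕ) {F : Set Ω} (hF : F.Finite) :
    (Nbh S0 n F).Finite := by
  refine (hF.biUnion fun x _ => bl_finite hfin n x).subset ?_
  rintro y ⟨x, hx, hy⟩
  exact Set.mem_biUnion hx hy

theorem nbh_succ {S0 : Set G} {n : ℕ} {F : Set Ω} : Nbh S0 n F ⊆ Nbh S0 (n + 1) F := by
  rintro y ⟨x, hx, hy⟩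
  exact ⟨x, hx, bl_mono_succ hy⟩

theorem nbh_self {S0 : Set G} {n : ℕ} {F : Set Ω} : F ⊆ Nbh S0 n F := fun x hx =>
  ⟨x, hx, bl_self⟩

theorem inb_nbh {S0 : Set G} {n : ℕ} {F : Set Ω} :
    inb S0 (Nbh S0 (n + 1) F) ⊆ Nbh S0 (n + 1) F \ Nbh S0 n F := by
  rintro y ⟨hy, s, hs, h⟩
  refine ⟨hy, ?_⟩
  rintro ⟨x, hx, hyx⟩
  rcases h with h | h
  · exact h ⟨x, hx, bl_step hyx (Or.inl (Or.inl hs))⟩
  · exact h ⟨x, hx, bl_step hyx (Or.inl (Or.inr (by simpa using hs)))⟩

/-- one step of growth -/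
theorem grow {S0 : Set G} (hfin : S0.Finite) {C : ℕ} {Big : Set Ω} (h : Isop S0 C Big)
    {F : Set Ω} (hF : F.Finite) (n : ℕ) :
    {x | x ∈ Nbh S0 (n + 1) F ∧ x ∈ Big}.ncard + C * (Nbh S0 n F).ncard ≤
      C * (Nbh S0 (n + 1) F).ncard := by
  have h1 := h _ (nbh_finite hfin (n + 1) hF)
  have h2 : (inb S0 (Nbh S0 (n + 1) F)).ncard ≤ (Nbh S0 (n + 1) F \ Nbh S0 n F).ncard :=
    Set.ncard_le_ncard inb_nbh ((nbh_finite hfin (n + 1) hF).subset Set.sdiff_subset)
  have h3 : (Nbh S0 (n + 1) F \ Nbh S0 n F).ncard + (Nbh S0 n F).ncard =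
      (Nbh S0 (n + 1) F).ncard :=
    Set.ncard_sdiff_add_ncard_of_subset nbh_succ (nbh_finite hfin (n + 1) hF)
  calc {x | x ∈ Nbh S0 (n + 1) F ∧ x ∈ Big}.ncard + C * (Nbh S0 n F).ncard
      ≤ C * (Nbh S0 (n + 1) F \ Nbh S0 n F).ncard + C * (Nbh S0 n F).ncard := by
        have := Nat.mul_le_mul_left C h2
        omega
    _ = C * (Nbh S0 (n + 1) F).ncard := by rw [← h3]; ring

/-- neighbourhoods of big sets of points grow linearly -/
theorem grow_linear {S0 : Set G} (hfin : S0.Finite) {C : ℕ} {Big : Set Ω} (h : Isop S0 C Big)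
    {F : Set Ω} (hF : F.Finite) (hFB : F ⊆ Big) (n : ℕ) :
    n * F.ncard ≤ C * (Nbh S0 n F).ncard := by
  induction n with
  | zero => simp
  | succ n ih =>
    have h1 := grow hfin h hF n
    have h2 : F.ncard ≤ {x | x ∈ Nbh S0 (n + 1) F ∧ x ∈ Big}.ncard :=
      Set.ncard_le_ncard (fun x hx => ⟨nbh_self hx, hFB hx⟩)
        ((nbh_finite hfin (n + 1) hF).subset fun x hx => hx.1)
    rw [Nat.succ_mul]
    omega

theorem nbh_singleton {S0 : Set G} {n : ℕ} {x : Ω} : Nbh S0 n {x} = Bl S0 n x := by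
  ext y
  simp [Nbh]

/-- exponential growth if all the points are big -/
theorem grow_exp {S0 : Set G} (hfin : S0.Finite) {C : ℕ} {Big : Set Ω} (h : Isop S0 C Big)
    {x : Ω} (hx : MulAction.orbit G x ⊆ Big) (n : ℕ) :
    (C + 1) ^ n ≤ C ^ n * (Bl S0 n x).ncard := by
  induction n with
  | zero =>
    rw [pow_zero, pow_zero, one_mul]
    exact (Set.ncard_pos (bl_finite hfin 0 x)).2 ⟨x, bl_self⟩
  | succ n ih =>
    have h1 := grow hfin h (Set.finite_singleton x) n
    rw [nbh_singleton, nbh_singleton] at h1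
    have h2 : {y | y ∈ Bl S0 (n + 1) x ∧ y ∈ Big} = Bl S0 (n + 1) x := by
      ext y
      refine ⟨fun hy => hy.1, fun hy => ⟨hy, hx ?_⟩⟩
      obtain ⟨g, -, rfl⟩ := hy
      exact ⟨g, rfl⟩
    rw [h2] at h1
    have h3 : (Bl S0 n x).ncard ≤ (Bl S0 (n + 1) x).ncard :=
      Set.ncard_le_ncard bl_mono_succ (bl_finite hfin (n + 1) x)
    calc (C + 1) ^ (n + 1) = (C + 1) ^ n * (C + 1) := pow_succ _ _
      _ ≤ C ^ n * (Bl S0 n x).ncard * (C + 1) := Nat.mul_le_mul_right _ ih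
      _ = C ^ n * ((C + 1) * (Bl S0 n x).ncard) := by ring
      _ ≤ C ^ n * (C * (Bl S0 (n + 1) x).ncard) := by
          refine Nat.mul_le_mul_left _ ?_
          rw [Nat.succ_mul]
          omega
      _ = C ^ (n + 1) * (Bl S0 (n + 1) x).ncard := by ring

/-- the orbit of a finitely generated subgroup in balls -/
theorem orbit_in_ball {S0 : Set G} (hS : Subgroup.closure S0 = ⊤) (hfin : S0.Finite)
    {H : Subgroup G} (hH : H.FG) :
    ∃ lam : ℕ, 1 ≤ lam ∧ ∀ (Ω : Type) [MulAction G Ω] (x : Ω) (n : ℕ),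
      MulAction.orbit H x ⊆ Bl S0 n x ∨
        n + 1 ≤ lam * {y | y ∈ Bl S0 n x ∧ y ∈ MulAction.orbit H x}.ncard := by
  classical
  obtain ⟨T0, hT0⟩ := hH
  choose k hk using fun g : G => mem_gens_pow hS g
  set lam := T0.sup k + T0.sup (fun g => k g⁻¹) + 1 with hlam
  have h1 : (1 : G) ∈ S0 ∪ S0⁻¹ ∪ {1} := Or.inr rfl
  have hT : ∀ g ∈ (T0 : Set G) ∪ (T0 : Set G)⁻¹, g ∈ (S0 ∪ S0⁻¹ ∪ {1} : Set G) ^ lam := by
    rintro g (hg | hg)
    · refine Set.pow_subset_pow_right h1 ?_ (hk g)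
      have := Finset.le_sup (f := k) (Finset.mem_coe.1 hg)
      omega
    · have hg' : g⁻¹ ∈ T0 := hg
      refine Set.pow_subset_pow_right h1 ?_ (hk g)
      have := Finset.le_sup (f := fun g => k g⁻¹) hg'
      simp only [inv_inv] at this
      omega
  refine ⟨lam, by omega, fun Ω _ x n => ?_⟩
  have hstep : ∀ (m : ℕ) (y : Ω), y ∈ Bl S0 m x → ∀ g ∈ (T0 : Set G) ∪ (T0 : Set G)⁻¹,
      g • y ∈ Bl S0 (m + lam) x := by
    rintro m _ ⟨a, ha, rfl⟩ g hg
    refine ⟨g * a, ?_, mul_smul _ _ _⟩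
    rw [add_comm, pow_add]
    exact Set.mul_mem_mul (hT g hg) ha
  have horb : ∀ (y : Ω), y ∈ MulAction.orbit H x → ∀ g ∈ (T0 : Set G) ∪ (T0 : Set G)⁻¹,
      g • y ∈ MulAction.orbit H x := by
    rintro _ ⟨a, rfl⟩ g hg
    have hgH : g ∈ H := by
      rw [← hT0]
      rcases hg with hg | hg
      · exact Subgroup.subset_closure hg
      · have := (Subgroup.closure (T0 : Set G)).inv_mem (Subgroup.subset_closure hg)
        rwa [inv_inv] at this
    exact ⟨⟨g, hgH⟩ * a, mul_smul (⟨g, hgH⟩ : H) a x⟩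
  -- the points of the orbit in the balls
  have key : ∀ j : ℕ, lam * j ≤ n → MulAction.orbit H x ⊆ Bl S0 n x ∨
      j + 1 ≤ {y | y ∈ Bl S0 (lam * j) x ∧ y ∈ MulAction.orbit H x}.ncard := by
    intro j
    induction j with
    | zero =>
      intro _
      right
      refine (Set.ncard_pos ((bl_finite hfin _ x).subset fun y hy => hy.1)).2
        ⟨x, bl_self, MulAction.mem_orbit_self x⟩
    | succ j ih =>
      intro hj
      have hj' : lam * j + lam ≤ n := by rw [← Nat.mul_succ]; exact hj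
      rcases ih (by omega) with h | h
      · exact Or.inl h
      by_cases hall : ∀ y, y ∈ Bl S0 (lam * j) x ∧ y ∈ MulAction.orbit H x →
          ∀ g ∈ (T0 : Set G) ∪ (T0 : Set G)⁻¹, g • y ∈ Bl S0 (lam * j) x
      · left
        have h2 : ∀ g ∈ H, ∀ y, y ∈ Bl S0 (lam * j) x ∧ y ∈ MulAction.orbit H x →
            g • y ∈ Bl S0 (lam * j) x ∧ g • y ∈ MulAction.orbit H x := by
          intro g hg
          rw [← hT0] at hg
          induction hg using Subgroup.closure_induction'' with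
          | mem g hg => exact fun y hy => ⟨hall y hy g (Or.inl hg), horb y hy.2 g (Or.inl hg)⟩
          | inv_mem g hg =>
            exact fun y hy => ⟨hall y hy g⁻¹ (Or.inr (by simpa using hg)),
              horb y hy.2 g⁻¹ (Or.inr (by simpa using hg))⟩
          | one => exact fun y hy => by rwa [one_smul]
          | mul a b _ _ ha hb => exact fun y hy => by rw [mul_smul]; exact ha _ (hb y hy)
        rintro _ ⟨⟨g, hg⟩, rfl⟩
        exact bl_mono (by omega) (h2 g hg x ⟨bl_self, MulAction.mem_orbit_self x⟩).1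
      · push Not at hall
        obtain ⟨y, hy, g, hg, hgy⟩ := hall
        right
        have h3 : insert (g • y) {y | y ∈ Bl S0 (lam * j) x ∧ y ∈ MulAction.orbit H x} ⊆
            {y | y ∈ Bl S0 (lam * (j + 1)) x ∧ y ∈ MulAction.orbit H x} := by
          rintro z (rfl | hz)
          · exact ⟨hstep _ y hy.1 g hg, horb y hy.2 g hg⟩
          · exact ⟨bl_mono (by rw [Nat.mul_succ]; omega) hz.1, hz.2⟩
        have h4 := Set.ncard_le_ncard h3 ((bl_finite hfin _ x).subset fun y hy => hy.1)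
        rw [Set.ncard_insert_of_notMem (fun hmem => hgy hmem.1)
          ((bl_finite hfin _ x).subset fun y hy => hy.1)] at h4
        omega
  rcases key (n / lam) (Nat.mul_div_le _ _) with h | h
  · exact Or.inl h
  · right
    have h5 : {y | y ∈ Bl S0 (lam * (n / lam)) x ∧ y ∈ MulAction.orbit H x}.ncard ≤
        {y | y ∈ Bl S0 n x ∧ y ∈ MulAction.orbit H x}.ncard :=
      Set.ncard_le_ncard (fun y hy => ⟨bl_mono (Nat.mul_div_le _ _) hy.1, hy.2⟩)
        ((bl_finite hfin _ x).subset fun y hy => hy.1)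
    calc n + 1 ≤ lam * (n / lam + 1) := Nat.lt_mul_div_succ n (by omega)
      _ ≤ lam * _ := Nat.mul_le_mul_left _ (h.trans h5)

/-- quadratic growth at the points with big orbits -/
theorem grow_quad {S0 : Set G} (hS : Subgroup.closure S0 = ⊤) (hfin : S0.Finite)
    {H : Subgroup G} (hH : H.FG) :
    ∃ lam : ℕ, ∀ (Ω : Type) [MulAction G Ω] (C C' : ℕ),
      Isop S0 C {y : Ω | (C' : ℕ∞) < (MulAction.orbit H y).encard} →
      ∀ x : Ω, (C' : ℕ∞) < (MulAction.orbit H x).encard → ∀ n : ℕ,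
        MulAction.orbit H x ⊆ Bl S0 n x ∨ n ^ 2 ≤ 2 * C * lam * (Bl S0 n x).ncard := by
  classical
  obtain ⟨lam, hlam, hL⟩ := orbit_in_ball hS hfin hH
  refine ⟨lam, fun Ω _ C C' hI x hx n => ?_⟩
  by_cases hn : MulAction.orbit H x ⊆ Bl S0 n x
  · exact Or.inl hn
  right
  have key : ∀ j ≤ n, j ^ 2 ≤ 2 * C * lam * (Bl S0 j x).ncard := by
    intro j
    induction j with
    | zero => intro _; simp
    | succ j ih =>
      intro hj
      have h1 := ih (by omega)
      have h2 := grow hfin hI (Set.finite_singleton x) j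
      rw [nbh_singleton, nbh_singleton] at h2
      rcases hL Ω x (j + 1) with h3 | h3
      · exact absurd (h3.trans (bl_mono hj)) hn
      have h4 : {y | y ∈ Bl S0 (j + 1) x ∧ y ∈ MulAction.orbit H x}.ncard ≤
          {y | y ∈ Bl S0 (j + 1) x ∧
            y ∈ {y : Ω | (C' : ℕ∞) < (MulAction.orbit H y).encard}}.ncard := by
        refine Set.ncard_le_ncard (fun y hy => ⟨hy.1, ?_⟩)
          ((bl_finite hfin _ x).subset fun y hy => hy.1)
        have h5 : MulAction.orbit H y = MulAction.orbit H x := MulAction.orbit_eq_iff.2 hy.2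
        show (C' : ℕ∞) < (MulAction.orbit H y).encard
        rw [h5]
        exact hx
      have h6 : j + 2 + lam * (C * (Bl S0 j x).ncard) ≤ lam * (C * (Bl S0 (j + 1) x).ncard) := by
        calc j + 2 + lam * (C * (Bl S0 j x).ncard)
            ≤ lam * {y | y ∈ Bl S0 (j + 1) x ∧ y ∈ MulAction.orbit H x}.ncard +
                lam * (C * (Bl S0 j x).ncard) := Nat.add_le_add_right h3 _
          _ = lam * ({y | y ∈ Bl S0 (j + 1) x ∧ y ∈ MulAction.orbit H x}.ncard +
                C * (Bl S0 j x).ncard) := by ring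
          _ ≤ lam * (C * (Bl S0 (j + 1) x).ncard) := by
              refine Nat.mul_le_mul_left _ ?_
              omega
      calc (j + 1) ^ 2 = j ^ 2 + 2 * j + 1 := by ring
        _ ≤ 2 * C * lam * (Bl S0 j x).ncard + 2 * (j + 2) := by omega
        _ = 2 * (j + 2 + lam * (C * (Bl S0 j x).ncard)) := by ring
        _ ≤ 2 * (lam * (C * (Bl S0 (j + 1) x).ncard)) := Nat.mul_le_mul_left _ h6
        _ = 2 * C * lam * (Bl S0 (j + 1) x).ncard := by ring
  exact key n le_rfl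

end Run7.h266
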