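import Pool.Agent.Run7.h266.Tube

/-!
# Thin ends somewhere
-/

set_option autoImplicit false

namespace Run7.h266

open Pool.Agent.H785R3.GrowthA
open scoped commutatorElement

variable {L : Type} {S : Sys L} {X : Type} {A : L → X → X}

/-- a large component of a set with a small collar -/
theorem sub_of_set (hA : IsAct S A) {m : ℕ} {n : ℕ∞} (hm : 0 < m)
    (hn : n ≠ 0) {W V' : Set X} {e : X} (hW : ∀ z ∈ W, ∀ z' ∈ W, Conn A W z z')
    (he : e ∈ W) (heV : e ∉ V') (hb : ∀ z ∈ V', z ∉ ball S A (N S A W))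
    (hV'N : (N S A V').encard ≤ m) (hV'n : m * n ≤ (V' ∩ W).encard) :
    ∃ V : Set X, V ⊆ W ∧ V ⊆ V' ∧ (∀ z ∈ V, ∀ z' ∈ V, Conn A V z z') ∧
      n ≤ V.encard ∧ (N S A V).encard ≤ m ∧ (∀ z ∈ N S A V, z ∉ N S A W) ∧ e ∉ V ∧
      ∃ (u : List L) (a : L), Path A (W \ V) e u ∧ A a (run A u e) ∈ V := by
  classical
  -- every component meets the collar of `V'`
  have hmeet : ∀ z ∈ V' ∩ W, ∃ p ∈ N S A V', z ∈ comp A (V' ∩ W) p := by
    intro z hz
    have hzc : z ∈ comp A (V' ∩ W) z := Conn.refl hz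
    obtain ⟨u, a, h1, h2, h3⟩ := (hW e he z hz.2).entry
      (C := comp A (V' ∩ W) z) (fun h => heV (comp_sub h).1) hzc
    have h4 : run A u e ∉ V' := by
      intro h4
      exact h1.last.2 ((comp_step (M := V' ∩ W) hA ⟨h4, h1.last.1⟩ (comp_sub h2)).2 h2)
    refine ⟨A a (run A u e), (mem_N_of_step hA (U := V') (z := run A u e) ?_).2, ?_⟩
    · have := (comp_sub h2).1
      tauto
    · exact Conn.symm hA h2
  have hfinN : (N S A V').Finite := Set.finite_of_encard_le_coe hV'N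
  obtain ⟨p, hp, hpn⟩ : ∃ p ∈ N S A V', n ≤ (comp A (V' ∩ W) p).encard := by
    by_contra hcon
    push Not at hcon
    have h1 : V' ∩ W ⊆ ⋃ p ∈ hfinN.toFinset, comp A (V' ∩ W) p := by
      intro z hz
      obtain ⟨p, hp, hzp⟩ := hmeet z hz
      simp only [Set.mem_iUnion]
      exact ⟨p, hfinN.mem_toFinset.2 hp, hzp⟩
    have hmn : (0 : ℕ∞) < m * n := by
      rw [pos_iff_ne_zero]
      simp only [ne_eq, mul_eq_zero, Nat.cast_eq_zero, hn, or_false]
      omega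
    have hne : hfinN.toFinset.Nonempty := by
      rw [Finset.nonempty_iff_ne_empty]
      intro h0
      rw [h0] at h1
      simp only [Finset.notMem_empty, Set.iUnion_of_empty, Set.iUnion_empty] at h1
      have h2 : V' ∩ W = ∅ := Set.subset_empty_iff.1 h1
      rw [h2, Set.encard_empty] at hV'n
      exact absurd hV'n (not_le.2 hmn)
    have h2 := pigeon hfinN.toFinset hne (n := n) (C := comp A (V' ∩ W))
      (fun p hp => hcon p (hfinN.mem_toFinset.1 hp))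
    have h3 := hV'n.trans (Set.encard_le_encard h1)
    have h4 : (hfinN.toFinset.card : ℕ∞) ≤ m := by
      rw [← Set.encard_coe_eq_coe_finsetCard, hfinN.coe_toFinset]
      exact hV'N
    exact absurd (h3.trans_lt h2) (not_lt.2 (mul_le_mul_left h4 n))
  set C := comp A (V' ∩ W) p with hC
  have hCV : C ⊆ V' := fun z hz => (comp_sub hz).1
  have hCW : C ⊆ W := fun z hz => (comp_sub hz).2
  have hCne : C.Nonempty := by
    rw [← Set.encard_pos]
    exact lt_of_lt_of_le (pos_iff_ne_zero.2 hn) hpn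
  -- steps inside `V'`
  have hstep : ∀ (a : L) (z : X), z ∈ V' → A a z ∈ V' → (z ∈ C ↔ A a z ∈ C) := by
    intro a z hz haz
    have h1 : z ∈ W ↔ A a z ∈ W := by
      by_contra h2
      have h3 : ¬ (A a z ∈ W ↔ z ∈ W) := fun h => h2 h.symm
      exact hb z hz (sub_ball (mem_N_of_step hA h3).1)
    by_cases h2 : z ∈ W
    · exact comp_step hA ⟨hz, h2⟩ ⟨haz, h1.1 h2⟩
    · constructor
      · intro h
        exact absurd (hCW h) h2
      · intro h
        exact absurd (h1.2 (hCW h)) h2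
  have hNC : N S A C ⊆ N S A V' := by
    rintro z ⟨w, hw, hz⟩
    by_cases hzV : z ∈ V'
    · by_contra hno
      have hall : ∀ w', w' <:+ w → run A w' z ∈ V' := by
        intro w' hw'
        by_contra h
        exact hno ⟨w', hw'.length_le.trans hw, by tauto⟩
      have : ∀ w', w' <:+ w → (run A w' z ∈ C ↔ z ∈ C) := by
        intro w'
        induction w' with
        | nil => exact fun _ => Iff.rfl
        | cons a w' ih =>
          intro h
          have h1 : w' <:+ w := (List.suffix_cons a w').trans h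
          rw [← ih h1, run_cons]
          exact (hstep a _ (hall w' h1) (hall _ h)).symm
      exact hz (this w (List.suffix_refl w))
    · have h1 : z ∉ C := fun h => hzV (hCV h)
      have h2 : run A w z ∈ C := by tauto
      exact ⟨w, hw, by have := hCV h2; tauto⟩
  refine ⟨C, hCW, hCV, fun z hz z' hz' => comp_conn hA hz hz', hpn,
    (Set.encard_le_encard hNC).trans hV'N, ?_, fun h => heV (hCV h), ?_⟩
  · rintro z ⟨w, hw, hz⟩ hzW
    by_cases hzC : z ∈ C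
    · exact hb z (hCV hzC) (sub_ball hzW)
    · have h2 : run A w z ∈ C := by tauto
      exact hb _ (hCV h2) (mem_ball hzW hw)
  · obtain ⟨z, hz⟩ := hCne
    obtain ⟨u, a, h1, h2, -⟩ := (hW e he z (hCW hz)).entry (fun h => heV (hCV h)) hz
    exact ⟨u, a, h1, h2⟩

/-- inside `V0` there are far sets with small collars in every infinite set with a finite collar -/
def HS (S : Sys L) (A : L → X → X) (m : ℕ) (V0 : Set X) : Prop :=
  ∀ W : Set X, W ⊆ V0 → W.encard = ⊤ → (N S A W).Finite → ∀ P : Set X, P.Finite →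
    ∃ V : Set X, V ⊆ W ∧ V.encard = ⊤ ∧ (∀ z ∈ V, z ∉ P) ∧ (N S A V).encard ≤ m

theorem ball_finite [Finite L] {F : Set X} (hF : F.Finite) : (ball S A F).Finite :=
  ((List.finite_length_le L S.ℓ).prod hF).image _

theorem more' [Finite L] (hA : IsAct S A) {m : ℕ} (hm : 0 < m) {V0 : Set X}
    (hs : HS S A m V0) {F W : Set X} {e : X} (hW : ∀ z ∈ W, ∀ z' ∈ W, Conn A W z z')
    (hWV : W ⊆ V0) (hWi : W.encard = ⊤) (hNW : (N S A W).Finite) (hF : F.Finite) (he : e ∈ W) :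
    ∃ V c, Site S A m ⊤ F V ∧ SubS S A W e V c := by
  obtain ⟨V', h1, h2, h3, h4⟩ := hs W hWV hWi hNW (F ∪ {e} ∪ ball S A (N S A W))
    ((hF.union (Set.finite_singleton e)).union (ball_finite hNW))
  obtain ⟨V, k1, k2, k3, k4, k5, k6, -, u, a, k7, k8⟩ := sub_of_set hA hm (n := ⊤) (by simp) hW he
    (fun h => h3 e h (Or.inl (Or.inr rfl))) (fun z hz h => h3 z hz (Or.inr h)) h4 (by
      rw [Set.inter_eq_left.2 h1, h2]
      exact le_top)
  exact ⟨V, _, ⟨k3, k4, k5, fun z hz h => h3 z (k2 hz) (Or.inl (Or.inl h))⟩,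
    ⟨k1, k6, k8, u, a, k7, rfl⟩⟩

/-- the contradiction with the absence of free semigroups -/
theorem no_infinite' [Finite L] {G : Type} [Group G] (P : Pres S G)
    (hNF : ∀ a b : G, ¬ FreePair a b) {m : ℕ} (hm : 0 < m) (hA : IsAct S A)
    {Vt : Set X} (hs : HS S A m Vt) {F : Set X} (hF : F.Finite) {τ : Code L m}
    {U0 U1 : Set X} (hU0t : U0 ⊆ Vt) {b0 b1 : X} (h0 : HasCode S τ A U0 b0)
    (hb0 : b0 ∈ N S A U0)
    (s0 : Site S A m ⊤ F U0) (s1 : Site S A m ⊤ F U1) (h : SubS S A U0 b0 U1 b1)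
    (hτ : ∀ V c, Site S A m ⊤ F V → SubS S A U0 b0 V c → τ ∈ Types S A m ⊤ F V c)
    (hinf : (U0 \ U1).encard = ⊤) : False := by
  classical
  -- an infinite component `W` of the difference
  obtain ⟨p, hp⟩ : ∃ p, (comp A (U0 \ U1) p).encard = ⊤ := by
    by_contra hcon
    push Not at hcon
    have hfinN : (N S A U1).Finite := Set.finite_of_encard_le_coe s1.coll
    have h1 : U0 \ U1 ⊆ ⋃ p ∈ hfinN.toFinset, comp A (U0 \ U1) p := by
      intro z hz
      obtain ⟨u, a, h1, h2, -⟩ := (s0.conn z hz.1 b1 (h.sub h.mem)).entry hz.2 h.mem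
      simp only [Set.mem_iUnion]
      refine ⟨run A u z, ?_, ?_⟩
      · rw [hfinN.mem_toFinset]
        have := h1.last.2
        exact (mem_N_of_step hA (a := a) (by tauto)).1
      · exact Conn.symm hA ⟨u, h1, rfl⟩
    have h2 : (⋃ p ∈ hfinN.toFinset, comp A (U0 \ U1) p).Finite := by
      refine Set.Finite.biUnion hfinN.toFinset.finite_toSet fun p _ => ?_
      exact Set.encard_ne_top_iff.1 (hcon p)
    exact Set.encard_ne_top_iff.2 (h2.subset h1) hinf
  set W := comp A (U0 \ U1) p with hWdef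
  have hWM : W ⊆ U0 \ U1 := comp_sub
  have hNW : (N S A W).Finite := by
    refine Set.Finite.subset ?_ ((N_comp hA _ _).trans (N_diff _ _))
    exact (Set.finite_of_encard_le_coe s0.coll).union (Set.finite_of_encard_le_coe s1.coll)
  have hWc : ∀ z ∈ W, ∀ z' ∈ W, Conn A W z z' := fun z hz z' hz' => comp_conn hA hz hz'
  obtain ⟨e, he⟩ : W.Nonempty := by
    rw [← Set.encard_pos, hp]
    exact ENat.top_pos
  -- the two paths
  obtain ⟨v, hv, hve⟩ := s0.conn b0 h.reach.start.1 e (hWM he).1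
  obtain ⟨u1, a1, hu1, hua1⟩ := h.reach
  have hfinv : (pts A v b0 ∪ F).Finite :=
    (Set.finite_of_encard_le_coe (pts_encard v b0)).union hF
  have hfin2 : (pts A v b0 ∪ pts A u1 b0 ∪ F).Finite :=
    ((Set.finite_of_encard_le_coe (pts_encard v b0)).union
      (Set.finite_of_encard_le_coe (pts_encard u1 b0))).union hF
  -- `V1` inside `U1`
  obtain ⟨V1, c1, hV1, hVc1⟩ := more' hA hm hs s1.conn (h.sub.trans hU0t)
    (top_le_iff.1 s1.big) (Set.finite_of_encard_le_coe s1.coll) hfinv h.mem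
  -- `V2` inside `W`
  obtain ⟨V2, c2, hV2, hVW⟩ := more' hA hm hs hWc
    ((hWM.trans Set.sdiff_subset).trans hU0t) hp hNW hfin2 he
  have g2 := hV2.avoid
  have g1 := hVW.sub
  have hV2s : Site S A m ⊤ F V2 := ⟨hV2.conn, hV2.big, hV2.coll, fun z hz hzF => g2 z hz (Or.inr hzF)⟩
  have hV1s : Site S A m ⊤ F V1 :=
    ⟨hV1.conn, hV1.big, hV1.coll, fun z hz hzF => hV1.avoid z hz (Or.inr hzF)⟩
  have hV1v : ∀ z ∈ V1, z ∉ pts A v b0 := fun z hz hzF => hV1.avoid z hz (Or.inl hzF)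
  have hV2v : ∀ z ∈ V2, z ∉ pts A v b0 := fun z hz hzF => g2 z hz (Or.inl (Or.inl hzF))
  have hV2u : ∀ z ∈ V2, z ∉ pts A u1 b0 := fun z hz hzF => g2 z hz (Or.inl (Or.inr hzF))
  have hV2U0 : V2 ⊆ U0 := fun z hz => (hWM (g1 hz)).1
  have hV2U1 : ∀ z ∈ V2, z ∉ U1 := fun z hz => (hWM (g1 hz)).2
  have hrW : Reach A (W \ V2) e c2 := hVW.reach
  have hVc2 : SubS S A U0 b0 V2 c2 := by
    refine ⟨hV2U0, nest_disj hVW.disj g1 (fun z hz => (hWM hz).1), hVW.mem, ?_⟩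
    refine Reach.of_path (hv.avoid hV2v) ?_
    rw [hve]
    exact hrW.mono fun z hz => ⟨(hWM hz.1).1, hz.2⟩
  have hVc1' := h.trans hVc1
  obtain ⟨V1', c1', hs1, hss1, hcode1⟩ := hτ V1 c1 hV1s hVc1'
  obtain ⟨V2', c2', hs2, hss2, hcode2⟩ := hτ V2 c2 hV2s hVc2
  have hS1 := hVc1'.trans hss1
  have hS2 := hVc2.trans hss2
  obtain ⟨e1, -, he1⟩ := h0.iso hcode1 hb0 (hS1.mem_N hA)
  obtain ⟨e2, -, he2⟩ := h0.iso hcode2 hb0 (hS2.mem_N hA)
  have d12 : ∀ z ∈ V1', z ∉ V2' := fun z hz hz' =>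
    hV2U1 z (hss2.sub hz') (hVc1.sub (hss1.sub hz))
  have hV1V2 : ∀ z ∈ V2', z ∉ V1 := fun z hz hz' => hV2U1 z (hss2.sub hz) (hVc1.sub hz')
  have dN12 : ∀ z ∈ N S A V1', z ∉ N S A V2' := by
    intro z hz hz'
    have hz0 := hz
    obtain ⟨w, hw, hwz⟩ := hz
    obtain ⟨w', hw', hwz'⟩ := hz'
    by_cases hzV : z ∈ V1
    · refine hss1.disj z hz0 ⟨w', hw', ?_⟩
      have h3 : z ∉ V2' := fun h => hV1V2 z h hzV
      have h4 : run A w' z ∈ V2' := by tauto
      have := hV1V2 _ h4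
      tauto
    · refine hss1.disj z hz0 ⟨w, hw, ?_⟩
      have h3 : z ∉ V1' := fun h => hzV (hss1.sub h)
      have h4 : run A w z ∈ V1' := by tauto
      have := hss1.sub h4
      tauto
  -- the paths of the configuration
  have r1 : Reach A {z | z ∈ U0 ∧ z ∉ V1' ∧ z ∉ V2'} b0 c1' := by
    have k1 : Reach A {z | z ∈ U0 ∧ z ∉ V1' ∧ z ∉ V2'} b0 b1 := by
      refine ⟨u1, a1, (hu1.avoid hV2u).mono ?_, hua1⟩
      rintro z ⟨⟨hz, hz1⟩, hz2⟩
      exact ⟨hz, fun h => hz1 (hVc1.sub (hss1.sub h)), fun h => hz2 (hss2.sub h)⟩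
    have k2 : Reach A {z | z ∈ U0 ∧ z ∉ V1' ∧ z ∉ V2'} b1 c1 := by
      refine hVc1.reach.mono ?_
      rintro z ⟨hz, hz1⟩
      exact ⟨h.sub hz, fun h => hz1 (hss1.sub h), fun h => hV2U1 z (hss2.sub h) hz⟩
    have k3 : Reach A {z | z ∈ U0 ∧ z ∉ V1' ∧ z ∉ V2'} c1 c1' := by
      refine hss1.reach.mono ?_
      rintro z ⟨hz, hz1⟩
      exact ⟨h.sub (hVc1.sub hz), hz1, fun h => hV1V2 z h hz⟩
    exact (k1.trans k2).trans k3
  have r2 : Reach A {z | z ∈ U0 ∧ z ∉ V1' ∧ z ∉ V2'} b0 c2' := by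
    have k1 : Path A {z | z ∈ U0 ∧ z ∉ V1' ∧ z ∉ V2'} b0 v := by
      refine ((hv.avoid hV2v).avoid hV1v).mono ?_
      rintro z ⟨⟨hz, hz2⟩, hz1⟩
      exact ⟨hz, fun h => hz1 (hss1.sub h), fun h => hz2 (hss2.sub h)⟩
    have k2 : Reach A {z | z ∈ U0 ∧ z ∉ V1' ∧ z ∉ V2'} e c2 := by
      refine hrW.mono ?_
      rintro z ⟨hz, hz2⟩
      exact ⟨(hWM hz).1, fun h => (hWM hz).2 (hVc1.sub (hss1.sub h)), fun h => hz2 (hss2.sub h)⟩
    have k3 : Reach A {z | z ∈ U0 ∧ z ∉ V1' ∧ z ∉ V2'} c2 c2' := by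
      refine hss2.reach.mono ?_
      rintro z ⟨hz, hz2⟩
      exact ⟨hV2U0 hz, fun h => hV2U1 z hz (hVc1.sub (hss1.sub h)), hz2⟩
    refine Reach.of_path k1 ?_
    rw [hve]
    exact k2.trans k3
  obtain ⟨w1, d1, p1, q1⟩ := r1
  obtain ⟨w2, d2, p2, q2⟩ := r2
  exact not_two P hNF hA e1 e2 he1 he2 hS1.sub hS2.sub hS1.disj hS2.disj d12 dN12 p1 q1
    hss1.mem p2 q2 hss2.mem

theorem local_case [Finite L] {G : Type} [Group G] (P : Pres S G)
    (hNF : ∀ a b : G, ¬ FreePair a b) {m : ℕ} (hm : 0 < m) {K : Subgroup G}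
    (hK : Uni P m K) (hA : IsAct S A) {V0 : Set X} (hs : HS S A m V0) (hV0 : V0.encard = ⊤)
    (hNV0 : (N S A V0).Finite) (w : List L)
    (hw : P.val w ∈ (⁅K, K⁆ : Subgroup G)) (y : X) (hy : V0 ⊆ comp A Set.univ y) :
    run A w y = y := by
  classical
  set F := pts A w y with hFdef
  have hF : F.Finite := Set.finite_of_encard_le_coe (pts_encard w y)
  set O := comp A Set.univ y with hO
  -- the first site
  obtain ⟨V', h1, h2, h3, h4⟩ := hs V0 subset_rfl hV0 hNV0 (F ∪ {y})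
    (hF.union (Set.finite_singleton y))
  obtain ⟨V1, k1, k2, k3, k4, k5, k6, -, u, a, k7, k8⟩ := sub_of_set hA hm (n := ⊤) (by simp)
    (W := O) (fun z hz z' hz' => comp_conn hA hz hz') (Conn.refl trivial : y ∈ O)
    (fun h => h3 y h (Or.inr rfl)) (V' := V') (fun z hz h => by
      rw [hO, N_univ_orbit hA] at h
      obtain ⟨p, ⟨-, hp⟩, -⟩ := h
      exact hp) h4 (by
      rw [Set.inter_eq_left.2 (h1.trans hy), h2]
      exact le_top)
  have hV1 : Site S A m ⊤ F V1 := ⟨k3, k4, k5, fun z hz h => h3 z (k2 hz) (Or.inl h)⟩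
  have hVc1 : SubS S A O y V1 (A a (run A u y)) := ⟨k1, k6, k8, u, a, k7, rfl⟩
  have hV1t : V1 ⊆ V0 := k2.trans h1
  have step : ∀ (W : Set X) (e : X), W ⊆ V0 → Site S A m ⊤ F W → e ∈ W →
      ∃ V c, Site S A m ⊤ F V ∧ SubS S A W e V c := fun W e h1 h2 h3 =>
    more' hA hm hs h2.conn h1 (top_le_iff.1 h2.big) (Set.finite_of_encard_le_coe h2.coll) hF h3
  -- a site with a minimal set of codes of sub-sites
  let good : ℕ → Prop := fun k => ∃ V c, V ⊆ V0 ∧ Site S A m ⊤ F V ∧ SubS S A O y V c ∧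
    (Types S A m ⊤ F V c).ncard = k
  have hex : ∃ k, good k := ⟨_, V1, _, hV1t, hV1, hVc1, rfl⟩
  obtain ⟨U, b, hUt, hU, hUb, hUn⟩ := Nat.find_spec hex
  have hmin : ∀ V c, V ⊆ V0 → Site S A m ⊤ F V → SubS S A O y V c →
      (Types S A m ⊤ F U b).ncard ≤ (Types S A m ⊤ F V c).ncard := by
    intro V c h0 h1 h2
    rw [hUn]
    exact Nat.find_min' hex ⟨V, c, h0, h1, h2, rfl⟩
  have heq : ∀ V c, Site S A m ⊤ F V → SubS S A U b V c →
      Types S A m ⊤ F V c = Types S A m ⊤ F U b := by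
    intro V c h1 h2
    exact Set.eq_of_subset_of_ncard_le (Types_sub h2)
      (hmin V c (h2.sub.trans hUt) h1 (hUb.trans h2)) (Set.toFinite _)
  obtain ⟨U0, b0, hU0, hUb0⟩ := step U b hUt hU hUb.mem
  obtain ⟨τ, hτ⟩ := exists_code (S := S) A U0 b0 hm hU0.coll
  have hτU : τ ∈ Types S A m ⊤ F U b := ⟨U0, b0, hU0, hUb0, hτ⟩
  have hτU0 : τ ∈ Types S A m ⊤ F U0 b0 := by rwa [heq U0 b0 hU0 hUb0]
  obtain ⟨U1, b1, hU1, hUb1, hτ1⟩ := hτU0
  by_cases hfin : (U0 \ U1).Finite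
  · exact fix_of P hK hA (hUb.trans hUb0) hUb1 hτ hτ1 hfin hw hU0.avoid
  · exfalso
    refine no_infinite' P hNF hm hA hs hF (hUb0.sub.trans hUt) hτ (hUb0.mem_N hA) hU0 hU1 hUb1 ?_
      (Set.encard_eq_top_iff.2 hfin)
    intro V c h1 h2
    rw [heq V c h1 (hUb0.trans h2)]
    exact hτU

end Run7.h266
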