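import Pool.Agent.Run7.h266.Grp

/-!
# Bounded tree-width
-/

set_option autoImplicit false

namespace Run7.h266

open Pool.Agent.H785R3.GrowthA
open scoped Pointwise
open TW

theorem collar_bound {G : Type} [Group G] {n : ℕ} (φ : FreeGroup (Fin n) →* G)
    (R : Finset (FreeGroup (Fin n))) {S0 : Set G}
    (hS : Subgroup.closure S0 = ⊤) (k : ℕ) : ∃ cN : ℕ, ∀ (Ω : Type) [MulAction G Ω]
      (V D : Set Ω), D.encard ≤ k →
      (∀ s ∈ S0, ∀ x, ¬ (s • x ∈ V ↔ x ∈ V) → x ∈ D ∨ s • x ∈ D) →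
      (N (sysOf R) (actOf φ Ω) V).encard ≤ cN := by
  classical
  choose B hB using fun g : G => cross_elt hS g
  have hfin : ({w : List (Fin n × Bool) | w.length ≤ (sysOf R).ℓ}).Finite :=
    List.finite_length_le _ _
  let H : Finset G := hfin.toFinset.biUnion fun w => B (φ (FreeGroup.mk w))
  refine ⟨H.card * k, fun Ω _ V D hD hc => ?_⟩
  have h1 : N (sysOf R) (actOf φ Ω) V ⊆ (fun p : G × Ω => p.1⁻¹ • p.2) '' ((H : Set G) ×ˢ D) := by
    rintro z ⟨w, hw, hz⟩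
    rw [run_actOf] at hz
    obtain ⟨h, hh, hhz⟩ := hB _ Ω V D hc z hz
    refine ⟨(h, h • z), ⟨?_, hhz⟩, inv_smul_smul _ _⟩
    rw [Finset.mem_coe, Finset.mem_biUnion]
    exact ⟨w, hfin.mem_toFinset.2 hw, hh⟩
  refine (Set.encard_le_encard h1).trans ((Set.encard_image_le _ _).trans ?_)
  rw [Set.encard_prod, Set.encard_coe_eq_coe_finsetCard]
  push_cast
  exact mul_le_mul_right hD _

theorem conn_orbit {G : Type} [Group G] {n : ℕ} (φ : FreeGroup (Fin n) →* G) {Ω : Type}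
    [MulAction G Ω] {x z : Ω} (h : Conn (actOf φ Ω) Set.univ x z) : z ∈ MulAction.orbit G x := by
  obtain ⟨w, -, rfl⟩ := h
  rw [run_actOf]
  exact ⟨_, rfl⟩

open scoped commutatorElement

theorem tw_main {G : Type} [Group G] {n : ℕ} (φ : FreeGroup (Fin n) →* G)
    (hφ : Function.Surjective φ) (R : Finset (FreeGroup (Fin n)))
    (hR : Subgroup.normalClosure (R : Set (FreeGroup (Fin n))) = φ.ker)
    (hNF : ∀ a b : G, ¬ FreePair a b) {S0 : Set G} (hS : Subgroup.closure S0 = ⊤)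
    (hfin : S0.Finite) (k : ℕ) :
    ∃ N0 : Subgroup G, N0.Normal ∧
      (∃ H : Subgroup G, H.FiniteIndex ∧ ∀ a ∈ H, ∀ b ∈ H, ⁅a, b⁆ ∈ N0) ∧
      ∀ (Ω : Type) [MulAction G Ω] (I : Type) (T : SimpleGraph I)
        (β : I → Set Ω), TD T β → (∀ i, (β i).encard ≤ k) →
        (∀ s ∈ S0, ∀ x, ∃ i, x ∈ β i ∧ s • x ∈ β i) →
        ∀ g ∈ N0, ∀ ω : Ω, g • ω = ω := by
  classical
  obtain ⟨cN, hcN⟩ := collar_bound φ R hS k
  have hG : Group.FG G := Group.fg_of_surjective hφ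
  have hth : ∀ q n' : ℕ, ∃ N' : ℕ, Thr k (S0 ∪ S0⁻¹).ncard ((n' + 1 : ℕ) : ℕ∞) q = N' :=
    fun q n' => Thr_nat k (S0 ∪ S0⁻¹).ncard (n' + 1) q
  choose Nf hNf using hth
  obtain ⟨N0, hN0, hH, hfix⟩ := core (presOf φ hφ R hR) hG hNF (m := 2 * cN + 1)
    (Nat.succ_pos _) Nf
  refine ⟨N0, hN0, hH, ?_⟩
  intro Ω _ I T β D hk hE g hg ω
  have hA := actOf_isAct φ R hR Ω
  have hsepG : ∀ (q : ℕ) (m : ℕ∞), m ≠ 0 →
      Sep (sysOf R) (actOf φ Ω) (2 * cN + 1) q m (Thr k (S0 ∪ S0⁻¹).ncard m q) := by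
    intro q m hm K E hK hE' hone
    have hne : E.Nonempty := by
      rw [← Set.encard_pos]
      exact lt_of_lt_of_le (pos_iff_ne_zero.2 hm) ((le_Thr _ _ _ _).trans hE')
    obtain ⟨x0, hx0⟩ := hne
    obtain ⟨o, ho⟩ := root D hS hE x0
    have hEo : V T β (MulAction.orbit G x0) none o ∩ E = E := by
      rw [Set.inter_eq_right]
      intro z hz
      exact ho (conn_orbit φ (hone x0 hx0 z hz))
    obtain ⟨W, h1, h2, h3⟩ := sepT D hS hfin hE hk x0 (N (sysOf R) (actOf φ Ω))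
      (fun U V => N_diff U V) (cN := cN)
      (fun p c hv => hcN _ _ _ (hk c) (V_cross' D hE hv)) hm K E q none o
      (fun t ht => absurd ht (by simp))
      ((Set.encard_le_encard Set.inter_subset_left).trans hK) (by rw [hEo]; exact hE')
    refine ⟨W, h1, h2.trans ?_, h3⟩
    exact_mod_cast Nat.le_succ _
  obtain ⟨w, rfl⟩ := (presOf φ hφ R hR).surj g
  have := hfix Ω (actOf φ Ω) hA
    (fun q => by
      have := hsepG q ⊤ (by simp)
      rwa [Thr_top] at this)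
    (fun q n' => by
      intro K E hK hE' hone
      have h0 := hsepG q ((n' + 1 : ℕ) : ℕ∞) (by simp)
      rw [hNf] at h0
      obtain ⟨W, h1, h2, h3⟩ := h0 K E hK hE' hone
      exact ⟨W, h1, h2, le_trans (by exact_mod_cast Nat.le_succ _) h3⟩) w hg ω
  rw [run_actOf] at this
  exact this

end Run7.h266
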