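import Pool.Agent.Run7.h266.Tube
import Pool.Agent.Run7.h266.Main

/-!
# Tubes in Schreier graphs
-/

set_option autoImplicit false

namespace Run7.h266

open Pool.Agent.H785R3.GrowthA
open scoped commutatorElement

/-- the boundary of a set of points -/
def bd {G : Type} [Group G] (S0 : Set G) {Ω : Type} [MulAction G Ω] (U : Set Ω) : Set Ω :=
  {x | ∃ s ∈ S0, ¬ (s • x ∈ U ↔ x ∈ U) ∨ ¬ (s⁻¹ • x ∈ U ↔ x ∈ U)}

/-- an element moves points by boundedly many levels of a nested sequence with disjoint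
boundaries -/
theorem levels {G : Type} [Group G] {S0 : Set G} (hS : Subgroup.closure S0 = ⊤) (g : G) :
    ∃ ρ : ℕ, ∀ (Ω : Type) [MulAction G Ω] (U : ℕ → Set Ω) (LL : ℕ),
      (∀ i < LL, U (i + 1) ⊆ U i) → (∀ i < LL, Disjoint (bd S0 (U i)) (bd S0 (U (i + 1)))) →
      ∀ i ≤ LL, ρ ≤ i → ∀ x ∈ U i, g • x ∈ U (i - ρ) ∧ g⁻¹ • x ∈ U (i - ρ) := by
  have hg : g ∈ Subgroup.closure S0 := by rw [hS]; trivial
  induction hg using Subgroup.closure_induction with
  | mem s hs =>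
    refine ⟨1, fun Ω _ U LL h1 h2 i hi hi1 x hx => ?_⟩
    obtain ⟨j, rfl⟩ : ∃ j, i = j + 1 := ⟨i - 1, by omega⟩
    rw [Nat.add_sub_cancel]
    have hxj : x ∈ U j := h1 j (by omega) hx
    constructor
    · by_contra hno
      have hno' : s • x ∉ U (j + 1) := fun h => hno (h1 j (by omega) h)
      exact Set.disjoint_left.1 (h2 j (by omega)) (⟨s, hs, Or.inl (by tauto)⟩ : x ∈ bd S0 (U j))
        ⟨s, hs, Or.inl (by tauto)⟩
    · by_contra hno
      have hno' : s⁻¹ • x ∉ U (j + 1) := fun h => hno (h1 j (by omega) h)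
      exact Set.disjoint_left.1 (h2 j (by omega)) (⟨s, hs, Or.inr (by tauto)⟩ : x ∈ bd S0 (U j))
        ⟨s, hs, Or.inr (by tauto)⟩
  | one =>
    refine ⟨0, fun Ω _ U LL h1 h2 i hi hi1 x hx => ?_⟩
    rw [inv_one, one_smul, Nat.sub_zero]
    exact ⟨hx, hx⟩
  | mul a b _ _ ha hb =>
    obtain ⟨ra, ha⟩ := ha
    obtain ⟨rb, hb⟩ := hb
    refine ⟨ra + rb, fun Ω _ U LL h1 h2 i hi hi1 x hx => ?_⟩
    constructor
    · have h3 := (hb Ω U LL h1 h2 i hi (by omega) x hx).1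
      have h4 := (ha Ω U LL h1 h2 (i - rb) (by omega) (by omega) _ h3).1
      rw [smul_smul, show i - rb - ra = i - (ra + rb) by omega] at h4
      exact h4
    · have h3 := (ha Ω U LL h1 h2 i hi (by omega) x hx).2
      have h4 := (hb Ω U LL h1 h2 (i - ra) (by omega) (by omega) _ h3).2
      rw [smul_smul, show i - ra - rb = i - (ra + rb) by omega] at h4
      rw [mul_inv_rev]
      exact h4
  | inv a _ ha =>
    obtain ⟨ra, ha⟩ := ha
    refine ⟨ra, fun Ω _ U LL h1 h2 i hi hi1 x hx => ?_⟩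
    rw [inv_inv]
    exact (ha Ω U LL h1 h2 i hi hi1 x hx).symm

/-- a long thin tube -/
def TubeS {G : Type} [Group G] (S0 : Set G) (m LL : ℕ) (Ω : Type) [MulAction G Ω] : Prop :=
  ∃ U : ℕ → Set Ω, (∀ i < LL, U (i + 1) ⊆ U i) ∧ (∀ i ≤ LL, (bd S0 (U i)).encard ≤ m) ∧
    (∀ i < LL, Disjoint (bd S0 (U i)) (bd S0 (U (i + 1)))) ∧
    (∀ i < LL, (U i \ U (i + 1)).Finite) ∧ (U LL).Nonempty ∧ U 0 ≠ Set.univ

theorem conn_of_orbit {G : Type} [Group G] {n : ℕ} (φ : FreeGroup (Fin n) →* G)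
    (hφ : Function.Surjective φ) {Ω : Type} [MulAction G Ω] {x : Ω} (g : G) :
    Conn (actOf φ Ω) Set.univ x (g • x) := by
  obtain ⟨f, rfl⟩ := hφ g
  refine ⟨f.toWord, Path.of_suffix fun _ _ => trivial, ?_⟩
  rw [run_actOf, FreeGroup.mk_toWord]

theorem tube_main {G : Type} [Group G] {n : ℕ} (φ : FreeGroup (Fin n) →* G)
    (hφ : Function.Surjective φ) (R : Finset (FreeGroup (Fin n)))
    (hR : Subgroup.normalClosure (R : Set (FreeGroup (Fin n))) = φ.ker)
    (Nn : Subgroup G) [hNn : Nn.Normal]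
    (hcfg : ∀ K : Subgroup G, K ≤ Nn → (K.subgroupOf Nn).FiniteIndex →
      (⁅K, K⁆ : Subgroup G).FG) {S0 : Set G} (hS : Subgroup.closure S0 = ⊤) (m : ℕ) :
    ∃ (K : Subgroup G) (LL : ℕ), K ≤ Nn ∧ (K.subgroupOf Nn).FiniteIndex ∧ K.Normal ∧
      ∀ (Ω : Type) [MulAction G Ω], (∀ x y : Ω, ∃ g : G, g • x = y) → TubeS S0 m LL Ω →
        ∀ g ∈ (⁅K, K⁆ : Subgroup G), ∀ ω : Ω, g • ω = ω := by
  classical
  obtain ⟨cN, hcN⟩ := collar_bound φ R hS m
  obtain ⟨K, hKN, hKfi, hKn, hKfg, hK⟩ := star' (presOf φ hφ R hR) Nn hcfg (cN + 1)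
  obtain ⟨T, hT⟩ := hKfg
  have hw : ∀ t : G, ∃ w : List (Fin n × Bool), φ (FreeGroup.mk w) = t :=
    fun t => (presOf φ hφ R hR).surj t
  choose wd hwd using hw
  have hfinw : ({w : List (Fin n × Bool) | w.length ≤ (sysOf R).ℓ}).Finite :=
    List.finite_length_le _ _
  choose ρ hρ using fun g : G => levels hS g
  set lam := T.sup (fun t => (wd t).length) with hlam
  set r0 := hfinw.toFinset.sup (fun w => ρ (φ (FreeGroup.mk w))) with hr0
  set L0 := lam + Nat.card (Code (Fin n × Bool) (cN + 1)) + 1 with hL0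
  refine ⟨K, (2 * r0 + 1) * ((cN + 1 + 1) * L0), hKN, hKfi, hKn, ?_⟩
  intro Ω _ htr htube
  obtain ⟨U, h1, h2, h3, h4, ⟨z, hz⟩, h6⟩ := htube
  obtain ⟨y, hy⟩ : ∃ y, y ∉ U 0 := by
    by_contra hcon
    push Not at hcon
    exact h6 (Set.eq_univ_of_forall hcon)
  have hA := actOf_isAct φ R hR Ω
  have hX : ∀ z z' : Ω, Conn (actOf φ Ω) Set.univ z z' := by
    intro z z'
    obtain ⟨g, rfl⟩ := htr z z'
    exact conn_of_orbit φ hφ g
  set LL := (2 * r0 + 1) * ((cN + 1 + 1) * L0) with hLL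
  have hmono : ∀ i j, i ≤ j → j ≤ LL → U j ⊆ U i := by
    intro i j hij
    induction j, hij using Nat.le_induction with
    | base => exact fun _ => subset_rfl
    | succ j hij ih => exact fun hj => (h1 j (by omega)).trans (ih (by omega))
  have hfin' : ∀ i j, i ≤ j → j ≤ LL → (U i \ U j).Finite := by
    intro i j hij
    induction j, hij using Nat.le_induction with
    | base => exact fun _ => by simp
    | succ j hij ih =>
      intro hj
      refine ((ih (by omega)).union (h4 j (by omega))).subset ?_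
      intro z hz
      by_cases h : z ∈ U j
      · exact Or.inr ⟨h, hz.2⟩
      · exact Or.inl ⟨hz.1, h⟩
  have hidx : ∀ i ≤ (cN + 1 + 1) * L0, (2 * r0 + 1) * i ≤ LL := fun i hi =>
    Nat.mul_le_mul_left _ hi
  have hcoll : ∀ i ≤ LL, (N (sysOf R) (actOf φ Ω) (U i)).encard ≤ (cN + 1 : ℕ) := by
    intro i hi
    refine (hcN Ω (U i) (bd S0 (U i)) (h2 i hi) ?_).trans (by exact_mod_cast Nat.le_succ _)
    intro s hs x hx
    exact Or.inl ⟨s, hs, Or.inl hx⟩
  -- short words move by at most `r0` levels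
  have hlev : ∀ (w : List (Fin n × Bool)), w.length ≤ (sysOf R).ℓ → ∀ i ≤ LL, r0 ≤ i → ∀ x ∈ U i,
      run (actOf φ Ω) w x ∈ U (i - r0) ∧ ∀ x', run (actOf φ Ω) w x' = x → x' ∈ U (i - r0) := by
    intro w hw i hi hir x hx
    have h7 : ρ (φ (FreeGroup.mk w)) ≤ r0 :=
      Finset.le_sup (f := fun w => ρ (φ (FreeGroup.mk w))) (hfinw.mem_toFinset.2 hw)
    have h8 := hρ (φ (FreeGroup.mk w)) Ω U LL h1 h3 i hi (by omega) x hx
    constructor
    · rw [run_actOf]
      exact hmono _ _ (by omega) (by omega) h8.1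
    · intro x' hx'
      rw [run_actOf] at hx'
      have h9 : x' = (φ (FreeGroup.mk w))⁻¹ • x := by rw [← hx', inv_smul_smul]
      rw [h9]
      exact hmono _ _ (by omega) (by omega) h8.2
  have hdisj : ∀ i < (cN + 1 + 1) * L0,
      ∀ z ∈ N (sysOf R) (actOf φ Ω) (U ((2 * r0 + 1) * (i + 1))),
      z ∉ N (sysOf R) (actOf φ Ω) (U ((2 * r0 + 1) * i)) := by
    intro i hi z hz hz'
    have hI := hidx (i + 1) (by omega)
    have hexp : (2 * r0 + 1) * (i + 1) = (2 * r0 + 1) * i + (2 * r0 + 1) := by ring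
    obtain ⟨v, hv, hvz⟩ := hz
    obtain ⟨v', hv', hvz'⟩ := hz'
    -- `z` is deep
    have hdeep : z ∈ U ((2 * r0 + 1) * (i + 1) - r0) := by
      by_cases h7 : z ∈ U ((2 * r0 + 1) * (i + 1))
      · exact hmono _ _ (by omega) hI h7
      · have h8 : run (actOf φ Ω) v z ∈ U ((2 * r0 + 1) * (i + 1)) := by tauto
        exact (hlev v hv _ hI (by omega) _ h8).2 z rfl
    have h9 := (hlev v' hv' _ (by omega) (by omega) z hdeep).1
    have h10 : z ∈ U ((2 * r0 + 1) * i) := hmono _ _ (by omega) (by omega) hdeep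
    have h11 : run (actOf φ Ω) v' z ∈ U ((2 * r0 + 1) * i) :=
      hmono _ _ (by omega) (by omega) h9
    tauto
  obtain ⟨C, k1, k2, k3, k4, k5, k6, k7⟩ := tube_conn hA hX (m := cN + 1)
    (U := fun i => U ((2 * r0 + 1) * i)) (L0 := L0)
    (fun i hi => hmono _ _ (by
      have : (2 * r0 + 1) * (i + 1) = (2 * r0 + 1) * i + (2 * r0 + 1) := by ring
      omega) (hidx _ (by omega)))
    (fun i hi => hcoll _ (hidx i hi)) hdisj
    (fun i hi => hfin' _ _ (by
      have : (2 * r0 + 1) * (i + 1) = (2 * r0 + 1) * i + (2 * r0 + 1) := by ring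
      omega) (hidx _ (by omega))) hz (y := y) (by simpa using hy)
  -- the generators fix `y`
  have hfixy : ∀ t ∈ T, t • y = y := by
    intro t ht
    have h7 : (presOf φ hφ R hR).val (wd t) ∈ (⁅K, K⁆ : Subgroup G) := by
      show φ (FreeGroup.mk (wd t)) ∈ _
      rw [hwd, ← hT]
      exact Subgroup.subset_closure ht
    have h8 : (wd t).length ≤ lam := Finset.le_sup (f := fun t => (wd t).length) ht
    have h9 := tube_fix (presOf φ hφ R hR) (m := cN + 1) (Nat.succ_pos _) hK hA hX h7 k1 k2 k3 k4 k5 k6 k7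
      (by omega)
    rw [run_actOf, hwd] at h9
    exact h9
  have hfixy' : ∀ g ∈ (⁅K, K⁆ : Subgroup G), g • y = y := by
    intro g hg
    have h7 : (⁅K, K⁆ : Subgroup G) ≤ MulAction.stabilizer G y := by
      rw [← hT, Subgroup.closure_le]
      exact hfixy
    exact h7 hg
  intro g hg ω
  obtain ⟨h, rfl⟩ := htr y ω
  have hn : (⁅K, K⁆ : Subgroup G).Normal := inferInstance
  have h7 := hfixy' _ (hn.conj_mem g hg h⁻¹)
  rw [inv_inv, mul_smul, mul_smul, inv_smul_eq_iff] at h7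
  exact h7

/-- the commutator subgroups are finitely generated if there is no free semigroup -/
theorem cfg_of_nf {G : Type} [Group G] (Nn : Subgroup G) (hfg : Nn.FG)
    (hNF : ∀ a b : Nn, ¬ FreePair a b) (K : Subgroup G) (hK : K ≤ Nn)
    (hfi : (K.subgroupOf Nn).FiniteIndex) : (⁅K, K⁆ : Subgroup G).FG := by
  have h1 := Pool.Agent.N6.W.commutator_sub_fg ((Group.fg_iff_subgroup_fg Nn).2 hfg) hNF
    (K.subgroupOf Nn) hfi
  classical
  obtain ⟨T, hT⟩ := h1
  refine ⟨T.image Nn.subtype, ?_⟩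
  rw [Finset.coe_image, ← MonoidHom.map_closure, hT, Subgroup.map_commutator,
    Subgroup.map_subgroupOf_eq_of_le hK]

end Run7.h266
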