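import Pool.Agent.Run7.h266.Local
import Pool.Agent.Run7.h266.TubeG

/-!
# Thin ends in Schreier graphs
-/

set_option autoImplicit false

namespace Run7.h266

open Pool.Agent.H785R3.GrowthA
open scoped commutatorElement

theorem suffix_cross {L : Type} {S : Sys L} {X : Type} {A : L → X → X} (hA : IsAct S A)
    {W : Set X} {x : X} {w : List L} (h : ¬ (run A w x ∈ W ↔ x ∈ W)) :
    ∃ w', w' <:+ w ∧ run A w' x ∈ N S A W := by
  induction w with
  | nil => exact absurd Iff.rfl h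
  | cons a w ih =>
    by_cases h1 : (run A w x ∈ W ↔ x ∈ W)
    · refine ⟨w, List.suffix_cons a w, (mem_N_of_step hA (a := a) ?_).1⟩
      rw [run_cons] at h
      tauto
    · obtain ⟨w', h2, h3⟩ := ih h1
      exact ⟨w', h2.trans (List.suffix_cons a w), h3⟩

/-- finite collars give finite boundaries -/
theorem bd_finite {G : Type} [Group G] {n : ℕ} (φ : FreeGroup (Fin n) →* G)
    (hφ : Function.Surjective φ) (R : Finset (FreeGroup (Fin n)))
    (hR : Subgroup.normalClosure (R : Set (FreeGroup (Fin n))) = φ.ker) {S0 : Set G}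
    (hfin : S0.Finite) {Ω : Type} [MulAction G Ω] {W : Set Ω}
    (hW : (N (sysOf R) (actOf φ Ω) W).Finite) : (bd S0 W).Finite := by
  classical
  have hA := actOf_isAct φ R hR Ω
  have hw : ∀ t : G, ∃ w : List (Fin n × Bool), φ (FreeGroup.mk w) = t :=
    fun t => (presOf φ hφ R hR).surj t
  choose wd hwd using hw
  let F : G → Set Ω := fun s => ⋃ w' ∈ ((wd s).tails.toFinset : Finset (List (Fin n × Bool))),
    (run (actOf φ Ω) ((sysOf R).winv w')) '' N (sysOf R) (actOf φ Ω) W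
  have hF : ∀ s, (F s).Finite := fun s =>
    Set.Finite.biUnion (Finset.finite_toSet _) fun w' _ => hW.image _
  have key : ∀ s x, ¬ (s • x ∈ W ↔ x ∈ W) → x ∈ F s := by
    intro s x hx
    rw [← hwd s, ← run_actOf] at hx
    obtain ⟨w', h1, h2⟩ := suffix_cross hA hx
    simp only [F, Set.mem_iUnion]
    exact ⟨w', by simpa using h1, run (actOf φ Ω) w' x, h2, hA.winv_run w' x⟩
  refine (Set.Finite.biUnion hfin fun s _ => (hF s).union ((hF s).image (s • ·))).subset ?_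
  rintro x ⟨s, hs, hx⟩
  simp only [Set.mem_iUnion]
  refine ⟨s, hs, ?_⟩
  rcases hx with hx | hx
  · exact Or.inl (key s x hx)
  · refine Or.inr ⟨s⁻¹ • x, key s _ ?_, smul_inv_smul _ _⟩
    rw [smul_inv_smul]
    tauto

/-- locally thin Schreier graphs -/
def LThin {G : Type} [Group G] (S0 : Set G) (m : ℕ) {Ω : Type} [MulAction G Ω] (V0 : Set Ω) :
    Prop :=
  V0.Infinite ∧ (bd S0 V0).Finite ∧ ∀ W ⊆ V0, W.Infinite → (bd S0 W).Finite →
    ∀ P : Set Ω, P.Finite → ∃ V ⊆ W, V.Infinite ∧ Disjoint V P ∧ (bd S0 V).encard ≤ m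

theorem local_main {G : Type} [Group G] {n : ℕ} (φ : FreeGroup (Fin n) →* G)
    (hφ : Function.Surjective φ) (R : Finset (FreeGroup (Fin n)))
    (hR : Subgroup.normalClosure (R : Set (FreeGroup (Fin n))) = φ.ker)
    (hNF : ∀ a b : G, ¬ FreePair a b) {S0 : Set G} (hS : Subgroup.closure S0 = ⊤)
    (hfin : S0.Finite) (m : ℕ) :
    ∃ K : Subgroup G, K.FiniteIndex ∧ K.Normal ∧
      ∀ (Ω : Type) [MulAction G Ω], (∀ x y : Ω, ∃ g : G, g • x = y) →
        (∃ V0 : Set Ω, LThin S0 m V0) → ∀ g ∈ (⁅K, K⁆ : Subgroup G), ∀ ω : Ω, g • ω = ω := by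
  classical
  obtain ⟨cN, hcN⟩ := collar_bound φ R hS m
  have hG : Group.FG G := Group.fg_of_surjective hφ
  obtain ⟨K, hKfi, hKn, -, hK⟩ := star (presOf φ hφ R hR) hG hNF (cN + 1)
  refine ⟨K, hKfi, hKn, ?_⟩
  rintro Ω _ htr ⟨V0, h1, h2, h3⟩ g hg ω
  have hA := actOf_isAct φ R hR Ω
  have hHS : HS (sysOf R) (actOf φ Ω) (cN + 1) V0 := by
    intro W hW hWi hNW P hP
    obtain ⟨V, k1, k2, k3, k4⟩ := h3 W hW (Set.encard_eq_top_iff.1 hWi)
      (bd_finite φ hφ R hR hfin hNW) P hP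
    refine ⟨V, k1, Set.encard_eq_top_iff.2 k2, fun z hz hzP => Set.disjoint_left.1 k3 hz hzP, ?_⟩
    refine (hcN Ω V (bd S0 V) k4 ?_).trans (by exact_mod_cast Nat.le_succ _)
    intro s hs x hx
    exact Or.inl ⟨s, hs, Or.inl hx⟩
  have hNV0 : (N (sysOf R) (actOf φ Ω) V0).Finite := by
    obtain ⟨c, hc⟩ := collar_bound φ R hS (bd S0 V0).ncard
    refine Set.finite_of_encard_le_coe (hc Ω V0 (bd S0 V0) (le_of_eq h2.cast_ncard_eq.symm) ?_)
    intro s hs x hx
    exact Or.inl ⟨s, hs, Or.inl hx⟩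
  obtain ⟨w, rfl⟩ := (presOf φ hφ R hR).surj g
  have h4 := local_case (presOf φ hφ R hR) hNF (Nat.succ_pos _) hK hA hHS
    (Set.encard_eq_top_iff.2 h1) hNV0 w hg ω (fun z _ => by
      obtain ⟨g, rfl⟩ := htr ω z
      exact conn_of_orbit φ hφ g)
  rw [run_actOf] at h4
  exact h4

end Run7.h266
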