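import Pool.Agent.Run7.h266.IsopUse

/-!
# Means and the isoperimetric inequality
-/

set_option autoImplicit false

namespace Run7.h266

open scoped Pointwise

/-- a finitely additive probability measure on all subsets, invariant under `G` -/
structure Mean (G : Type) [Group G] {X : Type} [MulAction G X] (m : Set X → ℝ) : Prop where
  univ : m Set.univ = 1
  nonneg : ∀ A, 0 ≤ m A
  add : ∀ A B : Set X, Disjoint A B → m (A ∪ B) = m A + m B
  inv : ∀ (g : G) (A : Set X), m ((fun x => g • x) ⁻¹' A) = m A

section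

variable {G : Type} [Group G] {X : Type} [MulAction G X] {m : Set X → ℝ}

theorem Mean.empty (hm : Mean G m) : m ∅ = 0 := by
  have := hm.add ∅ ∅ (by simp)
  simp at this
  linarith

theorem Mean.mono (hm : Mean G m) {A B : Set X} (h : A ⊆ B) : m A ≤ m B := by
  have h1 := hm.add A (B \ A) Set.disjoint_sdiff_right
  rw [Set.union_sdiff_cancel h] at h1
  have := hm.nonneg (B \ A)
  linarith

theorem Mean.sum (hm : Mean G m) {ι : Type*} (s : Finset ι) (B : ι → Set X)
    (hB : ∀ i ∈ s, ∀ j ∈ s, i ≠ j → Disjoint (B i) (B j)) :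
    m (⋃ i ∈ s, B i) = ∑ i ∈ s, m (B i) := by
  classical
  induction s using Finset.induction_on with
  | empty => simp [hm.empty]
  | insert a s ha ih =>
    rw [Finset.set_biUnion_insert, Finset.sum_insert ha, hm.add, ih]
    · intro i hi j hj hij
      exact hB i (Finset.mem_insert_of_mem hi) j (Finset.mem_insert_of_mem hj) hij
    · rw [Set.disjoint_iUnion₂_right]
      intro i hi
      apply hB a (Finset.mem_insert_self a s) i (Finset.mem_insert_of_mem hi)
      rintro rfl
      exact ha hi

theorem Mean.image (hm : Mean G m) (g : G) (A : Set X) :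
    m ((fun x => g • x) '' A) = m A := by
  rw [← hm.inv g ((fun x => g • x) '' A)]
  congr 1
  exact Set.preimage_image_eq _ (MulAction.injective g)

/-- many disjoint copies -/
theorem mean_copies (hm : Mean G m) (B : Set X) (K : Finset G) (k : ℕ) (f : B × Fin k → X)
    (hf : Function.Injective f) (hK : ∀ x : B × Fin k, ∃ g ∈ K, f x = g • (x.1 : X)) :
    k * m B ≤ 1 := by
  classical
  choose κ hκ hκ2 using hK
  let D : G → Fin k → Set X := fun g j => {x | ∃ h : x ∈ B, κ (⟨x, h⟩, j) = g}
  have h1 : ∀ j : Fin k, ∑ g ∈ K, m (D g j) = m B := by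
    intro j
    rw [← hm.sum K (fun g => D g j)]
    · congr 1
      ext x
      rw [Set.mem_iUnion₂]
      constructor
      · rintro ⟨g, _, h, _⟩
        exact h
      · intro h
        exact ⟨κ (⟨x, h⟩, j), hκ _, h, rfl⟩
    · intro g _ g' _ hne
      rw [Set.disjoint_left]
      rintro x ⟨h, e1⟩ ⟨h', e2⟩
      exact hne (e1.symm.trans e2)
  have h2 : ∑ x ∈ K ×ˢ (Finset.univ : Finset (Fin k)), m (D x.1 x.2) = k * m B := by
    rw [Finset.sum_product_right]
    simp only [h1]
    simp
  rw [← h2]
  calc ∑ x ∈ K ×ˢ (Finset.univ : Finset (Fin k)), m (D x.1 x.2)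
      = ∑ x ∈ K ×ˢ (Finset.univ : Finset (Fin k)), m ((fun y => x.1 • y) '' D x.1 x.2) := by
        refine Finset.sum_congr rfl (fun x _ => (hm.image _ _).symm)
    _ = m (⋃ x ∈ K ×ˢ (Finset.univ : Finset (Fin k)), (fun y => x.1 • y) '' D x.1 x.2) := by
        rw [hm.sum]
        rintro ⟨g, j⟩ _ ⟨g', j'⟩ _ hne
        rw [Set.disjoint_left]
        rintro z ⟨x, ⟨hx, e1⟩, rfl⟩ ⟨x', ⟨hx', e2⟩, e⟩
        apply hne
        have e3 : f (⟨x, hx⟩, j) = f (⟨x', hx'⟩, j') := by
          rw [hκ2, hκ2, e1, e2]; exact e.symm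
        have e4 := hf e3
        rw [Prod.mk.injEq] at e4
        obtain ⟨e5, rfl⟩ := e4
        have e6 : x = x' := congrArg Subtype.val e5
        subst e6
        exact Prod.ext (e1.symm.trans e2) rfl
    _ ≤ m Set.univ := hm.mono (Set.subset_univ _)
    _ = 1 := hm.univ

/-- the big points have measure zero -/
theorem mean_big {S0 : Set G} (hfin : S0.Finite) {C : ℕ} {Big : Set X} (h : Isop S0 C Big)
    (hm : Mean G m) : m Big = 0 := by
  classical
  have key : ∀ k : ℕ, k * m Big ≤ 1 := by
    intro k
    set n := k * C + k with hn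
    have hKfin := gens_pow_finite hfin n
    set K : Finset G := hKfin.toFinset with hK
    let t : Big × Fin k → Finset X := fun x => K.image (fun g => g • (x.1 : X))
    have ht : ∀ x : Big × Fin k, ∀ z, z ∈ t x ↔ z ∈ Bl S0 n (x.1 : X) := by
      intro x z
      rw [Finset.mem_image]
      constructor
      · rintro ⟨g, hg, rfl⟩
        exact ⟨g, by simpa [hK] using hg, rfl⟩
      · rintro ⟨g, hg, rfl⟩
        exact ⟨g, by simpa [hK] using hg, rfl⟩
    have hall : ∀ s : Finset (Big × Fin k), s.card ≤ (s.biUnion t).card := by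
      intro s
      let A : Finset Big := s.image Prod.fst
      let F : Set X := {x | ∃ h : x ∈ Big, (⟨x, h⟩ : Big) ∈ A}
      have hF : F = (A.image Subtype.val : Finset X) := by
        ext x
        simp [F]
      have hFfin : F.Finite := by rw [hF]; exact Finset.finite_toSet _
      have hFc : F.ncard = A.card := by
        rw [hF, Set.ncard_coe_finset, Finset.card_image_of_injective _ Subtype.val_injective]
      have h1 : s.card ≤ k * A.card := by
        have hsub : s ⊆ A ×ˢ (Finset.univ : Finset (Fin k)) := by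
          intro x hx
          rw [Finset.mem_product]
          exact ⟨Finset.mem_image_of_mem _ hx, Finset.mem_univ _⟩
        have := Finset.card_le_card hsub
        rw [Finset.card_product, Finset.card_univ, Fintype.card_fin] at this
        rwa [mul_comm]
      have h2 : (Nbh S0 n F).ncard ≤ (s.biUnion t).card := by
        rw [← Set.ncard_coe_finset]
        refine Set.ncard_le_ncard ?_ (Finset.finite_toSet _)
        rintro z ⟨x, ⟨hxB, hx⟩, hz⟩
        obtain ⟨p, hp, hpx⟩ := Finset.mem_image.1 hx
        rw [Finset.mem_coe, Finset.mem_biUnion]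
        refine ⟨p, hp, (ht p z).2 ?_⟩
        rw [hpx]
        exact hz
      have h3 := grow_linear hfin h hFfin (fun x hx => hx.1) n
      -- `n = k (C + 1)`
      have h4 : k * F.ncard ≤ (Nbh S0 n F).ncard := by
        have h5 : (C + 1) * (k * F.ncard) ≤ (C + 1) * (Nbh S0 n F).ncard := by
          calc (C + 1) * (k * F.ncard) = n * F.ncard := by rw [hn]; ring
            _ ≤ C * (Nbh S0 n F).ncard := h3
            _ ≤ (C + 1) * (Nbh S0 n F).ncard := Nat.mul_le_mul_right _ (Nat.le_succ C)
        exact Nat.le_of_mul_le_mul_left h5 (Nat.succ_pos C)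
      rw [← hFc] at h1
      exact h1.trans (h4.trans h2)
    obtain ⟨f0, hf0, hf0t⟩ := (Finset.all_card_le_biUnion_card_iff_exists_injective t).1 hall
    refine mean_copies hm Big K k f0 hf0 fun x => ?_
    obtain ⟨g, hg, e⟩ := Finset.mem_image.1 (hf0t x)
    exact ⟨g, hg, e.symm⟩
  have h0 := hm.nonneg Big
  by_contra hne
  have hpos : 0 < m Big := lt_of_le_of_ne h0 (Ne.symm hne)
  obtain ⟨k, hk⟩ := exists_nat_gt (1 / m Big)
  have h1 := key k
  rw [div_lt_iff₀ hpos] at hk
  linarith

end

end Run7.h266
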