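import Pool.Agent.Run7.h266.VNormal
import Pool.Agent.H71R2.Thin.Common
import Pool.Agent.H71R2.Thin.Faithful
import Pool.Agent.N6.W.App

/-!
# One-dimensional actions of finitely presented groups
-/

set_option autoImplicit false

namespace Run7.h266

open scoped Pointwise Topology

universe w

/-- steps of one colour -/
def EStep {Γ : Type w} [Group Γ] {X : Type} [MulAction Γ X] (E : Set Γ) (A : Set X) (x y : X) :
    Prop := (x ∈ A ↔ y ∈ A) ∧ ∃ γ ∈ E, y = γ • x

/-- two colours with small clusters -/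
def TwoCol {Γ : Type w} [Group Γ] (X : Type) [MulAction Γ X] (E : Set Γ) (t : ℕ) : Prop :=
  ∃ A : Set X, ∀ x, {y | Relation.ReflTransGen (EStep E A) x y}.encard ≤ t

/-- the inequality -/
theorem twocol_isop {G : Type} [Group G] [Group.IsFinitelyPresented G] {S0 : Set G}
    (hS : Subgroup.closure S0 = ⊤) (hfin : S0.Finite) {H : Subgroup G} (hH : H.FG)
    (hU : Unseen H) :
    ∃ D : ℕ, ∀ t : ℕ, ∃ C : ℕ, ∀ (Ω : Type) [MulAction G Ω],
      TwoCol Ω ((S0 ∪ S0⁻¹ ∪ {1}) ^ D) t →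
        Isop S0 C {x : Ω | (C : ℕ∞) < (MulAction.orbit H x).encard} := by
  obtain ⟨D, hD⟩ := isop_color hS hfin hH hU
  refine ⟨D, fun t => ?_⟩
  obtain ⟨C, hC⟩ := hD t
  refine ⟨C, fun Ω _ hA Y hY => ?_⟩
  obtain ⟨A, hA⟩ := hA
  refine hC Ω A (fun x => le_trans (Set.encard_le_encard ?_) (hA x)) Y hY
  intro y hy
  have hy' : Relation.ReflTransGen (CStep S0 D Set.univ A) x y := hy
  refine Relation.ReflTransGen.mono ?_ x y hy'
  rintro a b ⟨-, -, hab, g, hg, hgb⟩
  exact ⟨hab, g, hg, hgb.symm⟩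

/-- exponential growth from the powers -/
theorem exp_of_pow {C d : ℕ} (hd : 1 ≤ d) (hC : 1 ≤ C) {b : ℕ → ℕ} (hmono : Monotone b)
    (h : ∀ j, (C + 1) ^ j ≤ C ^ j * b (d * j)) (n : ℕ) :
    Real.exp (Real.log (1 + 1 / (C : ℝ)) / d * n) ≤ 2 * b n := by
  have hCR : (1 : ℝ) ≤ C := by exact_mod_cast hC
  have hdR : (1 : ℝ) ≤ d := by exact_mod_cast hd
  set q : ℝ := 1 + 1 / (C : ℝ) with hq
  have hq1 : 1 ≤ q := by
    have : 0 ≤ 1 / (C : ℝ) := by positivity
    linarith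
  have hq2 : q ≤ 2 := by
    have : 1 / (C : ℝ) ≤ 1 := by rw [div_le_one (by linarith)]; exact hCR
    linarith
  have hqpos : 0 < q := by linarith
  have h1 : ∀ j : ℕ, q ^ j ≤ b (d * j) := by
    intro j
    have h2 : ((C : ℝ) + 1) ^ j ≤ (C : ℝ) ^ j * b (d * j) := by exact_mod_cast h j
    have h3 : q * C = C + 1 := by
      rw [hq]
      field_simp
    have h4 : (C : ℝ) ^ j * q ^ j ≤ (C : ℝ) ^ j * b (d * j) := by
      calc (C : ℝ) ^ j * q ^ j = (q * C) ^ j := by rw [mul_pow]; ring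
        _ = ((C : ℝ) + 1) ^ j := by rw [h3]
        _ ≤ _ := h2
    exact le_of_mul_le_mul_left h4 (by positivity)
  have h5 := h1 (n / d)
  have h6 : b (d * (n / d)) ≤ b n := hmono (Nat.mul_div_le _ _)
  have h7 : (b (d * (n / d)) : ℝ) ≤ b n := by exact_mod_cast h6
  have h8 : Real.exp (Real.log q / d * n) ≤ q ^ (n / d + 1) := by
    rw [← Real.exp_log hqpos, ← Real.exp_nat_mul, Real.log_exp]
    refine Real.exp_le_exp.2 ?_
    have h9 : (n : ℝ) ≤ d * ((n / d + 1 : ℕ) : ℝ) := by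
      have := Nat.lt_mul_div_succ n (show 0 < d by omega)
      exact_mod_cast this.le
    have h10 : 0 ≤ Real.log q := Real.log_nonneg hq1
    calc Real.log q / d * n ≤ Real.log q / d * (d * ((n / d + 1 : ℕ) : ℝ)) := by
          apply mul_le_mul_of_nonneg_left h9
          positivity
      _ = ((n / d + 1 : ℕ) : ℝ) * Real.log q := by
          field_simp
  calc Real.exp (Real.log q / d * n) ≤ q ^ (n / d + 1) := h8
    _ = q ^ (n / d) * q := pow_succ _ _
    _ ≤ b n * 2 := by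
        apply mul_le_mul (h5.trans h7) hq2 hqpos.le
        positivity
    _ = 2 * b n := by ring

/-- the alternative for subgroups with a normalizer of finite index -/
theorem twocol_vn {G : Type} [Group G] [Group.IsFinitelyPresented G] {S0 : Set G}
    (hS : Subgroup.closure S0 = ⊤) (hfin : S0.Finite) {H : Subgroup G} (hH : H.FG)
    (hU : Unseen H) (hN : (Subgroup.normalizer (H : Set G)).FiniteIndex) :
    ∃ D : ℕ, ∀ t : ℕ, ∃ C : ℕ, ∃ c : ℝ, 0 < c ∧ ∀ (Ω : Type) [MulAction G Ω],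
      TwoCol Ω ((S0 ∪ S0⁻¹ ∪ {1}) ^ D) t →
        Isop S0 C {x : Ω | (C : ℕ∞) < (MulAction.orbit H x).encard} ∧
        ∀ x : Ω, (MulAction.orbit H x).encard ≤ C ∨
          ((∀ n : ℕ, Real.exp (c * n) ≤ 2 * (Bl S0 n x).ncard) ∧
            ∀ m : Set Ω → ℝ, Mean G m → m (MulAction.orbit G x) = 0) := by
  obtain ⟨D, hD⟩ := twocol_isop hS hfin hH hU
  obtain ⟨d, hd, hcos⟩ := short_cosets hS (Subgroup.normalizer (H : Set G)) hN
  refine ⟨D, fun t => ?_⟩
  obtain ⟨C, hC⟩ := hD t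
  set C2 : ℕ := C * ((S0 ∪ S0⁻¹ ∪ {1}) ^ d : Set G).ncard with hC2
  refine ⟨C, Real.log (1 + 1 / ((C2 + 1 : ℕ) : ℝ)) / d, ?_, fun Ω _ hA =>
    ⟨hC Ω hA, fun x => ?_⟩⟩
  · have h1 : 0 < Real.log (1 + 1 / ((C2 + 1 : ℕ) : ℝ)) := by
      apply Real.log_pos
      have : 0 < 1 / ((C2 + 1 : ℕ) : ℝ) := by positivity
      linarith
    have h2 : (0 : ℝ) < d := by exact_mod_cast hd
    positivity
  have hI := hC Ω hA
  have hB : ∀ k ∈ Subgroup.normalizer (H : Set G),
      ∀ y ∈ {x : Ω | (C : ℕ∞) < (MulAction.orbit H x).encard},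
      k • y ∈ {x : Ω | (C : ℕ∞) < (MulAction.orbit H x).encard} := by
    intro k hk y hy
    have h1 := orbit_smul_le (Ω := Ω) (Subgroup.inv_mem _ hk) (k • y)
    rw [inv_smul_smul] at h1
    exact lt_of_lt_of_le hy h1
  by_cases hx : (MulAction.orbit H x).encard ≤ C
  · exact Or.inl hx
  right
  rw [not_le] at hx
  constructor
  · have h1 := vn_growth hfin hd hcos hI hB (x := x) hx
    refine exp_of_pow hd (by omega) (b := fun n => (Bl S0 n x).ncard) ?_ ?_
    · intro a b hab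
      exact Set.ncard_le_ncard (bl_mono hab) (bl_finite hfin _ _)
    · intro j
      have h2 := h1 j
      rw [← hC2] at h2
      rcases Nat.eq_zero_or_pos C2 with h3 | h3
      · rcases Nat.eq_zero_or_pos j with h4 | h4
        · subst h4
          simpa using h2
        · rw [h3, zero_pow (by omega), Nat.zero_mul] at h2
          simp at h2
      · have h4 : C2 ^ j * (C2 + 1 + 1) ^ j ≤ C2 ^ j * ((C2 + 1) ^ j * (Bl S0 (d * j) x).ncard) := by
          calc C2 ^ j * (C2 + 1 + 1) ^ j = (C2 * (C2 + 1 + 1)) ^ j := (mul_pow _ _ _).symm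
            _ ≤ ((C2 + 1) * (C2 + 1)) ^ j := Nat.pow_le_pow_left (by nlinarith) j
            _ = (C2 + 1) ^ j * (C2 + 1) ^ j := mul_pow _ _ _
            _ ≤ (C2 + 1) ^ j * (C2 ^ j * (Bl S0 (d * j) x).ncard) := Nat.mul_le_mul_left _ h2
            _ = C2 ^ j * ((C2 + 1) ^ j * (Bl S0 (d * j) x).ncard) := by ring
        exact Nat.le_of_mul_le_mul_left h4 (pow_pos h3 j)
  · intro m hm
    have h1 := vn_mean hfin hcos hI hB hm
    refine le_antisymm ?_ (hm.nonneg _)
    rw [← h1]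
    refine hm.mono ?_
    rintro _ ⟨g, rfl⟩
    exact ⟨g⁻¹, by
      show (C : ℕ∞) < (MulAction.orbit H (g⁻¹ • g • x)).encard
      rw [inv_smul_smul]
      exact hx⟩

/-- subexponential growth of the orbits -/
def SubExp {G : Type} [Group G] (S0 : Set G) (Ω : Type) [MulAction G Ω] : Prop :=
  ∀ (x : Ω) (c : ℝ), 0 < c → ∀ n₀ : ℕ, ∃ n : ℕ, n₀ ≤ n ∧ ((Bl S0 n x).ncard : ℝ) ≤ Real.exp (c * n)

theorem bounded_of {G : Type} [Group G] {S0 : Set G} {Ω : Type} [MulAction G Ω]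
    {c : ℝ} (hc : 0 < c) (hsm : SubExp S0 Ω ∨ ∃ μ : Set G → ℝ, Mean G μ) {x : Ω}
    (h : (∀ n : ℕ, Real.exp (c * n) ≤ 2 * (Bl S0 n x).ncard) ∧
      ∀ m : Set Ω → ℝ, Mean G m → m (MulAction.orbit G x) = 0) : False := by
  rcases hsm with hs | ⟨μ, hμ⟩
  · obtain ⟨n0, hn0⟩ := exists_nat_gt (2 / c)
    obtain ⟨n, hn, h1⟩ := hs x (c / 2) (by positivity) n0
    have h2 := h.1 n
    have h3 : Real.exp (c * n) ≤ 2 * Real.exp (c / 2 * n) := by linarith
    have h4 : Real.exp (c * n) = Real.exp (c / 2 * n) * Real.exp (c / 2 * n) := by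
      rw [← Real.exp_add]
      congr 1
      ring
    rw [h4] at h3
    have h5 : Real.exp (c / 2 * n) ≤ 2 := le_of_mul_le_mul_right h3 (Real.exp_pos _)
    have h6 : (1 : ℝ) < c / 2 * n := by
      have h7 : (n0 : ℝ) ≤ n := by exact_mod_cast hn
      rw [div_lt_iff₀ hc] at hn0
      nlinarith
    have h7 := Real.add_one_le_exp (c / 2 * n)
    linarith
  · have h1 := h.2 _ (mean_orbit hμ x)
    have h2 : {g : G | g • x ∈ MulAction.orbit G x} = Set.univ :=
      Set.eq_univ_of_forall fun g => ⟨g, rfl⟩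
    simp only [h2, hμ.univ] at h1
    exact one_ne_zero h1

/-- finite images from bounded orbits -/
theorem image_finite {G : Type} [Group G] {X : Type} (f : G →* Equiv.Perm X) {L : Subgroup G}
    (hL : L.FG) (N : ℕ) (hN : ∀ x, {y | ∃ g ∈ L, y = f g x}.encard ≤ N) :
    (f '' (L : Set G)).Finite := by
  classical
  have hfg : Group.FG (L.map f) := (Group.fg_iff_subgroup_fg _).2 (by
    obtain ⟨T, hT⟩ := hL
    refine ⟨T.image f, ?_⟩
    rw [Finset.coe_image, ← MonoidHom.map_closure, hT])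
  have hfin : Finite (L.map f) := by
    refine Pool.Agent.H71R2.Thin.finite_of_orbits (X := X) N fun x => ?_
    have h5 : MulAction.orbit (L.map f) x ⊆ {y | ∃ g ∈ L, y = f g x} := by
      rintro _ ⟨⟨_, g, hg, rfl⟩, rfl⟩
      exact ⟨g, hg, rfl⟩
    have h6 : (MulAction.orbit (L.map f) x).encard ≤ N :=
      (Set.encard_le_encard h5).trans (hN x)
    have h7 : (MulAction.orbit (L.map f) x).Finite :=
      Set.encard_lt_top_iff.1 (lt_of_le_of_lt h6 (ENat.natCast_lt_top N))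
    refine ⟨h7, ?_⟩
    rw [← h7.cast_ncard_eq] at h6
    exact_mod_cast h6
  have h6 : ((L.map f : Subgroup (Equiv.Perm X)) : Set (Equiv.Perm X)).Finite :=
    Set.toFinite _
  rwa [Subgroup.coe_map] at h6

/-- the two-colouring condition at all scales -/
def OneD (Γ : Type w) [Group Γ] (X : Type) [MulAction Γ X] : Prop :=
  ∀ E : Set Γ, E.Finite → ∃ t : ℕ, TwoCol X E t

/-- piecewise `Γ` -/
def PW (Γ : Type w) [Group Γ] {X : Type} [MulAction Γ X] (σ : Equiv.Perm X) : Prop :=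
  ∃ E : Set Γ, E.Finite ∧ ∀ x, ∃ γ ∈ E, σ x = γ • x

section Full

variable {G : Type} [Group G] {Γ : Type w} [Group Γ] {X : Type} [MulAction Γ X]

theorem pow_finite' {E : Set Γ} (hE : E.Finite) (n : ℕ) : (E ^ n).Finite := by
  induction n with
  | zero => rw [pow_zero]; exact Set.finite_one
  | succ n ih => rw [pow_succ]; exact ih.mul hE

/-- displacement -/
theorem pw_ball {S0 : Set G} (hfin : S0.Finite) (f : G →* Equiv.Perm X)
    (hf : ∀ g, PW Γ (f g)) :
    ∃ E : Set Γ, E.Finite ∧ ∀ (n : ℕ) (g : G), g ∈ ((S0 ∪ S0⁻¹ ∪ {1}) ^ n : Set G) →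
      ∀ x, ∃ γ ∈ E ^ n, f g x = γ • x := by
  choose E hEf hE using hf
  have hSf : (S0 ∪ S0⁻¹ ∪ {1} : Set G).Finite :=
    (hfin.union hfin.inv).union (Set.finite_singleton 1)
  refine ⟨⋃ s ∈ (S0 ∪ S0⁻¹ ∪ {1} : Set G), E s, hSf.biUnion fun s _ => hEf s, fun n => ?_⟩
  induction n with
  | zero =>
    intro g hg x
    rw [pow_zero] at hg
    rw [Set.mem_one.1 hg, map_one]
    exact ⟨1, by rw [pow_zero]; exact Set.mem_one.2 rfl, by simp⟩
  | succ n ih =>
    intro g hg x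
    rw [pow_succ'] at hg
    obtain ⟨s, hs, g', hg', rfl⟩ := Set.mem_mul.1 hg
    obtain ⟨γ, hγ, e⟩ := ih g' hg' x
    obtain ⟨γ', hγ', e'⟩ := hE s (γ • x)
    refine ⟨γ' * γ, ?_, ?_⟩
    · rw [pow_succ']
      exact Set.mul_mem_mul (Set.mem_biUnion hs hγ') hγ
    · rw [map_mul, Equiv.Perm.mul_apply, e, e', mul_smul]

theorem twocol_full {S0 : Set G} (hfin : S0.Finite) (f : G →* Equiv.Perm X)
    (hf : ∀ g, PW Γ (f g)) (hX : OneD Γ X) (D : ℕ) :
    let _ : MulAction G X := MulAction.compHom X f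
    ∃ t : ℕ, TwoCol (Γ := G) X ((S0 ∪ S0⁻¹ ∪ {1}) ^ D) t := by
  let _ : MulAction G X := MulAction.compHom X f
  obtain ⟨E, hE, hE2⟩ := pw_ball hfin f hf
  obtain ⟨t, A, hA⟩ := hX (E ^ D) (pow_finite' hE D)
  refine ⟨t, A, fun x => le_trans (Set.encard_le_encard ?_) (hA x)⟩
  intro y hy
  refine Relation.ReflTransGen.mono ?_ x y (show Relation.ReflTransGen
    (EStep ((S0 ∪ S0⁻¹ ∪ {1}) ^ D) A) x y from hy)
  rintro a b ⟨hab, g, hg, rfl⟩
  refine ⟨hab, ?_⟩
  obtain ⟨γ, hγ, e⟩ := hE2 D g hg a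
  exact ⟨γ, hγ, e⟩

/-- a `Γ`-invariant mean is invariant under the full group -/
theorem mean_full {m : Set X → ℝ}
    (h2 : ∀ A B : Set X, Disjoint A B → m (A ∪ B) = m A + m B)
    (h3 : ∀ (γ : Γ) (A : Set X), m ((fun x => γ • x) ⁻¹' A) = m A)
    {σ : Equiv.Perm X} (hσ : PW Γ σ) (A : Set X) : m (σ ⁻¹' A) = m A := by
  classical
  obtain ⟨E, hE, hσE⟩ := hσ
  choose κ hκ hκ2 using hσE
  have hempty : m ∅ = 0 := by
    have := h2 ∅ ∅ (by simp)
    simp at this
    linarith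
  have hsum : ∀ (s : Finset Γ) (B : Γ → Set X),
      (∀ i ∈ s, ∀ j ∈ s, i ≠ j → Disjoint (B i) (B j)) →
      m (⋃ i ∈ s, B i) = ∑ i ∈ s, m (B i) := by
    intro s B
    induction s using Finset.induction_on with
    | empty => intro _; simp [hempty]
    | insert a s ha ih =>
      intro hB
      rw [Finset.set_biUnion_insert, Finset.sum_insert ha, h2, ih]
      · intro i hi j hj hij
        exact hB i (Finset.mem_insert_of_mem hi) j (Finset.mem_insert_of_mem hj) hij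
      · rw [Set.disjoint_iUnion₂_right]
        intro i hi
        apply hB a (Finset.mem_insert_self a s) i (Finset.mem_insert_of_mem hi)
        rintro rfl
        exact ha hi
  have e1 : σ ⁻¹' A = ⋃ γ ∈ hE.toFinset, {x | κ x = γ ∧ σ x ∈ A} := by
    ext x
    simp only [Set.mem_preimage, Set.mem_iUnion₂, Set.Finite.mem_toFinset, Set.mem_ofPred_eq]
    constructor
    · intro hx
      exact ⟨κ x, hκ x, rfl, hx⟩
    · rintro ⟨γ, -, -, hx⟩
      exact hx
  have e2 : A = ⋃ γ ∈ hE.toFinset, {y | κ (σ.symm y) = γ ∧ y ∈ A} := by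
    ext y
    simp only [Set.mem_iUnion₂, Set.Finite.mem_toFinset, Set.mem_ofPred_eq]
    constructor
    · intro hy
      exact ⟨κ (σ.symm y), hκ _, rfl, hy⟩
    · rintro ⟨γ, -, -, hy⟩
      exact hy
  rw [e1, hsum]
  · conv_rhs => rw [e2]
    rw [hsum]
    · refine Finset.sum_congr rfl fun γ _ => ?_
      rw [← h3 γ {y | κ (σ.symm y) = γ ∧ y ∈ A}]
      congr 1
      ext x
      simp only [Set.mem_preimage, Set.mem_ofPred_eq]
      constructor
      · rintro ⟨hx, hxA⟩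
        have e : γ • x = σ x := by rw [hκ2, hx]
        rw [e, Equiv.symm_apply_apply]
        exact ⟨hx, hxA⟩
      · rintro ⟨hx, hxA⟩
        -- `σ (σ⁻¹ (γ x)) = γ x` and `κ = γ` there
        have e := hκ2 (σ.symm (γ • x))
        rw [hx, Equiv.apply_symm_apply] at e
        have e3 : x = σ.symm (γ • x) := MulAction.injective γ e
        rw [← e3] at hx
        refine ⟨hx, ?_⟩
        rw [hκ2, hx]
        exact hxA
    · intro i _ j _ hij
      rw [Set.disjoint_left]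
      rintro y ⟨h, -⟩ ⟨h', -⟩
      exact hij (h.symm.trans h')
  · intro i _ j _ hij
    rw [Set.disjoint_left]
    rintro y ⟨h, -⟩ ⟨h', -⟩
    exact hij (h.symm.trans h')

end Full

end Run7.h266
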