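import Pool.Agent.Run7.h266.Main

/-!
# Actions of bounded displacement over trees
-/

set_option autoImplicit false

namespace Run7.h266

open TW

/-- the vertices at distance at most `r` from `v` -/
def tball {V : Type} (T : SimpleGraph V) (v : V) (r : ℕ) : Set V :=
  {u | ∃ w : T.Walk u v, w.length ≤ r}

theorem tball_encard {V : Type} (T : SimpleGraph V) (d : ℕ)
    (hd : ∀ v, (T.neighborSet v).encard ≤ d) (r : ℕ) (v : V) :
    (tball T v r).encard ≤ ((d + 1) ^ r : ℕ) := by
  induction r generalizing v with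
  | zero =>
    have : tball T v 0 ⊆ {v} := by
      rintro u ⟨w, hw⟩
      exact SimpleGraph.Walk.eq_of_length_eq_zero (by omega : w.length = 0)
    refine (Set.encard_le_encard this).trans ?_
    rw [Set.encard_singleton, pow_zero]
    rfl
  | succ r ih =>
    classical
    -- the last step
    have hfin : (insert v (T.neighborSet v)).Finite :=
      (Set.finite_of_encard_le_coe (hd v)).insert v
    have h1 : tball T v (r + 1) ⊆ ⋃ u ∈ hfin.toFinset, tball T u r := by
      rintro u ⟨w, hw⟩
      simp only [Set.mem_iUnion]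
      obtain ⟨w', hw'⟩ : ∃ w' : T.Walk v u, w'.length ≤ r + 1 :=
        ⟨w.reverse, by rwa [SimpleGraph.Walk.length_reverse]⟩
      cases w' with
      | nil => exact ⟨v, by simp, SimpleGraph.Walk.nil, Nat.zero_le _⟩
      | @cons _ x _ hadj w'' =>
        refine ⟨x, ?_, w''.reverse, ?_⟩
        · rw [hfin.mem_toFinset]
          exact Or.inr hadj
        · rw [SimpleGraph.Walk.length_cons] at hw'
          rw [SimpleGraph.Walk.length_reverse]
          omega
    refine (Set.encard_le_encard h1).trans ?_
    have h2 : ∀ F : Finset V, (⋃ u ∈ F, tball T u r).encard ≤ (F.card * (d + 1) ^ r : ℕ) := by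
      intro F
      induction F using Finset.induction_on with
      | empty => simp
      | insert a F ha ihF =>
        have h3 : (⋃ u ∈ insert a F, tball T u r) = tball T a r ∪ ⋃ u ∈ F, tball T u r := by
          ext x
          simp
        rw [h3, Finset.card_insert_of_notMem ha]
        refine (Set.encard_union_le _ _).trans ((add_le_add (ih a) ihF).trans ?_)
        exact_mod_cast (by ring_nf; exact le_rfl :
          (d + 1) ^ r + F.card * (d + 1) ^ r ≤ (F.card + 1) * (d + 1) ^ r)
    refine (h2 _).trans ?_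
    have h3 : hfin.toFinset.card ≤ d + 1 := by
      have h4 : (insert v (T.neighborSet v)).encard ≤ d + 1 :=
        (Set.encard_insert_le _ _).trans (add_le_add (hd v) le_rfl)
      have h5 : (hfin.toFinset.card : ℕ∞) ≤ d + 1 := by
        rw [← Set.encard_coe_eq_coe_finsetCard, hfin.coe_toFinset]
        exact h4
      exact_mod_cast h5
    have h4 : hfin.toFinset.card * (d + 1) ^ r ≤ (d + 1) ^ (r + 1) := by
      rw [pow_succ, mul_comm ((d + 1) ^ r)]
      exact Nat.mul_le_mul_right _ h3
    exact_mod_cast h4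

theorem over_tree {G : Type} [Group G] (S0 : Set G) {Ω : Type} [MulAction G Ω] {V : Type}
    {T : SimpleGraph V} (hT : T.IsAcyclic) {h : Ω → V} {d c r : ℕ}
    (hd : ∀ v, (T.neighborSet v).encard ≤ d) (hc : ∀ v, (h ⁻¹' {v}).encard ≤ c)
    (hs : ∀ s ∈ S0, ∀ x : Ω, ∃ w : T.Walk (h x) (h (s • x)), w.length ≤ r) :
    ∃ β : V → Set Ω, TD T β ∧ (∀ i, (β i).encard ≤ (c * (d + 1) ^ r : ℕ)) ∧
      ∀ s ∈ S0, ∀ x, ∃ i, x ∈ β i ∧ s • x ∈ β i := by
  classical
  have hself : ∀ x, h x ∈ tball T (h x) r := fun x => ⟨SimpleGraph.Walk.nil, Nat.zero_le _⟩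
  refine ⟨fun v => h ⁻¹' tball T v r, ⟨hT, fun x => ⟨h x, hself x⟩, ?_⟩, ?_, ?_⟩
  · intro x
    -- the nodes near `h x`
    have key : ∀ (v : V) (w : T.Walk (h x) v), w.length ≤ r →
        ∀ hv : v ∈ {i | x ∈ h ⁻¹' tball T i r}, (T.induce {i | x ∈ h ⁻¹' tball T i r}).Reachable
          ⟨h x, hself x⟩ ⟨v, hv⟩ := by
      intro v w
      induction hl : w.length generalizing v with
      | zero =>
        intro _ hv
        have := SimpleGraph.Walk.eq_of_length_eq_zero hl
        subst this
        exact SimpleGraph.Reachable.refl _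
      | succ l ih =>
        intro hle hv
        obtain ⟨u, hadj, w', hw'⟩ : ∃ u, T.Adj u v ∧ ∃ w' : T.Walk (h x) u, w'.length = l := by
          obtain ⟨w1, hw1⟩ : ∃ w1 : T.Walk v (h x), w1.length = l + 1 :=
            ⟨w.reverse, by rw [SimpleGraph.Walk.length_reverse, hl]⟩
          cases w1 with
          | nil => simp at hw1
          | @cons _ u _ hadj w2 =>
            rw [SimpleGraph.Walk.length_cons] at hw1
            exact ⟨u, hadj.symm, w2.reverse, by
              rw [SimpleGraph.Walk.length_reverse]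
              omega⟩
        have hu : u ∈ {i | x ∈ h ⁻¹' tball T i r} := ⟨w', by omega⟩
        refine (ih u w' hw' (by omega) hu).trans ?_
        exact SimpleGraph.Adj.reachable (by exact hadj)
    rintro ⟨i, hi⟩ ⟨j, hj⟩
    obtain ⟨wi, hwi⟩ := hi
    obtain ⟨wj, hwj⟩ := hj
    exact ((key i wi hwi _).symm).trans (key j wj hwj _)
  · intro v
    have hfin : (tball T v r).Finite := Set.finite_of_encard_le_coe (tball_encard T d hd r v)
    have h1 : h ⁻¹' tball T v r ⊆ ⋃ u ∈ hfin.toFinset, h ⁻¹' {u} := by
      intro x hx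
      simp only [Set.mem_iUnion]
      exact ⟨h x, hfin.mem_toFinset.2 hx, rfl⟩
    refine (Set.encard_le_encard h1).trans ?_
    have h2 : ∀ F : Finset V, (⋃ u ∈ F, h ⁻¹' {u}).encard ≤ (c * F.card : ℕ) := by
      intro F
      induction F using Finset.induction_on with
      | empty => simp
      | insert a F ha ihF =>
        have h3 : (⋃ u ∈ insert a F, h ⁻¹' {u}) = h ⁻¹' {a} ∪ ⋃ u ∈ F, h ⁻¹' {u} := by
          ext x
          simp
        rw [h3, Finset.card_insert_of_notMem ha]
        refine (Set.encard_union_le _ _).trans ((add_le_add (hc a) ihF).trans ?_)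
        exact_mod_cast (by ring_nf; exact le_rfl : c + c * F.card ≤ c * (F.card + 1))
    refine (h2 _).trans ?_
    have h3 : hfin.toFinset.card ≤ (d + 1) ^ r := by
      have h4 := tball_encard T d hd r v
      have h5 : (hfin.toFinset.card : ℕ∞) ≤ ((d + 1) ^ r : ℕ) := by
        rw [← Set.encard_coe_eq_coe_finsetCard, hfin.coe_toFinset]
        exact h4
      exact_mod_cast h5
    exact_mod_cast Nat.mul_le_mul_left c h3
  · intro s hs' x
    obtain ⟨w, hw⟩ := hs s hs' x
    exact ⟨h x, hself x, w.reverse, by rwa [SimpleGraph.Walk.length_reverse]⟩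

end Run7.h266
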