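import Pool.Agent.Run7.h266.Isop
import Pool.Agent.H71R2.Thin.Core

/-!
# Presentations whose letters are the elements of a finite generating set
-/

set_option autoImplicit false

namespace Run7.h266

open scoped Pointwise

variable {G : Type} [Group G]

/-- the product of the letters of a word -/
def pr {E : Set G} (w : List E) : G := (w.map Subtype.val).prod

theorem pr_append {E : Set G} (u v : List E) : pr (u ++ v) = pr u * pr v := by
  simp [pr]

theorem pr_nil {E : Set G} : pr ([] : List E) = 1 := by simp [pr]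

theorem pr_cons {E : Set G} (a : E) (v : List E) : pr (a :: v) = a * pr v := by
  simp [pr]

theorem pr_surj {E : Set G} (hinv : ∀ x ∈ E, x⁻¹ ∈ E) (hgen : Subgroup.closure E = ⊤) (g : G) :
    ∃ w : List E, pr w = g := by
  have hg : g ∈ Subgroup.closure E := by rw [hgen]; trivial
  induction hg using Subgroup.closure_induction with
  | mem x hx => exact ⟨[⟨x, hx⟩], by simp [pr]⟩
  | one => exact ⟨[], by simp [pr]⟩
  | mul x y _ _ hx hy =>
    obtain ⟨u, rfl⟩ := hx
    obtain ⟨v, rfl⟩ := hy
    exact ⟨u ++ v, pr_append u v⟩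
  | inv x hm hx =>
    obtain ⟨u, rfl⟩ := hx
    clear hm
    refine ⟨(u.map fun a : E => (⟨(a : G)⁻¹, hinv _ a.2⟩ : E)).reverse, ?_⟩
    induction u with
    | nil => simp [pr]
    | cons a u ih =>
      rw [List.map_cons, List.reverse_cons, pr_append, ih, pr_cons a u]
      simp [pr]

/-- the action of letters -/
def actE (E : Set G) (X : Type) [MulAction G X] (a : E) (x : X) : X := (a : G) • x

theorem run_actE {E : Set G} {X : Type} [MulAction G X] (w : List E) (x : X) :
    run (actE E X) w x = pr w • x := by
  induction w with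
  | nil => rw [run_nil, pr_nil, one_smul]
  | cons a w ih =>
    rw [run_cons, ih, actE, smul_smul, pr_cons]

open Classical in
/-- presentations with letters in a finite symmetric generating set -/
theorem exists_pres [Group.IsFinitelyPresented G] {E : Set G} (hE : E.Finite)
    (hinv : ∀ x ∈ E, x⁻¹ ∈ E) (hgen : Subgroup.closure E = ⊤) :
    ∃ (S : Sys E) (P : Pres S G), (∀ w, P.val w = pr w) ∧ (∀ a : E, (S.inv a : G) = (a : G)⁻¹) ∧
      ∀ (X : Type) [MulAction G X], IsAct S (actE E X) := by
  obtain ⟨S1, hS1⟩ := Pool.Agent.H71R2.Thin.fp_extend.{0, 0} (G := G) hE.toFinset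
  choose wd0 hwd0 using pr_surj hinv hgen
  let wd : G → List E := fun x => if h : x ∈ E then [⟨x, h⟩] else wd0 x
  have hwd : ∀ x, pr (wd x) = x := by
    intro x
    by_cases h : x ∈ E
    · simp only [wd]
      rw [dif_pos h]
      simp [pr]
    · simp only [wd]
      rw [dif_neg h]
      exact hwd0 x
  have hwdE : ∀ a : E, wd (a : G) = [a] := fun a => by
    simp only [wd]
    rw [dif_pos a.2]
  let iv : E → E := fun a => ⟨(a : G)⁻¹, hinv _ a.2⟩
  have hiv : ∀ a, iv (iv a) = a := fun a => Subtype.ext (inv_inv _)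
  let wi : List E → List E := fun w => (w.map iv).reverse
  let ws : Finset (List E) := (S1 ×ˢ S1).image fun p => wd p.1 ++ wd p.2 ++ wi (wd (p.1 * p.2))
  have hprwi : ∀ w, pr (wi w) = (pr w)⁻¹ := by
    intro w
    induction w with
    | nil => simp [wi, pr]
    | cons a w ih =>
      simp only [wi, List.map_cons, List.reverse_cons] at ih ⊢
      rw [pr_append, ih, pr_cons a w, mul_inv_rev]
      congr 1
      simp [pr, iv]
  let S : Sys E :=
    { inv := iv
      R := {w | w ∈ ws ∨ ∃ a, w = [iv a, a]}
      ℓ := ws.sup (fun w => w.length) + 2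
      inv_inv := hiv
      invR := fun a => Or.inr ⟨a, rfl⟩
      len := by
        rintro w (hw | ⟨a, rfl⟩)
        · exact (Finset.le_sup (f := fun w : List E => w.length) hw).trans (Nat.le_add_right _ _)
        · simp
      two := Nat.le_add_left _ _ }
  have hRpr : ∀ w ∈ S.R, pr w = 1 := by
    rintro w (hw | ⟨a, rfl⟩)
    · obtain ⟨p, -, rfl⟩ := Finset.mem_image.1 hw
      rw [pr_append, pr_append, hprwi, hwd, hwd, hwd, mul_inv_cancel]
    · simp [pr, iv]
  have hwinv : ∀ w, S.winv w = wi w := fun w => rfl
  refine ⟨S,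
    { val := pr
      val_append := pr_append
      surj := fun g => pr_surj hinv hgen g
      lift := ?_ }, fun _ => rfl, fun _ => rfl, ?_⟩
  · intro X A hA
    let f : G → Equiv.Perm X := fun g =>
      { toFun := run A (wd g)
        invFun := run A (S.winv (wd g))
        left_inv := fun z => hA.winv_run _ z
        right_inv := fun z => hA.run_winv _ z }
    have hf : ∀ x ∈ S1, ∀ y ∈ S1, f (x * y) = f x * f y := by
      intro x hx y hy
      ext z
      have h1 : wd x ++ wd y ++ wi (wd (x * y)) ∈ S.R :=
        Or.inl (Finset.mem_image.2 ⟨(x, y), Finset.mem_product.2 ⟨hx, hy⟩, rfl⟩)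
      have h2 := hA _ h1 (run A (wd (x * y)) z)
      rw [run_append, run_append, ← hwinv, hA.winv_run] at h2
      exact h2.symm
    obtain ⟨Φ, hΦ⟩ := hS1 (Equiv.Perm X) f hf
    refine ⟨Φ, fun w z => ?_⟩
    induction w with
    | nil => rw [pr_nil, map_one]; rfl
    | cons a w ih =>
      rw [pr_cons, map_mul, Equiv.Perm.mul_apply, ih, hΦ _ (by simp)]
      show run A (wd (a : G)) (run A w z) = _
      rw [hwdE]
      rfl
  · intro X _ w hw x
    rw [run_actE, hRpr w hw, one_smul]

end Run7.h266
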