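import Pool.Agent.Run7.h266.Cyclic
import Pool.Agent.Run7.h266.Gordan

/-!
# Long paths in the unfolding are seen by homomorphisms to the integers
-/

set_option autoImplicit false

namespace Run7.h266

variable {L : Type} {S : Sys L} {X V : Type}

/-- The subgroup generated by the letters in `T` is seen by a homomorphism from a subgroup of finite
index to the integers. -/
def Seen {G : Type} [Group G] (P : Pres S G) (T : Set L) : Prop :=
  ∃ K : Subgroup G, K.FiniteIndex ∧ ∃ ψ : K →* Multiplicative ℤ, ∃ k : K,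
    (k : G) ∈ Subgroup.closure {g | ∃ a ∈ T, g = P.val [a]} ∧ ψ k ≠ 1

theorem Pres.val_nil {G : Type} [Group G] (P : Pres S G) : P.val [] = 1 := by
  have h := P.val_append [] []
  simpa using h

theorem Pres.val_mem {G : Type} [Group G] (P : Pres S G) {T : Set L} {w : List L}
    (hw : ∀ a ∈ w, a ∈ T) : P.val w ∈ Subgroup.closure {g | ∃ a ∈ T, g = P.val [a]} := by
  induction w with
  | nil =>
    rw [P.val_nil]
    exact one_mem _
  | cons a w ih =>
    rw [show a :: w = [a] ++ w from rfl, P.val_append]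
    exact mul_mem (Subgroup.subset_closure ⟨a, hw a (List.mem_cons_self ..), rfl⟩)
      (ih fun b hb => hw b (List.mem_cons_of_mem _ hb))

/-- the orbit with respect to the letters in `T` -/
def TO {Y : Type} (st : L → Y → Y) (T : Set L) (p : Y) : Set Y :=
  {q | ∃ w : List L, (∀ a ∈ w, a ∈ T) ∧ run st w p = q}

theorem TO_self {Y : Type} (st : L → Y → Y) (T : Set L) (p : Y) : p ∈ TO st T p :=
  ⟨[], by simp, rfl⟩

theorem TO_eq {Y : Type} {st : L → Y → Y} (hst : IsAct S st) {T : Set L}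
    (hT : ∀ a ∈ T, S.inv a ∈ T) {p q : Y} (h : q ∈ TO st T p) : TO st T p = TO st T q := by
  obtain ⟨w, hw, rfl⟩ := h
  have hw' : ∀ a ∈ S.winv w, a ∈ T := by
    intro a ha
    simp only [Sys.winv, List.mem_reverse, List.mem_map] at ha
    obtain ⟨b, hb, rfl⟩ := ha
    exact hT b (hw b hb)
  ext r
  constructor
  · rintro ⟨u, hu, rfl⟩
    refine ⟨u ++ S.winv w, ?_, ?_⟩
    · intro a ha
      rcases List.mem_append.1 ha with h | h
      · exact hu a h
      · exact hw' a h
    · rw [run_append, hst.winv_run]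
  · rintro ⟨u, hu, rfl⟩
    refine ⟨u ++ w, ?_, ?_⟩
    · intro a ha
      rcases List.mem_append.1 ha with h | h
      · exact hu a h
      · exact hw a h
    · rw [run_append]

/-- transport of connections -/
theorem TC.transport {Y Z : Type} {st : L → Y → Y} {st' : L → Z → Z} {T : Set L} {M : Set Y}
    (f : Y → Z) (hf : ∀ q a, q ∈ M → st a q ∈ M → st' a (f q) = f (st a q)) {p q : Y}
    (h : TC st T M p q) : f q ∈ TO st' T (f p) := by
  induction h with
  | refl _ => exact TO_self _ _ _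
  | @step q a h1 ha h2 ih =>
    obtain ⟨w, hw, hr⟩ := ih
    refine ⟨a :: w, ?_, ?_⟩
    · intro b hb
      rcases List.mem_cons.1 hb with rfl | hb
      · exact ha
      · exact hw b hb
    · rw [run_cons, hr, hf q a h1.right h2]

namespace Fib

variable (F : Fib S X V)

/-- the base point of the stacks does not change -/
theorem base_suffix {T : Set L} {M : Set (X × List V)} (hM : M ⊆ F.Vd) {v0 : V}
    {p0 q : X × List V} (h : TC F.us T M p0 q) (h0 : p0.2 = [v0]) : [v0] <:+ q.2 := by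
  induction h with
  | refl _ => rw [h0]
  | @step q a h1 ha h2 ih =>
    rcases F.us_cases (hM h1.right) a with ⟨h3, h4⟩ | ⟨v, l, h3, h4, h5, h6⟩ | ⟨h3, h4, h5⟩
    · rw [h4]
      exact ih
    · rw [h6]
      rw [h3] at ih
      rcases List.suffix_cons_iff.1 ih with h7 | h7
      · rw [List.cons.injEq] at h7
        rw [← h7.2] at h4
        exact absurd h4 (by simp)
      · exact h7
    · rw [h4]
      exact ih.trans (List.suffix_cons _ _)

/-- the label of a point over the top of a stack -/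
noncomputable def Lb : List V → X → Fin (F.n + 1)
  | v :: u :: _, x => F.lab u v x
  | _, _ => 0

/-- the type of a stack -/
noncomputable def St : List V → ET L (F.n + 1)
  | v :: u :: _ => F.ty u v
  | _ => (∅, ∅, true, fun _ _ _ => False)

/-- a label at one of two stacks -/
def RL (s s' : List V) : Fin (F.n + 1) ⊕ Fin (F.n + 1) → X × List V → Prop
  | Sum.inl c, p => p.2 = s ∧ F.Lb s p.1 = c
  | Sum.inr c, p => p.2 = s' ∧ F.Lb s' p.1 = c

/-- connections between labels -/
def EE (T : Set L) (N : ℕ) (s s' : List V) (α β : Fin (F.n + 1) ⊕ Fin (F.n + 1)) : Prop :=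
  ∃ p q, TC F.us T (F.Reg N s s') p q ∧ F.RL s s' α p ∧ F.RL s s' β q

end Fib

/-- colours of pairs of stacks -/
abbrev KK (L : Type) (n : ℕ) : Type :=
  ET L n × ET L n × (Fin n ⊕ Fin n → Fin n ⊕ Fin n → Prop)

namespace Fib

variable (F : Fib S X V)

open Classical in
/-- A path in the unfolding which leads to a deep stack is seen. -/
theorem pump [Finite L] {G : Type} [Group G] (P : Pres S G) {T : Set L}
    (hT : ∀ a ∈ T, S.inv a ∈ T) {m : ℕ}
    (hm : ∀ χ : ℕ → ℕ → KK L (F.n + 1),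
      ∃ i j k, i < j ∧ j < k ∧ k < m ∧ χ i j = χ i k ∧ χ j k = χ i k)
    {N : ℕ} {v0 : V} {p0 q0 : X × List V} (h : TC F.us T (F.Bd N) p0 q0) (h0 : p0.2 = [v0])
    (hq : m + 1 ≤ q0.2.length)
    (hsupp : ∀ l v, F.Red l → l.head? = some v → [v0] <:+ l → l.length ≤ N → F.Supp v) :
    Seen P T := by
  set Λ := q0.2 with hΛ
  have hΛred : F.Red Λ := h.right.1.2
  have hΛN : Λ.length ≤ N := h.right.2
  have hbase : [v0] <:+ Λ := F.base_suffix (fun p hp => hp.1) h h0
  let s : ℕ → List V := fun i => Λ.drop (Λ.length - (i + 2))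
  have hsΛ : ∀ i, s i <:+ Λ := fun i => List.drop_suffix _ _
  have hslen : ∀ i, i < m → (s i).length = i + 2 := by
    intro i hi
    simp only [s, List.length_drop]
    omega
  have hsuf : ∀ i j, i < j → j < m → s i <:+ s j := by
    intro i j hij hj
    rcases List.suffix_or_suffix_of_suffix (hsΛ i) (hsΛ j) with h1 | h1
    · exact h1
    · exfalso
      have h2 := h1.length_le
      rw [hslen i (by omega), hslen j hj] at h2
      omega
  have hsne : ∀ i j, i < j → j < m → s i ≠ s j := by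
    intro i j hij hj h1
    have h2 := congrArg List.length h1
    rw [hslen i (by omega), hslen j hj] at h2
    omega
  have hspat : ∀ i, i < m → ∃ v u r, s i = v :: u :: r := by
    intro i hi
    have h1 := hslen i hi
    match hh : s i with
    | [] => rw [hh] at h1; simp at h1
    | [v] => rw [hh] at h1; simp at h1
    | v :: u :: r => exact ⟨v, u, r, rfl⟩
  have hsred : ∀ i, i < m → F.Red (s i) := by
    intro i hi
    refine hΛred.suffix (hsΛ i) ?_
    obtain ⟨v, u, r, h1⟩ := hspat i hi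
    rw [h1]
    simp
  obtain ⟨i, j, k, hij, hjk, hkm, hχ1, hχ2⟩ := hm fun i j =>
    (F.St (s i), F.St (s j), F.EE T N (s i) (s j))
  have hE1 : F.EE T N (s i) (s j) = F.EE T N (s i) (s k) := congrArg (fun z => z.2.2) hχ1
  have hE2 : F.EE T N (s j) (s k) = F.EE T N (s i) (s k) := congrArg (fun z => z.2.2) hχ2
  have hSj : F.St (s j) = F.St (s i) := congrArg (fun z => z.1) hχ2
  have hSk : F.St (s k) = F.St (s i) := (congrArg (fun z => z.2.1) hχ1).symm.trans hSj
  clear hχ1 hχ2
  have hjm : j < m := by omega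
  have him : i < m := by omega
  obtain ⟨vi, ui, ri, hsi⟩ := hspat i him
  obtain ⟨vj, uj, rj, hsj⟩ := hspat j hjm
  obtain ⟨vk, uk, rk, hsk⟩ := hspat k hkm
  have hij' := hsuf i j hij hjm
  have hjk' := hsuf j k hjk hkm
  have hik' := hsuf i k (by omega) hkm
  have hnij := hsne i j hij hjm
  have hnjk := hsne j k hjk hkm
  have hnik := hsne i k (by omega) hkm
  have htyj : F.ty uj vj = F.ty ui vi := by
    rw [hsi, hsj] at hSj
    exact hSj
  have htyk : F.ty uk vk = F.ty ui vi := by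
    rw [hsi, hsk] at hSk
    exact hSk
  -- labels
  have hLi : ∀ x, F.Lb (s i) x = F.lab ui vi x := fun x => by rw [hsi]; rfl
  have hLj : ∀ x, F.Lb (s j) x = F.lab uj vj x := fun x => by rw [hsj]; rfl
  have hLk : ∀ x, F.Lb (s k) x = F.lab uk vk x := fun x => by rw [hsk]; rfl
  have htop : ∀ (l : List V) (v : V) (r : List V) (p : X × List V), l = v :: r → p ∈ F.Vd →
      p.2 = l → F.π p.1 = v := by
    rintro l v r p rfl hp h1
    have h2 := hp.1
    rw [h1] at h2
    exact (Option.some.inj h2).symm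
  -- a connection across the first part
  obtain ⟨p, q, hp, hq', hpq⟩ := F.through (T := T) (N := N) hij' hnij h (by
    intro h1
    have h2 := h1.length_le
    rw [hslen i him, h0] at h2
    simp at h2) (hsΛ j)
  -- the cyclic closure
  obtain ⟨J, hJ, g, j0, w0, hadj, js, hjs, hg⟩ := F.cyclic (N := N) (s := s i) (s' := s j) hsi hsj
    (hsred j hjm) hij' hnij ((hsΛ j).length_le.trans hΛN) htyj (by
      intro l v h1 h2 h3 h4
      refine hsupp l v h1 h2 (List.IsSuffix.trans ?_ h3) h4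
      rcases List.suffix_or_suffix_of_suffix hbase (hsΛ i) with h5 | h5
      · exact h5
      · exfalso
        have h6 := h5.length_le
        rw [hslen i him] at h6
        simp at h6)
  choose f hf1 hf2 hf3 using hg
  set st := (g.cov j0 w0 hadj).stp with hst
  have hstA : IsAct S st := (g.cov j0 w0 hadj).isAct
  have htrans : ∀ c p q, TC F.us T (F.Reg N (s i) (s j)) p q →
      TO st T (f c p) = TO st T (f c q) := fun c p q hpq =>
    TO_eq hstA hT (TC.transport (f c) (hf3 c) hpq)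
  let F0 : X × List V → (J × ℤ) × X := fun p =>
    if p.2 = s i then ((js, 0), p.1) else if p.2 = s j then ((js, 1), F.tr uj vj ui vi p.1)
    else ((js, 2), F.tr uk vk ui vi p.1)
  have hFi : ∀ p, p.2 = s i → F0 p = ((js, 0), p.1) := fun p h => if_pos h
  have hFj : ∀ p, p.2 = s j → F0 p = ((js, 1), F.tr uj vj ui vi p.1) := fun p h => by
    simp only [F0]
    rw [if_neg (by rw [h]; exact hnij.symm), if_pos h]
  have hFk : ∀ p, p.2 = s k → F0 p = ((js, 2), F.tr uk vk ui vi p.1) := fun p h => by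
    simp only [F0]
    rw [if_neg (by rw [h]; exact hnik.symm), if_neg (by rw [h]; exact hnjk.symm)]
  -- points of the same label
  have hlab1 : ∀ (p p' : X × List V), p ∈ F.Vd → p' ∈ F.Vd → p.2 = s j → p'.2 = s i →
      F.Lb (s i) p'.1 = F.Lb (s j) p.1 → F.tr uj vj ui vi p.1 = p'.1 := by
    intro p p' h1 h2 h3 h4 h5
    rw [hLi, hLj] at h5
    exact F.tr_unique (F.mem_U_right (htop _ _ _ p' hsi h2 h4)) h5
  have hlab2 : ∀ (p p' : X × List V), p ∈ F.Vd → p' ∈ F.Vd → p.2 = s k → p'.2 = s j →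
      F.Lb (s j) p'.1 = F.Lb (s k) p.1 → F.tr uk vk ui vi p.1 = F.tr uj vj ui vi p'.1 := by
    intro p p' h1 h2 h3 h4 h5
    rw [hLj, hLk] at h5
    have h6 := F.tr_right htyj (htop _ _ _ p' hsj h2 h4)
    exact F.tr_unique (F.mem_U_right h6.1) (h6.2.trans h5)
  have hglue : ∀ p q, TC F.us T (F.Reg N (s i) (s k)) p q → (p.2 = s i ∨ p.2 = s j ∨ p.2 = s k) →
      (q.2 = s i ∨ q.2 = s j ∨ q.2 = s k) → TO st T (F0 p) = TO st T (F0 q) := by
    intro p q hpq hp hq
    rw [F.Reg_union hij' hjk' hnjk] at hpq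
    refine TC.glue (T' := {p : X × List V | p.2 = s i ∨ p.2 = s j ∨ p.2 = s k})
      (fun p => TO st T (F0 p))
      (fun q a h1 h2 => F.Reg_edge hij' q a h1 h2) ?_ ?_ ?_ hpq hp hq
    · intro q h1 h2
      right; left
      rcases h1.2.2.1 with h3 | h3
      · exact absurd h2.2.1 h3
      · exact h3
    · intro p q h1 h2 h3
      have h4 : ∀ p ∈ F.Reg N (s i) (s j), (p.2 = s i ∨ p.2 = s j ∨ p.2 = s k) →
          F0 p = f 0 p := by
        intro p h5 h6
        rcases h6 with h6 | h6 | h6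
        · rw [hFi p h6, hf1 0 p h6]
        · rw [hFj p h6, hf2 0 p h6, zero_add]
        · exfalso
          rcases h5.2.2.1 with h7 | h7
          · exact h7 (by rw [h6]; exact hjk')
          · exact hnjk (h7.symm.trans h6)
      rw [h4 p h3.left h1, h4 q h3.right h2]
      exact htrans 0 p q h3
    · intro p q h1 h2 h3
      -- labels of the two points
      have h4 : ∀ p ∈ F.Reg N (s j) (s k), (p.2 = s i ∨ p.2 = s j ∨ p.2 = s k) →
          ∃ α, F.RL (s j) (s k) α p ∧ ∀ p' ∈ F.Vd, F.RL (s i) (s j) α p' → F0 p = f 1 p' := by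
        intro p h5 h6
        rcases h6 with h6 | h6 | h6
        · exfalso
          have h7 := h5.2.1.length_le
          rw [h6, hslen i him, hslen j hjm] at h7
          omega
        · refine ⟨Sum.inl (F.Lb (s j) p.1), ⟨h6, rfl⟩, ?_⟩
          rintro p' h7 ⟨h8, h9⟩
          rw [hFj p h6, hf1 1 p' h8, hlab1 p p' h5.1 h7 h6 h8 h9]
        · refine ⟨Sum.inr (F.Lb (s k) p.1), ⟨h6, rfl⟩, ?_⟩
          rintro p' h7 ⟨h8, h9⟩
          rw [hFk p h6, hf2 1 p' h8, hlab2 p p' h5.1 h7 h6 h8 h9]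
          rfl
      obtain ⟨α, hα1, hα2⟩ := h4 p h3.left h1
      obtain ⟨β, hβ1, hβ2⟩ := h4 q h3.right h2
      have h5 : F.EE T N (s j) (s k) α β := ⟨p, q, h3, hα1, hβ1⟩
      rw [hE2, ← hE1] at h5
      obtain ⟨p', q', h6, h7, h8⟩ := h5
      show TO st T (F0 p) = TO st T (F0 q)
      rw [hα2 p' h6.left.1 h7, hβ2 q' h6.right.1 h8]
      exact htrans 1 p' q' h6
  -- the two levels
  have h1 : TO st T (F0 p) = TO st T (F0 q) := by
    rw [hFi p hp, hFj q hq', ← hf1 0 p hp, show ((js, 1), F.tr uj vj ui vi q.1) = f 0 q by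
      rw [hf2 0 q hq', zero_add]]
    exact htrans 0 p q hpq
  have h2 : F.EE T N (s i) (s j) (Sum.inl (F.Lb (s i) p.1)) (Sum.inr (F.Lb (s j) q.1)) :=
    ⟨p, q, hpq, ⟨hp, rfl⟩, ⟨hq', rfl⟩⟩
  rw [hE1] at h2
  obtain ⟨p2, q2, h3, ⟨h4, h5⟩, ⟨h6, h7⟩⟩ := h2
  have h8 := hglue p2 q2 h3 (Or.inl h4) (Or.inr (Or.inr h6))
  have h9 : p2.1 = p.1 := by
    rw [hLi, hLi] at h5
    exact F.lab_inj ui vi (F.mem_U_right (htop _ _ _ p2 hsi h3.left.1 h4))
      (F.mem_U_right (htop _ _ _ p hsi hpq.left.1 hp)) h5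
  have h10 : F.tr uk vk ui vi q2.1 = F.tr uj vj ui vi q.1 :=
    hlab2 q2 q h3.right.1 hpq.right.1 h6 hq' h7.symm
  have h11 : TO st T ((js, 1), F.tr uj vj ui vi q.1) =
      TO st T ((js, 2), F.tr uj vj ui vi q.1) := by
    rw [← hFj q hq', ← h1, hFi p hp, ← h9, ← hFi p2 h4, h8, hFk q2 h6, h10]
  have h12 : ((js, (2 : ℤ)), F.tr uj vj ui vi q.1) ∈ TO st T ((js, 1), F.tr uj vj ui vi q.1) := by
    rw [h11]
    exact TO_self _ _ _
  obtain ⟨w, hw, hrun⟩ := h12
  have h13 : F.π (F.tr uj vj ui vi q.1) = g.loc js := by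
    rw [hjs]
    exact (F.tr_right htyj (htop _ _ _ q hsj hpq.right.1 hq')).1
  obtain ⟨K, hK, ψ, x, hx, hψ⟩ := g.seen_of_wind P hadj h13 1 w hrun
  refine ⟨K, hK, ψ, x, ?_, hψ⟩
  rw [hx]
  exact P.val_mem hw

end Fib

end Run7.h266
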