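import Mathlib
import Pool.Agent.Helper460_CSP.Bls

/-!
# Groups all of whose finite quotients are quotients of `SL (n, ℤ)`

Such a group (`n ≥ 3`) has no subgroup of finite index with a nontrivial homomorphism to `ℤ`.
-/

set_option autoImplicit false
set_option linter.style.haveILetI false

namespace Run7.h266.SLP

open Matrix Pool.Agent.Helper460_CSP
open scoped commutatorElement

/-- `SL (n, ℤ)` -/
abbrev SLZ (n : ℕ) : Type := Matrix.SpecialLinearGroup (Fin n) ℤ

theorem tv_comm {ι : Type} [DecidableEq ι] [Fintype ι] {i j k : ι} (hij : i ≠ j) (hik : i ≠ k)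
    (hkj : k ≠ j) (s t : ℤ) :
    tv i j hij (s * t) = ⁅tv i k hik s, tv k j hkj t⁆ := by
  rw [commutatorElement_def, eq_mul_inv_iff_mul_eq, eq_mul_inv_iff_mul_eq]
  apply Subtype.ext
  show (transvection i j (s * t) * transvection k j t) * transvection i k s =
    transvection i k s * transvection k j t
  unfold transvection
  simp only [mul_add, add_mul, one_mul, mul_one]
  rw [single_mul_single_of_ne _ _ _ _ hkj.symm, single_mul_single_of_ne _ _ _ _ hij.symm,
    single_mul_single_of_ne _ _ _ _ hij.symm, single_mul_single_same]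
  simp
  abel

theorem exists_third {n : ℕ} (hn : 3 ≤ n) (i j : Fin n) : ∃ k : Fin n, i ≠ k ∧ k ≠ j := by
  by_contra h
  push Not at h
  have h1 : (Finset.univ : Finset (Fin n)) ⊆ {i, j} := by
    intro k _
    simp only [Finset.mem_insert, Finset.mem_singleton]
    by_cases hk : i = k
    · exact Or.inl hk.symm
    · exact Or.inr (h k hk)
  have h2 := Finset.card_le_card h1
  rw [Finset.card_univ, Fintype.card_fin] at h2
  have h3 := Finset.card_le_two (a := i) (b := j)
  omega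

/-- A finite quotient of `SL (n, ℤ)` with an abelian normal subgroup of index `N₀` is bounded. -/
theorem card_bound {n : ℕ} (hn : 3 ≤ n) (N₀ : ℕ) (h0 : N₀ ≠ 0) : ∃ B : ℕ, ∀ (Q : Type) [Group Q]
    (A : Subgroup Q), A.Normal → A.index = N₀ → (∀ a ∈ A, ∀ b ∈ A, a * b = b * a) →
    ∀ p : SLZ n →* Q, Function.Surjective p → Nat.card Q ≤ B := by
  have hz : (((N₀ : ℤ) * N₀).natAbs) ≠ 0 := by
    rw [Ne, Int.natAbs_eq_zero, mul_self_eq_zero]
    exact_mod_cast h0
  haveI : NeZero (((N₀ : ℤ) * N₀).natAbs) := ⟨hz⟩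
  refine ⟨Nat.card (Matrix.SpecialLinearGroup (Fin n) (ZMod ((N₀ : ℤ) * N₀).natAbs)), ?_⟩
  intro Q _ A hA hind hab p hp
  have h1 : El (Fin n) ((N₀ : ℤ) * N₀) ≤ p.ker := by
    apply El_le
    intro i j hij
    obtain ⟨k, hik, hkj⟩ := exists_third hn i j
    rw [tv_comm hij hik hkj, MonoidHom.mem_ker, map_commutatorElement]
    have key : ∀ (a b : Fin n) (h : a ≠ b), p (tv a b h (N₀ : ℤ)) ∈ A := by
      intro a b h
      have h2 : tv a b h (N₀ : ℤ) = tv a b h 1 ^ N₀ := by
        have := tv_mul_zpow a b h 1 (N₀ : ℤ)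
        rw [one_mul, zpow_natCast] at this
        exact this
      rw [h2, map_pow, ← hind]
      exact Subgroup.pow_index_mem A _
    rw [commutatorElement_eq_one_iff_mul_comm]
    exact hab _ (key _ _ _) _ (key _ _ _)
  have h2 : (SpecialLinearGroup.map (n := Fin n)
      (Int.castRingHom (ZMod ((N₀ : ℤ) * N₀).natAbs))).ker ≤ p.ker := by
    intro x hx
    rw [← cgr_iff] at hx
    obtain ⟨m, rfl⟩ : ∃ m, n = m + 3 := ⟨n - 3, by omega⟩
    refine h1 (bls (M := (N₀ : ℤ) * N₀) ?_ m x hx)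
    intro h
    exact hz (by rw [h]; rfl)
  have h3 := Subgroup.index_dvd_of_le h2
  rw [Subgroup.index_ker, Subgroup.index_ker] at h3
  have h4 : Nat.card p.range = Nat.card Q := by
    rw [MonoidHom.range_eq_top.2 hp]
    exact Subgroup.card_top
  rw [h4] at h3
  have h5 : Nat.card (SpecialLinearGroup.map (n := Fin n)
      (Int.castRingHom (ZMod ((N₀ : ℤ) * N₀).natAbs))).range ≤
      Nat.card (Matrix.SpecialLinearGroup (Fin n) (ZMod ((N₀ : ℤ) * N₀).natAbs)) :=
    Subgroup.card_le_card_group _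
  refine (Nat.le_of_dvd ?_ h3).trans h5
  exact Nat.card_pos

/-- Every finite quotient of `Λ` is a quotient of `SL (n, ℤ)`. -/
def Only (n : ℕ) (Λ : Type) [Group Λ] : Prop :=
  ∀ (Q : Type) [Group Q] [Finite Q], (∃ p : Λ →* Q, Function.Surjective p) →
    ∃ p : SLZ n →* Q, Function.Surjective p

theorem not_vi {n : ℕ} (hn : 3 ≤ n) {Λ : Type} [Group Λ] (hΛ : Only n Λ) (K : Subgroup Λ)
    (hK : K.FiniteIndex) (φ : K →* Multiplicative ℤ) (k : K) : φ k = 1 := by
  by_contra hne
  haveI := hK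
  set N : Subgroup Λ := K.normalCore with hN
  haveI hNf : N.FiniteIndex := inferInstance
  haveI hNn : N.Normal := Subgroup.normalCore_normal K
  have hNK : N ≤ K := Subgroup.normalCore_le K
  let φ' : N →* Multiplicative ℤ := φ.comp (Subgroup.inclusion hNK)
  obtain ⟨B, hB⟩ := card_bound hn N.index hNf.index_ne_zero
  set x : N := ⟨(k : Λ) ^ N.index, Subgroup.pow_index_mem N (k : Λ)⟩ with hx
  have hφx : φ' x = φ k ^ N.index := by
    show φ (Subgroup.inclusion hNK x) = _
    rw [← map_pow]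
    congr 1
  set c : ℤ := Multiplicative.toAdd (φ' x) with hc
  have hc0 : c ≠ 0 := by
    rw [hc, hφx, toAdd_pow]
    have h1 : Multiplicative.toAdd (φ k) ≠ 0 := by
      intro h
      exact hne (by rw [← ofAdd_toAdd (φ k), h]; rfl)
    have h2 : (N.index : ℤ) ≠ 0 := by exact_mod_cast hNf.index_ne_zero
    rw [nsmul_eq_mul]
    exact mul_ne_zero h2 h1
  -- the modulus
  set m : ℕ := c.natAbs * (B + 1) with hm
  have hm0 : m ≠ 0 := mul_ne_zero (Int.natAbs_ne_zero.2 hc0) (by omega)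
  haveI : NeZero m := ⟨hm0⟩
  let ψ : N →* Multiplicative (ZMod m) :=
    (AddMonoidHom.toMultiplicative (Int.castAddHom (ZMod m))).comp φ'
  have hψ : ∀ y : N, ψ y = 1 → (m : ℤ) ∣ Multiplicative.toAdd (φ' y) := by
    intro y hy
    have h1 : ((Multiplicative.toAdd (φ' y) : ℤ) : ZMod m) = 0 := hy
    rwa [ZMod.intCast_zmod_eq_zero_iff_dvd] at h1
  set H1 : Subgroup Λ := ψ.ker.map N.subtype with hH1
  haveI hkf : ψ.ker.FiniteIndex := by
    constructor
    rw [Subgroup.index_ker]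
    exact Nat.card_pos.ne'
  have hH1f : H1.FiniteIndex := by
    constructor
    rw [hH1, Subgroup.index_map_subtype]
    exact mul_ne_zero hkf.index_ne_zero hNf.index_ne_zero
  haveI := hH1f
  set W : Subgroup Λ := H1.normalCore with hW
  haveI hWn : W.Normal := Subgroup.normalCore_normal H1
  haveI hWf : W.FiniteIndex := inferInstance
  have hWH : W ≤ H1 := Subgroup.normalCore_le H1
  have hWN : W ≤ N := by
    intro w hw
    obtain ⟨y, -, rfl⟩ := hWH hw
    exact y.2
  have hmemψ : ∀ y : N, (y : Λ) ∈ H1 → ψ y = 1 := by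
    rintro y ⟨z, hz, hzy⟩
    have : z = y := Subtype.ext hzy
    rw [← this]
    exact hz
  have hcomm : ∀ a ∈ N, ∀ b ∈ N, ⁅a, b⁆ ∈ W := by
    intro a ha b hb g
    have h1 : g * ⁅a, b⁆ * g⁻¹ = ⁅g * a * g⁻¹, g * b * g⁻¹⁆ := by
      simp only [commutatorElement_def]
      group
    rw [h1]
    refine ⟨⁅(⟨g * a * g⁻¹, hNn.conj_mem a ha g⟩ : N), (⟨g * b * g⁻¹, hNn.conj_mem b hb g⟩ : N)⁆, ?_, rfl⟩
    show ψ _ = 1
    rw [map_commutatorElement, commutatorElement_eq_one_iff_mul_comm]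
    exact mul_comm _ _
  haveI : Finite (Λ ⧸ W) := Subgroup.finite_quotient_of_finiteIndex
  obtain ⟨p, hp⟩ := hΛ (Λ ⧸ W) ⟨QuotientGroup.mk' W, QuotientGroup.mk'_surjective W⟩
  have hA1 : (N.map (QuotientGroup.mk' W)).index = N.index := by
    rw [Subgroup.index_map_eq _ (QuotientGroup.mk'_surjective W)]
    rw [QuotientGroup.ker_mk']
    exact hWN
  have hA2 : (N.map (QuotientGroup.mk' W)).Normal :=
    Subgroup.Normal.map hNn _ (QuotientGroup.mk'_surjective W)
  have hcard := hB (Λ ⧸ W) (N.map (QuotientGroup.mk' W)) hA2 hA1 (by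
    rintro _ ⟨a, ha, rfl⟩ _ ⟨b, hb, rfl⟩
    rw [← commutatorElement_eq_one_iff_mul_comm, ← map_commutatorElement, ← MonoidHom.mem_ker,
      QuotientGroup.ker_mk']
    exact hcomm a ha b hb) p hp
  -- the powers of `x`
  have hinj : Function.Injective fun t : Fin (B + 1) => ((QuotientGroup.mk' W) (x : Λ)) ^ (t : ℕ) := by
    intro s t hst
    have h1 : (QuotientGroup.mk' W) ((x : Λ) ^ ((s : ℤ) - (t : ℤ))) = 1 := by
      have hst' : ((QuotientGroup.mk' W) (x : Λ)) ^ (s : ℕ) =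
        ((QuotientGroup.mk' W) (x : Λ)) ^ (t : ℕ) := hst
      rw [map_zpow, _root_.zpow_sub, zpow_natCast, zpow_natCast, hst', mul_inv_cancel]
    rw [← MonoidHom.mem_ker, QuotientGroup.ker_mk'] at h1
    have h2 := hψ (x ^ ((s : ℤ) - (t : ℤ))) (hmemψ _ (by
      rw [Subgroup.coe_zpow]
      exact hWH h1))
    rw [map_zpow, toAdd_zpow, smul_eq_mul, ← hc] at h2
    have h3 : ((c.natAbs * (B + 1) : ℕ) : ℤ) ∣ ((s : ℤ) - (t : ℤ)) * c := h2
    have h4 : (c * ((B : ℤ) + 1)) ∣ c * ((s : ℤ) - (t : ℤ)) := by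
      have h5 : (c * ((B : ℤ) + 1)) ∣ ((c.natAbs * (B + 1) : ℕ) : ℤ) := by
        push_cast
        exact mul_dvd_mul ((dvd_abs _ _).2 dvd_rfl) dvd_rfl
      rw [mul_comm c ((s : ℤ) - (t : ℤ))]
      exact h5.trans h3
    have h6 := Int.dvd_of_mul_dvd_mul_left hc0 h4
    have hs := s.2
    have ht := t.2
    have h7 : (s : ℤ) - (t : ℤ) = 0 := by
      apply Int.eq_zero_of_abs_lt_dvd h6
      rw [abs_lt]
      constructor <;> omega
    apply Fin.ext
    omega
  have h8 := Nat.card_le_card_of_injective _ hinj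
  rw [Nat.card_eq_fintype_card, Fintype.card_fin] at h8
  omega

end Run7.h266.SLP
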