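import Pool.Agent.Run7.h266.Papa

/-!
# Graphs with small balanced separators have two-colourings with small clusters
-/

set_option autoImplicit false

namespace Run7.h266

open Filter

variable {X : Type} {adj : X → X → Prop}

/-- steps inside a set -/
def NS (adj : X → X → Prop) (M : Set X) (x y : X) : Prop := x ∈ M ∧ y ∈ M ∧ adj x y

/-- clusters of a set -/
def CC (adj : X → X → Prop) (M : Set X) (x : X) : Set X :=
  {y | Relation.ReflTransGen (NS adj M) x y}

/-- balanced separators -/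
def BalSep (adj : X → X → Prop) (k : ℕ) : Prop :=
  ∀ U : Set X, U.Finite → ∀ S ⊆ U, ∃ Z A B : Set X, Z ⊆ U ∧ A ⊆ U ∧ B ⊆ U ∧ U ⊆ Z ∪ A ∪ B ∧
    Disjoint Z A ∧ Disjoint Z B ∧ Disjoint A B ∧ Z.ncard ≤ k ∧
    3 * (S ∩ A).ncard ≤ 2 * S.ncard ∧ 3 * (S ∩ B).ncard ≤ 2 * S.ncard ∧
    ∀ a ∈ A, ∀ b ∈ B, ¬ adj a b

/-- neighbours -/
def NB (adj : X → X → Prop) (R : Set X) : Set X := {y | ∃ r ∈ R, adj r y}

theorem NB_finite {Δ : ℕ} (hΔ : ∀ x, (NB adj {x}).encard ≤ Δ) {R : Set X} (hR : R.Finite) :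
    (NB adj R).Finite ∧ (NB adj R).ncard ≤ Δ * R.ncard := by
  classical
  have h1 : ∀ x, (NB adj {x}).Finite := fun x => Set.finite_of_encard_le_coe (hΔ x)
  have h2 : ∀ x, (NB adj {x}).ncard ≤ Δ := fun x => by
    have := hΔ x
    rw [← (h1 x).cast_ncard_eq] at this
    exact_mod_cast this
  induction R, hR using Set.Finite.induction_on with
  | empty =>
    have : NB adj (∅ : Set X) = ∅ := by
      ext y
      simp [NB]
    rw [this]
    simp
  | @insert a s ha hs ih =>
    have h3 : NB adj (insert a s) = NB adj {a} ∪ NB adj s := by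
      ext y
      simp [NB]
    rw [h3, Set.ncard_insert_of_notMem ha hs]
    refine ⟨(h1 a).union ih.1, (Set.ncard_union_le _ _).trans ?_⟩
    have := h2 a
    rw [Nat.mul_succ]
    omega

theorem CC_not_mem {M : Set X} {x : X} (hx : x ∉ M) : CC adj M x = {x} := by
  ext z
  constructor
  · intro hz
    have hz' : Relation.ReflTransGen (NS adj M) x z := hz
    rcases hz'.cases_head with h | ⟨y, h, -⟩
    · exact h.symm
    · exact absurd h.1 hx
  · rintro rfl
    exact Relation.ReflTransGen.refl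

/-- a cluster stays in a part without edges to the other part -/
theorem CC_split {M M1 M2 : Set X} (hM : M ⊆ M1 ∪ M2)
    (hn : ∀ a ∈ M1, a ∈ M → ∀ b ∈ M2, b ∈ M → b ∉ M1 → ¬ adj a b) {x : X} (hx : x ∈ M1) :
    CC adj M x ⊆ CC adj M1 x := by
  intro z hz
  have hz' : Relation.ReflTransGen (NS adj M) x z := hz
  have key : ∀ z, Relation.ReflTransGen (NS adj M) x z →
      Relation.ReflTransGen (NS adj M1) x z ∧ z ∈ M1 := by
    intro z hz
    induction hz with
    | refl => exact ⟨Relation.ReflTransGen.refl, hx⟩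
    | @tail a b _ hab ih =>
      have hb : b ∈ M1 := by
        by_contra hb
        have hb2 : b ∈ M2 := (hM hab.2.1).resolve_left hb
        exact hn a ih.2 hab.1 b hb2 hab.2.1 hb hab.2.2
      exact ⟨ih.1.tail ⟨ih.2, hb, hab.2.2⟩, hb⟩
  exact (key z hz').1

/-- the refinement -/
theorem refine_col {Δ k : ℕ} (hΔ1 : 1 ≤ Δ) (hk1 : 1 ≤ k) (hΔ : ∀ x, (NB adj {x}).encard ≤ Δ)
    (hsym : ∀ x y, adj x y → adj y x) (hsep : BalSep adj k) {t n : ℕ} (ht : 1 ≤ t)
    (hind : ∀ U : Set X, U.Finite → U.ncard < n → ∀ S ⊆ U, S.ncard ≤ 6 * Δ * k →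
      ∃ W ⊆ U, S ⊆ W ∧ (∀ x, (CC adj W x).encard ≤ t) ∧ ∀ x, (CC adj (U \ W) x).encard ≤ t) :
    ∀ (m : ℕ) (U : Set X), U.Finite → U.ncard < n → ∀ S ⊆ U, S.ncard ≤ m →
      ∃ R W : Set X, R ⊆ U ∧ W ⊆ U ∧ Disjoint R W ∧ S ⊆ R ∪ W ∧
        (∀ y ∈ U, y ∉ R → y ∈ NB adj R → y ∈ W) ∧ (∀ x, (CC adj W x).encard ≤ t) ∧
        (∀ x, (CC adj ((U \ W) \ R) x).encard ≤ t) ∧
        (S.ncard ≤ 6 * Δ * k → R = ∅) ∧
        (6 * Δ * k < S.ncard → Δ * R.ncard + 2 * Δ * k ≤ S.ncard) := by
  classical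
  intro m
  induction m using Nat.strong_induction_on with
  | _ m ih =>
    intro U hUf hUn S hSU hSm
    by_cases hs : S.ncard ≤ 6 * Δ * k
    · obtain ⟨W, hWU, hSW, h1, h2⟩ := hind U hUf hUn S hSU hs
      refine ⟨∅, W, Set.empty_subset _, hWU, Set.disjoint_left.2 fun _ h => h.elim,
        by rwa [Set.empty_union], ?_, h1, by rwa [Set.sdiff_empty], fun _ => rfl,
        fun h => absurd hs (not_le.2 h)⟩
      rintro y - - ⟨r, hr, -⟩
      exact hr.elim
    have hs' : 6 * Δ * k < S.ncard := not_le.1 hs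
    have hSf : S.Finite := hUf.subset hSU
    obtain ⟨Z, A, B, hZU, hAU, hBU, hcov, hZA, hZB, hAB, hZk, hA3, hB3, hnadj⟩ := hsep U hUf S hSU
    have hZf := hUf.subset hZU
    obtain ⟨hNf, hNc⟩ := NB_finite hΔ hZf
    have hNc' : (NB adj Z).ncard ≤ Δ * k := hNc.trans (Nat.mul_le_mul_left _ hZk)
    set SA : Set X := (S ∪ NB adj Z) ∩ A with hSA
    set SB : Set X := (S ∪ NB adj Z) ∩ B with hSB
    have hAf := hUf.subset hAU
    have hBf := hUf.subset hBU
    have e1 : SA.ncard ≤ (S ∩ A).ncard + (NB adj Z ∩ A).ncard := by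
      rw [hSA, Set.union_inter_distrib_right]
      exact Set.ncard_union_le _ _
    have e2 : SB.ncard ≤ (S ∩ B).ncard + (NB adj Z ∩ B).ncard := by
      rw [hSB, Set.union_inter_distrib_right]
      exact Set.ncard_union_le _ _
    have e3 : (S ∩ A).ncard + (S ∩ B).ncard ≤ S.ncard := by
      rw [← Set.ncard_union_eq (Set.disjoint_left.2 fun x hx hx' =>
        Set.disjoint_left.1 hAB hx.2 hx'.2) (hSf.inter_of_left _) (hSf.inter_of_left _)]
      exact Set.ncard_le_ncard (Set.union_subset Set.inter_subset_left Set.inter_subset_left) hSf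
    have e4 : (NB adj Z ∩ A).ncard + (NB adj Z ∩ B).ncard ≤ Δ * k := by
      rw [← Set.ncard_union_eq (Set.disjoint_left.2 fun x hx hx' =>
        Set.disjoint_left.1 hAB hx.2 hx'.2) (hNf.inter_of_left _) (hNf.inter_of_left _)]
      exact (Set.ncard_le_ncard (Set.union_subset Set.inter_subset_left Set.inter_subset_left)
        hNf).trans hNc'
    have e5 : 6 * Δ * k = 6 * (Δ * k) := by ring
    have e6 : 2 * Δ * k = 2 * (Δ * k) := by ring
    rw [e5] at hs'
    have hAn : A.ncard < n := lt_of_le_of_lt (Set.ncard_le_ncard hAU hUf) hUn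
    have hBn : B.ncard < n := lt_of_le_of_lt (Set.ncard_le_ncard hBU hUf) hUn
    obtain ⟨RA, WA, a1, a2, a3, a4, a5, a6, a7, a8, a9⟩ :=
      ih SA.ncard (by omega) A hAf hAn SA Set.inter_subset_right le_rfl
    obtain ⟨RB, WB, b1, b2, b3, b4, b5, b6, b7, b8, b9⟩ :=
      ih SB.ncard (by omega) B hBf hBn SB Set.inter_subset_right le_rfl
    have hnadj' : ∀ a ∈ A, ∀ b ∈ B, ¬ adj b a := fun a ha b hb h => hnadj a ha b hb (hsym _ _ h)
    have hdA : ∀ x, x ∈ A → x ∉ B := fun x hx hx' => Set.disjoint_left.1 hAB hx hx'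
    have hdZA : ∀ x, x ∈ A → x ∉ Z := fun x hx hx' => Set.disjoint_left.1 hZA hx' hx
    have hdZB : ∀ x, x ∈ B → x ∉ Z := fun x hx hx' => Set.disjoint_left.1 hZB hx' hx
    refine ⟨Z ∪ RA ∪ RB, WA ∪ WB, ?_, ?_, ?_, ?_, ?_, ?_, ?_, ?_, ?_⟩
    · exact Set.union_subset (Set.union_subset hZU (a1.trans hAU)) (b1.trans hBU)
    · exact Set.union_subset (a2.trans hAU) (b2.trans hBU)
    · rw [Set.disjoint_left]
      rintro x ((hx | hx) | hx) (hx' | hx')
      · exact hdZA x (a2 hx') hx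
      · exact hdZB x (b2 hx') hx
      · exact Set.disjoint_left.1 a3 hx hx'
      · exact hdA x (a1 hx) (b2 hx')
      · exact hdA x (a2 hx') (b1 hx)
      · exact Set.disjoint_left.1 b3 hx hx'
    · intro x hx
      rcases hcov (hSU hx) with (h | h) | h
      · exact Or.inl (Or.inl (Or.inl h))
      · rcases a4 ⟨Or.inl hx, h⟩ with h' | h'
        · exact Or.inl (Or.inl (Or.inr h'))
        · exact Or.inr (Or.inl h')
      · rcases b4 ⟨Or.inl hx, h⟩ with h' | h'
        · exact Or.inl (Or.inr h')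
        · exact Or.inr (Or.inr h')
    · rintro y hyU hyR ⟨r, hr, hry⟩
      have hyZ : y ∉ Z := fun h => hyR (Or.inl (Or.inl h))
      have hyRA : y ∉ RA := fun h => hyR (Or.inl (Or.inr h))
      have hyRB : y ∉ RB := fun h => hyR (Or.inr h)
      rcases hcov hyU with (h | h) | h
      · exact absurd h hyZ
      · left
        rcases hr with (hr | hr) | hr
        · exact (a4 ⟨Or.inr ⟨r, hr, hry⟩, h⟩).resolve_left hyRA
        · exact a5 y h hyRA ⟨r, hr, hry⟩
        · exact absurd hry (hnadj' y h r (b1 hr))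
      · right
        rcases hr with (hr | hr) | hr
        · exact (b4 ⟨Or.inr ⟨r, hr, hry⟩, h⟩).resolve_left hyRB
        · exact absurd hry (hnadj r (a1 hr) y h)
        · exact b5 y h hyRB ⟨r, hr, hry⟩
    · intro x
      by_cases hx : x ∈ WA
      · exact (Set.encard_le_encard (CC_split subset_rfl (fun a ha _ b hb _ _ =>
          hnadj a (a2 ha) b (b2 hb)) hx)).trans (a6 x)
      · by_cases hx' : x ∈ WB
        · exact (Set.encard_le_encard (CC_split (M2 := WA) (by rw [Set.union_comm])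
            (fun a ha _ b hb _ _ => hnadj' b (a2 hb) a (b2 ha)) hx')).trans (b6 x)
        · rw [CC_not_mem (by rintro (h | h); exacts [hx h, hx' h]), Set.encard_singleton]
          exact_mod_cast ht
    · have hsub : (U \ (WA ∪ WB)) \ (Z ∪ RA ∪ RB) ⊆ ((A \ WA) \ RA) ∪ ((B \ WB) \ RB) := by
        rintro y ⟨⟨hyU, hyW⟩, hyR⟩
        rcases hcov hyU with (h | h) | h
        · exact absurd (Or.inl (Or.inl h)) hyR
        · exact Or.inl ⟨⟨h, fun h' => hyW (Or.inl h')⟩, fun h' => hyR (Or.inl (Or.inr h'))⟩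
        · exact Or.inr ⟨⟨h, fun h' => hyW (Or.inr h')⟩, fun h' => hyR (Or.inr h')⟩
      intro x
      by_cases hx : x ∈ (A \ WA) \ RA
      · exact (Set.encard_le_encard (CC_split hsub (fun a ha _ b hb _ _ =>
          hnadj a ha.1.1 b hb.1.1) hx)).trans (a7 x)
      · by_cases hx' : x ∈ (B \ WB) \ RB
        · exact (Set.encard_le_encard (CC_split (M2 := (A \ WA) \ RA)
            (hsub.trans (by rw [Set.union_comm])) (fun a ha _ b hb _ _ =>
            hnadj' b hb.1.1 a ha.1.1) hx')).trans (b7 x)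
        · rw [CC_not_mem (fun h => (hsub h).elim hx hx'), Set.encard_singleton]
          exact_mod_cast ht
    · intro h
      rw [e5] at h
      omega
    · intro _
      rw [e6]
      have f1 : (Z ∪ RA ∪ RB).ncard ≤ k + RA.ncard + RB.ncard := by
        have := Set.ncard_union_le (Z ∪ RA) RB
        have := Set.ncard_union_le Z RA
        omega
      have f2 : Δ * (Z ∪ RA ∪ RB).ncard ≤ Δ * k + Δ * RA.ncard + Δ * RB.ncard := by
        calc Δ * (Z ∪ RA ∪ RB).ncard ≤ Δ * (k + RA.ncard + RB.ncard) := Nat.mul_le_mul_left _ f1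
          _ = _ := by ring
      rw [e5] at a8 a9 b8 b9
      rw [e6] at a9 b9
      have hpos : 1 ≤ Δ * k := Nat.mul_pos hΔ1 hk1
      by_cases hA6 : SA.ncard ≤ 6 * (Δ * k)
      · have hRA := a8 hA6
        have g1 : Δ * RA.ncard = 0 := by rw [hRA]; simp
        by_cases hB6 : SB.ncard ≤ 6 * (Δ * k)
        · have hRB := b8 hB6
          have g2 : Δ * RB.ncard = 0 := by rw [hRB]; simp
          omega
        · have g2 := b9 (not_le.1 hB6)
          omega
      · have g1 := a9 (not_le.1 hA6)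
        by_cases hB6 : SB.ncard ≤ 6 * (Δ * k)
        · have hRB := b8 hB6
          have g2 : Δ * RB.ncard = 0 := by rw [hRB]; simp
          omega
        · have g2 := b9 (not_le.1 hB6)
          omega

/-- the finite case -/
theorem sep_fin {Δ k : ℕ} (hΔ1 : 1 ≤ Δ) (hk1 : 1 ≤ k) (hΔ : ∀ x, (NB adj {x}).encard ≤ Δ)
    (hsym : ∀ x y, adj x y → adj y x) (hsep : BalSep adj k) :
    ∀ (n : ℕ) (U : Set X), U.Finite → U.ncard ≤ n → ∀ S ⊆ U, S.ncard ≤ 6 * Δ * k →
      ∃ W ⊆ U, S ⊆ W ∧ (∀ x, (CC adj W x).encard ≤ (12 * Δ * k : ℕ)) ∧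
        ∀ x, (CC adj (U \ W) x).encard ≤ (12 * Δ * k : ℕ) := by
  classical
  have hpos : 1 ≤ Δ * k := Nat.mul_pos hΔ1 hk1
  have e5 : 6 * Δ * k = 6 * (Δ * k) := by ring
  have e7 : 12 * Δ * k = 12 * (Δ * k) := by ring
  have hgood : ∀ (M : Set X) (x : X), M = ∅ → (CC adj M x).encard ≤ (12 * Δ * k : ℕ) := by
    intro M x hM
    rw [CC_not_mem (by rw [hM]; exact Set.notMem_empty x), Set.encard_singleton]
    exact_mod_cast (show 1 ≤ 12 * Δ * k by omega)
  intro n
  induction n with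
  | zero =>
    intro U hUf hU0 S hSU _
    have hU : U = ∅ := by
      rw [← Set.ncard_eq_zero hUf]
      omega
    refine ⟨∅, Set.empty_subset _, ?_, fun x => hgood _ x rfl, fun x => hgood _ x ?_⟩
    · rw [← hU]; exact hSU
    · rw [hU, Set.sdiff_empty]
  | succ n ih =>
    intro U hUf hUn S hSU hSc
    by_cases hUe : U = ∅
    · refine ⟨∅, Set.empty_subset _, ?_, fun x => hgood _ x rfl, fun x => hgood _ x ?_⟩
      · rw [← hUe]; exact hSU
      · rw [hUe, Set.sdiff_empty]
    -- a nonempty root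
    obtain ⟨S0, hS0U, hSS0, hS0c, hS0ne⟩ : ∃ S0 : Set X, S0 ⊆ U ∧ S ⊆ S0 ∧
        S0.ncard ≤ 6 * Δ * k ∧ S0.Nonempty := by
      by_cases hSe : S = ∅
      · obtain ⟨u, hu⟩ := Set.nonempty_iff_ne_empty.2 hUe
        refine ⟨{u}, by simpa using hu, by rw [hSe]; exact Set.empty_subset _, ?_,
          Set.singleton_nonempty u⟩
        rw [Set.ncard_singleton]
        omega
      · exact ⟨S, hSU, subset_rfl, hSc, Set.nonempty_iff_ne_empty.2 hSe⟩
    have hS0f := hUf.subset hS0U
    obtain ⟨hNf, hNc⟩ := NB_finite hΔ hS0f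
    set U' := U \ S0 with hU'
    have hU'f : U'.Finite := hUf.subset Set.sdiff_subset
    have hU'n : U'.ncard < n + 1 := by
      have h1 : U'.ncard < U.ncard := by
        refine Set.ncard_lt_ncard ?_ hUf
        refine ⟨Set.sdiff_subset, fun h => ?_⟩
        obtain ⟨s, hs⟩ := hS0ne
        exact (h (hS0U hs)).2 hs
      omega
    obtain ⟨R, W, r1, r2, r3, r4, r5, r6, r7, r8, r9⟩ := refine_col hΔ1 hk1 hΔ hsym hsep
      (t := 12 * Δ * k) (n := n + 1) (by omega) (fun V hVf hVn T hTV hTc =>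
        ih V hVf (by omega) T hTV hTc) (NB adj S0 ∩ U').ncard U' hU'f hU'n (NB adj S0 ∩ U')
        Set.inter_subset_right le_rfl
    -- the root bag has the first colour
    have hRc : R.ncard ≤ 6 * Δ * k := by
      by_cases h : (NB adj S0 ∩ U').ncard ≤ 6 * Δ * k
      · rw [r8 h]; simp
      · have h1 := r9 (not_le.1 h)
        have h2 : (NB adj S0 ∩ U').ncard ≤ Δ * (6 * Δ * k) :=
          (Set.ncard_le_ncard Set.inter_subset_left hNf).trans
            (hNc.trans (Nat.mul_le_mul_left _ hS0c))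
        have h3 : Δ * R.ncard ≤ Δ * (6 * Δ * k) := by omega
        exact Nat.le_of_mul_le_mul_left h3 (by omega)
    have hRf := hU'f.subset r1
    have hbag : (S0 ∪ R).encard ≤ (12 * Δ * k : ℕ) := by
      have h1 := (hS0f.union hRf)
      rw [← h1.cast_ncard_eq]
      have h2 := Set.ncard_union_le S0 R
      have h3 : (S0 ∪ R).ncard ≤ 12 * Δ * k := by omega
      exact_mod_cast h3
    refine ⟨U \ W, Set.sdiff_subset, fun s hs => ⟨hSU hs, fun h => (r2 h).2 (hSS0 hs)⟩, ?_, ?_⟩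
    · have hsub : U \ W ⊆ (S0 ∪ R) ∪ ((U' \ W) \ R) := by
        rintro y ⟨hyU, hyW⟩
        by_cases hy : y ∈ S0
        · exact Or.inl (Or.inl hy)
        · by_cases hy' : y ∈ R
          · exact Or.inl (Or.inr hy')
          · exact Or.inr ⟨⟨⟨hyU, hy⟩, hyW⟩, hy'⟩
      have hsepr : ∀ a ∈ S0 ∪ R, ∀ b ∈ (U' \ W) \ R, ¬ adj a b := by
        rintro a (ha | ha) b hb hab
        · rcases r4 ⟨⟨a, ha, hab⟩, hb.1.1⟩ with h | h
          · exact hb.2 h
          · exact hb.1.2 h
        · exact hb.1.2 (r5 b hb.1.1 hb.2 ⟨a, ha, hab⟩)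
      intro x
      by_cases hx : x ∈ S0 ∪ R
      · -- the cluster stays in the bag
        refine le_trans (Set.encard_le_encard ?_) hbag
        intro z hz
        have h1 := CC_split hsub (fun a ha _ b hb _ _ => hsepr a ha b hb) hx hz
        have h2 : Relation.ReflTransGen (NS adj (S0 ∪ R)) x z := h1
        rcases h2.cases_tail with h3 | ⟨_, -, h3⟩
        · rw [h3]; exact hx
        · exact h3.2.1
      · by_cases hx' : x ∈ (U' \ W) \ R
        · exact (Set.encard_le_encard (CC_split (M2 := S0 ∪ R) (hsub.trans (by rw [Set.union_comm]))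
            (fun a ha _ b hb _ _ h => hsepr b hb a ha (hsym _ _ h)) hx')).trans (r7 x)
        · rw [CC_not_mem (fun h => (hsub h).elim hx hx'), Set.encard_singleton]
          exact_mod_cast (show 1 ≤ 12 * Δ * k by omega)
    · have h1 : U \ (U \ W) = W := by
        rw [Set.sdiff_sdiff_cancel_left]
        exact r2.trans Set.sdiff_subset
      rw [h1]
      exact r6

/-- steps of one colour -/
def CS (adj : X → X → Prop) (A : Set X) (x y : X) : Prop := (x ∈ A ↔ y ∈ A) ∧ adj x y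

theorem steps_rel {R R' : X → X → Prop} (h : ∀ x y, R x y → R' x y) (x : X) (k : ℕ) :
    steps R x k ⊆ steps R' x k := by
  induction k with
  | zero => exact subset_rfl
  | succ k ih =>
    rintro z (hz | ⟨u, hu, hR⟩)
    · exact Or.inl (ih hz)
    · exact Or.inr ⟨u, ih hu, h _ _ hR⟩

theorem steps_mono {R : X → X → Prop} (x : X) {k k' : ℕ} (h : k ≤ k') :
    steps R x k ⊆ steps R x k' := by
  induction k', h using Nat.le_induction with
  | base => exact subset_rfl
  | succ k' _ ih => exact ih.trans fun z hz => Or.inl hz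

theorem steps_fin (hlf : ∀ x, (NB adj {x}).Finite) (x : X) (k : ℕ) :
    (steps adj x k).Finite := by
  induction k with
  | zero => exact Set.finite_singleton x
  | succ k ih =>
    refine ih.union ((ih.biUnion fun y _ => hlf y).subset ?_)
    rintro z ⟨u, hu, hR⟩
    exact Set.mem_biUnion hu ⟨u, rfl, hR⟩

/-- compactness -/
theorem col_limit {T : ℕ} (hlf : ∀ x, (NB adj {x}).Finite)
    (h : ∀ U : Set X, U.Finite → ∃ W ⊆ U, (∀ x, (CC adj W x).encard ≤ T) ∧
      ∀ x, (CC adj (U \ W) x).encard ≤ T) :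
    ∃ A : Set X, ∀ x, {y | Relation.ReflTransGen (CS adj A) x y}.encard ≤ T := by
  classical
  choose WY hW1 hW2 hW3 using fun Y : Finset X => h Y Y.finite_toSet
  have hne : (atTop : Filter (Finset X)).NeBot := inferInstance
  let 𝒰 : Ultrafilter (Finset X) := Ultrafilter.of atTop
  have h𝒰 : (𝒰 : Filter (Finset X)) ≤ atTop := Ultrafilter.of_le atTop
  let W : Set X := {x | ∀ᶠ Y in (𝒰 : Filter (Finset X)), x ∈ WY Y}
  refine ⟨W, fun x => ?_⟩
  by_contra hbig
  rw [not_le] at hbig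
  have hbig2 : ((T + 1 : ℕ) : ℕ∞) ≤ (steps (CS adj W) x T).encard := by
    rcases reach_or (R := CS adj W) (x := x) T with h4 | h4
    · have h5 : {y | Relation.ReflTransGen (CS adj W) x y} ⊆ steps (CS adj W) x T := h4
      push_cast
      exact Order.add_one_le_of_lt (lt_of_lt_of_le hbig (Set.encard_le_encard h5))
    · exact h4
  have hQfin : (steps adj x T).Finite := steps_fin hlf x T
  have e1 : ∀ᶠ Y in (𝒰 : Filter (Finset X)), ∀ z ∈ steps adj x T, (z ∈ W ↔ z ∈ WY Y) := by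
    refine (eventually_all_finite hQfin).2 fun z _ => ?_
    by_cases hz : z ∈ W
    · filter_upwards [show ∀ᶠ Y in (𝒰 : Filter (Finset X)), z ∈ WY Y from hz] with Y hY
      exact ⟨fun _ => hY, fun _ => hz⟩
    · have h4 : ¬ ∀ᶠ Y in (𝒰 : Filter (Finset X)), z ∈ WY Y := hz
      filter_upwards [Ultrafilter.eventually_not.2 h4] with Y hY
      exact ⟨fun h => absurd h hz, fun h => absurd h hY⟩
  have e2 : ∀ᶠ Y in (𝒰 : Filter (Finset X)), hQfin.toFinset ⊆ Y :=
    h𝒰 (eventually_ge_atTop hQfin.toFinset)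
  obtain ⟨Y, hY1, hY2⟩ := (e1.and e2).exists
  have hYmem : ∀ z ∈ steps adj x T, z ∈ Y := fun z hz => hY2 (by simpa using hz)
  have hcolor : ∀ M : Set X, (∀ z ∈ steps adj x T, (z ∈ W ↔ x ∈ W) → z ∈ M) →
      (CC adj M x).encard ≤ T → False := by
    intro M hM hMc
    have hcol : ∀ j, ∀ v ∈ steps (CS adj W) x j, (v ∈ W ↔ x ∈ W) := by
      intro j
      induction j with
      | zero =>
        rintro v rfl
        exact Iff.rfl
      | succ j ih =>
        rintro v (hv | ⟨u, hu, hR⟩)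
        · exact ih v hv
        · exact hR.1.symm.trans (ih u hu)
    have h6 : ∀ {j : ℕ} {v : X}, j ≤ T → v ∈ steps (CS adj W) x j → v ∈ M := by
      intro j v hj hv
      exact hM v (steps_mono x hj (steps_rel (fun a b hab => hab.2) x j hv)) (hcol j v hv)
    have h4 : ∀ k ≤ T, steps (CS adj W) x k ⊆ CC adj M x := by
      intro k
      induction k with
      | zero =>
        rintro - z rfl
        exact Relation.ReflTransGen.refl
      | succ k ih =>
        intro hk z hz
        rcases hz with hz | ⟨u, hu, hR⟩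
        · exact ih (by omega) hz
        · exact Relation.ReflTransGen.tail (ih (by omega) hu)
            ⟨h6 (by omega) hu, h6 hk (Or.inr ⟨u, hu, hR⟩), hR.2⟩
    have h5 := (hbig2.trans (Set.encard_le_encard (h4 T le_rfl))).trans hMc
    have h7 : T + 1 ≤ T := by exact_mod_cast h5
    omega
  by_cases hx : x ∈ W
  · refine hcolor (WY Y) (fun z hz h => ?_) (hW2 Y x)
    exact (hY1 z hz).1 (h.2 hx)
  · refine hcolor (↑Y \ WY Y) (fun z hz h => ⟨hYmem z hz, fun h' => ?_⟩) (hW3 Y x)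
    exact hx (h.1 ((hY1 z hz).2 h'))

/-- balanced separators give a two-colouring -/
theorem sep_col {Δ k : ℕ} (hΔ : ∀ x, (NB adj {x}).encard ≤ Δ)
    (hsym : ∀ x y, adj x y → adj y x) (hsep : BalSep adj k) :
    ∃ A : Set X, ∀ x, {y | Relation.ReflTransGen (CS adj A) x y}.encard ≤
      (12 * (Δ + 1) * (k + 1) : ℕ) := by
  refine col_limit (fun x => Set.finite_of_encard_le_coe (hΔ x)) fun U hU => ?_
  have hΔ' : ∀ x, (NB adj {x}).encard ≤ (Δ + 1 : ℕ) := fun x => (hΔ x).trans (by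
    exact_mod_cast Nat.le_succ Δ)
  have hsep' : BalSep adj (k + 1) := by
    intro U hU S hS
    obtain ⟨Z, A, B, h1, h2, h3, h4, h5, h6, h7, h8, h9⟩ := hsep U hU S hS
    exact ⟨Z, A, B, h1, h2, h3, h4, h5, h6, h7, h8.trans (Nat.le_succ k), h9⟩
  obtain ⟨W, hW, -, h1, h2⟩ := sep_fin (by omega) (by omega) hΔ' hsym hsep' U.ncard U hU le_rfl ∅
    (Set.empty_subset _) (by simp)
  exact ⟨W, hW, h1, h2⟩

end Run7.h266
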