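import Pool.Agent.Run7.h266.Chain

/-!
# The uniform subgroup
-/

set_option autoImplicit false

namespace Run7.h266

open Pool.Agent.H785R3.GrowthA
open scoped commutatorElement

variable {L : Type} {S : Sys L}

/-- a normal subgroup of finite index acting trivially on a finite invariant set -/
theorem exists_triv {G : Type} [Group G] (P : Pres S G) {Z : Type} {B : L → Z → Z}
    (hB : IsAct S B) {F : Set Z} (hF : F.Finite) (hinv : ∀ a, ∀ z ∈ F, B a z ∈ F) :
    ∃ K : Subgroup G, K.Normal ∧ K.FiniteIndex ∧ ∀ w, P.val w ∈ K → ∀ z ∈ F, run B w z = z := by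
  let B' : L → F → F := fun a z => ⟨B a z, hinv a z z.2⟩
  have hrun : ∀ w (z : F), ((run B' w z : F) : Z) = run B w (z : Z) := by
    intro w z
    induction w with
    | nil => rfl
    | cons a w ih =>
      rw [run_cons, run_cons, ← ih]
  have hB' : IsAct S B' := by
    intro w hw z
    apply Subtype.ext
    rw [hrun, hB w hw]
  obtain ⟨ρ, hρ⟩ := P.lift F B' hB'
  have : Finite F := hF
  refine ⟨ρ.ker, inferInstance, inferInstance, fun w hw z hz => ?_⟩
  have h1 := hρ w ⟨z, hz⟩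
  rw [MonoidHom.mem_ker] at hw
  rw [hw, Equiv.Perm.one_apply] at h1
  have h2 := hrun w ⟨z, hz⟩
  rw [← h1] at h2
  exact h2.symm

/-- the code is realized by a site with a copy of itself and a finite difference -/
def LR (S : Sys L) {m : ℕ} (c : Code L m) : Prop :=
  ∃ E : LD S, (E.U0 \ E.U1).Finite ∧ HasCode S c E.A E.U0 E.b0

theorem LD.b1_mem (E : LD S) : E.b1 ∈ N S E.A E.U1 := by
  have h1 : ¬ (E.A E.c1 (run E.A E.w1 E.b0) ∈ E.U1 ↔ run E.A E.w1 E.b0 ∈ E.U1) := by
    have := E.path.last.2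
    have := E.mem
    rw [E.enter]
    tauto
  have h2 := (mem_N_of_step E.act h1).2
  rwa [E.enter] at h2

theorem LD.b0_mem (E : LD S) : E.b0 ∈ N S E.A E.U0 := by
  rw [← E.eb]
  exact E.e.map' _ E.b1_mem

theorem LD.exists_triv (E : LD S) (hfin : (E.U0 \ E.U1).Finite) {G : Type} [Group G]
    (P : Pres S G) : ∃ K : Subgroup G, K.Normal ∧ K.FiniteIndex ∧ ∀ w, P.val w ∈ K →
      ∀ z ∈ E.U0 \ E.U1, run E.loop.unf w (Sum.inr ((), z)) = Sum.inr ((), z) := by
  obtain ⟨K, h1, h2, h3⟩ := Run7.h266.exists_triv P E.loop.unf_act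
    (F := (fun z => (Sum.inr ((), z) : E.loop.Z)) '' (E.U0 \ E.U1)) (hfin.image _) (by
      rintro a _ ⟨z, hz, rfl⟩
      have h1 := E.loop.unf_mem_Q (a := a) (E.loop.mem_Q_inr (j := ()) (E.mem_loop_M.2 hz))
      rcases h2 : E.loop.unf a (Sum.inr ((), z)) with x | ⟨j, x⟩
      · -- this does not happen
        exfalso
        by_cases h3 : E.A a z ∈ E.U0
        · by_cases h4 : E.A a z ∈ E.U1
          · rw [E.loop.unf_down (a := a) (i := ()) (j := ()) (z := z) (E.mem_loop_M.2 hz) h4] at h2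
            simp at h2
          · rw [E.loop.unf_inr (E.mem_loop_M.2 hz) (E.mem_loop_M.2 ⟨h3, h4⟩)] at h2
            simp at h2
        · rw [E.loop.unf_up (a := a) (i := ()) (j := ()) (j' := ()) (z := z)
            (E.mem_loop_M.2 hz) h3 rfl] at h2
          simp at h2
      · rw [h2] at h1
        have h3 := E.loop.mem_M_of_Q h1
        exact ⟨x, E.mem_loop_M.1 h3, rfl⟩)
  exact ⟨K, h1, h2, fun w hw z hz => h3 w hw _ ⟨z, hz, rfl⟩⟩

/-- the uniform subgroup -/
theorem star [Finite L] {G : Type} [Group G] (P : Pres S G) (hG : Group.FG G)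
    (hNF : ∀ a b : G, ¬ FreePair a b) (m : ℕ) :
    ∃ K : Subgroup G, K.FiniteIndex ∧ K.Normal ∧ (⁅K, K⁆ : Subgroup G).FG ∧
      ∀ (X : Type) (A : L → X → X), IsAct S A → ∀ (U : Set X) (b y : X) (c : Code L m),
        HasCode S c A U b → LR S c → b ∈ U → ∀ (u : List L) (a : L), Path A Uᶜ y u →
        A a (run A u y) = b → ∀ w, P.val w ∈ (⁅K, K⁆ : Subgroup G) → Path A Uᶜ y w →
        run A w y = y := by
  classical
  have h1 : ∀ c : Code L m, ∃ K : Subgroup G, K.Normal ∧ K.FiniteIndex ∧ (LR S c →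
      ∃ E : LD S, HasCode S c E.A E.U0 E.b0 ∧ ∀ w, P.val w ∈ K →
      ∀ z ∈ E.U0 \ E.U1, run E.loop.unf w (Sum.inr ((), z)) = Sum.inr ((), z)) := by
    intro c
    by_cases h : LR S c
    · obtain ⟨E, hfin, hE⟩ := h
      obtain ⟨K, h1, h2, h3⟩ := E.exists_triv hfin P
      exact ⟨K, h1, h2, fun _ => ⟨E, hE, h3⟩⟩
    · exact ⟨⊤, inferInstance, inferInstance, fun h' => absurd h' h⟩
  choose K hK1 hK2 hK3 using h1
  have hN : (⨅ c, K c).Normal := Subgroup.normal_iInf_normal hK1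
  have hF : (⨅ c, K c).FiniteIndex := Subgroup.finiteIndex_iInf hK2
  have hfg := Pool.Agent.N6.W.commutator_sub_fg hG hNF (⨅ c, K c) hF
  refine ⟨⨅ c, K c, hF, hN, hfg, ?_⟩
  intro X A hA U b y c hc hLR hb u a hu hub w hw hpw
  obtain ⟨E, hE, hE'⟩ := hK3 c hLR
  have hbN : b ∈ N S A U := by
    have h1 : ¬ (A a (run A u y) ∈ U ↔ run A u y ∈ U) := by
      have := hu.last
      rw [Set.mem_compl_iff] at this
      rw [hub]
      tauto
    have h2 := (mem_N_of_step hA h1).2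
    rwa [hub] at h2
  obtain ⟨e, he, he'⟩ := hE.iso hc E.b0_mem hbN
  refine E.fix P (⨅ c, K c) hN ?_ hfg hA e he' hu hub hb hw hpw
  intro w hw z hz
  exact hE' w (iInf_le K c hw) z hz

end Run7.h266
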