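import Pool.Agent.Run7.h266.Sub
import Pool.Agent.Run7.h266.Star

/-!
# Sites and sub-sites
-/

set_option autoImplicit false

namespace Run7.h266

open Pool.Agent.H785R3.GrowthA
open scoped commutatorElement

variable {L : Type} {S : Sys L} {X : Type} {A : L → X → X}

/-- `c` is reached from `b` by a path all of whose points but the last are in `M` -/
def Reach (A : L → X → X) (M : Set X) (b c : X) : Prop :=
  ∃ (u : List L) (a : L), Path A M b u ∧ A a (run A u b) = c

theorem Reach.start {M : Set X} {b c : X} (h : Reach A M b c) : b ∈ M := by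
  obtain ⟨u, a, h, -⟩ := h
  exact h.start

theorem Reach.mono {M M' : Set X} {b c : X} (h : Reach A M b c) (hM : M ⊆ M') :
    Reach A M' b c := by
  obtain ⟨u, a, h, h'⟩ := h
  exact ⟨u, a, h.mono hM, h'⟩

theorem Reach.trans {M : Set X} {b c d : X} (h : Reach A M b c) (h' : Reach A M c d) :
    Reach A M b d := by
  obtain ⟨u, a, h1, rfl⟩ := h
  obtain ⟨u', a', h2, rfl⟩ := h'
  refine ⟨u' ++ (a :: u), a', Path.app (w := a :: u) (Path.cons a h1 h2.start) h2, ?_⟩
  rw [run_append]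
  rfl

theorem Reach.of_path {M : Set X} {b d : X} {v : List L} (h : Path A M b v)
    (h' : Reach A M (run A v b) d) : Reach A M b d := by
  obtain ⟨u', a', h2, rfl⟩ := h'
  refine ⟨u' ++ v, a', Path.app h h2, ?_⟩
  rw [run_append]

theorem Reach.mem_N (hA : IsAct S A) {U : Set X} {b c : X} (h : Reach A Uᶜ b c) (hc : c ∈ U) :
    c ∈ N S A U := by
  obtain ⟨u, a, h1, rfl⟩ := h
  have h2 := h1.last
  rw [Set.mem_compl_iff] at h2
  exact (mem_N_of_step hA (by tauto)).2

/-- the points of a path -/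
def pts (A : L → X → X) (w : List L) (z : X) : Set X := {p | ∃ w', w' <:+ w ∧ run A w' z = p}

theorem pts_encard (w : List L) (z : X) : (pts A w z).encard ≤ (w.length + 1 : ℕ) := by
  classical
  have h : pts A w z ⊆ (fun w' => run A w' z) '' (↑w.tails.toFinset : Set (List L)) := by
    rintro p ⟨w', hw', rfl⟩
    exact ⟨w', by simpa using hw', rfl⟩
  refine (Set.encard_le_encard h).trans ((Set.encard_image_le _ _).trans ?_)
  rw [Set.encard_coe_eq_coe_finsetCard]
  have h2 := w.tails.toFinset_card_le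
  rw [List.length_tails] at h2
  exact_mod_cast h2

theorem Path.avoid {M V : Set X} {z : X} {w : List L} (h : Path A M z w)
    (hV : ∀ p ∈ V, p ∉ pts A w z) : Path A (M \ V) z w := by
  refine Path.of_suffix fun w' hw' => ⟨?_, fun h1 => hV _ h1 ⟨w', hw', rfl⟩⟩
  exact h.suffix hw'

/-- `(V, c)` lies beyond the boundary of `(U, b)` -/
structure SubS (S : Sys L) (A : L → X → X) (U : Set X) (b : X) (V : Set X) (c : X) : Prop where
  sub : V ⊆ U
  disj : ∀ z ∈ N S A V, z ∉ N S A U
  mem : c ∈ V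
  reach : Reach A (U \ V) b c

theorem nest_disj {U V W : Set X} (h : ∀ z ∈ N S A W, z ∉ N S A V) (h1 : W ⊆ V) (h2 : V ⊆ U) :
    ∀ z ∈ N S A W, z ∉ N S A U := by
  intro z hz hz'
  have hz0 := hz
  obtain ⟨w, hw, hwz⟩ := hz
  obtain ⟨w', hw', hwz'⟩ := hz'
  by_cases hV : z ∈ V
  · refine h z hz0 ⟨w', hw', ?_⟩
    have h3 : z ∈ U := h2 hV
    have h4 : run A w' z ∉ U := by tauto
    have h5 : run A w' z ∉ V := fun h => h4 (h2 h)
    tauto
  · refine h z hz0 ⟨w, hw, ?_⟩
    have h3 : z ∉ W := fun h => hV (h1 h)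
    have h4 : run A w z ∈ W := by tauto
    have := h1 h4
    tauto

theorem SubS.trans {U V W : Set X} {b c d : X} (h : SubS S A U b V c) (h' : SubS S A V c W d) :
    SubS S A U b W d where
  sub := h'.sub.trans h.sub
  disj := nest_disj h'.disj h'.sub h.sub
  mem := h'.mem
  reach := by
    have h1 : Reach A (U \ W) b c :=
      h.reach.mono fun z hz => ⟨hz.1, fun hW => hz.2 (h'.sub hW)⟩
    have h2 : Reach A (U \ W) c d :=
      h'.reach.mono fun z hz => ⟨h.sub hz.1, hz.2⟩
    exact h1.trans h2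

theorem SubS.mem_N (hA : IsAct S A) {U V : Set X} {b c : X} (h : SubS S A U b V c) :
    c ∈ N S A V := by
  refine Reach.mem_N hA (b := b) (h.reach.mono fun z hz => ?_) h.mem
  exact hz.2

/-- a site -/
structure Site (S : Sys L) (A : L → X → X) (m : ℕ) (n : ℕ∞) (F U : Set X) : Prop where
  conn : ∀ z ∈ U, ∀ z' ∈ U, Conn A U z z'
  big : n ≤ U.encard
  coll : (N S A U).encard ≤ m
  avoid : ∀ z ∈ U, z ∉ F

/-- the codes of the sub-sites -/
def Types (S : Sys L) (A : L → X → X) (m : ℕ) (n : ℕ∞) (F U : Set X) (b : X) :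
    Set (Code L m) :=
  {τ | ∃ V c, Site S A m n F V ∧ SubS S A U b V c ∧ HasCode S τ A V c}

theorem Types_sub {m : ℕ} {n : ℕ∞} {F U V : Set X} {b c : X} (h : SubS S A U b V c) :
    Types S A m n F V c ⊆ Types S A m n F U b := by
  rintro τ ⟨W, d, h1, h2, h3⟩
  exact ⟨W, d, h1, h.trans h2, h3⟩

/-- the data of the chain lemma from two sites with the same code -/
theorem LR_of {m : ℕ} (hA : IsAct S A) {U0 U1 : Set X} {b0 b1 : X} {τ : Code L m}
    (h0 : HasCode S τ A U0 b0) (h1 : HasCode S τ A U1 b1) (hb0 : b0 ∈ N S A U0)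
    (h : SubS S A U0 b0 U1 b1) (hfin : (U0 \ U1).Finite) : LR S τ := by
  obtain ⟨e, he, he'⟩ := h0.iso h1 hb0 (h.mem_N hA)
  obtain ⟨w1, c1, hp, hc⟩ := h.reach
  exact ⟨⟨X, A, hA, U0, U1, b0, b1, e, he', h.sub, h.disj, w1, c1, hp, hc, h.mem⟩, hfin, h0⟩

/-- a nested pair of sites of the same code with a finite difference: the elements of the
commutator subgroup act trivially on what lies outside -/
theorem fix_of [Finite L] {G : Type} [Group G] (P : Pres S G) {m : ℕ} {K : Subgroup G}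
    (hK : ∀ (X : Type) (A : L → X → X), IsAct S A → ∀ (U : Set X) (b y : X) (c : Code L m),
        HasCode S c A U b → LR S c → b ∈ U → ∀ (u : List L) (a : L), Path A Uᶜ y u →
        A a (run A u y) = b → ∀ w, P.val w ∈ (⁅K, K⁆ : Subgroup G) → Path A Uᶜ y w →
        run A w y = y)
    (hA : IsAct S A) {O U0 U1 : Set X} {y b0 b1 : X} {τ : Code L m}
    (h : SubS S A O y U0 b0) (h' : SubS S A U0 b0 U1 b1) (h0 : HasCode S τ A U0 b0)
    (h1 : HasCode S τ A U1 b1) (hfin : (U0 \ U1).Finite) {w : List L}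
    (hw : P.val w ∈ (⁅K, K⁆ : Subgroup G)) (hpw : ∀ z ∈ U0, z ∉ pts A w y) : run A w y = y := by
  have hLR := LR_of hA h0 h1 (h.mem_N hA) h' hfin
  obtain ⟨u, a, hu, hua⟩ := h.reach
  refine hK X A hA U0 b0 y τ h0 hLR h.mem u a (hu.mono fun z hz => hz.2) hua w hw ?_
  refine Path.of_suffix fun w' hw' => ?_
  intro h2
  exact hpw _ h2 ⟨w', hw', rfl⟩

theorem N_univ_orbit (hA : IsAct S A) (y : X) : N S A (comp A Set.univ y) = ∅ := by
  ext z
  simp only [Set.mem_empty_iff_false, iff_false]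
  rintro ⟨w, -, hz⟩
  apply hz
  have h1 : ∀ w : List L, Path A Set.univ z w := fun w => Path.of_suffix fun _ _ => trivial
  constructor
  · intro h
    exact Conn.trans h (Conn.symm hA ⟨w, h1 w, rfl⟩)
  · intro h
    exact Conn.trans h ⟨w, h1 w, rfl⟩

end Run7.h266
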