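import Pool.Agent.Run7.h266.Inf

/-!
# Long thin tubes
-/

set_option autoImplicit false

namespace Run7.h266

open Pool.Agent.H785R3.GrowthA
open scoped commutatorElement

variable {L : Type} {S : Sys L}

/-- the property of the uniform subgroup -/
def Uni {G : Type} [Group G] (P : Pres S G) (m : ℕ) (K : Subgroup G) : Prop :=
  ∀ (X : Type) (A : L → X → X), IsAct S A → ∀ (U : Set X) (b y : X) (c : Code L m),
        HasCode S c A U b → LR S c → b ∈ U → ∀ (u : List L) (a : L), Path A Uᶜ y u →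
        A a (run A u y) = b → ∀ w, P.val w ∈ (⁅K, K⁆ : Subgroup G) → Path A Uᶜ y w →
        run A w y = y

/-- the uniform subgroup inside a normal subgroup -/
theorem star' [Finite L] {G : Type} [Group G] (P : Pres S G) (Nn : Subgroup G) [hNn : Nn.Normal]
    (hcfg : ∀ K : Subgroup G, K ≤ Nn → (K.subgroupOf Nn).FiniteIndex →
      (⁅K, K⁆ : Subgroup G).FG) (m : ℕ) :
    ∃ K : Subgroup G, K ≤ Nn ∧ (K.subgroupOf Nn).FiniteIndex ∧ K.Normal ∧
      (⁅K, K⁆ : Subgroup G).FG ∧ Uni P m K := by
  classical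
  have h1 : ∀ c : Code L m, ∃ K : Subgroup G, K.Normal ∧ K.FiniteIndex ∧ (LR S c →
      ∃ E : LD S, HasCode S c E.A E.U0 E.b0 ∧ ∀ w, P.val w ∈ K →
      ∀ z ∈ E.U0 \ E.U1, run E.loop.unf w (Sum.inr ((), z)) = Sum.inr ((), z)) := by
    intro c
    by_cases h : LR S c
    · obtain ⟨E, hfin, hE⟩ := h
      obtain ⟨K, h1, h2, h3⟩ := E.exists_triv hfin P
      exact ⟨K, h1, h2, fun _ => ⟨E, hE, h3⟩⟩
    · exact ⟨⊤, inferInstance, inferInstance, fun h' => absurd h' h⟩
  choose K hK1 hK2 hK3 using h1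
  have hN : (⨅ c, K c).Normal := Subgroup.normal_iInf_normal hK1
  have hF : (⨅ c, K c).FiniteIndex := Subgroup.finiteIndex_iInf hK2
  have hN' : (Nn ⊓ ⨅ c, K c).Normal := inferInstance
  have hF' : ((Nn ⊓ ⨅ c, K c).subgroupOf Nn).FiniteIndex := by
    rw [Subgroup.inf_subgroupOf_left]
    infer_instance
  have hfg := hcfg _ inf_le_left hF'
  refine ⟨Nn ⊓ ⨅ c, K c, inf_le_left, hF', hN', hfg, ?_⟩
  intro X A hA U b y c hc hLR hb u a hu hub w hw hpw
  obtain ⟨E, hE, hE'⟩ := hK3 c hLR
  have hbN : b ∈ N S A U := by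
    have h1 : ¬ (A a (run A u y) ∈ U ↔ run A u y ∈ U) := by
      have := hu.last
      rw [Set.mem_compl_iff] at this
      rw [hub]
      tauto
    have h2 := (mem_N_of_step hA h1).2
    rwa [hub] at h2
  obtain ⟨e, he, he'⟩ := hE.iso hc E.b0_mem hbN
  refine E.fix P _ hN' ?_ hfg hA e he' hu hub hb hw hpw
  intro w hw z hz
  exact hE' w (iInf_le K c hw.2) z hz

variable {X : Type} {A : L → X → X}

/-- nested connected sites, the last of which is not empty: the elements of `⁅K, K⁆` fix the points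
outside -/
theorem tube_fix [Finite L] {G : Type} [Group G] (P : Pres S G) {m : ℕ} (hm : 0 < m)
    {K : Subgroup G} (hK : Uni P m K) (hA : IsAct S A) (hX : ∀ z z' : X, Conn A Set.univ z z')
    {w : List L} (hw : P.val w ∈ (⁅K, K⁆ : Subgroup G)) {C : ℕ → Set X} {L0 : ℕ}
    (hsub : ∀ i < L0, C (i + 1) ⊆ C i)
    (hconn : ∀ i ≤ L0, ∀ z ∈ C i, ∀ z' ∈ C i, Conn A (C i) z z')
    (hN : ∀ i ≤ L0, (N S A (C i)).encard ≤ m)
    (hdisj : ∀ i < L0, ∀ z ∈ N S A (C (i + 1)), z ∉ N S A (C i))
    (hfin : ∀ i < L0, (C i \ C (i + 1)).Finite) (hne : (C L0).Nonempty) {y : X} (hy : y ∉ C 0)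
    (hL : w.length + Nat.card (Code L m) + 1 ≤ L0) : run A w y = y := by
  classical
  have hmono : ∀ i j, i ≤ j → j ≤ L0 → C j ⊆ C i := by
    intro i j hij
    induction j, hij using Nat.le_induction with
    | base => exact fun _ => subset_rfl
    | succ j hij ih => exact fun hj => (hsub j (by omega)).trans (ih (by omega))
  have hfin' : ∀ i j, i ≤ j → j ≤ L0 → (C i \ C j).Finite := by
    intro i j hij
    induction j, hij using Nat.le_induction with
    | base => exact fun _ => by simp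
    | succ j hij ih =>
      intro hj
      refine ((ih (by omega)).union (hfin j (by omega))).subset ?_
      intro z hz
      by_cases h : z ∈ C j
      · exact Or.inr ⟨h, hz.2⟩
      · exact Or.inl ⟨hz.1, h⟩
  have hnei : ∀ i ≤ L0, (C i).Nonempty := fun i hi => hne.mono (hmono i L0 hi le_rfl)
  -- the distance from `y`
  have hdist : ∀ (w' : List L) (j : ℕ), j ≤ L0 → run A w' y ∈ C j → j + 1 ≤ w'.length := by
    intro w'
    induction w' with
    | nil =>
      intro j hj h
      exact absurd (hmono 0 j (Nat.zero_le _) hj h) hy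
    | cons a w' ih =>
      intro j hj h
      rw [List.length_cons]
      rcases j with _ | j
      · omega
      · have h1 : run A w' y ∈ C j := by
          by_contra h2
          have h3 : run A w' y ∉ C (j + 1) := fun h4 => h2 (hsub j (by omega) h4)
          rw [run_cons] at h
          have h5 : A a (run A w' y) ∈ C j := hsub j (by omega) h
          exact hdisj j (by omega) _ (mem_N_of_step hA (U := C (j + 1)) (by tauto)).1
            (mem_N_of_step hA (U := C j) (a := a) (by tauto)).1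
        have := ih j (by omega) h1
        omega
  -- the base points
  have hnext : ∀ i, i < L0 → ∀ e ∈ C i, ∃ c, SubS S A (C i) e (C (i + 1)) c ∨ e ∈ C (i + 1) := by
    intro i hi e he
    by_cases he' : e ∈ C (i + 1)
    · exact ⟨e, Or.inr he'⟩
    · obtain ⟨z, hz⟩ := hnei (i + 1) (by omega)
      obtain ⟨u, a, h1, h2, -⟩ := (hconn i (by omega) e he z (hsub i hi hz)).entry he' hz
      exact ⟨_, Or.inl ⟨hsub i hi, hdisj i hi, h2, u, a, h1, rfl⟩⟩
  choose! nx hnx using hnext
  set i0 := w.length with hi0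
  obtain ⟨z0, hz0⟩ := hnei i0 (by omega)
  have hyi : y ∉ C i0 := fun h => hy (hmono 0 i0 (Nat.zero_le _) (by omega) h)
  obtain ⟨u0, a0, h1, h2, -⟩ := (hX y z0).entry hyi hz0
  set b0 := A a0 (run A u0 y) with hb0
  have hS0 : SubS S A Set.univ y (C i0) b0 := by
    refine ⟨Set.subset_univ _, fun z _ hz => ?_, h2, u0, a0, h1, rfl⟩
    obtain ⟨v, -, hv⟩ := hz
    exact hv (by simp)
  let b : ℕ → X := fun k => Nat.rec b0 (fun k e => nx (i0 + k) e) k
  have hb : ∀ k, i0 + k ≤ L0 → b k ∈ N S A (C (i0 + k)) ∧ b k ∈ C (i0 + k) := by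
    intro k
    induction k with
    | zero => exact fun _ => ⟨hS0.mem_N hA, hS0.mem⟩
    | succ k ih =>
      intro hk
      obtain ⟨h3, h4⟩ := ih (by omega)
      have h5 : b k ∉ C (i0 + k + 1) := by
        intro h6
        -- a point of the collar of `C (i0 + k)` inside `C (i0 + k + 1)`
        obtain ⟨v, hv, hvz⟩ := h3
        refine hdisj (i0 + k) (by omega) (b k) ⟨v, hv, ?_⟩ ⟨v, hv, hvz⟩
        have h7 : run A v (b k) ∉ C (i0 + k) := by tauto
        have h8 : run A v (b k) ∉ C (i0 + k + 1) := fun h9 => h7 (hsub _ (by omega) h9)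
        tauto
      rcases hnx (i0 + k) (by omega) (b k) h4 with h6 | h6
      · exact ⟨h6.mem_N hA, h6.mem⟩
      · exact absurd h6 h5
  have hbS : ∀ k, i0 + k + 1 ≤ L0 → SubS S A (C (i0 + k)) (b k) (C (i0 + k + 1)) (b (k + 1)) := by
    intro k hk
    obtain ⟨h3, h4⟩ := hb k (by omega)
    rcases hnx (i0 + k) (by omega) (b k) h4 with h6 | h6
    · exact h6
    · exfalso
      obtain ⟨v, hv, hvz⟩ := h3
      refine hdisj (i0 + k) (by omega) (b k) ⟨v, hv, ?_⟩ ⟨v, hv, hvz⟩
      have h7 : run A v (b k) ∉ C (i0 + k) := by tauto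
      have h8 : run A v (b k) ∉ C (i0 + k + 1) := fun h9 => h7 (hsub _ (by omega) h9)
      tauto
  have hbS' : ∀ k k', k < k' → i0 + k' ≤ L0 →
      SubS S A (C (i0 + k)) (b k) (C (i0 + k')) (b k') := by
    intro k k' hkk
    induction k', hkk using Nat.le_induction with
    | base => exact fun h => hbS k h
    | succ k' hkk ih => exact fun h => (ih (by omega)).trans (hbS k' h)
  -- pigeonhole
  have hcode : ∀ k : Fin (Nat.card (Code L m) + 1), ∃ τ : Code L m,
      HasCode S τ A (C (i0 + k)) (b k) := fun k =>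
    exists_code A _ _ hm (hN _ (by omega))
  choose τ hτ using hcode
  obtain ⟨k, k', hkk, hττ⟩ : ∃ k k' : Fin (Nat.card (Code L m) + 1), k < k' ∧ τ k = τ k' := by
    have : Fintype (Code L m) := Fintype.ofFinite _
    obtain ⟨k, k', h3, h4⟩ := Fintype.exists_ne_map_eq_of_card_lt τ (by
      rw [Fintype.card_fin, Nat.card_eq_fintype_card]
      omega)
    rcases lt_or_gt_of_ne h3 with h5 | h5
    · exact ⟨k, k', h5, h4⟩
    · exact ⟨k', k, h5, h4.symm⟩
  have hkb : (k' : ℕ) ≤ Nat.card (Code L m) := by omega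
  have hsubk : SubS S A Set.univ y (C (i0 + k)) (b k) := by
    rcases Nat.eq_zero_or_pos (k : ℕ) with h3 | h3
    · rw [h3]
      exact hS0
    · exact hS0.trans (hbS' 0 k h3 (by omega))
  refine fix_of P hK hA hsubk (hbS' k k' hkk (by omega)) (hτ k) (hττ ▸ hτ k')
    (hfin' _ _ (by omega) (by omega)) hw ?_
  rintro z hz ⟨w', hw', rfl⟩
  have h3 := hdist w' i0 (by omega) (hmono i0 (i0 + k) (by omega) (by omega) hz)
  have h4 := hw'.length_le
  omega

/-- from nested sets to nested connected sets with finite differences -/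
theorem tube_conn (hA : IsAct S A) (hX : ∀ z z' : X, Conn A Set.univ z z') {m : ℕ} {U : ℕ → Set X}
    {L0 : ℕ} (hsub : ∀ i < (m + 1) * L0, U (i + 1) ⊆ U i)
    (hN : ∀ i ≤ (m + 1) * L0, (N S A (U i)).encard ≤ m)
    (hdisj : ∀ i < (m + 1) * L0, ∀ z ∈ N S A (U (i + 1)), z ∉ N S A (U i))
    (hfin : ∀ i < (m + 1) * L0, (U i \ U (i + 1)).Finite) {z : X} (hz : z ∈ U ((m + 1) * L0))
    {y : X} (hy : y ∉ U 0) :
    ∃ C : ℕ → Set X, (∀ i < L0, C (i + 1) ⊆ C i) ∧
      (∀ i ≤ L0, ∀ z ∈ C i, ∀ z' ∈ C i, Conn A (C i) z z') ∧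
      (∀ i ≤ L0, (N S A (C i)).encard ≤ m) ∧
      (∀ i < L0, ∀ z ∈ N S A (C (i + 1)), z ∉ N S A (C i)) ∧
      (∀ i < L0, (C i \ C (i + 1)).Finite) ∧ (C L0).Nonempty ∧ y ∉ C 0 := by
  classical
  set LL := (m + 1) * L0 with hLL
  have hmono : ∀ i j, i ≤ j → j ≤ LL → U j ⊆ U i := by
    intro i j hij
    induction j, hij using Nat.le_induction with
    | base => exact fun _ => subset_rfl
    | succ j hij ih => exact fun hj => (hsub j (by omega)).trans (ih (by omega))
  have hfin' : ∀ i j, i ≤ j → j ≤ LL → (U i \ U j).Finite := by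
    intro i j hij
    induction j, hij using Nat.le_induction with
    | base => exact fun _ => by simp
    | succ j hij ih =>
      intro hj
      refine ((ih (by omega)).union (hfin j (by omega))).subset ?_
      intro z hz
      by_cases h : z ∈ U j
      · exact Or.inr ⟨h, hz.2⟩
      · exact Or.inl ⟨hz.1, h⟩
  let D : ℕ → Set X := fun i => comp A (U i) z
  have hzi : ∀ i ≤ LL, z ∈ U i := fun i hi => hmono i LL hi le_rfl hz
  have hDsub : ∀ i j, i ≤ j → j ≤ LL → D j ⊆ D i := fun i j hij hj x hx =>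
    Conn.mono hx (hmono i j hij hj)
  -- a good block
  obtain ⟨a, ha, hgood⟩ : ∃ a ≤ m, ∀ i, a * L0 ≤ i → i < (a + 1) * L0 →
      ∀ x ∈ D i, x ∉ D (i + 1) → x ∉ U LL := by
    by_contra hcon
    push Not at hcon
    have h1 : ∀ a : Fin (m + 1), ∃ i, a * L0 ≤ i ∧ i < (a + 1) * L0 ∧ ∃ p ∈ N S A (U LL),
        p ∈ D i ∧ p ∉ D (i + 1) := by
      intro a
      obtain ⟨i, h1, h2, x, hx, hx', hxU⟩ := hcon a (by omega)
      have h3 : (a + 1) * L0 ≤ LL := Nat.mul_le_mul_right _ (by omega)
      refine ⟨i, h1, h2, ?_⟩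
      -- a point of the collar in the component of `x`
      have hyU : y ∉ U LL := fun h => hy (hmono 0 LL (Nat.zero_le _) le_rfl h)
      obtain ⟨u, b, h4, h5, -⟩ := (hX x y).entry (C := (U LL)ᶜ) (by simpa using hxU) hyU
      have h6 : Path A (U LL) x u := h4.mono fun p hp => by
        have := hp.2
        simpa using this
      refine ⟨run A u x, (mem_N_of_step hA (a := b) ?_).1, ?_, ?_⟩
      · have := h6.last
        rw [Set.mem_compl_iff] at h5
        tauto
      · exact Conn.trans hx ⟨u, h6.mono (hmono i LL (by omega) le_rfl), rfl⟩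
      · intro h7
        apply hx'
        have h8 : Conn A (U (i + 1)) x (run A u x) :=
          ⟨u, h6.mono (hmono (i + 1) LL (by omega) le_rfl), rfl⟩
        exact Conn.trans h7 (h8.symm hA)
    choose i hi1 hi2 p hp hpD hpD' using h1
    have hinj : Function.Injective p := by
      intro a a' haa
      by_contra hne
      have key : ∀ a a' : Fin (m + 1), a < a' → p a = p a' → False := by
        intro a a' hlt haa
        have h2 : (a + 1) * L0 ≤ a' * L0 := Nat.mul_le_mul_right _ (by omega)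
        have h3 : i a + 1 ≤ i a' := by
          have := hi1 a'
          have := hi2 a
          omega
        have h4 : (a' + 1) * L0 ≤ LL := Nat.mul_le_mul_right _ (by omega)
        have h5 := hDsub (i a + 1) (i a') h3 (by have := hi2 a'; omega) (hpD a')
        rw [← haa] at h5
        exact hpD' a h5
      rcases lt_or_gt_of_ne hne with h2 | h2
      · exact key a a' h2 haa
      · exact key a' a h2 haa.symm
    have h2 : (Set.range p).encard ≤ m :=
      (Set.encard_le_encard (Set.range_subset_iff.2 hp)).trans (hN LL le_rfl)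
    have h3 : (Set.range p).encard = (m + 1 : ℕ) := by
      rw [← Set.image_univ, hinj.encard_image, Set.encard_univ]
      simp
    rw [h3] at h2
    have : m + 1 ≤ m := by exact_mod_cast h2
    omega
  have haL : (a + 1) * L0 ≤ LL := Nat.mul_le_mul_right _ (by omega)
  have haL' : a * L0 + L0 = (a + 1) * L0 := by ring
  refine ⟨fun i => D (a * L0 + i), fun i hi => hDsub _ _ (by omega) (by omega), ?_, ?_, ?_, ?_,
    ?_, ?_⟩
  · intro i hi x hx x' hx'
    exact comp_conn hA hx hx'
  · intro i hi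
    exact (Set.encard_le_encard (N_comp hA _ _)).trans (hN _ (by omega))
  · intro i hi x hx hx'
    exact hdisj (a * L0 + i) (by omega) x (N_comp hA _ _ hx) (N_comp hA _ _ hx')
  · intro i hi
    refine (hfin' (a * L0 + i) LL (by omega) le_rfl).subset ?_
    rintro x ⟨hx, hx'⟩
    exact ⟨comp_sub hx, hgood _ (by omega) (by omega) x hx hx'⟩
  · exact ⟨z, Conn.refl (hzi _ (by omega))⟩
  · intro h
    exact hy (hmono 0 _ (Nat.zero_le _) (by omega) (comp_sub h))

end Run7.h266
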