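import Pool.Agent.Run7.h266.Code

/-!
# Unfolding

Copies of the piece `U0 \ ⋃ U i` are glued along a rooted tree, the root piece being attached to the
complement of `Ut`.
-/

set_option autoImplicit false

namespace Run7.h266

variable {L : Type}

/-- the blocks of the ambient space -/
def blkT {Xt X ι J : Type} (Ft : Set Xt) (F : ι → Set X) : Option (ι × J) → Set (Xt ⊕ J × X)
  | none => Sum.inl '' Ft
  | some (i, j) => (fun z => Sum.inr (j, z)) '' F i

def blk {Xt X ι J : Type} (par : J → Option (ι × J)) (Ft : Set Xt) (F0 : Set X) (F : ι → Set X)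
    (j : J) : Bool → Set (Xt ⊕ J × X)
  | false => (fun z => Sum.inr (j, z)) '' F0
  | true => blkT Ft F (par j)

theorem blk_disj {Xt X ι J : Type} {par : J → Option (ι × J)} (hp : Function.Injective par)
    {Ft : Set Xt} {F0 : Set X} {F : ι → Set X} (h0 : ∀ i, ∀ z ∈ F i, z ∉ F0)
    (h : ∀ i j, i ≠ j → ∀ z ∈ F i, z ∉ F j) (j : J) (b : Bool) (j' : J) (b' : Bool)
    (hne : (j, b) ≠ (j', b')) (z : Xt ⊕ J × X) (hz : z ∈ blk par Ft F0 F j b) :
    z ∉ blk par Ft F0 F j' b' := by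
  have hT : ∀ (o : Option (ι × J)) (k : J) (z : Xt ⊕ J × X), z ∈ blkT Ft F o →
      z ∉ (fun z => Sum.inr (k, z) : X → Xt ⊕ J × X) '' F0 := by
    intro o k z hz
    rcases o with _ | ⟨i, j1⟩
    · obtain ⟨x, -, rfl⟩ := hz
      rintro ⟨y, -, hy⟩
      simp at hy
    · obtain ⟨x, hx, rfl⟩ := hz
      rintro ⟨y, hy, hyx⟩
      simp only [Sum.inr.injEq, Prod.mk.injEq] at hyx
      rw [hyx.2] at hy
      exact h0 i x hx hy
  rcases b with _ | _ <;> rcases b' with _ | _
  · have hjj : j ≠ j' := fun h => hne (by rw [h])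
    obtain ⟨x, -, rfl⟩ := hz
    rintro ⟨y, -, hy⟩
    simp only [Sum.inr.injEq, Prod.mk.injEq] at hy
    exact hjj hy.1.symm
  · intro hz'
    exact hT _ _ _ hz' hz
  · exact hT _ _ _ hz
  · have hjj : par j ≠ par j' := fun h => hne (by rw [hp h])
    intro hz'
    change z ∈ blkT Ft F (par j) at hz
    change z ∈ blkT Ft F (par j') at hz'
    generalize par j = o at hjj hz
    generalize par j' = o' at hjj hz'
    rcases o with _ | ⟨i, j1⟩ <;> rcases o' with _ | ⟨i', j1'⟩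
    · exact hjj rfl
    · obtain ⟨x, -, rfl⟩ := hz
      obtain ⟨y, -, hy⟩ := hz'
      simp at hy
    · obtain ⟨x, -, rfl⟩ := hz
      obtain ⟨y, -, hy⟩ := hz'
      simp at hy
    · obtain ⟨x, hx, rfl⟩ := hz
      obtain ⟨y, hy, hyx⟩ := hz'
      simp only [Sum.inr.injEq, Prod.mk.injEq] at hyx
      obtain ⟨rfl, rfl⟩ := hyx
      have hii : i ≠ i' := fun h => hjj (by rw [h])
      exact h i i' hii _ hx hy

/-- the data of an unfolding -/
structure UD (S : Sys L) where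
  Xt : Type
  X : Type
  ι : Type
  J : Type
  nt : Nonempty Xt
  nx : Nonempty X
  At : L → Xt → Xt
  A : L → X → X
  actT : IsAct S At
  act : IsAct S A
  Ut : Set Xt
  U0 : Set X
  U : ι → Set X
  par : J → Option (ι × J)
  κ : ι → J → J
  parinj : Function.Injective par
  parκ : ∀ i j, par (κ i j) = some (i, j)
  e0 : Iso S A U0 At Ut
  e : ∀ i, Iso S A U0 A (U i)
  sub : ∀ i, U i ⊆ U0
  disj0 : ∀ i, ∀ z ∈ N S A (U i), z ∉ N S A U0
  disj : ∀ i j, i ≠ j → ∀ z ∈ U i, z ∉ U j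
  disjN : ∀ i j, i ≠ j → ∀ z ∈ N S A (U i), z ∉ N S A (U j)

namespace UD

variable {S : Sys L} (D : UD S)

instance : Nonempty D.Xt := D.nt
instance : Nonempty D.X := D.nx

/-- the ambient space -/
abbrev Z : Type := D.Xt ⊕ D.J × D.X

/-- the ambient action -/
def amb (a : L) : D.Z → D.Z
  | Sum.inl z => Sum.inl (D.At a z)
  | Sum.inr (j, z) => Sum.inr (j, D.A a z)

theorem run_amb_inl (w : List L) (z : D.Xt) :
    run D.amb w (Sum.inl z) = Sum.inl (run D.At w z) :=
  run_embed (h := Sum.inl) (fun _ _ => rfl) w z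

theorem run_amb_inr (w : List L) (j : D.J) (z : D.X) :
    run D.amb w (Sum.inr (j, z)) = Sum.inr (j, run D.A w z) :=
  run_embed (h := fun z => Sum.inr (j, z)) (fun _ _ => rfl) w z

theorem amb_act : IsAct S D.amb := by
  rintro w hw (z | ⟨j, z⟩)
  · rw [run_amb_inl, D.actT w hw z]
  · rw [run_amb_inr, D.act w hw z]

theorem inr_inj (j : D.J) : Function.Injective (fun z => Sum.inr (j, z) : D.X → D.Z) := by
  intro z z' h
  simpa using h

/-- inclusion of a piece, on the side of `U0` -/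
noncomputable def eF (j : D.J) :
    Iso S D.A D.U0 D.amb (((fun z => Sum.inr (j, z) : D.X → D.Z) '' (D.U0)ᶜ)ᶜ) :=
  Iso.embed (fun z => Sum.inr (j, z)) (D.inr_inj j) (fun _ _ => rfl) D.U0 _
    (N_embed' D.amb_act (D.inr_inj j) (fun _ _ => rfl) D.U0) (fun x => by
      rw [Set.mem_compl_iff, (D.inr_inj j).mem_set_image, Set.mem_compl_iff, not_not])

noncomputable def eT : ∀ o : Option (D.ι × D.J), Iso S D.A D.U0 D.amb (blkT D.Ut D.U o)
  | none => D.e0.trans (Iso.embed Sum.inl Sum.inl_injective (fun _ _ => rfl) D.Ut _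
      (N_embed D.amb_act Sum.inl_injective (fun _ _ => rfl) D.Ut)
      (fun x => by
        show Sum.inl x ∈ Sum.inl '' D.Ut ↔ x ∈ D.Ut
        rw [Sum.inl_injective.mem_set_image]))
  | some (i, j) => (D.e i).trans (Iso.embed (fun z => Sum.inr (j, z)) (D.inr_inj j)
      (fun _ _ => rfl) (D.U i) _
      (N_embed D.amb_act (D.inr_inj j) (fun _ _ => rfl) (D.U i))
      (fun x => by
        show (fun z => Sum.inr (j, z) : D.X → D.Z) x ∈
          (fun z => Sum.inr (j, z) : D.X → D.Z) '' D.U i ↔ x ∈ D.U i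
        rw [(D.inr_inj j).mem_set_image]))

theorem N_blk (j : D.J) (b : Bool) : N S D.amb (blk D.par D.Ut (D.U0)ᶜ D.U j b) =
    blk D.par (N S D.At D.Ut) (N S D.A D.U0) (fun i => N S D.A (D.U i)) j b := by
  rcases b with _ | _
  · show N S D.amb ((fun z => Sum.inr (j, z) : D.X → D.Z) '' (D.U0)ᶜ) =
      (fun z => Sum.inr (j, z) : D.X → D.Z) '' N S D.A D.U0
    rw [N_embed D.amb_act (D.inr_inj j) (fun _ _ => rfl), N_compl]
  · show N S D.amb (blkT D.Ut D.U (D.par j)) =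
      blkT (N S D.At D.Ut) (fun i => N S D.A (D.U i)) (D.par j)
    generalize D.par j = o
    rcases o with _ | ⟨i, j1⟩
    · exact N_embed D.amb_act Sum.inl_injective (fun _ _ => rfl) D.Ut
    · exact N_embed D.amb_act (D.inr_inj j1) (fun _ _ => rfl) (D.U i)

noncomputable def glue : Glue S D.amb D.J where
  act := D.amb_act
  B := blk D.par D.Ut (D.U0)ᶜ D.U
  e := fun j => (D.eF j).symm.trans (D.eT (D.par j))
  disj := fun j b j' b' hne z hz => blk_disj D.parinj
    (fun i z hz (hz' : z ∈ (D.U0)ᶜ) => hz' (D.sub i hz)) D.disj j b j' b' hne z hz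
  disjN := fun j b j' b' hne z hz => by
    rw [N_blk] at hz ⊢
    exact blk_disj D.parinj D.disj0 D.disjN j b j' b' hne z hz

/-- the unfolded action -/
noncomputable def unf : L → D.Z → D.Z := D.glue.act'

theorem unf_act : IsAct S D.unf := D.glue.isAct'

/-- the piece -/
def M : Set D.X := {z | z ∈ D.U0 ∧ ∀ i, z ∉ D.U i}

theorem mem_Q_inl {z : D.Xt} (hz : z ∉ D.Ut) : (Sum.inl z : D.Z) ∈ D.glue.Q := by
  rintro j (_ | _) h
  · obtain ⟨x, -, hx⟩ := h
    simp at hx
  · change _ ∈ blkT D.Ut D.U (D.par j) at h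
    generalize D.par j = o at h
    rcases o with _ | ⟨i, j1⟩
    · obtain ⟨x, hx, hxz⟩ := h
      simp only [Sum.inl.injEq] at hxz
      rw [hxz] at hx
      exact hz hx
    · obtain ⟨x, -, hx⟩ := h
      simp at hx

theorem mem_Q_inr {j : D.J} {z : D.X} (hz : z ∈ D.M) : (Sum.inr (j, z) : D.Z) ∈ D.glue.Q := by
  rintro j (_ | _) h
  · obtain ⟨x, hx, hxz⟩ := h
    simp only [Sum.inr.injEq, Prod.mk.injEq] at hxz
    rw [hxz.2] at hx
    exact hx hz.1
  · change _ ∈ blkT D.Ut D.U (D.par j) at h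
    generalize D.par j = o at h
    rcases o with _ | ⟨i, j1⟩
    · obtain ⟨x, -, hx⟩ := h
      simp at hx
    · obtain ⟨x, hx, hxz⟩ := h
      simp only [Sum.inr.injEq, Prod.mk.injEq] at hxz
      rw [hxz.2] at hx
      exact hz.2 i hx

theorem unf_inl {a : L} {z : D.Xt} (hz : z ∉ D.Ut) (hz' : D.At a z ∉ D.Ut) :
    D.unf a (Sum.inl z) = Sum.inl (D.At a z) :=
  D.glue.act'_of_Q a (D.mem_Q_inl hz) (D.mem_Q_inl hz')

theorem unf_inr {a : L} {j : D.J} {z : D.X} (hz : z ∈ D.M) (hz' : D.A a z ∈ D.M) :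
    D.unf a (Sum.inr (j, z)) = Sum.inr (j, D.A a z) :=
  D.glue.act'_of_Q a (D.mem_Q_inr hz) (D.mem_Q_inr hz')

theorem eF_g (j : D.J) (z : D.X) : (D.eF j).g (Sum.inr (j, z)) = z :=
  Function.leftInverse_invFun (D.inr_inj j) z

/-- entering the root piece -/
theorem unf_in {a : L} {z : D.Xt} (hz : z ∉ D.Ut) (hz' : D.At a z ∈ D.Ut) {j : D.J}
    (hj : D.par j = none) : D.unf a (Sum.inl z) = Sum.inr (j, D.e0.g (D.At a z)) := by
  have h1 : D.amb a (Sum.inl z) ∈ D.glue.B j true := by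
    show _ ∈ blkT D.Ut D.U (D.par j)
    rw [hj]
    exact ⟨_, hz', rfl⟩
  refine (D.glue.act'_of_mem a (D.mem_Q_inl hz) h1).trans ?_
  show Sum.inr (j, (D.eT (D.par j)).g (Sum.inl (D.At a z))) = _
  rw [hj]
  show Sum.inr (j, D.e0.g (Function.invFun Sum.inl (Sum.inl (D.At a z)))) = _
  rw [Function.leftInverse_invFun Sum.inl_injective]

/-- entering a child piece -/
theorem unf_down {a : L} {i : D.ι} {j : D.J} {z : D.X} (hz : z ∈ D.M) (hz' : D.A a z ∈ D.U i) :
    D.unf a (Sum.inr (j, z)) = Sum.inr (D.κ i j, (D.e i).g (D.A a z)) := by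
  have h1 : D.amb a (Sum.inr (j, z)) ∈ D.glue.B (D.κ i j) true := by
    show _ ∈ blkT D.Ut D.U (D.par (D.κ i j))
    rw [D.parκ]
    exact ⟨_, hz', rfl⟩
  refine (D.glue.act'_of_mem a (D.mem_Q_inr hz) h1).trans ?_
  show Sum.inr (D.κ i j, (D.eT (D.par (D.κ i j))).g (Sum.inr (j, D.A a z))) = _
  rw [D.parκ]
  show Sum.inr (D.κ i j, (D.e i).g (Function.invFun _ _)) = _
  rw [Function.leftInverse_invFun (D.inr_inj j)]

/-- going up to the parent piece -/
theorem unf_up {a : L} {i : D.ι} {j j' : D.J} {z : D.X} (hz : z ∈ D.M) (hz' : D.A a z ∉ D.U0)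
    (hj : D.par j = some (i, j')) :
    D.unf a (Sum.inr (j, z)) = Sum.inr (j', (D.e i).f (D.A a z)) := by
  have h1 : D.amb a (Sum.inr (j, z)) ∈ D.glue.B j false := ⟨_, hz', rfl⟩
  refine (D.glue.act'_of_mem a (D.mem_Q_inr hz) h1).trans ?_
  show (D.eT (D.par j)).f ((D.eF j).g (Sum.inr (j, D.A a z))) = _
  rw [D.eF_g, hj]
  rfl

theorem run_inl {z : D.Xt} {w : List L} (h : Path D.At (D.Ut)ᶜ z w) :
    run D.unf w (Sum.inl z) = Sum.inl (run D.At w z) := by
  induction h with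
  | nil h => rfl
  | cons a h1 h2 ih => rw [run_cons, run_cons, ih, D.unf_inl h1.last h2]

theorem run_inr {j : D.J} {z : D.X} {w : List L} (h : Path D.A D.M z w) :
    run D.unf w (Sum.inr (j, z)) = Sum.inr (j, run D.A w z) := by
  induction h with
  | nil h => rfl
  | cons a h1 h2 ih => rw [run_cons, run_cons, ih, D.unf_inr h1.last h2]

end UD

end Run7.h266
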