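import Pool.Agent.Run7.h266.MeanW

/-!
# Subgroups with a normalizer of finite index
-/

set_option autoImplicit false

namespace Run7.h266

open scoped Pointwise

variable {G : Type} [Group G] {Ω : Type} [MulAction G Ω]

/-- orbits of a subgroup at translates by the normalizer -/
theorem orbit_smul_le {L : Subgroup G} {k : G} (hk : k ∈ Subgroup.normalizer (L : Set G)) (x : Ω) :
    (MulAction.orbit L (k • x)).encard ≤ (MulAction.orbit L x).encard := by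
  have h1 : MulAction.orbit L (k • x) ⊆ (fun y => k • y) '' MulAction.orbit L x := by
    rintro _ ⟨⟨l, hl⟩, rfl⟩
    have h2 : k⁻¹ * l * k ∈ L := (Subgroup.mem_normalizer_iff''.1 hk l).1 hl
    refine ⟨(⟨k⁻¹ * l * k, h2⟩ : L) • x, ⟨_, rfl⟩, ?_⟩
    show k • ((k⁻¹ * l * k) • x) = l • k • x
    rw [smul_smul, smul_smul]
    congr 1
    group
  exact (Set.encard_le_encard h1).trans (Set.encard_image_le _ _)

/-- short representatives of cosets -/
theorem short_cosets {S0 : Set G} (hS : Subgroup.closure S0 = ⊤) (K : Subgroup G)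
    (hK : K.FiniteIndex) :
    ∃ d : ℕ, 1 ≤ d ∧ ∀ g : G, ∃ h ∈ ((S0 ∪ S0⁻¹ ∪ {1}) ^ d : Set G), h * g ∈ K := by
  classical
  have : Finite (G ⧸ K) := inferInstance
  have : Fintype (G ⧸ K) := Fintype.ofFinite _
  choose k hk using fun g : G => mem_gens_pow hS g
  let r : G ⧸ K → G := Quotient.out
  have h1 : (1 : G) ∈ S0 ∪ S0⁻¹ ∪ {1} := Or.inr rfl
  refine ⟨Finset.univ.sup (fun q => k (r q)⁻¹) + 1, by omega, fun g => ⟨(r (g : G ⧸ K))⁻¹, ?_, ?_⟩⟩
  · refine Set.pow_subset_pow_right h1 ?_ (hk _)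
    exact (Finset.le_sup (f := fun q => k (r q)⁻¹) (Finset.mem_univ (g : G ⧸ K))).trans
      (Nat.le_succ _)
  · rw [← QuotientGroup.eq]
    exact Quotient.out_eq _

/-- exponential growth -/
theorem vn_growth {S0 : Set G} (hfin : S0.Finite) {K : Subgroup G} {d : ℕ} (hd : 1 ≤ d)
    (hcos : ∀ g : G, ∃ h ∈ ((S0 ∪ S0⁻¹ ∪ {1}) ^ d : Set G), h * g ∈ K) {C : ℕ} {Big : Set Ω}
    (hI : Isop S0 C Big) (hB : ∀ k ∈ K, ∀ y ∈ Big, k • y ∈ Big) {x : Ω} (hx : x ∈ Big) (j : ℕ) :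
    (C * ((S0 ∪ S0⁻¹ ∪ {1}) ^ d : Set G).ncard + 1) ^ j ≤
      (C * ((S0 ∪ S0⁻¹ ∪ {1}) ^ d : Set G).ncard) ^ j * (Bl S0 (d * j) x).ncard := by
  classical
  set b := ((S0 ∪ S0⁻¹ ∪ {1}) ^ d : Set G).ncard with hb
  have hdf := gens_pow_finite hfin d
  have h1 : ∀ n, (Bl S0 n x).ncard ≤ b * {y | y ∈ Bl S0 (n + d) x ∧ y ∈ Big}.ncard := by
    intro n
    have hfB : {y | y ∈ Bl S0 (n + d) x ∧ y ∈ Big}.Finite :=
      (bl_finite hfin (n + d) x).subset fun y hy => hy.1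
    have hsub : Bl S0 n x ⊆ ((S0 ∪ S0⁻¹ ∪ {1}) ^ d : Set G)⁻¹ •
        {y | y ∈ Bl S0 (n + d) x ∧ y ∈ Big} := by
      rintro _ ⟨g, hg, rfl⟩
      obtain ⟨h, hh, hhg⟩ := hcos g
      refine Set.mem_smul.2 ⟨h⁻¹, by simpa using hh, h • g • x, ⟨?_, ?_⟩, by
        rw [inv_smul_smul]⟩
      · refine ⟨h * g, ?_, mul_smul _ _ _⟩
        rw [add_comm, pow_add]
        exact Set.mul_mem_mul hh hg
      · rw [smul_smul]
        exact hB _ hhg x hx
    calc (Bl S0 n x).ncard ≤ (((S0 ∪ S0⁻¹ ∪ {1}) ^ d : Set G)⁻¹ •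
          {y | y ∈ Bl S0 (n + d) x ∧ y ∈ Big}).ncard :=
          Set.ncard_le_ncard hsub (hdf.inv.smul hfB)
      _ ≤ (((S0 ∪ S0⁻¹ ∪ {1}) ^ d : Set G)⁻¹).ncard *
          {y | y ∈ Bl S0 (n + d) x ∧ y ∈ Big}.ncard := by
          rw [← Set.image2_smul]
          have h2 : Set.image2 (fun (g : G) (y : Ω) => g • y)
              ((S0 ∪ S0⁻¹ ∪ {1}) ^ d : Set G)⁻¹ {y | y ∈ Bl S0 (n + d) x ∧ y ∈ Big} =
              (fun p : G × Ω => p.1 • p.2) '' (((S0 ∪ S0⁻¹ ∪ {1}) ^ d : Set G)⁻¹ ×ˢ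
                {y | y ∈ Bl S0 (n + d) x ∧ y ∈ Big}) := (Set.image_prod _).symm
          have h3 : Set.image2 (fun (g : G) (y : Ω) => g • y)
              ((S0 ∪ S0⁻¹ ∪ {1}) ^ d : Set G)⁻¹ {y | y ∈ Bl S0 (n + d) x ∧ y ∈ Big} =
              Set.image2 (· • ·) ((S0 ∪ S0⁻¹ ∪ {1}) ^ d : Set G)⁻¹
                {y | y ∈ Bl S0 (n + d) x ∧ y ∈ Big} := rfl
          rw [← h3, h2]
          refine (Set.ncard_image_le (hdf.inv.prod hfB)).trans ?_
          rw [Set.ncard_prod]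
      _ = b * {y | y ∈ Bl S0 (n + d) x ∧ y ∈ Big}.ncard := by
          rw [hb, Set.ncard_inv]
  have h2 : ∀ n, (C * b + 1) * (Bl S0 n x).ncard ≤ C * b * (Bl S0 (n + d) x).ncard := by
    intro n
    obtain ⟨e, rfl⟩ : ∃ e, d = e + 1 := ⟨d - 1, by omega⟩
    have h3 := grow hfin hI (Set.finite_singleton x) (n + e)
    rw [nbh_singleton, nbh_singleton] at h3
    have h4 := h1 n
    have h5 : (Bl S0 n x).ncard ≤ (Bl S0 (n + e) x).ncard :=
      Set.ncard_le_ncard (bl_mono (by omega)) (bl_finite hfin _ x)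
    calc (C * b + 1) * (Bl S0 n x).ncard
        = b * (C * (Bl S0 n x).ncard) + (Bl S0 n x).ncard := by ring
      _ ≤ b * (C * (Bl S0 (n + e) x).ncard) +
          b * {y | y ∈ Bl S0 (n + (e + 1)) x ∧ y ∈ Big}.ncard :=
          Nat.add_le_add (Nat.mul_le_mul_left _ (Nat.mul_le_mul_left _ h5)) h4
      _ = b * ({y | y ∈ Bl S0 (n + e + 1) x ∧ y ∈ Big}.ncard + C * (Bl S0 (n + e) x).ncard) := by
          rw [add_assoc n e 1]; ring
      _ ≤ b * (C * (Bl S0 (n + e + 1) x).ncard) := Nat.mul_le_mul_left _ h3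
      _ = C * b * (Bl S0 (n + (e + 1)) x).ncard := by rw [add_assoc n e 1]; ring
  induction j with
  | zero =>
    rw [pow_zero, pow_zero, one_mul]
    exact (Set.ncard_pos (bl_finite hfin _ x)).2 ⟨x, bl_self⟩
  | succ j ih =>
    have h3 := h2 (d * j)
    calc (C * b + 1) ^ (j + 1) = (C * b + 1) * (C * b + 1) ^ j := pow_succ' _ _
      _ ≤ (C * b + 1) * ((C * b) ^ j * (Bl S0 (d * j) x).ncard) := Nat.mul_le_mul_left _ ih
      _ = (C * b) ^ j * ((C * b + 1) * (Bl S0 (d * j) x).ncard) := by ring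
      _ ≤ (C * b) ^ j * (C * b * (Bl S0 (d * j + d) x).ncard) := Nat.mul_le_mul_left _ h3
      _ = (C * b) ^ (j + 1) * (Bl S0 (d * (j + 1)) x).ncard := by rw [Nat.mul_succ]; ring

/-- the translates of the big set have measure zero -/
theorem vn_mean {S0 : Set G} (hfin : S0.Finite) {K : Subgroup G} {d : ℕ}
    (hcos : ∀ g : G, ∃ h ∈ ((S0 ∪ S0⁻¹ ∪ {1}) ^ d : Set G), h * g ∈ K) {C : ℕ} {Big : Set Ω}
    (hI : Isop S0 C Big) (hB : ∀ k ∈ K, ∀ y ∈ Big, k • y ∈ Big) {m : Set Ω → ℝ} (hm : Mean G m) :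
    m {y | ∃ g : G, g • y ∈ Big} = 0 := by
  classical
  have hdf := gens_pow_finite hfin d
  have h0 : m Big = 0 := mean_big hfin hI hm
  -- subadditivity
  have hsubadd : ∀ A B : Set Ω, m (A ∪ B) ≤ m A + m B := by
    intro A B
    have h1 := hm.add A (B \ A) Set.disjoint_sdiff_right
    rw [Set.union_sdiff_self] at h1
    have h2 := hm.mono (Set.sdiff_subset : B \ A ⊆ B)
    linarith
  have h1 : ∀ s : Finset G, m (⋃ h ∈ s, (fun y : Ω => h • y) ⁻¹' Big) ≤ 0 := by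
    intro s
    induction s using Finset.induction_on with
    | empty => simp [hm.empty]
    | insert a s _ ih =>
      rw [Finset.set_biUnion_insert]
      refine (hsubadd _ _).trans ?_
      rw [hm.inv, h0]
      linarith
  have h2 : {y | ∃ g : G, g • y ∈ Big} ⊆
      ⋃ h ∈ hdf.toFinset, (fun y : Ω => h • y) ⁻¹' Big := by
    rintro y ⟨g, hg⟩
    obtain ⟨h, hh, hhg⟩ := hcos g⁻¹
    rw [Set.mem_iUnion₂]
    refine ⟨h, by simpa using hh, ?_⟩
    have h3 := hB _ hhg _ hg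
    rwa [mul_smul, inv_smul_smul] at h3
  have h3 := (hm.mono h2).trans (h1 _)
  exact le_antisymm h3 (hm.nonneg _)

/-- transport of a mean along an orbit map -/
theorem mean_orbit {μ : Set G → ℝ} (hμ : Mean G μ) (x : Ω) :
    Mean G (fun A : Set Ω => μ {g | g • x ∈ A}) := by
  refine ⟨?_, fun A => hμ.nonneg _, fun A B hAB => ?_, fun g A => ?_⟩
  · simp only [Set.mem_univ, Set.ofPred_true]
    exact hμ.univ
  · exact hμ.add {g | g • x ∈ A} {g | g • x ∈ B}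
      (Set.disjoint_left.2 fun g hg hg' => Set.disjoint_left.1 hAB hg hg')
  · rw [← hμ.inv g {g | g • x ∈ A}]
    congr 1
    ext h
    simp [mul_smul]

end Run7.h266
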