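import Pool.Agent.Run7.h266.Compl
import Pool.Agent.Run7.h266.Free

/-!
# The infinite cyclic covering of a glued action
-/

set_option autoImplicit false

namespace Run7.h266

variable {L : Type} {S : Sys L} {X V : Type} {F : Fib S X V} {J : Type}

namespace GS

variable (g : GS F J)

open Classical in
/-- the cocycle which counts the passages through an edge -/
noncomputable def dl (j0 : J) (w0 : V) (j : J) (w : V) : ℤ :=
  if (j, w) = (j0, w0) then 1 else if (j, w) = g.μ j0 w0 then -1 else 0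

theorem μ_ne {j0 : J} {w0 : V} (h0 : F.Adj (g.loc j0) w0) : g.μ j0 w0 ≠ (j0, w0) := by
  intro h
  have h1 := g.tyq j0 w0 h0
  rw [h] at h1
  have h2 : F.col (g.loc j0) = F.col w0 := congrArg (fun z => z.2.2.1) h1
  exact h0.col h2.symm

theorem dl_self {j0 : J} {w0 : V} : g.dl j0 w0 j0 w0 = 1 := by
  unfold dl
  rw [if_pos rfl]

theorem dl_of_ne {j0 : J} {w0 : V} {j : J} {w : V} (h1 : (j, w) ≠ (j0, w0))
    (h2 : (j, w) ≠ g.μ j0 w0) : g.dl j0 w0 j w = 0 := by
  unfold dl
  rw [if_neg h1, if_neg h2]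

theorem dl_μ {j0 : J} {w0 : V} (h0 : F.Adj (g.loc j0) w0) {j : J} {w : V}
    (h : F.Adj (g.loc j) w) : g.dl j0 w0 (g.μ j w).1 (g.μ j w).2 = -g.dl j0 w0 j w := by
  have hinv := g.inv j w h
  have hinv0 := g.inv j0 w0 h0
  by_cases h1 : (j, w) = (j0, w0)
  · obtain ⟨rfl, rfl⟩ := Prod.mk.injEq _ _ _ _ ▸ h1
    rw [dl_self]
    unfold dl
    rw [if_neg (g.μ_ne h0), if_pos rfl]
  · by_cases h2 : (j, w) = g.μ j0 w0
    · have h3 : g.μ j w = (j0, w0) := by
        rw [← hinv0, ← h2]
      rw [h3, dl_self]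
      unfold dl
      rw [if_neg h1, if_pos h2]
      rfl
    · rw [g.dl_of_ne h1 h2, g.dl_of_ne]
      · rfl
      · intro h3
        apply h2
        have h4 : g.μ j w = (j0, w0) := h3
        rw [← hinv, h4]
      · intro h3
        apply h1
        have h4 : g.μ j w = g.μ j0 w0 := h3
        rw [← hinv, h4, hinv0]

/-- the infinite cyclic covering -/
noncomputable def cov (j0 : J) (w0 : V) (h0 : F.Adj (g.loc j0) w0) : GS F (J × ℤ) where
  loc p := g.loc p.1
  μ p w := (((g.μ p.1 w).1, p.2 + g.dl j0 w0 p.1 w), (g.μ p.1 w).2)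
  adj p w h := g.adj p.1 w h
  inv := by
    rintro ⟨j, n⟩ w h
    dsimp only
    rw [g.dl_μ h0 h, g.inv j w h, add_assoc, add_neg_cancel, add_zero]
  tyq p w h := g.tyq p.1 w h

theorem cov_shift (j0 : J) (w0 : V) (h0 : F.Adj (g.loc j0) w0) (c : ℤ) (w : List L)
    (p : (J × ℤ) × X) : run (g.cov j0 w0 h0).stp w ((p.1.1, p.1.2 + c), p.2) =
      (((run (g.cov j0 w0 h0).stp w p).1.1, (run (g.cov j0 w0 h0).stp w p).1.2 + c),
        (run (g.cov j0 w0 h0).stp w p).2) := by
  refine (g.cov j0 w0 h0).run_map (g.cov j0 w0 h0) (fun q : J × ℤ => (q.1, q.2 + c))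
    (fun _ => rfl) ?_ w p
  rintro ⟨j, n⟩ w h
  show (((g.μ j w).1, n + c + g.dl j0 w0 j w), (g.μ j w).2) =
    (((g.μ j w).1, n + g.dl j0 w0 j w + c), (g.μ j w).2)
  rw [add_right_comm]

theorem cov_proj (j0 : J) (w0 : V) (h0 : F.Adj (g.loc j0) w0) (w : List L)
    (p : (J × ℤ) × X) : run g.stp w (p.1.1, p.2) =
      ((run (g.cov j0 w0 h0).stp w p).1.1, (run (g.cov j0 w0 h0).stp w p).2) :=
  (g.cov j0 w0 h0).run_map g (fun q : J × ℤ => q.1) (fun _ => rfl) (fun _ _ _ => rfl) w p

theorem run_mem {p : J × X} (hp : F.π p.2 = g.loc p.1) (w : List L) :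
    F.π (run g.stp w p).2 = g.loc (run g.stp w p).1 := by
  induction w with
  | nil => exact hp
  | cons a w ih => exact g.stp_mem ih a

/-- A word which moves a point of the covering to its translate is seen by a homomorphism from a
subgroup of finite index to the integers. -/
theorem seen_of_wind {G : Type} [Group G] (P : Pres S G) [Finite J] {j0 : J} {w0 : V}
    (h0 : F.Adj (g.loc j0) w0) {j : J} {y : X} (hy : F.π y = g.loc j) (m : ℤ) (w : List L)
    (hw : run (g.cov j0 w0 h0).stp w ((j, m), y) = ((j, m + 1), y)) :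
    ∃ K : Subgroup G, K.FiniteIndex ∧ ∃ ψ : K →* Multiplicative ℤ, ∃ k : K,
      (k : G) = P.val w ∧ ψ k ≠ 1 := by
  classical
  obtain ⟨ρ, hρ⟩ := P.lift ((J × ℤ) × X) (g.cov j0 w0 h0).stp (g.cov j0 w0 h0).isAct
  obtain ⟨σ, hσ⟩ := P.lift (J × X) g.stp g.isAct
  -- translations
  have hshift : ∀ (x : G) (p : (J × ℤ) × X) (c : ℤ), ρ x ((p.1.1, p.1.2 + c), p.2) =
      (((ρ x p).1.1, (ρ x p).1.2 + c), (ρ x p).2) := by
    intro x p c
    obtain ⟨w, rfl⟩ := P.surj x
    rw [hρ, hρ]
    exact g.cov_shift j0 w0 h0 c w p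
  have hproj : ∀ (x : G) (p : (J × ℤ) × X), σ x (p.1.1, p.2) = ((ρ x p).1.1, (ρ x p).2) := by
    intro x p
    obtain ⟨w, rfl⟩ := P.surj x
    rw [hρ, hσ]
    exact g.cov_proj j0 w0 h0 w p
  let K : Subgroup G :=
    { carrier := {x | σ x (j, y) = (j, y)}
      one_mem' := by simp
      mul_mem' := by
        intro a b ha hb
        simp only [Set.mem_ofPred_eq] at ha hb ⊢
        rw [map_mul, Equiv.Perm.mul_apply, hb, ha]
      inv_mem' := by
        intro a ha
        simp only [Set.mem_ofPred_eq] at ha ⊢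
        rw [map_inv, Equiv.Perm.inv_eq_iff_eq]
        exact ha.symm }
  have hK : K.FiniteIndex := by
    let _ : MulAction G (J × X) :=
      { smul := fun x p => σ x p
        one_smul := fun p => by show σ 1 p = p; simp
        mul_smul := fun a b p => by show σ (a * b) p = σ a (σ b p); simp }
    have h1 : K = MulAction.stabilizer G (j, y) := by
      ext x
      rfl
    have h2 : (MulAction.orbit G (j, y)).Finite := by
      have h3 : {p : J × X | F.π p.2 = g.loc p.1}.Finite := by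
        have h4 : {p : J × X | F.π p.2 = g.loc p.1} ⊆
            ⋃ j : J, (fun x => (j, x)) '' {x | F.π x = g.loc j} := by
          rintro ⟨j, x⟩ hp
          exact Set.mem_iUnion.2 ⟨j, x, hp, rfl⟩
        refine (Set.finite_iUnion fun j => ?_).subset h4
        exact (Set.finite_of_encard_le_coe (F.fib (g.loc j))).image _
      refine h3.subset ?_
      rintro p ⟨x, rfl⟩
      obtain ⟨w, rfl⟩ := P.surj x
      show F.π (σ (P.val w) (j, y)).2 = g.loc (σ (P.val w) (j, y)).1
      rw [hσ]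
      exact g.run_mem hy w
    rw [h1]
    constructor
    rw [MulAction.index_stabilizer]
    exact ((Set.ncard_pos h2).2 ⟨_, MulAction.mem_orbit_self _⟩).ne'
  have hkey : ∀ x ∈ K, ρ x ((j, 0), y) = ((j, (ρ x ((j, 0), y)).1.2), y) := by
    intro x hx
    have h1 := hproj x ((j, 0), y)
    have h2 : σ x (j, y) = (j, y) := hx
    dsimp only at h1
    rw [h2, Prod.mk.injEq] at h1
    exact Prod.ext (Prod.ext h1.1.symm rfl) h1.2.symm
  refine ⟨K, hK,
    { toFun := fun k => Multiplicative.ofAdd (ρ k.1 ((j, 0), y)).1.2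
      map_one' := by simp
      map_mul' := ?_ }, ?_⟩
  · intro a b
    have ha := hkey a.1 a.2
    have hb := hkey b.1 b.2
    rw [← ofAdd_add]
    congr 1
    show (ρ (a.1 * b.1) ((j, 0), y)).1.2 = _
    rw [map_mul, Equiv.Perm.mul_apply, hb]
    have h1 := hshift a.1 ((j, 0), y) (ρ b.1 ((j, 0), y)).1.2
    dsimp only at h1
    rw [zero_add] at h1
    rw [h1]
  · have h1 : ρ (P.val w) ((j, 0), y) = ((j, 1), y) := by
      have h2 := g.cov_shift j0 w0 h0 (-m) w ((j, m), y)
      rw [hw] at h2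
      dsimp only at h2
      rw [hρ]
      have h3 : m + -m = 0 := by ring
      have h4 : m + 1 + -m = 1 := by ring
      rw [h3, h4] at h2
      exact h2
    have hmem : P.val w ∈ K := by
      show σ (P.val w) (j, y) = (j, y)
      have h2 := hproj (P.val w) ((j, 0), y)
      rw [h1] at h2
      exact h2
    refine ⟨⟨P.val w, hmem⟩, rfl, ?_⟩
    intro h2
    have h3 : (ρ (P.val w) ((j, 0), y)).1.2 = 0 := congrArg Multiplicative.toAdd h2
    rw [h1] at h3
    exact one_ne_zero h3

end GS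

end Run7.h266
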